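import Pool.Agent.Lib.MP_a7c6c3_lc.Rules2

/-! Module `DV`: the Donsker–Varadhan bound along a channel. -/

set_option autoImplicit false
open Finset

namespace Pool.Agent.Lib.MP_a7c6c3_lc

variable {Ω : Type} [Fintype Ω]

namespace PS

variable (P : PS Ω)

theorem dv_cl_eq {α : Type} [DecidableEq α] (f : Ω → α) (ω : Ω) :
    P.cl f ω = P.m fun ω' => if f ω' = f ω then 1 else 0 := by
  simp only [PS.cl, PS.m, Finset.sum_filter, mul_ite, mul_one, mul_zero]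

theorem dv_cl_congr {α : Type} [DecidableEq α] (f : Ω → α) {ω ω' : Ω} (h : f ω = f ω') :
    P.cl f ω = P.cl f ω' := by
  simp only [PS.cl, h]

theorem dv_cexp_eq {α : Type} [DecidableEq α] (f : Ω → α) (l : Ω → ℝ) (ω : Ω) :
    P.cexp f l ω = (P.m fun ω' => if f ω' = f ω then l ω' else 0) / P.cl f ω := by
  simp only [PS.cexp, PS.m, Finset.sum_filter, mul_ite, mul_zero]

theorem dv_cexp_congr {α : Type} [DecidableEq α] (f : Ω → α) (l : Ω → ℝ) {ω ω' : Ω}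
    (h : f ω = f ω') : P.cexp f l ω = P.cexp f l ω' := by
  simp only [PS.cexp, PS.cl, h]

/-- The entropy of a function is the mean of minus the log of the class probability. -/
theorem dv_J_det {α : Type} [DecidableEq α] (f : Ω → α) :
    P.J (det f) = - P.m fun ω => Real.log (P.cl f ω) := by
  have h1 : P.H (det f) = ∑ v ∈ univ.image f,
      Real.negMulLog (P.m fun ω => if f ω = v then 1 else 0) := by
    simp only [PS.H, Nm.lin, det, Multiset.map_map, Function.comp_def]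
    rfl
  rw [PS.J, P.Hc_det, sub_zero, h1]
  have h2 : (P.m fun ω => Real.log (P.cl f ω)) =
      ∑ v ∈ univ.image f, ∑ ω ∈ univ.filter (fun ω => f ω = v), P.p ω * Real.log (P.cl f ω) := by
    rw [Finset.sum_fiberwise_of_maps_to (fun ω _ => Finset.mem_image_of_mem f (mem_univ ω))]
    rfl
  rw [h2, ← Finset.sum_neg_distrib]
  refine Finset.sum_congr rfl fun v _ => ?_
  have h3 : ∀ ω ∈ univ.filter (fun ω => f ω = v), P.p ω * Real.log (P.cl f ω) =
      P.p ω * Real.log (P.m fun ω => if f ω = v then 1 else 0) := by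
    intro ω hω
    rw [P.dv_cl_eq, (Finset.mem_filter.1 hω).2]
  rw [Finset.sum_congr rfl h3, ← Finset.sum_mul, Real.negMulLog]
  have h4 : ∑ ω ∈ univ.filter (fun ω => f ω = v), P.p ω =
      P.m fun ω => if f ω = v then 1 else 0 := by
    simp only [PS.m, Finset.sum_filter, mul_ite, mul_one, mul_zero]
  rw [h4]
  ring

theorem dv_J_pair {α β : Type} [DecidableEq α] [DecidableEq β] (f : Ω → α) (g : Ω → β) :
    P.J (det f * det g) = P.J (det fun ω => (f ω, g ω)) := by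
  have h1 := P.D_det_pair (f := f) (g := g) (h := fun ω => (f ω, g ω))
    (fun ω ω' e e' => by simp only [e, e']) 1
  have hf : Ref (fun ω => (f ω, g ω)) f := fun ω ω' e => congrArg Prod.fst e
  have hg : Ref (fun ω => (f ω, g ω)) g := fun ω ω' e => congrArg Prod.snd e
  have h2 := P.J_absorb ((meas_det hf).mul (meas_det hg)) 1
  simp only [PS.D, mul_one] at h1 h2
  rw [mul_comm] at h2
  linarith

theorem dv_I_det {α β γ : Type} [DecidableEq α] [DecidableEq β] [DecidableEq γ] {x : Ω → α}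
    {y : Ω → β} {z : Ω → γ} (hx : Ref x z) (hy : Ref y z) :
    P.I (det x) (det y) (det z) = - P.m fun ω =>
      Real.log (P.cl x ω * P.cl y ω / (P.cl (fun ω => (x ω, y ω)) ω * P.cl z ω)) := by
  have h1 := P.J_absorb (meas_det hx) 1
  have h2 := P.J_absorb (meas_det hy) 1
  have h3 := P.J_absorb (meas_det hx) (det y)
  have h4 := P.dv_J_pair x y
  simp only [mul_one] at h1 h2
  rw [mul_comm] at h1 h2 h3
  have h5 : (P.m fun ω =>
      Real.log (P.cl x ω * P.cl y ω / (P.cl (fun ω => (x ω, y ω)) ω * P.cl z ω))) =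
      (P.m fun ω => Real.log (P.cl x ω)) + (P.m fun ω => Real.log (P.cl y ω)) -
        (P.m fun ω => Real.log (P.cl (fun ω => (x ω, y ω)) ω)) -
        (P.m fun ω => Real.log (P.cl z ω)) := by
    simp only [PS.m, ← Finset.sum_add_distrib, ← Finset.sum_sub_distrib]
    refine Finset.sum_congr rfl fun ω _ => ?_
    have a1 := (P.cl_pos x ω).ne'
    have a2 := (P.cl_pos y ω).ne'
    have a3 := (P.cl_pos (fun ω => (x ω, y ω)) ω).ne'
    have a4 := (P.cl_pos z ω).ne'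
    rw [Real.log_div (mul_ne_zero a1 a2) (mul_ne_zero a3 a4), Real.log_mul a1 a2,
      Real.log_mul a3 a4]
    ring
  rw [PS.I, h1, h2, h3, h4, h5, P.dv_J_det, P.dv_J_det, P.dv_J_det, P.dv_J_det]
  ring

/-- The mass of one class of the pair, normalised. -/
theorem dv_class {α β γ : Type} [DecidableEq α] [DecidableEq β] [DecidableEq γ] {x : Ω → α}
    {y : Ω → β} {z : Ω → γ} (hx : Ref x z) (hy : Ref y z) (ω₁ ω₂ : Ω) :
    ∑ ω, (if x ω₁ = x ω ∧ y ω₂ = y ω then P.p ω / P.cl (fun ω => (x ω, y ω)) ω else 0) ≤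
      if z ω₂ = z ω₁ then 1 else 0 := by
  by_cases hex : ∃ ω₀, x ω₁ = x ω₀ ∧ y ω₂ = y ω₀
  · obtain ⟨ω₀, e₁, e₂⟩ := hex
    have hz : z ω₂ = z ω₁ := (hy _ _ e₂).trans (hx _ _ e₁).symm
    rw [if_pos hz]
    have h1 : ∀ ω, (if x ω₁ = x ω ∧ y ω₂ = y ω then
        P.p ω / P.cl (fun ω => (x ω, y ω)) ω else 0) =
        (if (x ω, y ω) = (x ω₀, y ω₀) then P.p ω else 0) / P.cl (fun ω => (x ω, y ω)) ω₀ := by
      intro ω
      by_cases hc : x ω₁ = x ω ∧ y ω₂ = y ω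
      · have e : (x ω, y ω) = (x ω₀, y ω₀) := by rw [← hc.1, ← hc.2, e₁, e₂]
        rw [if_pos hc, if_pos e, P.dv_cl_congr (fun ω => (x ω, y ω)) e]
      · have e : ¬ (x ω, y ω) = (x ω₀, y ω₀) := by
          intro e
          apply hc
          rw [Prod.mk.injEq] at e
          exact ⟨e₁.trans e.1.symm, e₂.trans e.2.symm⟩
        rw [if_neg hc, if_neg e, zero_div]
    simp only [h1]
    rw [← Finset.sum_div, ← Finset.sum_filter]
    exact (div_self (P.cl_pos (fun ω => (x ω, y ω)) ω₀).ne').le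
  · have h1 : ∀ ω, (if x ω₁ = x ω ∧ y ω₂ = y ω then
        P.p ω / P.cl (fun ω => (x ω, y ω)) ω else 0) = 0 := fun ω =>
      if_neg fun hc => hex ⟨ω, hc⟩
    simp only [h1, Finset.sum_const_zero]
    split_ifs <;> norm_num

theorem dv_mass {α β γ : Type} [DecidableEq α] [DecidableEq β] [DecidableEq γ] {x : Ω → α}
    {y : Ω → β} {z : Ω → γ} (hx : Ref x z) (hy : Ref y z) (G : Ω → Ω → ℝ)
    (hG0 : ∀ ω₁ ω₂, 0 ≤ G ω₁ ω₂)
    (hG : ∀ ω₁ ω₁' ω₂ ω₂', x ω₁ = x ω₁' → y ω₂ = y ω₂' → G ω₁ ω₂ = G ω₁' ω₂') :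
    (P.m fun ω => G ω ω * (P.cl x ω * P.cl y ω / (P.cl (fun ω => (x ω, y ω)) ω * P.cl z ω))) ≤
      P.m fun ω₁ => P.cexp z (fun ω₂ => G ω₁ ω₂) ω₁ := by
  have h1 : ∀ ω, P.p ω *
      (G ω ω * (P.cl x ω * P.cl y ω / (P.cl (fun ω => (x ω, y ω)) ω * P.cl z ω))) =
      ∑ ω₁, ∑ ω₂, (P.p ω₁ * P.p ω₂ * G ω₁ ω₂ / P.cl z ω₁) *
        (if x ω₁ = x ω ∧ y ω₂ = y ω then P.p ω / P.cl (fun ω => (x ω, y ω)) ω else 0) := by
    intro ω
    have e : P.cl x ω * P.cl y ω = ∑ ω₁, ∑ ω₂,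
        if x ω₁ = x ω ∧ y ω₂ = y ω then P.p ω₁ * P.p ω₂ else 0 := by
      simp only [PS.cl, Finset.sum_filter]
      rw [Finset.sum_mul_sum]
      refine Finset.sum_congr rfl fun ω₁ _ => Finset.sum_congr rfl fun ω₂ _ => ?_
      by_cases c₁ : x ω₁ = x ω <;> by_cases c₂ : y ω₂ = y ω <;> simp [c₁, c₂]
    rw [e]
    simp only [Finset.sum_div, Finset.mul_sum]
    refine Finset.sum_congr rfl fun ω₁ _ => Finset.sum_congr rfl fun ω₂ _ => ?_
    split_ifs with hc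
    · rw [hG ω₁ ω ω₂ ω hc.1 hc.2, P.dv_cl_congr z (hx _ _ hc.1)]
      have a3 := (P.cl_pos (fun ω => (x ω, y ω)) ω).ne'
      have a4 := (P.cl_pos z ω).ne'
      field_simp
    · simp
  have h2 : ∀ ω₁, P.p ω₁ * P.cexp z (fun ω₂ => G ω₁ ω₂) ω₁ =
      ∑ ω₂, (P.p ω₁ * P.p ω₂ * G ω₁ ω₂ / P.cl z ω₁) * (if z ω₂ = z ω₁ then 1 else 0) := by
    intro ω₁
    simp only [PS.cexp, Finset.sum_filter, Finset.sum_div, Finset.mul_sum]
    refine Finset.sum_congr rfl fun ω₂ _ => ?_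
    split_ifs
    · ring
    · simp
  simp only [PS.m, h1, h2]
  rw [Finset.sum_comm]
  refine Finset.sum_le_sum fun ω₁ _ => ?_
  rw [Finset.sum_comm]
  refine Finset.sum_le_sum fun ω₂ _ => ?_
  rw [← Finset.mul_sum]
  refine mul_le_mul_of_nonneg_left (P.dv_class hx hy ω₁ ω₂) ?_
  exact div_nonneg (mul_nonneg (mul_nonneg (P.pos _).le (P.pos _).le) (hG0 _ _))
    (P.cl_pos z ω₁).le

/-- Donsker–Varadhan bound on one space. -/
theorem dv_base {α β γ : Type} [DecidableEq α] [DecidableEq β] [DecidableEq γ] {x : Ω → α}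
    {y : Ω → β} {z : Ω → γ} (hx : Ref x z) (hy : Ref y z) (h : Ω → Ω → ℝ)
    (hh : ∀ ω₁ ω₁' ω₂ ω₂', x ω₁ = x ω₁' → y ω₂ = y ω₂' → h ω₁ ω₂ = h ω₁' ω₂') :
    (P.m fun ω => h ω ω) ≤ P.I (det x) (det y) (det z) - 1 +
      P.m fun ω₁ => P.cexp z (fun ω₂ => Real.exp (h ω₁ ω₂)) ω₁ := by
  have h1 := P.dv_mass hx hy (fun ω₁ ω₂ => Real.exp (h ω₁ ω₂)) (fun _ _ => (Real.exp_pos _).le)
    (fun ω₁ ω₁' ω₂ ω₂' e₁ e₂ => by rw [hh _ _ _ _ e₁ e₂])
  rw [P.dv_I_det hx hy]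
  set q : Ω → ℝ := fun ω =>
    P.cl x ω * P.cl y ω / (P.cl (fun ω => (x ω, y ω)) ω * P.cl z ω) with hq
  have hq0 : ∀ ω, 0 < q ω := fun ω =>
    div_pos (mul_pos (P.cl_pos _ _) (P.cl_pos _ _)) (mul_pos (P.cl_pos _ _) (P.cl_pos _ _))
  have h2 : ∀ ω, h ω ω + Real.log (q ω) + 1 ≤ Real.exp (h ω ω) * q ω := by
    intro ω
    have := Real.add_one_le_exp (h ω ω + Real.log (q ω))
    rwa [Real.exp_add, Real.exp_log (hq0 ω)] at this
  have h3 := P.m_le h2
  have h4 : (P.m fun ω => h ω ω + Real.log (q ω) + 1) =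
      (P.m fun ω => h ω ω) + (P.m fun ω => Real.log (q ω)) + 1 := by
    simp only [PS.m, mul_add, Finset.sum_add_distrib, mul_one, P.sum_one]
  rw [h4] at h3
  linarith

end PS

namespace Chan

variable {P : PS Ω}

theorem dv_cl_st {γ : Type} [DecidableEq γ] (K : Chan P) (F : Ω → γ) (x : K.Ext) :
    K.ext.cl (fun x => F (K.st x)) x = P.cl F (K.st x) := by
  rw [PS.dv_cl_eq, PS.dv_cl_eq, ← K.ext_m_st]
  rfl

theorem dv_cexp_st {γ : Type} [DecidableEq γ] (K : Chan P) (F : Ω → γ) (l : Ω → ℝ) (x : K.Ext) :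
    K.ext.cexp (fun x => F (K.st x)) (fun x => l (K.st x)) x = P.cexp F l (K.st x) := by
  rw [PS.dv_cexp_eq, PS.dv_cexp_eq, K.dv_cl_st, ← K.ext_m_st]
  rfl

theorem dv_info {α β γ : Type} [DecidableEq α] [DecidableEq β] [DecidableEq γ] {f : Ω → α}
    (g : Ω → β) (F : Ω → γ) {K : Chan P} (hK : K.SMeas f) :
    K.ext.I (det fun x => f (K.en x)) (det fun x => g (K.st x)) (det fun x => F (K.st x)) ≤
      P.I (det f) (det g) (det F) := by
  rw [K.det_en, K.det_st, K.det_st, PS.I_comm, PS.I_eq]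
  have h1 := K.ext.D_anti ((det g).lift K.st) (det K.mk') ((det f).lift K.en * (det F).lift K.st)
  have h2 := K.ext_D_st (det f) (det g) (det F)
  have h3 : K.ext.D ((det g).lift K.st) ((det F).lift K.st) = P.D (det g) (det F) := by
    rw [PS.D, PS.D, ← Nm.lift_mul, K.ext_J_st, K.ext_J_st]
  have h4 := P.I_le_det (hK.meas_app (det f)) (det g) (det F)
  rw [PS.I_comm, PS.I_eq] at h4
  rw [← mul_assoc, h2] at h1
  linarith

/-- Donsker–Varadhan bound along a channel. -/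
theorem dv {α β γ : Type} [DecidableEq α] [DecidableEq β] [DecidableEq γ] {f : Ω → α} {g : Ω → β}
    {F : Ω → γ} {K : Chan P} (hF : K.Pres F) (hK : K.SMeas f) (hf : Ref f F) (hg : Ref g F)
    (h : Ω → Ω → ℝ) (hh : ∀ ω₁ ω₁' ω₂ ω₂', f ω₁ = f ω₁' → g ω₂ = g ω₂' → h ω₁ ω₂ = h ω₁' ω₂') :
    K.ext.m (fun x => h (K.en x) (K.st x)) ≤
      P.I (det f) (det g) (det F) - 1 +
        P.m fun ω₁ => P.cexp F (fun ω₂ => Real.exp (h ω₁ ω₂)) ω₁ := by
  have hx : Ref (fun x : K.Ext => f (K.en x)) (fun x => F (K.st x)) := by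
    intro x x' e
    show F (K.st x) = F (K.st x')
    rw [hF.ext_eq x, hF.ext_eq x']
    exact hf _ _ e
  have hy : Ref (fun x : K.Ext => g (K.st x)) (fun x => F (K.st x)) := fun x x' e => hg _ _ e
  have h1 := K.ext.dv_base hx hy (fun x₁ x₂ => h (K.en x₁) (K.st x₂))
    (fun x₁ x₁' x₂ x₂' e₁ e₂ => hh _ _ _ _ e₁ e₂)
  have h2 := dv_info g F hK
  have h3 : (K.ext.m fun x₁ => K.ext.cexp (fun x => F (K.st x))
      (fun x₂ => Real.exp (h (K.en x₁) (K.st x₂))) x₁) =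
      P.m fun ω₁ => P.cexp F (fun ω₂ => Real.exp (h ω₁ ω₂)) ω₁ := by
    rw [← K.ext_m_en]
    congr 1
    funext x₁
    rw [K.dv_cexp_st F (fun ω₂ => Real.exp (h (K.en x₁) ω₂)) x₁]
    exact P.dv_cexp_congr F _ (hF.ext_eq x₁)
  rw [h3] at h1
  linarith

end Chan

end Pool.Agent.Lib.MP_a7c6c3_lc
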