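import Pool.Agent.Lib.MP_a7c6c3_lc.Net
import Pool.Agent.Lib.MP_a7c6c3_lc.DV

/-! Module `Amplify`: many independent tests need much information. -/

set_option autoImplicit false
open Finset
open scoped BigOperators

namespace Pool.Agent.Lib.MP_a7c6c3_lc

theorem amp_exp_le {x : ℝ} (h0 : 0 ≤ x) (h1 : x ≤ 1) : Real.exp x ≤ 1 + 2 * x := by
  have h := (convexOn_exp).2 (Set.mem_univ (0 : ℝ)) (Set.mem_univ (1 : ℝ))
    (show 0 ≤ 1 - x by linarith) h0 (by ring)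
  simp only [smul_eq_mul, mul_zero, mul_one, zero_add, Real.exp_zero] at h
  have h3 : Real.exp 1 ≤ 3 := by
    have := Real.exp_one_lt_d9
    linarith
  nlinarith

/-- The mean of a product of functions of independent coordinates. -/
theorem amp_expect_prod {ι Y : Type} [Fintype ι] [DecidableEq ι] [Fintype Y]
    (G : ι → Y → ℝ) : (𝔼 y : ι → Y, ∏ i, G i (y i)) = ∏ i, 𝔼 v, G i v := by
  simp only [Finset.expect_eq_sum_div_card]
  rw [Finset.prod_div_distrib, Finset.prod_univ_sum, Fintype.piFinset_univ]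
  simp

theorem amp_expect_split {j r : ℕ} {Λ : Type} [Fintype Λ] [DecidableEq Λ]
    (eq : Fin r × (Λ ⊕ Λ) ≃ Fin j) (G : Fin r → (Λ → Bool) → (Λ → Bool) → ℝ) :
    (𝔼 σ : Fin j → Bool, ∏ i, G i (fun l => σ (eq (i, Sum.inl l)))
      (fun l => σ (eq (i, Sum.inr l)))) = ∏ i, 𝔼 u, 𝔼 v, G i u v := by
  let E : (Fin j → Bool) ≃ (Fin r → (Λ → Bool) × (Λ → Bool)) :=
    ((Equiv.arrowCongr eq.symm (Equiv.refl Bool)).trans (Equiv.curry _ _ _)).trans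
      (Equiv.piCongrRight fun _ => Equiv.sumArrowEquivProdArrow Λ Λ Bool)
  have h1 : (𝔼 σ : Fin j → Bool, ∏ i, G i (fun l => σ (eq (i, Sum.inl l)))
      (fun l => σ (eq (i, Sum.inr l)))) =
      𝔼 y : Fin r → (Λ → Bool) × (Λ → Bool), ∏ i, G i (y i).1 (y i).2 :=
    Fintype.expect_equiv E _ _ fun σ => rfl
  rw [h1, amp_expect_prod (fun i (v : (Λ → Bool) × (Λ → Bool)) => G i v.1 v.2)]
  refine Finset.prod_congr rfl fun i _ => ?_
  rw [← Finset.univ_product_univ, Finset.expect_product]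

theorem amp_m_expect {Ω S : Type} [Fintype Ω] [Fintype S] (P : PS Ω) (l : S → Ω → ℝ) :
    (𝔼 σ, P.m (l σ)) = P.m fun ω => 𝔼 σ, l σ ω := by
  simp only [PS.m]
  rw [Finset.expect_sum_comm]
  simp only [Finset.mul_expect]

theorem amp_cexp_expect {Ω S γ : Type} [Fintype Ω] [Fintype S] [DecidableEq γ] (P : PS Ω)
    (F : Ω → γ) (l : S → Ω → ℝ) (ω : Ω) :
    (𝔼 σ, P.cexp F (l σ) ω) = P.cexp F (fun ω' => 𝔼 σ, l σ ω') ω := by
  simp only [PS.cexp]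
  rw [← Finset.expect_div, Finset.expect_sum_comm]
  simp only [Finset.mul_expect]

theorem amp_cexp_le_one {Ω γ : Type} [Fintype Ω] [DecidableEq γ] (P : PS Ω)
    (F : Ω → γ) {l : Ω → ℝ} (hl : ∀ ω, l ω ≤ 1) (ω : Ω) : P.cexp F l ω ≤ 1 := by
  rw [PS.cexp, div_le_one (P.cl_pos F ω), PS.cl]
  exact Finset.sum_le_sum fun ω' _ => mul_le_of_le_one_right (P.pos ω').le (hl ω')

theorem amplify {Ω : Type} [Fintype Ω] {T : Type} [DecidableEq T] {P : PS Ω}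
    {π : Fin 3 → Ω → T} {F : Ω → T} {t e ε : ℝ} (hN : Net P π F t e) {j r : ℕ} {Λ : Type}
    [Fintype Λ] [DecidableEq Λ] (eq : Fin r × (Λ ⊕ Λ) ≃ Fin j) (K : (Fin j → Bool) → Chan P)
    (hK : ∀ σ, GoodChan P π F (K σ) ε) (φ : Fin r → (Λ → Bool) → (Λ → Bool) → Ω → Ω → ℝ)
    (a b : ℝ)
    (h1 : ∀ i u v ω₁ ω₁' ω₂ ω₂', π 0 ω₁ = π 0 ω₁' → π 1 ω₂ = π 1 ω₂' →
      φ i u v ω₁ ω₂ = φ i u v ω₁' ω₂')
    (h2 : ∀ i u v ω₁ ω₂, 0 ≤ φ i u v ω₁ ω₂ ∧ φ i u v ω₁ ω₂ ≤ 1)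
    (h3 : ∀ i ω₁ ω₂, 𝔼 u, 𝔼 v, φ i u v ω₁ ω₂ ≤ b)
    (h4 : ∀ i σ, a ≤ (K σ).ext.m fun x => φ i (fun l => σ (eq (i, Sum.inl l)))
      (fun l => σ (eq (i, Sum.inr l))) ((K σ).en x) ((K σ).st x)) :
    r * (a - 2 * b) ≤ e := by
  let H : (Fin j → Bool) → Ω → Ω → ℝ := fun σ ω₁ ω₂ =>
    ∑ i, (φ i (fun l => σ (eq (i, Sum.inl l))) (fun l => σ (eq (i, Sum.inr l))) ω₁ ω₂ - 2 * b)
  have hI := hN.ind 0 1 (by decide)
  have hσ : ∀ σ, r * (a - 2 * b) ≤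
      e - 1 + P.m fun ω₁ => P.cexp F (fun ω₂ => Real.exp (H σ ω₁ ω₂)) ω₁ := by
    intro σ
    have hd := Chan.dv (hK σ).pres (hK σ).smeas (hN.ref 0) (hN.ref 1) (H σ)
      (fun ω₁ ω₁' ω₂ ω₂' e₁ e₂ => by
        refine Finset.sum_congr rfl fun i _ => ?_
        rw [h1 _ _ _ _ _ _ _ e₁ e₂])
    have hl : (K σ).ext.m (fun x => H σ ((K σ).en x) ((K σ).st x)) =
        ∑ i : Fin r, (((K σ).ext.m fun x => φ i (fun l => σ (eq (i, Sum.inl l)))
          (fun l => σ (eq (i, Sum.inr l))) ((K σ).en x) ((K σ).st x)) - 2 * b) := by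
      simp only [PS.m, H, Finset.mul_sum]
      rw [Finset.sum_comm]
      refine Finset.sum_congr rfl fun i _ => ?_
      simp only [mul_sub, Finset.sum_sub_distrib, ← Finset.sum_mul, (K σ).ext.sum_one, one_mul]
    have hs : ∑ _i : Fin r, (a - 2 * b) ≤
        ∑ i : Fin r, (((K σ).ext.m fun x => φ i (fun l => σ (eq (i, Sum.inl l)))
          (fun l => σ (eq (i, Sum.inr l))) ((K σ).en x) ((K σ).st x)) - 2 * b) :=
      Finset.sum_le_sum fun i _ => by linarith [h4 i σ]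
    simp only [Finset.sum_const, Finset.card_univ, Fintype.card_fin, nsmul_eq_mul] at hs
    linarith
  have hE : ∀ ω₁ ω₂, (𝔼 σ, Real.exp (H σ ω₁ ω₂)) ≤ 1 := by
    intro ω₁ ω₂
    have e1 : (𝔼 σ, Real.exp (H σ ω₁ ω₂)) =
        ∏ i, 𝔼 u, 𝔼 v, Real.exp (φ i u v ω₁ ω₂ - 2 * b) := by
      rw [← amp_expect_split eq (fun i u v => Real.exp (φ i u v ω₁ ω₂ - 2 * b))]
      simp only [H, Real.exp_sum]
    rw [e1]
    refine Finset.prod_le_one (fun i _ => ?_) (fun i _ => ?_)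
    · exact Finset.expect_nonneg fun u _ => Finset.expect_nonneg fun v _ => (Real.exp_pos _).le
    · have hb := h3 i ω₁ ω₂
      have e2 : (𝔼 u, 𝔼 v, Real.exp (φ i u v ω₁ ω₂ - 2 * b)) ≤
          𝔼 u, 𝔼 v, (1 + 2 * φ i u v ω₁ ω₂) * Real.exp (-(2 * b)) := by
        refine Finset.expect_le_expect fun u _ => Finset.expect_le_expect fun v _ => ?_
        rw [sub_eq_add_neg, Real.exp_add]
        exact mul_le_mul_of_nonneg_right (amp_exp_le (h2 i u v ω₁ ω₂).1 (h2 i u v ω₁ ω₂).2)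
          (Real.exp_pos _).le
      have e3 : (𝔼 u, 𝔼 v, (1 + 2 * φ i u v ω₁ ω₂) * Real.exp (-(2 * b))) =
          (1 + 2 * 𝔼 u, 𝔼 v, φ i u v ω₁ ω₂) * Real.exp (-(2 * b)) := by
        simp only [← Finset.expect_mul, Finset.expect_add_distrib, ← Finset.mul_expect,
          Fintype.expect_const]
      have e4 : (1 + 2 * b) * Real.exp (-(2 * b)) ≤ 1 := by
        have := Real.add_one_le_exp (2 * b)
        have h5 : Real.exp (2 * b) * Real.exp (-(2 * b)) = 1 := by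
          rw [← Real.exp_add]; simp
        nlinarith [Real.exp_pos (-(2 * b))]
      have e5 := Real.exp_pos (-(2 * b))
      nlinarith
  have hav : (𝔼 σ, P.m fun ω₁ => P.cexp F (fun ω₂ => Real.exp (H σ ω₁ ω₂)) ω₁) ≤ 1 := by
    rw [amp_m_expect, ← P.m_one]
    refine P.m_le fun ω₁ => ?_
    rw [amp_cexp_expect P F (fun σ ω₂ => Real.exp (H σ ω₁ ω₂))]
    exact amp_cexp_le_one P F (hE ω₁) ω₁
  have hfin : (𝔼 _σ : Fin j → Bool, (r : ℝ) * (a - 2 * b)) ≤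
      𝔼 σ, (e - 1 + P.m fun ω₁ => P.cexp F (fun ω₂ => Real.exp (H σ ω₁ ω₂)) ω₁) :=
    Finset.expect_le_expect fun σ _ => hσ σ
  rw [Finset.expect_add_distrib, Fintype.expect_const, Fintype.expect_const] at hfin
  linarith

end Pool.Agent.Lib.MP_a7c6c3_lc
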