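import Pool.Agent.Lib.MP_a7c6c3_lc.Defs

/-! Module `Basic`: sums over names, Shannon inequalities for `J`, deterministic names. -/

set_option autoImplicit false
open Finset

namespace Pool.Agent.Lib.MP_a7c6c3_lc

variable {Ω : Type} [Fintype Ω]

namespace Nm

omit [Fintype Ω]

theorem lin_mul (A B : Nm Ω) (Ψ : (Ω → ℝ) → ℝ) :
    (A * B).lin Ψ = A.lin fun a => B.lin fun b => Ψ (a * b) := by
  simp only [lin, mul_s, Multiset.map_bind, Multiset.sum_bind, Multiset.map_map, Function.comp_def]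

theorem lin_one (Ψ : (Ω → ℝ) → ℝ) : (1 : Nm Ω).lin Ψ = Ψ 1 := by
  simp [lin, one_s]

theorem lin_comm (A B : Nm Ω) (Ψ : (Ω → ℝ) → (Ω → ℝ) → ℝ) :
    (A.lin fun a => B.lin fun b => Ψ a b) = B.lin fun b => A.lin fun a => Ψ a b :=
  Multiset.sum_map_sum_map _ _

theorem lin_congr (A : Nm Ω) {Ψ Φ : (Ω → ℝ) → ℝ} (h : ∀ l ∈ A.s, Ψ l = Φ l) :
    A.lin Ψ = A.lin Φ :=
  congrArg Multiset.sum (Multiset.map_congr rfl h)

theorem lin_le (A : Nm Ω) {Ψ Φ : (Ω → ℝ) → ℝ} (h : ∀ l ∈ A.s, Ψ l ≤ Φ l) :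
    A.lin Ψ ≤ A.lin Φ :=
  Multiset.sum_map_le_sum_map _ _ h

theorem lin_nonneg (A : Nm Ω) {Ψ : (Ω → ℝ) → ℝ} (h : ∀ l ∈ A.s, 0 ≤ Ψ l) : 0 ≤ A.lin Ψ :=
  Multiset.sum_nonneg fun x hx => by
    obtain ⟨l, hl, rfl⟩ := Multiset.mem_map.1 hx
    exact h l hl

theorem lin_add (A : Nm Ω) (Ψ Φ : (Ω → ℝ) → ℝ) :
    (A.lin fun l => Ψ l + Φ l) = A.lin Ψ + A.lin Φ :=
  Multiset.sum_map_add

theorem lin_sub (A : Nm Ω) (Ψ Φ : (Ω → ℝ) → ℝ) :
    (A.lin fun l => Ψ l - Φ l) = A.lin Ψ - A.lin Φ :=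
  Multiset.sum_map_sub

theorem lin_mul_left (A : Nm Ω) (c : ℝ) (Ψ : (Ω → ℝ) → ℝ) :
    (A.lin fun l => c * Ψ l) = c * A.lin Ψ :=
  Multiset.sum_map_mul_left

theorem lin_mul_right (A : Nm Ω) (c : ℝ) (Ψ : (Ω → ℝ) → ℝ) :
    (A.lin fun l => Ψ l * c) = A.lin Ψ * c :=
  Multiset.sum_map_mul_right

theorem lin_sum {ι : Type} (A : Nm Ω) (t : Finset ι) (Ψ : ι → (Ω → ℝ) → ℝ) :
    (A.lin fun l => ∑ i ∈ t, Ψ i l) = ∑ i ∈ t, A.lin (Ψ i) :=
  msum_fsum _ _ _

theorem lin_eval (A : Nm Ω) (ω : Ω) : (A.lin fun l => l ω) = 1 := A.sum_one ω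

/-- A sum over a name is a sum over the finite type of its values. -/
theorem lin_eq_sum_toType (A : Nm Ω) [DecidableEq (Ω → ℝ)] (Ψ : (Ω → ℝ) → ℝ) :
    A.lin Ψ = ∑ i : A.s.ToType, Ψ i.1 :=
  congrArg Multiset.sum (Multiset.map_univ A.s Ψ).symm

theorem le_one (A : Nm Ω) {l : Ω → ℝ} (hl : l ∈ A.s) (ω : Ω) : l ω ≤ 1 :=
  A.sum_one ω ▸ Multiset.single_le_sum (fun x hx => by
    obtain ⟨a, ha, rfl⟩ := Multiset.mem_map.1 hx
    exact A.nonneg a ha ω) _ (Multiset.mem_map_of_mem _ hl)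

theorem lin_lift {Ω' : Type} (g : Ω' → Ω) (A : Nm Ω) (Ψ : (Ω' → ℝ) → ℝ) :
    (A.lift g).lin Ψ = A.lin fun l => Ψ (l ∘ g) := by
  simp only [lin, lift, Multiset.map_map, Function.comp_def]

theorem lift_mul {Ω' : Type} (g : Ω' → Ω) (A B : Nm Ω) :
    (A * B).lift g = A.lift g * B.lift g := by
  apply Nm.ext
  simp only [lift, mul_s, Multiset.map_bind, Multiset.bind_map, Multiset.map_map]
  rfl

theorem lift_one {Ω' : Type} (g : Ω' → Ω) : (1 : Nm Ω).lift g = 1 := by
  apply Nm.ext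
  simp only [lift, one_s, Multiset.map_singleton]
  rfl

theorem lift_prod {Ω' ι : Type} (g : Ω' → Ω) (t : Finset ι) (A : ι → Nm Ω) :
    (∏ i ∈ t, A i).lift g = ∏ i ∈ t, (A i).lift g := by
  classical
  induction t using Finset.induction_on with
  | empty => simp [lift_one]
  | insert i t hi ih => rw [prod_insert hi, prod_insert hi, lift_mul, ih]

theorem bas_mem_mul {A B : Nm Ω} {l : Ω → ℝ} (h : l ∈ (A * B).s) :
    ∃ a ∈ A.s, ∃ b ∈ B.s, a * b = l := by
  simpa only [mul_s, Multiset.mem_bind, Multiset.mem_map] using h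

end Nm

section Meas

variable {α β γ : Type}

omit [Fintype Ω] in
theorem Ref.rfl' (f : Ω → α) : Ref f f := fun _ _ h => h

omit [Fintype Ω] in
theorem Ref.trans {f : Ω → α} {g : Ω → β} {h : Ω → γ} (h₁ : Ref f g) (h₂ : Ref g h) : Ref f h :=
  fun _ _ e => h₂ _ _ (h₁ _ _ e)

omit [Fintype Ω] in
theorem meas_one (f : Ω → α) : Meas f (1 : Nm Ω) := fun l hl _ _ _ => by
  rw [Multiset.mem_singleton.1 hl]
  rfl

omit [Fintype Ω] in
theorem Meas.mul {f : Ω → α} {A B : Nm Ω} (hA : Meas f A) (hB : Meas f B) : Meas f (A * B) := by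
  intro l hl ω ω' e
  obtain ⟨a, ha, b, hb, rfl⟩ := Nm.bas_mem_mul hl
  rw [Pi.mul_apply, Pi.mul_apply, hA a ha ω ω' e, hB b hb ω ω' e]

omit [Fintype Ω] in
theorem meas_prod {ι : Type} {f : Ω → α} (t : Finset ι) (A : ι → Nm Ω)
    (h : ∀ i ∈ t, Meas f (A i)) : Meas f (∏ i ∈ t, A i) :=
  Finset.prod_induction _ _ (fun _ _ => Meas.mul) (meas_one f) h

omit [Fintype Ω] in
theorem Meas.mono {f : Ω → α} {g : Ω → β} {A : Nm Ω} (h : Ref f g) (hA : Meas g A) : Meas f A :=
  fun l hl ω ω' e => hA l hl ω ω' (h ω ω' e)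

omit [Fintype Ω] in
theorem meas_id (A : Nm Ω) : Meas (fun ω : Ω => ω) A := fun l _ _ _ e => congrArg l e

omit [Fintype Ω] in
theorem Meas.lift {Ω' : Type} {f : Ω → α} {A : Nm Ω} (hA : Meas f A) (g : Ω' → Ω) :
    Meas (fun x => f (g x)) (A.lift g) := by
  intro l hl ω ω' e
  obtain ⟨a, ha, rfl⟩ := Multiset.mem_map.1 hl
  exact hA a ha _ _ e

theorem bas_mem_det [DecidableEq α] {f : Ω → α} {l : Ω → ℝ} (h : l ∈ (det f).s) :
    ∃ ω₀, l = fun ω => if f ω = f ω₀ then 1 else 0 := by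
  obtain ⟨v, hv, rfl⟩ := Multiset.mem_map.1 h
  obtain ⟨ω₀, -, rfl⟩ := mem_image.1 hv
  exact ⟨ω₀, rfl⟩

theorem bas_lin_det [DecidableEq α] (f : Ω → α) (Ψ : (Ω → ℝ) → ℝ) :
    (det f).lin Ψ = ∑ v ∈ univ.image f, Ψ fun ω => if f ω = v then 1 else 0 := by
  simp only [Nm.lin, det, Multiset.map_map]
  rfl

theorem meas_det [DecidableEq β] {f : Ω → α} {g : Ω → β} (h : Ref f g) : Meas f (det g) := by
  intro l hl ω ω' e
  obtain ⟨ω₀, rfl⟩ := bas_mem_det hl
  simp only [h ω ω' e]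

omit [Fintype Ω] in
theorem ref_res {V W : Type} [DecidableEq V] (val : V → Ω → W) {S T : Finset V} (h : T ⊆ S) :
    Ref (fun ω => res S fun v => val v ω) (fun ω => res T fun v => val v ω) := by
  intro ω ω' e
  funext v
  have := congrFun e v
  by_cases hv : v ∈ T
  · simpa [res, hv, h hv] using this
  · simp [res, hv]

omit [Fintype Ω] in
theorem ref_res_val {V W : Type} [DecidableEq V] (val : V → Ω → W) {S : Finset V} {v : V}
    (h : v ∈ S) : Ref (fun ω => res S fun v => val v ω) (val v) := by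
  intro ω ω' e
  simpa [res, h] using congrFun e v

/-- Every value of the name `D` determines `f`. -/
def BasSupp {Ω α : Type} (f : Ω → α) (D : Nm Ω) : Prop :=
  ∀ d ∈ D.s, ∀ ω ω', d ω ≠ 0 → d ω' ≠ 0 → f ω = f ω'

omit [Fintype Ω] in
theorem BasSupp.mul {f : Ω → α} {D : Nm Ω} (h : BasSupp f D) (C : Nm Ω) : BasSupp f (D * C) := by
  intro l hl ω ω' e e'
  obtain ⟨a, ha, b, -, rfl⟩ := Nm.bas_mem_mul hl
  exact h a ha ω ω' (left_ne_zero_of_mul e) (left_ne_zero_of_mul e')

theorem bas_supp_det [DecidableEq α] (f : Ω → α) : BasSupp f (det f) := by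
  intro l hl ω ω' e e'
  obtain ⟨ω₀, rfl⟩ := bas_mem_det hl
  simp only [ne_eq, ite_eq_right_iff, one_ne_zero, imp_false, not_not] at e e'
  rw [e, e']

end Meas

namespace PS

variable (P : PS Ω)

theorem m_nonneg {l : Ω → ℝ} (h : ∀ ω, 0 ≤ l ω) : 0 ≤ P.m l :=
  sum_nonneg fun ω _ => mul_nonneg (P.pos ω).le (h ω)

theorem m_one : P.m 1 = 1 := by
  simp [m, P.sum_one]

theorem m_le {l l' : Ω → ℝ} (h : ∀ ω, l ω ≤ l' ω) : P.m l ≤ P.m l' :=
  sum_le_sum fun ω _ => mul_le_mul_of_nonneg_left (h ω) (P.pos ω).le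

/-- Summing out a name. -/
theorem lin_m_mul (B : Nm Ω) (c : Ω → ℝ) : (B.lin fun b => P.m (c * b)) = P.m c := by
  simp only [m, Pi.mul_apply, ← mul_assoc]
  rw [Nm.lin_sum]
  exact sum_congr rfl fun ω _ => by rw [Nm.lin_mul_left, Nm.lin_eval, mul_one]

theorem lin_m (B : Nm Ω) : B.lin P.m = 1 := by
  simpa [m_one] using P.lin_m_mul B 1

theorem bas_m_add (l l' : Ω → ℝ) : P.m (l + l') = P.m l + P.m l' := by
  simp only [m, Pi.add_apply, mul_add, sum_add_distrib]

theorem bas_m_smul (t : ℝ) (l : Ω → ℝ) : P.m (t • l) = t * P.m l := by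
  simp only [m, Pi.smul_apply, smul_eq_mul, mul_sum, mul_left_comm]

theorem Hc_mul (A B : Nm Ω) : P.Hc (A * B) = P.Hc A + P.Hc B := by
  have e : ∀ a b : Ω → ℝ, (P.m fun ω => Real.negMulLog ((a * b) ω)) =
      P.m ((fun ω => Real.negMulLog (a ω)) * b) + P.m ((fun ω => Real.negMulLog (b ω)) * a) :=
    fun a b => by
      rw [← bas_m_add]
      congr 1
      funext ω
      simp only [Pi.mul_apply, Pi.add_apply, Real.negMulLog_mul]
      ring
  simp only [Hc, Nm.lin_mul, e, Nm.lin_add, lin_m_mul]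
  rw [Nm.lin_comm]
  simp only [lin_m_mul]

theorem Hc_one : P.Hc 1 = 0 := by
  simp [Hc, Nm.lin_one, m]

theorem H_one : P.H 1 = 0 := by
  simp [H, Nm.lin_one, m_one]

theorem J_one : P.J 1 = 0 := by
  rw [J, H_one, Hc_one, sub_zero]

theorem Hc_det {α : Type} [DecidableEq α] (f : Ω → α) : P.Hc (det f) = 0 := by
  rw [Hc, bas_lin_det]
  refine sum_eq_zero fun v _ => sum_eq_zero fun ω _ => ?_
  dsimp only
  split_ifs <;> simp

theorem bas_gibbs {w q : ℝ} (hw : 0 ≤ w) (hq : 0 ≤ q) (h : 0 < w → 0 < q) :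
    Real.negMulLog w + w * Real.log q ≤ q - w := by
  rcases hw.eq_or_lt with rfl | hw
  · simpa using hq
  have := mul_le_mul_of_nonneg_left (Real.log_le_sub_one_of_pos (div_pos (h hw) hw)) hw.le
  rw [Real.log_div (h hw).ne' hw.ne', mul_sub, mul_sub, mul_div_cancel₀ _ hw.ne'] at this
  rw [Real.negMulLog]
  linarith

theorem bas_H_submod (A B C : Nm Ω) : P.H (A * B * C) + P.H C ≤ P.H (A * C) + P.H (B * C) := by
  rw [mul_comm _ C, mul_comm _ C, mul_comm _ C]
  simp only [H, Nm.lin_mul, ← Nm.lin_add]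
  refine C.lin_le fun c hc => ?_
  have c0 := C.nonneg c hc
  have e0 : Real.negMulLog (P.m c) =
      A.lin fun a => B.lin fun b => P.m (c * a * b) * -Real.log (P.m c) := by
    simp only [Nm.lin_mul_right, lin_m_mul, Real.negMulLog, neg_mul_comm]
  have e1 : (A.lin fun a => Real.negMulLog (P.m (c * a))) =
      A.lin fun a => B.lin fun b => P.m (c * a * b) * -Real.log (P.m (c * a)) := by
    simp only [Nm.lin_mul_right, lin_m_mul, Real.negMulLog, neg_mul_comm]
  have e2 : (B.lin fun b => Real.negMulLog (P.m (c * b))) =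
      A.lin fun a => B.lin fun b => P.m (c * a * b) * -Real.log (P.m (c * b)) := by
    rw [Nm.lin_comm]
    simp only [mul_right_comm c, Nm.lin_mul_right, lin_m_mul, Real.negMulLog, neg_mul_comm]
  have e3 : (A.lin fun a => B.lin fun b =>
      P.m (c * a) * P.m (c * b) / P.m c - P.m (c * a * b)) = 0 := by
    simp only [Nm.lin_sub, div_eq_mul_inv, Nm.lin_mul_right, Nm.lin_mul_left, lin_m_mul]
    rw [← div_eq_mul_inv, mul_self_div_self, sub_self]
  rw [e0, e1, e2, ← sub_nonpos, ← e3]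
  simp only [← Nm.lin_add, ← Nm.lin_sub]
  refine A.lin_le fun a ha => B.lin_le fun b hb => ?_
  have a0 := A.nonneg a ha
  have b0 := B.nonneg b hb
  have p1 : P.m (c * a * b) ≤ P.m (c * a) := P.m_le fun ω =>
    mul_le_of_le_one_right (mul_nonneg (c0 ω) (a0 ω)) (B.le_one hb ω)
  have p2 : P.m (c * a * b) ≤ P.m (c * b) := P.m_le fun ω =>
    mul_le_mul_of_nonneg_right (mul_le_of_le_one_right (c0 ω) (A.le_one ha ω)) (b0 ω)
  have p3 : P.m (c * a) ≤ P.m c := P.m_le fun ω =>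
    mul_le_of_le_one_right (c0 ω) (A.le_one ha ω)
  have p0 : 0 ≤ P.m (c * a * b) :=
    P.m_nonneg fun ω => mul_nonneg (mul_nonneg (c0 ω) (a0 ω)) (b0 ω)
  rw [← mul_assoc]
  generalize P.m (c * a * b) = w at *
  generalize P.m (c * a) = x at *
  generalize P.m (c * b) = y at *
  generalize P.m c = z at *
  have g := bas_gibbs (q := x * y / z) p0
    (div_nonneg (mul_nonneg (p0.trans p1) (p0.trans p2)) (p0.trans (p1.trans p3)))
    fun h => div_pos (mul_pos (h.trans_le p1) (h.trans_le p2)) (h.trans_le (p1.trans p3))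
  rcases p0.eq_or_lt with rfl | h
  · simpa using g
  rw [Real.log_div (mul_pos (h.trans_le p1) (h.trans_le p2)).ne' (h.trans_le (p1.trans p3)).ne',
    Real.log_mul (h.trans_le p1).ne' (h.trans_le p2).ne'] at g
  linarith

theorem bas_H_supp {α : Type} {f : Ω → α} {N D : Nm Ω} (h : Meas f N) (hD : BasSupp f D) :
    P.H (N * D) = P.H D + P.Hc N := by
  have e : P.Hc N = D.lin fun d => N.lin fun l => P.m ((fun ω => Real.negMulLog (l ω)) * d) := by
    rw [Nm.lin_comm]
    simp only [lin_m_mul, Hc]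
  rw [e, mul_comm, H, H, Nm.lin_mul, ← Nm.lin_add]
  refine D.lin_congr fun d hd => ?_
  by_cases h0 : d = 0
  · simp [h0, m, Nm.lin]
  obtain ⟨ω₀, h1⟩ := Function.ne_iff.1 h0
  have k : ∀ φ : ℝ → ℝ, ∀ l ∈ N.s, P.m ((fun ω => φ (l ω)) * d) = φ (l ω₀) * P.m d :=
    fun φ l hl => by
      rw [← bas_m_smul]
      congr 1
      funext ω
      by_cases h2 : d ω = 0
      · simp [h2]
      · simp [h l hl ω ω₀ (hD d hd ω ω₀ h2 h1)]
  rw [← one_mul (Real.negMulLog (P.m d)), ← N.lin_eval ω₀, ← Nm.lin_mul_right, ← Nm.lin_add]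
  refine N.lin_congr fun l hl => ?_
  rw [k _ l hl, mul_comm d, show l * d = (fun ω => id (l ω)) * d from rfl, k _ l hl,
    Real.negMulLog_mul, id]
  ring

theorem bas_J_supp {α : Type} {f : Ω → α} {N D : Nm Ω} (h : Meas f N) (hD : BasSupp f D) :
    P.J (N * D) = P.J D := by
  rw [J, J, P.bas_H_supp h hD, Hc_mul]
  ring

/-- Monotonicity. -/
theorem J_mono (A C : Nm Ω) : P.J C ≤ P.J (A * C) := by
  classical
  have h := P.bas_H_submod A (det fun ω : Ω => ω) C
  rw [mul_assoc, P.bas_H_supp (meas_id A) ((bas_supp_det _).mul C)] at h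
  rw [J, J, Hc_mul]
  linarith

/-- Submodularity. -/
theorem J_submod (A B C : Nm Ω) : P.J (A * B * C) + P.J C ≤ P.J (A * C) + P.J (B * C) := by
  have h := P.bas_H_submod A B C
  simp only [J, Hc_mul]
  linarith

theorem J_nonneg (A : Nm Ω) : 0 ≤ P.J A := by
  simpa [J_one] using P.J_mono A 1

theorem D_nonneg (A C : Nm Ω) : 0 ≤ P.D A C := sub_nonneg.2 (P.J_mono A C)

theorem I_nonneg (A B C : Nm Ω) : 0 ≤ P.I A B C := by
  have := P.J_submod A B C
  rw [I]
  linarith

theorem D_one (A : Nm Ω) : P.D A 1 = P.J A := by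
  rw [D, mul_one, J_one, sub_zero]

theorem D_mul (A B C : Nm Ω) : P.D (A * B) C = P.D A C + P.D B (A * C) := by
  simp only [D, mul_assoc, mul_left_comm A B]
  ring

theorem I_eq (A B C : Nm Ω) : P.I A B C = P.D A C - P.D A (B * C) := by
  simp only [I, D, mul_assoc]
  ring

theorem I_comm (A B C : Nm Ω) : P.I A B C = P.I B A C := by
  simp only [I, mul_comm A B]
  ring

theorem I_mul (A B B' C : Nm Ω) : P.I A (B * B') C = P.I A B C + P.I A B' (B * C) := by
  simp only [I, mul_assoc, mul_left_comm B' B]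
  ring

theorem D_anti (A B C : Nm Ω) : P.D A (B * C) ≤ P.D A C := by
  have := P.I_nonneg A B C
  rw [I_eq] at this
  linarith

theorem D_mono (A B C : Nm Ω) : P.D A C ≤ P.D (A * B) C := by
  have := P.D_nonneg B (A * C)
  rw [D_mul]
  linarith

theorem D_mul_le (A B C : Nm Ω) : P.D (A * B) C ≤ P.D A C + P.D B C := by
  have := P.D_anti B A C
  rw [D_mul]
  linarith

theorem D_prod_le {ι : Type} (t : Finset ι) (A : ι → Nm Ω) (C : Nm Ω) :
    P.D (∏ i ∈ t, A i) C ≤ ∑ i ∈ t, P.D (A i) C := by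
  classical
  induction t using Finset.induction_on with
  | empty => simp [D]
  | insert i t hi ih =>
    rw [prod_insert hi, sum_insert hi]
    linarith [P.D_mul_le (A i) (∏ i ∈ t, A i) C]

/-- Triangle inequality. -/
theorem D_tri (A B C : Nm Ω) : P.D A C ≤ P.D B C + P.D A (B * C) := by
  rw [← D_mul, mul_comm]
  exact P.D_mono A B C

theorem I_le_D (A B C : Nm Ω) : P.I A B C ≤ P.D A C := by
  have := P.D_nonneg A (B * C)
  rw [I_eq]
  linarith

theorem I_mono_right (A B B' C : Nm Ω) : P.I A B C ≤ P.I A (B * B') C := by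
  have := P.I_nonneg A B' (B * C)
  rw [I_mul]
  linarith

/-- `I(A ; B | B' C) ≤ I(A ; B B' | C)`. -/
theorem I_cond_le (A B B' C : Nm Ω) : P.I A B (B' * C) ≤ P.I A (B * B') C := by
  have := P.I_nonneg A B' C
  rw [mul_comm B, I_mul]
  linarith

/-- The key inequality (★). -/
theorem D_star (N A B S : Nm Ω) : P.D N S ≤ P.D N (A * S) + P.D N (B * S) + P.I A B S := by
  have h1 := P.I_nonneg A B (N * S)
  have h2 := P.D_nonneg N (A * B * S)
  simp only [D, I, mul_assoc, mul_left_comm A N, mul_left_comm B N] at *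
  linarith

/-- Absorption: a name measurable for `f` adds nothing to `det f`. -/
theorem J_absorb {α : Type} [DecidableEq α] {f : Ω → α} {N : Nm Ω} (h : Meas f N) (C : Nm Ω) :
    P.J (N * (det f * C)) = P.J (det f * C) :=
  P.bas_J_supp h ((bas_supp_det f).mul C)

theorem D_absorb {α : Type} [DecidableEq α] {f : Ω → α} {N : Nm Ω} (h : Meas f N) (C : Nm Ω) :
    P.D N (det f * C) = 0 :=
  sub_eq_zero.2 (P.J_absorb h C)

/-- A name measurable for `f` is below `det f`. -/
theorem D_le_det {α : Type} [DecidableEq α] {f : Ω → α} {N : Nm Ω} (h : Meas f N) (C : Nm Ω) :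
    P.D N C ≤ P.D (det f) C := by
  have := P.D_tri N (det f) C
  rwa [P.D_absorb h, add_zero] at this

/-- Conditioning on `det f` is at least as strong as conditioning on an `f`-measurable name. -/
theorem D_det_le {α : Type} [DecidableEq α] {f : Ω → α} {N : Nm Ω} (h : Meas f N) (A C : Nm Ω) :
    P.D A (det f * C) ≤ P.D A (N * C) := by
  have h1 := P.D_anti A (det f) (N * C)
  have h2 := P.J_absorb h C
  have h3 := P.J_absorb h (A * C)
  simp only [D, mul_left_comm A N, mul_left_comm A (det f), mul_left_comm (det f) N] at *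
  linarith

/-- Data processing. -/
theorem I_le_det {α : Type} [DecidableEq α] {f : Ω → α} {N : Nm Ω} (h : Meas f N) (B C : Nm Ω) :
    P.I N B C ≤ P.I (det f) B C := by
  have := P.D_det_le h B C
  rw [I_comm, I_eq, P.I_comm (det f), I_eq]
  linarith

/-- Data processing with measurable conditioning. -/
theorem I_cond_le_det {α : Type} [DecidableEq α] {f : Ω → α} {N N' : Nm Ω} (h : Meas f N)
    (h' : Meas f N') (B C : Nm Ω) : P.I N B (N' * C) ≤ P.I (det f) B C := by
  rw [I_comm]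
  refine (P.I_cond_le B N N' C).trans ?_
  rw [I_comm]
  exact P.I_le_det (h.mul h') B C

theorem H_det_mul {α : Type} [DecidableEq α] {f : Ω → α} {N : Nm Ω} (h : Meas f N) (C : Nm Ω) :
    P.H (N * (det f * C)) = P.H (det f * C) + P.Hc N :=
  P.bas_H_supp h ((bas_supp_det f).mul C)

/-- A function of two functions is determined by the two deterministic names. -/
theorem D_det_pair {α β γ : Type} [DecidableEq α] [DecidableEq β] [DecidableEq γ]
    {f : Ω → α} {g : Ω → β} {h : Ω → γ}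
    (hh : ∀ ω ω', f ω = f ω' → g ω = g ω' → h ω = h ω') (C : Nm Ω) :
    P.D (det h) (det f * det g * C) = 0 := by
  refine sub_eq_zero.2 (P.bas_J_supp (meas_det (Ref.rfl' h)) (BasSupp.mul ?_ C))
  intro d hd ω ω' e e'
  exact hh ω ω' ((bas_supp_det f).mul _ d hd ω ω' e e')
    ((bas_supp_det g).mul _ d (mul_comm (det f) (det g) ▸ hd) ω ω' e e')

/-- The tuple of the variables in `S` is equivalent to the product of the variables in `S`. -/
theorem J_res {V W : Type} [Fintype V] [DecidableEq V] [DecidableEq W] (val : V → Ω → W) (S : Finset V)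
    (C : Nm Ω) :
    P.J (det (fun ω => res S fun v => val v ω) * C) = P.J ((∏ v ∈ S, det (val v)) * C) := by
  rw [← P.J_absorb (meas_prod S _ fun v hv => meas_det (ref_res_val val hv)) C, mul_left_comm]
  refine P.bas_J_supp (meas_det (Ref.rfl' _)) (BasSupp.mul ?_ C)
  intro d hd ω ω' e e'
  funext v
  by_cases hv : v ∈ S
  · rw [← mul_prod_erase S _ hv] at hd
    simp only [res, (bas_supp_det (val v)).mul _ d hd ω ω' e e']
  · simp [res, hv]

theorem J_res_union {V W : Type} [Fintype V] [DecidableEq V] [DecidableEq W] (val : V → Ω → W)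
    (S T : Finset V) (C : Nm Ω) :
    P.J (det (fun ω => res S fun v => val v ω) * det (fun ω => res T fun v => val v ω) * C) =
      P.J (det (fun ω => res (S ∪ T) fun v => val v ω) * C) := by
  rw [← P.J_absorb ((meas_det (ref_res val subset_union_left)).mul
    (meas_det (ref_res val subset_union_right))) C, mul_left_comm]
  refine (sub_eq_zero.1 (P.D_det_pair (fun ω ω' e e' => funext fun v => ?_) C)).symm
  by_cases h : v ∈ S
  · simp only [res, ref_res_val val h ω ω' e]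
  by_cases h' : v ∈ T
  · simp only [res, ref_res_val val h' ω ω' e']
  · simp [res, h, h']

/-- Conditional entropy is at most the log of the largest number of values in a fibre. -/
theorem D_det_le_log {α β : Type} [DecidableEq α] [DecidableEq β] (f : Ω → α) (g : Ω → β) (x : ℝ)
    (h : ∀ ω, (((univ.filter fun ω' => f ω' = f ω).image g).card : ℝ) ≤ Real.exp x) :
    P.D (det g) (det f) ≤ x := by
  rw [D, J, J, Hc_mul, Hc_det, Hc_det, add_zero, sub_zero, sub_zero, mul_comm, H, H, Nm.lin_mul,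
    ← Nm.lin_sub, ← mul_one x, ← P.lin_m (det f), ← Nm.lin_mul_left]
  refine Nm.lin_le _ fun c hc => ?_
  have c0 := (det f).nonneg c hc
  obtain ⟨ω₀, e⟩ := bas_mem_det hc
  have z0 := P.m_nonneg c0
  have e1 := P.lin_m_mul (det g) c
  have hT : (univ.filter fun ω' => f ω' = f ω₀).image g ⊆ univ.image g :=
    image_subset_image (subset_univ _)
  have hz : ∀ y, y ∉ (univ.filter fun ω' => f ω' = f ω₀).image g →
      P.m (c * fun ω => if g ω = y then 1 else 0) = 0 := fun y hy =>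
    sum_eq_zero fun ω _ => by
      by_cases h1 : f ω = f ω₀
      · have : g ω ≠ y := fun h2 => hy (mem_image.2 ⟨ω, by simpa using h1, h2⟩)
        simp [this]
      · simp [e, h1]
  rw [bas_lin_det, ← sum_subset hT fun y _ hy => hz y hy] at e1
  rw [bas_lin_det, ← sum_subset hT fun y _ hy => by rw [hz y hy, Real.negMulLog_zero]]
  have k := sum_le_sum (s := (univ.filter fun ω' => f ω' = f ω₀).image g) fun y _ =>
    bas_gibbs (w := P.m (c * fun ω => if g ω = y then 1 else 0)) (q := P.m c / Real.exp x)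
      (P.m_nonneg fun ω => mul_nonneg (c0 ω) (by dsimp only; split_ifs <;> norm_num))
      (div_nonneg z0 (Real.exp_pos x).le) fun h => div_pos (h.trans_le (P.m_le fun ω =>
        mul_le_of_le_one_right (c0 ω) (by dsimp only; split_ifs <;> norm_num))) (Real.exp_pos x)
  rw [sum_add_distrib, ← sum_mul, sum_sub_distrib, e1, sum_const, nsmul_eq_mul] at k
  have k2 := mul_le_mul_of_nonneg_right (h ω₀) (div_nonneg z0 (Real.exp_pos x).le)
  rw [mul_div_cancel₀ _ (Real.exp_pos x).ne'] at k2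
  rcases z0.eq_or_lt with z | z
  · rw [← z] at k k2 ⊢
    simp only [zero_mul, add_zero, sub_zero, mul_zero, Real.negMulLog_zero] at k ⊢
    linarith
  · rw [Real.log_div z.ne' (Real.exp_pos x).ne', Real.log_exp] at k
    rw [Real.negMulLog]
    linarith

theorem J_det_le_log {β : Type} [DecidableEq β] (g : Ω → β) (x : ℝ)
    (h : ((univ.image g).card : ℝ) ≤ Real.exp x) : P.J (det g) ≤ x := by
  have h1 := P.D_det_le_log (fun _ : Ω => ()) g x fun ω => by simpa using h
  have h2 := P.bas_J_supp (D := 1) (meas_det (Ref.rfl' fun _ : Ω => ())) fun _ _ _ _ _ _ => rfl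
  have h3 := P.J_mono (det fun _ : Ω => ()) (det g)
  rw [mul_one, J_one] at h2
  rw [D, h2, mul_comm] at h1
  linarith

/-- On a uniform space an injective function has entropy `log |Ω|`. -/
theorem J_det_uniform {β : Type} [DecidableEq β] (g : Ω → β) (hg : Function.Injective g)
    (hP : ∀ ω, P.p ω = (Fintype.card Ω : ℝ)⁻¹) : P.J (det g) = Real.log (Fintype.card Ω) := by
  have h0 : (Fintype.card Ω : ℝ) ≠ 0 := fun e => by
    have := P.sum_one
    simp [hP, e] at this
  rw [J, Hc_det, sub_zero, H, bas_lin_det, sum_image fun a _ b _ e => hg e]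
  have e : ∀ x, (P.m fun ω => if g ω = g x then 1 else 0) = (Fintype.card Ω : ℝ)⁻¹ := fun x => by
    rw [m, sum_eq_single x (fun b _ hb => by rw [if_neg (hg.ne hb), mul_zero]) (by simp),
      if_pos rfl, mul_one, hP]
  simp only [e, Real.negMulLog, Real.log_inv, sum_const, card_univ, nsmul_eq_mul]
  field_simp

end PS

end Pool.Agent.Lib.MP_a7c6c3_lc
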