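import Pool.Agent.Lib.MP_a7c6c3_lc.StBasic

/-! Module `Words`: polynomial-area derivations in the stack system. -/

set_option autoImplicit false

namespace Pool.Agent.Lib.MP_a7c6c3_lc

theorem Rw.len_left {L n : ℕ} {a b : CW} (h : Rw L n a b) : a.1.length ≤ L := by
  cases h with
  | refl _ _ h => exact h
  | step _ _ _ _ h _ _ => exact h

theorem Rw.len_right {L n : ℕ} {a b : CW} (h : Rw L n a b) : b.1.length ≤ L := by
  induction h with
  | refl _ _ h => exact h
  | step _ _ _ _ _ _ _ ih => exact ih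

namespace Words

open List

/-! ### General facts on `Rw` -/

theorem rw_mono {L n : ℕ} {a b : CW} (h : Rw L n a b) {m : ℕ} (hm : n ≤ m) : Rw L m a b := by
  induction h generalizing m with
  | refl _ a h => exact Rw.refl m a h
  | step n a b c h hs _ ih =>
    obtain ⟨k, rfl⟩ : ∃ k, m = k + 1 := ⟨m - 1, by omega⟩
    exact Rw.step k a b c h hs (ih (by omega))

theorem rw_trans {L n m : ℕ} {a b c : CW} (h : Rw L n a b) (h' : Rw L m b c) :
    Rw L (n + m) a c := by
  induction h with
  | refl n a _ => exact rw_mono h' (by omega)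
  | step n a b c' h hs _ ih =>
    have := Rw.step (n + m) a b c h hs (ih h')
    rwa [show n + m + 1 = n + 1 + m by omega] at this

theorem rw_single {L : ℕ} {a b : CW} (ha : a.1.length ≤ L) (hb : b.1.length ≤ L)
    (hs : Step a b ∨ Step b a) : Rw L 1 a b :=
  Rw.step 0 a b b ha hs (Rw.refl 0 b hb)

theorem rw_symm {L n : ℕ} {a b : CW} (h : Rw L n a b) : Rw L n b a := by
  induction h with
  | refl n a h => exact Rw.refl n a h
  | step n a b c h hs hr ih => exact rw_trans ih (rw_single hr.len_left h hs.symm)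

/-! ### Equivalence of coloured words after any initial word, of words in any context -/

/-- Equivalence of coloured words after any initial word, with extra length `c` and `n` steps. -/
def CE (c n : ℕ) (a b : CW) : Prop :=
  ∀ (L : ℕ) (u : List G0), u.length + c ≤ L → Rw L n (u ++ a.1, a.2) (u ++ b.1, b.2)

/-- Equivalence of words in any context. -/
def WE (c n : ℕ) (l r : List G0) : Prop :=
  ∀ (v : List G0) (γ : Col), CE (c + v.length) n (l ++ v, γ) (r ++ v, γ)

theorem CE.mono {c n : ℕ} {a b : CW} (h : CE c n a b) {c' n' : ℕ} (hc : c ≤ c') (hn : n ≤ n') :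
    CE c' n' a b := fun L u hu => rw_mono (h L u (by omega)) hn

theorem CE.symm {c n : ℕ} {a b : CW} (h : CE c n a b) : CE c n b a :=
  fun L u hu => rw_symm (h L u hu)

theorem CE.trans {c n m : ℕ} {a b d : CW} (h : CE c n a b) (h' : CE c m b d) :
    CE c (n + m) a d := fun L u hu => rw_trans (h L u hu) (h' L u hu)

theorem CE.refl (a : CW) : CE a.1.length 0 a a :=
  fun L u hu => Rw.refl 0 _ (by simpa using hu)

theorem CE.pre {c n : ℕ} {l r : List G0} {γ γ' : Col} (h : CE c n (l, γ) (r, γ'))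
    (w : List G0) : CE (w.length + c) n (w ++ l, γ) (w ++ r, γ') := by
  intro L u hu
  have := h L (u ++ w) (by simp; omega)
  simpa [List.append_assoc] using this

theorem CE.rw {c n : ℕ} {a b : CW} (h : CE c n a b) : Rw c n a b := by
  simpa using h c [] (by simp)

theorem WE.mono {c n : ℕ} {l r : List G0} (h : WE c n l r) {c' n' : ℕ} (hc : c ≤ c')
    (hn : n ≤ n') : WE c' n' l r := fun v γ => (h v γ).mono (by omega) hn

theorem WE.symm {c n : ℕ} {l r : List G0} (h : WE c n l r) : WE c n r l :=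
  fun v γ => (h v γ).symm

theorem WE.trans {c n m : ℕ} {l r s : List G0} (h : WE c n l r) (h' : WE c m r s) :
    WE c (n + m) l s := fun v γ => (h v γ).trans (h' v γ)

theorem WE.refl (l : List G0) : WE l.length 0 l l := fun v γ =>
  (CE.refl (l ++ v, γ)).mono (by simp) le_rfl

theorem WE.ctx {c n : ℕ} {l r : List G0} (h : WE c n l r) (a b : List G0) :
    WE (a.length + c + b.length) n (a ++ l ++ b) (a ++ r ++ b) := by
  intro v γ
  have := (h (b ++ v) γ).pre a
  simp only [List.append_assoc]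
  exact this.mono (by simp; omega) le_rfl

theorem WE.ce {c n : ℕ} {l r : List G0} (h : WE c n l r) (γ : Col) : CE c n (l, γ) (r, γ) := by
  simpa using h [] γ

theorem WE.r2 {h g h' g' : G0} (H : Rule2 h g h' g') : WE 2 1 [h, g] [h', g'] := by
  intro v γ L u hu
  exact rw_single (by simp; omega) (by simp; omega) (Or.inl (Step.r2 u v h g h' g' γ H))

theorem WE.r1 : WE 1 1 [G0.one] [] := by
  intro v γ L u hu
  exact rw_single (by simp; omega) (by simp; omega) (Or.inl (Step.r1 u v γ))

theorem CE.rc {g : G0} {γ γ' : Col} (H : RuleC g γ γ') : CE 1 1 ([g], γ) ([], γ') := by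
  intro L u hu
  refine rw_single (by simp; omega) (by simp; omega) (Or.inl ?_)
  simpa using Step.rc u g γ γ' H

/-! ### The rules -/

theorem ev_mv {p q : Fin 6} (hpq : p ≠ q) {x : St} (h : 1 ≤ (x p).length) (r : Fin 6) :
    ev (G0.mv p q) x r =
      if r = q then (x p).headD true :: x q else if r = p then (x p).tail else x r := by
  obtain ⟨c, l, hx⟩ : ∃ c l, x p = c :: l := by
    cases hx : x p with
    | nil => simp [hx] at h
    | cons c l => exact ⟨c, l, rfl⟩
  simp only [ev, if_neg hpq, hx, Function.update_apply, List.headD_cons, List.tail_cons]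

theorem ev_fl {p : Fin 6} {x : St} (h : 1 ≤ (x p).length) (r : Fin 6) :
    ev (G0.fl p) x r = if r = p then (!(x p).headD true) :: (x p).tail else x r := by
  obtain ⟨c, l, hx⟩ : ∃ c l, x p = c :: l := by
    cases hx : x p with
    | nil => simp [hx] at h
    | cons c l => exact ⟨c, l, rfl⟩
  simp only [ev, hx, Function.update_apply, List.headD_cons, List.tail_cons]

theorem one_le {x : St} (hx : Good 2 x) (p : Fin 6) : 1 ≤ (x p).length := by
  have := hx p
  omega

theorem head_tail {l : List Bool} (h : 1 ≤ l.length) : l.headD true :: l.tail = l := by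
  cases l with
  | nil => simp at h
  | cons c l => rfl

theorem rule_cancel {p q : Fin 6} (hpq : p ≠ q) :
    Rule2 (G0.mv q p) (G0.mv p q) G0.one G0.one := by
  intro x hx
  funext r
  have h1 : 1 ≤ (ev (G0.mv p q) x q).length := by simp [ev_mv hpq (one_le hx p)]
  have e : ev G0.one (ev G0.one x) = x := rfl
  rw [ev_mv hpq.symm h1, e]
  simp only [ev_mv hpq (one_le hx p), if_true, if_neg hpq, List.headD_cons, List.tail_cons]
  by_cases h : r = p
  · subst h
    simp only [if_true]
    exact head_tail (one_le hx r)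
  · by_cases h' : r = q
    · subst h'
      simp [h]
    · simp [h, h']

theorem rule_comp {p q a : Fin 6} (hpq : p ≠ q) (hap : a ≠ p) (haq : a ≠ q) :
    Rule2 (G0.mv a q) (G0.mv p a) (G0.mv p q) G0.one := by
  intro x hx
  funext r
  have h1 : 1 ≤ (ev (G0.mv p a) x a).length := by simp [ev_mv hap.symm (one_le hx p)]
  rw [ev_mv haq h1]
  have e : ev G0.one x = x := rfl
  rw [e, ev_mv hpq (one_le hx p)]
  simp only [ev_mv hap.symm (one_le hx p), if_true, if_neg haq.symm, if_neg hpq.symm,
    List.headD_cons, List.tail_cons]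
  by_cases h : r = q
  · simp [h]
  · by_cases h' : r = a
    · subst h'
      simp [h, hap]
    · simp [h, h']

theorem rule_comm {p q a b : Fin 6} (hpq : p ≠ q) (hab : a ≠ b) (hpa : p ≠ a) (hpb : p ≠ b)
    (hqa : q ≠ a) (hqb : q ≠ b) : Rule2 (G0.mv p q) (G0.mv a b) (G0.mv a b) (G0.mv p q) := by
  intro x hx
  funext r
  have h1 : 1 ≤ (ev (G0.mv a b) x p).length := by
    simp [ev_mv hab (one_le hx a), hpa, hpb, one_le hx p]
  have h2 : 1 ≤ (ev (G0.mv p q) x a).length := by
    simp [ev_mv hpq (one_le hx p), hpa.symm, hqa.symm, one_le hx a]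
  rw [ev_mv hpq h1, ev_mv hab h2]
  simp only [ev_mv hab (one_le hx a), ev_mv hpq (one_le hx p), if_neg hpa, if_neg hpb,
    if_neg hqa, if_neg hqb, if_neg hpa.symm, if_neg hpb.symm, if_neg hqa.symm, if_neg hqb.symm]
  by_cases h : r = q
  · subst h
    simp [hqa, hqb]
  · by_cases h' : r = p
    · subst h'
      simp [h, hpa, hpb]
    · simp [h, h']

theorem rule_fl_comm {p q a : Fin 6} (hpq : p ≠ q) (hpa : p ≠ a) (hqa : q ≠ a) :
    Rule2 (G0.fl a) (G0.mv p q) (G0.mv p q) (G0.fl a) := by
  intro x hx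
  funext r
  have h1 : 1 ≤ (ev (G0.mv p q) x a).length := by
    simp [ev_mv hpq (one_le hx p), hpa.symm, hqa.symm, one_le hx a]
  have h2 : 1 ≤ (ev (G0.fl a) x p).length := by
    simp [ev_fl (one_le hx a), hpa, one_le hx p]
  rw [ev_fl h1, ev_mv hpq h2]
  simp only [ev_fl (one_le hx a), ev_mv hpq (one_le hx p), if_neg hpa, if_neg hqa,
    if_neg hpa.symm, if_neg hqa.symm]
  by_cases h : r = q
  · subst h
    simp [hqa]
  · by_cases h' : r = p
    · subst h'
      simp [h, hpa]
    · simp [h, h']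

theorem rule_fl_mv {p q : Fin 6} (hpq : p ≠ q) :
    Rule2 (G0.fl q) (G0.mv p q) (G0.mv p q) (G0.fl p) := by
  intro x hx
  funext r
  have h1 : 1 ≤ (ev (G0.mv p q) x q).length := by simp [ev_mv hpq (one_le hx p)]
  have h2 : 1 ≤ (ev (G0.fl p) x p).length := by simp [ev_fl (one_le hx p)]
  rw [ev_fl h1, ev_mv hpq h2]
  simp only [ev_fl (one_le hx p), ev_mv hpq (one_le hx p), if_true, if_neg hpq.symm,
    List.headD_cons, List.tail_cons]
  by_cases h : r = q
  · simp [h]
  · by_cases h' : r = p
    · simp [h', hpq]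
    · simp [h, h']

theorem rc_mv {p q : Fin 6} (hpq : p ≠ q) (c : Bool) : RuleC (G0.mv p q) (p, c) (q, c) := by
  intro x hx
  simp [inQ, ev_mv hpq (one_le hx p)]

theorem rc_mv_off {p q a : Fin 6} (hpq : p ≠ q) (hap : a ≠ p) (haq : a ≠ q) (c : Bool) :
    RuleC (G0.mv p q) (a, c) (a, c) := by
  intro x hx
  simp [inQ, ev_mv hpq (one_le hx p), hap, haq]

theorem rc_fl_off {p a : Fin 6} (hap : a ≠ p) (c : Bool) : RuleC (G0.fl p) (a, c) (a, c) := by
  intro x hx
  simp [inQ, ev_fl (one_le hx p), hap]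

theorem rc_fl (p : Fin 6) (c : Bool) : RuleC (G0.fl p) (p, !c) (p, c) := by
  intro x hx
  simp only [inQ, ev_fl (one_le hx p), if_true, List.headD_cons]
  cases c <;> cases (x p).headD true <;> simp

/-! ### Derived rewriting lemmas -/

/-- `d` moves from stack `p` to stack `q`. -/
abbrev M (p q : Fin 6) (d : ℕ) : List G0 := List.replicate d (G0.mv p q)

theorem M_add (p q : Fin 6) (d e : ℕ) : M p q (d + e) = M p q d ++ M p q e :=
  List.replicate_add _ _ _

theorem M_succ (p q : Fin 6) (d : ℕ) : M p q (d + 1) = G0.mv p q :: M p q d := rfl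

theorem M_succ' (p q : Fin 6) (d : ℕ) : M p q (d + 1) = M p q d ++ [G0.mv p q] :=
  List.replicate_succ'

theorem we_cancel1 {p q : Fin 6} (hpq : p ≠ q) : WE 2 3 [G0.mv q p, G0.mv p q] [] := by
  have h1 := WE.r2 (rule_cancel hpq)
  have h2 : WE 2 1 [G0.one, G0.one] [G0.one] := by
    simpa using WE.r1.ctx [G0.one] []
  exact (h1.trans h2).trans (WE.r1.mono (by norm_num) le_rfl)

theorem we_cancel {p q : Fin 6} (hpq : p ≠ q) (d : ℕ) :
    WE (2 * d) (3 * d) (M q p d ++ M p q d) [] := by
  induction d with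
  | zero => simpa using WE.refl []
  | succ d ih =>
    have h1 := (we_cancel1 hpq).ctx (M q p d) (M p q d)
    have e : M q p (d + 1) ++ M p q (d + 1) = M q p d ++ [G0.mv q p, G0.mv p q] ++ M p q d := by
      rw [M_succ' q p, M_succ p q]
      simp
    rw [e]
    simp only [List.append_nil, List.length_replicate] at h1
    exact ((h1.mono (c' := 2 * (d + 1)) (by omega) le_rfl).trans
      (ih.mono (by omega) le_rfl)).mono le_rfl (by omega)

theorem we_comm1 (g : G0) (r : List G0) (H : ∀ h ∈ r, Rule2 g h h g) :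
    WE (r.length + 1) r.length (g :: r) (r ++ [g]) := by
  induction r with
  | nil => simpa using WE.refl [g]
  | cons h r ih =>
    have h1 := (WE.r2 (H h (by simp))).ctx [] r
    have h2 := (ih fun h' hh => H h' (by simp [hh])).ctx [h] []
    simp only [List.nil_append, List.length_nil, List.append_nil, List.cons_append,
      List.length_cons] at h1 h2 ⊢
    exact ((h1.mono (c' := r.length + 1 + 1) (by omega) le_rfl).trans
      (h2.mono (by omega) le_rfl)).mono le_rfl (by omega)

theorem we_comm (l r : List G0) (H : ∀ g ∈ l, ∀ h ∈ r, Rule2 g h h g) :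
    WE (l.length + r.length) (l.length * r.length) (l ++ r) (r ++ l) := by
  induction l with
  | nil => simpa using WE.refl r
  | cons g l ih =>
    have h1 := (ih fun g' hg => H g' (by simp [hg])).ctx [g] []
    have h2 := (we_comm1 g r (H g (by simp))).ctx [] l
    simp only [List.nil_append, List.length_nil, List.append_nil, List.cons_append,
      List.length_cons, List.append_assoc] at h1 h2 ⊢
    exact ((h1.mono (c' := l.length + 1 + r.length) (by omega) le_rfl).trans
      (h2.mono (by omega) le_rfl)).mono le_rfl (by ring_nf; omega)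

theorem ce_drop (l : List G0) (γ : Col) (H : ∀ g ∈ l, RuleC g γ γ) :
    CE l.length l.length (l, γ) ([], γ) := by
  induction l with
  | nil => exact CE.refl ([], γ)
  | cons g l ih =>
    have h1 := (ih fun g' hg => H g' (by simp [hg])).pre [g]
    have h2 := CE.rc (H g (by simp))
    simp only [List.nil_append, List.length_nil, List.append_nil, List.cons_append,
      List.length_cons] at h1 h2 ⊢
    exact (h1.mono (c' := l.length + 1) (by omega) le_rfl).trans (h2.mono (by omega) le_rfl)

/-- Transfer of `d` symbols from `p` to `q` through the stack `a` (order preserving). -/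
abbrev T (p q a : Fin 6) (d : ℕ) : List G0 := M a q d ++ M p a d

theorem exists_two : ∀ p q a b : Fin 6, ∃ c h : Fin 6, c ≠ h ∧ c ≠ p ∧ c ≠ q ∧ c ≠ a ∧ c ≠ b ∧
    h ≠ p ∧ h ≠ q ∧ h ≠ a ∧ h ≠ b := by decide +kernel

theorem we_T1 {p q a : Fin 6} (hpq : p ≠ q) (hap : a ≠ p) (haq : a ≠ q) :
    WE 2 2 (T p q a 1) [G0.mv p q] := by
  have h1 := WE.r2 (rule_comp hpq hap haq)
  have h2 : WE 2 1 [G0.mv p q, G0.one] [G0.mv p q] := by
    simpa using WE.r1.ctx [G0.mv p q] []
  exact h1.trans h2

/-- The transfer does not depend on the auxiliary stack. -/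
theorem we_O (d : ℕ) : ∀ p q a b : Fin 6, p ≠ q → a ≠ p → a ≠ q → b ≠ p → b ≠ q →
    WE (8 * d) (4 * d ^ 3) (T p q a d) (T p q b d) := by
  induction d using Nat.strong_induction_on with
  | _ d ih =>
    intro p q a b hpq hap haq hbp hbq
    by_cases hab : a = b
    · subst hab
      exact (WE.refl _).mono (by simp; omega) (by omega)
    rcases Nat.lt_or_ge d 2 with hd | hd
    · interval_cases d
      · exact (WE.refl _).mono (by simp) (by omega)
      · exact ((we_T1 hpq hap haq).trans (we_T1 hpq hbp hbq).symm).mono (by omega) (by omega)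
    obtain ⟨c, h, hch, hcp, hcq, hca, hcb, hhp, hhq, hha, hhb⟩ := exists_two p q a b
    obtain ⟨e, f, rfl, he, hef, hfe⟩ : ∃ e f, d = e + f ∧ 1 ≤ e ∧ e ≤ f ∧ f ≤ e + 1 :=
      ⟨d / 2, d - d / 2, by omega, by omega, by omega, by omega⟩
    have hba : b ≠ a := fun h => hab h.symm
    have s1 := (ih f (by omega) p q a c hpq hap haq hcp hcq).ctx (M a q e) (M p a e)
    have s2 := (we_cancel hbp.symm e).symm.ctx (M a q e ++ T p q c f ++ M p a e) []
    have s3 := (ih e (by omega) b a p h hba hbp.symm hap.symm hhb hha).ctx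
      (M a q e ++ T p q c f) (M p b e)
    have s4 := (we_comm (T p q c f) (T b a h e) (by
      intro g hg g' hg'
      simp only [List.mem_append, List.mem_replicate] at hg hg'
      rcases hg with ⟨-, rfl⟩ | ⟨-, rfl⟩ <;> rcases hg' with ⟨-, rfl⟩ | ⟨-, rfl⟩
      · exact rule_comm hcq hha hch hca hhq.symm haq.symm
      · exact rule_comm hcq hhb.symm hcb hch hbq.symm hhq.symm
      · exact rule_comm hcp.symm hha hhp.symm hap.symm hch hca
      · exact rule_comm hcp.symm hhb.symm hbp.symm hhp.symm hcb hch)).ctx (M a q e) (M p b e)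
    have s5 := (ih e (by omega) b a h q hba hhb hha hbq.symm haq.symm).ctx
      (M a q e) (T p q c f ++ M p b e)
    have s6 := (we_cancel haq.symm e).ctx [] (M b q e ++ T p q c f ++ M p b e)
    have s7 := (ih f (by omega) p q c b hpq hcp hcq hbp hbq).ctx (M b q e) (M p b e)
    have e1 : T p q a (e + f) = M a q e ++ T p q a f ++ M p a e := by
      simp only [T]
      rw [M_add a q, Nat.add_comm e f, M_add p a]
      simp only [List.append_assoc]
    have e2 : T p q b (e + f) = M b q e ++ T p q b f ++ M p b e := by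
      simp only [T]
      rw [M_add b q, Nat.add_comm e f, M_add p b]
      simp only [List.append_assoc]
    rw [e1, e2]
    simp only [T, List.append_assoc, List.nil_append, List.append_nil, List.length_append,
      List.length_replicate, List.length_nil] at s1 s2 s3 s4 s5 s6 s7 ⊢
    have t := ((((((s1.mono (c' := 8 * (e + f)) (by omega) le_rfl).trans
      (s2.mono (by omega) le_rfl)).trans (s3.mono (by omega) le_rfl)).trans
      (s4.mono (by omega) le_rfl)).trans (s5.mono (by omega) le_rfl)).trans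
      (s6.mono (by omega) le_rfl)).trans (s7.mono (by omega) le_rfl)
    refine t.mono le_rfl ?_
    obtain ⟨k, rfl⟩ : ∃ k, e = k + 1 := ⟨e - 1, by omega⟩
    rcases (by omega : f = k + 1 ∨ f = k + 2) with rfl | rfl
    · ring_nf
      omega
    · ring_nf
      omega

/-- The colour on stack `τ` buried under `d` symbols does not depend on the source stack. -/
theorem ce_OC (d : ℕ) {p q τ : Fin 6} (hp : p ≠ τ) (hq : q ≠ τ) (c : Bool) :
    CE (9 * d) (4 * d ^ 3 + 5 * d) (M p τ d, (τ, c)) (M q τ d, (τ, c)) := by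
  by_cases hpq : p = q
  · subst hpq
    exact (CE.refl _).mono (by simp; omega) (by omega)
  obtain ⟨h, -, -, hhp, hhq, hhτ, -⟩ := exists_two p q τ τ
  have hqp : q ≠ p := fun h => hpq h.symm
  have s1 := (ce_drop (T q p h d) (τ, c) (by
    intro g hg
    simp only [List.mem_append, List.mem_replicate] at hg
    rcases hg with ⟨-, rfl⟩ | ⟨-, rfl⟩
    · exact rc_mv_off hhp hhτ.symm hp.symm c
    · exact rc_mv_off hhq.symm hq.symm hhτ.symm c)).symm.pre (M p τ d)
  have s2 := ((we_O d q p h τ hqp hhq hhp hq.symm hp.symm).ce (τ, c)).pre (M p τ d)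
  have s3 := ((we_cancel hp.symm d).ctx [] (M q τ d)).ce (τ, c)
  simp only [T, List.append_assoc, List.nil_append, List.append_nil, List.length_append,
    List.length_replicate, List.length_nil] at s1 s2 s3 ⊢
  exact (((s1.mono (c' := 9 * d) (by omega) le_rfl).trans (s2.mono (by omega) le_rfl)).trans
    (s3.mono (by omega) le_rfl)).mono le_rfl (by omega)

theorem bw_eq (i : ℕ) : bw i = M 1 0 i := rfl

theorem flipw_eq (i : ℕ) : flipw i = M 1 0 i ++ G0.fl 0 :: M 0 1 i := rfl

theorem flip_self (i : ℕ) (c : Bool) :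
    CE (3 * i + 1) (3 * i + 1) (flipw i ++ bw i, (0, !c)) (bw i, (0, c)) := by
  have s1 := ((we_cancel (p := 1) (q := 0) (by decide) i).ce (0, !c)).pre (M 1 0 i ++ [G0.fl 0])
  have s2 := (CE.rc (rc_fl 0 c)).pre (M 1 0 i)
  simp only [bw_eq, flipw_eq, List.append_assoc, List.nil_append, List.append_nil,
    List.length_append, List.length_replicate, List.length_nil, List.cons_append,
    List.length_cons] at s1 s2 ⊢
  exact (s1.mono (c' := 3 * i + 1) (by omega) le_rfl).trans (s2.mono (by omega) le_rfl)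

theorem flip_deeper (i d : ℕ) (c : Bool) :
    CE (3 * i + 9 * d + 2) (8 * d ^ 3 + 11 * d + 3 * i + 2)
      (flipw i ++ bw (i + (d + 1)), (0, c)) (bw (i + (d + 1)), (0, c)) := by
  have s1 := ((we_cancel (p := 1) (q := 0) (by decide) i).ctx (M 1 0 i ++ [G0.fl 0])
    (G0.mv 1 0 :: M 1 0 d)).ce (0, c)
  have s2 := (ce_OC d (p := 1) (q := 2) (τ := 0) (by decide) (by decide) c).pre
    (M 1 0 i ++ [G0.fl 0, G0.mv 1 0])
  have s3 := ((WE.r2 (rule_fl_mv (p := 1) (q := 0) (by decide))).ctx (M 1 0 i) (M 2 0 d)).ce (0, c)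
  have s4 := ((we_comm1 (G0.fl 1) (M 2 0 d) (by
    intro h hh
    rw [List.mem_replicate] at hh
    rw [hh.2]
    exact rule_fl_comm (by decide) (by decide) (by decide))).ce (0, c)).pre
      (M 1 0 i ++ [G0.mv 1 0])
  have s5 := (CE.rc (rc_fl_off (p := 1) (a := 0) (by decide) c)).pre
    (M 1 0 i ++ G0.mv 1 0 :: M 2 0 d)
  have s6 := (ce_OC d (p := 2) (q := 1) (τ := 0) (by decide) (by decide) c).pre
    (M 1 0 i ++ [G0.mv 1 0])
  rw [bw_eq, flipw_eq, M_add, M_succ]
  simp only [List.append_assoc, List.nil_append, List.append_nil,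
    List.length_append, List.length_replicate, List.length_nil, List.cons_append,
    List.length_cons] at s1 s2 s3 s4 s5 s6 ⊢
  exact ((((((s1.mono (c' := 3 * i + 9 * d + 2) (by omega) le_rfl).trans
    (s2.mono (by omega) le_rfl)).trans (s3.mono (by omega) le_rfl)).trans
    (s4.mono (by omega) le_rfl)).trans (s5.mono (by omega) le_rfl)).trans
    (s6.mono (by omega) le_rfl)).mono le_rfl (by omega)

theorem flip_higher (k d : ℕ) (c : Bool) :
    CE (4 * k + 10 * d + 4) (8 * d ^ 3 + 14 * d + 3 * k + 6)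
      (flipw (k + (d + 1)) ++ bw k, (0, c)) (bw k, (0, c)) := by
  have s1 := ((we_cancel (p := 1) (q := 0) (by decide) k).ce (0, c)).pre
    (M 1 0 k ++ M 1 0 (d + 1) ++ G0.fl 0 :: M 0 1 d ++ [G0.mv 0 1])
  have s2 := (CE.rc (rc_mv (p := 0) (q := 1) (by decide) c)).pre
    (M 1 0 k ++ M 1 0 (d + 1) ++ G0.fl 0 :: M 0 1 d)
  have s3 := (ce_OC d (p := 0) (q := 2) (τ := 1) (by decide) (by decide) c).pre
    (M 1 0 k ++ M 1 0 (d + 1) ++ [G0.fl 0])
  have s4 := ((we_comm1 (G0.fl 0) (M 2 1 d) (by
    intro h hh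
    rw [List.mem_replicate] at hh
    rw [hh.2]
    exact rule_fl_comm (by decide) (by decide) (by decide))).ce (1, c)).pre
      (M 1 0 k ++ M 1 0 (d + 1))
  have s5 := (CE.rc (rc_fl_off (p := 0) (a := 1) (by decide) c)).pre
    (M 1 0 k ++ M 1 0 (d + 1) ++ M 2 1 d)
  have s6 := (ce_OC d (p := 2) (q := 0) (τ := 1) (by decide) (by decide) c).pre
    (M 1 0 k ++ M 1 0 (d + 1))
  have s7 := (CE.rc (rc_mv (p := 0) (q := 1) (by decide) c)).symm.pre
    (M 1 0 k ++ M 1 0 (d + 1) ++ M 0 1 d)
  have s8 := ((we_cancel (p := 0) (q := 1) (by decide) (d + 1)).ce (0, c)).pre (M 1 0 k)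
  have e : M 0 1 (k + (d + 1)) = M 0 1 d ++ [G0.mv 0 1] ++ M 0 1 k := by
    rw [Nat.add_comm k, M_add, M_succ']
  rw [M_succ' 0 1] at s8
  rw [bw_eq, flipw_eq, M_add 1 0, e]
  simp only [List.append_assoc, List.nil_append, List.append_nil,
    List.length_append, List.length_replicate, List.length_nil, List.cons_append,
    List.length_cons] at s1 s2 s3 s4 s5 s6 s7 s8 ⊢
  exact ((((((((s1.mono (c' := 4 * k + 10 * d + 4) (by omega) le_rfl).trans
    (s2.mono (by omega) le_rfl)).trans (s3.mono (by omega) le_rfl)).trans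
    (s4.mono (by omega) le_rfl)).trans (s5.mono (by omega) le_rfl)).trans
    (s6.mono (by omega) le_rfl)).trans (s7.mono (by omega) le_rfl)).trans
    (s8.mono (by omega) le_rfl)).mono le_rfl (by omega)

theorem cube_le {d j : ℕ} (h : d ≤ j) : d ^ 3 + j ≤ (j + 1) ^ 3 := by
  have h1 : d ^ 3 ≤ j ^ 3 := Nat.pow_le_pow_left h 3
  have h2 : (j + 1) ^ 3 = j ^ 3 + 3 * j ^ 2 + 3 * j + 1 := by ring
  omega

theorem flip_any {j i k : ℕ} (hi : i < j) (hk : k < j) (c : Bool) :
    CE (14 * (j + 1)) (40 * (j + 1) ^ 3) (flipw i ++ bw k, (0, xor c (decide (k = i))))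
      (bw k, (0, c)) := by
  have h1 : 1 ≤ (j + 1) ^ 3 := Nat.one_le_pow _ _ (by omega)
  rcases lt_trichotomy i k with h | h | h
  · obtain ⟨d, rfl⟩ : ∃ d, k = i + (d + 1) := ⟨k - i - 1, by omega⟩
    have := cube_le (show d ≤ j by omega)
    rw [decide_eq_false (by omega), Bool.xor_false]
    exact (flip_deeper i d c).mono (by omega) (by omega)
  · subst h
    have := cube_le (show 0 ≤ j by omega)
    rw [decide_eq_true rfl, Bool.xor_true]
    exact (flip_self i c).mono (by omega) (by omega)
  · obtain ⟨d, rfl⟩ : ∃ d, i = k + (d + 1) := ⟨i - k - 1, by omega⟩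
    have := cube_le (show d ≤ j by omega)
    rw [decide_eq_false (by omega), Bool.xor_false]
    exact (flip_higher k d c).mono (by omega) (by omega)

theorem flip_list {j : ℕ} (k : Fin j) (l : List (Fin j)) (hl : l.Nodup) (c : Bool) :
    CE (l.length * (2 * j + 1) + 14 * (j + 1)) (l.length * (40 * (j + 1) ^ 3))
      ((l.map Fin.val).flatMap flipw ++ bw k, (0, xor c (decide (k ∈ l)))) (bw k, (0, c)) := by
  induction l generalizing c with
  | nil =>
    have := k.2
    simp only [List.map_nil, List.flatMap_nil, List.nil_append, List.not_mem_nil, decide_false,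
      Bool.xor_false]
    exact (CE.refl _).mono (by simp [bw]; omega) (by omega)
  | cons i l ih =>
    rw [List.nodup_cons] at hl
    have s1 := (ih hl.2 (xor c (decide (k.1 = i.1)))).pre (flipw i)
    have s2 := flip_any i.2 k.2 c
    have e : xor c (decide (k ∈ i :: l)) = xor (xor c (decide (k.1 = i.1))) (decide (k ∈ l)) := by
      by_cases h : k = i
      · subst h
        simp [hl.1]
      · have h' : k.1 ≠ i.1 := fun e => h (Fin.ext e)
        simp [h, h']
    have hi := i.2
    have hlen : (flipw i).length = 2 * i + 1 := by simp [flipw]; omega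
    rw [e, List.map_cons, List.flatMap_cons, List.append_assoc, List.length_cons,
      Nat.succ_mul l.length, Nat.succ_mul l.length]
    exact (s1.mono (c' := l.length * (2 * j + 1) + (2 * j + 1) + 14 * (j + 1)) (by omega)
      le_rfl).trans (s2.mono (by omega) le_rfl)

theorem trw_eq (j : ℕ) (σ : Fin j → Bool) :
    trw j σ = G0.one :: (((List.finRange j).filter σ).map Fin.val).flatMap flipw := by
  unfold trw
  congr 2
  simp [List.map_eq_flatMap]

theorem pair_lt (i d : ℕ) (b : Bool) :
    CE (i + d + 1) (d + 1) (bw i, (0, b)) (M 1 0 (i + 1) ++ M 2 0 d, (1, b)) ∧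
    CE (i + 9 * d + 1) (4 * d ^ 3 + 5 * d) (bw (i + (d + 1)), (0, b))
      (M 1 0 (i + 1) ++ M 2 0 d, (0, b)) := by
  constructor
  · have s1 := (CE.rc (rc_mv (p := 1) (q := 0) (by decide) b)).symm.pre (M 1 0 i)
    have s2 := (ce_drop (M 2 0 d) (1, b) (by
      intro g hg
      rw [List.mem_replicate] at hg
      rw [hg.2]
      exact rc_mv_off (by decide) (by decide) (by decide) b)).symm.pre (M 1 0 i ++ [G0.mv 1 0])
    rw [bw_eq, M_succ']
    simp only [List.append_assoc, List.nil_append, List.append_nil,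
      List.length_append, List.length_replicate, List.length_nil, List.cons_append,
      List.length_cons] at s1 s2 ⊢
    exact ((s1.mono (c' := i + d + 1) (by omega) le_rfl).trans
      (s2.mono (by omega) le_rfl)).mono le_rfl (by omega)
  · have s1 := (ce_OC d (p := 1) (q := 2) (τ := 0) (by decide) (by decide) b).pre (M 1 0 (i + 1))
    rw [bw_eq, show i + (d + 1) = i + 1 + d by omega, M_add]
    exact s1.mono (by simp; omega) le_rfl

theorem pow_facts (j : ℕ) :
    j + 1 ≤ (j + 1) ^ 2 ∧ (j + 1) ^ 3 ≤ (j + 1) ^ 4 := by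
  constructor
  · calc j + 1 = (j + 1) ^ 1 := (pow_one _).symm
      _ ≤ (j + 1) ^ 2 := Nat.pow_le_pow_right (by omega) (by omega)
  · exact Nat.pow_le_pow_right (by omega) (by omega)

theorem pair_rw {j i k : ℕ} (hik : i < k) (hk : k < j) :
    ∃ v : List G0,
      (∀ b, Rw (41 * (j + 1) ^ 2) (41 * (j + 1) ^ 4) (bw i, (0, b)) (v, (1, b))) ∧
      ∀ b, Rw (41 * (j + 1) ^ 2) (41 * (j + 1) ^ 4) (bw k, (0, b)) (v, (0, b)) := by
  obtain ⟨d, rfl⟩ : ∃ d, k = i + (d + 1) := ⟨k - i - 1, by omega⟩
  have h1 := cube_le (show d ≤ j by omega)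
  have h2 := pow_facts j
  have h3 : 1 ≤ (j + 1) ^ 3 := Nat.one_le_pow _ _ (by omega)
  exact ⟨_, fun b => ((pair_lt i d b).1.mono (by omega) (by omega)).rw,
    fun b => ((pair_lt i d b).2.mono (by omega) (by omega)).rw⟩

end Words

open Words

/-- The translation word acts on every bit as expected. -/
theorem words_tr : ∃ c : ℕ, ∀ (j : ℕ) (σ : Fin j → Bool) (i : Fin j) (b : Bool),
    Rw (c * (j + 1) ^ 2) (c * (j + 1) ^ 4) (trw j σ ++ bw i, (0, xor b (σ i))) (bw i, (0, b)) := by
  refine ⟨41, fun j σ i b => ?_⟩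
  set l := (List.finRange j).filter σ with hl
  have hnd : l.Nodup := (List.nodup_finRange j).filter _
  have hlen : l.length ≤ j := by
    have := List.length_filter_le σ (List.finRange j)
    rwa [List.length_finRange] at this
  have hσ : σ i = decide (i ∈ l) := by
    cases h : σ i <;> simp [hl, h]
  have s2 := flip_list i l hnd b
  have hw := (s2.rw).len_left
  have s1 := WE.r1 ((l.map Fin.val).flatMap flipw ++ bw i) (0, xor b (decide (i ∈ l)))
  have a1 : l.length * (2 * j + 1) ≤ j * (2 * j + 1) := Nat.mul_le_mul_right _ hlen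
  have a2 : l.length * (40 * (j + 1) ^ 3) ≤ (j + 1) * (40 * (j + 1) ^ 3) :=
    Nat.mul_le_mul_right _ (by omega)
  have a3 : (j + 1) * (40 * (j + 1) ^ 3) = 40 * (j + 1) ^ 4 := by ring
  have a4 : 1 ≤ (j + 1) ^ 4 := Nat.one_le_pow _ _ (by omega)
  have a5 : 41 * (j + 1) ^ 2 = j * (2 * j + 1) + 39 * j ^ 2 + 81 * j + 41 := by ring
  rw [hσ, trw_eq]
  simp only at hw
  exact (((s1.mono (c' := 41 * (j + 1) ^ 2) (by omega) le_rfl).trans
    (s2.mono (by omega) le_rfl)).mono le_rfl (by omega)).rw

/-- Two different bits are a common word applied to two primitive colours. -/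
theorem words_pair : ∃ c : ℕ, ∀ (j : ℕ) (i i' : Fin j), i ≠ i' →
    ∃ (v : List G0) (p q : Fin 6),
      (∀ b, Rw (c * (j + 1) ^ 2) (c * (j + 1) ^ 4) (bw i, (0, b)) (v, (p, b))) ∧
      ∀ b, Rw (c * (j + 1) ^ 2) (c * (j + 1) ^ 4) (bw i', (0, b)) (v, (q, b)) := by
  refine ⟨41, fun j i i' h => ?_⟩
  rcases lt_or_gt_of_ne h with h | h
  · obtain ⟨v, h1, h2⟩ := pair_rw (j := j) (i := i) (k := i') h i'.2
    exact ⟨v, 1, 0, h1, h2⟩
  · obtain ⟨v, h1, h2⟩ := pair_rw (j := j) (i := i') (k := i) h i.2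
    exact ⟨v, 0, 1, h2, h1⟩

end Pool.Agent.Lib.MP_a7c6c3_lc
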