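import Pool.Agent.Lib.MP_a7c6c3_lc.Layer2
import Pool.Agent.Lib.MP_a7c6c3_lc.Words

/-! Module `BitsAsm`: the bit system. -/

set_option autoImplicit false

namespace Pool.Agent.Lib.MP_a7c6c3_lc

theorem rw_cost : ∃ C : ℝ, 0 < C ∧ ∀ {Ω : Type} [Fintype Ω] (val : Var → Ω → List Bool)
    (P : PS Ω) (t e : ℝ), Facts P val t e → ∀ (L n : ℕ) (a b : CW), Rw L n a b →
      P.D (nmW val P a) (nmW val P b) ≤ C * (n + 1) * (L + 1) ^ 2 * e ∧
      P.D (nmW val P b) (nmW val P a) ≤ C * (n + 1) * (L + 1) ^ 2 * e := by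
  obtain ⟨Cg, hg, hG⟩ := good_word
  obtain ⟨Cs, hs, hS⟩ := step_cost
  refine ⟨Cg + Cs, by positivity, fun val P t e hF L n a b h => ?_⟩
  have he := hF.e_nonneg
  have hx : (0 : ℝ) ≤ (L + 1) ^ 2 * e := by positivity
  induction h with
  | refl n a ha =>
    have h1 := (hG val P t e hF L a ha).2.2
    have h2 : (0 : ℝ) ≤ n := n.cast_nonneg
    have h3 : Cg * (L + 1) ^ 2 * e ≤ (Cg + Cs) * (n + 1) * (L + 1) ^ 2 * e := by
      have := mul_nonneg (show 0 ≤ (Cg + Cs) * n + Cs by positivity) hx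
      nlinarith
    exact ⟨h1.trans h3, h1.trans h3⟩
  | step n a b c ha hab hbc ih =>
    have h1 : P.D (nmW val P a) (nmW val P b) ≤ Cs * (L + 1) ^ 2 * e ∧
        P.D (nmW val P b) (nmW val P a) ≤ Cs * (L + 1) ^ 2 * e := by
      rcases hab with h | h
      · exact hS val P t e hF L a b ha hbc.len_left h
      · exact (hS val P t e hF L b a hbc.len_left ha h).symm
    have h2 := P.D_tri (nmW val P a) (nmW val P b) (nmW val P c)
    have h3 := P.D_anti (nmW val P a) (nmW val P c) (nmW val P b)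
    have h4 := P.D_tri (nmW val P c) (nmW val P b) (nmW val P a)
    have h5 := P.D_anti (nmW val P c) (nmW val P a) (nmW val P b)
    rw [mul_comm] at h3 h5
    have h6 := mul_nonneg hg.le hx
    push_cast
    constructor <;> nlinarith [h1.1, h1.2, ih.1, ih.2]

namespace BA

variable {Ω : Type} [Fintype Ω] (P : PS Ω)

theorem D_repl (M M' N N' F : Nm Ω) :
    P.D (M * N) F ≤ P.D (M' * N') F + P.D M M' + P.D N N' := by
  have h1 := P.D_tri (M * N) (M' * N') F
  have h2 := P.D_mul_le M N (M' * N' * F)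
  have h3 := P.D_anti M (N' * F) M'
  have h4 := P.D_anti N (M' * F) N'
  have e1 : N' * F * M' = M' * N' * F := by ac_rfl
  have e2 : M' * F * N' = M' * N' * F := by ac_rfl
  rw [e1] at h3
  rw [e2] at h4
  linarith

theorem D_repl1 (M M' F : Nm Ω) : P.D M F ≤ P.D M' F + P.D M M' := by
  have h1 := P.D_tri M M' F
  have h3 := P.D_anti M F M'
  rw [mul_comm] at h3
  linarith

theorem D_drop (A B F : Nm Ω) : P.D A (B * F) ≤ P.D A B := by
  have h := P.D_anti A F B
  rwa [mul_comm] at h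

theorem D_le_J (A F : Nm Ω) : P.D A F ≤ P.J A := by
  have h := P.D_anti A F 1
  rwa [mul_one, P.D_one] at h

theorem D_one_left (F : Nm Ω) : P.D 1 F = 0 := by rw [PS.D, one_mul, sub_self]

theorem D_det_sub {α : Type} [DecidableEq α] {f : Ω → α} {N : Nm Ω} (h : Meas f N) (F : Nm Ω) :
    P.D (det f) (N * F) = P.D (det f) F - P.D N F := by
  have h1 := P.J_absorb h F
  have e1 : det f * (N * F) = N * (det f * F) := by ac_rfl
  simp only [PS.D]
  rw [e1, h1]; ring

theorem I_eq' (A B F : Nm Ω) : P.I A B F = P.D A F + P.D B F - P.D (A * B) F := by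
  simp only [PS.D, PS.I]; ring

variable {P} {val : Var → Ω → List Bool} {t e : ℝ}

theorem meas_cX (γ : Col) : Meas (fR val 0) (vn val (.cX γ)) := by
  classical
  exact meas_det (ref_res_val val (by simp [SR, isR]))

theorem mask_le (hF : Facts P val t e) (w : List G0) :
    P.D (act val P w 1) (det (fF val)) ≤ 4 * w.length * e := by
  have h := (rank_act val P hF w (meas_one _)).2
  rwa [D_one_left, zero_add] at h

/-- The two colours of a stack still cover the state after a word has acted. -/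
theorem cov_word (hF : Facts P val t e) (w : List G0) (p : Fin 6) {δ : ℝ} (he : e ≤ δ)
    (hw : 4 * w.length * e ≤ δ) (hsd : ∀ b, P.D (nmW val P (w, (p, b))) (nmW val P (w, (p, b))) ≤ δ) :
    P.D (det (fR val 0)) (det (fF val)) ≤
      P.D (nmW val P (w, (p, false)) * nmW val P (w, (p, true))) (det (fF val)) + 6 * δ := by
  have h1 := Chan.le_D_app_mul (pres_chanW val P w) (ref_fR val 0)
    (A := vn val (.cX (p, false))) (meas_cX (val := val) (p, true))
  simp only [app_chanW] at h1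
  have h2 := (rank_act val P hF w ((meas_cX (p, false)).mul (meas_cX (p, true)))).1
  have h3 := (rank_act val P hF w (meas_det (Ref.rfl' (fR val 0)))).1
  have h4 := mask_le hF w
  have h5 := hF.c_cov p
  have h6 := P.D_tri (det (fR val 0)) (vn val (.cX (p, false)) * vn val (.cX (p, true)))
    (det (fF val))
  have h7 := hsd false
  have h8 := hsd true
  simp only [nmW] at h7 h8 ⊢
  linarith

theorem colour_lo (hF : Facts P val t e) (q : Fin 6) (c : Bool) :
    t - 2 * e - P.J (vn val (.cX (q, !c))) ≤ P.D (vn val (.cX (q, c))) (det (fF val)) := by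
  have h5 := hF.c_cov q
  have h6 := P.D_tri (det (fR val 0)) (vn val (.cX (q, false)) * vn val (.cX (q, true)))
    (det (fF val))
  have h7 := P.D_mul_le (vn val (.cX (q, false))) (vn val (.cX (q, true))) (det (fF val))
  have h8 := D_le_J P (vn val (.cX (q, !c))) (det (fF val))
  have h9 := hF.top_lo
  cases c <;> simp only [Bool.not_false, Bool.not_true] at h8 ⊢ <;> linarith

theorem pair_hi (hF : Facts P val t e) (v : List G0) (γ γ' : Col) {δ : ℝ}
    (hw : 4 * v.length * e ≤ δ) (hsd : ∀ γ, P.D (nmW val P (v, γ)) (nmW val P (v, γ)) ≤ δ) :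
    P.D (nmW val P (v, γ) * nmW val P (v, γ')) (det (fF val)) ≤
      P.J (vn val (.cX γ) * vn val (.cX γ')) + 3 * δ := by
  have h1 := Chan.D_app_mul_le (pres_chanW val P v) (vn val (.cX γ)) (vn val (.cX γ'))
  simp only [app_chanW] at h1
  have h2 := (rank_act val P hF v ((meas_cX γ).mul (meas_cX γ'))).2
  have h3 := D_le_J P (vn val (.cX γ) * vn val (.cX γ')) (det (fF val))
  have h7 := hsd γ
  have h8 := hsd γ'
  simp only [nmW] at h7 h8 ⊢
  linarith

/-- The bit system, from uniform bounds `δ` on the elementary costs. -/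
theorem bits_of {Ct : ℝ} (hCt : 0 < Ct) (hF : Facts P val t e)
    (hT : ∀ (N : Nm Ω) (ζ : ℝ), Meas (fR val 0) N → GX val P N ≤ ζ →
      P.D N (vn val (.pt .X)) ≤ ζ →
      ∃ A : Tri (fR val), A.nm 0 = N ∧ Al P (fR val) (fF val) A (Ct * (ζ + e)))
    (j L : ℕ) {δ : ℝ} (he : e ≤ δ) (hL : 4 * (L : ℝ) * e ≤ δ) (hjL : j ≤ L)
    (hG : ∀ a : CW, a.1.length ≤ L → GX val P (nmW val P a) ≤ δ ∧
      P.D (nmW val P a) (vn val (.pt .X)) ≤ δ ∧ P.D (nmW val P a) (nmW val P a) ≤ δ)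
    (hlen : ∀ σ, (trw j σ).length ≤ L)
    (htr : ∀ (σ : Fin j → Bool) (i : Fin j) (b : Bool), (trw j σ ++ bw i).length ≤ L ∧
      P.D (nmW val P (trw j σ ++ bw i, (0, xor b (σ i)))) (nmW val P (bw i, (0, b))) ≤ δ)
    (hpair : ∀ i i' : Fin j, i ≠ i' → ∃ (v : List G0) (p q : Fin 6), v.length ≤ L ∧
      (∀ b, P.D (nmW val P (bw i, (0, b))) (nmW val P (v, (p, b))) ≤ δ) ∧
      ∀ b, P.D (nmW val P (bw i', (0, b))) (nmW val P (v, (q, b))) ≤ δ ∧
        P.D (nmW val P (v, (q, b))) (nmW val P (bw i', (0, b))) ≤ δ) :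
    Nonempty (Bits P (fR val) (fF val) j ((2 * Ct + 30) * δ)) := by
  have he0 := hF.e_nonneg
  have hδ : 0 ≤ δ := he0.trans he
  have hCδ : 0 ≤ Ct * δ := by positivity
  have hw : ∀ w : List G0, w.length ≤ L → 4 * w.length * e ≤ δ := fun w h => by
    have h1 : (w.length : ℝ) ≤ L := by exact_mod_cast h
    nlinarith
  have hb : ∀ i : Fin j, (bw i).length ≤ L := fun i => by
    rw [bw, List.length_replicate]; exact i.2.le.trans hjL
  have hγ := fun (i : Fin j) (c : Bool) => hT (nmW val P (bw i, (0, c))) δ (meas_nmW val P _)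
    (hG _ (hb i)).1 (hG _ (hb i)).2.1
  choose γ hγ0 hγa using hγ
  have hcov : ∀ i : Fin j, P.D (det (fR val 0)) (det (fF val)) ≤
      P.D (nmW val P (bw i, (0, false)) * nmW val P (bw i, (0, true))) (det (fF val)) + 6 * δ :=
    fun i => cov_word hF (bw i) 0 he (hw _ (hb i)) fun b => (hG _ (hb i)).2.2
  have happ : ∀ (σ : Fin j → Bool) (i : Fin j) (c : Bool), (chanW val P (trw j σ)).app
      (nmW val P (bw i, (0, c))) = nmW val P (trw j σ ++ bw i, (0, c)) := fun σ i c => by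
    rw [app_chanW, nmW, nmW, act_append]
  refine ⟨⟨γ, fun σ => chanW val P (trw j σ), fun i c u => (hγa i c u).trans (by nlinarith),
    fun i => ?_, fun i => ?_, fun i i' c hi => ?_, fun σ => ⟨pres_chanW val P _,
      smeas_chanW val P _ _, ?_, fun N hN => ?_⟩, fun σ i c => ?_, fun σ i c => ?_⟩⟩
  · rw [hγ0, hγ0, D_det_sub P ((meas_nmW val P _).mul (meas_nmW val P _))]
    linarith [hcov i]
  · rw [hγ0, hγ0, I_eq']
    have h1 := (rank_act val P hF (bw i) (meas_cX (val := val) (0, false))).2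
    have h2 := (rank_act val P hF (bw i) (meas_cX (val := val) (0, true))).2
    have h3 := D_le_J P (vn val (.cX (0, false))) (det (fF val))
    have h4 := D_le_J P (vn val (.cX (0, true))) (det (fF val))
    have h5 := hF.c_1 0
    have h6 := hF.top_lo
    have h7 := hcov i
    have h8 := hw _ (hb i)
    simp only [nmW] at h7 ⊢
    linarith
  · obtain ⟨v, p, q, hv, h1, h2⟩ := hpair i i' hi
    rw [hγ0, hγ0, hγ0, Split]
    have a1 := fun b => D_repl P (nmW val P (bw i', (0, c))) (nmW val P (v, (q, c)))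
      (nmW val P (bw i, (0, b))) (nmW val P (v, (p, b))) (det (fF val))
    have a2 := fun b => pair_hi hF v (q, c) (p, b) (hw v hv) fun γ => (hG (v, γ) hv).2.2
    have a3 := hF.c_2 (q, c) p
    have a4 := D_repl1 P (nmW val P (v, (q, c))) (nmW val P (bw i', (0, c))) (det (fF val))
    have a5 := (rank_act val P hF v (meas_cX (val := val) (q, c))).1
    have a6 := colour_lo hF q c
    have a7 := P.D_mul_le (nmW val P (bw i, (0, false))) (nmW val P (bw i, (0, true)))
      (det (fF val))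
    have a8 : act val P v (vn val (.cX (q, c))) = nmW val P (v, (q, c)) := rfl
    rw [a8] at a5
    linarith [a1 false, a1 true, a2 false, a2 true, h1 false, h1 true, (h2 c).1, (h2 c).2,
      hcov i, hF.top_lo, hw v hv]
  · rw [app_chanW]
    linarith [mask_le hF (trw j σ), hw _ (hlen σ)]
  · rw [app_chanW]
    linarith [(rank_act val P hF (trw j σ) hN).1, hw _ (hlen σ)]
  · rw [hγ0, hγ0, happ]
    linarith [D_drop P (nmW val P (trw j σ ++ bw i, (0, xor c (σ i)))) (nmW val P (bw i, (0, c)))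
      (det (fF val)), (htr σ i c).2]
  · rw [hγ0, happ]
    linarith [D_drop P (nmW val P (trw j σ ++ bw i, (0, c))) (nmW val P (trw j σ ++ bw i, (0, c)))
      (det (fF val)), (hG (trw j σ ++ bw i, (0, c)) (htr σ i c).1).2.2]

end BA

theorem bits_exist : ∃ C : ℝ, 1 ≤ C ∧ ∀ {Ω : Type} [Fintype Ω] (val : Var → Ω → List Bool)
    (P : PS Ω) (t e : ℝ), Facts P val t e → ∀ j : ℕ,
      Nonempty (Bits P (fR val) (fF val) j (C * (j + 1) ^ 8 * e)) := by
  obtain ⟨Cg, hg, hG⟩ := good_word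
  obtain ⟨Cr, hr, hR⟩ := rw_cost
  obtain ⟨Ct, ht, hT⟩ := triple_exists
  obtain ⟨c1, h1⟩ := words_tr
  obtain ⟨c2, h2⟩ := words_pair
  set c : ℕ := c1 + c2 + 1 with hc
  set K : ℝ := (Cg + Cr + 4) * (c + 1) ^ 3 with hK
  have hc1 : (1 : ℝ) ≤ (c + 1 : ℝ) := by linarith [c.cast_nonneg (α := ℝ)]
  have hK1 : 1 ≤ K := by
    have := one_le_pow₀ (n := 3) hc1
    nlinarith
  refine ⟨(2 * Ct + 30) * K, by nlinarith, fun val P t e hF j => ?_⟩
  have he := hF.e_nonneg
  set y : ℝ := j + 1 with hy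
  have hy1 : 1 ≤ y := by linarith [j.cast_nonneg (α := ℝ)]
  have hy2 : 1 ≤ y ^ 2 := one_le_pow₀ hy1
  have hy4 : 1 ≤ y ^ 4 := one_le_pow₀ hy1
  have hy8 : 1 ≤ y ^ 8 := one_le_pow₀ hy1
  -- the cost of the derivations
  have hcost : ∀ c' : ℕ, c' ≤ c → Cr * (((c' * (j + 1) ^ 4 : ℕ) : ℝ) + 1) *
      (((c' * (j + 1) ^ 2 : ℕ) : ℝ) + 1) ^ 2 * e ≤ K * y ^ 8 * e := fun c' h => by
    have h0 : (c' : ℝ) ≤ c := by exact_mod_cast h
    have a1 : ((c' * (j + 1) ^ 4 : ℕ) : ℝ) + 1 ≤ (c + 1) * y ^ 4 := by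
      push_cast; rw [← hy]; nlinarith
    have a2 : ((c' * (j + 1) ^ 2 : ℕ) : ℝ) + 1 ≤ (c + 1) * y ^ 2 := by
      push_cast; rw [← hy]; nlinarith
    calc _ ≤ (Cg + Cr + 4) * ((c + 1) * y ^ 4) * ((c + 1) * y ^ 2) ^ 2 * e := by
          gcongr; linarith
      _ = K * y ^ 8 * e := by rw [hK]; ring
  have hLc : ∀ c' : ℕ, c' ≤ c → c' * (j + 1) ^ 2 ≤ c * (j + 1) ^ 2 := fun c' h =>
    Nat.mul_le_mul_right _ h
  have hL1 : ((c * (j + 1) ^ 2 : ℕ) : ℝ) + 1 ≤ (c + 1) * y ^ 2 := by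
    push_cast; rw [← hy]; nlinarith
  have hbig : ((c + 1) * y ^ 2) ^ 2 ≤ (c + 1) ^ 3 * y ^ 8 := by
    rw [mul_pow, ← pow_mul]
    exact mul_le_mul (pow_le_pow_right₀ hc1 (by norm_num)) (pow_le_pow_right₀ hy1 (by norm_num))
      (by positivity) (by positivity)
  have hgood : Cg * (((c * (j + 1) ^ 2 : ℕ) : ℝ) + 1) ^ 2 * e ≤ K * y ^ 8 * e :=
    calc _ ≤ (Cg + Cr + 4) * ((c + 1) * y ^ 2) ^ 2 * e := by gcongr; linarith
      _ ≤ (Cg + Cr + 4) * ((c + 1) ^ 3 * y ^ 8) * e := by gcongr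
      _ = K * y ^ 8 * e := by rw [hK]; ring
  have hlin : 4 * ((c * (j + 1) ^ 2 : ℕ) : ℝ) * e ≤ K * y ^ 8 * e := by
    have a1 : 1 ≤ (c + 1) * y ^ 2 := by nlinarith
    have a2 : (c + 1) * y ^ 2 ≤ ((c + 1) * y ^ 2) ^ 2 := by nlinarith
    calc _ ≤ (Cg + Cr + 4) * ((c + 1) ^ 3 * y ^ 8) * e := by gcongr <;> linarith
      _ = K * y ^ 8 * e := by rw [hK]; ring
  have hj : j + 1 ≤ c * (j + 1) ^ 2 := by
    have a1 : j + 1 ≤ (j + 1) ^ 2 := Nat.le_self_pow two_ne_zero _
    have a2 : 1 * (j + 1) ^ 2 ≤ c * (j + 1) ^ 2 := hLc 1 (by omega)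
    omega
  have key := BA.bits_of ht hF (hT val P t e hF) j (c * (j + 1) ^ 2) (δ := K * y ^ 8 * e)
    (by nlinarith [mul_le_mul hK1 hy8 zero_le_one (zero_le_one.trans hK1)]) hlin (by omega)
    (fun a ha => ⟨(hG val P t e hF _ a ha).1.trans hgood, (hG val P t e hF _ a ha).2.1.trans hgood,
      (hG val P t e hF _ a ha).2.2.trans hgood⟩)
    (fun σ => ?_)
    (fun σ i b => ⟨(h1 j σ i b).len_left.trans (hLc c1 (by omega)),
      (hR val P t e hF _ _ _ _ (h1 j σ i b)).1.trans (hcost c1 (by omega))⟩)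
    (fun i i' hi => ?_)
  · have e1 : (2 * Ct + 30) * K * y ^ 8 * e = (2 * Ct + 30) * (K * y ^ 8 * e) := by ring
    rw [e1]; exact key
  · rcases j with _ | j
    · have : (trw 0 σ).length = 1 := by simp [trw]
      omega
    · have := (h1 (j + 1) σ 0 false).len_left.trans (hLc c1 (by omega))
      rw [List.length_append] at this
      omega
  · obtain ⟨v, p, q, a1, a2⟩ := h2 j i i' hi
    exact ⟨v, p, q, (a1 false).len_right.trans (hLc c2 (by omega)),
      fun b => (hR val P t e hF _ _ _ _ (a1 b)).1.trans (hcost c2 (by omega)),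
      fun b => ⟨(hR val P t e hF _ _ _ _ (a2 b)).1.trans (hcost c2 (by omega)),
        (hR val P t e hF _ _ _ _ (a2 b)).2.trans (hcost c2 (by omega))⟩⟩

end Pool.Agent.Lib.MP_a7c6c3_lc
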