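import Pool.Agent.Lib.MP_a7c6c3_lc.Defs

/-!
# Pointwise information of a cell and the random design
-/

set_option autoImplicit false
open Finset
open scoped BigOperators

namespace Pool.Agent.Lib.MP_a7c6c3_lc

namespace PS

variable {Ω : Type} [Fintype Ω] (P : PS Ω)

/-- Pointwise conditional mutual information of the values `a`, `b` given the value `c`. -/
noncomputable def pmi (c a b : Ω → ℝ) : ℝ :=
  Real.log (P.m (c * a * b) * P.m c / (P.m (c * a) * P.m (c * b)))

/-- Squared Hellinger distance between the laws of `B` given `(c, a)` and given `c`. -/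
noncomputable def hel (B : Nm Ω) (c a : Ω → ℝ) : ℝ :=
  B.lin fun b => (√(P.m (c * a * b) / P.m (c * a)) - √(P.m (c * b) / P.m c)) ^ 2

/-- Conditional expectation, given `ω`, of a function of the values of three names. -/
noncomputable def ex3 (C A B : Nm Ω) (W : (Ω → ℝ) → (Ω → ℝ) → (Ω → ℝ) → ℝ) (ω : Ω) : ℝ :=
  C.lin fun c => A.lin fun a => B.lin fun b => c ω * a ω * b ω * W c a b

/-- The weight `W`. -/
noncomputable def wfun (κ : ℝ) (C A B : Nm Ω) : Ω → ℝ :=
  ex3 C A B fun c a b => κ * P.hel B c a + if 1 < P.pmi c a b then P.pmi c a b else 0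

/-- The rare-event indicator `V`, with values in `[0, 1]`. -/
noncomputable def vfun (κ : ℝ) (C A B : Nm Ω) : Ω → ℝ :=
  ex3 C A B fun c a b => max √(P.hel B c a / 2) (if κ < P.pmi c a b then 1 else 0)

/-- The probability of a large pointwise information. -/
noncomputable def tfun (κ : ℝ) (C A B : Nm Ω) : Ω → ℝ :=
  ex3 C A B fun c a b => if κ < P.pmi c a b then 1 else 0

end PS

section Design

variable {ι : Type} [Fintype ι] [DecidableEq ι]

/-- Average over the row past of the target row `a`: a uniform set avoiding `a` of uniform size in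
`[5q, 7q)`, thinned by an independent uniform set. -/
noncomputable def rowAv (q : ℕ) (a : ι) (g : Finset ι → ℝ) : ℝ :=
  𝔼 i ∈ Ico (5 * q) (7 * q), 𝔼 X ∈ powersetCard i (univ.erase a), 𝔼 Z : Finset ι, g (X ∩ Z)

/-- Average over the column past of the target column `b`: a uniform set avoiding `b` of uniform
size in `[q, 2q)`. -/
noncomputable def colAv (q : ℕ) (b : ι) (g : Finset ι → ℝ) : ℝ :=
  𝔼 i ∈ Ico q (2 * q), 𝔼 T ∈ powersetCard i (univ.erase b), g T

/-- Average over the extra columns: a uniform subset of `C` of uniform size in `[0, L)`. -/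
noncomputable def extAv (L : ℕ) (C : Finset ι) (g : Finset ι → ℝ) : ℝ :=
  𝔼 l ∈ range L, 𝔼 K ∈ powersetCard l C, g K

/-- Average over the own past of the cell `(a, b)`. -/
noncomputable def loc (q : ℕ) (a b : ι) (G : Finset ι → Finset ι → ℝ) : ℝ :=
  rowAv q a fun X => colAv q b fun T => G X T

/-- Average over the rows: target and the two independent pasts. -/
noncomputable def rows (q : ℕ) (G : ι → Finset ι → Finset ι → ℝ) : ℝ :=
  𝔼 a : ι, rowAv q a fun X => rowAv q a fun Y => G a X Y

/-- Average over the columns: target, the two independent pasts, the extra columns. -/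
noncomputable def cols (q L : ℕ) (G : ι → Finset ι → Finset ι → Finset ι → ℝ) : ℝ :=
  𝔼 b : ι, colAv q b fun T => colAv q b fun T' =>
    extAv L (univ \ insert b (T ∪ T')) fun K => G b T T' K

/-- Level average of a set function. -/
noncomputable def lev (f : Finset ι → ℝ) (i : ℕ) : ℝ := 𝔼 S ∈ powersetCard i (univ : Finset ι), f S

variable {Ω : Type} [Fintype Ω] {α : Type} [DecidableEq α]

/-- The own past: frame, rows in `X`, columns in `T`. -/
noncomputable def past (f : Ω → α) (A B : ι → Nm Ω) (X T : Finset ι) : Nm Ω :=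
  det f * (∏ a ∈ X, A a) * ∏ b ∈ T, B b

noncomputable def wloc (P : PS Ω) (q : ℕ) (κ : ℝ) (f : Ω → α) (A B : ι → Nm Ω) (a b : ι)
    (ω : Ω) : ℝ :=
  loc q a b fun X T => P.wfun κ (past f A B X T) (A a) (B b) ω

noncomputable def vloc (P : PS Ω) (q : ℕ) (κ : ℝ) (f : Ω → α) (A B : ι → Nm Ω) (a b : ι)
    (ω : Ω) : ℝ :=
  loc q a b fun X T => P.vfun κ (past f A B X T) (A a) (B b) ω

noncomputable def tloc (P : PS Ω) (q : ℕ) (κ : ℝ) (f : Ω → α) (A B : ι → Nm Ω) (a b : ι)
    (ω : Ω) : ℝ :=
  loc q a b fun X T => P.tfun κ (past f A B X T) (A a) (B b) ω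

end Design

end Pool.Agent.Lib.MP_a7c6c3_lc
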