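import Pool.Agent.Lib.MP_a7c6c3_lc.Basic
import Pool.Agent.Lib.MP_a7c6c3_lc.CellDefs

/-! Expectations over the values of several names. -/

set_option autoImplicit false
open Finset

namespace Pool.Agent.Lib.MP_a7c6c3_lc.CellAux

variable {Ω : Type}

/-- Conditional expectation, given `ω`, of a function of the value of a name. -/
def ev (N : Nm Ω) (ω : Ω) (g : (Ω → ℝ) → ℝ) : ℝ := N.lin fun l => l ω * g l

theorem ev_const (N : Nm Ω) (ω : Ω) (x : ℝ) : ev N ω (fun _ => x) = x := by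
  unfold ev
  rw [Nm.lin_mul_right, Nm.lin_eval, one_mul]

theorem ev_mul (A B : Nm Ω) (ω : Ω) (g : (Ω → ℝ) → ℝ) :
    ev (A * B) ω g = ev A ω fun a => ev B ω fun b => g (a * b) := by
  simp only [ev, Nm.lin_mul, ← Nm.lin_mul_left, Pi.mul_apply, mul_assoc]

theorem ev_add (N : Nm Ω) (ω : Ω) (f g : (Ω → ℝ) → ℝ) :
    ev N ω (fun l => f l + g l) = ev N ω f + ev N ω g := by
  simp only [ev, mul_add, Nm.lin_add]

theorem ev_mul_left (N : Nm Ω) (ω : Ω) (x : ℝ) (g : (Ω → ℝ) → ℝ) :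
    ev N ω (fun l => x * g l) = x * ev N ω g := by
  simp only [ev, ← Nm.lin_mul_left, mul_left_comm]

theorem ev_mul_right (N : Nm Ω) (ω : Ω) (x : ℝ) (g : (Ω → ℝ) → ℝ) :
    ev N ω (fun l => g l * x) = ev N ω g * x := by
  simp only [ev, ← Nm.lin_mul_right, mul_assoc]

theorem ex3_ev (C A B : Nm Ω) (W : (Ω → ℝ) → (Ω → ℝ) → (Ω → ℝ) → ℝ) (ω : Ω) :
    PS.ex3 C A B W ω = ev C ω fun c => ev A ω fun a => ev B ω fun b => W c a b := by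
  simp only [PS.ex3, ev, ← Nm.lin_mul_left, mul_assoc]

/-- Nonnegative vectors that are positive at `ω`. -/
def PP (ω : Ω) (l : Ω → ℝ) : Prop := (∀ ω', 0 ≤ l ω') ∧ 0 < l ω

theorem PP.mul {ω : Ω} {l l' : Ω → ℝ} (h : PP ω l) (h' : PP ω l') : PP ω (l * l') :=
  ⟨fun ω' => mul_nonneg (h.1 ω') (h'.1 ω'), mul_pos h.2 h'.2⟩

theorem PP.of {ω : Ω} {l : Ω → ℝ} (h : ∀ ω', 0 ≤ l ω') (h' : l ω ≠ 0) : PP ω l :=
  ⟨h, lt_of_le_of_ne (h ω) (Ne.symm h')⟩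

theorem nn_mul {l l' : Ω → ℝ} (h : ∀ ω, 0 ≤ l ω) (h' : ∀ ω, 0 ≤ l' ω) : ∀ ω, 0 ≤ (l * l') ω :=
  fun ω => mul_nonneg (h ω) (h' ω)

variable [Fintype Ω] (P : PS Ω)

theorem PP.m_pos {ω : Ω} {l : Ω → ℝ} (h : PP ω l) : 0 < P.m l :=
  Finset.sum_pos' (fun ω' _ => mul_nonneg (P.pos ω').le (h.1 ω'))
    ⟨ω, Finset.mem_univ _, mul_pos (P.pos ω) h.2⟩

theorem exists_of_m_ne {l : Ω → ℝ} (h : P.m l ≠ 0) : ∃ ω, l ω ≠ 0 := by
  obtain ⟨ω, -, h⟩ := Finset.exists_ne_zero_of_sum_ne_zero h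
  exact ⟨ω, right_ne_zero_of_mul h⟩

theorem m_ev0 (N : Nm Ω) (G : (Ω → ℝ) → Ω → ℝ) :
    P.m (fun ω => ev N ω fun l => G l ω) = N.lin fun l => P.m fun ω => l ω * G l ω := by
  simp only [PS.m, ev, Nm.lin_sum, Nm.lin_mul_left]

theorem m_ev (u : Ω → ℝ) (N : Nm Ω) (G : (Ω → ℝ) → Ω → ℝ) :
    P.m (fun ω => u ω * ev N ω fun l => G l ω) = N.lin fun l => P.m fun ω => (u * l) ω * G l ω := by
  simp only [PS.m, ev, Nm.lin_sum, Pi.mul_apply, mul_assoc, Nm.lin_mul_left]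

theorem m_const (u : Ω → ℝ) (x : ℝ) : P.m (fun ω => u ω * x) = P.m u * x := by
  simp only [PS.m, Finset.sum_mul, mul_assoc]

theorem H_ev (N : Nm Ω) : P.H N = - P.m fun ω => ev N ω fun l => Real.log (P.m l) := by
  rw [m_ev0]
  simp only [m_const, PS.H, Real.negMulLog]
  rw [neg_eq_neg_one_mul, ← Nm.lin_mul_left]
  congr 1
  funext l
  ring

/-- The finite type of values of a name. -/
abbrev Val {Ω : Type} (N : Nm Ω) : Type := @Multiset.ToType _ (Classical.decEq _) N.s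

omit [Fintype Ω] in
theorem Val.nn {N : Nm Ω} (i : Val N) : ∀ ω, 0 ≤ i.1 ω :=
  N.nonneg _ (@Multiset.coe_mem _ (Classical.decEq _) _ i)

omit [Fintype Ω] in
theorem lin_val (N : Nm Ω) (Ψ : (Ω → ℝ) → ℝ) : N.lin Ψ = ∑ i : Val N, Ψ i.1 :=
  @Nm.lin_eq_sum_toType _ N (Classical.decEq _) Ψ

theorem out (B : Nm Ω) (u : Ω → ℝ) (g : Val B → Ω → ℝ) (hg : ∀ i, g i = u * i.1) :
    P.m u = ∑ i, P.m (g i) := by
  simp only [hg]
  rw [← P.lin_m_mul B u, lin_val]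

theorem out2 (B B' : Nm Ω) (u : Ω → ℝ) (g : Val B × Val B' → Ω → ℝ)
    (hg : ∀ i, g i = u * i.1.1 * i.2.1) : P.m u = ∑ i, P.m (g i) := by
  simp only [hg, Fintype.sum_prod_type]
  rw [out P B u _ fun _ => rfl]
  exact Finset.sum_congr rfl fun i _ => out P B' _ _ fun _ => rfl

section

variable (Cx Cy Q A₁ A₂ B₁ B₂ B₃ : Nm Ω)

theorem bridge8 (f : (Ω → ℝ) → (Ω → ℝ) → (Ω → ℝ) → (Ω → ℝ) → (Ω → ℝ) → (Ω → ℝ) → (Ω → ℝ) →
    (Ω → ℝ) → ℝ) :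
    ∑ c : Val Cx × Val Cy × Val Q, ∑ a : Val A₁, ∑ a' : Val A₂, ∑ b : Val B₁ × Val B₂, ∑ z : Val B₃,
      P.m (c.1.1 * c.2.1.1 * c.2.2.1 * a.1 * a'.1 * b.1.1 * b.2.1 * z.1) *
        f c.1.1 c.2.1.1 c.2.2.1 a.1 a'.1 b.1.1 b.2.1 z.1 =
    P.m fun ω => ev Cx ω fun x => ev Cy ω fun y => ev Q ω fun q => ev A₁ ω fun a => ev A₂ ω fun a' =>
      ev B₁ ω fun b => ev B₂ ω fun b' => ev B₃ ω fun z => f x y q a a' b b' z := by
  simp only [m_ev0, m_ev, m_const, lin_val, Fintype.sum_prod_type]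

theorem bridge5 (f : (Ω → ℝ) → (Ω → ℝ) → (Ω → ℝ) → (Ω → ℝ) → (Ω → ℝ) → ℝ) :
    ∑ c : Val Cx × Val Cy × Val Q, ∑ a : Val A₁, ∑ a' : Val A₂,
      P.m (c.1.1 * c.2.1.1 * c.2.2.1 * a.1 * a'.1) * f c.1.1 c.2.1.1 c.2.2.1 a.1 a'.1 =
    P.m fun ω => ev Cx ω fun x => ev Cy ω fun y => ev Q ω fun q => ev A₁ ω fun a => ev A₂ ω fun a' =>
      f x y q a a' := by
  simp only [m_ev0, m_ev, m_const, lin_val, Fintype.sum_prod_type]

theorem tail_le (C A B : Nm Ω) (κ : ℝ) :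
    (P.m fun ω => ev C ω fun c => ev A ω fun a => ∑ b : Val B, P.m (c * a * b.1) / P.m (c * a) *
      if κ < P.pmi c a b.1 then 1 else 0) ≤ P.m (P.tfun κ C A B) := by
  have : P.tfun κ C A B = fun ω => ev C ω fun c => ev A ω fun a => ev B ω fun b =>
      if κ < P.pmi c a b then 1 else 0 := funext fun ω => ex3_ev _ _ _ _ _
  rw [this]
  simp only [m_ev0, m_ev, m_const, lin_val]
  refine Finset.sum_le_sum fun c _ => Finset.sum_le_sum fun a _ => ?_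
  rw [Finset.mul_sum]
  refine Finset.sum_le_sum fun b _ => ?_
  split_ifs
  · rw [mul_one, mul_one]
    by_cases h : P.m (c.1 * a.1) = 0
    · rw [h, zero_mul]; exact P.m_nonneg (nn_mul (nn_mul c.nn a.nn) b.nn)
    · rw [mul_div_cancel₀ _ h]
  · simp

theorem prod_ev (W V : (Ω → ℝ) → (Ω → ℝ) → (Ω → ℝ) → ℝ) (W' V' : (Ω → ℝ) → (Ω → ℝ) → (Ω → ℝ) → ℝ) :
    (P.m fun ω => ev Cx ω fun x => ev Cy ω fun y => ev Q ω fun _ => ev A₁ ω fun a => ev A₂ ω fun a' =>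
      ev B₁ ω fun b => ev B₂ ω fun b' => ev B₃ ω fun _ =>
        W x a b * V' y a' b' + V x a b * W' y a' b') =
    P.m fun ω => PS.ex3 Cx A₁ B₁ W ω * PS.ex3 Cy A₂ B₂ V' ω +
      PS.ex3 Cx A₁ B₁ V ω * PS.ex3 Cy A₂ B₂ W' ω := by
  simp only [ex3_ev, ev_const, ev_add, ev_mul_left, ev_mul_right]

end

end Pool.Agent.Lib.MP_a7c6c3_lc.CellAux
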