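import Pool.Agent.Lib.MP_a7c6c3_lc.Cell_Scalar

/-! The one-row estimates of the cell lemma. -/

set_option autoImplicit false
open Finset

namespace Pool.Agent.Lib.MP_a7c6c3_lc.CellAux

theorem pt_gibbs {p A B w : ℝ} (hp : 0 ≤ p) (hw : 0 ≤ w)
    (h : p ≠ 0 → 0 < A ∧ 0 < B ∧ p * (A / B) ≤ w) :
    p * Real.log A ≤ p * Real.log B + w - p := by
  by_cases h0 : p = 0
  · simp [h0, hw]
  · obtain ⟨hA, hB, h1⟩ := h h0
    have := plog hp (fun _ => div_pos hA hB)
    rw [Real.log_div hA.ne' hB.ne'] at this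
    linarith

theorem mul_div_self_le {x y : ℝ} (hy : 0 ≤ y) : x * (y / x) ≤ y := by
  by_cases h : x = 0
  · rw [h, zero_mul]; exact hy
  · rw [mul_div_cancel₀ _ h]

theorem pos_of_single {ι : Type} [Fintype ι] {f : ι → ℝ} (hf : ∀ i, 0 ≤ f i) (i : ι) {x : ℝ}
    (hx : x = ∑ i, f i) (h : 0 < f i) : 0 < x :=
  hx ▸ lt_of_lt_of_le h (Finset.single_le_sum (fun i _ => hf i) (Finset.mem_univ i))

section

variable {γ α β ζ : Type} [Fintype γ] [Fintype α] [Fintype β] [Fintype ζ]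

theorem sum3_le {f g : γ → α → ζ → ℝ} (h : ∀ c a z, f c a z ≤ g c a z) :
    ∑ c, ∑ a, ∑ z, f c a z ≤ ∑ c, ∑ a, ∑ z, g c a z :=
  Finset.sum_le_sum fun c _ => Finset.sum_le_sum fun a _ => Finset.sum_le_sum fun z _ => h c a z

theorem sum4_le {f g : γ → α → β → ζ → ℝ} (h : ∀ c a b z, f c a b z ≤ g c a b z) :
    ∑ c, ∑ a, ∑ b, ∑ z, f c a b z ≤ ∑ c, ∑ a, ∑ b, ∑ z, g c a b z :=
  Finset.sum_le_sum fun c _ => sum3_le (h c)

theorem side_lemma (R : γ → α → β → ζ → ℝ) (Raz : γ → α → ζ → ℝ) (Ra : γ → α → ℝ)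
    (Rbz : γ → β → ζ → ℝ) (Rz : γ → ζ → ℝ) (Rc : γ → ℝ)
    (hR : ∀ c a b z, 0 ≤ R c a b z) (hRaz : ∀ c a z, Raz c a z = ∑ b, R c a b z)
    (hRa : ∀ c a, Ra c a = ∑ z, Raz c a z) (hRbz : ∀ c b z, Rbz c b z = ∑ a, R c a b z)
    (hRz : ∀ c z, Rz c z = ∑ a, Raz c a z) (hRc : ∀ c, Rc c = ∑ a, Ra c a) (h1 : ∑ c, Rc c = 1)
    (s : γ → α → β → ℝ) (k : γ → β → ℝ) (K : γ → β → ζ → ℝ)
    (hs : ∀ c a b, 0 ≤ s c a b) (hk : ∀ c b, 0 ≤ k c b) (hK : ∀ c b z, 0 ≤ K c b z)
    (ss : ∀ c a, ∑ b, s c a b ≤ 1) (sk : ∀ c, ∑ b, k c b ≤ 1) (sK : ∀ c b, ∑ z, K c b z ≤ 1)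
    (hpos : ∀ c a b z, R c a b z ≠ 0 → 0 < s c a b ∧ 0 < k c b ∧ 0 < K c b z)
    (M : γ → ζ → ℝ) (Q : γ → α → ζ → ℝ) (hM : ∀ c z, M c z = ∑ b, k c b * K c b z)
    (hQ : ∀ c a z, Q c a z = ∑ b, s c a b * K c b z) {ρ θ : ℝ} (hρ : 0 < ρ) (hθ : 0 < θ)
    {δ₃ δb δc : ℝ}
    (h₃ : ∑ c, ∑ a, ∑ b, ∑ z, R c a b z * Real.log (Raz c a z * Rc c / (Ra c a * Rz c z)) ≤ δ₃)
    (hb : ∑ c, ∑ a, ∑ b, ∑ z, R c a b z * Real.log (Rbz c b z / (Rc c * k c b * K c b z)) ≤ δb)
    (hc : ∑ c, ∑ a, ∑ b, ∑ z, R c a b z * Real.log (R c a b z / (Ra c a * s c a b * K c b z)) ≤ δc) :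
    (∀ E : γ → α → β → ζ → ℝ, (∀ c a b z, 0 ≤ E c a b z) → (∀ c a b z, E c a b z ≤ R c a b z) →
      ∑ c, ∑ a, ∑ b, ∑ z, E c a b z * Real.log (Q c a z / M c z) ≤
        (∑ c, ∑ a, ∑ b, ∑ z, E c a b z) * (Real.log (1 / ρ) + 1) + ρ + (δ₃ + δb)) ∧
    ∑ c, ∑ a, ∑ z, Ra c a * |Q c a z - M c z| ≤ (δc + (δ₃ + δb)) / θ + 2 * θ := by
  have hRaz0 : ∀ c a z, 0 ≤ Raz c a z := fun c a z =>
    hRaz c a z ▸ Finset.sum_nonneg fun b _ => hR c a b z
  have hRa0 : ∀ c a, 0 ≤ Ra c a := fun c a => hRa c a ▸ Finset.sum_nonneg fun z _ => hRaz0 c a z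
  have hRz0 : ∀ c z, 0 ≤ Rz c z := fun c z => hRz c z ▸ Finset.sum_nonneg fun a _ => hRaz0 c a z
  have hM0 : ∀ c z, 0 ≤ M c z := fun c z =>
    hM c z ▸ Finset.sum_nonneg fun b _ => mul_nonneg (hk c b) (hK c b z)
  have hQ0 : ∀ c a z, 0 ≤ Q c a z := fun c a z =>
    hQ c a z ▸ Finset.sum_nonneg fun b _ => mul_nonneg (hs c a b) (hK c b z)
  have pos : ∀ c a b z, R c a b z ≠ 0 → 0 < R c a b z ∧ 0 < Raz c a z ∧ 0 < Ra c a ∧
      0 < Rbz c b z ∧ 0 < Rz c z ∧ 0 < Rc c ∧ 0 < M c z ∧ 0 < Q c a z := by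
    intro c a b z h
    have h0 : 0 < R c a b z := lt_of_le_of_ne (hR c a b z) (Ne.symm h)
    obtain ⟨p1, p2, p3⟩ := hpos c a b z h
    have a1 := pos_of_single (fun b => hR c a b z) b (hRaz c a z) h0
    have a2 := pos_of_single (hRaz0 c a) z (hRa c a) a1
    exact ⟨h0, a1, a2, pos_of_single (fun a => hR c a b z) a (hRbz c b z) h0,
      pos_of_single (fun a => hRaz0 c a z) a (hRz c z) a1, pos_of_single (hRa0 c) a (hRc c) a2,
      pos_of_single (fun b => mul_nonneg (hk c b) (hK c b z)) b (hM c z) (mul_pos p2 p3),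
      pos_of_single (fun b => mul_nonneg (hs c a b) (hK c b z)) b (hQ c a z) (mul_pos p1 p3)⟩
  have pos3 : ∀ c a z, Raz c a z ≠ 0 → 0 < Ra c a * M c z ∧ 0 < Ra c a * Q c a z := by
    intro c a z h
    rw [hRaz] at h
    obtain ⟨b, -, hb⟩ := Finset.exists_ne_zero_of_sum_ne_zero h
    obtain ⟨-, -, p1, -, -, -, p2, p3⟩ := pos c a b z hb
    exact ⟨mul_pos p1 p2, mul_pos p1 p3⟩
  have ma : ∀ f : γ → α → ζ → ℝ, ∑ c, ∑ a, ∑ b, ∑ z, R c a b z * f c a z =
      ∑ c, ∑ a, ∑ z, Raz c a z * f c a z := by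
    intro f
    refine Finset.sum_congr rfl fun c _ => Finset.sum_congr rfl fun a _ => ?_
    rw [Finset.sum_comm]
    simp only [hRaz, Finset.sum_mul]
  have mb : ∀ f : γ → β → ζ → ℝ, ∑ c, ∑ a, ∑ b, ∑ z, R c a b z * f c b z =
      ∑ c, ∑ b, ∑ z, Rbz c b z * f c b z := by
    intro f
    refine Finset.sum_congr rfl fun c _ => ?_
    rw [Finset.sum_comm]
    refine Finset.sum_congr rfl fun b _ => ?_
    rw [Finset.sum_comm]
    simp only [hRbz, Finset.sum_mul]
  have tRa : ∑ c, ∑ a, Ra c a = 1 := by simp only [← hRc, h1]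
  have tRaz : ∑ c, ∑ a, ∑ z, Raz c a z = 1 := by simp only [← hRa, tRa]
  have tR : ∑ c, ∑ a, ∑ b, ∑ z, R c a b z = 1 := by simpa [tRaz] using ma fun _ _ _ => 1
  have tRz : ∑ c, ∑ z, Rz c z = 1 := by
    rw [← tRaz]
    refine Finset.sum_congr rfl fun c _ => ?_
    rw [Finset.sum_comm]
    simp only [hRz]
  have sM : ∀ c, ∑ z, M c z ≤ 1 := by
    intro c
    simp only [hM]
    rw [Finset.sum_comm]
    refine le_trans (Finset.sum_le_sum fun b _ => ?_) (sk c)
    rw [← Finset.mul_sum]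
    exact mul_le_of_le_one_right (hk c b) (sK c b)
  have sQ : ∀ c a, ∑ z, Q c a z ≤ 1 := by
    intro c a
    simp only [hQ]
    rw [Finset.sum_comm]
    refine le_trans (Finset.sum_le_sum fun b _ => ?_) (ss c a)
    rw [← Finset.mul_sum]
    exact mul_le_of_le_one_right (hs c a b) (sK c b)
  have tM : ∑ c, ∑ a, ∑ z, Ra c a * M c z ≤ 1 := by
    rw [← tRa]
    refine Finset.sum_le_sum fun c _ => Finset.sum_le_sum fun a _ => ?_
    rw [← Finset.mul_sum]
    exact mul_le_of_le_one_right (hRa0 c a) (sM c)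
  have tQ : ∑ c, ∑ a, ∑ z, Ra c a * Q c a z ≤ 1 := by
    rw [← tRa]
    refine Finset.sum_le_sum fun c _ => Finset.sum_le_sum fun a _ => ?_
    rw [← Finset.mul_sum]
    exact mul_le_of_le_one_right (hRa0 c a) (sQ c a)
  have hA : ∑ c, ∑ a, ∑ b, ∑ z, R c a b z * Real.log (Raz c a z / (Ra c a * M c z)) ≤ δ₃ + δb := by
    have e := sum4_le (f := fun c a b z => R c a b z * Real.log (Raz c a z / (Ra c a * M c z)))
      (g := fun c a b z => R c a b z * Real.log (Raz c a z * Rc c / (Ra c a * Rz c z)) +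
        (R c a b z * Real.log (Rbz c b z / (Rc c * k c b * K c b z)) +
          R c a b z * (Rz c z * (k c b * K c b z) / M c z / Rbz c b z) - R c a b z)) ?_
    · simp only [Finset.sum_add_distrib, Finset.sum_sub_distrib, tR] at e
      rw [mb fun c b z => Rz c z * (k c b * K c b z) / M c z / Rbz c b z] at e
      have e2 : ∑ c, ∑ b, ∑ z, Rbz c b z * (Rz c z * (k c b * K c b z) / M c z / Rbz c b z) ≤ 1 := by
        refine (sum3_le fun c b z => mul_div_self_le (div_nonneg (mul_nonneg (hRz0 c z)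
          (mul_nonneg (hk c b) (hK c b z))) (hM0 c z))).trans ?_
        rw [← tRz]
        refine Finset.sum_le_sum fun c _ => ?_
        rw [Finset.sum_comm]
        refine Finset.sum_le_sum fun z _ => ?_
        rw [← Finset.sum_div, ← Finset.mul_sum, ← hM, mul_comm, mul_div_assoc]
        exact mul_div_self_le (hRz0 c z)
      linarith
    · intro c a b z
      by_cases h : R c a b z = 0
      · simp [h]
      · obtain ⟨p0, p1, p2, p3, p4, p5, p6, p7⟩ := pos c a b z h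
        obtain ⟨q1, q2, q3⟩ := hpos c a b z h
        have e1 : Raz c a z / (Ra c a * M c z) =
            Raz c a z * Rc c / (Ra c a * Rz c z) * (Rz c z / (Rc c * M c z)) := by field_simp
        have e2 := pt_gibbs (p := R c a b z) (A := Rz c z / (Rc c * M c z))
          (B := Rbz c b z / (Rc c * k c b * K c b z))
          (w := R c a b z * (Rz c z * (k c b * K c b z) / M c z / Rbz c b z)) p0.le (by positivity)
          (fun _ => ⟨by positivity, by positivity, le_of_eq (by field_simp)⟩)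
        rw [e1, Real.log_mul (by positivity) (by positivity)]
        linarith
  have hB : ∑ c, ∑ a, ∑ b, ∑ z, R c a b z * Real.log (Raz c a z / (Ra c a * Q c a z)) ≤ δc := by
    have e := sum4_le (f := fun c a b z => R c a b z * Real.log (Raz c a z / (Ra c a * Q c a z)))
      (g := fun c a b z => R c a b z * Real.log (R c a b z / (Ra c a * s c a b * K c b z)) +
          Raz c a z * (s c a b * K c b z) / Q c a z - R c a b z) ?_
    · simp only [Finset.sum_add_distrib, Finset.sum_sub_distrib, tR] at e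
      have e2 : ∑ c, ∑ a, ∑ b, ∑ z, Raz c a z * (s c a b * K c b z) / Q c a z ≤ 1 := by
        rw [← tRaz]
        refine Finset.sum_le_sum fun c _ => Finset.sum_le_sum fun a _ => ?_
        rw [Finset.sum_comm]
        refine Finset.sum_le_sum fun z _ => ?_
        rw [← Finset.sum_div, ← Finset.mul_sum, ← hQ, mul_comm, mul_div_assoc]
        exact mul_div_self_le (hRaz0 c a z)
      linarith
    · intro c a b z
      refine pt_gibbs (hR c a b z) (div_nonneg (mul_nonneg (hRaz0 c a z)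
        (mul_nonneg (hs c a b) (hK c b z))) (hQ0 c a z)) fun h => ?_
      obtain ⟨p0, p1, p2, p3, p4, p5, p6, p7⟩ := pos c a b z h
      obtain ⟨q1, q2, q3⟩ := hpos c a b z h
      exact ⟨by positivity, by positivity, le_of_eq (by field_simp)⟩
  refine ⟨fun E hE0 hE1 => ?_, ?_⟩
  · have e := sum4_le (f := fun c a b z => E c a b z * Real.log (Q c a z / M c z))
      (g := fun c a b z => E c a b z * (Real.log (1 / ρ) + 1) +
        ρ * (R c a b z * (Ra c a * Q c a z / Raz c a z)) +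
        R c a b z * Real.log (Raz c a z / (Ra c a * M c z)) +
        R c a b z * (Ra c a * M c z / Raz c a z) - R c a b z) ?_
    · simp only [Finset.sum_add_distrib, Finset.sum_sub_distrib, tR, ← Finset.mul_sum,
        ← Finset.sum_mul] at e
      rw [ma fun c a z => Ra c a * Q c a z / Raz c a z,
        ma fun c a z => Ra c a * M c z / Raz c a z] at e
      have e1 := (sum3_le fun c a z => mul_div_self_le (x := Raz c a z)
        (mul_nonneg (hRa0 c a) (hQ0 c a z))).trans tQ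
      have e2 := (sum3_le fun c a z => mul_div_self_le (x := Raz c a z)
        (mul_nonneg (hRa0 c a) (hM0 c z))).trans tM
      nlinarith
    · intro c a b z
      by_cases h : R c a b z = 0
      · have : E c a b z = 0 := le_antisymm (h ▸ hE1 c a b z) (hE0 c a b z)
        simp [h, this]
      · obtain ⟨p0, p1, p2, p3, p4, p5, p6, p7⟩ := pos c a b z h
        have z1 : 0 < Ra c a * Q c a z / Raz c a z := by positivity
        have z2 : 0 < Ra c a * M c z / Raz c a z := by positivity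
        have e1 : Real.log (Q c a z / M c z) = Real.log (Ra c a * Q c a z / Raz c a z) -
            Real.log (Ra c a * M c z / Raz c a z) := by
          rw [← Real.log_div z1.ne' z2.ne']; congr 1; field_simp
        have e2 : Real.log (Raz c a z / (Ra c a * M c z)) =
            - Real.log (Ra c a * M c z / Raz c a z) := by
          rw [← Real.log_inv, inv_div]
        have f1 := plog_rho (hE0 c a b z) (fun _ => z1) hρ
        have f2 := plog (sub_nonneg.2 (hE1 c a b z)) (fun _ => z2)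
        have f3 := mul_le_mul_of_nonneg_left
          (mul_le_mul_of_nonneg_right (hE1 c a b z) z1.le) hρ.le
        have f4 := mul_nonneg (hE0 c a b z) z2.le
        rw [e1, e2]
        nlinarith
  · rw [ma fun c a z => Real.log (Raz c a z / (Ra c a * M c z))] at hA
    rw [ma fun c a z => Real.log (Raz c a z / (Ra c a * Q c a z))] at hB
    have e := sum3_le (f := fun c a z => Ra c a * |Q c a z - M c z|)
      (g := fun c a z => ((Raz c a z * Real.log (Raz c a z / (Ra c a * Q c a z)) - Raz c a z +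
          Ra c a * Q c a z) / θ + θ * (Raz c a z + Ra c a * Q c a z) / 2) +
        ((Raz c a z * Real.log (Raz c a z / (Ra c a * M c z)) - Raz c a z +
          Ra c a * M c z) / θ + θ * (Raz c a z + Ra c a * M c z) / 2)) ?_
    · simp only [Finset.sum_add_distrib, Finset.sum_sub_distrib, tRaz, ← Finset.sum_div,
        ← Finset.mul_sum _ _ θ] at e
      refine e.trans ?_
      have g1 := div_le_div_of_nonneg_right (show
        ∑ c, ∑ a, ∑ z, Raz c a z * Real.log (Raz c a z / (Ra c a * Q c a z)) - 1 +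
          ∑ c, ∑ a, ∑ z, Ra c a * Q c a z ≤ δc by linarith) hθ.le
      have g2 := div_le_div_of_nonneg_right (show
        ∑ c, ∑ a, ∑ z, Raz c a z * Real.log (Raz c a z / (Ra c a * M c z)) - 1 +
          ∑ c, ∑ a, ∑ z, Ra c a * M c z ≤ δ₃ + δb by linarith) hθ.le
      rw [add_div δc]
      nlinarith
    · intro c a z
      have f1 := abs_sub_le_kl (hRaz0 c a z) (mul_nonneg (hRa0 c a) (hQ0 c a z))
        (fun h => (pos3 c a z h).2) hθ
      have f2 := abs_sub_le_kl (hRaz0 c a z) (mul_nonneg (hRa0 c a) (hM0 c z))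
        (fun h => (pos3 c a z h).1) hθ
      have f3 : Ra c a * |Q c a z - M c z| ≤
          |Raz c a z - Ra c a * Q c a z| + |Raz c a z - Ra c a * M c z| := by
        rw [← abs_of_nonneg (hRa0 c a), ← abs_mul, abs_of_nonneg (hRa0 c a), abs_sub_comm (Raz c a z),
          mul_sub]
        exact abs_sub_le _ _ _
      linarith

end

end Pool.Agent.Lib.MP_a7c6c3_lc.CellAux
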