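import Pool.Agent.Lib.MP_a7c6c3_lc.Cell_Local
import Pool.Agent.Lib.MP_a7c6c3_lc.Cell_Side

/-! The cell lemma for abstract finite distributions. -/

set_option autoImplicit false
open Finset

namespace Pool.Agent.Lib.MP_a7c6c3_lc.CellAux

section

variable {γ α₁ α₂ β₁ β₂ ζ : Type} [Fintype γ] [Fintype α₁] [Fintype α₂] [Fintype β₁] [Fintype β₂]
  [Fintype ζ]

theorem sum5_le {β : Type} [Fintype β] {f g : γ → α₁ → α₂ → β → ζ → ℝ}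
    (h : ∀ c a a' b z, f c a a' b z ≤ g c a a' b z) :
    ∑ c, ∑ a, ∑ a', ∑ b, ∑ z, f c a a' b z ≤ ∑ c, ∑ a, ∑ a', ∑ b, ∑ z, g c a a' b z :=
  Finset.sum_le_sum fun c _ => sum4_le (h c)

theorem sum5_out2 {β : Type} [Fintype β] (f : γ → α₁ → α₂ → β → ζ → ℝ) :
    ∑ c, ∑ a, ∑ a', ∑ b, ∑ z, f c a a' b z = ∑ c, ∑ a, ∑ b, ∑ z, ∑ a', f c a a' b z := by
  refine Finset.sum_congr rfl fun c _ => Finset.sum_congr rfl fun a _ => ?_
  rw [Finset.sum_comm]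
  exact Finset.sum_congr rfl fun b _ => Finset.sum_comm

theorem sum5_out1 {β : Type} [Fintype β] (f : γ → α₁ → α₂ → β → ζ → ℝ) :
    ∑ c, ∑ a, ∑ a', ∑ b, ∑ z, f c a a' b z = ∑ c, ∑ a', ∑ b, ∑ z, ∑ a, f c a a' b z := by
  rw [← sum5_out2 fun c a' a b z => f c a a' b z]
  exact Finset.sum_congr rfl fun c _ => Finset.sum_comm

theorem wv_bound {κ h₁ h₂ i₁ i₂ : ℝ} (hκ : 2 ≤ κ) (p₁ : 0 ≤ h₁) (p₂ : 0 ≤ h₂) :
    72 * κ * (h₁ * √(h₂ / 2) + √(h₁ / 2) * h₂) + (if κ < i₁ then 1 else 0) * i₂ +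
      (if κ < i₂ ∧ ¬ κ < i₁ then 1 else 0) * i₁ ≤
    73 * ((κ * h₁ + if 1 < i₁ then i₁ else 0) * max √(h₂ / 2) (if κ < i₂ then 1 else 0) +
      max √(h₁ / 2) (if κ < i₁ then 1 else 0) * (κ * h₂ + if 1 < i₂ then i₂ else 0)) +
      (if κ < i₁ then 1 else 0) + (if κ < i₂ then 1 else 0) := by
  have u : ∀ i : ℝ, 0 ≤ (if 1 < i then i else 0) ∧ i ≤ 1 + (if 1 < i then i else 0) := by
    intro i; split_ifs <;> constructor <;> linarith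
  obtain ⟨u1, u1'⟩ := u i₁
  obtain ⟨u2, u2'⟩ := u i₂
  set j₁ := if 1 < i₁ then i₁ else 0
  set j₂ := if 1 < i₂ then i₂ else 0
  have s1 := Real.sqrt_nonneg (h₁ / 2)
  have s2 := Real.sqrt_nonneg (h₂ / 2)
  have m1 := le_max_left √(h₁ / 2) (if κ < i₁ then 1 else 0)
  have m2 := le_max_left √(h₂ / 2) (if κ < i₂ then 1 else 0)
  have n1 := le_max_right √(h₁ / 2) (if κ < i₁ then 1 else 0)
  have n2 := le_max_right √(h₂ / 2) (if κ < i₂ then 1 else 0)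
  set V₁ := max √(h₁ / 2) (if κ < i₁ then 1 else 0)
  set V₂ := max √(h₂ / 2) (if κ < i₂ then 1 else 0)
  have k1 : 0 ≤ κ * h₁ := by positivity
  have k2 : 0 ≤ κ * h₂ := by positivity
  have a1 := mul_le_mul_of_nonneg_left m2 k1
  have a2 := mul_le_mul_of_nonneg_left m1 k2
  have a3 := mul_nonneg u1 (s2.trans m2)
  have a4 := mul_nonneg u2 (s1.trans m1)
  have a5 := mul_nonneg k1 (s2.trans m2)
  have a6 := mul_nonneg k2 (s1.trans m1)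
  have b1 : (if κ < i₁ then 1 else 0) * i₂ ≤ (if κ < i₁ then 1 else 0) + j₂ * V₁ := by
    split_ifs at n1 ⊢ <;> nlinarith
  have b2 : (if κ < i₂ ∧ ¬ κ < i₁ then 1 else 0) * i₁ ≤ (if κ < i₂ then 1 else 0) + j₁ * V₂ := by
    by_cases c2 : κ < i₂
    · simp only [c2, if_true, true_and] at n2 ⊢
      split_ifs <;> nlinarith
    · simp only [c2, if_false, false_and] at n2 ⊢
      linarith
  nlinarith

theorem main_abs (R : γ → α₁ → α₂ → β₁ × β₂ → ζ → ℝ) (Paz : γ → α₁ → α₂ → ζ → ℝ)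
    (Pa : γ → α₁ → α₂ → ℝ) (R₁ : γ → α₁ → β₁ × β₂ → ζ → ℝ) (R₂ : γ → α₂ → β₁ × β₂ → ζ → ℝ)
    (P₁z : γ → α₁ → ζ → ℝ) (P₂z : γ → α₂ → ζ → ℝ) (P₁ : γ → α₁ → ℝ) (P₂ : γ → α₂ → ℝ)
    (Pbz : γ → β₁ × β₂ → ζ → ℝ) (Pz : γ → ζ → ℝ) (Pc : γ → ℝ)
    (hR : ∀ c a a' b z, 0 ≤ R c a a' b z) (hPaz : ∀ c a a' z, Paz c a a' z = ∑ b, R c a a' b z)
    (hPa : ∀ c a a', Pa c a a' = ∑ z, Paz c a a' z)
    (hR₁ : ∀ c a b z, R₁ c a b z = ∑ a', R c a a' b z)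
    (hR₂ : ∀ c a' b z, R₂ c a' b z = ∑ a, R c a a' b z)
    (hP₁z : ∀ c a z, P₁z c a z = ∑ b, R₁ c a b z) (hP₂z : ∀ c a z, P₂z c a z = ∑ b, R₂ c a b z)
    (hP₁ : ∀ c a, P₁ c a = ∑ z, P₁z c a z) (hP₂ : ∀ c a, P₂ c a = ∑ z, P₂z c a z)
    (hPbz : ∀ c b z, Pbz c b z = ∑ a, R₁ c a b z) (hPbz' : ∀ c b z, Pbz c b z = ∑ a, R₂ c a b z)
    (hPz : ∀ c z, Pz c z = ∑ a, P₁z c a z) (hPz' : ∀ c z, Pz c z = ∑ a, P₂z c a z)
    (hPc : ∀ c, Pc c = ∑ a, P₁ c a) (hPc' : ∀ c, Pc c = ∑ a, P₂ c a) (h1 : ∑ c, Pc c = 1)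
    (p₁ : γ → α₁ → β₁ → ℝ) (q₁ : γ → β₁ → ℝ) (p₂ : γ → α₂ → β₂ → ℝ) (q₂ : γ → β₂ → ℝ)
    (K : γ → β₁ × β₂ → ζ → ℝ)
    (hp₁ : ∀ c a b, 0 ≤ p₁ c a b) (hq₁ : ∀ c b, 0 ≤ q₁ c b)
    (hpq₁ : ∀ c a b, p₁ c a b ≠ 0 → 0 < q₁ c b)
    (sp₁ : ∀ c a, ∑ b, p₁ c a b ≤ 1) (sq₁ : ∀ c, ∑ b, q₁ c b ≤ 1)
    (hp₂ : ∀ c a b, 0 ≤ p₂ c a b) (hq₂ : ∀ c b, 0 ≤ q₂ c b)
    (hpq₂ : ∀ c a b, p₂ c a b ≠ 0 → 0 < q₂ c b)
    (sp₂ : ∀ c a, ∑ b, p₂ c a b ≤ 1) (sq₂ : ∀ c, ∑ b, q₂ c b ≤ 1)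
    (hK : ∀ c b z, 0 ≤ K c b z) (sK : ∀ c b, ∑ z, K c b z ≤ 1)
    (hpos : ∀ c a a' b z, R c a a' b z ≠ 0 → 0 < p₁ c a b.1 ∧ 0 < p₂ c a' b.2 ∧ 0 < K c b z)
    (i₁ : γ → α₁ → β₁ → ℝ) (i₂ : γ → α₂ → β₂ → ℝ) (h₁ : γ → α₁ → ℝ) (h₂ : γ → α₂ → ℝ)
    (hi₁ : ∀ c a b, i₁ c a b = Real.log (p₁ c a b / q₁ c b))
    (hi₂ : ∀ c a b, i₂ c a b = Real.log (p₂ c a b / q₂ c b))
    (hh₁ : ∀ c a, h₁ c a = ∑ b, (√(p₁ c a b) - √(q₁ c b)) ^ 2)
    (hh₂ : ∀ c a, h₂ c a = ∑ b, (√(p₂ c a b) - √(q₂ c b)) ^ 2)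
    {κ ρ θ Δ δb δ₁ δ₂ t₁ t₂ : ℝ} (hκ : 2 ≤ κ) (hρ : 0 < ρ) (hρ' : ρ ≤ 1 / 4) (hθ : 0 < θ)
    (hθ' : θ ≤ 1) (hΔ : 0 ≤ Δ) (hΔ₁ : δ₁ + δb ≤ Δ) (hΔ₂ : δ₂ + δb ≤ Δ)
    (ha : ∑ c, ∑ a, ∑ a', ∑ b, ∑ z, R c a a' b z *
      Real.log (R c a a' b z / (Pa c a a' * (p₁ c a b.1 * p₂ c a' b.2 * K c b z))) ≤ Δ)
    (hb : ∑ c, ∑ a, ∑ a', ∑ b, ∑ z, R c a a' b z *
      Real.log (Pbz c b z / (Pc c * (q₁ c b.1 * q₂ c b.2) * K c b z)) ≤ δb)
    (h31 : ∑ c, ∑ a, ∑ a', ∑ b, ∑ z, R c a a' b z *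
      Real.log (P₁z c a z * Pc c / (P₁ c a * Pz c z)) ≤ δ₁)
    (h32 : ∑ c, ∑ a, ∑ a', ∑ b, ∑ z, R c a a' b z *
      Real.log (P₂z c a' z * Pc c / (P₂ c a' * Pz c z)) ≤ δ₂)
    (hc1 : ∑ c, ∑ a, ∑ a', ∑ b, ∑ z, R c a a' b z *
      Real.log (R₁ c a b z / (P₁ c a * (p₁ c a b.1 * q₂ c b.2) * K c b z)) ≤ Δ)
    (hc2 : ∑ c, ∑ a, ∑ a', ∑ b, ∑ z, R c a a' b z *
      Real.log (R₂ c a' b z / (P₂ c a' * (q₁ c b.1 * p₂ c a' b.2) * K c b z)) ≤ Δ)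
    (ht₁ : ∑ c, ∑ a, ∑ a', ∑ b, ∑ z, R c a a' b z * (if κ < i₁ c a b.1 then 1 else 0) ≤ t₁)
    (ht₂ : ∑ c, ∑ a, ∑ a', ∑ b, ∑ z, R c a a' b z * (if κ < i₂ c a' b.2 then 1 else 0) ≤ t₂)
    (ht₁' : ∑ c, ∑ a, ∑ a', Pa c a a' * ∑ b, p₁ c a b * (if κ < i₁ c a b then 1 else 0) ≤ t₁)
    (ht₂' : ∑ c, ∑ a, ∑ a', Pa c a a' * ∑ b, p₂ c a' b * (if κ < i₂ c a' b then 1 else 0) ≤ t₂) :
    ∑ c, ∑ a, ∑ a', ∑ b, ∑ z, R c a a' b z * Real.log (Paz c a a' z * Pc c / (Pa c a a' * Pz c z)) ≤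
      100 * ((∑ c, ∑ a, ∑ a', ∑ b, ∑ z, R c a a' b z *
        ((κ * h₁ c a + if 1 < i₁ c a b.1 then i₁ c a b.1 else 0) *
            max √(h₂ c a' / 2) (if κ < i₂ c a' b.2 then 1 else 0) +
          max √(h₁ c a / 2) (if κ < i₁ c a b.1 then 1 else 0) *
            (κ * h₂ c a' + if 1 < i₂ c a' b.2 then i₂ c a' b.2 else 0))) +
        κ * (Δ / θ + θ) + ρ + (t₁ + t₂) * (1 + Real.log (1 / ρ))) := by
  obtain ⟨M, hM⟩ : ∃ M : γ → ζ → ℝ, ∀ c z, M c z = ∑ b : β₁ × β₂, q₁ c b.1 * q₂ c b.2 * K c b z :=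
    ⟨_, fun _ _ => rfl⟩
  obtain ⟨Q₁, hQ₁⟩ : ∃ Q₁ : γ → α₁ → ζ → ℝ, ∀ c a z,
      Q₁ c a z = ∑ b : β₁ × β₂, p₁ c a b.1 * q₂ c b.2 * K c b z := ⟨_, fun _ _ _ => rfl⟩
  obtain ⟨Q₂, hQ₂⟩ : ∃ Q₂ : γ → α₂ → ζ → ℝ, ∀ c a z,
      Q₂ c a z = ∑ b : β₁ × β₂, q₁ c b.1 * p₂ c a b.2 * K c b z := ⟨_, fun _ _ _ => rfl⟩
  choose N ℓ hN0 hNM hℓ hsum hpt using fun c a a' => local_lemma hκ hρ hρ' (p₁ c a) (q₁ c) (p₂ c a')
    (q₂ c) (K c) (hp₁ c a) (hq₁ c) (hpq₁ c a) (sp₁ c a) (sq₁ c) (hp₂ c a') (hq₂ c) (hpq₂ c a')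
    (sp₂ c a') (sq₂ c) (hK c) (sK c) (M c) (Q₁ c a) (Q₂ c a') (hM c) (hQ₁ c a) (hQ₂ c a')
  simp only [← hi₁, ← hi₂, ← hh₁, ← hh₂] at hsum hpt
  have m1 : ∀ f : γ → α₁ → β₁ × β₂ → ζ → ℝ, ∑ c, ∑ a, ∑ a', ∑ b, ∑ z, R c a a' b z * f c a b z =
      ∑ c, ∑ a, ∑ b, ∑ z, R₁ c a b z * f c a b z := by
    intro f
    rw [sum5_out2]
    simp only [hR₁, Finset.sum_mul]
  have m2 : ∀ f : γ → α₂ → β₁ × β₂ → ζ → ℝ, ∑ c, ∑ a, ∑ a', ∑ b, ∑ z, R c a a' b z * f c a' b z =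
      ∑ c, ∑ a, ∑ b, ∑ z, R₂ c a b z * f c a b z := by
    intro f
    rw [sum5_out1]
    simp only [hR₂, Finset.sum_mul]
  have ma : ∀ f : γ → α₁ → α₂ → ℝ, ∑ c, ∑ a, ∑ a', ∑ b, ∑ z, R c a a' b z * f c a a' =
      ∑ c, ∑ a, ∑ a', Pa c a a' * f c a a' := by
    intro f
    refine Finset.sum_congr rfl fun c _ => Finset.sum_congr rfl fun a _ =>
      Finset.sum_congr rfl fun a' _ => ?_
    rw [Finset.sum_comm]
    simp only [hPa, hPaz, Finset.sum_mul]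
  have hP₁' : ∀ c a, P₁ c a = ∑ a', Pa c a a' := by
    intro c a
    simp only [hP₁, hP₁z, hR₁, hPa, hPaz]
    rw [Finset.sum_comm (s := (univ : Finset α₂))]
    exact Finset.sum_congr rfl fun z _ => Finset.sum_comm
  have hP₂' : ∀ c a', P₂ c a' = ∑ a, Pa c a a' := by
    intro c a
    simp only [hP₂, hP₂z, hR₂, hPa, hPaz]
    rw [Finset.sum_comm (s := (univ : Finset α₁))]
    exact Finset.sum_congr rfl fun z _ => Finset.sum_comm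
  have hPz'' : ∀ c z, Pz c z = ∑ a, ∑ a', Paz c a a' z := by
    intro c z
    simp only [hPz, hP₁z, hR₁, hPaz]
    exact Finset.sum_congr rfl fun a _ => Finset.sum_comm
  have hPc'' : ∀ c, Pc c = ∑ a, ∑ a', Pa c a a' := by
    intro c
    simp only [hPc, hP₁']
  have hPaz0 : ∀ c a a' z, 0 ≤ Paz c a a' z := fun c a a' z =>
    hPaz c a a' z ▸ Finset.sum_nonneg fun b _ => hR c a a' b z
  have hPa0 : ∀ c a a', 0 ≤ Pa c a a' := fun c a a' =>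
    hPa c a a' ▸ Finset.sum_nonneg fun z _ => hPaz0 c a a' z
  have hPz0 : ∀ c z, 0 ≤ Pz c z := fun c z =>
    hPz'' c z ▸ Finset.sum_nonneg fun a _ => Finset.sum_nonneg fun a' _ => hPaz0 c a a' z
  have hPc0 : ∀ c, 0 ≤ Pc c := fun c =>
    hPc'' c ▸ Finset.sum_nonneg fun a _ => Finset.sum_nonneg fun a' _ => hPa0 c a a'
  have hM0 : ∀ c z, 0 ≤ M c z := fun c z => hM c z ▸ Finset.sum_nonneg fun b _ =>
    mul_nonneg (mul_nonneg (hq₁ _ _) (hq₂ _ _)) (hK _ _ _)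
  have tPa : ∑ c, ∑ a, ∑ a', Pa c a a' = 1 := by simp only [← hPc'', h1]
  have tR : ∑ c, ∑ a, ∑ a', ∑ b, ∑ z, R c a a' b z = 1 := by
    simpa [tPa] using ma fun _ _ _ => 1
  have sq : ∀ c, ∑ b : β₁ × β₂, q₁ c b.1 * q₂ c b.2 ≤ 1 := fun c => by
    rw [sum_prod_mul]
    exact mul_le_one₀ (sq₁ c) (Finset.sum_nonneg fun b _ => hq₂ c b) (sq₂ c)
  obtain ⟨S₁, T₁⟩ := side_lemma R₁ P₁z P₁ Pbz Pz Pc
    (fun c a b z => hR₁ c a b z ▸ Finset.sum_nonneg fun a' _ => hR c a a' b z) hP₁z hP₁ hPbz hPz hPc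
    h1 (fun c a b => p₁ c a b.1 * q₂ c b.2) (fun c b => q₁ c b.1 * q₂ c b.2) K
    (fun c a b => mul_nonneg (hp₁ _ _ _) (hq₂ _ _)) (fun c b => mul_nonneg (hq₁ _ _) (hq₂ _ _)) hK
    (fun c a => by
      rw [sum_prod_mul]
      exact mul_le_one₀ (sp₁ c a) (Finset.sum_nonneg fun b _ => hq₂ c b) (sq₂ c)) sq sK
    (fun c a b z h => by
      rw [hR₁] at h
      obtain ⟨a', -, h⟩ := Finset.exists_ne_zero_of_sum_ne_zero h
      obtain ⟨e1, e2, e3⟩ := hpos c a a' b z h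
      have f1 := hpq₁ _ _ _ e1.ne'
      have f2 := hpq₂ _ _ _ e2.ne'
      exact ⟨mul_pos e1 f2, mul_pos f1 f2, e3⟩) M Q₁ hM hQ₁ hρ hθ
    ((m1 _).symm.trans_le h31) ((m1 _).symm.trans_le hb) ((m1 _).symm.trans_le hc1)
  obtain ⟨S₂, T₂⟩ := side_lemma R₂ P₂z P₂ Pbz Pz Pc
    (fun c a b z => hR₂ c a b z ▸ Finset.sum_nonneg fun a' _ => hR c a' a b z) hP₂z hP₂ hPbz' hPz'
    hPc' h1 (fun c a b => q₁ c b.1 * p₂ c a b.2) (fun c b => q₁ c b.1 * q₂ c b.2) K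
    (fun c a b => mul_nonneg (hq₁ _ _) (hp₂ _ _ _)) (fun c b => mul_nonneg (hq₁ _ _) (hq₂ _ _)) hK
    (fun c a => by
      rw [sum_prod_mul]
      exact mul_le_one₀ (sq₁ c) (Finset.sum_nonneg fun b _ => hp₂ c a b) (sp₂ c a)) sq sK
    (fun c a b z h => by
      rw [hR₂] at h
      obtain ⟨a', -, h⟩ := Finset.exists_ne_zero_of_sum_ne_zero h
      obtain ⟨e1, e2, e3⟩ := hpos c a' a b z h
      have f1 := hpq₁ _ _ _ e1.ne'
      have f2 := hpq₂ _ _ _ e2.ne'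
      exact ⟨mul_pos f1 e2, mul_pos f1 f2, e3⟩) M Q₂ hM hQ₂ hρ hθ
    ((m2 _).symm.trans_le h32) ((m2 _).symm.trans_le hb) ((m2 _).symm.trans_le hc2)
  have ind : ∀ (p : Prop) [Decidable p], 0 ≤ (if p then (1 : ℝ) else 0) ∧
      (if p then (1 : ℝ) else 0) ≤ 1 := by
    intro p _; split_ifs <;> norm_num
  have E₁ := S₁ (fun c a b z => ∑ a', R c a a' b z * (if κ < i₁ c a b.1 then 1 else 0))
    (fun c a b z => Finset.sum_nonneg fun a' _ => mul_nonneg (hR _ _ _ _ _) (ind _).1)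
    (fun c a b z => hR₁ c a b z ▸ Finset.sum_le_sum fun a' _ =>
      mul_le_of_le_one_right (hR _ _ _ _ _) (ind _).2)
  have E₂ := S₂ (fun c a' b z => ∑ a, R c a a' b z *
      (if κ < i₂ c a' b.2 ∧ ¬ κ < i₁ c a b.1 then 1 else 0))
    (fun c a b z => Finset.sum_nonneg fun a' _ => mul_nonneg (hR _ _ _ _ _) (ind _).1)
    (fun c a b z => hR₂ c a b z ▸ Finset.sum_le_sum fun a' _ =>
      mul_le_of_le_one_right (hR _ _ _ _ _) (ind _).2)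
  simp only [Finset.sum_mul (s := (univ : Finset α₂))] at E₁
  simp only [Finset.sum_mul (s := (univ : Finset α₁))] at E₂
  rw [← sum5_out2 (fun c a a' b z => R c a a' b z *
      (if κ < i₁ c a b.1 then 1 else 0) * Real.log (Q₁ c a z / M c z)),
    ← sum5_out2 (fun c a a' b z => R c a a' b z * (if κ < i₁ c a b.1 then 1 else 0))] at E₁
  rw [← sum5_out1 (fun c a a' b z => R c a a' b z *
      (if κ < i₂ c a' b.2 ∧ ¬ κ < i₁ c a b.1 then 1 else 0) * Real.log (Q₂ c a' z / M c z)),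
    ← sum5_out1 (fun c a a' b z => R c a a' b z *
      (if κ < i₂ c a' b.2 ∧ ¬ κ < i₁ c a b.1 then 1 else 0))] at E₂
  have ht₂'' : ∑ c, ∑ a, ∑ a', ∑ b, ∑ z, R c a a' b z *
      (if κ < i₂ c a' b.2 ∧ ¬ κ < i₁ c a b.1 then 1 else 0) ≤ t₂ := by
    refine le_trans (sum5_le fun c a a' b z => mul_le_mul_of_nonneg_left ?_ (hR _ _ _ _ _)) ht₂
    by_cases c2 : κ < i₂ c a' b.2
    · simp only [c2, if_true]; exact (ind _).2
    · simp only [c2, if_false, false_and]; exact le_rfl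
  have U₁ : ∑ c, ∑ a, ∑ a', Pa c a a' * ∑ z, |Q₁ c a z - M c z| ≤ (Δ + Δ) / θ + 2 * θ := by
    refine le_trans (le_of_eq ?_) (T₁.trans ?_)
    · simp only [← Finset.sum_mul, ← hP₁', ← Finset.mul_sum]
    · gcongr
  have U₂ : ∑ c, ∑ a, ∑ a', Pa c a a' * ∑ z, |Q₂ c a' z - M c z| ≤ (Δ + Δ) / θ + 2 * θ := by
    refine le_trans (le_of_eq ?_) (T₂.trans ?_)
    · refine Finset.sum_congr rfl fun c _ => ?_
      rw [Finset.sum_comm]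
      simp only [← Finset.sum_mul, ← hP₂', ← Finset.mul_sum]
    · gcongr
  have V := sum3_le
    (f := fun c a a' => Pa c a a' * ∑ b, ∑ z, p₁ c a b.1 * p₂ c a' b.2 * K c b z * ℓ c a a' b z)
    (g := fun c a a' => Pa c a a' - Pa c a a' * ∑ z, M c z +
      4 * κ * (Pa c a a' * ∑ z, |Q₁ c a z - M c z|) + 4 * κ * (Pa c a a' * ∑ z, |Q₂ c a' z - M c z|) +
      6 * (Pa c a a' * ∑ b, p₁ c a b * (if κ < i₁ c a b then 1 else 0)) +
      6 * (Pa c a a' * ∑ b, p₂ c a' b * (if κ < i₂ c a' b then 1 else 0)) +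
      72 * κ * (Pa c a a' * (h₁ c a * √(h₂ c a' / 2) + √(h₁ c a / 2) * h₂ c a')))
    fun c a a' => by
      have := mul_le_mul_of_nonneg_left (hsum c a a') (hPa0 c a a')
      linarith
  simp only [Finset.sum_add_distrib, Finset.sum_sub_distrib, ← Finset.mul_sum (a := 4 * κ),
    ← Finset.mul_sum (a := (6 : ℝ)), ← Finset.mul_sum (a := 72 * κ), tPa] at V
  have G : ∑ c, ∑ a, ∑ a', ∑ b, ∑ z, Paz c a a' z * Pc c / Pz c z * N c a a' b z ≤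
      ∑ c, ∑ a, ∑ a', Pa c a a' * ∑ z, M c z := by
    calc _ ≤ ∑ c, ∑ a, ∑ a', ∑ z, Paz c a a' z * (Pc c * M c z / Pz c z) := by
          refine sum3_le fun c a a' => ?_
          rw [Finset.sum_comm]
          refine Finset.sum_le_sum fun z _ => ?_
          rw [← Finset.mul_sum]
          refine (mul_le_mul_of_nonneg_left (hNM c a a' z) (div_nonneg (mul_nonneg (hPaz0 _ _ _ _)
            (hPc0 _)) (hPz0 _ _))).trans (le_of_eq (by ring))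
      _ = ∑ c, ∑ z, Pz c z * (Pc c * M c z / Pz c z) := by
          refine Finset.sum_congr rfl fun c _ => ?_
          simp only [hPz'' c, Finset.sum_mul]
          rw [Finset.sum_comm (s := (univ : Finset ζ))]
          exact Finset.sum_congr rfl fun a _ => Finset.sum_comm
      _ ≤ ∑ c, ∑ z, Pc c * M c z := Finset.sum_le_sum fun c _ => Finset.sum_le_sum fun z _ =>
          mul_div_self_le (mul_nonneg (hPc0 c) (hM0 c z))
      _ = _ := by simp only [← Finset.sum_mul, ← hPc'', ← Finset.mul_sum]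
  have tS : ∑ c, ∑ a, ∑ a', ∑ b, ∑ z, Pa c a a' * (p₁ c a b.1 * p₂ c a' b.2 * K c b z) ≤ 1 := by
    rw [← tPa]
    refine sum3_le fun c a a' => ?_
    simp only [← Finset.mul_sum (a := Pa c a a')]
    refine mul_le_of_le_one_right (hPa0 _ _ _) ?_
    rw [Finset.sum_comm]
    refine (sum_K_le _ (fun b => mul_nonneg (hp₁ _ _ _) (hp₂ _ _ _)) (K c) (sK c)).trans ?_
    rw [sum_prod_mul]
    exact mul_le_one₀ (sp₁ c a) (Finset.sum_nonneg fun b _ => hp₂ c a' b) (sp₂ c a')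
  have hh₁0 : ∀ c a, 0 ≤ h₁ c a := fun c a => hh₁ c a ▸ Finset.sum_nonneg fun b _ => sq_nonneg _
  have hh₂0 : ∀ c a, 0 ≤ h₂ c a := fun c a => hh₂ c a ▸ Finset.sum_nonneg fun b _ => sq_nonneg _
  have W := sum5_le
    (f := fun c a a' b z =>
      72 * κ * (R c a a' b z * (h₁ c a * √(h₂ c a' / 2) + √(h₁ c a / 2) * h₂ c a')) +
      R c a a' b z * ((if κ < i₁ c a b.1 then 1 else 0) * i₂ c a' b.2) +
      R c a a' b z * ((if κ < i₂ c a' b.2 ∧ ¬ κ < i₁ c a b.1 then 1 else 0) * i₁ c a b.1))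
    (g := fun c a a' b z => 73 * (R c a a' b z *
        ((κ * h₁ c a + if 1 < i₁ c a b.1 then i₁ c a b.1 else 0) *
            max √(h₂ c a' / 2) (if κ < i₂ c a' b.2 then 1 else 0) +
          max √(h₁ c a / 2) (if κ < i₁ c a b.1 then 1 else 0) *
            (κ * h₂ c a' + if 1 < i₂ c a' b.2 then i₂ c a' b.2 else 0))) +
      R c a a' b z * (if κ < i₁ c a b.1 then 1 else 0) +
      R c a a' b z * (if κ < i₂ c a' b.2 then 1 else 0))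
    fun c a a' b z => by
      have := mul_le_mul_of_nonneg_left
        (wv_bound (i₁ := i₁ c a b.1) (i₂ := i₂ c a' b.2) hκ (hh₁0 c a) (hh₂0 c a')) (hR c a a' b z)
      linarith
  simp only [Finset.sum_add_distrib, ← Finset.mul_sum (a := (73 : ℝ)), ← Finset.mul_sum (a := 72 * κ)] at W
  rw [ma fun c a a' => h₁ c a * √(h₂ c a' / 2) + √(h₁ c a / 2) * h₂ c a'] at W
  have X0 : 0 ≤ ∑ c, ∑ a, ∑ a', ∑ b, ∑ z, R c a a' b z *
        ((κ * h₁ c a + if 1 < i₁ c a b.1 then i₁ c a b.1 else 0) *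
            max √(h₂ c a' / 2) (if κ < i₂ c a' b.2 then 1 else 0) +
          max √(h₁ c a / 2) (if κ < i₁ c a b.1 then 1 else 0) *
            (κ * h₂ c a' + if 1 < i₂ c a' b.2 then i₂ c a' b.2 else 0)) := by
    have u : ∀ i : ℝ, 0 ≤ (if 1 < i then i else 0) := by
      intro i; split_ifs <;> linarith
    refine Finset.sum_nonneg fun c _ => Finset.sum_nonneg fun a _ => Finset.sum_nonneg fun a' _ =>
      Finset.sum_nonneg fun b _ => Finset.sum_nonneg fun z _ => mul_nonneg (hR _ _ _ _ _) ?_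
    have := hh₁0 c a
    have := hh₂0 c a'
    have := u (i₁ c a b.1)
    have := u (i₂ c a' b.2)
    positivity
  have Y₁ : 0 ≤ ∑ c, ∑ a, ∑ a', ∑ b, ∑ z, R c a a' b z * (if κ < i₁ c a b.1 then 1 else 0) :=
    Finset.sum_nonneg fun c _ => Finset.sum_nonneg fun a _ => Finset.sum_nonneg fun a' _ =>
      Finset.sum_nonneg fun b _ => Finset.sum_nonneg fun z _ => mul_nonneg (hR _ _ _ _ _) (ind _).1
  have Y₂ : 0 ≤ ∑ c, ∑ a, ∑ a', ∑ b, ∑ z, R c a a' b z * (if κ < i₂ c a' b.2 then 1 else 0) :=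
    Finset.sum_nonneg fun c _ => Finset.sum_nonneg fun a _ => Finset.sum_nonneg fun a' _ =>
      Finset.sum_nonneg fun b _ => Finset.sum_nonneg fun z _ => mul_nonneg (hR _ _ _ _ _) (ind _).1
  have key := sum5_le
    (f := fun c a a' b z => R c a a' b z * Real.log (Paz c a a' z * Pc c / (Pa c a a' * Pz c z)))
    (g := fun c a a' b z => R c a a' b z *
        Real.log (R c a a' b z / (Pa c a a' * (p₁ c a b.1 * p₂ c a' b.2 * K c b z))) +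
      Pa c a a' * (p₁ c a b.1 * p₂ c a' b.2 * K c b z * ℓ c a a' b z) +
      2 * κ * ((R c a a' b z *
        Real.log (R c a a' b z / (Pa c a a' * (p₁ c a b.1 * p₂ c a' b.2 * K c b z))) -
          R c a a' b z + Pa c a a' * (p₁ c a b.1 * p₂ c a' b.2 * K c b z)) / θ +
        θ * (R c a a' b z + Pa c a a' * (p₁ c a b.1 * p₂ c a' b.2 * K c b z)) / 2) +
      4 * ρ * R c a a' b z +
      (R c a a' b z * ((if κ < i₁ c a b.1 then 1 else 0) * i₂ c a' b.2) +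
        R c a a' b z * (if κ < i₁ c a b.1 then 1 else 0) * Real.log (Q₁ c a z / M c z) +
        Real.log (1 / ρ) * (R c a a' b z * (if κ < i₁ c a b.1 then 1 else 0))) +
      (R c a a' b z * ((if κ < i₂ c a' b.2 ∧ ¬ κ < i₁ c a b.1 then 1 else 0) * i₁ c a b.1) +
        R c a a' b z * (if κ < i₂ c a' b.2 ∧ ¬ κ < i₁ c a b.1 then 1 else 0) *
          Real.log (Q₂ c a' z / M c z) +
        Real.log (1 / ρ) * (R c a a' b z * (if κ < i₂ c a' b.2 ∧ ¬ κ < i₁ c a b.1 then 1 else 0))) +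
      Paz c a a' z * Pc c / Pz c z * N c a a' b z - R c a a' b z) ?_
  · simp only [Finset.sum_add_distrib, Finset.sum_sub_distrib, ← Finset.mul_sum (a := 2 * κ),
      ← Finset.mul_sum (a := θ), ← Finset.mul_sum (a := 4 * ρ), ← Finset.sum_div,
      ← Finset.mul_sum (a := Real.log (1 / ρ)), tR] at key
    simp only [Finset.mul_sum (s := (univ : Finset (β₁ × β₂))), Finset.mul_sum (s := (univ : Finset ζ))
      (f := fun z => p₁ _ _ _ * p₂ _ _ _ * K _ _ z * ℓ _ _ _ _ z)] at V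
    have hL : 0 ≤ Real.log (1 / ρ) := Real.log_nonneg (by rw [le_div_iff₀ hρ]; linarith)
    have z1 := mul_le_mul_of_nonneg_left ht₁ hL
    have z2 := mul_le_mul_of_nonneg_left ht₂'' hL
    have z3 := mul_le_mul_of_nonneg_left U₁ (show 0 ≤ 4 * κ by linarith)
    have z4 := mul_le_mul_of_nonneg_left U₂ (show 0 ≤ 4 * κ by linarith)
    have z5 := div_le_div_of_nonneg_right (show ∑ c, ∑ a, ∑ a', ∑ b, ∑ z, R c a a' b z *
      Real.log (R c a a' b z / (Pa c a a' * (p₁ c a b.1 * p₂ c a' b.2 * K c b z))) - 1 +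
      ∑ c, ∑ a, ∑ a', ∑ b, ∑ z, Pa c a a' * (p₁ c a b.1 * p₂ c a' b.2 * K c b z) ≤ Δ by linarith)
      hθ.le
    have z6 := mul_le_mul_of_nonneg_left tS hθ.le
    have z7 := mul_le_mul_of_nonneg_left (add_le_add z5 (show θ * (1 + ∑ c, ∑ a, ∑ a', ∑ b, ∑ z,
      Pa c a a' * (p₁ c a b.1 * p₂ c a' b.2 * K c b z)) / 2 ≤ θ by linarith))
      (show 0 ≤ 2 * κ by linarith)
    have z8 : Δ ≤ Δ / θ := by rw [le_div_iff₀ hθ]; nlinarith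
    have z9 : Δ / θ ≤ κ * (Δ / θ) := le_mul_of_one_le_left (by positivity) (by linarith)
    have z10 : 0 ≤ κ * θ := by positivity
    have z11 : 0 ≤ t₁ * Real.log (1 / ρ) := mul_nonneg (Y₁.trans ht₁) hL
    have z12 : 0 ≤ t₂ * Real.log (1 / ρ) := mul_nonneg (Y₂.trans ht₂) hL
    have z13 := Y₁.trans ht₁
    have z14 := Y₂.trans ht₂
    rw [add_div] at z3 z4
    linarith
  · intro c a a' b z
    have hS0 : 0 ≤ Pa c a a' * (p₁ c a b.1 * p₂ c a' b.2 * K c b z) :=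
      mul_nonneg (hPa0 _ _ _) (mul_nonneg (mul_nonneg (hp₁ _ _ _) (hp₂ _ _ _)) (hK _ _ _))
    have pos : R c a a' b z ≠ 0 → 0 < Paz c a a' z ∧ 0 < Pa c a a' ∧ 0 < Pz c z ∧ 0 < Pc c := by
      intro h
      have h0 : 0 < R c a a' b z := lt_of_le_of_ne (hR _ _ _ _ _) (Ne.symm h)
      have a1 := pos_of_single (fun b => hR c a a' b z) b (hPaz c a a' z) h0
      have a2 := pos_of_single (hPaz0 c a a') z (hPa c a a') a1
      exact ⟨a1, a2, pos_of_single (fun a => Finset.sum_nonneg fun a' _ => hPaz0 c a a' z) a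
        (hPz'' c z) (pos_of_single (fun a' => hPaz0 c a a' z) a' rfl a1),
        pos_of_single (fun a => Finset.sum_nonneg fun a' _ => hPa0 c a a') a
        (hPc'' c) (pos_of_single (fun a' => hPa0 c a a') a' rfl a2)⟩
    have tv := abs_sub_le_kl (hR c a a' b z) hS0 (fun h => by
      obtain ⟨e1, e2, e3⟩ := hpos c a a' b z h
      obtain ⟨-, e4, -, -⟩ := pos h
      positivity) hθ
    have tv2 : (R c a a' b z - Pa c a a' * (p₁ c a b.1 * p₂ c a' b.2 * K c b z)) * ℓ c a a' b z ≤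
        |R c a a' b z - Pa c a a' * (p₁ c a b.1 * p₂ c a' b.2 * K c b z)| * (2 * κ) :=
      (le_abs_self _).trans ((abs_mul _ _).trans_le
        (mul_le_mul_of_nonneg_left (hℓ c a a' b z) (abs_nonneg _)))
    have tv3 := mul_le_mul_of_nonneg_left tv (show 0 ≤ 2 * κ by linarith)
    have hw : 0 ≤ Paz c a a' z * Pc c / Pz c z * N c a a' b z :=
      mul_nonneg (div_nonneg (mul_nonneg (hPaz0 _ _ _ _) (hPc0 _)) (hPz0 _ _)) (hN0 _ _ _ _ _)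
    by_cases h : R c a a' b z = 0
    · rw [h] at tv2 tv3 ⊢
      simp only [zero_mul, mul_zero, add_zero, zero_add, sub_zero] at tv2 tv3 ⊢
      linarith
    · obtain ⟨e1, e2, e3⟩ := hpos c a a' b z h
      obtain ⟨f1, f2, f3, f4⟩ := pos h
      obtain ⟨g1, g2⟩ := hpt c a a' b z e1.ne' e2.ne' e3.ne'
      have h0 : 0 < R c a a' b z := lt_of_le_of_ne (hR _ _ _ _ _) (Ne.symm h)
      have k1 := pt_gibbs (A := Paz c a a' z * Pc c / (Pa c a a' * Pz c z))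
        (B := R c a a' b z / (Pa c a a' * (p₁ c a b.1 * p₂ c a' b.2 * K c b z)) *
          (p₁ c a b.1 * p₂ c a' b.2 * K c b z / N c a a' b z)) h0.le hw
        (fun _ => ⟨by positivity, by positivity, le_of_eq (by field_simp)⟩)
      rw [Real.log_mul (by positivity) (by positivity)] at k1
      have k2 := mul_le_mul_of_nonneg_left g2 h0.le
      linarith

end

end Pool.Agent.Lib.MP_a7c6c3_lc.CellAux
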