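import Pool.Agent.Lib.MP_a7c6c3_lc.CellBasic
import Pool.Agent.Lib.MP_a7c6c3_lc.Cell_Ev
import Pool.Agent.Lib.MP_a7c6c3_lc.Cell_Main

/-! Module `Cell`: the cell inequality. -/

set_option autoImplicit false
open Finset

namespace Pool.Agent.Lib.MP_a7c6c3_lc

namespace CellAux

variable {Ω : Type}

theorem ev_sub (N : Nm Ω) (ω : Ω) (f g : (Ω → ℝ) → ℝ) :
    ev N ω (fun l => f l - g l) = ev N ω f - ev N ω g := by
  simp only [ev, mul_sub, Nm.lin_sub]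

variable [Fintype Ω] (P : PS Ω)

theorem m_add (f g : Ω → ℝ) : P.m (fun ω => f ω + g ω) = P.m f + P.m g := by
  simp only [PS.m, mul_add, Finset.sum_add_distrib]

theorem m_sub (f g : Ω → ℝ) : P.m (fun ω => f ω - g ω) = P.m f - P.m g := by
  simp only [PS.m, mul_sub, Finset.sum_sub_distrib]

variable (Cx Cy Q A₁ A₂ B₁ B₂ B₃ : Nm Ω)

omit [Fintype Ω] in
theorem pp8 {x y q a a' b b' z : Ω → ℝ} (hx : ∀ ω, 0 ≤ x ω) (hy : ∀ ω, 0 ≤ y ω) (hq : ∀ ω, 0 ≤ q ω)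
    (ha : ∀ ω, 0 ≤ a ω) (ha' : ∀ ω, 0 ≤ a' ω) (hb : ∀ ω, 0 ≤ b ω) (hb' : ∀ ω, 0 ≤ b' ω)
    (hz : ∀ ω, 0 ≤ z ω) {ω : Ω} (h : (x * y * q * a * a' * b * b' * z) ω ≠ 0) :
    PP ω x ∧ PP ω y ∧ PP ω q ∧ PP ω a ∧ PP ω a' ∧ PP ω b ∧ PP ω b' ∧ PP ω z := by
  simp only [Pi.mul_apply, mul_ne_zero_iff] at h
  obtain ⟨⟨⟨⟨⟨⟨⟨h1, h2⟩, h3⟩, h4⟩, h5⟩, h6⟩, h7⟩, h8⟩ := h
  exact ⟨.of hx h1, .of hy h2, .of hq h3, .of ha h4, .of ha' h5, .of hb h6, .of hb' h7, .of hz h8⟩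

theorem bridge8' (f g : (Ω → ℝ) → (Ω → ℝ) → (Ω → ℝ) → (Ω → ℝ) → (Ω → ℝ) → (Ω → ℝ) → (Ω → ℝ) →
    (Ω → ℝ) → ℝ) (h : ∀ x y q a a' b b' z ω, PP ω x → PP ω y → PP ω q → PP ω a → PP ω a' → PP ω b →
      PP ω b' → PP ω z → f x y q a a' b b' z = g x y q a a' b b' z) :
    ∑ c : Val Cx × Val Cy × Val Q, ∑ a : Val A₁, ∑ a' : Val A₂, ∑ b : Val B₁ × Val B₂, ∑ z : Val B₃,
      P.m (c.1.1 * c.2.1.1 * c.2.2.1 * a.1 * a'.1 * b.1.1 * b.2.1 * z.1) *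
        f c.1.1 c.2.1.1 c.2.2.1 a.1 a'.1 b.1.1 b.2.1 z.1 =
    P.m fun ω => ev Cx ω fun x => ev Cy ω fun y => ev Q ω fun q => ev A₁ ω fun a => ev A₂ ω fun a' =>
      ev B₁ ω fun b => ev B₂ ω fun b' => ev B₃ ω fun z => g x y q a a' b b' z := by
  rw [← bridge8]
  refine Finset.sum_congr rfl fun c _ => Finset.sum_congr rfl fun a _ =>
    Finset.sum_congr rfl fun a' _ => Finset.sum_congr rfl fun b _ => Finset.sum_congr rfl fun z _ => ?_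
  by_cases h0 : P.m (c.1.1 * c.2.1.1 * c.2.2.1 * a.1 * a'.1 * b.1.1 * b.2.1 * z.1) = 0
  · rw [h0, zero_mul, zero_mul]
  · obtain ⟨ω, hω⟩ := exists_of_m_ne P h0
    obtain ⟨h1, h2, h3, h4, h5, h6, h7, h8⟩ :=
      pp8 c.1.nn c.2.1.nn c.2.2.nn a.nn a'.nn b.1.nn b.2.nn z.nn hω
    rw [h _ _ _ _ _ _ _ _ ω h1 h2 h3 h4 h5 h6 h7 h8]

theorem log4 {u v w t : ℝ} (hu : 0 < u) (hv : 0 < v) (hw : 0 < w) (ht : 0 < t) :
    Real.log (u * v / (w * t)) = Real.log u + Real.log v - Real.log w - Real.log t := by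
  simp (disch := positivity) only [Real.log_div, Real.log_mul]
  ring

theorem log8 {u v w₁ t₁ w₂ t₂ w₃ t₃ : ℝ} (hu : 0 < u) (hv : 0 < v) (hw₁ : 0 < w₁) (ht₁ : 0 < t₁)
    (hw₂ : 0 < w₂) (ht₂ : 0 < t₂) (hw₃ : 0 < w₃) (ht₃ : 0 < t₃) :
    Real.log (u / (v * (w₁ / t₁ * (w₂ / t₂)) * (w₃ / t₃))) = Real.log u - Real.log v -
      Real.log w₁ + Real.log t₁ - Real.log w₂ + Real.log t₂ - Real.log w₃ + Real.log t₃ := by
  simp (disch := positivity) only [Real.log_div, Real.log_mul]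
  ring

theorem ent_I : ∑ c : Val Cx × Val Cy × Val Q, ∑ a : Val A₁, ∑ a' : Val A₂, ∑ b : Val B₁ × Val B₂,
    ∑ z : Val B₃, P.m (c.1.1 * c.2.1.1 * c.2.2.1 * a.1 * a'.1 * b.1.1 * b.2.1 * z.1) *
      Real.log (P.m (c.1.1 * c.2.1.1 * c.2.2.1 * a.1 * a'.1 * z.1) * P.m (c.1.1 * c.2.1.1 * c.2.2.1) /
        (P.m (c.1.1 * c.2.1.1 * c.2.2.1 * a.1 * a'.1) * P.m (c.1.1 * c.2.1.1 * c.2.2.1 * z.1))) =
    P.I (A₁ * A₂) B₃ (Cx * Cy * Q) := by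
  refine (bridge8' P Cx Cy Q A₁ A₂ B₁ B₂ B₃
    (fun x y q a a' _ _ z => Real.log (P.m (x * y * q * a * a' * z) * P.m (x * y * q) /
      (P.m (x * y * q * a * a') * P.m (x * y * q * z))))
    (fun x y q a a' _ _ z => Real.log (P.m (x * y * q * a * a' * z)) + Real.log (P.m (x * y * q)) -
      Real.log (P.m (x * y * q * a * a')) - Real.log (P.m (x * y * q * z)))
    fun x y q a a' b b' z ω _ _ _ _ _ _ _ _ => by
      apply log4 <;> apply PP.m_pos <;> repeat' first | assumption | apply PP.mul).trans ?_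
  have : P.I (A₁ * A₂) B₃ (Cx * Cy * Q) = - P.H (Cx * Cy * Q * A₁ * A₂ * B₃) - P.H (Cx * Cy * Q) +
      P.H (Cx * Cy * Q * A₁ * A₂) + P.H (Cx * Cy * Q * B₃) := by
    simp only [PS.I, PS.J, PS.Hc_mul, mul_comm, mul_left_comm]
    ring
  rw [this]
  simp only [H_ev, ev_mul, ev_add, ev_sub, ev_const, m_add, m_sub]
  ring

theorem ent_31 : ∑ c : Val Cx × Val Cy × Val Q, ∑ a : Val A₁, ∑ a' : Val A₂, ∑ b : Val B₁ × Val B₂,
    ∑ z : Val B₃, P.m (c.1.1 * c.2.1.1 * c.2.2.1 * a.1 * a'.1 * b.1.1 * b.2.1 * z.1) *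
      Real.log (P.m (c.1.1 * c.2.1.1 * c.2.2.1 * a.1 * z.1) * P.m (c.1.1 * c.2.1.1 * c.2.2.1) /
        (P.m (c.1.1 * c.2.1.1 * c.2.2.1 * a.1) * P.m (c.1.1 * c.2.1.1 * c.2.2.1 * z.1))) =
    P.I A₁ B₃ (Cx * Cy * Q) := by
  refine (bridge8' P Cx Cy Q A₁ A₂ B₁ B₂ B₃
    (fun x y q a _ _ _ z => Real.log (P.m (x * y * q * a * z) * P.m (x * y * q) /
      (P.m (x * y * q * a) * P.m (x * y * q * z))))
    (fun x y q a _ _ _ z => Real.log (P.m (x * y * q * a * z)) + Real.log (P.m (x * y * q)) -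
      Real.log (P.m (x * y * q * a)) - Real.log (P.m (x * y * q * z)))
    fun x y q a a' b b' z ω _ _ _ _ _ _ _ _ => by
      apply log4 <;> apply PP.m_pos <;> repeat' first | assumption | apply PP.mul).trans ?_
  have : P.I A₁ B₃ (Cx * Cy * Q) = - P.H (Cx * Cy * Q * A₁ * B₃) - P.H (Cx * Cy * Q) +
      P.H (Cx * Cy * Q * A₁) + P.H (Cx * Cy * Q * B₃) := by
    simp only [PS.I, PS.J, PS.Hc_mul, mul_comm, mul_left_comm]
    ring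
  rw [this]
  simp only [H_ev, ev_mul, ev_add, ev_sub, ev_const, m_add, m_sub]
  ring

theorem ent_32 : ∑ c : Val Cx × Val Cy × Val Q, ∑ a : Val A₁, ∑ a' : Val A₂, ∑ b : Val B₁ × Val B₂,
    ∑ z : Val B₃, P.m (c.1.1 * c.2.1.1 * c.2.2.1 * a.1 * a'.1 * b.1.1 * b.2.1 * z.1) *
      Real.log (P.m (c.1.1 * c.2.1.1 * c.2.2.1 * a'.1 * z.1) * P.m (c.1.1 * c.2.1.1 * c.2.2.1) /
        (P.m (c.1.1 * c.2.1.1 * c.2.2.1 * a'.1) * P.m (c.1.1 * c.2.1.1 * c.2.2.1 * z.1))) =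
    P.I A₂ B₃ (Cx * Cy * Q) := by
  refine (bridge8' P Cx Cy Q A₁ A₂ B₁ B₂ B₃
    (fun x y q _ a _ _ z => Real.log (P.m (x * y * q * a * z) * P.m (x * y * q) /
      (P.m (x * y * q * a) * P.m (x * y * q * z))))
    (fun x y q _ a _ _ z => Real.log (P.m (x * y * q * a * z)) + Real.log (P.m (x * y * q)) -
      Real.log (P.m (x * y * q * a)) - Real.log (P.m (x * y * q * z)))
    fun x y q a a' b b' z ω _ _ _ _ _ _ _ _ => by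
      apply log4 <;> apply PP.m_pos <;> repeat' first | assumption | apply PP.mul).trans ?_
  have : P.I A₂ B₃ (Cx * Cy * Q) = - P.H (Cx * Cy * Q * A₂ * B₃) - P.H (Cx * Cy * Q) +
      P.H (Cx * Cy * Q * A₂) + P.H (Cx * Cy * Q * B₃) := by
    simp only [PS.I, PS.J, PS.Hc_mul, mul_comm, mul_left_comm]
    ring
  rw [this]
  simp only [H_ev, ev_mul, ev_add, ev_sub, ev_const, m_add, m_sub]
  ring

theorem ent_a : ∑ c : Val Cx × Val Cy × Val Q, ∑ a : Val A₁, ∑ a' : Val A₂, ∑ b : Val B₁ × Val B₂,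
    ∑ z : Val B₃, P.m (c.1.1 * c.2.1.1 * c.2.2.1 * a.1 * a'.1 * b.1.1 * b.2.1 * z.1) *
      Real.log (P.m (c.1.1 * c.2.1.1 * c.2.2.1 * a.1 * a'.1 * b.1.1 * b.2.1 * z.1) /
        (P.m (c.1.1 * c.2.1.1 * c.2.2.1 * a.1 * a'.1) *
          (P.m (c.1.1 * a.1 * b.1.1) / P.m (c.1.1 * a.1) *
            (P.m (c.2.1.1 * a'.1 * b.2.1) / P.m (c.2.1.1 * a'.1)) *
            (P.m (c.1.1 * c.2.1.1 * c.2.2.1 * b.1.1 * b.2.1 * z.1) /
              P.m (c.1.1 * c.2.1.1 * c.2.2.1 * b.1.1 * b.2.1))))) ≤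
    P.I B₁ (Cy * Q * A₂ * B₂) (Cx * A₁) + P.I B₂ (Cx * Q * A₁ * B₁) (Cy * A₂) +
      P.I B₃ (A₁ * A₂) (B₁ * B₂ * (Cx * Cy * Q)) := by
  refine (bridge8' P Cx Cy Q A₁ A₂ B₁ B₂ B₃
    (fun x y q a a' b b' z => Real.log (P.m (x * y * q * a * a' * b * b' * z) /
      (P.m (x * y * q * a * a') * (P.m (x * a * b) / P.m (x * a) * (P.m (y * a' * b') / P.m (y * a')) *
        (P.m (x * y * q * b * b' * z) / P.m (x * y * q * b * b'))))))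
    (fun x y q a a' b b' z => Real.log (P.m (x * y * q * a * a' * b * b' * z)) -
      Real.log (P.m (x * y * q * a * a')) - Real.log (P.m (x * a * b)) + Real.log (P.m (x * a)) -
      Real.log (P.m (y * a' * b')) + Real.log (P.m (y * a')) -
      Real.log (P.m (x * y * q * b * b' * z)) + Real.log (P.m (x * y * q * b * b')))
    fun x y q a a' b b' z ω _ _ _ _ _ _ _ _ => by
      rw [← mul_assoc]
      apply log8 <;> apply PP.m_pos <;> repeat' first | assumption | apply PP.mul).trans_le ?_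
  have : - P.H (Cx * Cy * Q * A₁ * A₂ * B₁ * B₂ * B₃) + P.H (Cx * Cy * Q * A₁ * A₂) +
      P.H (Cx * A₁ * B₁) - P.H (Cx * A₁) + P.H (Cy * A₂ * B₂) - P.H (Cy * A₂) +
      P.H (Cx * Cy * Q * B₁ * B₂ * B₃) - P.H (Cx * Cy * Q * B₁ * B₂) ≤
      P.I B₁ (Cy * Q * A₂ * B₂) (Cx * A₁) + P.I B₂ (Cx * Q * A₁ * B₁) (Cy * A₂) +
      P.I B₃ (A₁ * A₂) (B₁ * B₂ * (Cx * Cy * Q)) := by
    have := P.I_mono_right B₁ (Cy * Q * A₂) B₂ (Cx * A₁)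
    simp only [PS.I, PS.J, PS.Hc_mul, mul_comm, mul_left_comm] at this ⊢
    linarith
  refine le_trans (le_of_eq ?_) this
  simp only [H_ev, ev_mul, ev_add, ev_sub, ev_const, m_add, m_sub]
  ring

theorem ent_b : ∑ c : Val Cx × Val Cy × Val Q, ∑ a : Val A₁, ∑ a' : Val A₂, ∑ b : Val B₁ × Val B₂,
    ∑ z : Val B₃, P.m (c.1.1 * c.2.1.1 * c.2.2.1 * a.1 * a'.1 * b.1.1 * b.2.1 * z.1) *
      Real.log (P.m (c.1.1 * c.2.1.1 * c.2.2.1 * b.1.1 * b.2.1 * z.1) /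
        (P.m (c.1.1 * c.2.1.1 * c.2.2.1) *
          (P.m (c.1.1 * b.1.1) / P.m c.1.1 * (P.m (c.2.1.1 * b.2.1) / P.m c.2.1.1)) *
            (P.m (c.1.1 * c.2.1.1 * c.2.2.1 * b.1.1 * b.2.1 * z.1) /
              P.m (c.1.1 * c.2.1.1 * c.2.2.1 * b.1.1 * b.2.1)))) ≤
    P.I B₁ (Cy * Q * A₂ * B₂) Cx + P.I B₂ (Cx * Q * A₁ * B₁) Cy := by
  refine (bridge8' P Cx Cy Q A₁ A₂ B₁ B₂ B₃
    (fun x y q _ _ b b' z => Real.log (P.m (x * y * q * b * b' * z) /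
      (P.m (x * y * q) * (P.m (x * b) / P.m x * (P.m (y * b') / P.m y)) *
        (P.m (x * y * q * b * b' * z) / P.m (x * y * q * b * b')))))
    (fun x y q _ _ b b' z => Real.log (P.m (x * y * q * b * b' * z)) -
      Real.log (P.m (x * y * q)) - Real.log (P.m (x * b)) + Real.log (P.m x) -
      Real.log (P.m (y * b')) + Real.log (P.m y) -
      Real.log (P.m (x * y * q * b * b' * z)) + Real.log (P.m (x * y * q * b * b')))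
    fun x y q a a' b b' z ω _ _ _ _ _ _ _ _ => by
      apply log8 <;> apply PP.m_pos <;> repeat' first | assumption | apply PP.mul).trans_le ?_
  have : - P.H (Cx * Cy * Q * B₁ * B₂ * B₃) + P.H (Cx * Cy * Q) +
      P.H (Cx * B₁) - P.H Cx + P.H (Cy * B₂) - P.H Cy +
      P.H (Cx * Cy * Q * B₁ * B₂ * B₃) - P.H (Cx * Cy * Q * B₁ * B₂) ≤
      P.I B₁ (Cy * Q * A₂ * B₂) Cx + P.I B₂ (Cx * Q * A₁ * B₁) Cy := by
    have h1 := P.I_mono_right B₁ (Cy * Q) (A₂ * B₂) Cx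
    have h2 := P.I_mono_right B₂ (Cx * Q * B₁) A₁ Cy
    simp only [PS.I, PS.J, PS.Hc_mul, mul_comm, mul_left_comm] at h1 h2 ⊢
    linarith
  refine le_trans (le_of_eq ?_) this
  simp only [H_ev, ev_mul, ev_add, ev_sub, ev_const, m_add, m_sub]
  ring

theorem ent_c1 : ∑ c : Val Cx × Val Cy × Val Q, ∑ a : Val A₁, ∑ a' : Val A₂, ∑ b : Val B₁ × Val B₂,
    ∑ z : Val B₃, P.m (c.1.1 * c.2.1.1 * c.2.2.1 * a.1 * a'.1 * b.1.1 * b.2.1 * z.1) *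
      Real.log (P.m (c.1.1 * c.2.1.1 * c.2.2.1 * a.1 * b.1.1 * b.2.1 * z.1) /
        (P.m (c.1.1 * c.2.1.1 * c.2.2.1 * a.1) *
          (P.m (c.1.1 * a.1 * b.1.1) / P.m (c.1.1 * a.1) * (P.m (c.2.1.1 * b.2.1) / P.m c.2.1.1)) *
            (P.m (c.1.1 * c.2.1.1 * c.2.2.1 * b.1.1 * b.2.1 * z.1) /
              P.m (c.1.1 * c.2.1.1 * c.2.2.1 * b.1.1 * b.2.1)))) ≤
    P.I B₁ (Cy * Q * A₂ * B₂) (Cx * A₁) + P.I B₂ (Cx * Q * A₁ * B₁) Cy +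
      P.I B₃ (A₁ * A₂) (B₁ * B₂ * (Cx * Cy * Q)) := by
  refine (bridge8' P Cx Cy Q A₁ A₂ B₁ B₂ B₃
    (fun x y q a _ b b' z => Real.log (P.m (x * y * q * a * b * b' * z) /
      (P.m (x * y * q * a) * (P.m (x * a * b) / P.m (x * a) * (P.m (y * b') / P.m y)) *
        (P.m (x * y * q * b * b' * z) / P.m (x * y * q * b * b')))))
    (fun x y q a _ b b' z => Real.log (P.m (x * y * q * a * b * b' * z)) -
      Real.log (P.m (x * y * q * a)) - Real.log (P.m (x * a * b)) + Real.log (P.m (x * a)) -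
      Real.log (P.m (y * b')) + Real.log (P.m y) -
      Real.log (P.m (x * y * q * b * b' * z)) + Real.log (P.m (x * y * q * b * b')))
    fun x y q a a' b b' z ω _ _ _ _ _ _ _ _ => by
      apply log8 <;> apply PP.m_pos <;> repeat' first | assumption | apply PP.mul).trans_le ?_
  have : - P.H (Cx * Cy * Q * A₁ * B₁ * B₂ * B₃) + P.H (Cx * Cy * Q * A₁) +
      P.H (Cx * A₁ * B₁) - P.H (Cx * A₁) + P.H (Cy * B₂) - P.H Cy +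
      P.H (Cx * Cy * Q * B₁ * B₂ * B₃) - P.H (Cx * Cy * Q * B₁ * B₂) ≤
      P.I B₁ (Cy * Q * A₂ * B₂) (Cx * A₁) + P.I B₂ (Cx * Q * A₁ * B₁) Cy +
      P.I B₃ (A₁ * A₂) (B₁ * B₂ * (Cx * Cy * Q)) := by
    have h1 := P.I_mono_right B₁ (Cy * Q) (A₂ * B₂) (Cx * A₁)
    have h2 := P.I_mono_right B₃ A₁ A₂ (B₁ * B₂ * (Cx * Cy * Q))
    simp only [PS.I, PS.J, PS.Hc_mul, mul_comm, mul_left_comm] at h1 h2 ⊢
    linarith
  refine le_trans (le_of_eq ?_) this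
  simp only [H_ev, ev_mul, ev_add, ev_sub, ev_const, m_add, m_sub]
  ring

theorem ent_c2 : ∑ c : Val Cx × Val Cy × Val Q, ∑ a : Val A₁, ∑ a' : Val A₂, ∑ b : Val B₁ × Val B₂,
    ∑ z : Val B₃, P.m (c.1.1 * c.2.1.1 * c.2.2.1 * a.1 * a'.1 * b.1.1 * b.2.1 * z.1) *
      Real.log (P.m (c.1.1 * c.2.1.1 * c.2.2.1 * a'.1 * b.1.1 * b.2.1 * z.1) /
        (P.m (c.1.1 * c.2.1.1 * c.2.2.1 * a'.1) *
          (P.m (c.1.1 * b.1.1) / P.m c.1.1 * (P.m (c.2.1.1 * a'.1 * b.2.1) / P.m (c.2.1.1 * a'.1))) *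
            (P.m (c.1.1 * c.2.1.1 * c.2.2.1 * b.1.1 * b.2.1 * z.1) /
              P.m (c.1.1 * c.2.1.1 * c.2.2.1 * b.1.1 * b.2.1)))) ≤
    P.I B₁ (Cy * Q * A₂ * B₂) Cx + P.I B₂ (Cx * Q * A₁ * B₁) (Cy * A₂) +
      P.I B₃ (A₁ * A₂) (B₁ * B₂ * (Cx * Cy * Q)) := by
  refine (bridge8' P Cx Cy Q A₁ A₂ B₁ B₂ B₃
    (fun x y q _ a b b' z => Real.log (P.m (x * y * q * a * b * b' * z) /
      (P.m (x * y * q * a) * (P.m (x * b) / P.m x * (P.m (y * a * b') / P.m (y * a))) *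
        (P.m (x * y * q * b * b' * z) / P.m (x * y * q * b * b')))))
    (fun x y q _ a b b' z => Real.log (P.m (x * y * q * a * b * b' * z)) -
      Real.log (P.m (x * y * q * a)) - Real.log (P.m (x * b)) + Real.log (P.m x) -
      Real.log (P.m (y * a * b')) + Real.log (P.m (y * a)) -
      Real.log (P.m (x * y * q * b * b' * z)) + Real.log (P.m (x * y * q * b * b')))
    fun x y q a a' b b' z ω _ _ _ _ _ _ _ _ => by
      apply log8 <;> apply PP.m_pos <;> repeat' first | assumption | apply PP.mul).trans_le ?_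
  have : - P.H (Cx * Cy * Q * A₂ * B₁ * B₂ * B₃) + P.H (Cx * Cy * Q * A₂) +
      P.H (Cx * B₁) - P.H Cx + P.H (Cy * A₂ * B₂) - P.H (Cy * A₂) +
      P.H (Cx * Cy * Q * B₁ * B₂ * B₃) - P.H (Cx * Cy * Q * B₁ * B₂) ≤
      P.I B₁ (Cy * Q * A₂ * B₂) Cx + P.I B₂ (Cx * Q * A₁ * B₁) (Cy * A₂) +
      P.I B₃ (A₁ * A₂) (B₁ * B₂ * (Cx * Cy * Q)) := by
    have h1 := P.I_mono_right B₂ (Cx * Q) (A₁ * B₁) (Cy * A₂)
    have h2 := P.I_mono_right B₃ A₂ A₁ (B₁ * B₂ * (Cx * Cy * Q))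
    simp only [PS.I, PS.J, PS.Hc_mul, mul_comm, mul_left_comm] at h1 h2 ⊢
    linarith
  refine le_trans (le_of_eq ?_) this
  simp only [H_ev, ev_mul, ev_add, ev_sub, ev_const, m_add, m_sub]
  ring

theorem sum_cond_le (B : Nm Ω) (u : Ω → ℝ) : ∑ b : Val B, P.m (u * b.1) / P.m u ≤ 1 := by
  rw [← Finset.sum_div, ← out P B u _ fun _ => rfl]
  exact div_self_le_one _

theorem cond_pos {c a b : Ω → ℝ} (hc : ∀ ω, 0 ≤ c ω) (hb : ∀ ω, 0 ≤ b ω)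
    (h : P.m (c * a * b) / P.m (c * a) ≠ 0) : 0 < P.m (c * b) / P.m c := by
  obtain ⟨ω, hω⟩ := exists_of_m_ne P (div_ne_zero_iff.1 h).1
  simp only [Pi.mul_apply, mul_ne_zero_iff] at hω
  have h1 := PP.of hc hω.1.1
  have h2 := PP.of hb hω.2
  apply div_pos <;> apply PP.m_pos <;> repeat' first | assumption | apply PP.mul

theorem pmi_eq (c a b : Ω → ℝ) :
    P.pmi c a b = Real.log (P.m (c * a * b) / P.m (c * a) / (P.m (c * b) / P.m c)) := by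
  rw [div_div_div_eq]; rfl

end CellAux

open CellAux in
theorem cell_lemma : ∃ C : ℝ, 0 < C ∧ ∀ {Ω : Type} [Fintype Ω] (P : PS Ω)
    (Cx Cy Q A₁ A₂ B₁ B₂ B₃ : Nm Ω) (κ ρ θ : ℝ), 2 ≤ κ → 0 < ρ → ρ ≤ 1 / 4 → 0 < θ → θ ≤ 1 →
    P.I (A₁ * A₂) B₃ (Cx * Cy * Q) ≤ C *
      (P.m (fun ω => P.wfun κ Cx A₁ B₁ ω * P.vfun κ Cy A₂ B₂ ω +
          P.vfun κ Cx A₁ B₁ ω * P.wfun κ Cy A₂ B₂ ω) +
        κ * ((P.I B₁ (Cy * Q * A₂ * B₂) (Cx * A₁) + P.I B₁ (Cy * Q * A₂ * B₂) Cx +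
              P.I B₂ (Cx * Q * A₁ * B₁) (Cy * A₂) + P.I B₂ (Cx * Q * A₁ * B₁) Cy +
              P.I B₃ (A₁ * A₂) (B₁ * B₂ * (Cx * Cy * Q)) +
              P.I A₁ B₃ (Cx * Cy * Q) + P.I A₂ B₃ (Cx * Cy * Q)) / θ + θ) +
        ρ + (P.m (P.tfun κ Cx A₁ B₁) + P.m (P.tfun κ Cy A₂ B₂)) * (1 + Real.log (1 / ρ))) := by
  refine ⟨100, by norm_num, fun {Ω} _ P Cx Cy Q A₁ A₂ B₁ B₂ B₃ κ ρ θ hκ hρ hρ' hθ hθ' => ?_⟩
  have j1 := P.I_nonneg B₁ (Cy * Q * A₂ * B₂) (Cx * A₁)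
  have j2 := P.I_nonneg B₁ (Cy * Q * A₂ * B₂) Cx
  have j3 := P.I_nonneg B₂ (Cx * Q * A₁ * B₁) (Cy * A₂)
  have j4 := P.I_nonneg B₂ (Cx * Q * A₁ * B₁) Cy
  have j5 := P.I_nonneg B₃ (A₁ * A₂) (B₁ * B₂ * (Cx * Cy * Q))
  have j6 := P.I_nonneg A₁ B₃ (Cx * Cy * Q)
  have j7 := P.I_nonneg A₂ B₃ (Cx * Cy * Q)
  have tf : ∀ C A B : Nm Ω, P.tfun κ C A B = fun ω => ev C ω fun c => ev A ω fun a => ev B ω fun b =>
      if κ < P.pmi c a b then 1 else 0 := fun C A B => funext fun ω => ex3_ev _ _ _ _ _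
  have key := main_abs (γ := Val Cx × Val Cy × Val Q) (α₁ := Val A₁) (α₂ := Val A₂) (β₁ := Val B₁)
    (β₂ := Val B₂) (ζ := Val B₃)
    (fun c a a' b z => P.m (c.1.1 * c.2.1.1 * c.2.2.1 * a.1 * a'.1 * b.1.1 * b.2.1 * z.1))
    (fun c a a' z => P.m (c.1.1 * c.2.1.1 * c.2.2.1 * a.1 * a'.1 * z.1))
    (fun c a a' => P.m (c.1.1 * c.2.1.1 * c.2.2.1 * a.1 * a'.1))
    (fun c a b z => P.m (c.1.1 * c.2.1.1 * c.2.2.1 * a.1 * b.1.1 * b.2.1 * z.1))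
    (fun c a b z => P.m (c.1.1 * c.2.1.1 * c.2.2.1 * a.1 * b.1.1 * b.2.1 * z.1))
    (fun c a z => P.m (c.1.1 * c.2.1.1 * c.2.2.1 * a.1 * z.1))
    (fun c a z => P.m (c.1.1 * c.2.1.1 * c.2.2.1 * a.1 * z.1))
    (fun c a => P.m (c.1.1 * c.2.1.1 * c.2.2.1 * a.1))
    (fun c a => P.m (c.1.1 * c.2.1.1 * c.2.2.1 * a.1))
    (fun c b z => P.m (c.1.1 * c.2.1.1 * c.2.2.1 * b.1.1 * b.2.1 * z.1))
    (fun c z => P.m (c.1.1 * c.2.1.1 * c.2.2.1 * z.1))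
    (fun c => P.m (c.1.1 * c.2.1.1 * c.2.2.1))
    (fun c a a' b z => P.m_nonneg (nn_mul (nn_mul (nn_mul (nn_mul (nn_mul (nn_mul (nn_mul c.1.nn
      c.2.1.nn) c.2.2.nn) a.nn) a'.nn) b.1.nn) b.2.nn) z.nn))
    (fun c a a' z => out2 P B₁ B₂ _ _ fun _ => by ring)
    (fun c a a' => out P B₃ _ _ fun _ => rfl)
    (fun c a b z => out P A₂ _ _ fun _ => by ring) (fun c a b z => out P A₁ _ _ fun _ => by ring)
    (fun c a z => out2 P B₁ B₂ _ _ fun _ => by ring) (fun c a z => out2 P B₁ B₂ _ _ fun _ => by ring)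
    (fun c a => out P B₃ _ _ fun _ => rfl) (fun c a => out P B₃ _ _ fun _ => rfl)
    (fun c b z => out P A₁ _ _ fun _ => by ring) (fun c b z => out P A₂ _ _ fun _ => by ring)
    (fun c z => out P A₁ _ _ fun _ => by ring) (fun c z => out P A₂ _ _ fun _ => by ring)
    (fun c => out P A₁ _ _ fun _ => rfl) (fun c => out P A₂ _ _ fun _ => rfl)
    (by
      rw [Fintype.sum_prod_type, ← P.m_one, out P Cx 1 (fun i => i.1) fun _ => (one_mul _).symm]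
      exact Finset.sum_congr rfl fun x _ => (out2 P Cy Q x.1 _ fun _ => rfl).symm)
    (fun c a b => P.m (c.1.1 * a.1 * b.1) / P.m (c.1.1 * a.1)) (fun c b => P.m (c.1.1 * b.1) / P.m c.1.1)
    (fun c a b => P.m (c.2.1.1 * a.1 * b.1) / P.m (c.2.1.1 * a.1))
    (fun c b => P.m (c.2.1.1 * b.1) / P.m c.2.1.1)
    (fun c b z => P.m (c.1.1 * c.2.1.1 * c.2.2.1 * b.1.1 * b.2.1 * z.1) /
      P.m (c.1.1 * c.2.1.1 * c.2.2.1 * b.1.1 * b.2.1))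
    (fun c a b => div_nonneg (P.m_nonneg (nn_mul (nn_mul c.1.nn a.nn) b.nn))
      (P.m_nonneg (nn_mul c.1.nn a.nn)))
    (fun c b => div_nonneg (P.m_nonneg (nn_mul c.1.nn b.nn)) (P.m_nonneg c.1.nn))
    (fun c a b => cond_pos P c.1.nn b.nn) (fun c a => sum_cond_le P B₁ _) (fun c => sum_cond_le P B₁ _)
    (fun c a b => div_nonneg (P.m_nonneg (nn_mul (nn_mul c.2.1.nn a.nn) b.nn))
      (P.m_nonneg (nn_mul c.2.1.nn a.nn)))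
    (fun c b => div_nonneg (P.m_nonneg (nn_mul c.2.1.nn b.nn)) (P.m_nonneg c.2.1.nn))
    (fun c a b => cond_pos P c.2.1.nn b.nn) (fun c a => sum_cond_le P B₂ _)
    (fun c => sum_cond_le P B₂ _)
    (fun c b z => div_nonneg (P.m_nonneg (nn_mul (nn_mul (nn_mul (nn_mul (nn_mul c.1.nn
      c.2.1.nn) c.2.2.nn) b.1.nn) b.2.nn) z.nn)) (P.m_nonneg (nn_mul (nn_mul (nn_mul (nn_mul c.1.nn
      c.2.1.nn) c.2.2.nn) b.1.nn) b.2.nn)))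
    (fun c b => sum_cond_le P B₃ _)
    (fun c a a' b z h => by
      obtain ⟨ω, hω⟩ := exists_of_m_ne P h
      obtain ⟨h1, h2, h3, h4, h5, h6, h7, h8⟩ :=
        pp8 c.1.nn c.2.1.nn c.2.2.nn a.nn a'.nn b.1.nn b.2.nn z.nn hω
      refine ⟨?_, ?_, ?_⟩ <;> apply div_pos <;>
        apply PP.m_pos <;> repeat' first | assumption | apply PP.mul)
    (fun c a b => P.pmi c.1.1 a.1 b.1) (fun c a b => P.pmi c.2.1.1 a.1 b.1)
    (fun c a => P.hel B₁ c.1.1 a.1) (fun c a => P.hel B₂ c.2.1.1 a.1)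
    (fun c a b => pmi_eq P _ _ _) (fun c a b => pmi_eq P _ _ _)
    (fun c a => lin_val _ _) (fun c a => lin_val _ _)
    (Δ := P.I B₁ (Cy * Q * A₂ * B₂) (Cx * A₁) + P.I B₁ (Cy * Q * A₂ * B₂) Cx +
              P.I B₂ (Cx * Q * A₁ * B₁) (Cy * A₂) + P.I B₂ (Cx * Q * A₁ * B₁) Cy +
              P.I B₃ (A₁ * A₂) (B₁ * B₂ * (Cx * Cy * Q)) +
              P.I A₁ B₃ (Cx * Cy * Q) + P.I A₂ B₃ (Cx * Cy * Q))
    (δb := P.I B₁ (Cy * Q * A₂ * B₂) Cx + P.I B₂ (Cx * Q * A₁ * B₁) Cy)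
    (δ₁ := P.I A₁ B₃ (Cx * Cy * Q)) (δ₂ := P.I A₂ B₃ (Cx * Cy * Q))
    (t₁ := P.m (P.tfun κ Cx A₁ B₁)) (t₂ := P.m (P.tfun κ Cy A₂ B₂))
    hκ hρ hρ' hθ hθ' (by linarith) (by linarith) (by linarith)
    ((ent_a P Cx Cy Q A₁ A₂ B₁ B₂ B₃).trans (by linarith)) (ent_b P Cx Cy Q A₁ A₂ B₁ B₂ B₃)
    (ent_31 P Cx Cy Q A₁ A₂ B₁ B₂ B₃).le (ent_32 P Cx Cy Q A₁ A₂ B₁ B₂ B₃).le
    ((ent_c1 P Cx Cy Q A₁ A₂ B₁ B₂ B₃).trans (by linarith))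
    ((ent_c2 P Cx Cy Q A₁ A₂ B₁ B₂ B₃).trans (by linarith))
    ((bridge8 P Cx Cy Q A₁ A₂ B₁ B₂ B₃ fun x _ _ a _ b _ _ => if κ < P.pmi x a b then 1 else 0).trans_le
      (by simp only [tf, ev_const, le_refl]))
    ((bridge8 P Cx Cy Q A₁ A₂ B₁ B₂ B₃ fun _ y _ _ a _ b _ => if κ < P.pmi y a b then 1 else 0).trans_le
      (by simp only [tf, ev_const, le_refl]))
    ((bridge5 P Cx Cy Q A₁ A₂ fun x _ _ a _ => ∑ b : Val B₁, P.m (x * a * b.1) / P.m (x * a) *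
      if κ < P.pmi x a b.1 then 1 else 0).trans_le (by
        simp only [ev_const]; exact tail_le P Cx A₁ B₁ κ))
    ((bridge5 P Cx Cy Q A₁ A₂ fun _ y _ _ a => ∑ b : Val B₂, P.m (y * a * b.1) / P.m (y * a) *
      if κ < P.pmi y a b.1 then 1 else 0).trans_le (by
        simp only [ev_const]; exact tail_le P Cy A₂ B₂ κ))
  rw [ent_I] at key
  refine key.trans (le_of_eq ?_)
  congr 4
  exact (bridge8 P Cx Cy Q A₁ A₂ B₁ B₂ B₃ fun x y _ a a' b b' _ =>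
    (κ * P.hel B₁ x a + if 1 < P.pmi x a b then P.pmi x a b else 0) *
      max √(P.hel B₂ y a' / 2) (if κ < P.pmi y a' b' then 1 else 0) +
    max √(P.hel B₁ x a / 2) (if κ < P.pmi x a b then 1 else 0) *
      (κ * P.hel B₂ y a' + if 1 < P.pmi y a' b' then P.pmi y a' b' else 0)).trans
    (prod_ev P Cx Cy Q A₁ A₂ B₁ B₂ B₃ _ _ _ _)

end Pool.Agent.Lib.MP_a7c6c3_lc
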