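import Pool.Agent.Lib.MP_a7c6c3_lc.Design1

/-! Module `Design2`: the averaging operators of the design (linearity, symmetry, telescoping). -/

set_option autoImplicit false
open Finset
open scoped BigOperators

namespace Pool.Agent.Lib.MP_a7c6c3_lc

variable {ι : Type} [Fintype ι] [DecidableEq ι]

/-- A positive normalised linear functional on functions `α → ℝ`. -/
structure IsAv {α : Type} (E : (α → ℝ) → ℝ) : Prop where
  add : ∀ f g, E (fun a => f a + g a) = E f + E g
  smul : ∀ (c : ℝ) f, E (fun a => c * f a) = c * E f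
  mono : ∀ f g, (∀ a, f a ≤ g a) → E f ≤ E g
  const : ∀ c : ℝ, E (fun _ => c) = c

theorem IsAv.sub {α : Type} {E : (α → ℝ) → ℝ} (h : IsAv E) (f g : α → ℝ) :
    E (fun a => f a - g a) = E f - E g := by
  have h1 : (fun a => f a - g a) = fun a => f a + (-1) * g a := by
    funext a; ring
  rw [h1, h.add f fun a => (-1) * g a, h.smul]; ring

theorem IsAv.sum {α β : Type} {E : (α → ℝ) → ℝ} (h : IsAv E) (s : Finset β) (f : β → α → ℝ) :
    E (fun a => ∑ b ∈ s, f b a) = ∑ b ∈ s, E (f b) := by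
  classical
  induction s using Finset.induction_on with
  | empty => simpa using h.const 0
  | insert b s hb ih =>
    simp only [sum_insert hb]
    rw [h.add (f b) fun a => ∑ b ∈ s, f b a, ih]

theorem IsAv.expect {α β : Type} {E : (α → ℝ) → ℝ} (h : IsAv E) (s : Finset β) (f : β → α → ℝ) :
    E (fun a => 𝔼 b ∈ s, f b a) = 𝔼 b ∈ s, E (f b) := by
  simp only [expect_eq_sum_div_card, div_eq_inv_mul]
  rw [h.smul _ fun a => ∑ b ∈ s, f b a, h.sum]

theorem IsAv.abs_le {α : Type} {E : (α → ℝ) → ℝ} (h : IsAv E) (f : α → ℝ) (M : ℝ)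
    (hf : ∀ a, |f a| ≤ M) : |E f| ≤ M := by
  rw [_root_.abs_le]
  constructor
  · rw [← h.const (-M)]
    exact h.mono _ _ fun a => (_root_.abs_le.1 (hf a)).1
  · rw [← h.const M]
    exact h.mono _ _ fun a => (_root_.abs_le.1 (hf a)).2

theorem IsAv.d2_comap {α β : Type} {E : (α → ℝ) → ℝ} (h : IsAv E) (φ : α → β) :
    IsAv fun g : β → ℝ => E fun a => g (φ a) :=
  ⟨fun f g => h.add (fun a => f (φ a)) fun a => g (φ a), fun c f => h.smul c fun a => f (φ a),
    fun _ _ hfg => h.mono _ _ fun a => hfg (φ a), fun c => h.const c⟩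

theorem d2_isAv_eval {α : Type} (a : α) : IsAv fun g : α → ℝ => g a :=
  ⟨fun _ _ => rfl, fun _ _ => rfl, fun _ _ h => h a, fun _ => rfl⟩

theorem d2_isAv_expect_comp {α β : Type} (s : Finset α) (hs : s.Nonempty) (F : α → (β → ℝ) → ℝ)
    (hF : ∀ a ∈ s, IsAv (F a)) : IsAv fun g : β → ℝ => 𝔼 a ∈ s, F a g where
  add f g := by
    rw [← expect_add_distrib]
    exact expect_congr rfl fun a ha => (hF a ha).add f g
  smul c f := by
    rw [mul_expect]
    exact expect_congr rfl fun a ha => (hF a ha).smul c f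
  mono f g hfg := expect_le_expect fun a ha => (hF a ha).mono f g hfg
  const c := by
    rw [expect_congr rfl fun a ha => (hF a ha).const c, expect_const hs]

theorem isAv_expect {α : Type} (s : Finset α) (hs : s.Nonempty) :
    IsAv fun g : α → ℝ => 𝔼 a ∈ s, g a :=
  d2_isAv_expect_comp s hs (fun a g => g a) fun a _ => d2_isAv_eval a

variable {q L : ℕ}

theorem d2_erase_nonempty (hι : Fintype.card ι = 8 * q) (a : ι) {i : ℕ} (hi : i < 8 * q) :
    (powersetCard i (univ.erase a)).Nonempty := by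
  rw [powersetCard_nonempty, card_erase_of_mem (mem_univ a), card_univ, hι]
  omega

theorem d2_isAv_rowAv_comp {β : Type} (hq : 0 < q) (hι : Fintype.card ι = 8 * q) (a : ι)
    (F : Finset ι → (β → ℝ) → ℝ) (hF : ∀ X, IsAv (F X)) :
    IsAv fun g : β → ℝ => rowAv q a fun X => F X g := by
  unfold rowAv
  refine d2_isAv_expect_comp _ (nonempty_Ico.2 (by omega)) _ fun i hi => ?_
  have hi' := (mem_Ico.1 hi).2
  refine d2_isAv_expect_comp _ (d2_erase_nonempty hι a (by omega)) _ fun X _ => ?_
  exact d2_isAv_expect_comp _ univ_nonempty _ fun Z _ => hF _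

theorem d2_isAv_colAv_comp {β : Type} (hq : 0 < q) (hι : Fintype.card ι = 8 * q) (b : ι)
    (F : Finset ι → (β → ℝ) → ℝ) (hF : ∀ T, T.card < 2 * q → IsAv (F T)) :
    IsAv fun g : β → ℝ => colAv q b fun T => F T g := by
  unfold colAv
  refine d2_isAv_expect_comp _ (nonempty_Ico.2 (by omega)) _ fun i hi => ?_
  have hi' := (mem_Ico.1 hi).2
  refine d2_isAv_expect_comp _ (d2_erase_nonempty hι b (by omega)) _ fun T hT => ?_
  exact hF T ((mem_powersetCard.1 hT).2 ▸ hi')

theorem isAv_rowAv (hq : 0 < q) (hι : Fintype.card ι = 8 * q) (a : ι) : IsAv (rowAv q a) :=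
  d2_isAv_rowAv_comp hq hι a (fun X g => g X) fun X => d2_isAv_eval X

theorem isAv_colAv (hq : 0 < q) (hι : Fintype.card ι = 8 * q) (b : ι) : IsAv (colAv q b) :=
  d2_isAv_colAv_comp hq hι b (fun T g => g T) fun T _ => d2_isAv_eval T

theorem isAv_extAv {C : Finset ι} (hL : 0 < L) (hC : L ≤ C.card + 1) : IsAv (extAv L C) := by
  unfold extAv
  refine d2_isAv_expect_comp _ (nonempty_range_iff.2 hL.ne') _ fun l hl => ?_
  have hl' := mem_range.1 hl
  exact isAv_expect _ (powersetCard_nonempty.2 (by omega))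

theorem isAv_loc (hq : 0 < q) (hι : Fintype.card ι = 8 * q) (a b : ι) :
    IsAv fun G : Finset ι × Finset ι → ℝ => loc q a b fun X T => G (X, T) :=
  d2_isAv_rowAv_comp hq hι a (fun X G => colAv q b fun T => G (X, T)) fun X =>
    (isAv_colAv hq hι b).d2_comap fun T => (X, T)

theorem isAv_rows (hq : 0 < q) (hι : Fintype.card ι = 8 * q) :
    IsAv fun G : ι × Finset ι × Finset ι → ℝ => rows q fun a X Y => G (a, X, Y) := by
  have : Nonempty ι := Fintype.card_pos_iff.1 (by omega)
  unfold rows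
  refine d2_isAv_expect_comp _ univ_nonempty _ fun a _ => ?_
  exact d2_isAv_rowAv_comp hq hι a (fun X G => rowAv q a fun Y => G (a, X, Y)) fun X =>
    (isAv_rowAv hq hι a).d2_comap fun Y => (a, X, Y)

theorem d2_card_rest (hι : Fintype.card ι = 8 * q) (hLq : L ≤ q) (b : ι) {T T' : Finset ι}
    (hT : T.card < 2 * q) (hT' : T'.card < 2 * q) :
    L ≤ (univ \ insert b (T ∪ T')).card + 1 := by
  have h1 := card_insert_le b (T ∪ T')
  have h2 := card_union_le T T'
  rw [card_sdiff_of_subset (subset_univ _), card_univ, hι]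
  omega

theorem isAv_cols (hq : 0 < q) (hι : Fintype.card ι = 8 * q) (hL : 0 < L) (hLq : L ≤ q) :
    IsAv fun G : ι × Finset ι × Finset ι × Finset ι → ℝ =>
      cols q L fun b T T' K => G (b, T, T', K) := by
  have : Nonempty ι := Fintype.card_pos_iff.1 (by omega)
  unfold cols
  refine d2_isAv_expect_comp _ univ_nonempty _ fun b _ => ?_
  refine d2_isAv_colAv_comp hq hι b (fun T G => colAv q b fun T' =>
    extAv L (univ \ insert b (T ∪ T')) fun K => G (b, T, T', K)) fun T hT => ?_
  refine d2_isAv_colAv_comp hq hι b (fun T' G =>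
    extAv L (univ \ insert b (T ∪ T')) fun K => G (b, T, T', K)) fun T' hT' => ?_
  exact (isAv_extAv hL (d2_card_rest hι hLq b hT hT')).d2_comap fun K => (b, T, T', K)

theorem d2_rowAv_mono {a : ι} {g g' : Finset ι → ℝ} (h : ∀ X, a ∉ X → g X ≤ g' X) :
    rowAv q a g ≤ rowAv q a g' := by
  unfold rowAv
  refine expect_le_expect fun i _ => expect_le_expect fun X hX => expect_le_expect fun Z _ => ?_
  refine h _ fun ha => ?_
  exact notMem_erase a univ ((mem_powersetCard.1 hX).1 (mem_inter.1 ha).1)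

theorem d2_colAv_mono {b : ι} {g g' : Finset ι → ℝ}
    (h : ∀ T, b ∉ T → q ≤ T.card → T.card < 2 * q → g T ≤ g' T) :
    colAv q b g ≤ colAv q b g' := by
  unfold colAv
  refine expect_le_expect fun i hi => expect_le_expect fun T hT => ?_
  obtain ⟨hT1, hT2⟩ := mem_powersetCard.1 hT
  obtain ⟨h1, h2⟩ := mem_Ico.1 hi
  exact h T (fun hb => notMem_erase b univ (hT1 hb)) (hT2 ▸ h1) (hT2 ▸ h2)

theorem d2_extAv_mono {C : Finset ι} {g g' : Finset ι → ℝ}
    (h : ∀ K, K ⊆ C → K.card < L → g K ≤ g' K) : extAv L C g ≤ extAv L C g' := by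
  unfold extAv
  refine expect_le_expect fun l hl => expect_le_expect fun K hK => ?_
  obtain ⟨hK1, hK2⟩ := mem_powersetCard.1 hK
  exact h K hK1 (hK2 ▸ mem_range.1 hl)

theorem d2_colAv_congr {b : ι} {g g' : Finset ι → ℝ}
    (h : ∀ T, b ∉ T → q ≤ T.card → T.card < 2 * q → g T = g' T) :
    colAv q b g = colAv q b g' :=
  le_antisymm (d2_colAv_mono fun T h1 h2 h3 => (h T h1 h2 h3).le)
    (d2_colAv_mono fun T h1 h2 h3 => (h T h1 h2 h3).ge)

/-- Monotonicity on the support of the row design. -/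
theorem rows_mono {G G' : ι → Finset ι → Finset ι → ℝ}
    (h : ∀ a X Y, a ∉ X → a ∉ Y → G a X Y ≤ G' a X Y) : rows q G ≤ rows q G' :=
  expect_le_expect fun a _ => d2_rowAv_mono fun X hX => d2_rowAv_mono fun Y hY => h a X Y hX hY

/-- Monotonicity on the support of the column design. -/
theorem cols_mono {G G' : ι → Finset ι → Finset ι → Finset ι → ℝ}
    (h : ∀ b T T' K, b ∉ T → b ∉ T' → b ∉ K → Disjoint T K → Disjoint T' K → q ≤ T.card →
      T.card < 2 * q → q ≤ T'.card → T'.card < 2 * q → K.card < L → G b T T' K ≤ G' b T T' K) :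
    cols q L G ≤ cols q L G' := by
  refine expect_le_expect fun b _ => d2_colAv_mono fun T hb h1 h2 => d2_colAv_mono fun T' hb' h1' h2' =>
    d2_extAv_mono fun K hK hKL => ?_
  have hK' : ∀ x ∈ K, x ∉ insert b (T ∪ T') := fun x hx => (mem_sdiff.1 (hK hx)).2
  refine h b T T' K hb hb' (fun hbK => hK' b hbK (mem_insert_self _ _)) ?_ ?_ h1 h2 h1' h2' hKL
  · exact disjoint_right.2 fun x hx hxT => hK' x hx (mem_insert_of_mem (mem_union_left _ hxT))
  · exact disjoint_right.2 fun x hx hxT => hK' x hx (mem_insert_of_mem (mem_union_right _ hxT))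

theorem loc_mono {a b : ι} {G G' : Finset ι → Finset ι → ℝ}
    (h : ∀ X T, a ∉ X → b ∉ T → G X T ≤ G' X T) : loc q a b G ≤ loc q a b G' :=
  d2_rowAv_mono fun X hX => d2_colAv_mono fun T hT _ _ => h X T hX hT

/-- A functional that commutes with finite averages. -/
def CommE {α : Type} (E : (α → ℝ) → ℝ) : Prop :=
  ∀ (β : Type) (s : Finset β) (f : β → α → ℝ),
    E (fun a => 𝔼 b ∈ s, f b a) = 𝔼 b ∈ s, E (f b)

theorem commE_eval {α : Type} (a : α) : CommE fun g : α → ℝ => g a := fun _ _ _ => rfl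

theorem CommE.comap {α β : Type} {E : (α → ℝ) → ℝ} (h : CommE E) (φ : α → β) :
    CommE fun g : β → ℝ => E fun a => g (φ a) :=
  fun γ s f => h γ s fun b a => f b (φ a)

theorem commE_expect_comp {α β : Type} (s : Finset α) (F : α → (β → ℝ) → ℝ)
    (hF : ∀ a, CommE (F a)) : CommE fun g : β → ℝ => 𝔼 a ∈ s, F a g := by
  intro γ t f
  show 𝔼 a ∈ s, F a _ = 𝔼 b ∈ t, 𝔼 a ∈ s, F a (f b)
  rw [expect_comm]
  exact expect_congr rfl fun a _ => hF a γ t f

theorem commE_rowAv_comp {β : Type} (a : ι) (F : Finset ι → (β → ℝ) → ℝ)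
    (hF : ∀ X, CommE (F X)) : CommE fun g : β → ℝ => rowAv q a fun X => F X g := by
  unfold rowAv
  exact commE_expect_comp _ _ fun i => commE_expect_comp _ _ fun X =>
    commE_expect_comp _ _ fun Z => hF _

theorem commE_colAv_comp {β : Type} (b : ι) (F : Finset ι → (β → ℝ) → ℝ)
    (hF : ∀ T, CommE (F T)) : CommE fun g : β → ℝ => colAv q b fun T => F T g := by
  unfold colAv
  exact commE_expect_comp _ _ fun i => commE_expect_comp _ _ fun T => hF _

theorem commE_rowAv (a : ι) : CommE (rowAv q a) :=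
  commE_rowAv_comp a (fun X g => g X) fun X => commE_eval X

theorem commE_colAv (b : ι) : CommE (colAv q b) :=
  commE_colAv_comp b (fun T g => g T) fun T => commE_eval T

theorem commE_rows :
    CommE fun G : ι × Finset ι × Finset ι → ℝ => rows q fun a X Y => G (a, X, Y) := by
  unfold rows
  exact commE_expect_comp _ _ fun a =>
    commE_rowAv_comp a (fun X G => rowAv q a fun Y => G (a, X, Y)) fun X =>
      (commE_rowAv a).comap fun Y => (a, X, Y)

theorem CommE.rowAv {α : Type} {E : (α → ℝ) → ℝ} (h : CommE E) (a : ι)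
    (G : α → Finset ι → ℝ) :
    (E fun x => rowAv q a (G x)) = rowAv q a fun X => E fun x => G x X := by
  unfold MP_a7c6c3_lc.rowAv
  refine (h _ _ _).trans (expect_congr rfl fun i _ => ?_)
  refine (h _ _ _).trans (expect_congr rfl fun X _ => ?_)
  exact h _ _ fun Z x => G x (X ∩ Z)

theorem CommE.colAv {α : Type} {E : (α → ℝ) → ℝ} (h : CommE E) (b : ι)
    (G : α → Finset ι → ℝ) :
    (E fun x => colAv q b (G x)) = colAv q b fun T => E fun x => G x T := by
  unfold MP_a7c6c3_lc.colAv
  refine (h _ _ _).trans (expect_congr rfl fun i _ => ?_)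
  exact h _ _ fun T x => G x T

theorem CommE.extAv {α : Type} {E : (α → ℝ) → ℝ} (h : CommE E) (C : Finset ι)
    (G : α → Finset ι → ℝ) :
    (E fun x => extAv L C (G x)) = extAv L C fun K => E fun x => G x K := by
  unfold MP_a7c6c3_lc.extAv
  refine (h _ _ _).trans (expect_congr rfl fun i _ => ?_)
  exact h _ _ fun K x => G x K

theorem CommE.cols {α : Type} {E : (α → ℝ) → ℝ} (h : CommE E)
    (G : α → ι → Finset ι → Finset ι → Finset ι → ℝ) :
    (E fun x => cols q L (G x)) = cols q L fun b T T' K => E fun x => G x b T T' K := by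
  unfold MP_a7c6c3_lc.cols
  refine (h _ _ _).trans (expect_congr rfl fun b _ => ?_)
  refine (h.colAv b _).trans (congrArg _ (funext fun T => ?_))
  refine (h.colAv b _).trans (congrArg _ (funext fun T' => ?_))
  exact h.extAv _ fun x K => G x b T T' K

theorem rows_cols_comm (G : ι → Finset ι → Finset ι → ι → Finset ι → Finset ι → Finset ι → ℝ) :
    (rows q fun a X Y => cols q L fun b T T' K => G a X Y b T T' K) =
      cols q L fun b T T' K => rows q fun a X Y => G a X Y b T T' K :=
  (commE_rows (q := q)).cols (L := L) (q := q) fun x => G x.1 x.2.1 x.2.2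

theorem rows_swap (G : ι → Finset ι → Finset ι → ℝ) :
    rows q G = rows q fun a X Y => G a Y X :=
  expect_congr rfl fun a _ => (commE_rowAv a).rowAv a (G a)

theorem cols_swap (G : ι → Finset ι → Finset ι → Finset ι → ℝ) :
    cols q L G = cols q L fun b T T' K => G b T' T K := by
  refine expect_congr rfl fun b _ => ?_
  refine ((commE_colAv b).colAv b _).trans ?_
  refine congrArg _ (funext fun T => congrArg _ (funext fun T' => ?_))
  rw [union_comm]

/-! Symmetry under relabelling. -/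

theorem d2_expect_map (τ : Equiv.Perm ι) (i : ℕ) (s : Finset ι) (g : Finset ι → ℝ) :
    𝔼 X ∈ powersetCard i s, g (X.map τ.toEmbedding) =
      𝔼 X ∈ powersetCard i (s.map τ.toEmbedding), g X := by
  refine expect_equiv τ.finsetCongr (fun X => ?_) fun X _ => rfl
  simp only [mem_powersetCard, Equiv.finsetCongr_apply, map_subset_map, card_map]

theorem d2_map_erase (τ : Equiv.Perm ι) (a : ι) :
    (univ.erase a).map τ.toEmbedding = univ.erase (τ a) := by
  rw [map_erase, map_univ_equiv]; rfl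

theorem d2_extAv_perm (τ : Equiv.Perm ι) (C : Finset ι) (g : Finset ι → ℝ) :
    (extAv L C fun K => g (K.map τ.toEmbedding)) = extAv L (C.map τ.toEmbedding) g :=
  expect_congr rfl fun l _ => d2_expect_map τ l C g

theorem rowAv_perm (τ : Equiv.Perm ι) (a : ι) (g : Finset ι → ℝ) :
    (rowAv q a fun X => g (X.map τ.toEmbedding)) = rowAv q (τ a) g := by
  unfold rowAv
  refine expect_congr rfl fun i _ => ?_
  rw [← d2_map_erase, ← d2_expect_map τ i _ fun X => 𝔼 Z : Finset ι, g (X ∩ Z)]
  refine expect_congr rfl fun X _ => ?_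
  refine Fintype.expect_equiv τ.finsetCongr _ _ fun Z => ?_
  simp only [map_inter, Equiv.finsetCongr_apply]

theorem colAv_perm (τ : Equiv.Perm ι) (b : ι) (g : Finset ι → ℝ) :
    (colAv q b fun T => g (T.map τ.toEmbedding)) = colAv q (τ b) g := by
  unfold colAv
  refine expect_congr rfl fun i _ => ?_
  rw [← d2_map_erase, ← d2_expect_map τ i _ g]

theorem rows_perm (τ : Equiv.Perm ι) (G : ι → Finset ι → Finset ι → ℝ) :
    (rows q fun a X Y => G (τ a) (X.map τ.toEmbedding) (Y.map τ.toEmbedding)) = rows q G := by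
  unfold rows
  refine Fintype.expect_equiv τ _ _ fun a => ?_
  rw [← rowAv_perm τ a]
  refine congrArg _ (funext fun X => ?_)
  exact rowAv_perm τ a fun Y => G (τ a) (X.map τ.toEmbedding) Y

theorem cols_perm (τ : Equiv.Perm ι) (G : ι → Finset ι → Finset ι → Finset ι → ℝ) :
    (cols q L fun b T T' K => G (τ b) (T.map τ.toEmbedding) (T'.map τ.toEmbedding)
      (K.map τ.toEmbedding)) = cols q L G := by
  unfold cols
  refine Fintype.expect_equiv τ _ _ fun b => ?_
  rw [← colAv_perm τ b]
  refine congrArg _ (funext fun T => ?_)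
  rw [← colAv_perm τ b]
  refine congrArg _ (funext fun T' => ?_)
  refine (d2_extAv_perm τ _ fun K =>
    G (τ b) (T.map τ.toEmbedding) (T'.map τ.toEmbedding) K).trans ?_
  rw [Finset.map_sdiff, map_univ_equiv, map_insert, map_union]
  rfl

theorem d2_cols_noExt (hι : Fintype.card ι = 8 * q) (hL : 0 < L) (hLq : L ≤ q)
    (G : ι → Finset ι → Finset ι → ℝ) :
    (cols q L fun b T T' _ => G b T T') =
      𝔼 b : ι, colAv q b fun T => colAv q b fun T' => G b T T' := by
  refine expect_congr rfl fun b _ => d2_colAv_congr fun T _ _ hT => d2_colAv_congr fun T' _ _ hT' => ?_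
  exact (isAv_extAv hL (d2_card_rest hι hLq b hT hT')).const _

/-- The two own pasts are independent given the target cell. -/
theorem rows_cols_mul (hq : 0 < q) (hι : Fintype.card ι = 8 * q) (hL : 0 < L) (hLq : L ≤ q)
    (G₁ G₂ : ι → ι → Finset ι → Finset ι → ℝ) :
    (rows q fun a X Y => cols q L fun b T T' _ => G₁ a b X T * G₂ a b Y T') =
      𝔼 a : ι, 𝔼 b : ι, loc q a b (G₁ a b) * loc q a b (G₂ a b) := by
  refine expect_congr rfl fun a _ => ?_
  have h1 : ∀ X Y, (cols q L fun b T T' _ => G₁ a b X T * G₂ a b Y T') =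
      𝔼 b : ι, colAv q b (G₁ a b X) * colAv q b (G₂ a b Y) := fun X Y => by
    rw [d2_cols_noExt hι hL hLq]
    refine expect_congr rfl fun b _ => ?_
    have hc := isAv_colAv hq hι b
    simp only [hc.smul]
    simp only [mul_comm _ (colAv q b (G₂ a b Y))]
    exact hc.smul _ _
  have hr := isAv_rowAv hq hι a
  simp only [h1]
  have h2 : ∀ X, (rowAv q a fun Y => 𝔼 b : ι, colAv q b (G₁ a b X) * colAv q b (G₂ a b Y)) =
      𝔼 b : ι, loc q a b (G₂ a b) * colAv q b (G₁ a b X) := fun X => by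
    refine (hr.expect _ _).trans (expect_congr rfl fun b _ => ?_)
    rw [hr.smul, mul_comm]; rfl
  simp only [h2]
  refine (hr.expect _ _).trans (expect_congr rfl fun b _ => ?_)
  rw [hr.smul, mul_comm]; rfl

theorem d2_loc_one (hq : 0 < q) (hι : Fintype.card ι = 8 * q) (a b : ι) :
    (loc q a b fun _ _ => 1) = 1 :=
  (isAv_loc hq hι a b).const 1

theorem rows_cols_left (hq : 0 < q) (hι : Fintype.card ι = 8 * q) (hL : 0 < L) (hLq : L ≤ q)
    (G : ι → ι → Finset ι → Finset ι → ℝ) :
    (rows q fun a X _ => cols q L fun b T _ _ => G a b X T) =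
      𝔼 a : ι, 𝔼 b : ι, loc q a b (G a b) := by
  simpa only [mul_one, d2_loc_one hq hι] using rows_cols_mul hq hι hL hLq G fun _ _ _ _ => 1

theorem rows_cols_right (hq : 0 < q) (hι : Fintype.card ι = 8 * q) (hL : 0 < L) (hLq : L ≤ q)
    (G : ι → ι → Finset ι → Finset ι → ℝ) :
    (rows q fun a _ Y => cols q L fun b _ T' _ => G a b Y T') =
      𝔼 a : ι, 𝔼 b : ι, loc q a b (G a b) := by
  simpa only [one_mul, d2_loc_one hq hι] using rows_cols_mul hq hι hL hLq (fun _ _ _ _ => 1) G

end Pool.Agent.Lib.MP_a7c6c3_lc
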