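import Pool.Agent.Lib.MP_a7c6c3_lc.Rules1
import Pool.Agent.Lib.MP_a7c6c3_lc.Design2

/-! Module `CellBasic`: elementary properties of the cell statistics. -/

set_option autoImplicit false
open Finset
open scoped BigOperators

namespace Pool.Agent.Lib.MP_a7c6c3_lc

variable {Ω : Type} [Fintype Ω] (P : PS Ω)

namespace PS

theorem hel_nonneg (B : Nm Ω) (c a : Ω → ℝ) : 0 ≤ P.hel B c a :=
  B.lin_nonneg fun _ _ => sq_nonneg _

theorem cb_lin_div_le (B : Nm Ω) (n : Ω → ℝ) : (B.lin fun b => P.m (n * b) / P.m n) ≤ 1 := by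
  simp only [div_eq_mul_inv]
  rw [Nm.lin_mul_right, P.lin_m_mul]
  exact mul_inv_le_one

theorem hel_le_two (B : Nm Ω) {c a : Ω → ℝ} (hc : ∀ ω, 0 ≤ c ω) (ha : ∀ ω, 0 ≤ a ω) :
    P.hel B c a ≤ 2 := by
  have h1 := P.cb_lin_div_le B (c * a)
  have h2 := P.cb_lin_div_le B c
  have h3 : P.hel B c a ≤
      B.lin fun b => P.m (c * a * b) / P.m (c * a) + P.m (c * b) / P.m c := by
    refine B.lin_le fun b hb => ?_
    have p0 : 0 ≤ P.m (c * a * b) / P.m (c * a) :=
      div_nonneg (P.m_nonneg fun ω => mul_nonneg (mul_nonneg (hc ω) (ha ω)) (B.nonneg b hb ω))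
        (P.m_nonneg fun ω => mul_nonneg (hc ω) (ha ω))
    have q0 : 0 ≤ P.m (c * b) / P.m c :=
      div_nonneg (P.m_nonneg fun ω => mul_nonneg (hc ω) (B.nonneg b hb ω)) (P.m_nonneg hc)
    have e1 := Real.sq_sqrt p0
    have e2 := Real.sq_sqrt q0
    have e3 := mul_nonneg (Real.sqrt_nonneg (P.m (c * a * b) / P.m (c * a)))
      (Real.sqrt_nonneg (P.m (c * b) / P.m c))
    nlinarith
  rw [Nm.lin_add] at h3
  linarith

omit [Fintype Ω] in
theorem cb_ex3_nonneg (C A B : Nm Ω) {W : (Ω → ℝ) → (Ω → ℝ) → (Ω → ℝ) → ℝ}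
    (h : ∀ c a b, 0 ≤ W c a b) (ω : Ω) : 0 ≤ ex3 C A B W ω :=
  C.lin_nonneg fun c hc => A.lin_nonneg fun a ha => B.lin_nonneg fun b hb =>
    mul_nonneg (mul_nonneg (mul_nonneg (C.nonneg c hc ω) (A.nonneg a ha ω)) (B.nonneg b hb ω))
      (h c a b)

omit [Fintype Ω] in
theorem cb_ex3_le_one (C A B : Nm Ω) {W : (Ω → ℝ) → (Ω → ℝ) → (Ω → ℝ) → ℝ}
    (h : ∀ c ∈ C.s, ∀ a ∈ A.s, ∀ b, W c a b ≤ 1) (ω : Ω) : ex3 C A B W ω ≤ 1 := by
  have e : (1 : ℝ) = C.lin fun c => A.lin fun a => B.lin fun b => c ω * a ω * b ω := by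
    simp only [Nm.lin_mul_left, Nm.lin_eval, mul_one]
  rw [e]
  refine C.lin_le fun c hc => A.lin_le fun a ha => B.lin_le fun b hb => ?_
  exact mul_le_of_le_one_right
    (mul_nonneg (mul_nonneg (C.nonneg c hc ω) (A.nonneg a ha ω)) (B.nonneg b hb ω)) (h c hc a ha b)

theorem wfun_nonneg {κ : ℝ} (hκ : 0 ≤ κ) (C A B : Nm Ω) (ω : Ω) : 0 ≤ P.wfun κ C A B ω := by
  refine cb_ex3_nonneg C A B (fun c a b => ?_) ω
  refine add_nonneg (mul_nonneg hκ (P.hel_nonneg B c a)) ?_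
  split_ifs with h
  · linarith
  · exact le_rfl

theorem vfun_nonneg (κ : ℝ) (C A B : Nm Ω) (ω : Ω) : 0 ≤ P.vfun κ C A B ω :=
  cb_ex3_nonneg C A B (fun _ _ _ => le_max_of_le_left (Real.sqrt_nonneg _)) ω

theorem vfun_le_one (κ : ℝ) (C A B : Nm Ω) (ω : Ω) : P.vfun κ C A B ω ≤ 1 := by
  refine cb_ex3_le_one C A B (fun c hc a ha b => max_le ?_ ?_) ω
  · have := P.hel_le_two B (C.nonneg c hc) (A.nonneg a ha)
    exact Real.sqrt_le_one.2 (by linarith)
  · split_ifs <;> norm_num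

theorem tfun_nonneg (κ : ℝ) (C A B : Nm Ω) (ω : Ω) : 0 ≤ P.tfun κ C A B ω := by
  refine cb_ex3_nonneg C A B (fun c a b => ?_) ω
  split_ifs <;> norm_num

omit [Fintype Ω] in
theorem ex3_ref {α : Type} {f : Ω → α} {C A B : Nm Ω} (hC : Meas f C) (hA : Meas f A)
    (hB : Meas f B) (W : (Ω → ℝ) → (Ω → ℝ) → (Ω → ℝ) → ℝ) : Ref f (ex3 C A B W) := by
  intro ω ω' h
  refine C.lin_congr fun c hc => A.lin_congr fun a ha => B.lin_congr fun b hb => ?_
  rw [hC c hc ω ω' h, hA a ha ω ω' h, hB b hb ω ω' h]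

/-- The expectation of `g` times a statistic of three names. -/
theorem m_mul_ex3 (C A B : Nm Ω) (W : (Ω → ℝ) → (Ω → ℝ) → (Ω → ℝ) → ℝ) (g : Ω → ℝ) :
    P.m (fun ω => g ω * ex3 C A B W ω) =
      C.lin fun c => A.lin fun a => B.lin fun b => P.m (g * (c * a * b)) * W c a b := by
  simp only [PS.m, ex3, Finset.sum_mul, Nm.lin_sum, ← Nm.lin_mul_left, Pi.mul_apply, mul_assoc]

theorem cb_pos_left {n b : Ω → ℝ} (hn : ∀ ω, 0 ≤ n ω) (hb : ∀ ω, b ω ≤ 1) :
    P.m (n * b) ≤ P.m n :=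
  P.m_le fun ω => mul_le_of_le_one_right (hn ω) (hb ω)

/-- The mean of the pointwise information is the mutual information. -/
theorem I_eq_pmi (C A B : Nm Ω) :
    P.I A B C = C.lin fun c => A.lin fun a => B.lin fun b => P.m (c * a * b) * P.pmi c a b := by
  have h3 : P.H (A * B * C) = C.lin fun c => A.lin fun a => B.lin fun b =>
      -(P.m (c * a * b) * Real.log (P.m (c * a * b))) := by
    rw [show A * B * C = C * A * B by simp only [mul_comm, mul_left_comm]]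
    simp only [PS.H, Nm.lin_mul, Real.negMulLog, neg_mul]
  have hA : P.H (A * C) = C.lin fun c => A.lin fun a => B.lin fun b =>
      -(P.m (c * a * b) * Real.log (P.m (c * a))) := by
    rw [mul_comm A C]
    simp only [PS.H, Nm.lin_mul, Real.negMulLog, neg_mul]
    refine C.lin_congr fun c _ => A.lin_congr fun a _ => ?_
    simp only [← mul_neg]
    rw [Nm.lin_mul_right, P.lin_m_mul]
  have hB : P.H (B * C) = C.lin fun c => A.lin fun a => B.lin fun b =>
      -(P.m (c * a * b) * Real.log (P.m (c * b))) := by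
    rw [mul_comm B C]
    simp only [PS.H, Nm.lin_mul, Real.negMulLog, neg_mul]
    refine C.lin_congr fun c _ => ?_
    rw [Nm.lin_comm]
    refine B.lin_congr fun b _ => ?_
    simp only [← mul_neg, mul_right_comm c _ b]
    rw [Nm.lin_mul_right, P.lin_m_mul]
  have hC : P.H C = C.lin fun c => A.lin fun a => B.lin fun b =>
      -(P.m (c * a * b) * Real.log (P.m c)) := by
    simp only [PS.H, Real.negMulLog, neg_mul]
    refine C.lin_congr fun c _ => ?_
    simp only [← mul_neg, Nm.lin_mul_right, P.lin_m_mul]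
  have e : P.I A B C = P.H (A * C) + P.H (B * C) - P.H (A * B * C) - P.H C := by
    simp only [PS.I, PS.J, P.Hc_mul]
    ring
  rw [e, h3, hA, hB, hC]
  simp only [← Nm.lin_add, ← Nm.lin_sub]
  refine C.lin_congr fun c hc => A.lin_congr fun a ha => B.lin_congr fun b hb => ?_
  have c0 := C.nonneg c hc
  have a0 := A.nonneg a ha
  have b0 := B.nonneg b hb
  rcases (P.m_nonneg (l := c * a * b)
    fun ω => mul_nonneg (mul_nonneg (c0 ω) (a0 ω)) (b0 ω)).eq_or_lt with h | h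
  · simp [← h]
  · have h1 : 0 < P.m (c * a) :=
      h.trans_le (P.cb_pos_left (fun ω => mul_nonneg (c0 ω) (a0 ω)) (B.le_one hb))
    have h2 : 0 < P.m (c * b) := by
      rw [mul_right_comm] at h
      exact h.trans_le (P.cb_pos_left (fun ω => mul_nonneg (c0 ω) (b0 ω)) (A.le_one ha))
    have h0 : 0 < P.m c := h1.trans_le (P.cb_pos_left c0 (A.le_one ha))
    unfold pmi
    rw [Real.log_div (by positivity) (by positivity), Real.log_mul h.ne' h0.ne',
      Real.log_mul h1.ne' h2.ne']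
    ring

end PS

section Lift

variable {Ω' : Type} [Fintype Ω'] (P' : PS Ω') (g : Ω' → Ω) (hg : ∀ l, P'.m (l ∘ g) = P.m l)
  {ι : Type} [Fintype ι] [DecidableEq ι] {α : Type} [DecidableEq α]

omit [Fintype Ω] [Fintype Ω'] in
theorem cb_comp_mul (l l' : Ω → ℝ) : (l ∘ g) * (l' ∘ g) = (l * l') ∘ g := rfl

include hg in
theorem cb_pmi_lift (c a b : Ω → ℝ) : P'.pmi (c ∘ g) (a ∘ g) (b ∘ g) = P.pmi c a b := by
  simp only [PS.pmi, cb_comp_mul, hg]

include hg in
theorem cb_hel_lift (B : Nm Ω) (c a : Ω → ℝ) :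
    P'.hel (B.lift g) (c ∘ g) (a ∘ g) = P.hel B c a := by
  simp only [PS.hel, Nm.lin_lift, cb_comp_mul, hg]

include hg in
theorem cb_fun_lift (κ : ℝ) (C A B : Nm Ω) (x : Ω') :
    P'.wfun κ (C.lift g) (A.lift g) (B.lift g) x = P.wfun κ C A B (g x) ∧
    P'.vfun κ (C.lift g) (A.lift g) (B.lift g) x = P.vfun κ C A B (g x) ∧
    P'.tfun κ (C.lift g) (A.lift g) (B.lift g) x = P.tfun κ C A B (g x) := by
  simp only [PS.wfun, PS.vfun, PS.tfun, PS.ex3, Nm.lin_lift, cb_pmi_lift P P' g hg,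
    cb_hel_lift P P' g hg, Function.comp_apply, and_self]

omit [Fintype ι] [DecidableEq ι] in
theorem cb_past_lift (hs : Function.Surjective g) (f : Ω → α) (A B : ι → Nm Ω)
    (τ τ' : Equiv.Perm ι) (X T : Finset ι) :
    past (fun x => f (g x)) (fun a => (A (τ a)).lift g) (fun b => (B (τ' b)).lift g) X T =
      (past f A B (X.map τ.toEmbedding) (T.map τ'.toEmbedding)).lift g := by
  simp only [past, Nm.lift_mul, Nm.lift_prod, det_lift hs, prod_map, Equiv.coe_toEmbedding]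

theorem cb_loc_perm (q : ℕ) (τ τ' : Equiv.Perm ι) (a b : ι) (G : Finset ι → Finset ι → ℝ) :
    (loc q a b fun X T => G (X.map τ.toEmbedding) (T.map τ'.toEmbedding)) =
      loc q (τ a) (τ' b) G := by
  unfold loc
  rw [← rowAv_perm τ a]
  congr 1
  funext X
  exact colAv_perm τ' b (G (X.map τ.toEmbedding))

include hg in
/-- The local statistics of relabelled lifted families. -/
theorem loc_lift (hs : Function.Surjective g) (q : ℕ) (κ : ℝ) (f : Ω → α) (A B : ι → Nm Ω)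
    (τ τ' : Equiv.Perm ι) (a b : ι) (x : Ω') :
    wloc P' q κ (fun x => f (g x)) (fun a => (A (τ a)).lift g) (fun b => (B (τ' b)).lift g) a b x =
      wloc P q κ f A B (τ a) (τ' b) (g x) ∧
    vloc P' q κ (fun x => f (g x)) (fun a => (A (τ a)).lift g) (fun b => (B (τ' b)).lift g) a b x =
      vloc P q κ f A B (τ a) (τ' b) (g x) ∧
    tloc P' q κ (fun x => f (g x)) (fun a => (A (τ a)).lift g) (fun b => (B (τ' b)).lift g) a b x =
      tloc P q κ f A B (τ a) (τ' b) (g x) := by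
  simp only [wloc, vloc, tloc, cb_past_lift g hs, (cb_fun_lift P P' g hg κ _ _ _ x).1,
    (cb_fun_lift P P' g hg κ _ _ _ x).2.1, (cb_fun_lift P P' g hg κ _ _ _ x).2.2]
  exact ⟨cb_loc_perm q τ τ' a b fun X T => P.wfun κ (past f A B X T) (A (τ a)) (B (τ' b)) (g x),
    cb_loc_perm q τ τ' a b fun X T => P.vfun κ (past f A B X T) (A (τ a)) (B (τ' b)) (g x),
    cb_loc_perm q τ τ' a b fun X T => P.tfun κ (past f A B X T) (A (τ a)) (B (τ' b)) (g x)⟩

theorem loc_bounds {q : ℕ} (hq : 0 < q) (hι : Fintype.card ι = 8 * q) {κ : ℝ} (hκ : 0 ≤ κ)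
    (f : Ω → α) (A B : ι → Nm Ω) (a b : ι) (ω : Ω) :
    0 ≤ wloc P q κ f A B a b ω ∧ 0 ≤ vloc P q κ f A B a b ω ∧ vloc P q κ f A B a b ω ≤ 1 ∧
      0 ≤ tloc P q κ f A B a b ω := by
  have h := isAv_loc hq hι a b
  refine ⟨(h.const 0).ge.trans (loc_mono fun X T _ _ => P.wfun_nonneg hκ _ _ _ ω),
    (h.const 0).ge.trans (loc_mono fun X T _ _ => P.vfun_nonneg κ _ _ _ ω),
    le_trans (loc_mono fun X T _ _ => P.vfun_le_one κ _ _ _ ω) (h.const 1).le,
    (h.const 0).ge.trans (loc_mono fun X T _ _ => P.tfun_nonneg κ _ _ _ ω)⟩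

theorem loc_ref (q : ℕ) (κ : ℝ) {x f : Ω → α} (hf : Ref x f) {A B : ι → Nm Ω}
    (hA : ∀ a, Meas x (A a)) (hB : ∀ b, Meas x (B b)) (a b : ι) :
    Ref x (wloc P q κ f A B a b) ∧ Ref x (vloc P q κ f A B a b) := by
  have hp : ∀ X T, Meas x (past f A B X T) := fun X T =>
    ((meas_det hf).mul (meas_prod X A fun a _ => hA a)).mul (meas_prod T B fun b _ => hB b)
  constructor
  · intro ω ω' h
    unfold wloc
    congr 1
    funext X T
    exact PS.ex3_ref (hp X T) (hA a) (hB b) _ ω ω' h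
  · intro ω ω' h
    unfold vloc
    congr 1
    funext X T
    exact PS.ex3_ref (hp X T) (hA a) (hB b) _ ω ω' h

end Lift

end Pool.Agent.Lib.MP_a7c6c3_lc
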