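import Pool.Agent.Lib.MP_a7c6c3_lc.Cell_Scalar

/-! The local part of the cell lemma (the values of the pasts and of the rows are fixed). -/

set_option autoImplicit false
open Finset

namespace Pool.Agent.Lib.MP_a7c6c3_lc.CellAux

/-- The truncated probability. -/
noncomputable def tp (κ p q : ℝ) : ℝ := if κ < Real.log (p / q) then 0 else p

theorem tp_nonneg {κ p q : ℝ} (hp : 0 ≤ p) : 0 ≤ tp κ p q := by
  unfold tp; split_ifs; exacts [le_rfl, hp]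

theorem tp_le {κ p q : ℝ} (hp : 0 ≤ p) : tp κ p q ≤ p := by
  unfold tp; split_ifs; exacts [hp, le_rfl]

theorem zpart {Y M A U κ : ℝ} (hκ : 2 ≤ κ) (hM : 0 ≤ M) (hY : 0 ≤ Y)
    (hYM : Y ≤ Real.exp (2 * κ) * M) (hA : 0 ≤ A) (hU : 0 ≤ U)
    (h1 : ∀ l : ℝ, |l| ≤ 1 → 0 ≤ l → 2 * l * (Y - M) - l ^ 2 * M ≤ A)
    (h2 : ∀ l : ℝ, |l| ≤ 1 → 2 * l * (Y - M) - l ^ 2 * M ≤ A + 2 * U) :
    Y * Real.log (max (Y / M) (Real.exp (-1))) ≤ (Y - M) + 2 * κ * A + 6 * U := by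
  rcases hM.eq_or_lt with h0 | h0
  · have : Y = 0 := by rw [← h0, mul_zero] at hYM; linarith
    rw [this, ← h0]
    have : 0 ≤ 2 * κ * A := by positivity
    linarith
  · have hu : Y / M ≤ Real.exp (2 * κ) := by rwa [div_le_iff₀ h0]
    obtain ⟨l, hl, h⟩ := lam_bound (div_nonneg hY hM) (by linarith : 1 ≤ κ) hu
    set u := Y / M with hu'
    have e : Y = M * u := by rw [hu']; field_simp
    set L := Real.log (max u (Real.exp (-1)))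
    rcases h with ⟨h3, h4⟩ | ⟨h3, h4⟩
    · have h5 := h1 l hl h3
      have h6 := mul_le_mul_of_nonneg_left h4 hM
      have h7 := mul_le_mul_of_nonneg_left h5 (show 0 ≤ 2 * κ by linarith)
      rw [e] at h7 ⊢
      nlinarith
    · have h5 := h2 l hl
      have h6 := mul_le_mul_of_nonneg_left h4 hM
      have h7 : 3 * A ≤ 2 * κ * A := by nlinarith
      rw [e] at h5 ⊢
      nlinarith

section

variable {β₁ β₂ ζ : Type} [Fintype β₁] [Fintype β₂] [Fintype ζ]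

theorem sum_prod_mul (f : β₁ → ℝ) (g : β₂ → ℝ) :
    ∑ β : β₁ × β₂, f β.1 * g β.2 = (∑ b, f b) * ∑ b, g b := by
  rw [Fintype.sum_prod_type, Finset.sum_mul_sum]

theorem sum_K_le {β : Type} [Fintype β] (w : β → ℝ) (hw : ∀ b, 0 ≤ w b) (K : β → ζ → ℝ)
    (sK : ∀ b, ∑ z, K b z ≤ 1) : ∑ z, ∑ b, w b * K b z ≤ ∑ b, w b := by
  rw [Finset.sum_comm]
  refine Finset.sum_le_sum fun b _ => ?_
  rw [← Finset.mul_sum]
  exact mul_le_of_le_one_right (hw b) (sK b)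

theorem G_bound {κ : ℝ} (hκ : 2 ≤ κ) (p₁ q₁ : β₁ → ℝ) (p₂ q₂ : β₂ → ℝ)
    (hp₁ : ∀ b, 0 ≤ p₁ b) (hq₁ : ∀ b, 0 ≤ q₁ b) (hpq₁ : ∀ b, p₁ b ≠ 0 → 0 < q₁ b)
    (sp₁ : ∑ b, p₁ b ≤ 1) (sq₁ : ∑ b, q₁ b ≤ 1)
    (hp₂ : ∀ b, 0 ≤ p₂ b) (hq₂ : ∀ b, 0 ≤ q₂ b) (hpq₂ : ∀ b, p₂ b ≠ 0 → 0 < q₂ b)
    (sp₂ : ∑ b, p₂ b ≤ 1) (sq₂ : ∑ b, q₂ b ≤ 1) :
    ∑ β : β₁ × β₂, q₁ β.1 * q₂ β.2 * mn (trF κ (p₁ β.1) (q₁ β.1) * trF κ (p₂ β.2) (q₂ β.2)) ≤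
      18 * ((∑ b, (√(p₁ b) - √(q₁ b)) ^ 2) * √((∑ b, (√(p₂ b) - √(q₂ b)) ^ 2) / 2) +
        √((∑ b, (√(p₁ b) - √(q₁ b)) ^ 2) / 2) * ∑ b, (√(p₂ b) - √(q₂ b)) ^ 2) := by
  have a1 : ∑ b, q₁ b * mn (trF κ (p₁ b) (q₁ b)) ≤ 6 * ∑ b, (√(p₁ b) - √(q₁ b)) ^ 2 := by
    rw [Finset.mul_sum]
    exact Finset.sum_le_sum fun b _ => q_mul_mn_trF hκ (hp₁ b) (hq₁ b)
  have a2 : ∑ b, q₂ b * mn (trF κ (p₂ b) (q₂ b)) ≤ 6 * ∑ b, (√(p₂ b) - √(q₂ b)) ^ 2 := by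
    rw [Finset.mul_sum]
    exact Finset.sum_le_sum fun b _ => q_mul_mn_trF hκ (hp₂ b) (hq₂ b)
  have b1 : ∑ b, q₁ b * |trF κ (p₁ b) (q₁ b)| ≤ 3 * √((∑ b, (√(p₁ b) - √(q₁ b)) ^ 2) / 2) :=
    (Finset.sum_le_sum fun b _ => q_mul_abs_trF hκ (hp₁ b) (hq₁ b) (hpq₁ b)).trans
      (sum_abs_le_sqrt p₁ q₁ hp₁ hq₁ sp₁ sq₁)
  have b2 : ∑ b, q₂ b * |trF κ (p₂ b) (q₂ b)| ≤ 3 * √((∑ b, (√(p₂ b) - √(q₂ b)) ^ 2) / 2) :=
    (Finset.sum_le_sum fun b _ => q_mul_abs_trF hκ (hp₂ b) (hq₂ b) (hpq₂ b)).trans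
      (sum_abs_le_sqrt p₂ q₂ hp₂ hq₂ sp₂ sq₂)
  have c1 : 0 ≤ ∑ b, q₁ b * |trF κ (p₁ b) (q₁ b)| :=
    Finset.sum_nonneg fun b _ => mul_nonneg (hq₁ b) (abs_nonneg _)
  have c2 : 0 ≤ ∑ b, q₂ b * |trF κ (p₂ b) (q₂ b)| :=
    Finset.sum_nonneg fun b _ => mul_nonneg (hq₂ b) (abs_nonneg _)
  have d1 : 0 ≤ ∑ b, (√(p₁ b) - √(q₁ b)) ^ 2 := Finset.sum_nonneg fun b _ => sq_nonneg _
  have d2 : 0 ≤ ∑ b, q₂ b * mn (trF κ (p₂ b) (q₂ b)) :=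
    Finset.sum_nonneg fun b _ => mul_nonneg (hq₂ b) (mn_nonneg _)
  calc _ ≤ ∑ β : β₁ × β₂, ((q₁ β.1 * mn (trF κ (p₁ β.1) (q₁ β.1))) *
          (q₂ β.2 * |trF κ (p₂ β.2) (q₂ β.2)|) + (q₁ β.1 * |trF κ (p₁ β.1) (q₁ β.1)|) *
          (q₂ β.2 * mn (trF κ (p₂ β.2) (q₂ β.2)))) := by
        refine Finset.sum_le_sum fun β _ => ?_
        have := mul_le_mul_of_nonneg_left
          (mn_mul_le (trF κ (p₁ β.1) (q₁ β.1)) (trF κ (p₂ β.2) (q₂ β.2)))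
          (mul_nonneg (hq₁ β.1) (hq₂ β.2))
        linarith
    _ = (∑ b, q₁ b * mn (trF κ (p₁ b) (q₁ b))) * (∑ b, q₂ b * |trF κ (p₂ b) (q₂ b)|) +
          (∑ b, q₁ b * |trF κ (p₁ b) (q₁ b)|) * ∑ b, q₂ b * mn (trF κ (p₂ b) (q₂ b)) := by
        rw [Finset.sum_add_distrib,
          sum_prod_mul (fun b => q₁ b * mn (trF κ (p₁ b) (q₁ b)))
            (fun b => q₂ b * |trF κ (p₂ b) (q₂ b)|),
          sum_prod_mul (fun b => q₁ b * |trF κ (p₁ b) (q₁ b)|)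
            (fun b => q₂ b * mn (trF κ (p₂ b) (q₂ b)))]
    _ ≤ _ := by
        have e1 := mul_le_mul a1 b2 c2 (by positivity)
        have e2 := mul_le_mul b1 a2 d2 (by positivity)
        linarith

omit [Fintype ζ] in
/-- The bound at one value `z`. -/
theorem z_bound {κ : ℝ} (hκ : 2 ≤ κ) (p₁ q₁ : β₁ → ℝ) (p₂ q₂ : β₂ → ℝ) (K : β₁ × β₂ → ℝ)
    (hp₁ : ∀ b, 0 ≤ p₁ b) (hq₁ : ∀ b, 0 ≤ q₁ b) (hpq₁ : ∀ b, p₁ b ≠ 0 → 0 < q₁ b)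
    (hp₂ : ∀ b, 0 ≤ p₂ b) (hq₂ : ∀ b, 0 ≤ q₂ b) (hpq₂ : ∀ b, p₂ b ≠ 0 → 0 < q₂ b)
    (hK : ∀ β, 0 ≤ K β) {Y M Q₁ Q₂ : ℝ}
    (hY : Y = ∑ β : β₁ × β₂, tp κ (p₁ β.1) (q₁ β.1) * tp κ (p₂ β.2) (q₂ β.2) * K β)
    (hM : M = ∑ β : β₁ × β₂, q₁ β.1 * q₂ β.2 * K β)
    (hQ₁ : Q₁ = ∑ β : β₁ × β₂, p₁ β.1 * q₂ β.2 * K β)
    (hQ₂ : Q₂ = ∑ β : β₁ × β₂, q₁ β.1 * p₂ β.2 * K β) :
    0 ≤ Y ∧ Y ≤ Real.exp (2 * κ) * M ∧
    Y * Real.log (max (Y / M) (Real.exp (-1))) ≤ (Y - M) + 4 * κ * |Q₁ - M| + 4 * κ * |Q₂ - M| +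
      4 * κ * (∑ β : β₁ × β₂, q₁ β.1 * q₂ β.2 *
        mn (trF κ (p₁ β.1) (q₁ β.1) * trF κ (p₂ β.2) (q₂ β.2)) * K β) +
      6 * ((∑ β : β₁ × β₂, (p₁ β.1 - tp κ (p₁ β.1) (q₁ β.1)) * q₂ β.2 * K β) +
        ∑ β : β₁ × β₂, q₁ β.1 * (p₂ β.2 - tp κ (p₂ β.2) (q₂ β.2)) * K β) := by
  have hY0 : 0 ≤ Y := hY ▸ Finset.sum_nonneg fun β _ =>
    mul_nonneg (mul_nonneg (tp_nonneg (hp₁ _)) (tp_nonneg (hp₂ _))) (hK _)
  have hM0 : 0 ≤ M := hM ▸ Finset.sum_nonneg fun β _ =>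
    mul_nonneg (mul_nonneg (hq₁ _) (hq₂ _)) (hK _)
  have hYM : Y ≤ Real.exp (2 * κ) * M := by
    rw [hY, hM, Finset.mul_sum]
    refine Finset.sum_le_sum fun β _ => ?_
    have e1 : tp κ (p₁ β.1) (q₁ β.1) ≤ Real.exp κ * q₁ β.1 := trunc_le (hp₁ _) (hq₁ _) (hpq₁ _)
    have e2 : tp κ (p₂ β.2) (q₂ β.2) ≤ Real.exp κ * q₂ β.2 := trunc_le (hp₂ _) (hq₂ _) (hpq₂ _)
    have e3 := mul_le_mul e1 e2 (tp_nonneg (hp₂ _)) (mul_nonneg (Real.exp_pos _).le (hq₁ _))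
    have e4 := mul_le_mul_of_nonneg_right e3 (hK β)
    rw [two_mul, Real.exp_add]
    linarith
  refine ⟨hY0, hYM, ?_⟩
  set G := ∑ β : β₁ × β₂, q₁ β.1 * q₂ β.2 *
        mn (trF κ (p₁ β.1) (q₁ β.1) * trF κ (p₂ β.2) (q₂ β.2)) * K β with hG
  set U₁ := ∑ β : β₁ × β₂, (p₁ β.1 - tp κ (p₁ β.1) (q₁ β.1)) * q₂ β.2 * K β with hU₁
  set U₂ := ∑ β : β₁ × β₂, q₁ β.1 * (p₂ β.2 - tp κ (p₂ β.2) (q₂ β.2)) * K β with hU₂
  have hG0 : 0 ≤ G := Finset.sum_nonneg fun β _ =>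
    mul_nonneg (mul_nonneg (mul_nonneg (hq₁ _) (hq₂ _)) (mn_nonneg _)) (hK _)
  have hU10 : 0 ≤ U₁ := Finset.sum_nonneg fun β _ =>
    mul_nonneg (mul_nonneg (sub_nonneg.2 (tp_le (hp₁ _))) (hq₂ _)) (hK _)
  have hU20 : 0 ≤ U₂ := Finset.sum_nonneg fun β _ =>
    mul_nonneg (mul_nonneg (hq₁ _) (sub_nonneg.2 (tp_le (hp₂ _)))) (hK _)
  set W := ∑ β : β₁ × β₂, q₁ β.1 * q₂ β.2 *
        (trF κ (p₁ β.1) (q₁ β.1) * trF κ (p₂ β.2) (q₂ β.2)) * K β with hW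
  have hid : Y - M = (Q₁ - M) + (Q₂ - M) - U₁ - U₂ + W := by
    rw [hY, hM, hQ₁, hQ₂, hU₁, hU₂, hW]
    simp only [← Finset.sum_sub_distrib, ← Finset.sum_add_distrib]
    refine Finset.sum_congr rfl fun β _ => ?_
    have e1 : q₁ β.1 * trF κ (p₁ β.1) (q₁ β.1) = tp κ (p₁ β.1) (q₁ β.1) - q₁ β.1 :=
      q_mul_trF (hq₁ _) (hpq₁ _)
    have e2 : q₂ β.2 * trF κ (p₂ β.2) (q₂ β.2) = tp κ (p₂ β.2) (q₂ β.2) - q₂ β.2 :=
      q_mul_trF (hq₂ _) (hpq₂ _)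
    have e3 : q₁ β.1 * q₂ β.2 * (trF κ (p₁ β.1) (q₁ β.1) * trF κ (p₂ β.2) (q₂ β.2)) =
        (tp κ (p₁ β.1) (q₁ β.1) - q₁ β.1) * (tp κ (p₂ β.2) (q₂ β.2) - q₂ β.2) := by
      rw [← e1, ← e2]; ring
    rw [e3]; ring
  have hWl : ∀ l : ℝ, |l| ≤ 1 → 2 * l * W - l ^ 2 * M ≤ 2 * G := by
    intro l hl
    rw [hW, hM, hG]
    simp only [Finset.mul_sum, ← Finset.sum_sub_distrib]
    refine Finset.sum_le_sum fun β _ => ?_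
    have := mul_le_mul_of_nonneg_left
      (line_le_mn hl (trF κ (p₁ β.1) (q₁ β.1) * trF κ (p₂ β.2) (q₂ β.2)))
      (mul_nonneg (mul_nonneg (hq₁ β.1) (hq₂ β.2)) (hK β))
    linarith
  have habs : ∀ l x : ℝ, |l| ≤ 1 → l * x ≤ |x| := fun l x hl =>
    (le_abs_self _).trans (by rw [abs_mul]; exact mul_le_of_le_one_left (abs_nonneg _) hl)
  have key := zpart (A := 2 * |Q₁ - M| + 2 * |Q₂ - M| + 2 * G) (U := U₁ + U₂) hκ hM0 hY0 hYM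
    (by positivity) (by positivity) ?_ ?_
  · linarith
  · intro l hl h0
    have := hWl l hl
    have := habs l (Q₁ - M) hl
    have := habs l (Q₂ - M) hl
    rw [hid]
    nlinarith [mul_nonneg h0 hU10, mul_nonneg h0 hU20]
  · intro l hl
    have := hWl l hl
    have := habs l (Q₁ - M) hl
    have := habs l (Q₂ - M) hl
    have h1 : 0 ≤ 1 + l := by linarith [(abs_le.1 hl).1]
    rw [hid]
    nlinarith [mul_nonneg h1 hU10, mul_nonneg h1 hU20]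

theorem local_lemma {κ ρ : ℝ} (hκ : 2 ≤ κ) (hρ : 0 < ρ) (hρ' : ρ ≤ 1 / 4)
    (p₁ q₁ : β₁ → ℝ) (p₂ q₂ : β₂ → ℝ) (K : β₁ × β₂ → ζ → ℝ)
    (hp₁ : ∀ b, 0 ≤ p₁ b) (hq₁ : ∀ b, 0 ≤ q₁ b) (hpq₁ : ∀ b, p₁ b ≠ 0 → 0 < q₁ b)
    (sp₁ : ∑ b, p₁ b ≤ 1) (sq₁ : ∑ b, q₁ b ≤ 1)
    (hp₂ : ∀ b, 0 ≤ p₂ b) (hq₂ : ∀ b, 0 ≤ q₂ b) (hpq₂ : ∀ b, p₂ b ≠ 0 → 0 < q₂ b)
    (sp₂ : ∑ b, p₂ b ≤ 1) (sq₂ : ∑ b, q₂ b ≤ 1)
    (hK : ∀ β z, 0 ≤ K β z) (sK : ∀ β, ∑ z, K β z ≤ 1) (M Q₁ Q₂ : ζ → ℝ)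
    (hM : ∀ z, M z = ∑ β : β₁ × β₂, q₁ β.1 * q₂ β.2 * K β z)
    (hQ₁ : ∀ z, Q₁ z = ∑ β : β₁ × β₂, p₁ β.1 * q₂ β.2 * K β z)
    (hQ₂ : ∀ z, Q₂ z = ∑ β : β₁ × β₂, q₁ β.1 * p₂ β.2 * K β z) :
    ∃ N ℓ : β₁ × β₂ → ζ → ℝ, (∀ β z, 0 ≤ N β z) ∧ (∀ z, ∑ β, N β z ≤ M z) ∧
      (∀ β z, |ℓ β z| ≤ 2 * κ) ∧
      (∑ β, ∑ z, p₁ β.1 * p₂ β.2 * K β z * ℓ β z ≤ 1 - ∑ z, M z + 4 * κ * ∑ z, |Q₁ z - M z| +
        4 * κ * ∑ z, |Q₂ z - M z| +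
        6 * ((∑ b, p₁ b * if κ < Real.log (p₁ b / q₁ b) then 1 else 0) +
          ∑ b, p₂ b * if κ < Real.log (p₂ b / q₂ b) then 1 else 0) +
        72 * κ * ((∑ b, (√(p₁ b) - √(q₁ b)) ^ 2) * √((∑ b, (√(p₂ b) - √(q₂ b)) ^ 2) / 2) +
          √((∑ b, (√(p₁ b) - √(q₁ b)) ^ 2) / 2) * ∑ b, (√(p₂ b) - √(q₂ b)) ^ 2)) ∧
      ∀ β z, p₁ β.1 ≠ 0 → p₂ β.2 ≠ 0 → K β z ≠ 0 → 0 < N β z ∧
        Real.log (p₁ β.1 * p₂ β.2 * K β z / N β z) ≤ ℓ β z + 4 * ρ +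
          (if κ < Real.log (p₁ β.1 / q₁ β.1) then 1 else 0) *
            (Real.log (p₂ β.2 / q₂ β.2) + Real.log (Q₁ z / M z) + Real.log (1 / ρ)) +
          (if κ < Real.log (p₂ β.2 / q₂ β.2) ∧ ¬ κ < Real.log (p₁ β.1 / q₁ β.1) then 1 else 0) *
            (Real.log (p₁ β.1 / q₁ β.1) + Real.log (Q₂ z / M z) + Real.log (1 / ρ)) := by
  obtain ⟨Y, hY⟩ : ∃ Y : ζ → ℝ, ∀ z, Y z =
      ∑ β : β₁ × β₂, tp κ (p₁ β.1) (q₁ β.1) * tp κ (p₂ β.2) (q₂ β.2) * K β z := ⟨_, fun _ => rfl⟩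
  have hz := fun z => z_bound hκ p₁ q₁ p₂ q₂ (fun β => K β z) hp₁ hq₁ hpq₁ hp₂ hq₂ hpq₂
    (fun β => hK β z) (hY z) (hM z) (hQ₁ z) (hQ₂ z)
  obtain ⟨Z, hZ⟩ : ∃ Z : ζ → ℝ, ∀ z, Z z = max (Y z / M z) (Real.exp (-1)) := ⟨_, fun _ => rfl⟩
  have hZ0 : ∀ z, 0 < Z z := fun z => hZ z ▸ lt_max_of_lt_right (Real.exp_pos _)
  have hM0 : ∀ z, 0 ≤ M z := fun z => hM z ▸ Finset.sum_nonneg fun β _ =>
    mul_nonneg (mul_nonneg (hq₁ _) (hq₂ _)) (hK _ _)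
  have hQ10 : ∀ z, 0 ≤ Q₁ z := fun z => hQ₁ z ▸ Finset.sum_nonneg fun β _ =>
    mul_nonneg (mul_nonneg (hp₁ _) (hq₂ _)) (hK _ _)
  have hQ20 : ∀ z, 0 ≤ Q₂ z := fun z => hQ₂ z ▸ Finset.sum_nonneg fun β _ =>
    mul_nonneg (mul_nonneg (hq₁ _) (hp₂ _)) (hK _ _)
  have hρ2 : 0 < 1 - 2 * ρ := by linarith
  have n0 : ∀ β z, 0 ≤ (1 - 2 * ρ) * (tp κ (p₁ β.1) (q₁ β.1) * tp κ (p₂ β.2) (q₂ β.2) * K β z / Z z) :=
    fun β z => mul_nonneg hρ2.le (div_nonneg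
      (mul_nonneg (mul_nonneg (tp_nonneg (hp₁ _)) (tp_nonneg (hp₂ _))) (hK _ _)) (hZ0 z).le)
  have n1 : ∀ β z, 0 ≤ ρ * (p₁ β.1 * q₂ β.2 * K β z * (M z / Q₁ z)) := fun β z =>
    mul_nonneg hρ.le (mul_nonneg (mul_nonneg (mul_nonneg (hp₁ _) (hq₂ _)) (hK _ _))
      (div_nonneg (hM0 z) (hQ10 z)))
  have n2 : ∀ β z, 0 ≤ ρ * (q₁ β.1 * p₂ β.2 * K β z * (M z / Q₂ z)) := fun β z =>
    mul_nonneg hρ.le (mul_nonneg (mul_nonneg (mul_nonneg (hq₁ _) (hp₂ _)) (hK _ _))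
      (div_nonneg (hM0 z) (hQ20 z)))
  refine ⟨fun β z => (1 - 2 * ρ) * (tp κ (p₁ β.1) (q₁ β.1) * tp κ (p₂ β.2) (q₂ β.2) * K β z / Z z) +
      ρ * (p₁ β.1 * q₂ β.2 * K β z * (M z / Q₁ z)) + ρ * (q₁ β.1 * p₂ β.2 * K β z * (M z / Q₂ z)),
    fun β z => if κ < Real.log (p₁ β.1 / q₁ β.1) ∨ κ < Real.log (p₂ β.2 / q₂ β.2) then 0
      else Real.log (Z z), fun β z => add_nonneg (add_nonneg (n0 β z) (n1 β z)) (n2 β z),
      fun z => ?_, fun β z => ?_, ?_, fun β z h1 h2 h3 => ?_⟩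
  · simp only [Finset.sum_add_distrib, ← Finset.mul_sum, ← Finset.sum_mul, ← Finset.sum_div,
      ← hY, ← hQ₁, ← hQ₂]
    have e0 : Y z / Z z ≤ M z := by
      rw [div_le_iff₀ (hZ0 z)]
      rcases (hM0 z).eq_or_lt with h | h
      · have := (hz z).2.1
        rw [← h] at this ⊢
        linarith
      · have : Y z / M z ≤ Z z := hZ z ▸ le_max_left _ _
        rw [div_le_iff₀ h] at this
        linarith
    have e1 : ∀ Q : ℝ, Q * (M z / Q) ≤ M z := by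
      intro Q
      by_cases h : Q = 0
      · rw [h, zero_mul]; exact hM0 z
      · rw [mul_div_cancel₀ _ h]
    nlinarith [e1 (Q₁ z), e1 (Q₂ z)]
  · dsimp only
    split_ifs
    · rw [abs_zero]; linarith
    · rw [abs_le]
      constructor
      · have : Real.exp (-1) ≤ Z z := hZ z ▸ le_max_right _ _
        have := (Real.le_log_iff_exp_le (hZ0 z)).2 this
        linarith
      · rw [Real.log_le_iff_le_exp (hZ0 z), hZ]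
        refine max_le ?_ (Real.exp_le_exp.2 (by linarith))
        rcases (hM0 z).eq_or_lt with h | h
        · rw [← h, div_zero]; exact (Real.exp_pos _).le
        · rw [div_le_iff₀ h]; exact (hz z).2.1
  · rw [Finset.sum_comm]
    have e1 : ∀ z, ∑ β : β₁ × β₂, p₁ β.1 * p₂ β.2 * K β z *
        (if κ < Real.log (p₁ β.1 / q₁ β.1) ∨ κ < Real.log (p₂ β.2 / q₂ β.2) then 0
          else Real.log (Z z)) = Y z * Real.log (Z z) := by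
      intro z
      rw [hY, Finset.sum_mul]
      refine Finset.sum_congr rfl fun β _ => ?_
      unfold tp
      by_cases c1 : κ < Real.log (p₁ β.1 / q₁ β.1) <;>
        by_cases c2 : κ < Real.log (p₂ β.2 / q₂ β.2) <;> simp [c1, c2]
    simp only [e1]
    have e2 := Finset.sum_le_sum (s := univ) fun z _ => (hz z).2.2
    simp only [← hZ, Finset.sum_add_distrib, Finset.sum_sub_distrib, ← Finset.mul_sum] at e2
    have f0 : ∑ z, Y z ≤ 1 := by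
      simp only [hY]
      refine (sum_K_le _ (fun β => mul_nonneg (tp_nonneg (hp₁ _)) (tp_nonneg (hp₂ _))) K sK).trans ?_
      rw [sum_prod_mul (fun b => tp κ (p₁ b) (q₁ b)) (fun b => tp κ (p₂ b) (q₂ b))]
      exact mul_le_one₀ ((Finset.sum_le_sum fun b _ => tp_le (hp₁ b)).trans sp₁)
        (Finset.sum_nonneg fun b _ => tp_nonneg (hp₂ b))
        ((Finset.sum_le_sum fun b _ => tp_le (hp₂ b)).trans sp₂)
    have f1 := (sum_K_le (fun β : β₁ × β₂ => q₁ β.1 * q₂ β.2 *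
        mn (trF κ (p₁ β.1) (q₁ β.1) * trF κ (p₂ β.2) (q₂ β.2)))
        (fun β => mul_nonneg (mul_nonneg (hq₁ _) (hq₂ _)) (mn_nonneg _)) K sK).trans
        (G_bound hκ p₁ q₁ p₂ q₂ hp₁ hq₁ hpq₁ sp₁ sq₁ hp₂ hq₂ hpq₂ sp₂ sq₂)
    have g : ∀ p q : ℝ, p - tp κ p q = p * if κ < Real.log (p / q) then 1 else 0 := by
      intro p q; unfold tp; split_ifs <;> simp
    have f2 : ∑ z, ∑ β : β₁ × β₂, (p₁ β.1 - tp κ (p₁ β.1) (q₁ β.1)) * q₂ β.2 * K β z ≤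
        ∑ b, p₁ b * if κ < Real.log (p₁ b / q₁ b) then 1 else 0 := by
      refine (sum_K_le _ (fun β => mul_nonneg (sub_nonneg.2 (tp_le (hp₁ _))) (hq₂ _)) K sK).trans ?_
      rw [sum_prod_mul (fun b => p₁ b - tp κ (p₁ b) (q₁ b)) q₂]
      simp only [← g]
      exact mul_le_of_le_one_right
        (Finset.sum_nonneg fun b _ => sub_nonneg.2 (tp_le (hp₁ _))) sq₂
    have f3 : ∑ z, ∑ β : β₁ × β₂, q₁ β.1 * (p₂ β.2 - tp κ (p₂ β.2) (q₂ β.2)) * K β z ≤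
        ∑ b, p₂ b * if κ < Real.log (p₂ b / q₂ b) then 1 else 0 := by
      refine (sum_K_le _ (fun β => mul_nonneg (hq₁ _) (sub_nonneg.2 (tp_le (hp₂ _)))) K sK).trans ?_
      rw [sum_prod_mul q₁ (fun b => p₂ b - tp κ (p₂ b) (q₂ b))]
      simp only [← g]
      exact mul_le_of_le_one_left
        (Finset.sum_nonneg fun b _ => sub_nonneg.2 (tp_le (hp₂ _))) sq₁
    have f4 := mul_le_mul_of_nonneg_left f1 (show 0 ≤ 4 * κ by linarith)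
    linarith
  · have a1 : 0 < p₁ β.1 := lt_of_le_of_ne (hp₁ _) (Ne.symm h1)
    have a2 : 0 < p₂ β.2 := lt_of_le_of_ne (hp₂ _) (Ne.symm h2)
    have a3 : 0 < K β z := lt_of_le_of_ne (hK _ _) (Ne.symm h3)
    have b1 := hpq₁ _ h1
    have b2 := hpq₂ _ h2
    have hMp : 0 < M z := by
      rw [hM]
      exact lt_of_lt_of_le (by positivity) (Finset.single_le_sum
        (f := fun β : β₁ × β₂ => q₁ β.1 * q₂ β.2 * K β z)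
        (fun β _ => mul_nonneg (mul_nonneg (hq₁ _) (hq₂ _)) (hK _ _)) (Finset.mem_univ β))
    have hQ1p : 0 < Q₁ z := by
      rw [hQ₁]
      exact lt_of_lt_of_le (by positivity) (Finset.single_le_sum
        (f := fun β : β₁ × β₂ => p₁ β.1 * q₂ β.2 * K β z)
        (fun β _ => mul_nonneg (mul_nonneg (hp₁ _) (hq₂ _)) (hK _ _)) (Finset.mem_univ β))
    have hQ2p : 0 < Q₂ z := by
      rw [hQ₂]
      exact lt_of_lt_of_le (by positivity) (Finset.single_le_sum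
        (f := fun β : β₁ × β₂ => q₁ β.1 * p₂ β.2 * K β z)
        (fun β _ => mul_nonneg (mul_nonneg (hq₁ _) (hp₂ _)) (hK _ _)) (Finset.mem_univ β))
    have m0 := n0 β z
    have m1 : 0 < ρ * (p₁ β.1 * q₂ β.2 * K β z * (M z / Q₁ z)) := by positivity
    have m2 : 0 < ρ * (q₁ β.1 * p₂ β.2 * K β z * (M z / Q₂ z)) := by positivity
    refine ⟨by linarith, ?_⟩
    have hS : 0 < p₁ β.1 * p₂ β.2 * K β z := by positivity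
    have mono : ∀ x y : ℝ, 0 < x → x ≤ y → Real.log (p₁ β.1 * p₂ β.2 * K β z / y) ≤
        Real.log (p₁ β.1 * p₂ β.2 * K β z / x) := fun x y hx hxy =>
      Real.log_le_log (div_pos hS (lt_of_lt_of_le hx hxy)) (div_le_div_of_nonneg_left hS.le hx hxy)
    dsimp only
    by_cases c1 : κ < Real.log (p₁ β.1 / q₁ β.1)
    · refine (mono _ _ m1 (by linarith)).trans ?_
      have : p₁ β.1 * p₂ β.2 * K β z / (ρ * (p₁ β.1 * q₂ β.2 * K β z * (M z / Q₁ z))) =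
          p₂ β.2 / q₂ β.2 * (Q₁ z / M z) * (1 / ρ) := by field_simp
      rw [this, Real.log_mul (by positivity) (by positivity),
        Real.log_mul (by positivity) (by positivity)]
      simp only [c1, true_or, if_true, not_true_eq_false, and_false, if_false]
      linarith
    · by_cases c2 : κ < Real.log (p₂ β.2 / q₂ β.2)
      · refine (mono _ _ m2 (by linarith)).trans ?_
        have : p₁ β.1 * p₂ β.2 * K β z / (ρ * (q₁ β.1 * p₂ β.2 * K β z * (M z / Q₂ z))) =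
            p₁ β.1 / q₁ β.1 * (Q₂ z / M z) * (1 / ρ) := by field_simp
        rw [this, Real.log_mul (by positivity) (by positivity),
          Real.log_mul (by positivity) (by positivity)]
        simp only [c1, c2, or_true, if_true, not_false_eq_true, and_true, if_false]
        linarith
      · have t1 : tp κ (p₁ β.1) (q₁ β.1) = p₁ β.1 := if_neg c1
        have t2 : tp κ (p₂ β.2) (q₂ β.2) = p₂ β.2 := if_neg c2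
        have hz0 := hZ0 z
        rw [t1, t2] at m0 ⊢
        refine (mono ((1 - 2 * ρ) * (p₁ β.1 * p₂ β.2 * K β z / Z z)) _ (by positivity)
          (by linarith)).trans ?_
        have : p₁ β.1 * p₂ β.2 * K β z / ((1 - 2 * ρ) * (p₁ β.1 * p₂ β.2 * K β z / Z z)) =
            Z z * (1 / (1 - 2 * ρ)) := by field_simp
        rw [this, Real.log_mul (by positivity) (by positivity)]
        simp only [c1, c2, or_false, false_and, if_false]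
        have l1 := Real.log_le_sub_one_of_pos (show 0 < 1 / (1 - 2 * ρ) by positivity)
        have l2 : 1 / (1 - 2 * ρ) ≤ 1 + 4 * ρ := by
          rw [div_le_iff₀ hρ2]; nlinarith
        linarith

end

end Pool.Agent.Lib.MP_a7c6c3_lc.CellAux
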