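import Mathlib

/-! Scalar inequalities for the cell lemma. -/

set_option autoImplicit false
open Finset

namespace Pool.Agent.Lib.MP_a7c6c3_lc.CellAux

theorem plog {p Z : ℝ} (hp : 0 ≤ p) (hZ : p ≠ 0 → 0 < Z) : p * Real.log Z ≤ p * Z - p := by
  by_cases h : p = 0
  · simp [h]
  · have := Real.log_le_sub_one_of_pos (hZ h)
    nlinarith

theorem plog_rho {p Z ρ : ℝ} (hp : 0 ≤ p) (hZ : p ≠ 0 → 0 < Z) (hρ : 0 < ρ) :
    p * Real.log Z ≤ ρ * (p * Z) + p * Real.log (1 / ρ) := by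
  by_cases h : p = 0
  · simp [h]
  · have h1 := Real.log_le_sub_one_of_pos (mul_pos hρ (hZ h))
    rw [Real.log_mul hρ.ne' (hZ h).ne'] at h1
    rw [one_div, Real.log_inv]
    nlinarith

theorem hel_le_kl {p q : ℝ} (hp : 0 ≤ p) (hq : 0 ≤ q) (hpq : p ≠ 0 → 0 < q) :
    (√p - √q) ^ 2 ≤ p * Real.log (p / q) - p + q := by
  by_cases h : p = 0
  · simp [h, Real.sq_sqrt hq]
  · have hp' : 0 < p := lt_of_le_of_ne hp (Ne.symm h)
    have hq' := hpq h
    have hsp := Real.sqrt_pos.2 hp'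
    have hsq := Real.sqrt_pos.2 hq'
    have e1 : Real.log (p / q) = -2 * Real.log (√q / √p) := by
      rw [Real.log_div hp'.ne' hq'.ne', Real.log_div hsq.ne' hsp.ne', Real.log_sqrt hp,
        Real.log_sqrt hq]
      ring
    have e2 := Real.log_le_sub_one_of_pos (div_pos hsq hsp)
    have e3 : p * (√q / √p) = √p * √q := by
      field_simp
      rw [Real.sq_sqrt hp]
    have e4 : (√p - √q) ^ 2 = p + q - 2 * (√p * √q) := by
      have := Real.sq_sqrt hp
      have := Real.sq_sqrt hq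
      nlinarith
    rw [e1, e4]
    nlinarith [mul_le_mul_of_nonneg_left e2 hp]

theorem abs_sub_le_hel {p q θ : ℝ} (hp : 0 ≤ p) (hq : 0 ≤ q) (hθ : 0 < θ) :
    |p - q| ≤ (√p - √q) ^ 2 / θ + θ * (p + q) / 2 := by
  have h1 := Real.sq_sqrt hp
  have h2 := Real.sq_sqrt hq
  have h3 := Real.sqrt_nonneg p
  have h4 := Real.sqrt_nonneg q
  set x := √p
  set y := √q
  have e : p - q = (x - y) * (x + y) := by nlinarith
  rw [e, abs_mul, abs_of_nonneg (add_nonneg h3 h4)]
  have h5 : (x - y) ^ 2 = |x - y| ^ 2 := (sq_abs _).symm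
  rw [h5]
  set d := |x - y|
  have h6 : (x + y) ^ 2 ≤ 2 * (p + q) := by nlinarith [sq_nonneg (x - y)]
  have h7 : d * (x + y) ≤ d ^ 2 / θ + θ * (x + y) ^ 2 / 4 := by
    have : d ^ 2 / θ + θ * (x + y) ^ 2 / 4 - d * (x + y) = (d - θ * (x + y) / 2) ^ 2 / θ := by
      field_simp
      ring
    have h8 : 0 ≤ (d - θ * (x + y) / 2) ^ 2 / θ := by positivity
    linarith
  nlinarith

theorem abs_sub_le_kl {p q θ : ℝ} (hp : 0 ≤ p) (hq : 0 ≤ q) (hpq : p ≠ 0 → 0 < q) (hθ : 0 < θ) :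
    |p - q| ≤ (p * Real.log (p / q) - p + q) / θ + θ * (p + q) / 2 := by
  have h1 := abs_sub_le_hel hp hq hθ
  have h2 := div_le_div_of_nonneg_right (hel_le_kl hp hq hpq) hθ.le
  linarith

/-- The bound for `u * log (max u e⁻¹)` through a supporting line of the Huber function. -/
theorem lam_bound {u κ : ℝ} (hu : 0 ≤ u) (hκ : 1 ≤ κ) (hu2 : u ≤ Real.exp (2 * κ)) :
    ∃ l : ℝ, |l| ≤ 1 ∧
      ((0 ≤ l ∧ u * Real.log (max u (Real.exp (-1))) - (u - 1) ≤ 2 * κ * (2 * l * (u - 1) - l ^ 2)) ∨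
       (l ≤ 0 ∧ u * Real.log (max u (Real.exp (-1))) - (u - 1) ≤ 3 * (2 * l * (u - 1) - l ^ 2))) := by
  have he : Real.exp (-1) ≤ 1 := Real.exp_le_one_iff.2 (by norm_num)
  rcases le_total 1 u with h1 | h1
  · rw [max_eq_left (he.trans h1)]
    have hl1 := Real.log_le_sub_one_of_pos (lt_of_lt_of_le one_pos h1)
    have hl2 : Real.log u ≤ 2 * κ := by
      rw [Real.log_le_iff_le_exp (lt_of_lt_of_le one_pos h1)]; exact hu2
    have hl0 := Real.log_nonneg h1
    rcases le_total u 2 with h2 | h2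
    · refine ⟨u - 1, by rw [abs_le]; constructor <;> linarith, Or.inl ⟨by linarith, ?_⟩⟩
      have : u * Real.log u - (u - 1) ≤ (u - 1) ^ 2 := by nlinarith
      nlinarith [sq_nonneg (u - 1)]
    · refine ⟨1, by norm_num, Or.inl ⟨by norm_num, ?_⟩⟩
      have : u * Real.log u - (u - 1) ≤ (u - 1) * (2 * κ) := by nlinarith
      nlinarith
  · refine ⟨u - 1, by rw [abs_le]; constructor <;> linarith, Or.inr ⟨by linarith, ?_⟩⟩
    rcases le_total u (Real.exp (-1)) with h2 | h2
    · rw [max_eq_right h2, Real.log_exp]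
      nlinarith [sq_nonneg (u - 2 / 3)]
    · rw [max_eq_left h2]
      have hl1 := Real.log_le_sub_one_of_pos (lt_of_lt_of_le (Real.exp_pos _) h2)
      nlinarith [sq_nonneg (u - 1)]

/-- `min |v| v²`. -/
noncomputable def mn (v : ℝ) : ℝ := min |v| (v ^ 2)

theorem mn_nonneg (v : ℝ) : 0 ≤ mn v := le_min (abs_nonneg v) (sq_nonneg v)

theorem line_le_mn {l : ℝ} (hl : |l| ≤ 1) (v : ℝ) : 2 * l * v - l ^ 2 ≤ 2 * mn v := by
  unfold mn
  have h1 : l * v ≤ |v| := by
    calc l * v ≤ |l * v| := le_abs_self _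
      _ = |l| * |v| := abs_mul _ _
      _ ≤ 1 * |v| := by gcongr
      _ = |v| := one_mul _
  rcases min_cases |v| (v ^ 2) with h | h <;> rw [h.1] <;> nlinarith [sq_nonneg l, sq_nonneg (l - v), sq_nonneg v]

theorem mn_mul_le (f g : ℝ) : mn (f * g) ≤ mn f * |g| + |f| * mn g := by
  have hf := abs_nonneg f
  have hg := abs_nonneg g
  have h1 : mn (f * g) ≤ |f| * |g| := (min_le_left _ _).trans (abs_mul f g).le
  have h2 : mn (f * g) ≤ |f| ^ 2 * |g| ^ 2 := (min_le_right _ _).trans (by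
    rw [sq_abs, sq_abs]; nlinarith)
  have ef : mn f = min |f| (|f| ^ 2) := by rw [sq_abs]; rfl
  have eg : mn g = min |g| (|g| ^ 2) := by rw [sq_abs]; rfl
  have hmf := mn_nonneg f
  have hmg := mn_nonneg g
  rcases le_total 1 |f| with a | a
  · have : mn f = |f| := by rw [ef]; exact min_eq_left (by nlinarith)
    rw [this]; nlinarith [mul_nonneg hf hmg]
  · rcases le_total 1 |g| with b | b
    · have : mn g = |g| := by rw [eg]; exact min_eq_left (by nlinarith)
      rw [this]; nlinarith [mul_nonneg hmf hg]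
    · have : mn f = |f| ^ 2 := by rw [ef]; exact min_eq_right (by nlinarith)
      rw [this]
      have : |f| ^ 2 * |g| ^ 2 ≤ |f| ^ 2 * |g| := by
        apply mul_le_mul_of_nonneg_left _ (sq_nonneg _); nlinarith
      nlinarith [mul_nonneg hf hmg]

/-- The truncated relative deviation. -/
noncomputable def trF (κ p q : ℝ) : ℝ := (if κ < Real.log (p / q) then 0 else p / q) - 1

theorem q_mul_trF {κ p q : ℝ} (hq : 0 ≤ q) (hpq : p ≠ 0 → 0 < q) :
    q * trF κ p q = (if κ < Real.log (p / q) then 0 else p) - q := by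
  unfold trF
  split_ifs
  · ring
  · rcases hq.eq_or_lt with h | h
    · by_cases hp : p = 0
      · simp [hp]
      · exact absurd (hpq hp) (by rw [← h]; exact lt_irrefl _)
    · field_simp

theorem q_mul_mn_trF {κ p q : ℝ} (hκ : 2 ≤ κ) (hp : 0 ≤ p) (hq : 0 ≤ q) :
    q * mn (trF κ p q) ≤ 6 * (√p - √q) ^ 2 := by
  rcases hq.eq_or_lt with h | h
  · rw [← h, zero_mul]; positivity
  · have hr : 0 ≤ p / q := div_nonneg hp hq
    have e : (√p - √q) ^ 2 = q * (√(p / q) - 1) ^ 2 := by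
      rw [Real.sqrt_div hp]
      have hs := Real.sqrt_pos.2 h
      have := Real.sq_sqrt hq
      field_simp
      rw [this]
      ring
    rw [e]
    have h1 := Real.sq_sqrt hr
    have h2 := Real.sqrt_nonneg (p / q)
    set x := √(p / q)
    suffices hh : mn (trF κ p q) ≤ 6 * (x - 1) ^ 2 by nlinarith
    unfold trF
    split_ifs with hc
    · have hpos : 0 < p / q := by
        rcases hr.eq_or_lt with h0 | h0
        · rw [← h0, Real.log_zero] at hc; linarith
        · exact h0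
      have h3 : Real.exp 2 ≤ p / q := by
        rw [← Real.le_log_iff_exp_le hpos]; linarith
      have h4 : (4 : ℝ) ≤ Real.exp 2 := by
        have := Real.add_one_le_exp (1 : ℝ)
        have e2 : Real.exp 2 = Real.exp 1 * Real.exp 1 := by rw [← Real.exp_add]; norm_num
        nlinarith
      have h5 : 2 ≤ x := by nlinarith
      have : mn (0 - 1) ≤ 1 := (min_le_left _ _).trans (by norm_num)
      nlinarith
    · rw [← h1]
      rcases le_total (x ^ 2) 2 with h3 | h3
      · have : mn (x ^ 2 - 1) ≤ (x ^ 2 - 1) ^ 2 := min_le_right _ _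
        have h4 : (x + 1) ^ 2 ≤ 6 := by nlinarith [sq_nonneg (x - 1)]
        have h5 : (x ^ 2 - 1) ^ 2 = (x - 1) ^ 2 * (x + 1) ^ 2 := by ring
        nlinarith [sq_nonneg (x - 1)]
      · have : mn (x ^ 2 - 1) ≤ x ^ 2 - 1 :=
          (min_le_left _ _).trans (abs_of_nonneg (by linarith)).le
        have h4 : 7 / 5 ≤ x := by nlinarith
        nlinarith

theorem q_mul_abs_trF {κ p q : ℝ} (hκ : 2 ≤ κ) (hp : 0 ≤ p) (hq : 0 ≤ q) (hpq : p ≠ 0 → 0 < q) :
    q * |trF κ p q| ≤ |p - q| := by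
  rw [← abs_of_nonneg hq, ← abs_mul, abs_of_nonneg hq, q_mul_trF hq hpq]
  split_ifs with hc
  · have hr : 0 ≤ p / q := div_nonneg hp hq
    have hpos : 0 < p / q := by
      rcases hr.eq_or_lt with h0 | h0
      · rw [← h0, Real.log_zero] at hc; linarith
      · exact h0
    have h3 : Real.exp 2 ≤ p / q := by
      rw [← Real.le_log_iff_exp_le hpos]; linarith
    have h4 := Real.add_one_le_exp (2 : ℝ)
    have hq' : 0 < q := by
      rcases hq.eq_or_lt with h | h
      · rw [← h, div_zero] at hpos; exact absurd hpos (lt_irrefl _)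
      · exact h
    have h5 : 3 * q ≤ p := by
      have : 3 ≤ p / q := by linarith
      rwa [le_div_iff₀ hq'] at this
    rw [zero_sub, abs_neg, abs_of_nonneg hq, abs_of_nonneg (by linarith)]
    linarith
  · exact le_rfl

theorem trunc_le {κ p q : ℝ} (hp : 0 ≤ p) (hq : 0 ≤ q) (hpq : p ≠ 0 → 0 < q) :
    (if κ < Real.log (p / q) then 0 else p) ≤ Real.exp κ * q := by
  split_ifs with hc
  · positivity
  · by_cases h : p = 0
    · rw [h]; positivity
    · have hq' := hpq h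
      have hp' : 0 < p := lt_of_le_of_ne hp (Ne.symm h)
      have := (Real.log_le_iff_le_exp (div_pos hp' hq')).1 (not_lt.1 hc)
      rwa [div_le_iff₀ hq'] at this

/-- `∑ |p - q| ≤ 2 √hel`, in the form needed. -/
theorem sum_abs_le_sqrt {ι : Type} [Fintype ι] (p q : ι → ℝ) (hp : ∀ i, 0 ≤ p i)
    (hq : ∀ i, 0 ≤ q i) (sp : ∑ i, p i ≤ 1) (sq : ∑ i, q i ≤ 1) :
    ∑ i, |p i - q i| ≤ 3 * √((∑ i, (√(p i) - √(q i)) ^ 2) / 2) := by
  set h := ∑ i, (√(p i) - √(q i)) ^ 2 with hh
  have h0 : 0 ≤ h := Finset.sum_nonneg fun i _ => sq_nonneg _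
  have key : ∀ θ : ℝ, 0 < θ → ∑ i, |p i - q i| ≤ h / θ + θ := by
    intro θ hθ
    calc ∑ i, |p i - q i| ≤ ∑ i, ((√(p i) - √(q i)) ^ 2 / θ + θ * (p i + q i) / 2) :=
          Finset.sum_le_sum fun i _ => abs_sub_le_hel (hp i) (hq i) hθ
      _ = h / θ + θ * (∑ i, p i + ∑ i, q i) / 2 := by
          rw [Finset.sum_add_distrib, ← Finset.sum_div, ← Finset.sum_div, ← Finset.mul_sum,
            Finset.sum_add_distrib]
      _ ≤ h / θ + θ := by nlinarith
  rcases h0.eq_or_lt with h1 | h1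
  · rw [← h1]
    simp only [zero_div, Real.sqrt_zero, mul_zero]
    refine le_of_forall_pos_le_add fun θ hθ => ?_
    have := key θ hθ
    rw [← h1] at this
    simpa using this
  · have hs : 0 < √(h / 2) := Real.sqrt_pos.2 (by linarith)
    have h2 := Real.sq_sqrt (show 0 ≤ h / 2 by linarith)
    have := key _ hs
    have e : h / √(h / 2) = 2 * √(h / 2) := by
      field_simp
      linarith
    linarith

end Pool.Agent.Lib.MP_a7c6c3_lc.CellAux
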