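import Pool.Agent.Lib.MP_a7c6c3_lc.Design2

/-! Module `Design3`: amortisation lemmas (telescoping and the score trick). -/

set_option autoImplicit false
open Finset
open scoped BigOperators

namespace Pool.Agent.Lib.MP_a7c6c3_lc

variable {ι : Type} [Fintype ι] [DecidableEq ι] {q L : ℕ}

namespace D3

lemma tele (u : ℕ → ℝ) {m n : ℕ} (h : m ≤ n) :
    ∑ i ∈ Ico m n, (u (i + 1) - u i) = u n - u m := by
  induction n, h using Nat.le_induction with
  | base => simp
  | succ n h ih => rw [sum_Ico_succ_top h, ih]; ring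

lemma abs_exp_le {α : Type} {s : Finset α} {f : α → ℝ} {M : ℝ} (hM : 0 ≤ M)
    (h : ∀ a ∈ s, |f a| ≤ M) : |𝔼 a ∈ s, f a| ≤ M := by
  rcases s.eq_empty_or_nonempty with rfl | hs
  · simpa using hM
  · exact (abs_expect_le _ _).trans (expect_le hs h)

omit [Fintype ι] [DecidableEq ι] in
lemma pc_ne {i : ℕ} {C : Finset ι} (h : i ≤ C.card) : (powersetCard i C).Nonempty :=
  powersetCard_nonempty.2 h

omit [DecidableEq ι] in
lemma lev_mem {f : Finset ι → ℝ} {lo hi : ℝ} (hf : ∀ X, lo ≤ f X ∧ f X ≤ hi) {i : ℕ}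
    (hi' : i ≤ Fintype.card ι) : lo ≤ lev f i ∧ lev f i ≤ hi :=
  ⟨le_expect (pc_ne (by simpa using hi')) fun X _ => (hf X).1,
    expect_le (pc_ne (by simpa using hi')) fun X _ => (hf X).2⟩

/-- one level of the telescope -/
lemma step_lev (f : Finset ι → ℝ) {i : ℕ} (hi : i < Fintype.card ι) :
    𝔼 a : ι, 𝔼 X ∈ powersetCard i (univ.erase a), (f (insert a X) - f X) =
      lev f (i + 1) - lev f i := by
  simp only [expect_sub_distrib]
  rw [expect_insert_eq_lev f hi, expect_erase_eq_lev f hi]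

lemma col_eq (hq : 0 < q) (hι : Fintype.card ι = 8 * q) (f : Finset ι → ℝ) :
    (𝔼 b : ι, colAv q b fun T => f (insert b T) - f T) = (lev f (2 * q) - lev f q) / q := by
  unfold colAv
  rw [expect_comm, expect_congr rfl fun i hi => step_lev f (by
    have := (mem_Ico.1 hi).2; omega), expect_eq_sum_div_card, tele (lev f) (by omega)]
  congr 2
  rw [Nat.card_Ico]; omega

/-- flipping one element -/
def flipE (d : ι) : Equiv.Perm (Finset ι) :=
  Function.Involutive.toPerm (fun Z => symmDiff Z {d}) fun _ => symmDiff_symmDiff_cancel_right _ _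

omit [Fintype ι] in
lemma mem_flipE (d x : ι) (Z : Finset ι) :
    x ∈ flipE d Z ↔ (x ∈ Z ∧ x ≠ d) ∨ (x = d ∧ x ∉ Z) := by
  simp [flipE, mem_symmDiff]

lemma exp_flip (d : ι) (g : Finset ι → ℝ) : 𝔼 Z : Finset ι, g (flipE d Z) = 𝔼 Z, g Z :=
  Fintype.expect_equiv (flipE d) _ _ fun _ => rfl

lemma thin_step (f : Finset ι → ℝ) {a : ι} {X : Finset ι} (ha : a ∉ X) :
    𝔼 Z : Finset ι, (f (insert a (X ∩ Z)) - f (X ∩ Z)) =
      2 * ((𝔼 Z : Finset ι, f (insert a X ∩ Z)) - 𝔼 Z : Finset ι, f (X ∩ Z)) := by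
  have h1 := exp_flip a fun Z => f (insert a X ∩ Z)
  have h2 : ∀ Z : Finset ι, f (insert a (X ∩ Z)) - f (X ∩ Z) =
      f (insert a X ∩ Z) + f (insert a X ∩ flipE a Z) - 2 * f (X ∩ Z) := by
    intro Z
    by_cases hZ : a ∈ Z
    · have e1 : insert a X ∩ Z = insert a (X ∩ Z) := by
        ext x; simp only [mem_inter, mem_insert]; aesop
      have e2 : insert a X ∩ flipE a Z = X ∩ Z := by
        ext x; simp only [mem_inter, mem_insert, mem_flipE]; aesop
      rw [e1, e2]; ring
    · have e1 : insert a X ∩ Z = X ∩ Z := by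
        ext x; simp only [mem_inter, mem_insert]; aesop
      have e2 : insert a X ∩ flipE a Z = insert a (X ∩ Z) := by
        ext x; simp only [mem_inter, mem_insert, mem_flipE]; aesop
      rw [e1, e2]; ring
  simp only [h2, expect_sub_distrib, expect_add_distrib, ← mul_expect, h1]
  ring

lemma row_eq (hq : 0 < q) (hι : Fintype.card ι = 8 * q) (f : Finset ι → ℝ) :
    (𝔼 a : ι, rowAv q a fun X => f (insert a X) - f X) =
      (lev (fun X => 𝔼 Z : Finset ι, f (X ∩ Z)) (7 * q) -
        lev (fun X => 𝔼 Z : Finset ι, f (X ∩ Z)) (5 * q)) / q := by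
  unfold rowAv
  set F : Finset ι → ℝ := fun X => 𝔼 Z : Finset ι, f (X ∩ Z) with hF
  have h1 : ∀ i ∈ Ico (5 * q) (7 * q), (𝔼 a : ι, 𝔼 X ∈ powersetCard i (univ.erase a),
      𝔼 Z : Finset ι, (f (insert a (X ∩ Z)) - f (X ∩ Z))) = 2 * (lev F (i + 1) - lev F i) := by
    intro i hi
    rw [← step_lev F (by have := (mem_Ico.1 hi).2; omega), mul_expect]
    refine expect_congr rfl fun a _ => ?_
    rw [mul_expect]
    refine expect_congr rfl fun X hX => thin_step f fun h => ?_
    simpa using (mem_powersetCard.1 hX).1 h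
  rw [expect_comm, expect_congr rfl h1, ← mul_expect, expect_eq_sum_div_card,
    tele (lev F) (by omega), Nat.card_Ico, show 7 * q - 5 * q = 2 * q by omega]
  have : (q : ℝ) ≠ 0 := by positivity
  push_cast; field_simp

end D3

open D3

/-- Telescoping along the own row past. -/
theorem row_tele (hq : 0 < q) (hι : Fintype.card ι = 8 * q) (f : Finset ι → ℝ) (lo hi : ℝ)
    (hf : ∀ X, lo ≤ f X ∧ f X ≤ hi) :
    |𝔼 a : ι, rowAv q a fun X => f (insert a X) - f X| ≤ (hi - lo) / q := by
  have hF : ∀ X : Finset ι, lo ≤ 𝔼 Z : Finset ι, f (X ∩ Z) ∧ 𝔼 Z : Finset ι, f (X ∩ Z) ≤ hi :=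
    fun X => ⟨le_expect univ_nonempty fun Z _ => (hf _).1,
      expect_le univ_nonempty fun Z _ => (hf _).2⟩
  have h1 := lev_mem hF (i := 7 * q) (by omega)
  have h2 := lev_mem hF (i := 5 * q) (by omega)
  rw [row_eq hq hι, abs_div, Nat.abs_cast]
  exact div_le_div_of_nonneg_right (abs_le.2 ⟨by linarith, by linarith⟩) (by positivity)

/-- Telescoping along the own column past. -/
theorem col_tele (hq : 0 < q) (hι : Fintype.card ι = 8 * q) (f : Finset ι → ℝ) (lo hi : ℝ)
    (hf : ∀ T, lo ≤ f T ∧ f T ≤ hi) :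
    |𝔼 b : ι, colAv q b fun T => f (insert b T) - f T| ≤ (hi - lo) / q := by
  have h1 := lev_mem hf (i := 2 * q) (by omega)
  have h2 := lev_mem hf (i := q) (by omega)
  rw [col_eq hq hι, abs_div, Nat.abs_cast]
  exact div_le_div_of_nonneg_right (abs_le.2 ⟨by linarith, by linarith⟩) (by positivity)

/-- Telescoping in the column direction only, for a function of the cell row. -/
theorem loc_tele_col (hq : 0 < q) (hι : Fintype.card ι = 8 * q)
    (f : ι → Finset ι → Finset ι → ℝ) (lo hi : ℝ) (hf : ∀ a X T, lo ≤ f a X T ∧ f a X T ≤ hi) :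
    |𝔼 a : ι, 𝔼 b : ι, loc q a b fun X T => f a X (insert b T) - f a X T| ≤ (hi - lo) / q := by
  have : Nonempty ι := Fintype.card_pos_iff.1 (by omega)
  refine (isAv_expect univ univ_nonempty).abs_le _ _ fun a => ?_
  unfold loc
  rw [← (isAv_rowAv hq hι a).expect]
  exact (isAv_rowAv hq hι a).abs_le _ _ fun X => col_tele hq hι (f a X) lo hi (hf a X)

/-- Telescoping in both directions. -/
theorem loc_tele_both (hq : 0 < q) (hι : Fintype.card ι = 8 * q)
    (f : Finset ι → Finset ι → ℝ) (lo hi : ℝ) (hf : ∀ X T, lo ≤ f X T ∧ f X T ≤ hi) :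
    |𝔼 a : ι, 𝔼 b : ι, loc q a b fun X T =>
      f (insert a X) (insert b T) - f (insert a X) T - f X (insert b T) + f X T| ≤
        2 * (hi - lo) / q ^ 2 := by
  set G : Finset ι → ℝ := fun X => 𝔼 b : ι, colAv q b fun T => f X (insert b T) - f X T with hG
  have h1 : ∀ a : ι, (𝔼 b : ι, loc q a b fun X T =>
      f (insert a X) (insert b T) - f (insert a X) T - f X (insert b T) + f X T) =
      rowAv q a fun X => G (insert a X) - G X := by
    intro a
    unfold loc
    rw [← (isAv_rowAv hq hι a).expect]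
    congr 1
    funext X
    simp only [hG]
    rw [← expect_sub_distrib]
    refine expect_congr rfl fun b _ => ?_
    rw [← (isAv_colAv hq hι b).sub]
    congr 1
    funext T
    ring
  simp only [h1]
  have h2 := row_tele hq hι G (-((hi - lo) / q)) ((hi - lo) / q) fun X =>
    abs_le.1 (col_tele hq hι (f X) lo hi (hf X))
  refine h2.trans (le_of_eq ?_)
  have : (q : ℝ) ≠ 0 := by positivity
  field_simp; ring

namespace D3

/-- conditional insertion, flip and complement -/
def ins (s : Bool) (a : ι) (X : Finset ι) : Finset ι := if s then insert a X else X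
def flipS (s : Bool) (d : ι) : Equiv.Perm (Finset ι) := if s then flipE d else 1
def side (s : Bool) (Z : Finset ι) : Finset ι := if s then Z else Zᶜ

lemma exp_side (s : Bool) (g : Finset ι → ℝ) : 𝔼 Z : Finset ι, g (side s Z) = 𝔼 Z, g Z := by
  cases s
  · exact Fintype.expect_equiv (compl_involutive.toPerm _) _ _ fun _ => rfl
  · rfl

lemma mem_side_flip (s : Bool) (d : ι) (Z : Finset ι) : d ∈ side s (flipS s d Z) ↔ d ∉ Z := by
  cases s <;> simp [side, flipS, mem_flipE]

omit [Fintype ι] in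
lemma inter_flip (s : Bool) {d : ι} {X Z : Finset ι} (h1 : d ∈ X) (h2 : d ∉ Z) :
    X ∩ flipS s d Z = ins s d (X ∩ Z) := by
  cases s
  · simp [flipS, ins]
  · ext x
    simp only [flipS, ins, if_true, mem_inter, mem_insert, mem_flipE]
    aesop

omit [Fintype ι] in
lemma ins_swap (s : Bool) {a d : ι} {X : Finset ι} (h1 : a ∉ X) (h2 : d ∉ X) :
    (ins s a X).map (Equiv.swap a d).toEmbedding = ins s d X := by
  have e : X.map (Equiv.swap a d).toEmbedding = X := by
    ext x
    rw [mem_map_equiv, Equiv.symm_swap, Equiv.swap_apply_def]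
    split_ifs with h3 h4
    · subst h3; simp [h1, h2]
    · subst h4; simp [h1, h2]
    · rfl
  cases s
  · exact e
  · simp only [ins, if_true]
    rw [map_insert, e]; simp

/-- first absolute moment of the number of elements of `D` in a given state -/
lemma dev_le (D : Finset ι) (hD : 0 < D.card) (s t : Bool) :
    𝔼 Z : Finset ι, 𝔼 W : Finset ι, |((D ∩ side s Z ∩ side t W).card : ℝ) - D.card / 4| ≤
      13 / 16 * √(D.card) := by
  set m : ℝ := (D.card : ℝ) with hm
  have hm0 : 0 < m := by rw [hm]; exact_mod_cast hD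
  have hc : 0 < √m := Real.sqrt_pos.2 hm0
  have hc2 : √m * √m = m := Real.mul_self_sqrt hm0.le
  rw [exp_side s fun Z => 𝔼 W : Finset ι, |((D ∩ Z ∩ side t W).card : ℝ) - m / 4|]
  have h1 : ∀ Z : Finset ι, 𝔼 W : Finset ι, |((D ∩ Z ∩ side t W).card : ℝ) - m / 4| ≤
      (m / 4 + (((D ∩ Z).card : ℝ) - m / 2) ^ 2 / 4) / √m + √m / 2 := by
    intro Z
    rw [exp_side t fun W => |((D ∩ Z ∩ W).card : ℝ) - m / 4|]
    have h2 := expect_card_inter_sq (D ∩ Z)
    have h3 : ((D ∩ Z).card : ℝ) ≤ m := by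
      rw [hm]; exact_mod_cast card_le_card inter_subset_left
    calc _ ≤ 𝔼 W : Finset ι, (((((D ∩ Z ∩ W).card : ℝ) - ((D ∩ Z).card : ℝ) / 2) ^ 2 +
          (((D ∩ Z).card : ℝ) - m / 2) ^ 2 / 4) / √m + √m / 2) := by
          refine expect_le_expect fun W _ => ?_
          set u : ℝ := ((D ∩ Z ∩ W).card : ℝ) - ((D ∩ Z).card : ℝ) / 2
          set v : ℝ := ((D ∩ Z).card : ℝ) - m / 2
          have e : ((D ∩ Z ∩ W).card : ℝ) - m / 4 = u + v / 2 := by simp only [u, v]; ring
          rw [e, ← sub_le_iff_le_add, le_div_iff₀ hc]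
          nlinarith [sq_nonneg (|u + v / 2| - √m), sq_abs (u + v / 2), sq_nonneg (u - v / 2)]
      _ = (((D ∩ Z).card : ℝ) / 4 + (((D ∩ Z).card : ℝ) - m / 2) ^ 2 / 4) / √m + √m / 2 := by
          rw [expect_add_distrib, ← expect_div, expect_add_distrib, h2, Fintype.expect_const,
            Fintype.expect_const]
      _ ≤ _ := by gcongr
  refine (expect_le_expect fun Z _ => h1 Z).trans (le_of_eq ?_)
  have h4 := expect_card_inter_sq D
  rw [← hm] at h4
  simp only [expect_add_distrib, ← expect_div, Fintype.expect_const]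
  rw [h4, div_add' _ _ _ hc.ne', div_eq_iff hc.ne']
  linear_combination (-5 / 16) * hc2

lemma score_core (h : Finset ι → Finset ι → ℝ) (M : ℝ) (hM : ∀ X Y, |h X Y| ≤ M)
    (hs : ∀ (τ : Equiv.Perm ι) X Y, h (X.map τ.toEmbedding) (Y.map τ.toEmbedding) = h X Y)
    (s t : Bool) {a : ι} {X Y : Finset ι} (hX : a ∉ X) (hY : a ∉ Y) (hD : 0 < (X ∩ Y).card) :
    |𝔼 Z : Finset ι, 𝔼 W : Finset ι,
      (h (X ∩ Z) (Y ∩ W) - h (ins s a (X ∩ Z)) (ins t a (Y ∩ W)))| ≤
        13 / 2 * M / √((X ∩ Y).card) := by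
  set D := X ∩ Y with hDdef
  set m : ℝ := (D.card : ℝ) with hm
  have hm0 : 0 < m := by rw [hm]; exact_mod_cast hD
  have hc : 0 < √m := Real.sqrt_pos.2 hm0
  have hc2 : √m * √m = m := Real.mul_self_sqrt hm0.le
  have hM0 : 0 ≤ M := (abs_nonneg _).trans (hM ∅ ∅)
  have cnt : ∀ (A B : Finset ι) (c : ℝ), ∑ d ∈ D, (if d ∈ A ∧ d ∈ B then c else 0) =
      c * (D ∩ A ∩ B).card := by
    intro A B c
    rw [← sum_filter, sum_const, nsmul_eq_mul, mul_comm]
    congr 3
    ext x; simp
  have one : ∀ d ∈ D, (𝔼 Z : Finset ι, 𝔼 W : Finset ι, if d ∈ side false Z ∧ d ∈ side false W then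
      h (ins s a (X ∩ Z)) (ins t a (Y ∩ W)) else 0) =
      𝔼 Z : Finset ι, 𝔼 W : Finset ι, if d ∈ side s Z ∧ d ∈ side t W then
        h (X ∩ Z) (Y ∩ W) else 0 := by
    intro d hd
    obtain ⟨d1, d2⟩ := mem_inter.1 hd
    refine Fintype.expect_equiv (flipS s d) _ _ fun Z =>
      Fintype.expect_equiv (flipS t d) _ _ fun W => ?_
    simp only [mem_side_flip]
    simp only [side, Bool.false_eq_true, if_false, mem_compl]
    split_ifs with h1
    · rw [inter_flip s d1 h1.1, inter_flip t d2 h1.2,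
        ← ins_swap s (a := a) (d := d) (by simp [hX]) (by simp [h1.1]),
        ← ins_swap t (a := a) (d := d) (by simp [hY]) (by simp [h1.2]), hs]
    · rfl
  have all : (𝔼 Z : Finset ι, 𝔼 W : Finset ι, h (ins s a (X ∩ Z)) (ins t a (Y ∩ W)) *
      (D ∩ side false Z ∩ side false W).card) =
      𝔼 Z : Finset ι, 𝔼 W : Finset ι, h (X ∩ Z) (Y ∩ W) * (D ∩ side s Z ∩ side t W).card := by
    simp only [← cnt, expect_sum_comm]
    exact sum_congr rfl one
  have key : m / 4 * (𝔼 Z : Finset ι, 𝔼 W : Finset ι,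
      (h (X ∩ Z) (Y ∩ W) - h (ins s a (X ∩ Z)) (ins t a (Y ∩ W)))) =
      (𝔼 Z : Finset ι, 𝔼 W : Finset ι, h (ins s a (X ∩ Z)) (ins t a (Y ∩ W)) *
        (((D ∩ side false Z ∩ side false W).card : ℝ) - m / 4)) -
      𝔼 Z : Finset ι, 𝔼 W : Finset ι, h (X ∩ Z) (Y ∩ W) *
        (((D ∩ side s Z ∩ side t W).card : ℝ) - m / 4) := by
    simp only [mul_sub, expect_sub_distrib, ← expect_mul, all]
    ring
  have bd : ∀ (g : Finset ι → Finset ι → ℝ) (s t : Bool), (∀ Z W, |g Z W| ≤ M) →
      |𝔼 Z : Finset ι, 𝔼 W : Finset ι, g Z W * (((D ∩ side s Z ∩ side t W).card : ℝ) - m / 4)| ≤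
        M * (13 / 16 * √m) := by
    intro g s t hg
    refine le_trans ?_ (mul_le_mul_of_nonneg_left (dev_le D hD s t) hM0)
    rw [mul_expect]
    refine (abs_expect_le _ _).trans (expect_le_expect fun Z _ => ?_)
    rw [mul_expect]
    refine (abs_expect_le _ _).trans (expect_le_expect fun W _ => ?_)
    rw [abs_mul]
    exact mul_le_mul_of_nonneg_right (hg Z W) (abs_nonneg _)
  have b1 := bd (fun Z W => h (ins s a (X ∩ Z)) (ins t a (Y ∩ W))) false false fun _ _ => hM _ _
  have b2 := bd (fun Z W => h (X ∩ Z) (Y ∩ W)) s t fun _ _ => hM _ _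
  have b3 := (abs_sub _ _).trans (add_le_add b1 b2)
  rw [← key, abs_mul, abs_of_pos (by positivity : 0 < m / 4)] at b3
  rw [le_div_iff₀ hc]
  set A := |𝔼 Z : Finset ι, 𝔼 W : Finset ι,
      (h (X ∩ Z) (Y ∩ W) - h (ins s a (X ∩ Z)) (ins t a (Y ∩ W)))|
  refine le_of_mul_le_mul_right ?_ hc
  rw [mul_assoc, hc2]
  linarith

lemma score (hq : 0 < q) (hι : Fintype.card ι = 8 * q) (h : Finset ι → Finset ι → ℝ)
    (M : ℝ) (hM : ∀ X Y, |h X Y| ≤ M)
    (hs : ∀ (τ : Equiv.Perm ι) X Y, h (X.map τ.toEmbedding) (Y.map τ.toEmbedding) = h X Y)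
    (s t : Bool) :
    |rows q fun a X Y => h X Y - h (ins s a X) (ins t a Y)| ≤ 16 * M / √(Fintype.card ι) := by
  have hM0 : 0 ≤ M := (abs_nonneg _).trans (hM ∅ ∅)
  have h0 : 0 ≤ 16 * M / √(Fintype.card ι) := by positivity
  unfold rows rowAv
  refine abs_exp_le h0 fun a _ => abs_exp_le h0 fun i hi => abs_exp_le h0 fun X hX => ?_
  rw [expect_comm]
  refine abs_exp_le h0 fun j hj => ?_
  rw [expect_comm]
  refine abs_exp_le h0 fun Y hY => ?_
  obtain ⟨x1, x2⟩ := mem_powersetCard.1 hX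
  obtain ⟨y1, y2⟩ := mem_powersetCard.1 hY
  have c1 : 2 * q < (X ∩ Y).card := by
    have e1 := card_union_add_card_inter X Y
    have e2 := card_le_card (union_subset x1 y1)
    rw [card_erase_of_mem (mem_univ _), card_univ] at e2
    have := (mem_Ico.1 hi).1
    have := (mem_Ico.1 hj).1
    omega
  refine (score_core h M hM hs s t (fun h => by simpa using x1 h) (fun h => by simpa using y1 h)
    (by omega)).trans ?_
  have c2 : √(Fintype.card ι) ≤ 2 * √((X ∩ Y).card) := by
    rw [show (2 : ℝ) = √4 by rw [show (4 : ℝ) = 2 ^ 2 by norm_num, Real.sqrt_sq (by norm_num)],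
      ← Real.sqrt_mul (by norm_num)]
    refine Real.sqrt_le_sqrt ?_
    have : Fintype.card ι ≤ 4 * (X ∩ Y).card := by omega
    exact_mod_cast this
  have c3 : 0 < √(Fintype.card ι : ℝ) := Real.sqrt_pos.2 (by exact_mod_cast (by omega))
  have c4 : 0 < √((X ∩ Y).card : ℝ) := Real.sqrt_pos.2 (by exact_mod_cast (by omega))
  rw [div_le_div_iff₀ c4 c3]
  nlinarith

end D3

/-- The score trick: moving the target row into one or both pasts hardly changes the mean of a
bounded symmetric function. -/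
theorem rows_score (hq : 0 < q) (hι : Fintype.card ι = 8 * q) (h : Finset ι → Finset ι → ℝ)
    (M : ℝ) (hM : ∀ X Y, |h X Y| ≤ M)
    (hs : ∀ (τ : Equiv.Perm ι) X Y, h (X.map τ.toEmbedding) (Y.map τ.toEmbedding) = h X Y) :
    |rows q fun a X Y => h X Y - h (insert a X) Y| ≤ 16 * M / √(Fintype.card ι) ∧
    |rows q fun a X Y => h X Y - h X (insert a Y)| ≤ 16 * M / √(Fintype.card ι) ∧
    |rows q fun a X Y => h X Y - h (insert a X) (insert a Y)| ≤ 16 * M / √(Fintype.card ι) :=
  ⟨score hq hι h M hM hs true false, score hq hι h M hM hs false true,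
    score hq hι h M hM hs true true⟩

namespace D3

/-- resampling the target column given the two pasts -/
lemma resample (i j : ℕ) (H : ι → Finset ι → Finset ι → ℝ) :
    (𝔼 b : ι, 𝔼 T ∈ powersetCard i (univ.erase b), 𝔼 T' ∈ powersetCard j (univ.erase b),
      H b T T') =
    𝔼 b : ι, 𝔼 T ∈ powersetCard i (univ.erase b), 𝔼 T' ∈ powersetCard j (univ.erase b),
      𝔼 c ∈ univ \ (T ∪ T'), H c T T' := by
  have key : ∀ H : ι → Finset ι → Finset ι → ℝ,
      (𝔼 b : ι, 𝔼 T ∈ powersetCard i (univ.erase b), 𝔼 T' ∈ powersetCard j (univ.erase b),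
        H b T T') = (∑ T ∈ powersetCard i (univ : Finset ι), ∑ T' ∈ powersetCard j univ,
          ∑ b ∈ univ \ (T ∪ T'), H b T T') / (((Fintype.card ι - 1).choose j : ℝ) *
            ((Fintype.card ι - 1).choose i : ℝ) * Fintype.card ι) := by
    intro H
    simp only [expect_eq_sum_div_card, card_powersetCard, card_erase_of_mem (mem_univ _),
      card_univ, ← sum_div, div_div]
    congr 1
    rw [sum_comm' (t' := powersetCard i univ) (s' := fun T => univ \ T)
      (by intro b T; simp [mem_powersetCard, subset_erase, and_comm])]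
    refine sum_congr rfl fun T _ => ?_
    rw [sum_comm' (t' := powersetCard j univ) (s' := fun T' => univ \ (T ∪ T'))
      (by intro b T'; simp [mem_powersetCard, subset_erase]; tauto)]
  rw [key, key]
  congr 1
  refine sum_congr rfl fun T _ => sum_congr rfl fun T' _ => ?_
  rw [sum_const, card_smul_expect]

lemma cols_congr {G G' : ι → Finset ι → Finset ι → Finset ι → ℝ}
    (h : ∀ b T T' K, b ∉ T → b ∉ K → Disjoint T K → T.card < 2 * q → K.card < L →
      G b T T' K = G' b T T' K) : cols q L G = cols q L G' :=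
  le_antisymm (cols_mono fun b T T' K h1 _ h3 h4 _ _ h7 _ _ h10 => (h b T T' K h1 h3 h4 h7 h10).le)
    (cols_mono fun b T T' K h1 _ h3 h4 _ _ h7 _ _ h10 => (h b T T' K h1 h3 h4 h7 h10).ge)

lemma card_rest {b : ι} {T T' : Finset ι} (hι : Fintype.card ι = 8 * q) (h1 : T.card < 2 * q)
    (h2 : T'.card < 2 * q) : q ≤ (univ \ insert b (T ∪ T')).card := by
  have h3 := card_insert_le b (T ∪ T')
  have h4 := card_union_le T T'
  rw [card_univ_sdiff]; omega

/-- an integrand that depends only on the two sizes -/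
lemma cols_card (hq : 0 < q) (hι : Fintype.card ι = 8 * q) (hLq : L ≤ q) (φ : ℕ → ℕ → ℝ) :
    (cols q L fun (_ : ι) T _ K => φ T.card K.card) =
      𝔼 i ∈ Ico q (2 * q), 𝔼 l ∈ range L, φ i l := by
  have : Nonempty ι := Fintype.card_pos_iff.1 (by omega)
  have hne : ∀ (b : ι) (i : ℕ), i ∈ Ico q (2 * q) → (powersetCard i (univ.erase b)).Nonempty :=
    fun b i hi => pc_ne (by
      have := (mem_Ico.1 hi).2
      rw [card_erase_of_mem (mem_univ _), card_univ]; omega)
  unfold cols colAv extAv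
  rw [← Fintype.expect_const (ι := ι) (𝔼 i ∈ Ico q (2 * q), 𝔼 l ∈ range L, φ i l)]
  refine expect_congr rfl fun b _ => expect_congr rfl fun i hi => ?_
  rw [← expect_const (hne b i hi) (𝔼 l ∈ range L, φ i l)]
  refine expect_congr rfl fun T hT => ?_
  rw [← expect_const (nonempty_Ico.2 (by omega : q < 2 * q)) (𝔼 l ∈ range L, φ i l)]
  refine expect_congr rfl fun j hj => ?_
  rw [← expect_const (hne b j hj) (𝔼 l ∈ range L, φ i l)]
  refine expect_congr rfl fun T' hT' => expect_congr rfl fun l hl => ?_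
  have e1 := (mem_powersetCard.1 hT).2
  have e2 := (mem_powersetCard.1 hT').2
  have h3 : q ≤ (univ \ insert b (T ∪ T')).card :=
    card_rest hι (by have := (mem_Ico.1 hi).2; omega) (by have := (mem_Ico.1 hj).2; omega)
  rw [← expect_const (pc_ne (C := univ \ insert b (T ∪ T')) (i := l)
    (by have := mem_range.1 hl; omega)) (φ i l)]
  refine expect_congr rfl fun K hK => ?_
  simp only [e1, (mem_powersetCard.1 hK).2]

lemma cols_eq_card (hq : 0 < q) (hι : Fintype.card ι = 8 * q) (hLq : L ≤ q) (φ : ℕ → ℕ → ℝ)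
    {G : ι → Finset ι → Finset ι → Finset ι → ℝ}
    (h : ∀ b T T' K, b ∉ T → b ∉ K → Disjoint T K → G b T T' K = φ T.card K.card) :
    cols q L G = 𝔼 l ∈ range L, 𝔼 i ∈ Ico q (2 * q), φ i l := by
  rw [expect_comm, ← cols_card hq hι hLq φ]
  exact cols_congr fun b T T' K h1 h2 h3 _ _ => h b T T' K h1 h2 h3

/-- symmetrisation -/
lemma cols_symm (hq : 0 < q) (hι : Fintype.card ι = 8 * q) (hL : 0 < L) (hLq : L ≤ q)
    (G : ι → Finset ι → Finset ι → Finset ι → ℝ) :
    cols q L G = cols q L fun b T T' K => 𝔼 τ : Equiv.Perm ι,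
      G (τ b) (T.map τ.toEmbedding) (T'.map τ.toEmbedding) (K.map τ.toEmbedding) := by
  have h := (isAv_cols hq hι hL hLq).expect (univ : Finset (Equiv.Perm ι))
    fun τ p => G (τ p.1) (p.2.1.map τ.toEmbedding) (p.2.2.1.map τ.toEmbedding)
      (p.2.2.2.map τ.toEmbedding)
  simp only [cols_perm] at h
  rw [h, Fintype.expect_const]

end D3

/-- Telescoping along the extra columns. -/
theorem cols_tele (hq : 0 < q) (hι : Fintype.card ι = 8 * q) (hL : 0 < L) (hLq : L ≤ q)
    (f : Finset ι → Finset ι → Finset ι → ℝ) (lo hi : ℝ)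
    (hf : ∀ T T' K, Disjoint T K → Disjoint T' K → K.card = L →
      lo ≤ f T T' K - f T T' ∅ ∧ f T T' K - f T T' ∅ ≤ hi) :
    lo / L ≤ (cols q L fun b T T' K => f T T' (insert b K) - f T T' K) ∧
      (cols q L fun b T T' K => f T T' (insert b K) - f T T' K) ≤ hi / L := by
  have : Nonempty ι := Fintype.card_pos_iff.1 (by omega)
  have hne : ∀ (b : ι) (i : ℕ), i ∈ Ico q (2 * q) → (powersetCard i (univ.erase b)).Nonempty :=
    fun b i hi => pc_ne (by
      have := (mem_Ico.1 hi).2
      rw [card_erase_of_mem (mem_univ _), card_univ]; omega)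
  have hI : (Ico q (2 * q)).Nonempty := nonempty_Ico.2 (by omega)
  set H : ι → Finset ι → Finset ι → ℝ := fun b T T' =>
    extAv L (univ \ insert b (T ∪ T')) fun K => f T T' (insert b K) - f T T' K with hH
  have e1 : (cols q L fun b T T' K => f T T' (insert b K) - f T T' K) =
      𝔼 i ∈ Ico q (2 * q), 𝔼 j ∈ Ico q (2 * q), 𝔼 b : ι, 𝔼 T ∈ powersetCard i (univ.erase b),
        𝔼 T' ∈ powersetCard j (univ.erase b), 𝔼 c ∈ univ \ (T ∪ T'), H c T T' := by
    unfold cols colAv
    rw [expect_comm]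
    refine expect_congr rfl fun i _ => ?_
    simp only [← resample]
    rw [expect_comm]
    refine expect_congr rfl fun b _ => ?_
    rw [expect_comm]
  have e2 : ∀ T T' : Finset ι, T.card < 2 * q → T'.card < 2 * q →
      lo / L ≤ 𝔼 c ∈ univ \ (T ∪ T'), H c T T' ∧ 𝔼 c ∈ univ \ (T ∪ T'), H c T T' ≤ hi / L := by
    intro T T' h1 h2
    set C : Finset ι := univ \ (T ∪ T') with hC
    have hc : q ≤ C.card := by
      have h4 := card_union_le T T'
      rw [hC, card_univ_sdiff]; omega
    have e3 : 𝔼 c ∈ C, H c T T' = ((𝔼 K ∈ powersetCard L C, f T T' K) - f T T' ∅) / L := by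
      have e4 : ∀ c, univ \ insert c (T ∪ T') = C.erase c := fun c => by
        rw [hC, sdiff_insert]
      simp only [hH, extAv, e4]
      rw [expect_comm, expect_congr rfl fun l hl => expect_insert_sub (f T T') C
        (by have := mem_range.1 hl; omega), expect_eq_sum_div_card, range_eq_Ico,
        tele (fun l => 𝔼 K ∈ powersetCard l C, f T T' K) (Nat.zero_le L)]
      simp
    have hp : (powersetCard L C).Nonempty := pc_ne (by omega)
    have hK : ∀ K ∈ powersetCard L C, lo ≤ f T T' K - f T T' ∅ ∧ f T T' K - f T T' ∅ ≤ hi := by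
      intro K hK
      obtain ⟨h3, h4⟩ := mem_powersetCard.1 hK
      refine hf T T' K (disjoint_left.2 fun x hx hx' => ?_) (disjoint_left.2 fun x hx hx' => ?_) h4
      · simpa [hC, hx] using h3 hx'
      · simpa [hC, hx] using h3 hx'
    rw [e3, ← expect_const hp (f T T' ∅), ← expect_sub_distrib]
    exact ⟨div_le_div_of_nonneg_right (le_expect hp fun K h => (hK K h).1) (by positivity),
      div_le_div_of_nonneg_right (expect_le hp fun K h => (hK K h).2) (by positivity)⟩
  have lt : ∀ {i : ℕ} {b : ι} {T : Finset ι}, i ∈ Ico q (2 * q) →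
      T ∈ powersetCard i (univ.erase b) → T.card < 2 * q := fun hi hT => by
    rw [(mem_powersetCard.1 hT).2]; exact (mem_Ico.1 hi).2
  rw [e1]
  exact ⟨le_expect hI fun i hi => le_expect hI fun j hj => le_expect univ_nonempty fun b _ =>
      le_expect (hne b i hi) fun T hT => le_expect (hne b j hj) fun T' hT' =>
        (e2 T T' (lt hi hT) (lt hj hT')).1,
    expect_le hI fun i hi => expect_le hI fun j hj => expect_le univ_nonempty fun b _ =>
      expect_le (hne b i hi) fun T hT => expect_le (hne b j hj) fun T' hT' =>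
        (e2 T T' (lt hi hT) (lt hj hT')).2⟩

/-- Telescoping along the first column past with the extra columns fixed. -/
theorem cols_own (hq : 0 < q) (hι : Fintype.card ι = 8 * q) (hL : 0 < L) (hLq : L ≤ q)
    (g : Finset ι → Finset ι → ℝ) (M : ℝ) (hg : ∀ T K, K.card ≤ L → 0 ≤ g T K ∧ g T K ≤ M) :
    (cols q L fun b T _ K => g (insert b T) K - g T K) ≤ M / q := by
  classical
  set G : Finset ι → Finset ι → ℝ := fun T K =>
    𝔼 τ : Equiv.Perm ι, g (T.map τ.toEmbedding) (K.map τ.toEmbedding) with hG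
  have hM : 0 ≤ M := (hg ∅ ∅ (by simp)).1.trans (hg ∅ ∅ (by simp)).2
  have hGb : ∀ T K, K.card ≤ L → 0 ≤ G T K ∧ G T K ≤ M := fun T K h =>
    ⟨expect_nonneg fun τ _ => (hg _ _ (by simpa using h)).1,
      expect_le univ_nonempty fun τ _ => (hg _ _ (by simpa using h)).2⟩
  have hGi : ∀ T K T' K' : Finset ι, Disjoint T K → Disjoint T' K' → T.card = T'.card →
      K.card = K'.card → G T K = G T' K' := by
    intro T K T' K' h1 h2 h3 h4
    obtain ⟨σ, rfl, rfl⟩ := exists_perm_pair h1 h2 h3 h4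
    refine (Fintype.expect_equiv (Equiv.mulRight σ) _ _ fun τ => ?_).symm
    simp only [map_map, Equiv.coe_mulRight]
    rfl
  set γ : ℕ → ℕ → ℝ := fun i l =>
    if h : ∃ p : Finset ι × Finset ι, Disjoint p.1 p.2 ∧ p.1.card = i ∧ p.2.card = l then
      G h.choose.1 h.choose.2 else 0 with hγ
  have hγ1 : ∀ T K : Finset ι, Disjoint T K → G T K = γ T.card K.card := by
    intro T K h
    have h' : ∃ p : Finset ι × Finset ι, Disjoint p.1 p.2 ∧ p.1.card = T.card ∧
      p.2.card = K.card := ⟨(T, K), h, rfl, rfl⟩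
    simp only [hγ, dif_pos h']
    exact hGi _ _ _ _ h h'.choose_spec.1 h'.choose_spec.2.1.symm h'.choose_spec.2.2.symm
  have hγ2 : ∀ i l, l ≤ L → 0 ≤ γ i l ∧ γ i l ≤ M := by
    intro i l hl
    simp only [hγ]
    split_ifs with h'
    · exact hGb _ _ (h'.choose_spec.2.2.trans_le hl)
    · exact ⟨le_rfl, hM⟩
  rw [cols_symm hq hι hL hLq, cols_eq_card hq hι hLq fun i l => γ (i + 1) l - γ i l]
  · refine expect_le (nonempty_range_iff.2 hL.ne') fun l hl => ?_
    rw [expect_eq_sum_div_card, tele (fun i => γ i l) (by omega), Nat.card_Ico,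
      show 2 * q - q = q by omega]
    have h1 := hγ2 (2 * q) l (mem_range.1 hl).le
    have h2 := hγ2 q l (mem_range.1 hl).le
    exact div_le_div_of_nonneg_right (by linarith) (by positivity)
  · intro b T T' K h1 h2 h3
    have e : ∀ τ : Equiv.Perm ι, insert (τ b) (T.map τ.toEmbedding) =
        (insert b T).map τ.toEmbedding := fun τ => by rw [map_insert]; rfl
    simp only [e, expect_sub_distrib]
    rw [← card_insert_of_notMem h1, ← hγ1 _ _ h3, ← hγ1 _ _ (disjoint_insert_left.2 ⟨h2, h3⟩)]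

/-- Second differences of a submodular function with nearly linear level averages. -/
theorem cols_second (hq : 0 < q) (hι : Fintype.card ι = 8 * q) (hL : 0 < L) (hLq : L ≤ q)
    (f : Finset ι → ℝ) (hf : ∀ S T, f (S ∪ T) + f (S ∩ T) ≤ f S + f T) (x y E : ℝ)
    (hE : ∀ i ≤ Fintype.card ι, |lev f i - (x + y * i)| ≤ E) :
    (cols q L fun b T _ K => (f (insert b T) - f T) - (f (insert b (T ∪ K)) - f (T ∪ K))) ≤
      4 * L * E / q ^ 2 := by
  have hq' : (0 : ℝ) < q := by positivity
  have hE0 : 0 ≤ E := (abs_nonneg _).trans (hE 0 (Nat.zero_le _))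
  set Δ : ℕ → ℝ := fun i => lev f (i + 1) - lev f i with hΔ
  have anti : ∀ i j, i ≤ j → j < 8 * q → Δ j ≤ Δ i := by
    intro i j hij
    induction j, hij using Nat.le_induction with
    | base => exact fun _ => le_rfl
    | succ j _ ih =>
      intro hj
      have h1 := lev_concave f hf (i := j) (by omega)
      have h2 := ih (by omega)
      simp only [hΔ] at h2 ⊢
      linarith
  have up : ∀ i, q ≤ i → i < 8 * q → Δ i ≤ y + 2 * E / q := by
    intro i h1 h2
    have h3 : ∑ _k ∈ Ico 0 q, Δ i ≤ ∑ k ∈ Ico 0 q, Δ k :=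
      sum_le_sum fun k hk => anti k i (by have := (mem_Ico.1 hk).2; omega) h2
    rw [tele (lev f) (Nat.zero_le q), sum_const, Nat.card_Ico, Nat.sub_zero, nsmul_eq_mul] at h3
    have h4 := abs_le.1 (hE q (by omega))
    have h5 := abs_le.1 (hE 0 (by omega))
    rw [← sub_le_iff_le_add', le_div_iff₀ hq']
    push_cast at h5
    nlinarith
  have dn : ∀ i, i ≤ 3 * q → y - 2 * E / q ≤ Δ i := by
    intro i h1
    have h3 : ∑ k ∈ Ico (3 * q) (4 * q), Δ k ≤ ∑ _k ∈ Ico (3 * q) (4 * q), Δ i :=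
      sum_le_sum fun k hk => anti i k (by have := (mem_Ico.1 hk).1; omega)
        (by have := (mem_Ico.1 hk).2; omega)
    rw [tele (lev f) (by omega), sum_const, Nat.card_Ico, show 4 * q - 3 * q = q by omega,
      nsmul_eq_mul] at h3
    have h4 := abs_le.1 (hE (3 * q) (by omega))
    have h5 := abs_le.1 (hE (4 * q) (by omega))
    rw [sub_le_comm, le_div_iff₀ hq']
    push_cast at h4 h5
    nlinarith
  rw [cols_symm hq hι hL hLq, cols_eq_card hq hι hLq fun i l => Δ i - Δ (i + l)]
  · refine expect_le (nonempty_range_iff.2 hL.ne') fun l hl => ?_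
    have hl' := mem_range.1 hl
    have e1 : ∑ i ∈ Ico q (2 * q), Δ (i + l) = lev f (2 * q + l) - lev f (q + l) := by
      rw [← tele (fun i => lev f (i + l)) (by omega)]
      exact sum_congr rfl fun i _ => by simp only [hΔ]; rw [Nat.add_right_comm]
    have e2 : ∑ i ∈ Ico q (q + l), (y + 2 * E / q) ≥ lev f (q + l) - lev f q := by
      rw [← tele (lev f) (by omega)]
      exact sum_le_sum fun k hk => up k (mem_Ico.1 hk).1 (by have := (mem_Ico.1 hk).2; omega)
    have e3 : ∑ i ∈ Ico (2 * q) (2 * q + l), (y - 2 * E / q) ≤ lev f (2 * q + l) - lev f (2 * q) := by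
      rw [← tele (lev f) (by omega)]
      exact sum_le_sum fun k hk => dn k (by have := (mem_Ico.1 hk).2; omega)
    rw [sum_const, Nat.card_Ico, Nat.add_sub_cancel_left, nsmul_eq_mul] at e2 e3
    rw [expect_eq_sum_div_card, sum_sub_distrib, e1, tele (lev f) (by omega), Nat.card_Ico,
      show 2 * q - q = q by omega, div_le_iff₀ hq']
    have h1 : (l : ℝ) ≤ L := by exact_mod_cast hl'.le
    have h2 : 4 * L * E / q ^ 2 * q = 4 * L * (E / q) := by field_simp
    have h3 : 2 * E / q = 2 * (E / q) := by ring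
    have h4 : 0 ≤ E / q := by positivity
    rw [h3] at e2 e3
    rw [h2]
    nlinarith
  · intro b T T' K h1 h2 h3
    have e : ∀ (τ : Equiv.Perm ι) (S : Finset ι), insert (τ b) (S.map τ.toEmbedding) =
        (insert b S).map τ.toEmbedding := fun τ S => by rw [map_insert]; rfl
    have h4 : b ∉ T ∪ K := by simp [h1, h2]
    simp only [← map_union, e, expect_sub_distrib, expect_perm_eq_lev, card_insert_of_notMem h1,
      card_insert_of_notMem h4, card_union_of_disjoint h3, hΔ]

end Pool.Agent.Lib.MP_a7c6c3_lc
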