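import Pool.Agent.Lib.MP_a7c6c3_lc.CoreDefs
import Pool.Agent.Lib.MP_a7c6c3_lc.Design3
import Pool.Agent.Lib.MP_a7c6c3_lc.Basic

/-! Module `CoreF3`: the third-role column against the two target rows. -/

set_option autoImplicit false
open Finset
open scoped BigOperators

namespace Pool.Agent.Lib.MP_a7c6c3_lc

namespace CoreF3

section Av

variable {ι : Type} [Fintype ι] [DecidableEq ι] {q L : ℕ}

theorem rows_add (hq : 0 < q) (hι : Fintype.card ι = 8 * q)
    (G G' : ι → Finset ι → Finset ι → ℝ) :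
    (rows q fun a X Y => G a X Y + G' a X Y) = rows q G + rows q G' :=
  (isAv_rows hq hι).add (fun p => G p.1 p.2.1 p.2.2) (fun p => G' p.1 p.2.1 p.2.2)

theorem rows_const (hq : 0 < q) (hι : Fintype.card ι = 8 * q) (c : ℝ) :
    (rows q fun (_ : ι) _ _ => c) = c :=
  (isAv_rows hq hι).const c

theorem rows_sym (hq : 0 < q) (hι : Fintype.card ι = 8 * q)
    (G : ι → Finset ι → Finset ι → ℝ) :
    rows q G = rows q fun a X Y =>
      𝔼 τ : Equiv.Perm ι, G (τ a) (X.map τ.toEmbedding) (Y.map τ.toEmbedding) := by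
  have h := (isAv_rows hq hι).expect (univ : Finset (Equiv.Perm ι))
    (fun τ p => G (τ p.1) (p.2.1.map τ.toEmbedding) (p.2.2.map τ.toEmbedding))
  refine Eq.trans ?_ h.symm
  refine Eq.trans ?_ (expect_congr rfl fun τ _ => (rows_perm τ G).symm)
  rw [expect_const univ_nonempty]

theorem cols_add (hq : 0 < q) (hι : Fintype.card ι = 8 * q) (hL : 0 < L) (hLq : L ≤ q)
    (G G' : ι → Finset ι → Finset ι → Finset ι → ℝ) :
    (cols q L fun b T T' K => G b T T' K + G' b T T' K) = cols q L G + cols q L G' :=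
  (isAv_cols hq hι hL hLq).add (fun p => G p.1 p.2.1 p.2.2.1 p.2.2.2)
    (fun p => G' p.1 p.2.1 p.2.2.1 p.2.2.2)

theorem cols_sub (hq : 0 < q) (hι : Fintype.card ι = 8 * q) (hL : 0 < L) (hLq : L ≤ q)
    (G G' : ι → Finset ι → Finset ι → Finset ι → ℝ) :
    (cols q L fun b T T' K => G b T T' K - G' b T T' K) = cols q L G - cols q L G' :=
  (isAv_cols hq hι hL hLq).sub (fun p => G p.1 p.2.1 p.2.2.1 p.2.2.2)
    (fun p => G' p.1 p.2.1 p.2.2.1 p.2.2.2)

theorem cols_abs (hq : 0 < q) (hι : Fintype.card ι = 8 * q) (hL : 0 < L) (hLq : L ≤ q)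
    (G : ι → Finset ι → Finset ι → Finset ι → ℝ) (M : ℝ) (h : ∀ b T T' K, |G b T T' K| ≤ M) :
    |cols q L G| ≤ M :=
  (isAv_cols hq hι hL hLq).abs_le (fun p => G p.1 p.2.1 p.2.2.1 p.2.2.2) M fun _ => h _ _ _ _

theorem cols_expect (hq : 0 < q) (hι : Fintype.card ι = 8 * q) (hL : 0 < L) (hLq : L ≤ q)
    {γ : Type} (s : Finset γ) (G : γ → ι → Finset ι → Finset ι → Finset ι → ℝ) :
    (cols q L fun b T T' K => 𝔼 τ ∈ s, G τ b T T' K) = 𝔼 τ ∈ s, cols q L (G τ) :=
  (isAv_cols hq hι hL hLq).expect s fun τ p => G τ p.1 p.2.1 p.2.2.1 p.2.2.2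

theorem cols_congr {G G' : ι → Finset ι → Finset ι → Finset ι → ℝ}
    (h : ∀ b T T' K, b ∉ K → G b T T' K = G' b T T' K) : cols q L G = cols q L G' :=
  le_antisymm (cols_mono fun b T T' K _ _ k _ _ _ _ _ _ _ => (h b T T' K k).le)
    (cols_mono fun b T T' K _ _ k _ _ _ _ _ _ _ => (h b T T' K k).ge)

/-- Symmetrisation over all permutations. -/
noncomputable def bar (Φ : Finset ι → Finset ι → ℝ) (X Y : Finset ι) : ℝ :=
  𝔼 τ : Equiv.Perm ι, Φ (X.map τ.toEmbedding) (Y.map τ.toEmbedding)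

theorem bar_perm (Φ : Finset ι → Finset ι → ℝ) (σ : Equiv.Perm ι) (X Y : Finset ι) :
    bar Φ (X.map σ.toEmbedding) (Y.map σ.toEmbedding) = bar Φ X Y := by
  unfold bar
  refine expect_equiv (Equiv.mulRight σ) (by simp) fun τ _ => ?_
  rw [map_map, map_map]
  rfl

theorem score (hq : 0 < q) (hι : Fintype.card ι = 8 * q) (Φ c : Finset ι → Finset ι → ℝ) (M : ℝ)
    (hc : ∀ (τ : Equiv.Perm ι) X Y, c (X.map τ.toEmbedding) (Y.map τ.toEmbedding) = c X Y)
    (hM : ∀ X Y, |bar Φ X Y - c X Y| ≤ M) :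
    |rows q fun a X Y => (Φ X Y - c X Y) - (Φ (insert a X) Y - c (insert a X) Y)| ≤
      16 * M / √(Fintype.card ι) ∧
    |rows q fun a X Y => (Φ X Y - c X Y) - (Φ X (insert a Y) - c X (insert a Y))| ≤
      16 * M / √(Fintype.card ι) ∧
    |rows q fun a X Y => (Φ X Y - c X Y) -
      (Φ (insert a X) (insert a Y) - c (insert a X) (insert a Y))| ≤
      16 * M / √(Fintype.card ι) := by
  have h := rows_score hq hι (fun X Y => bar Φ X Y - c X Y) M hM fun τ X Y => by
    rw [bar_perm, hc]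
  have e : ∀ (τ : Equiv.Perm ι) (a : ι) (X : Finset ι),
      insert (τ a) (X.map τ.toEmbedding) = (insert a X).map τ.toEmbedding := fun τ a X => by
    rw [map_insert]
    rfl
  refine ⟨?_, ?_, ?_⟩ <;> rw [rows_sym hq hι] <;>
    simp only [e, hc, expect_sub_distrib, expect_const univ_nonempty]
  exacts [h.1, h.2.1, h.2.2]

end Av

section Ent

variable {Ω : Type} [Fintype Ω] (P : PS Ω)

theorem D_dvd (N : Nm Ω) {C C' : Nm Ω} (h : C ∣ C') : P.D N C' ≤ P.D N C := by
  obtain ⟨B, rfl⟩ := h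
  rw [mul_comm]
  exact P.D_anti _ _ _

theorem D_prod {ι : Type} [Fintype ι] (S : Finset ι) (N M : ι → Nm Ω) (C : Nm Ω) {ε : ℝ}
    (hε : 0 ≤ ε) (h : ∀ a, P.D (N a) (M a * C) ≤ ε) :
    P.D (∏ a ∈ S, N a) ((∏ a ∈ S, M a) * C) ≤ Fintype.card ι * ε := by
  refine (P.D_prod_le _ _ _).trans ?_
  refine (sum_le_card_nsmul _ _ ε fun a ha =>
    (D_dvd P _ (mul_dvd_mul_right (dvd_prod_of_mem M ha) C)).trans (h a)).trans ?_
  rw [nsmul_eq_mul]
  exact mul_le_mul_of_nonneg_right (Nat.cast_le.2 (card_le_univ S)) hε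

theorem up_abs (k w r m f : Nm Ω) {a : ℝ} (hf : ∀ C, P.J (f * (m * C)) = P.J (m * C))
    (h : P.D w (r * m) ≤ a) : P.D k (r * m) ≤ a + (P.D (w * k) f - P.D w f) := by
  have h1 := P.D_tri k w (r * m)
  have h2 := P.D_anti k (r * m) (w * f)
  have h3 := hf (k * w * r)
  have h4 := hf (w * r)
  simp only [PS.D, mul_assoc, mul_comm, mul_left_comm] at *
  linarith

theorem low_abs (u v w k k' z m f : Nm Ω) {a ε : ℝ} (hf : ∀ C, P.J (f * (m * C)) = P.J (m * C))
    (hk : ∀ C, P.J (k * k' * (z * C)) = P.J (z * C)) (h1 : P.D k' (u * v * m) ≤ a)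
    (h2 : P.D w (v * z * m) ≤ a) (h3 : P.I (u * w) (z * m) f ≤ ε) (h4 : P.I (k * k') m f ≤ ε) :
    P.D (k * k') f - 2 * ε - 2 * a - (P.D u f + P.D v f - P.D (u * w) f) ≤ P.D k (u * v * m) := by
  have a1 := P.D_anti k' k (u * v * m)
  have a2 := P.D_anti z (u * v) (k * k' * m)
  have a3 := hk (u * v * m)
  have a4 := hk m
  have a5 := P.D_anti w u (v * z * m)
  have a6 := P.J_mono v (u * w * z * m)
  have a7 := hf z
  have a8 := hf (u * w * z)
  have a9 := hf 1
  have a10 := hf (k * k')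
  have a11 := P.D_mul_le u v m
  have a12 := P.D_anti u m f
  have a13 := P.D_anti v m f
  have a14 := hf u
  have a15 := hf v
  simp only [PS.D, PS.I, mul_assoc, mul_comm, mul_left_comm, mul_one] at *
  linarith

end Ent

section Main

variable {Ω : Type} [Fintype Ω] {ι : Type} [Fintype ι] [DecidableEq ι] {α β : Type}
  [DecidableEq α] [DecidableEq β] {P : PS Ω} {x : Fin 3 → Ω → α} {f : Ω → α} {μ : Ω → β}
  {A B : Fin 3 → ι → Nm Ω} {t ε E : ℝ} {q L : ℕ}

/-- The joint past without the extra columns. -/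
noncomputable def p0 (μ : Ω → β) (A B : Fin 3 → ι → Nm Ω) (X Y T T' : Finset ι) : Nm Ω :=
  (∏ a ∈ X, A 0 a) * (∏ b ∈ T, B 0 b) * ((∏ a ∈ Y, A 1 a) * ∏ b ∈ T', B 1 b) * det μ

/-- The profile function. -/
noncomputable def pr (P : PS Ω) (f : Ω → α) (A B : Fin 3 → ι → Nm Ω) (u : Fin 3)
    (S T : Finset ι) : ℝ :=
  P.D ((∏ a ∈ S, A u a) * ∏ b ∈ T, B u b) (det f)

theorem absorb (H : CoreHyp P x f μ A B t ε E) (C : Nm Ω) :
    P.J (det f * (det μ * C)) = P.J (det μ * C) :=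
  P.J_absorb (meas_det H.refμ) C

theorem D_past (H : CoreHyp P x f μ A B t ε E) (b : ι) {K : Finset ι} (hb : b ∉ K)
    (X Y T T' : Finset ι) :
    P.D (B 2 b) (past f (A 0) (B 0) X T * past f (A 1) (B 1) Y T' * restP μ B K) =
      P.J ((∏ b ∈ insert b K, B 2 b) * p0 μ A B X Y T T') -
        P.J ((∏ b ∈ K, B 2 b) * p0 μ A B X Y T T') := by
  rw [prod_insert hb]
  unfold past restP p0
  generalize ∏ a ∈ X, A 0 a = a0
  generalize ∏ a ∈ Y, A 1 a = a1
  generalize ∏ a ∈ T, B 0 a = b0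
  generalize ∏ a ∈ T', B 1 a = b1
  generalize ∏ a ∈ K, B 2 a = k
  have h1 := absorb H (det f * (B 2 b * k * a0 * a1 * b0 * b1))
  have h2 := absorb H (B 2 b * k * a0 * a1 * b0 * b1)
  have h3 := absorb H (det f * (k * a0 * a1 * b0 * b1))
  have h4 := absorb H (k * a0 * a1 * b0 * b1)
  simp only [PS.D, mul_assoc, mul_comm, mul_left_comm] at *
  linarith

theorem up (H : CoreHyp P x f μ A B t ε E) (X Y T T' K : Finset ι) :
    P.D (∏ b ∈ K, B 2 b) (p0 μ A B X Y T T') ≤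
      Fintype.card ι * ε + (pr P f A B 2 (X ∩ Y) K - pr P f A B 2 (X ∩ Y) ∅) := by
  unfold pr p0
  rw [prod_empty, mul_one]
  refine up_abs P _ _ _ _ _ (absorb H) ?_
  refine le_trans (D_dvd P _ (mul_dvd_mul_right ?_ _))
    (D_prod P (X ∩ Y) (A 2) (fun a => A 0 a * A 1 a) (det μ) H.ε_nonneg H.alA2)
  rw [prod_mul_distrib]
  exact mul_dvd_mul (dvd_mul_of_dvd_left (prod_dvd_prod_of_subset _ _ _ inter_subset_left) _)
    (dvd_mul_of_dvd_left (prod_dvd_prod_of_subset _ _ _ inter_subset_right) _)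

theorem low (H : CoreHyp P x f μ A B t ε E) (X Y : Finset ι) {T T' K : Finset ι}
    (hT : Disjoint T K) (hT' : Disjoint T' K) :
    pr P f A B 2 ∅ univ - 2 * ε - 2 * (Fintype.card ι * ε) -
      (pr P f A B 0 X Kᶜ + pr P f A B 1 Y Kᶜ - pr P f A B 0 (X ∪ Y) Kᶜ) ≤
      P.D (∏ b ∈ K, B 2 b) (p0 μ A B X Y T T') := by
  have e1 : (∏ a ∈ X ∪ Y, A 0 a) * ∏ b ∈ Kᶜ, B 0 b =
      (∏ a ∈ X, A 0 a) * (∏ b ∈ Kᶜ, B 0 b) * ∏ a ∈ Y \ X, A 0 a := by
    rw [← union_sdiff_self_eq_union, prod_union disjoint_sdiff, mul_right_comm]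
  have m2 : Meas (x 2) ((∏ b ∈ K, B 2 b) * ∏ b ∈ Kᶜ, B 2 b) :=
    (meas_prod _ _ fun b _ => H.measB 2 b).mul (meas_prod _ _ fun b _ => H.measB 2 b)
  refine le_trans ?_ (D_dvd P _ (C' := p0 μ A B X Y Kᶜ Kᶜ) ?_)
  · unfold pr p0
    rw [prod_empty, one_mul, e1, ← prod_mul_prod_compl K]
    refine low_abs P _ _ _ _ _ (det (x 2)) _ _ (absorb H) (P.J_absorb m2) ?_ ?_ ?_ ?_
    · refine le_trans (D_dvd P _ (mul_dvd_mul_right ?_ _))
        (D_prod P Kᶜ (B 2) (fun a => B 0 a * B 1 a) (det μ) H.ε_nonneg H.alB2)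
      rw [prod_mul_distrib]
      exact mul_dvd_mul (dvd_mul_left _ _) (dvd_mul_left _ _)
    · refine le_trans (D_dvd P _ ?_) (D_prod P (Y \ X) (A 0) (A 1) (det (x 2) * det μ)
        H.ε_nonneg fun a => by rw [← mul_assoc]; exact H.alA0 a)
      rw [mul_assoc]
      exact mul_dvd_mul_right
        (dvd_mul_of_dvd_left (prod_dvd_prod_of_subset _ _ _ sdiff_subset) _) _
    · refine le_trans (P.I_le_det (f := x 0) ?_ _ _) H.i02
      exact ((meas_prod _ _ fun a _ => H.measA 0 a).mul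
        (meas_prod _ _ fun b _ => H.measB 0 b)).mul (meas_prod _ _ fun a _ => H.measA 0 a)
    · exact le_trans (P.I_le_det m2 _ _) H.i2μ
  · unfold p0
    exact mul_dvd_mul_right (mul_dvd_mul
      (mul_dvd_mul_left _ (prod_dvd_prod_of_subset _ _ _ hT.le_compl_right))
      (mul_dvd_mul_left _ (prod_dvd_prod_of_subset _ _ _ hT'.le_compl_right))) _

theorem prof (H : CoreHyp P x f μ A B t ε E) (u : Fin 3) (S T : Finset ι) :
    |(𝔼 τ : Equiv.Perm ι, pr P f A B u (S.map τ.toEmbedding) T) -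
      t * (1 - (1 - (S.card : ℝ) / Fintype.card ι) * (1 - (T.card : ℝ) / Fintype.card ι))| ≤ E := by
  simp only [pr, prod_map]
  exact H.prof u S T

theorem bar_D (H : CoreHyp P x f μ A B t ε E) (hR : 0 < Fintype.card ι) (X Y : Finset ι)
    {T T' K : Finset ι} (hT : Disjoint T K) (hT' : Disjoint T' K) :
    |(𝔼 τ : Equiv.Perm ι, P.D (∏ b ∈ K, B 2 b)
        (p0 μ A B (X.map τ.toEmbedding) (Y.map τ.toEmbedding) T T')) -
      K.card * (t / (Fintype.card ι : ℝ) ^ 2 * (Fintype.card ι - (X ∩ Y).card))| ≤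
      4 * (E + Fintype.card ι * ε) := by
  have R1 : (1 : ℝ) ≤ Fintype.card ι := Nat.one_le_cast.2 hR
  have R0 : (Fintype.card ι : ℝ) ≠ 0 := by positivity
  have hε := H.ε_nonneg
  have hE := H.E_nonneg
  have hRε : ε ≤ Fintype.card ι * ε := le_mul_of_one_le_left hε R1
  have u1 := expect_le_expect (s := (univ : Finset (Equiv.Perm ι))) fun τ _ =>
    up H (X.map τ.toEmbedding) (Y.map τ.toEmbedding) T T' K
  have l1 := expect_le_expect (s := (univ : Finset (Equiv.Perm ι))) fun τ _ =>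
    low H (X.map τ.toEmbedding) (Y.map τ.toEmbedding) hT hT'
  simp only [← map_inter, ← map_union, expect_add_distrib, expect_sub_distrib,
    expect_const univ_nonempty] at u1 l1
  have p1 := abs_le.1 (prof H 2 (X ∩ Y) K)
  have p2 := abs_le.1 (prof H 2 (X ∩ Y) ∅)
  have p3 := abs_le.1 (prof H 2 ∅ univ)
  have p4 := abs_le.1 (prof H 0 X Kᶜ)
  have p5 := abs_le.1 (prof H 1 Y Kᶜ)
  have p6 := abs_le.1 (prof H 0 (X ∪ Y) Kᶜ)
  have c1 : ((Kᶜ).card : ℝ) = Fintype.card ι - K.card := by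
    rw [card_compl, Nat.cast_sub (card_le_univ K)]
  have c2 : ((X ∪ Y).card : ℝ) = X.card + Y.card - (X ∩ Y).card := by
    rw [← Nat.cast_add, ← card_union_add_card_inter, Nat.cast_add, add_sub_cancel_right]
  simp only [map_empty, expect_const univ_nonempty, card_empty, card_univ, div_self R0,
    Nat.cast_zero, zero_div, c1, c2] at p2 p3 p4 p5 p6
  have k1 : K.card * (t / (Fintype.card ι : ℝ) ^ 2 * (Fintype.card ι - (X ∩ Y).card)) =
      t * (1 - (1 - ((X ∩ Y).card : ℝ) / Fintype.card ι) * (1 - (K.card : ℝ) / Fintype.card ι)) -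
        t * (1 - (1 - ((X ∩ Y).card : ℝ) / Fintype.card ι) * (1 - 0)) := by
    field_simp
    ring
  have k2 : K.card * (t / (Fintype.card ι : ℝ) ^ 2 * (Fintype.card ι - (X ∩ Y).card)) =
      t * (1 - (1 - 0) * (1 - 1)) -
        (t * (1 - (1 - (X.card : ℝ) / Fintype.card ι) *
          (1 - (Fintype.card ι - K.card : ℝ) / Fintype.card ι)) +
        t * (1 - (1 - (Y.card : ℝ) / Fintype.card ι) *
          (1 - (Fintype.card ι - K.card : ℝ) / Fintype.card ι)) -
        t * (1 - (1 - (X.card + Y.card - (X ∩ Y).card : ℝ) / Fintype.card ι) *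
          (1 - (Fintype.card ι - K.card : ℝ) / Fintype.card ι))) := by
    field_simp
    ring
  rw [abs_le]
  constructor
  · linarith [p3.1, p4.2, p5.2, p6.1]
  · linarith [p1.2, p2.1]

/-- The mean information of the target column of the third role given the past. -/
noncomputable def phi (P : PS Ω) (f : Ω → α) (μ : Ω → β) (A B : Fin 3 → ι → Nm Ω) (q L : ℕ)
    (N : ι → Nm Ω) (X Y : Finset ι) : ℝ :=
  cols q L fun b T T' K =>
    P.D (B 2 b) (N b * (past f (A 0) (B 0) X T * past f (A 1) (B 1) Y T' * restP μ B K))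

theorem bar_phi (H : CoreHyp P x f μ A B t ε E) (hq : 0 < q) (hι : Fintype.card ι = 8 * q)
    (hL : 0 < L) (hLq : L ≤ q) (X Y : Finset ι) :
    |bar (phi P f μ A B q L fun _ => 1) X Y -
      t / (Fintype.card ι : ℝ) ^ 2 * (Fintype.card ι - (X ∩ Y).card)| ≤
      4 * (E + Fintype.card ι * ε) / L := by
  have L0 : (0 : ℝ) < L := Nat.cast_pos.2 hL
  have h := cols_tele hq hι hL hLq (fun T T' K => 𝔼 τ : Equiv.Perm ι,
    P.J ((∏ b ∈ K, B 2 b) * p0 μ A B (X.map τ.toEmbedding) (Y.map τ.toEmbedding) T T'))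
    (L * (t / (Fintype.card ι : ℝ) ^ 2 * (Fintype.card ι - (X ∩ Y).card)) -
      4 * (E + Fintype.card ι * ε))
    (L * (t / (Fintype.card ι : ℝ) ^ 2 * (Fintype.card ι - (X ∩ Y).card)) +
      4 * (E + Fintype.card ι * ε)) fun T T' K hT hT' hK => by
      have := abs_le.1 (bar_D H (by omega) X Y hT hT')
      simp only [hK, PS.D, expect_sub_distrib] at this
      simp only [prod_empty, one_mul]
      constructor <;> linarith [this.1, this.2]
  have e : bar (phi P f μ A B q L fun _ => 1) X Y = cols q L fun b T T' K =>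
      (𝔼 τ : Equiv.Perm ι, P.J ((∏ b ∈ insert b K, B 2 b) *
        p0 μ A B (X.map τ.toEmbedding) (Y.map τ.toEmbedding) T T')) -
      𝔼 τ : Equiv.Perm ι, P.J ((∏ b ∈ K, B 2 b) *
        p0 μ A B (X.map τ.toEmbedding) (Y.map τ.toEmbedding) T T') := by
    unfold bar phi
    rw [← cols_expect hq hι hL hLq]
    refine cols_congr fun b T T' K hb => ?_
    simp only [one_mul, D_past H b hb, expect_sub_distrib]
  rw [e, abs_le]
  rw [sub_div, add_div, mul_div_cancel_left₀ _ L0.ne'] at h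
  constructor <;> linarith [h.1, h.2]

theorem bar_psi (H : CoreHyp P x f μ A B t ε E) (hq : 0 < q) (hι : Fintype.card ι = 8 * q)
    (hL : 0 < L) (hLq : L ≤ q) (X Y : Finset ι) :
    |bar (phi P f μ A B q L fun b => B 0 b * B 1 b) X Y - 0| ≤ ε := by
  rw [sub_zero]
  refine (isAv_expect (univ : Finset (Equiv.Perm ι)) univ_nonempty).abs_le _ _ fun τ => ?_
  refine cols_abs hq hι hL hLq _ _ fun b T T' K => ?_
  rw [abs_of_nonneg (P.D_nonneg _ _)]
  exact le_trans (D_dvd P _ (mul_dvd_mul_left _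
    (dvd_mul_of_dvd_right (dvd_mul_right _ _) _))) (H.alB2 b)

omit [Fintype ι] in
theorem past_insert (f : Ω → α) (A B : ι → Nm Ω) {a : ι} {X : Finset ι} (h : a ∉ X)
    (T : Finset ι) : past f A B (insert a X) T = A a * past f A B X T := by
  unfold past
  rw [prod_insert h]
  simp only [mul_assoc, mul_left_comm]

end Main

end CoreF3

open CoreF3 in
theorem core_F3 : ∃ C : ℝ, 0 < C ∧ ∀ {Ω : Type} [Fintype Ω] {ι : Type} [Fintype ι]
    [DecidableEq ι] {α β : Type} [DecidableEq α] [DecidableEq β] (P : PS Ω) (x : Fin 3 → Ω → α)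
    (f : Ω → α) (μ : Ω → β) (A B : Fin 3 → ι → Nm Ω) (t ε E : ℝ) (q L : ℕ),
    CoreHyp P x f μ A B t ε E → 0 < q → Fintype.card ι = 8 * q → 0 < L → L ≤ q →
    (rows q fun a X Y => cols q L fun b T T' K =>
      P.I (B 2 b) (A 0 a * A 1 a) (B 0 b * B 1 b *
          (past f (A 0) (B 0) X T * past f (A 1) (B 1) Y T' * restP μ B K)) +
        P.I (A 0 a) (B 2 b) (past f (A 0) (B 0) X T * past f (A 1) (B 1) Y T' * restP μ B K) +
        P.I (A 1 a) (B 2 b) (past f (A 0) (B 0) X T * past f (A 1) (B 1) Y T' * restP μ B K)) ≤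
      C * dlt (Fintype.card ι) L ε E ∧
    t / (Fintype.card ι : ℝ) ^ 2 ≤ (rows q fun a X Y => cols q L fun b T T' K =>
      P.I (A 0 a * A 1 a) (B 2 b)
        (past f (A 0) (B 0) X T * past f (A 1) (B 1) Y T' * restP μ B K)) +
      C * dlt (Fintype.card ι) L ε E := by
  refine ⟨144, by norm_num, ?_⟩
  intro Ω _ ι _ _ α β _ _ P x f μ A B t ε E q L H hq hι hL hLq
  have hε := H.ε_nonneg
  have hE := H.E_nonneg
  have L0 : (0 : ℝ) < L := Nat.cast_pos.2 hL
  have LR : (L : ℝ) ≤ Fintype.card ι := Nat.cast_le.2 (by omega)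
  have s0 : 0 < √(Fintype.card ι : ℝ) := Real.sqrt_pos.2 (L0.trans_le LR)
  have d1 : (E + Fintype.card ι * ε) / L / √(Fintype.card ι) ≤ dlt (Fintype.card ι) L ε E := by
    unfold dlt
    rw [div_div, div_eq_mul_one_div]
    exact mul_le_mul_of_nonneg_left (le_add_of_nonneg_left (by positivity)) (by positivity)
  have d2 : ε / √(Fintype.card ι) ≤ (E + Fintype.card ι * ε) / L / √(Fintype.card ι) := by
    refine div_le_div_of_nonneg_right ?_ s0.le
    rw [le_div_iff₀ L0]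
    nlinarith
  have d0 : 0 ≤ ε / √(Fintype.card ι) := by positivity
  obtain ⟨s1, s2, s3⟩ := score hq hι (phi P f μ A B q L fun _ => 1)
    (fun X Y => t / (Fintype.card ι : ℝ) ^ 2 * (Fintype.card ι - (X ∩ Y).card)) _
    (fun τ X Y => by rw [← map_inter, card_map]) (bar_phi H hq hι hL hLq)
  obtain ⟨-, -, s4⟩ := score hq hι (phi P f μ A B q L fun b => B 0 b * B 1 b) (fun _ _ => 0) _
    (fun τ X Y => rfl) (bar_psi H hq hι hL hLq)
  rw [abs_le] at s1 s2 s3 s4
  have e1 : 16 * (4 * (E + Fintype.card ι * ε) / L) / √(Fintype.card ι) =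
      64 * ((E + Fintype.card ι * ε) / L / √(Fintype.card ι)) := by ring
  rw [e1] at s1 s2 s3
  rw [mul_div_assoc] at s4
  constructor
  · refine le_trans (rows_mono fun a X Y hX hY => ?_)
      (((rows_add hq hι _ _).trans_le (add_le_add ((rows_add hq hι _ _).trans_le
        (add_le_add s4.2 s1.2)) s2.2)).trans (by linarith))
    rw [insert_inter_of_notMem hY, inter_insert_of_notMem hX]
    simp only [sub_zero, sub_sub_sub_cancel_right]
    unfold phi
    simp only [← cols_sub hq hι hL hLq, ← cols_add hq hι hL hLq]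
    refine le_of_eq (cols_congr fun b T T' K _ => ?_)
    rw [past_insert f _ _ hX, past_insert f _ _ hY]
    simp only [one_mul]
    simp only [PS.D, PS.I, mul_assoc, mul_comm, mul_left_comm]
    ring
  · have h := (rows_add hq hι _ fun _ _ _ => t / (Fintype.card ι : ℝ) ^ 2).trans_ge
      (add_le_add s3.1 (rows_const hq hι _).ge)
    have e : ∀ p p' η R w : ℝ, p - η * (R - w) - (p' - η * (R - (w + 1))) + η = p - p' := by
      intros
      ring
    refine le_trans ?_ (add_le_add_left (h.trans (rows_mono fun a X Y hX hY => ?_)) _)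
    · linarith
    rw [← insert_inter_distrib, card_insert_of_notMem fun k => hX (mem_inter.1 k).1,
      Nat.cast_succ, e]
    unfold phi
    rw [← cols_sub hq hι hL hLq]
    refine le_of_eq (cols_congr fun b T T' K _ => ?_)
    rw [past_insert f _ _ hX, past_insert f _ _ hY]
    simp only [one_mul]
    simp only [PS.D, PS.I, mul_assoc, mul_comm, mul_left_comm]
    ring

end Pool.Agent.Lib.MP_a7c6c3_lc
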