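import Pool.Agent.Lib.MP_a7c6c3_lc.CoreF1
import Pool.Agent.Lib.MP_a7c6c3_lc.CoreF3
import Pool.Agent.Lib.MP_a7c6c3_lc.Cell

/-! Module `Core`: rare events of the two independent roles must coincide. -/

set_option autoImplicit false
open Finset
open scoped BigOperators

namespace Pool.Agent.Lib.MP_a7c6c3_lc

namespace CoreAsm

theorem isAv_comp {α β : Type} {E₁ : (α → ℝ) → ℝ} {E₂ : (β → ℝ) → ℝ} (h₁ : IsAv E₁)
    (h₂ : IsAv E₂) : IsAv fun G : α × β → ℝ => E₁ fun a => E₂ fun b => G (a, b) where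
  add f g := by
    rw [← h₁.add]
    exact congrArg E₁ (funext fun a => h₂.add (fun b => f (a, b)) fun b => g (a, b))
  smul c f := by
    rw [← h₁.smul]
    exact congrArg E₁ (funext fun a => h₂.smul c fun b => f (a, b))
  mono f g h := h₁.mono _ _ fun a => h₂.mono _ _ fun b => h (a, b)
  const c := (congrArg E₁ (funext fun _ => h₂.const c)).trans (h₁.const c)

variable {ι : Type} [Fintype ι] [DecidableEq ι] {q L : ℕ}

/-- The full design average. -/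
noncomputable def rc (q L : ℕ)
    (G : ι → Finset ι → Finset ι → ι → Finset ι → Finset ι → Finset ι → ℝ) : ℝ :=
  rows q fun a X Y => cols q L fun b T T' K => G a X Y b T T' K

section

variable (hq : 0 < q) (hι : Fintype.card ι = 8 * q) (hL : 0 < L) (hLq : L ≤ q)
include hq hι hL hLq

theorem isAv_rc :
    IsAv fun G : (ι × Finset ι × Finset ι) × (ι × Finset ι × Finset ι × Finset ι) → ℝ =>
      rc q L fun a X Y b T T' K => G ((a, X, Y), (b, T, T', K)) := by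
  have h := isAv_comp (isAv_rows hq hι) (isAv_cols hq hι hL hLq)
  exact h

theorem rc_mono {G G' : ι → Finset ι → Finset ι → ι → Finset ι → Finset ι → Finset ι → ℝ}
    (h : ∀ a X Y b T T' K, G a X Y b T T' K ≤ G' a X Y b T T' K) : rc q L G ≤ rc q L G' :=
  (isAv_rc hq hι hL hLq).mono (fun p => G p.1.1 p.1.2.1 p.1.2.2 p.2.1 p.2.2.1 p.2.2.2.1 p.2.2.2.2)
    (fun p => G' p.1.1 p.1.2.1 p.1.2.2 p.2.1 p.2.2.1 p.2.2.2.1 p.2.2.2.2) fun _ => h _ _ _ _ _ _ _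

theorem rc_add (G G' : ι → Finset ι → Finset ι → ι → Finset ι → Finset ι → Finset ι → ℝ) :
    (rc q L fun a X Y b T T' K => G a X Y b T T' K + G' a X Y b T T' K) = rc q L G + rc q L G' :=
  (isAv_rc hq hι hL hLq).add (fun p => G p.1.1 p.1.2.1 p.1.2.2 p.2.1 p.2.2.1 p.2.2.2.1 p.2.2.2.2)
    (fun p => G' p.1.1 p.1.2.1 p.1.2.2 p.2.1 p.2.2.1 p.2.2.2.1 p.2.2.2.2)

theorem rc_smul (c : ℝ) (G : ι → Finset ι → Finset ι → ι → Finset ι → Finset ι → Finset ι → ℝ) :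
    (rc q L fun a X Y b T T' K => c * G a X Y b T T' K) = c * rc q L G :=
  (isAv_rc hq hι hL hLq).smul c
    fun p => G p.1.1 p.1.2.1 p.1.2.2 p.2.1 p.2.2.1 p.2.2.2.1 p.2.2.2.2

theorem rc_const (c : ℝ) : (rc q L fun (_ : ι) _ _ _ _ _ _ => c) = c :=
  (isAv_rc hq hι hL hLq).const c

theorem rc_m {Ω : Type} [Fintype Ω] (P : PS Ω)
    (G : ι → Finset ι → Finset ι → ι → Finset ι → Finset ι → Finset ι → Ω → ℝ) :
    (rc q L fun a X Y b T T' K => P.m (G a X Y b T T' K)) =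
      P.m fun ω => rc q L fun a X Y b T T' K => G a X Y b T T' K ω := by
  have h := (isAv_rc hq hι hL hLq).sum univ
    fun ω p => P.p ω * G p.1.1 p.1.2.1 p.1.2.2 p.2.1 p.2.2.1 p.2.2.2.1 p.2.2.2.2 ω
  refine Eq.trans h (Finset.sum_congr rfl fun ω _ => ?_)
  exact rc_smul hq hι hL hLq (P.p ω) fun a X Y b T T' K => G a X Y b T T' K ω

/-- Averaging an inequality of the shape of the cell lemma. -/
theorem rc_shape (c κ θ ρ lg : ℝ)
    (G W F F' U V : ι → Finset ι → Finset ι → ι → Finset ι → Finset ι → Finset ι → ℝ)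
    (h : ∀ a X Y b T T' K, G a X Y b T T' K ≤ c * (W a X Y b T T' K +
      κ * ((F a X Y b T T' K + F' a X Y b T T' K) / θ + θ) + ρ +
      (U a X Y b T T' K + V a X Y b T T' K) * lg)) :
    rc q L G ≤ c * (rc q L W + κ * ((rc q L F + rc q L F') / θ + θ) + ρ +
      (rc q L U + rc q L V) * lg) := by
  have h' : ∀ a X Y b T T' K, G a X Y b T T' K ≤ c * W a X Y b T T' K +
      (c * κ / θ * F a X Y b T T' K + (c * κ / θ * F' a X Y b T T' K +
      (c * lg * U a X Y b T T' K + (c * lg * V a X Y b T T' K + c * (κ * θ + ρ))))) :=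
    fun a X Y b T T' K => (h a X Y b T T' K).trans_eq (by ring)
  refine (rc_mono hq hι hL hLq h').trans_eq ?_
  rw [rc_add hq hι hL hLq, rc_add hq hι hL hLq, rc_add hq hι hL hLq, rc_add hq hι hL hLq,
    rc_add hq hι hL hLq, rc_smul hq hι hL hLq, rc_smul hq hι hL hLq, rc_smul hq hι hL hLq,
    rc_smul hq hι hL hLq, rc_smul hq hι hL hLq, rc_const hq hι hL hLq]
  ring

end

omit [DecidableEq ι] in
theorem m_expect2 {Ω : Type} [Fintype Ω] (P : PS Ω) (G : ι → ι → Ω → ℝ) :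
    (P.m fun ω => 𝔼 a : ι, 𝔼 b : ι, G a b ω) = 𝔼 a : ι, 𝔼 b : ι, P.m (G a b) := by
  simp only [PS.m, mul_expect, expect_sum_comm]

theorem final_num {c c1 c3 κ θ ρ η G W W' F F' U U' V V' lg δ : ℝ} (c0 : 0 < c) (c10 : 0 < c1)
    (c30 : 0 < c3) (hκ : 2 ≤ κ) (hρ : 0 < ρ) (hθ : 0 < θ) (hθ' : θ ≤ 1) (h4 : η ≤ G + c3 * δ)
    (key : G ≤ c * (W' + κ * ((F + F') / θ + θ) + ρ + (U' + V') * lg)) (eW : W' = W)
    (eU : U' = U) (eV : V' = V) (h1 : F ≤ c1 * δ) (h3 : F' ≤ c3 * δ) (W0 : 0 ≤ W) (U0 : 0 ≤ U)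
    (V0 : 0 ≤ V) (l0 : 0 ≤ lg) (d0 : 0 ≤ δ) :
    η ≤ (c + (c * (c1 + c3) + c3)) * (W + κ * (δ / θ + θ) + ρ + (U + V) * lg) := by
  subst eW eU eV
  have k0 : 0 ≤ κ := by linarith
  have s1 := div_le_div_of_nonneg_right (add_le_add h1 h3) hθ.le
  have y5 : (c1 * δ + c3 * δ) / θ = (c1 + c3) * (δ / θ) := by ring
  rw [y5] at s1
  have s2 : c * (κ * ((F + F') / θ)) ≤ c * (κ * ((c1 + c3) * (δ / θ))) :=
    mul_le_mul_of_nonneg_left (mul_le_mul_of_nonneg_left s1 k0) c0.le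
  have y0 : 0 ≤ δ / θ := by positivity
  have y1 : δ ≤ κ * (δ / θ) := by
    have : δ ≤ δ / θ := by
      rw [le_div_iff₀ hθ]
      nlinarith
    nlinarith
  have y2 : c3 * δ ≤ c3 * (κ * (δ / θ)) := mul_le_mul_of_nonneg_left y1 c30.le
  have y3 : 0 ≤ (c * (c1 + c3) + c3) * (W' + κ * θ + ρ + (U' + V') * lg) := by positivity
  have y4 : 0 ≤ c * (κ * (δ / θ)) := by positivity
  linarith

end CoreAsm

open CoreAsm in
theorem core : ∃ C : ℝ, 0 < C ∧ ∀ {Ω : Type} [Fintype Ω] {ι : Type} [Fintype ι]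
    [DecidableEq ι] {α β : Type} [DecidableEq α] [DecidableEq β] (P : PS Ω) (x : Fin 3 → Ω → α)
    (f : Ω → α) (μ : Ω → β) (A B : Fin 3 → ι → Nm Ω) (t ε E : ℝ) (q L : ℕ) (κ ρ θ : ℝ),
    CoreHyp P x f μ A B t ε E → 0 < q → Fintype.card ι = 8 * q → 0 < L → L ≤ q →
    2 ≤ κ → 0 < ρ → ρ ≤ 1 / 4 → 0 < θ → θ ≤ 1 →
    t / (Fintype.card ι : ℝ) ^ 2 ≤ C *
      ((𝔼 a : ι, 𝔼 b : ι, P.m fun ω =>
          wloc P q κ f (A 0) (B 0) a b ω * vloc P q κ f (A 1) (B 1) a b ω +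
          vloc P q κ f (A 0) (B 0) a b ω * wloc P q κ f (A 1) (B 1) a b ω) +
        κ * (dlt (Fintype.card ι) L ε E / θ + θ) + ρ +
        ((𝔼 a : ι, 𝔼 b : ι, P.m (tloc P q κ f (A 0) (B 0) a b)) +
          𝔼 a : ι, 𝔼 b : ι, P.m (tloc P q κ f (A 1) (B 1) a b)) * (1 + Real.log (1 / ρ))) := by
  obtain ⟨c, c0, hc⟩ := cell_lemma
  obtain ⟨c1, c10, h1⟩ := core_F1
  obtain ⟨c3, c30, h3⟩ := core_F3
  refine ⟨c + (c * (c1 + c3) + c3), by positivity, ?_⟩
  intro Ω _ ι _ _ α β _ _ P x f μ A B t ε E q L κ ρ θ H hq hι hL hLq hκ hρ hρ' hθ hθ'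
  have k0 : 0 ≤ κ := by linarith
  replace h1 := h1 P x f μ A B t ε E q L H hq hι hL hLq
  obtain ⟨h3, h4⟩ := h3 P x f μ A B t ε E q L H hq hι hL hLq
  have key := rc_shape hq hι hL hLq c κ θ ρ (1 + Real.log (1 / ρ))
    (fun a X Y b T T' K => P.I (A 0 a * A 1 a) (B 2 b)
      (past f (A 0) (B 0) X T * past f (A 1) (B 1) Y T' * restP μ B K))
    (fun a X Y b T T' _ => P.m fun ω =>
      P.wfun κ (past f (A 0) (B 0) X T) (A 0 a) (B 0 b) ω *
        P.vfun κ (past f (A 1) (B 1) Y T') (A 1 a) (B 1 b) ω +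
      P.vfun κ (past f (A 0) (B 0) X T) (A 0 a) (B 0 b) ω *
        P.wfun κ (past f (A 1) (B 1) Y T') (A 1 a) (B 1 b) ω)
    (fun a X Y b T T' K =>
      P.I (B 0 b) (past f (A 1) (B 1) Y T' * restP μ B K * A 1 a * B 1 b)
          (past f (A 0) (B 0) X T * A 0 a) +
        P.I (B 0 b) (past f (A 1) (B 1) Y T' * restP μ B K * A 1 a * B 1 b)
          (past f (A 0) (B 0) X T) +
        P.I (B 1 b) (past f (A 0) (B 0) X T * restP μ B K * A 0 a * B 0 b)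
          (past f (A 1) (B 1) Y T' * A 1 a) +
        P.I (B 1 b) (past f (A 0) (B 0) X T * restP μ B K * A 0 a * B 0 b)
          (past f (A 1) (B 1) Y T'))
    (fun a X Y b T T' K =>
      P.I (B 2 b) (A 0 a * A 1 a) (B 0 b * B 1 b *
          (past f (A 0) (B 0) X T * past f (A 1) (B 1) Y T' * restP μ B K)) +
        P.I (A 0 a) (B 2 b) (past f (A 0) (B 0) X T * past f (A 1) (B 1) Y T' * restP μ B K) +
        P.I (A 1 a) (B 2 b) (past f (A 0) (B 0) X T * past f (A 1) (B 1) Y T' * restP μ B K))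
    (fun a X _ b T _ _ => P.m (P.tfun κ (past f (A 0) (B 0) X T) (A 0 a) (B 0 b)))
    (fun a _ Y b _ T' _ => P.m (P.tfun κ (past f (A 1) (B 1) Y T') (A 1 a) (B 1 b)))
    fun a X Y b T T' K => (hc P (past f (A 0) (B 0) X T) (past f (A 1) (B 1) Y T') (restP μ B K)
      (A 0 a) (A 1 a) (B 0 b) (B 1 b) (B 2 b) κ ρ θ hκ hρ hρ' hθ hθ').trans_eq (by ring)
  have eW : (rc q L fun a X Y b T T' _ => P.m fun ω =>
      P.wfun κ (past f (A 0) (B 0) X T) (A 0 a) (B 0 b) ω *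
        P.vfun κ (past f (A 1) (B 1) Y T') (A 1 a) (B 1 b) ω +
      P.vfun κ (past f (A 0) (B 0) X T) (A 0 a) (B 0 b) ω *
        P.wfun κ (past f (A 1) (B 1) Y T') (A 1 a) (B 1 b) ω) =
      𝔼 a : ι, 𝔼 b : ι, P.m fun ω =>
          wloc P q κ f (A 0) (B 0) a b ω * vloc P q κ f (A 1) (B 1) a b ω +
          vloc P q κ f (A 0) (B 0) a b ω * wloc P q κ f (A 1) (B 1) a b ω := by
    rw [rc_m hq hι hL hLq, ← m_expect2]
    congr 1
    funext ω
    rw [rc_add hq hι hL hLq]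
    simp only [expect_add_distrib]
    exact congrArg₂ (· + ·)
      (rows_cols_mul hq hι hL hLq
        (fun a b X T => P.wfun κ (past f (A 0) (B 0) X T) (A 0 a) (B 0 b) ω)
        fun a b X T => P.vfun κ (past f (A 1) (B 1) X T) (A 1 a) (B 1 b) ω)
      (rows_cols_mul hq hι hL hLq
        (fun a b X T => P.vfun κ (past f (A 0) (B 0) X T) (A 0 a) (B 0 b) ω)
        fun a b X T => P.wfun κ (past f (A 1) (B 1) X T) (A 1 a) (B 1 b) ω)
  have eU : (rc q L fun a X _ b T _ _ =>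
      P.m (P.tfun κ (past f (A 0) (B 0) X T) (A 0 a) (B 0 b))) =
      𝔼 a : ι, 𝔼 b : ι, P.m (tloc P q κ f (A 0) (B 0) a b) := by
    rw [rc_m hq hι hL hLq, ← m_expect2]
    congr 1
    funext ω
    exact rows_cols_left hq hι hL hLq
      fun a b X T => P.tfun κ (past f (A 0) (B 0) X T) (A 0 a) (B 0 b) ω
  have eV : (rc q L fun a _ Y b _ T' _ =>
      P.m (P.tfun κ (past f (A 1) (B 1) Y T') (A 1 a) (B 1 b))) =
      𝔼 a : ι, 𝔼 b : ι, P.m (tloc P q κ f (A 1) (B 1) a b) := by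
    rw [rc_m hq hι hL hLq, ← m_expect2]
    congr 1
    funext ω
    exact rows_cols_right hq hι hL hLq
      fun a b X T => P.tfun κ (past f (A 1) (B 1) X T) (A 1 a) (B 1 b) ω
  refine final_num c0 c10 c30 hκ hρ hθ hθ' h4 key eW eU eV h1 h3 ?_ ?_ ?_ ?_ ?_
  · refine expect_nonneg fun a _ => expect_nonneg fun b _ => P.m_nonneg fun ω => ?_
    obtain ⟨w0, v0, -, -⟩ := loc_bounds P hq hι k0 f (A 0) (B 0) a b ω
    obtain ⟨w1, v1, -, -⟩ := loc_bounds P hq hι k0 f (A 1) (B 1) a b ω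
    exact add_nonneg (mul_nonneg w0 v1) (mul_nonneg v0 w1)
  · exact expect_nonneg fun a _ => expect_nonneg fun b _ => P.m_nonneg fun ω =>
      (loc_bounds P hq hι k0 f (A 0) (B 0) a b ω).2.2.2
  · exact expect_nonneg fun a _ => expect_nonneg fun b _ => P.m_nonneg fun ω =>
      (loc_bounds P hq hι k0 f (A 1) (B 1) a b ω).2.2.2
  · exact add_nonneg zero_le_one (Real.log_nonneg
      ((le_div_iff₀ hρ).2 ((one_mul ρ).trans_le (hρ'.trans (by norm_num)))))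
  · exact mul_nonneg (add_nonneg H.E_nonneg (mul_nonneg (Nat.cast_nonneg _) H.ε_nonneg))
      (add_nonneg (div_nonneg (Nat.cast_nonneg _) (sq_nonneg _))
        (div_nonneg zero_le_one (mul_nonneg (Nat.cast_nonneg _) (Real.sqrt_nonneg _))))

end Pool.Agent.Lib.MP_a7c6c3_lc
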