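import Pool.Agent.Lib.MP_a7c6c3_lc.CellDefs

/-! Hypotheses of the core argument. -/

set_option autoImplicit false
open Finset
open scoped BigOperators

namespace Pool.Agent.Lib.MP_a7c6c3_lc

variable {Ω : Type} [Fintype Ω] {ι : Type} [Fintype ι] [DecidableEq ι] {α β : Type}
  [DecidableEq α] [DecidableEq β]

/-- Three states `x 0, x 1, x 2`, frame `f`, mask `μ`, rows `A u` and columns `B u`. -/
structure CoreHyp (P : PS Ω) (x : Fin 3 → Ω → α) (f : Ω → α) (μ : Ω → β)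
    (A B : Fin 3 → ι → Nm Ω) (t ε E : ℝ) : Prop where
  ε_nonneg : 0 ≤ ε
  E_nonneg : 0 ≤ E
  refx : ∀ u, Ref (x u) f
  refμ : Ref μ f
  measA : ∀ u a, Meas (x u) (A u a)
  measB : ∀ u b, Meas (x u) (B u b)
  alA2 : ∀ a, P.D (A 2 a) (A 0 a * A 1 a * det μ) ≤ ε
  alA0 : ∀ a, P.D (A 0 a) (A 1 a * det (x 2) * det μ) ≤ ε
  alB2 : ∀ b, P.D (B 2 b) (B 0 b * B 1 b * det μ) ≤ ε
  i01 : P.I (det (x 0)) (det (x 1) * det μ) (det f) ≤ ε
  i10 : P.I (det (x 1)) (det (x 0) * det μ) (det f) ≤ ε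
  i02 : P.I (det (x 0)) (det (x 2) * det μ) (det f) ≤ ε
  i2μ : P.I (det (x 2)) (det μ) (det f) ≤ ε
  prof : ∀ u (S T : Finset ι),
    |(𝔼 τ : Equiv.Perm ι, P.D ((∏ a ∈ S, A u (τ a)) * ∏ b ∈ T, B u b) (det f)) -
      t * (1 - (1 - (S.card : ℝ) / Fintype.card ι) * (1 - (T.card : ℝ) / Fintype.card ι))| ≤ E

/-- The common part of the past: mask and extra columns of the third role. -/
noncomputable def restP (μ : Ω → β) (B : Fin 3 → ι → Nm Ω) (K : Finset ι) : Nm Ω :=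
  det μ * ∏ b ∈ K, B 2 b

/-- The size of all amortised errors. -/
noncomputable def dlt (R L ε E : ℝ) : ℝ := (E + R * ε) * (L / R ^ 2 + 1 / (L * √R))

end Pool.Agent.Lib.MP_a7c6c3_lc
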