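import Pool.Agent.Lib.MP_a7c6c3_lc.CoreDefs
import Pool.Agent.Lib.MP_a7c6c3_lc.Design3
import Pool.Agent.Lib.MP_a7c6c3_lc.Basic

/-! Module `CoreF1`: the target column depends only on the own past. -/

set_option autoImplicit false
open Finset
open scoped BigOperators

namespace Pool.Agent.Lib.MP_a7c6c3_lc

namespace CoreF1

variable {Ω : Type} [Fintype Ω] {ι : Type} [Fintype ι] [DecidableEq ι] {α β : Type}
  [DecidableEq α] [DecidableEq β] {q L : ℕ} (hq : 0 < q) (hι : Fintype.card ι = 8 * q)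
  (hL : 0 < L) (hLq : L ≤ q)

include hq hι hL hLq in
theorem cols_add (F G : ι → Finset ι → Finset ι → Finset ι → ℝ) :
    (cols q L fun b T T' K => F b T T' K + G b T T' K) = cols q L F + cols q L G :=
  (isAv_cols hq hι hL hLq).add (fun p => F p.1 p.2.1 p.2.2.1 p.2.2.2)
    fun p => G p.1 p.2.1 p.2.2.1 p.2.2.2

include hq hι hL hLq in
theorem cols_expect {γ : Type} (s : Finset γ) (F : γ → ι → Finset ι → Finset ι → Finset ι → ℝ) :
    (cols q L fun b T T' K => 𝔼 c ∈ s, F c b T T' K) = 𝔼 c ∈ s, cols q L (F c) :=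
  (isAv_cols hq hι hL hLq).expect s fun c p => F c p.1 p.2.1 p.2.2.1 p.2.2.2

include hq hι in
theorem rows_add (F G : ι → Finset ι → Finset ι → ℝ) :
    (rows q fun a X Y => F a X Y + G a X Y) = rows q F + rows q G :=
  (isAv_rows hq hι).add (fun p => F p.1 p.2.1 p.2.2) fun p => G p.1 p.2.1 p.2.2

include hq hι in
/-- Symmetrisation of the row average. -/
theorem rows_le (F : ι → Finset ι → Finset ι → ℝ) {c : ℝ} (h : ∀ (a : ι) (X Y : Finset ι),
    𝔼 τ : Equiv.Perm ι, F (τ a) (X.map τ.toEmbedding) (Y.map τ.toEmbedding) ≤ c) :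
    rows q F ≤ c := by
  have h1 : (rows q fun a X Y => 𝔼 τ : Equiv.Perm ι,
      F (τ a) (X.map τ.toEmbedding) (Y.map τ.toEmbedding)) = 𝔼 τ : Equiv.Perm ι,
      rows q fun a X Y => F (τ a) (X.map τ.toEmbedding) (Y.map τ.toEmbedding) :=
    (isAv_rows hq hι).expect univ fun (τ : Equiv.Perm ι) (p : ι × Finset ι × Finset ι) =>
      F (τ p.1) (p.2.1.map τ.toEmbedding) (p.2.2.map τ.toEmbedding)
  have h2 : (rows q fun (_ : ι) _ _ => c) = c := (isAv_rows hq hι).const c
  simp only [rows_perm, expect_const univ_nonempty] at h1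
  rw [← h1, ← h2]
  exact rows_mono fun a X Y _ _ => h a X Y

include hq hι in
theorem rows_two (G : Finset ι → ℝ) {c : ℝ}
    (h : ∀ S : Finset ι, 𝔼 τ : Equiv.Perm ι, G (S.map τ.toEmbedding) ≤ c) :
    (rows q fun a X _ => G (insert a X) + G X) ≤ c + c := by
  rw [rows_add hq hι]
  refine add_le_add (rows_le hq hι _ fun a X _ => ?_) (rows_le hq hι _ fun _ X _ => h X)
  simpa only [map_insert, Equiv.coe_toEmbedding] using h (insert a X)

variable (P : PS Ω)

omit [Fintype ι] in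
theorem submod (B : ι → Nm Ω) (N C : Nm Ω) (S T : Finset ι) :
    P.D (N * ∏ b ∈ S ∪ T, B b) C + P.D (N * ∏ b ∈ S ∩ T, B b) C ≤
      P.D (N * ∏ b ∈ S, B b) C + P.D (N * ∏ b ∈ T, B b) C := by
  have h := P.J_submod (∏ b ∈ S \ T, B b) (∏ b ∈ T \ S, B b) (N * (∏ b ∈ S ∩ T, B b) * C)
  have e1 : ∏ b ∈ S, B b = (∏ b ∈ S ∩ T, B b) * ∏ b ∈ S \ T, B b :=
    (prod_inter_mul_prod_sdiff S T B).symm
  have e2 : ∏ b ∈ T, B b = (∏ b ∈ S ∩ T, B b) * ∏ b ∈ T \ S, B b := by
    rw [inter_comm, prod_inter_mul_prod_sdiff]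
  have e3 : ∏ b ∈ S ∪ T, B b = (∏ b ∈ S, B b) * ∏ b ∈ T \ S, B b := by
    rw [← prod_union disjoint_sdiff, union_sdiff_self_eq_union]
  rw [e3, e2, e1]
  simp only [PS.D, mul_comm, mul_left_comm] at *
  linarith

theorem split (b Z W K T N F : Nm Ω) : P.I b (W * Z) (F * N * T) ≤
    (P.D (N * (b * T)) F - P.D (N * T) F - (P.D (N * (b * (T * K))) F - P.D (N * (T * K)) F)) +
      (P.I (b * T) W (N * K * F) - P.I T W (N * K * F)) +
      (P.I (b * T) Z (W * (N * K * F)) - P.I T Z (W * (N * K * F))) := by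
  have h := P.I_mono_right b (W * Z) K (F * N * T)
  simp only [PS.D, PS.I, mul_comm, mul_left_comm] at *
  linarith

theorem le_det {y : Ω → α} {N : Nm Ω} (h : Meas y N) (b Z C : Nm Ω) :
    P.I b (N * Z) C ≤ P.I b (det y * Z) C := by
  have h := P.I_le_det h b (Z * C)
  simp only [PS.I, mul_assoc, mul_comm, mul_left_comm] at *
  linarith

include hq hι hL hLq in
theorem role {x f : Ω → α} {W : Nm Ω} {A B B' : ι → Nm Ω} {t ε E : ℝ} (hε : 0 ≤ ε)
    (hA : ∀ a, Meas x (A a)) (hB : ∀ b, Meas x (B b)) (h1 : P.I (det x) W (det f) ≤ ε)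
    (h2 : ∀ b, P.D (B' b) (B b * W) ≤ ε) (h3 : ∀ S T : Finset ι,
      |(𝔼 τ : Equiv.Perm ι, P.D ((∏ a ∈ S, A (τ a)) * ∏ b ∈ T, B b) (det f)) -
        t * (1 - (1 - (S.card : ℝ) / Fintype.card ι) * (1 - (T.card : ℝ) / Fintype.card ι))| ≤ E)
    (S : Finset ι) : 𝔼 τ : Equiv.Perm ι, (cols q L fun b T _ K =>
      P.I (B b) (W * ∏ b ∈ K, B' b) (past f A B (S.map τ.toEmbedding) T)) ≤
        4 * L * E / q ^ 2 + (ε / q + L * ε / q) := by
  set φ : Equiv.Perm ι → Finset ι → ℝ := fun τ T =>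
    P.D ((∏ a ∈ S, A (τ a)) * ∏ b ∈ T, B b) (det f) with hφ
  have e1 := cols_second hq hι hL hLq (fun T => 𝔼 τ, φ τ T) (fun T T' => by
      rw [← expect_add_distrib, ← expect_add_distrib]
      exact expect_le_expect fun τ _ => submod P B _ _ T T') (t * (S.card / Fintype.card ι))
    (t * (1 - S.card / Fintype.card ι) / Fintype.card ι) E fun i hi => by
      have hn : (powersetCard i (univ : Finset ι)).Nonempty := powersetCard_nonempty.2 hi
      rw [lev, ← expect_const hn (_ + _), ← expect_sub_distrib]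
      refine (abs_expect_le _ _).trans (expect_le hn fun T hT => ?_)
      refine le_of_eq_of_le (congrArg (fun z => |𝔼 τ, φ τ T - z|) ?_) (h3 S T)
      rw [(mem_powersetCard.1 hT).2]
      ring
  simp only [← expect_sub_distrib] at e1
  rw [cols_expect hq hι hL hLq] at e1
  refine le_trans ?_ (add_le_add e1 le_rfl)
  rw [← expect_const univ_nonempty (s := (univ : Finset (Equiv.Perm ι))) (_ / _ + _),
    ← expect_add_distrib]
  refine expect_le_expect fun τ _ => ?_
  have m1 : ∀ K : Finset ι, Meas x ((∏ a ∈ S, A (τ a)) * ∏ b ∈ K, B b) := fun K =>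
    (meas_prod _ _ fun _ _ => hA _).mul (meas_prod _ _ fun _ _ => hB _)
  have e2 := cols_own hq hι hL hLq (fun T K => P.I (∏ b ∈ T, B b) W
    ((∏ a ∈ S, A (τ a)) * (∏ b ∈ K, B b) * det f)) ε fun T K _ => ⟨P.I_nonneg _ _ _,
      (P.I_cond_le_det (meas_prod _ _ fun _ _ => hB _) (m1 K) _ _).trans h1⟩
  have e3 := cols_own hq hι hL hLq (fun T K => P.I (∏ b ∈ T, B b) (∏ b ∈ K, B' b)
    (W * ((∏ a ∈ S, A (τ a)) * (∏ b ∈ K, B b) * det f))) (L * ε) fun T K hK =>
      ⟨P.I_nonneg _ _ _, by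
        rw [P.I_comm]
        refine (P.I_le_D _ _ _).trans ((P.D_prod_le _ _ _).trans ((sum_le_card_nsmul _ _ ε
          fun b hb => ?_).trans ?_))
        · have := P.D_anti (B' b) ((∏ a ∈ S, A (τ a)) * (∏ b ∈ K.erase b, B b) * det f) (B b * W)
          rw [← mul_prod_erase K B hb]
          simp only [mul_assoc, mul_comm, mul_left_comm] at this ⊢
          exact this.trans (by simpa only [mul_comm] using h2 b)
        · rw [nsmul_eq_mul]
          exact mul_le_mul_of_nonneg_right (by exact_mod_cast hK) hε⟩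
  refine le_trans ?_ (add_le_add le_rfl (add_le_add e2 e3))
  rw [← cols_add hq hι hL hLq, ← cols_add hq hι hL hLq]
  refine cols_mono fun b T T' K b1 _ b2 d _ _ _ _ _ _ => ?_
  simp only [hφ, past, prod_map, Equiv.coe_toEmbedding, prod_insert b1, prod_union d,
    prod_insert (show b ∉ T ∪ K by simp [b1, b2])]
  exact (split P _ _ _ _ _ _ _).trans_eq (add_assoc _ _ _)

end CoreF1

open CoreF1 in
theorem core_F1 : ∃ C : ℝ, 0 < C ∧ ∀ {Ω : Type} [Fintype Ω] {ι : Type} [Fintype ι]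
    [DecidableEq ι] {α β : Type} [DecidableEq α] [DecidableEq β] (P : PS Ω) (x : Fin 3 → Ω → α)
    (f : Ω → α) (μ : Ω → β) (A B : Fin 3 → ι → Nm Ω) (t ε E : ℝ) (q L : ℕ),
    CoreHyp P x f μ A B t ε E → 0 < q → Fintype.card ι = 8 * q → 0 < L → L ≤ q →
    (rows q fun a X Y => cols q L fun b T T' K =>
      P.I (B 0 b) (past f (A 1) (B 1) Y T' * restP μ B K * A 1 a * B 1 b)
          (past f (A 0) (B 0) X T * A 0 a) +
        P.I (B 0 b) (past f (A 1) (B 1) Y T' * restP μ B K * A 1 a * B 1 b)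
          (past f (A 0) (B 0) X T) +
        P.I (B 1 b) (past f (A 0) (B 0) X T * restP μ B K * A 0 a * B 0 b)
          (past f (A 1) (B 1) Y T' * A 1 a) +
        P.I (B 1 b) (past f (A 0) (B 0) X T * restP μ B K * A 0 a * B 0 b)
          (past f (A 1) (B 1) Y T')) ≤ C * dlt (Fintype.card ι) L ε E := by
  refine ⟨1024, by norm_num, fun {Ω} _ {ι} _ _ {α β} _ _ P x f μ A B t ε E q L h hq hι hL hLq => ?_⟩
  have al : ∀ u v b, B u b * B v b = B 0 b * B 1 b →
      P.D (B 2 b) (B u b * (det (x v) * det μ)) ≤ ε := fun u v b e => by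
    have := P.D_det_le (h.measB v b) (B 2 b) (B u b * det μ)
    rw [← mul_assoc (B v b), mul_comm (B v b), e, mul_left_comm] at this
    exact this.trans (h.alB2 b)
  have r0 := rows_two hq hι (fun S => cols q L fun b T _ K => P.I (B 0 b)
    (det (x 1) * det μ * ∏ b ∈ K, B 2 b) (past f (A 0) (B 0) S T)) (role hq hι hL hLq P h.ε_nonneg (h.measA 0) (h.measB 0) h.i01
    (fun b => al 0 1 b rfl) (h.prof 0))
  have r1 := rows_two hq hι (fun S => cols q L fun b T _ K => P.I (B 1 b)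
    (det (x 0) * det μ * ∏ b ∈ K, B 2 b) (past f (A 1) (B 1) S T)) (role hq hι hL hLq P h.ε_nonneg (h.measA 1) (h.measB 1) h.i10
    (fun b => al 1 0 b (mul_comm _ _)) (h.prof 1))
  have key : ∀ v a b (Y T K : Finset ι) (N C : Nm Ω),
      P.I N (past f (A v) (B v) Y T * restP μ B K * A v a * B v b) C ≤
        P.I N (det (x v) * det μ * ∏ b ∈ K, B 2 b) C := fun v a b Y T K N C => by
    have := le_det P (((((meas_det (h.refx v)).mul (meas_prod Y _ fun a _ => h.measA v a)).mul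
      (meas_prod T _ fun b _ => h.measB v b)).mul (h.measA v a)).mul (h.measB v b)) N
      (restP μ B K) C
    simp only [past, restP, mul_assoc, mul_comm, mul_left_comm] at this ⊢
    exact this
  have ins : ∀ u {a} {X : Finset ι} (T : Finset ι), a ∉ X →
      past f (A u) (B u) X T * A u a = past f (A u) (B u) (insert a X) T := fun u a X T ha => by
    simp only [past, prod_insert ha, mul_assoc, mul_comm, mul_left_comm]
  rw [rows_swap] at r1
  refine le_trans (le_trans (rows_mono fun a X Y ha ha' => ?_) (rows_add hq hι _ _).le)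
    ((add_le_add r0 r1).trans ?_)
  · rw [← cols_add hq hι hL hLq, ← cols_add hq hι hL hLq, cols_swap (fun b T _ K =>
      P.I (B 1 b) _ (past f (A 1) (B 1) (insert a Y) T) + _), ← cols_add hq hι hL hLq]
    refine cols_mono fun b T T' K _ _ _ _ _ _ _ _ _ _ => ?_
    rw [ins 0 T ha, ins 1 T' ha', add_assoc]
    exact add_le_add (add_le_add (key _ _ _ _ _ _ _ _) (key _ _ _ _ _ _ _ _))
      (add_le_add (key _ _ _ _ _ _ _ _) (key _ _ _ _ _ _ _ _))
  · have q0 : (0 : ℝ) < q := by exact_mod_cast hq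
    have l1 : (1 : ℝ) ≤ L := by exact_mod_cast hL
    have h1 := h.ε_nonneg
    have h2 := h.E_nonneg
    have h3 : ε / q ≤ L * ε / q := by gcongr; nlinarith
    have h4 : 0 ≤ L * ε / q := by positivity
    have h5 : 0 ≤ (E + 8 * q * ε) * (1 / (L * √(8 * q))) := by positivity
    have h6 : (E + 8 * q * ε) * (L / (8 * q) ^ 2) = 4 * L * E / q ^ 2 / 256 + L * ε / q / 8 := by
      field_simp
      ring
    rw [dlt, hι, mul_add]
    push_cast
    linarith

end Pool.Agent.Lib.MP_a7c6c3_lc
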