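import Mathlib

/-!
# Probability framework for MP_a7c6c3_lc

A *name* over a finite space `Ω` is a randomised function of `ω : Ω`, recorded as the multiset of
the likelihood vectors `ω ↦ P(value = v | ω)` of its values `v`.  The product of names is the joint
value of conditionally independent draws.  `J N` is the mutual information between `ω` and `N`.
-/

set_option autoImplicit false
open Finset

namespace Pool.Agent.Lib.MP_a7c6c3_lc

theorem msum_fsum {α β : Type} (s : Multiset α) (t : Finset β) (g : β → α → ℝ) :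
    (s.map fun x => ∑ i ∈ t, g i x).sum = ∑ i ∈ t, (s.map (g i)).sum := by
  induction s using Multiset.induction_on with
  | empty => simp
  | cons a s ih => simp [ih, Finset.sum_add_distrib]

/-- A finite probability space with full support. -/
structure PS (Ω : Type) [Fintype Ω] where
  p : Ω → ℝ
  pos : ∀ ω, 0 < p ω
  sum_one : ∑ ω, p ω = 1

/-- A name: the multiset of likelihood vectors of a randomised function on `Ω`. -/
@[ext] structure Nm (Ω : Type) where
  s : Multiset (Ω → ℝ)
  nonneg : ∀ l ∈ s, ∀ ω, 0 ≤ l ω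
  sum_one : ∀ ω, (s.map fun l => l ω).sum = 1

namespace Nm

variable {Ω Ω' : Type}

/-- Joint value of two independent draws. -/
def mul (A B : Nm Ω) : Nm Ω where
  s := A.s.bind fun a => B.s.map fun b => a * b
  nonneg := by
    intro l hl ω
    simp only [Multiset.mem_bind, Multiset.mem_map] at hl
    obtain ⟨a, ha, b, hb, rfl⟩ := hl
    exact mul_nonneg (A.nonneg a ha ω) (B.nonneg b hb ω)
  sum_one := by
    intro ω
    rw [Multiset.map_bind, Multiset.sum_bind]
    have : ∀ a : Ω → ℝ, ((B.s.map fun b => a * b).map fun l => l ω).sum = a ω := by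
      intro a
      rw [Multiset.map_map]
      have := B.sum_one ω
      simp only [Function.comp_def, Pi.mul_apply]
      rw [Multiset.sum_map_mul_left, this, mul_one]
    simp only [this]
    exact A.sum_one ω

/-- The trivial name. -/
def one : Nm Ω where
  s := {1}
  nonneg := by
    intro l hl ω
    rw [Multiset.mem_singleton] at hl
    subst hl
    exact zero_le_one
  sum_one := by intro ω; simp

instance : CommMonoid (Nm Ω) where
  mul := mul
  one := one
  mul_assoc A B C := by
    apply Nm.ext
    change (A.s.bind fun a => B.s.map fun b => a * b).bind (fun x => C.s.map fun c => x * c) =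
      A.s.bind fun a => (B.s.bind fun b => C.s.map fun c => b * c).map fun y => a * y
    rw [Multiset.bind_assoc]
    congr 1
    funext a
    rw [Multiset.bind_map, Multiset.map_bind]
    congr 1
    funext b
    rw [Multiset.map_map]
    congr 1
    funext c
    simp [mul_assoc]
  one_mul A := by
    apply Nm.ext
    change (({1} : Multiset (Ω → ℝ)).bind fun a => A.s.map fun b => a * b) = A.s
    simp
  mul_one A := by
    apply Nm.ext
    change (A.s.bind fun a => ({1} : Multiset (Ω → ℝ)).map fun b => a * b) = A.s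
    simp only [Multiset.map_singleton, mul_one]
    exact (Multiset.bind_singleton _ id).trans (Multiset.map_id _)
  mul_comm A B := by
    apply Nm.ext
    change (A.s.bind fun a => B.s.map fun b => a * b) = B.s.bind fun b => A.s.map fun a => b * a
    rw [Multiset.bind_map_comm]
    simp only [mul_comm]

theorem mul_s (A B : Nm Ω) : (A * B).s = A.s.bind fun a => B.s.map fun b => a * b := rfl

theorem one_s : (1 : Nm Ω).s = {1} := rfl

/-- Sum of a functional over the values (likelihood vectors) of a name. -/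
def lin (N : Nm Ω) (Ψ : (Ω → ℝ) → ℝ) : ℝ := (N.s.map Ψ).sum

/-- Pull a name back along a map of spaces. -/
def lift (g : Ω' → Ω) (N : Nm Ω) : Nm Ω' where
  s := N.s.map fun l => l ∘ g
  nonneg := by
    intro l hl ω
    simp only [Multiset.mem_map] at hl
    obtain ⟨a, ha, rfl⟩ := hl
    exact N.nonneg a ha _
  sum_one := by
    intro ω
    rw [Multiset.map_map]
    exact N.sum_one (g ω)

end Nm

variable {Ω : Type} [Fintype Ω]

/-- The deterministic name given by a function. -/
def det {α : Type} [DecidableEq α] (f : Ω → α) : Nm Ω where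
  s := (univ.image f).val.map fun v ω => if f ω = v then 1 else 0
  nonneg := by
    intro l hl ω
    simp only [Multiset.mem_map] at hl
    obtain ⟨v, -, rfl⟩ := hl
    dsimp only
    split_ifs <;> norm_num
  sum_one := by
    intro ω
    rw [Multiset.map_map]
    change ∑ v ∈ univ.image f, (if f ω = v then (1 : ℝ) else 0) = 1
    rw [Finset.sum_ite_eq]
    simp

/-- `g` is a function of `f`. -/
def Ref {Ω α β : Type} (f : Ω → α) (g : Ω → β) : Prop := ∀ ω ω', f ω = f ω' → g ω = g ω'

/-- The name `N` depends on `ω` only through `f ω`. -/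
def Meas {Ω α : Type} (f : Ω → α) (N : Nm Ω) : Prop :=
  ∀ l ∈ N.s, ∀ ω ω', f ω = f ω' → l ω = l ω'

namespace PS

variable (P : PS Ω)

/-- Expectation. -/
def m (l : Ω → ℝ) : ℝ := ∑ ω, P.p ω * l ω

/-- Entropy of the value of a name (natural logarithm). -/
noncomputable def H (N : Nm Ω) : ℝ := N.lin fun l => Real.negMulLog (P.m l)

/-- Entropy of the value of a name given `ω`. -/
noncomputable def Hc (N : Nm Ω) : ℝ := N.lin fun l => P.m fun ω => Real.negMulLog (l ω)

/-- `I(ω ; N)`. -/
noncomputable def J (N : Nm Ω) : ℝ := P.H N - P.Hc N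

/-- `I(ω ; A | C)`; for deterministic `A` this is the conditional entropy `H(A | C)`. -/
noncomputable def D (A C : Nm Ω) : ℝ := P.J (A * C) - P.J C

/-- `I(A ; B | C)`. -/
noncomputable def I (A B C : Nm Ω) : ℝ :=
  P.J (A * C) + P.J (B * C) - P.J (A * B * C) - P.J C

/-- Probability of the `f`-class of `ω`. -/
noncomputable def cl {α : Type} [DecidableEq α] (f : Ω → α) (ω : Ω) : ℝ :=
  ∑ ω' ∈ univ.filter fun ω' => f ω' = f ω, P.p ω'

theorem cl_pos {α : Type} [DecidableEq α] (f : Ω → α) (ω : Ω) : 0 < P.cl f ω :=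
  Finset.sum_pos (fun ω' _ => P.pos ω') ⟨ω, by simp⟩

/-- Conditional expectation given `f`. -/
noncomputable def cexp {α : Type} [DecidableEq α] (f : Ω → α) (l : Ω → ℝ) : Ω → ℝ :=
  fun ω => (∑ ω' ∈ univ.filter fun ω' => f ω' = f ω, P.p ω' * l ω') / P.cl f ω

/-- Resample `ω'` from the conditional law given `f ω' = f ω` and evaluate `N` at `ω'`. -/
noncomputable def R {α : Type} [DecidableEq α] (f : Ω → α) (N : Nm Ω) : Nm Ω where
  s := N.s.map (P.cexp f)
  nonneg := by
    intro l hl ω
    simp only [Multiset.mem_map] at hl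
    obtain ⟨a, ha, rfl⟩ := hl
    exact div_nonneg (Finset.sum_nonneg fun ω' _ => mul_nonneg (P.pos ω').le (N.nonneg a ha ω'))
      (P.cl_pos f ω).le
  sum_one := by
    intro ω
    rw [Multiset.map_map]
    simp only [Function.comp_def, cexp, div_eq_mul_inv]
    rw [Multiset.sum_map_mul_right, msum_fsum]
    simp only [Multiset.sum_map_mul_left, N.sum_one, mul_one]
    exact mul_inv_cancel₀ (P.cl_pos f ω).ne'

end PS

/-- A stationary channel with a visible mask: from `ω` draw a mask `μ` and a new point `ω'`;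
the law `P` is preserved. -/
structure Chan (P : PS Ω) where
  M : Type
  [fin : Fintype M]
  [dec : DecidableEq M]
  k : M → Ω → Ω → ℝ
  nonneg : ∀ μ ω ω', 0 ≤ k μ ω ω'
  sum_one : ∀ ω, ∑ μ, ∑ ω', k μ ω ω' = 1
  stat : ∀ ω', ∑ ω, ∑ μ, P.p ω * k μ ω ω' = P.p ω'

attribute [instance] Chan.fin Chan.dec

namespace Chan

variable {P : PS Ω}

/-- The positive operator of a mask value. -/
def op (K : Chan P) (μ : K.M) (l : Ω → ℝ) : Ω → ℝ := fun ω => ∑ ω', K.k μ ω ω' * l ω'

/-- The name `(mask, N at the new point)`. -/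
def app (K : Chan P) (N : Nm Ω) : Nm Ω where
  s := (univ : Finset K.M).val.bind fun μ => N.s.map (K.op μ)
  nonneg := by
    intro l hl ω
    simp only [Multiset.mem_bind, Multiset.mem_map] at hl
    obtain ⟨μ, -, a, ha, rfl⟩ := hl
    exact Finset.sum_nonneg fun ω' _ => mul_nonneg (K.nonneg μ ω ω') (N.nonneg a ha ω')
  sum_one := by
    intro ω
    rw [Multiset.map_bind, Multiset.sum_bind]
    have : ∀ μ : K.M, ((N.s.map (K.op μ)).map fun l => l ω).sum = ∑ ω', K.k μ ω ω' := by
      intro μ
      rw [Multiset.map_map]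
      simp only [Function.comp_def, op]
      rw [msum_fsum]
      simp only [Multiset.sum_map_mul_left, N.sum_one, mul_one]
    simp only [this]
    exact K.sum_one ω

/-- The identity channel. -/
noncomputable def idc (P : PS Ω) : Chan P where
  M := Unit
  k _ ω ω' := open Classical in if ω' = ω then 1 else 0
  nonneg _ ω ω' := by split_ifs <;> norm_num
  sum_one ω := by
    classical
    simp only [Finset.univ_unique, Finset.sum_singleton]
    convert Finset.sum_ite_eq' univ ω (fun _ => (1 : ℝ))
    simp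
  stat ω' := by
    classical
    simp only [Finset.univ_unique, Finset.sum_singleton, mul_ite, mul_one, mul_zero]
    convert Finset.sum_ite_eq univ ω' P.p
    simp

/-- First `K`, then `K'`. -/
def comp (K K' : Chan P) : Chan P where
  M := K.M × K'.M
  k μ ω ω'' := ∑ ω', K.k μ.1 ω ω' * K'.k μ.2 ω' ω''
  nonneg μ ω ω'' := Finset.sum_nonneg fun ω' _ => mul_nonneg (K.nonneg _ _ _) (K'.nonneg _ _ _)
  sum_one ω := by
    rw [Fintype.sum_prod_type, ← K.sum_one ω]
    refine Finset.sum_congr rfl fun μ _ => ?_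
    calc ∑ μ' : K'.M, ∑ ω'', ∑ ω', K.k μ ω ω' * K'.k μ' ω' ω''
        = ∑ μ' : K'.M, ∑ ω', ∑ ω'', K.k μ ω ω' * K'.k μ' ω' ω'' :=
          Finset.sum_congr rfl fun μ' _ => Finset.sum_comm
      _ = ∑ ω', ∑ μ' : K'.M, ∑ ω'', K.k μ ω ω' * K'.k μ' ω' ω'' := Finset.sum_comm
      _ = ∑ ω', K.k μ ω ω' := by
          refine Finset.sum_congr rfl fun ω' _ => ?_
          simp only [← Finset.mul_sum, K'.sum_one, mul_one]
  stat ω'' := by
    rw [← K'.stat ω'']
    simp only [Fintype.sum_prod_type, Finset.mul_sum]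
    calc ∑ ω, ∑ μ : K.M, ∑ μ' : K'.M, ∑ ω', P.p ω * (K.k μ ω ω' * K'.k μ' ω' ω'')
        = ∑ ω, ∑ μ : K.M, ∑ ω', ∑ μ' : K'.M, P.p ω * (K.k μ ω ω' * K'.k μ' ω' ω'') :=
          Finset.sum_congr rfl fun ω _ => Finset.sum_congr rfl fun μ _ => Finset.sum_comm
      _ = ∑ ω, ∑ ω', ∑ μ : K.M, ∑ μ' : K'.M, P.p ω * (K.k μ ω ω' * K'.k μ' ω' ω'') :=
          Finset.sum_congr rfl fun ω _ => Finset.sum_comm
      _ = ∑ ω', ∑ ω, ∑ μ : K.M, ∑ μ' : K'.M, P.p ω * (K.k μ ω ω' * K'.k μ' ω' ω'') :=
          Finset.sum_comm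
      _ = ∑ ω', ∑ μ' : K'.M, P.p ω' * K'.k μ' ω' ω'' := by
          refine Finset.sum_congr rfl fun ω' _ => ?_
          rw [← K.stat ω']
          simp only [Finset.sum_mul]
          rw [Finset.sum_comm (s := univ) (t := (univ : Finset K'.M))
            (f := fun ω μ' => ∑ μ : K.M, P.p ω * K.k μ ω ω' * K'.k μ' ω' ω'') |>.symm]
          refine Finset.sum_congr rfl fun ω _ => ?_
          rw [Finset.sum_comm]
          simp only [mul_assoc]

/-- Resample given `f` and reveal `a` at the new point. -/
noncomputable def step (P : PS Ω) {α β : Type} [DecidableEq α] [DecidableEq β] (f : Ω → α)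
    (a : Ω → β) : Chan P where
  M := {v // v ∈ univ.image a}
  k v ω ω' := if f ω' = f ω ∧ a ω' = v.1 then P.p ω' / P.cl f ω else 0
  nonneg v ω ω' := by
    split_ifs
    · exact div_nonneg (P.pos _).le (P.cl_pos f ω).le
    · exact le_rfl
  sum_one ω := by
    rw [Finset.sum_comm]
    have : ∀ ω', (∑ v : {v // v ∈ univ.image a},
        if f ω' = f ω ∧ a ω' = v.1 then P.p ω' / P.cl f ω else 0) =
        if f ω' = f ω then P.p ω' / P.cl f ω else 0 := by
      intro ω'
      rw [Finset.sum_eq_single ⟨a ω', by simp⟩]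
      · simp
      · intro b _ hb
        rw [if_neg]
        rintro ⟨-, h⟩
        exact hb (Subtype.ext h.symm)
      · simp
    simp only [this]
    rw [← Finset.sum_filter, ← Finset.sum_div]
    exact div_self (P.cl_pos f ω).ne'
  stat ω' := by
    have : ∀ ω, (∑ v : {v // v ∈ univ.image a},
        P.p ω * if f ω' = f ω ∧ a ω' = v.1 then P.p ω' / P.cl f ω else 0) =
        if f ω = f ω' then P.p ω * (P.p ω' / P.cl f ω') else 0 := by
      intro ω
      rw [Finset.sum_eq_single ⟨a ω', by simp⟩]
      · by_cases h : f ω' = f ω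
        · have h2 : P.cl f ω = P.cl f ω' := by simp only [PS.cl, h]
          simp [h, h2]
        · have h' : ¬ f ω = f ω' := fun e => h e.symm
          simp [h, h']
      · intro b _ hb
        rw [if_neg, mul_zero]
        rintro ⟨-, h⟩
        exact hb (Subtype.ext h.symm)
      · simp
    simp only [this]
    rw [← Finset.sum_filter, ← Finset.sum_mul]
    exact mul_div_cancel₀ _ (P.cl_pos f ω').ne'

/-- The channel never changes the value of `F`. -/
def Pres {α : Type} (K : Chan P) (F : Ω → α) : Prop :=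
  ∀ μ ω ω', K.k μ ω ω' ≠ 0 → F ω = F ω'

/-- The channel reads its starting point only through `f`. -/
def SMeas {α : Type} (K : Chan P) (f : Ω → α) : Prop :=
  ∀ μ ω₁ ω₂ ω', f ω₁ = f ω₂ → K.k μ ω₁ ω' = K.k μ ω₂ ω'

/-- The space of triples (start, mask, end) of positive probability. -/
def Ext (K : Chan P) : Type := {x : Ω × K.M × Ω // 0 < K.k x.2.1 x.1 x.2.2}

noncomputable instance (K : Chan P) : Fintype K.Ext := by
  classical
  unfold Ext
  infer_instance

/-- Start point. -/
def st (K : Chan P) (x : K.Ext) : Ω := x.1.1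
/-- Mask. -/
def mk' (K : Chan P) (x : K.Ext) : K.M := x.1.2.1
/-- End point. -/
def en (K : Chan P) (x : K.Ext) : Ω := x.1.2.2

theorem sum_ext (K : Chan P) (g : Ω → K.M → Ω → ℝ) :
    ∑ x : K.Ext, K.k (K.mk' x) (K.st x) (K.en x) * g (K.st x) (K.mk' x) (K.en x) =
      ∑ ω, ∑ μ, ∑ ω', K.k μ ω ω' * g ω μ ω' := by
  classical
  have h := Finset.sum_subtype (p := fun x : Ω × K.M × Ω => 0 < K.k x.2.1 x.1 x.2.2)
    (F := (inferInstance : Fintype K.Ext))
    (univ.filter fun x : Ω × K.M × Ω => 0 < K.k x.2.1 x.1 x.2.2) (by simp)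
    (fun x => K.k x.2.1 x.1 x.2.2 * g x.1 x.2.1 x.2.2)
  refine h.symm.trans ?_
  rw [Finset.sum_filter]
  simp only [Fintype.sum_prod_type]
  refine Finset.sum_congr rfl fun ω _ => Finset.sum_congr rfl fun μ _ =>
    Finset.sum_congr rfl fun ω' _ => ?_
  split_ifs with h
  · rfl
  · have : K.k μ ω ω' = 0 := le_antisymm (not_lt.1 h) (K.nonneg _ _ _)
    simp [this]

/-- The joint law of (start, mask, end). -/
noncomputable def ext (K : Chan P) : PS K.Ext where
  p x := K.k (K.mk' x) (K.st x) (K.en x) * P.p (K.st x)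
  pos x := mul_pos x.2 (P.pos _)
  sum_one := by
    rw [K.sum_ext fun ω _ _ => P.p ω]
    simp only [← Finset.sum_mul, K.sum_one, one_mul, P.sum_one]

end Chan

/-- Restriction of a tuple of variables to a set of indices. -/
def res {V W : Type} [DecidableEq V] (S : Finset V) (a : V → W) : V → Option W :=
  fun v => if v ∈ S then some (a v) else none

end Pool.Agent.Lib.MP_a7c6c3_lc
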