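import Pool.Agent.Lib.MP_a7c6c3_lc.CellDefs

/-! Module `Design1`: level averages, symmetrisation, the profile lemma. -/

set_option autoImplicit false
open Finset
open scoped BigOperators

namespace Pool.Agent.Lib.MP_a7c6c3_lc

variable {ι : Type} [Fintype ι] [DecidableEq ι]

omit [Fintype ι] in
theorem d1_sum_insert (f : Finset ι → ℝ) (C : Finset ι) (i : ℕ) :
    ∑ a ∈ C, ∑ X ∈ powersetCard i (C.erase a), f (insert a X) =
      ((i : ℝ) + 1) * ∑ Y ∈ powersetCard (i + 1) C, f Y := by
  have h1 : ∀ a ∈ C, ∑ X ∈ powersetCard i (C.erase a), f (insert a X) =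
      ∑ Y ∈ powersetCard (i + 1) C, if a ∈ Y then f Y else 0 := by
    intro a ha
    rw [← Finset.sum_filter]
    refine Finset.sum_bij' (fun X _ => insert a X) (fun Y _ => Y.erase a) ?_ ?_ ?_ ?_ ?_
    · intro X hX
      rw [mem_powersetCard] at hX
      have haX : a ∉ X := fun h => by simpa using hX.1 h
      simp only [mem_filter, mem_powersetCard, mem_insert_self, and_true]
      refine ⟨insert_subset ha (hX.1.trans (erase_subset _ _)), ?_⟩
      rw [card_insert_of_notMem haX, hX.2]
    · intro Y hY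
      simp only [mem_filter, mem_powersetCard] at hY
      rw [mem_powersetCard]
      refine ⟨erase_subset_erase a hY.1.1, ?_⟩
      rw [card_erase_of_mem hY.2, hY.1.2]
      rfl
    · intro X hX
      rw [mem_powersetCard] at hX
      have haX : a ∉ X := fun h => by simpa using hX.1 h
      exact erase_insert haX
    · intro Y hY
      simp only [mem_filter] at hY
      exact insert_erase hY.2
    · intro X _
      rfl
  rw [Finset.sum_congr rfl h1, Finset.sum_comm, Finset.mul_sum]
  refine Finset.sum_congr rfl fun Y hY => ?_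
  rw [mem_powersetCard] at hY
  rw [← Finset.sum_filter, Finset.sum_const, nsmul_eq_mul]
  have : C.filter (fun a => a ∈ Y) = Y := by
    ext a
    simp only [mem_filter]
    exact ⟨fun h => h.2, fun h => ⟨hY.1 h, h⟩⟩
  rw [this, hY.2]
  push_cast
  ring

omit [Fintype ι] in
theorem d1_sum_erase (f : Finset ι → ℝ) (C : Finset ι) (i : ℕ) :
    ∑ a ∈ C, ∑ X ∈ powersetCard i (C.erase a), f X =
      ((C.card : ℝ) - i) * ∑ X ∈ powersetCard i C, f X := by
  have h1 : ∀ a ∈ C, ∑ X ∈ powersetCard i (C.erase a), f X =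
      ∑ X ∈ powersetCard i C, if a ∉ X then f X else 0 := by
    intro a _
    rw [← Finset.sum_filter]
    refine Finset.sum_congr ?_ fun _ _ => rfl
    ext X
    simp only [mem_filter, mem_powersetCard, subset_erase]
    tauto
  rw [Finset.sum_congr rfl h1, Finset.sum_comm, Finset.mul_sum]
  refine Finset.sum_congr rfl fun Y hY => ?_
  rw [mem_powersetCard] at hY
  rw [← Finset.sum_filter, Finset.sum_const, nsmul_eq_mul]
  have : C.filter (fun a => a ∉ Y) = C \ Y := by
    ext a
    simp only [mem_filter, mem_sdiff]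
  rw [this, card_sdiff_of_subset hY.1, Nat.cast_sub (card_le_card hY.1), hY.2]

omit [Fintype ι] in
theorem d1_double (g : ι → Finset ι → ℝ) (C : Finset ι) (i : ℕ) :
    𝔼 a ∈ C, 𝔼 X ∈ powersetCard i (C.erase a), g a X =
      (∑ a ∈ C, ∑ X ∈ powersetCard i (C.erase a), g a X) /
        ((C.card : ℝ) * ((C.card - 1).choose i : ℝ)) := by
  rw [expect_eq_sum_div_card]
  have : ∀ a ∈ C, 𝔼 X ∈ powersetCard i (C.erase a), g a X =
      (∑ X ∈ powersetCard i (C.erase a), g a X) / ((C.card - 1).choose i : ℝ) := by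
    intro a ha
    rw [expect_eq_sum_div_card, card_powersetCard, card_erase_of_mem ha]
  rw [Finset.sum_congr rfl this, ← Finset.sum_div, div_div, mul_comm]

omit [Fintype ι] in
theorem d1_expect_insert (f : Finset ι → ℝ) (C : Finset ι) {i : ℕ} (hi : i < C.card) :
    𝔼 a ∈ C, 𝔼 X ∈ powersetCard i (C.erase a), f (insert a X) =
      𝔼 X ∈ powersetCard (i + 1) C, f X := by
  rw [d1_double (fun a X => f (insert a X)), d1_sum_insert, expect_eq_sum_div_card,
    card_powersetCard]
  obtain ⟨n, hn⟩ : ∃ n, C.card = n + 1 := ⟨C.card - 1, by omega⟩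
  rw [hn, Nat.add_sub_cancel]
  have h := Nat.add_one_mul_choose_eq n i
  have h' : ((n + 1 : ℕ) : ℝ) * (n.choose i : ℝ) = ((n + 1).choose (i + 1) : ℝ) * ((i : ℝ) + 1) := by
    exact_mod_cast h
  rw [h']
  have h0 : (0 : ℝ) < ((n + 1).choose (i + 1) : ℝ) := by
    exact_mod_cast Nat.choose_pos (by omega)
  field_simp

omit [Fintype ι] in
theorem d1_expect_erase (f : Finset ι → ℝ) (C : Finset ι) {i : ℕ} (hi : i < C.card) :
    𝔼 a ∈ C, 𝔼 X ∈ powersetCard i (C.erase a), f X = 𝔼 X ∈ powersetCard i C, f X := by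
  rw [d1_double (fun _ X => f X), d1_sum_erase, expect_eq_sum_div_card, card_powersetCard]
  obtain ⟨n, hn⟩ : ∃ n, C.card = n + 1 := ⟨C.card - 1, by omega⟩
  rw [hn, Nat.add_sub_cancel]
  have h := Nat.choose_mul_succ_eq n i
  have h' : ((n + 1 : ℕ) : ℝ) * (n.choose i : ℝ) =
      ((n + 1).choose i : ℝ) * (((n + 1 : ℕ) : ℝ) - i) := by
    rw [← Nat.cast_sub (by omega), mul_comm]
    exact_mod_cast h
  rw [h']
  have h0 : (0 : ℝ) < ((n + 1).choose i : ℝ) := by
    exact_mod_cast Nat.choose_pos (by omega)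
  have h1 : (0 : ℝ) < ((n + 1 : ℕ) : ℝ) - i := by
    have : (i : ℝ) < ((n + 1 : ℕ) : ℝ) := by exact_mod_cast (by omega : i < n + 1)
    linarith
  field_simp

/-- Two pairs of disjoint sets of the same sizes differ by a relabelling. -/
theorem exists_perm_pair {T K T' K' : Finset ι} (h : Disjoint T K) (h' : Disjoint T' K')
    (hT : T.card = T'.card) (hK : K.card = K'.card) :
    ∃ τ : Equiv.Perm ι, T.map τ.toEmbedding = T' ∧ K.map τ.toEmbedding = K' := by
  let eT : T ≃ T' := Finset.equivOfCardEq hT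
  let eK : K ≃ K' := Finset.equivOfCardEq hK
  have hf : Function.Injective (Sum.elim (fun x : T => (x : ι)) (fun x : K => (x : ι))) := by
    rintro (x | x) (y | y) hxy
    · exact congrArg _ (Subtype.ext hxy)
    · exact absurd (by simp only [Sum.elim_inl, Sum.elim_inr] at hxy; rw [hxy]; exact y.2)
        (Finset.disjoint_left.1 h x.2)
    · exact absurd (by simp only [Sum.elim_inl, Sum.elim_inr] at hxy; rw [← hxy]; exact x.2)
        (Finset.disjoint_left.1 h y.2)
    · exact congrArg _ (Subtype.ext hxy)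
  have hg : Function.Injective
      (Sum.elim (fun x : T => (eT x : ι)) (fun x : K => (eK x : ι))) := by
    rintro (x | x) (y | y) hxy
    · exact congrArg _ (eT.injective (Subtype.ext hxy))
    · exact absurd (by simp only [Sum.elim_inl, Sum.elim_inr] at hxy; rw [hxy]; exact (eK y).2)
        (Finset.disjoint_left.1 h' (eT x).2)
    · exact absurd (by simp only [Sum.elim_inl, Sum.elim_inr] at hxy; rw [← hxy]; exact (eK x).2)
        (Finset.disjoint_left.1 h' (eT y).2)
    · exact congrArg _ (eK.injective (Subtype.ext hxy))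
  obtain ⟨τ, hτ⟩ := Equiv.Perm.exists_extending_pair _ _ hf hg
  refine ⟨τ, ?_, ?_⟩
  · refine Finset.eq_of_subset_of_card_le ?_ (by rw [card_map, hT])
    intro y hy
    obtain ⟨x, hx, rfl⟩ := mem_map.1 hy
    have := hτ (Sum.inl ⟨x, hx⟩)
    simp only [Sum.elim_inl] at this
    change τ x ∈ T'
    rw [this]
    exact (eT _).2
  · refine Finset.eq_of_subset_of_card_le ?_ (by rw [card_map, hK])
    intro y hy
    obtain ⟨x, hx, rfl⟩ := mem_map.1 hy
    have := hτ (Sum.inr ⟨x, hx⟩)
    simp only [Sum.elim_inr] at this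
    change τ x ∈ K'
    rw [this]
    exact (eK _).2

theorem d1_lev_map (f : Finset ι → ℝ) (τ : Equiv.Perm ι) (i : ℕ) :
    𝔼 S ∈ powersetCard i (univ : Finset ι), f (S.map τ.toEmbedding) = lev f i := by
  unfold lev
  refine Finset.expect_equiv τ.finsetCongr ?_ ?_
  · intro S
    simp [mem_powersetCard]
  · intro S _
    rfl

/-- Averaging over all relabellings is the level average. -/
theorem expect_perm_eq_lev (f : Finset ι → ℝ) (S : Finset ι) :
    𝔼 τ : Equiv.Perm ι, f (S.map τ.toEmbedding) = lev f S.card := by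
  have h1 : ∀ S' ∈ powersetCard S.card (univ : Finset ι),
      𝔼 τ : Equiv.Perm ι, f (S.map τ.toEmbedding) =
        𝔼 τ : Equiv.Perm ι, f (S'.map τ.toEmbedding) := by
    intro S' hS'
    rw [mem_powersetCard] at hS'
    obtain ⟨σ, hσ, -⟩ := exists_perm_pair (T := S') (K := ∅) (T' := S) (K' := ∅)
      (disjoint_empty_right _) (disjoint_empty_right _) hS'.2 rfl
    refine Fintype.expect_equiv (Equiv.mulRight σ) _ _ fun τ => ?_
    rw [← hσ, Finset.map_map]
    rfl
  have hne : (powersetCard S.card (univ : Finset ι)).Nonempty :=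
    ⟨S, mem_powersetCard.2 ⟨subset_univ _, rfl⟩⟩
  rw [← Finset.expect_const hne (𝔼 τ : Equiv.Perm ι, f (S.map τ.toEmbedding)),
    Finset.expect_congr rfl h1, Finset.expect_comm]
  simp only [d1_lev_map]
  exact Fintype.expect_const _

theorem expect_insert_eq_lev (f : Finset ι → ℝ) {i : ℕ} (hi : i < Fintype.card ι) :
    𝔼 a : ι, 𝔼 X ∈ powersetCard i (univ.erase a), f (insert a X) = lev f (i + 1) :=
  d1_expect_insert f univ hi

theorem expect_erase_eq_lev (f : Finset ι → ℝ) {i : ℕ} (hi : i < Fintype.card ι) :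
    𝔼 a : ι, 𝔼 X ∈ powersetCard i (univ.erase a), f X = lev f i :=
  d1_expect_erase f univ hi

/-- The same inside a subset `C`. -/
theorem expect_insert_sub (f : Finset ι → ℝ) (C : Finset ι) {i : ℕ} (hi : i < C.card) :
    𝔼 a ∈ C, 𝔼 X ∈ powersetCard i (C.erase a), (f (insert a X) - f X) =
      (𝔼 X ∈ powersetCard (i + 1) C, f X) - 𝔼 X ∈ powersetCard i C, f X := by
  simp only [expect_sub_distrib]
  rw [d1_expect_insert f C hi, d1_expect_erase f C hi]

/-- Level averages of a submodular function are concave. -/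
theorem lev_concave (f : Finset ι → ℝ) (hf : ∀ S T, f (S ∪ T) + f (S ∩ T) ≤ f S + f T) {i : ℕ}
    (hi : i + 2 ≤ Fintype.card ι) : lev f (i + 2) + lev f i ≤ 2 * lev f (i + 1) := by
  have h1 := expect_insert_sub f univ (i := i + 1) (by rw [card_univ]; omega)
  have h2 := expect_insert_sub f univ (i := i) (by rw [card_univ]; omega)
  have h3 : 𝔼 a ∈ (univ : Finset ι), 𝔼 X ∈ powersetCard (i + 1) (univ.erase a),
      (f (insert a X) - f X) ≤
      𝔼 a ∈ (univ : Finset ι), 𝔼 X ∈ powersetCard i (univ.erase a), (f (insert a X) - f X) := by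
    refine expect_le_expect fun a _ => ?_
    have hc : i < (univ.erase a : Finset ι).card := by
      rw [card_erase_of_mem (mem_univ a), card_univ]
      omega
    rw [← d1_expect_insert (fun X => f (insert a X) - f X) _ hc,
      ← d1_expect_erase (fun X => f (insert a X) - f X) _ hc]
    refine expect_le_expect fun b hb => expect_le_expect fun X hX => ?_
    have hab : b ≠ a := (mem_erase.1 hb).1
    have h := hf (insert a X) (insert b X)
    have e1 : insert a X ∪ insert b X = insert a (insert b X) := by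
      ext x
      simp only [mem_union, mem_insert]
      tauto
    have e2 : insert a X ∩ insert b X = X := by
      ext x
      simp only [mem_inter, mem_insert]
      constructor
      · rintro ⟨h1 | h1, h2 | h2⟩
        · exact absurd (h2.symm.trans h1) hab
        · exact h2
        · exact h1
        · exact h1
      · intro h
        exact ⟨Or.inr h, Or.inr h⟩
    rw [e1, e2] at h
    linarith
  unfold lev
  rw [h1, h2] at h3
  have : i + 1 + 1 = i + 2 := rfl
  rw [this] at h3
  linarith

/-- Toggling the membership of one element. -/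
def d1Tog (d : ι) : Finset ι ≃ Finset ι where
  toFun Z := symmDiff Z {d}
  invFun Z := symmDiff Z {d}
  left_inv Z := by simp
  right_inv Z := by simp

theorem d1_mem_tog (d e : ι) (Z : Finset ι) :
    e ∈ d1Tog d Z ↔ (if e = d then e ∉ Z else e ∈ Z) := by
  change e ∈ symmDiff Z {d} ↔ _
  simp only [mem_symmDiff, mem_singleton]
  split_ifs with h <;> simp [h]

/-- Variance of the number of elements of `D` with labels in a given state. -/
theorem expect_card_inter_sq (D : Finset ι) :
    𝔼 Z : Finset ι, (((D ∩ Z).card : ℝ) - (D.card : ℝ) / 2) ^ 2 = (D.card : ℝ) / 4 := by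
  let s : ι → Finset ι → ℝ := fun d Z => if d ∈ Z then 1 / 2 else -1 / 2
  have h1 : ∀ Z : Finset ι, ((D ∩ Z).card : ℝ) - (D.card : ℝ) / 2 = ∑ d ∈ D, s d Z := by
    intro Z
    have : ∀ d, s d Z = (if d ∈ Z then (1 : ℝ) else 0) - 1 / 2 := by
      intro d
      simp only [s]
      split_ifs <;> norm_num
    simp only [this, Finset.sum_sub_distrib, Finset.sum_const, nsmul_eq_mul]
    rw [← Finset.sum_filter, Finset.sum_const, nsmul_eq_mul, Finset.filter_mem_eq_inter]
    ring
  have h2 : ∀ d e, 𝔼 Z : Finset ι, s d Z * s e Z = if d = e then 1 / 4 else 0 := by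
    intro d e
    split_ifs with h
    · subst h
      have : ∀ Z : Finset ι, s d Z * s d Z = 1 / 4 := by
        intro Z
        simp only [s]
        split_ifs <;> norm_num
      simp only [this]
      exact Fintype.expect_const _
    · have h3 : 𝔼 Z : Finset ι, s d Z * s e Z = 𝔼 Z : Finset ι, -(s d Z * s e Z) := by
        refine Fintype.expect_equiv (d1Tog d) _ _ fun Z => ?_
        simp only [s, d1_mem_tog, if_true, if_neg (Ne.symm h)]
        by_cases h1 : d ∈ Z <;> by_cases h2 : e ∈ Z <;> simp [h1, h2] <;> norm_num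
      rw [expect_neg_distrib] at h3
      linarith
  simp only [h1, sq, Finset.sum_mul_sum]
  rw [expect_sum_comm]
  simp only [expect_sum_comm, h2]
  rw [Finset.sum_congr rfl fun d hd => by rw [Finset.sum_ite_eq, if_pos hd]]
  rw [Finset.sum_const, nsmul_eq_mul]
  ring

theorem d1_conc_ratio (γ : ℕ → ℝ) (R : ℕ) (h0 : γ 0 = 0)
    (hc : ∀ j, j + 2 ≤ R → γ (j + 2) + γ j ≤ 2 * γ (j + 1)) {k i : ℕ} (hki : k ≤ i) (hi : i ≤ R) :
    k * γ i ≤ i * γ k := by
  have h1 : ∀ j, j + 1 ≤ R → j * γ (j + 1) ≤ (j + 1) * γ j := by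
    intro j
    induction j with
    | zero => intro _; simp [h0]
    | succ j ih =>
      intro hj
      have h2 := ih (by omega)
      have h3 := hc j (by omega)
      have h4 : (0 : ℝ) ≤ (j : ℝ) + 1 := by positivity
      have h5 := mul_le_mul_of_nonneg_left h3 h4
      push_cast
      have : j + 1 + 1 = j + 2 := rfl
      rw [this]
      nlinarith
  induction i, hki using Nat.le_induction with
  | base => exact le_rfl
  | succ i hki ih =>
    have h2 := ih (by omega)
    have h3 := h1 i hi
    rcases Nat.eq_zero_or_pos i with h | h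
    · subst h
      have : k = 0 := by omega
      subst this
      simp [h0]
    · have hi0 : (0 : ℝ) < i := by exact_mod_cast h
      have hk0 : (0 : ℝ) ≤ k := by positivity
      push_cast
      refine le_of_mul_le_mul_left ?_ hi0
      have h4 := mul_le_mul_of_nonneg_left h3 hk0
      have h5 := mul_le_mul_of_nonneg_left h2 (by positivity : (0 : ℝ) ≤ (i : ℝ) + 1)
      nlinarith

theorem d1_conc_min (γ : ℕ → ℝ) (R : ℕ) (hR : 0 < R) (h0 : γ 0 = 0) (h1 : γ R = 0)
    (hc : ∀ j, j + 2 ≤ R → γ (j + 2) + γ j ≤ 2 * γ (j + 1)) {k i : ℕ} (hk : k ≤ R) (hi : i ≤ R) :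
    0 ≤ γ i ∧ ((R : ℝ) / 2 - |(k : ℝ) - R / 2|) * γ i ≤ R * γ k := by
  have hR' : (0 : ℝ) < R := by exact_mod_cast hR
  have hnn : ∀ j, j ≤ R → 0 ≤ γ j := by
    intro j hj
    have := d1_conc_ratio γ R h0 hc hj le_rfl
    rw [h1, mul_zero] at this
    exact nonneg_of_mul_nonneg_right this hR' |> fun h => h
  refine ⟨hnn i hi, ?_⟩
  have hiR : (i : ℝ) ≤ R := by exact_mod_cast hi
  rcases le_total k i with h | h
  · have h2 := d1_conc_ratio γ R h0 hc h hi
    have h3 : (R : ℝ) / 2 - |(k : ℝ) - R / 2| ≤ k := by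
      have := neg_abs_le ((k : ℝ) - R / 2)
      linarith
    calc _ ≤ k * γ i := mul_le_mul_of_nonneg_right h3 (hnn i hi)
      _ ≤ i * γ k := h2
      _ ≤ R * γ k := mul_le_mul_of_nonneg_right hiR (hnn k hk)
  · have h2 := d1_conc_ratio (fun j => γ (R - j)) R (by simpa using h1) (by
      intro j hj
      have h3 := hc (R - (j + 2)) (by omega)
      have e1 : R - (j + 2) + 2 = R - j := by omega
      have e2 : R - (j + 2) + 1 = R - (j + 1) := by omega
      rw [e1, e2] at h3
      linarith) (k := R - k) (i := R - i) (by omega) (by omega)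
    have e1 : R - (R - i) = i := by omega
    have e2 : R - (R - k) = k := by omega
    simp only [e1, e2] at h2
    rw [Nat.cast_sub hk, Nat.cast_sub hi] at h2
    have h3 : (R : ℝ) / 2 - |(k : ℝ) - R / 2| ≤ R - k := by
      have := le_abs_self ((k : ℝ) - R / 2)
      linarith
    have hi0 : (0 : ℝ) ≤ i := by positivity
    calc _ ≤ (R - k) * γ i := mul_le_mul_of_nonneg_right h3 (hnn i hi)
      _ ≤ (R - i) * γ k := h2
      _ ≤ R * γ k := mul_le_mul_of_nonneg_right (by linarith) (hnn k hk)

section Razborov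

variable {Λ : Type} [Fintype Λ] [DecidableEq Λ]

/-- Keep the coordinates in `D`, set the others to `false`. -/
def d1Mask (D : Finset Λ) (a : Λ → Bool) : Λ → Bool := fun l => if l ∈ D then a l else false

/-- The cylinder set over the coordinates `D` cut out by `G`. -/
def d1Set (D : Finset Λ) (G : Finset (Λ → Bool)) : Finset (Λ → Bool) :=
  univ.filter fun a => d1Mask D a ∈ G

/-- Flip one coordinate. -/
def d1Flip (l : Λ) : Equiv.Perm (Λ → Bool) where
  toFun a := Function.update a l (!a l)
  invFun a := Function.update a l (!a l)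
  left_inv a := by simp
  right_inv a := by simp

theorem d1_step (f : Finset (Λ → Bool) → ℝ) (hf : ∀ S T, f (S ∪ T) + f (S ∩ T) ≤ f S + f T)
    (ε : ℝ) (l : Λ)
    (hh : f (univ.filter fun a => a l = false) + f (univ.filter fun a => a l = true) ≤
      f univ + f ∅ + ε) (D : Finset Λ) (hl : l ∉ D) :
    𝔼 G : Finset (Λ → Bool), f (d1Set (insert l D) G) ≤
      (𝔼 G : Finset (Λ → Bool), f (d1Set D G)) + ε / 2 := by
  set H0 : Finset (Λ → Bool) := univ.filter fun a => a l = false with hH0
  set H1 : Finset (Λ → Bool) := univ.filter fun a => a l = true with hH1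
  let e : Finset (Λ → Bool) ≃ Finset (Λ → Bool) := (d1Flip l).finsetCongr
  have hmem : ∀ G a, a ∈ d1Set (insert l D) G ↔
      if a l = true then a ∈ d1Set D (e G) else a ∈ d1Set D G := by
    intro G a
    simp only [d1Set, mem_filter, mem_univ, true_and]
    split_ifs with h
    · have : d1Mask (insert l D) a = (d1Flip l).symm (d1Mask D a) := by
        funext x
        change _ = Function.update (d1Mask D a) l (!(d1Mask D a l)) x
        by_cases hx : x = l
        · subst hx
          simp [d1Mask, hl, h]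
        · simp [d1Mask, hx]
      rw [this]
      simp only [e, Equiv.finsetCongr_apply, mem_map_equiv]
    · have : d1Mask (insert l D) a = d1Mask D a := by
        funext x
        by_cases hx : x = l
        · subst hx
          simpa [d1Mask, hl] using h
        · simp [d1Mask, hx]
      rw [this]
  have key : ∀ G, 2 * f (d1Set (insert l D) G) + f ∅ + f univ ≤
      f (H0 ∩ d1Set D G) + f (H1 ∪ d1Set D G) + (f (H1 ∩ d1Set D (e G)) + f (H0 ∪ d1Set D (e G))) := by
    intro G
    have h1 := hf (H0 ∩ d1Set D G) (H1 ∩ d1Set D (e G))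
    have h2 := hf (H1 ∪ d1Set D G) (H0 ∪ d1Set D (e G))
    have e1 : H0 ∩ d1Set D G ∪ H1 ∩ d1Set D (e G) = d1Set (insert l D) G := by
      ext a
      rw [hmem]
      simp only [hH0, hH1, mem_union, mem_inter, mem_filter, mem_univ, true_and]
      cases a l <;> simp
    have e2 : H0 ∩ d1Set D G ∩ (H1 ∩ d1Set D (e G)) = ∅ := by
      ext a
      simp only [hH0, hH1, mem_inter, mem_filter, mem_univ, true_and, notMem_empty]
      cases a l <;> simp
    have e3 : H1 ∪ d1Set D G ∪ (H0 ∪ d1Set D (e G)) = univ := by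
      ext a
      simp only [hH0, hH1, mem_union, mem_filter, mem_univ, true_and]
      cases a l <;> simp
    have e4 : (H1 ∪ d1Set D G) ∩ (H0 ∪ d1Set D (e G)) = d1Set (insert l D) G := by
      ext a
      rw [hmem]
      simp only [hH0, hH1, mem_union, mem_inter, mem_filter, mem_univ, true_and]
      cases a l <;> simp
    rw [e1, e2] at h1
    rw [e3, e4] at h2
    linarith
  have h3 : 𝔼 G : Finset (Λ → Bool), (f (H1 ∩ d1Set D (e G)) + f (H0 ∪ d1Set D (e G))) =
      𝔼 G : Finset (Λ → Bool), (f (H1 ∩ d1Set D G) + f (H0 ∪ d1Set D G)) :=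
    Fintype.expect_equiv e _ _ fun G => rfl
  have h4 : 𝔼 G : Finset (Λ → Bool), (2 * f (d1Set (insert l D) G) + f ∅ + f univ) ≤
      𝔼 G : Finset (Λ → Bool), (f (H0 ∩ d1Set D G) + f (H1 ∪ d1Set D G) +
        (f (H1 ∩ d1Set D (e G)) + f (H0 ∪ d1Set D (e G)))) :=
    expect_le_expect fun G _ => key G
  rw [expect_add_distrib (f := fun G => f (H0 ∩ d1Set D G) + f (H1 ∪ d1Set D G)), h3,
    ← expect_add_distrib] at h4
  have h5 : 𝔼 G : Finset (Λ → Bool), (f (H0 ∩ d1Set D G) + f (H1 ∪ d1Set D G) +
      (f (H1 ∩ d1Set D G) + f (H0 ∪ d1Set D G))) ≤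
      𝔼 G : Finset (Λ → Bool), (2 * f (d1Set D G) + (f H0 + f H1)) := by
    refine expect_le_expect fun G _ => ?_
    have h1 := hf H0 (d1Set D G)
    have h2 := hf H1 (d1Set D G)
    linarith
  have h6 := h4.trans h5
  simp only [expect_add_distrib, ← mul_expect, Fintype.expect_const] at h6
  linarith

theorem d1_razborov (f : Finset (Λ → Bool) → ℝ)
    (hf : ∀ S T, f (S ∪ T) + f (S ∩ T) ≤ f S + f T) (ε : ℝ)
    (hh : ∀ l, f (univ.filter fun a => a l = false) + f (univ.filter fun a => a l = true) ≤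
      f univ + f ∅ + ε) :
    𝔼 G : Finset (Λ → Bool), f G ≤ (f ∅ + f univ) / 2 + Fintype.card Λ * (ε / 2) := by
  have h1 : ∀ D : Finset Λ, 𝔼 G : Finset (Λ → Bool), f (d1Set D G) ≤
      (f ∅ + f univ) / 2 + D.card * (ε / 2) := by
    intro D
    induction D using Finset.induction_on with
    | empty =>
      let c : Λ → Bool := fun _ => false
      have hs : ∀ G : Finset (Λ → Bool), d1Set ∅ G = if c ∈ G then univ else ∅ := by
        intro G
        have : ∀ a : Λ → Bool, d1Mask ∅ a = c := by
          intro a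
          funext x
          simp [d1Mask, c]
        ext a
        simp only [d1Set, this, mem_filter, mem_univ, true_and]
        split_ifs with h <;> simp [h]
      have h2 : 𝔼 G : Finset (Λ → Bool), f (d1Set ∅ G) =
          𝔼 G : Finset (Λ → Bool), (f ∅ + f univ - f (d1Set ∅ G)) := by
        refine Fintype.expect_equiv (d1Tog c) _ _ fun G => ?_
        simp only [hs, d1_mem_tog, if_true]
        by_cases h : c ∈ G <;> simp [h]
      rw [expect_sub_distrib, Fintype.expect_const] at h2
      simp only [card_empty, Nat.cast_zero, zero_mul, add_zero]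
      linarith
    | insert l D hl ih =>
      have h2 := d1_step f hf ε l (hh l) D hl
      rw [card_insert_of_notMem hl]
      push_cast
      linarith
  have h2 := h1 univ
  have h3 : ∀ G : Finset (Λ → Bool), d1Set univ G = G := by
    intro G
    ext a
    have : d1Mask univ a = a := by
      funext x
      simp [d1Mask]
    simp [d1Set, this]
  simpa only [h3, card_univ] using h2

end Razborov

theorem d1_expect_lev (f : Finset ι → ℝ) :
    𝔼 S : Finset ι, lev f S.card = 𝔼 S : Finset ι, f S := by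
  simp only [← expect_perm_eq_lev]
  rw [Finset.expect_comm]
  have : ∀ τ : Equiv.Perm ι, 𝔼 S : Finset ι, f (S.map τ.toEmbedding) = 𝔼 S : Finset ι, f S :=
    fun τ => Fintype.expect_equiv τ.finsetCongr _ _ fun S => rfl
  simp only [this]
  exact Fintype.expect_const _

theorem d1_expect_card : 𝔼 S : Finset ι, (S.card : ℝ) = (Fintype.card ι : ℝ) / 2 := by
  have h : 𝔼 S : Finset ι, (S.card : ℝ) = 𝔼 S : Finset ι, ((Fintype.card ι : ℝ) - S.card) := by
    refine Fintype.expect_equiv ⟨compl, compl, compl_compl, compl_compl⟩ _ _ fun S => ?_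
    change _ = (Fintype.card ι : ℝ) - ((Sᶜ).card : ℝ)
    rw [card_compl, Nat.cast_sub (card_le_univ S)]
    ring
  rw [expect_sub_distrib, Fintype.expect_const] at h
  linarith

/-- Razborov's argument: a submodular function on the cube that is nearly modular on all
coordinate halves has nearly linear level averages. -/
theorem profile_lemma {Λ : Type} [Fintype Λ] [DecidableEq Λ] (hΛ : 2 ≤ Fintype.card Λ)
    (f : Finset (Λ → Bool) → ℝ) (hf : ∀ S T, f (S ∪ T) + f (S ∩ T) ≤ f S + f T) (ε : ℝ)
    (hε : 0 ≤ ε)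
    (hh : ∀ l, f (univ.filter fun a => a l = false) + f (univ.filter fun a => a l = true) ≤
      f univ + f ∅ + ε) (i : ℕ) (hi : i ≤ Fintype.card (Λ → Bool)) :
    |lev f i - ((1 - (i : ℝ) / Fintype.card (Λ → Bool)) * f ∅ +
      (i : ℝ) / Fintype.card (Λ → Bool) * f univ)| ≤ 4 * Fintype.card Λ * ε := by
  set R := Fintype.card (Λ → Bool) with hR
  have hR4 : 4 ≤ R := by
    rw [hR, Fintype.card_fun, Fintype.card_bool]
    calc 4 = 2 ^ 2 := rfl
      _ ≤ 2 ^ Fintype.card Λ := Nat.pow_le_pow_right (by norm_num) hΛ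
  have hR' : (4 : ℝ) ≤ R := by exact_mod_cast hR4
  have hR0 : (0 : ℝ) < R := by linarith
  let γ : ℕ → ℝ := fun j => lev f j - ((1 - (j : ℝ) / R) * f ∅ + (j : ℝ) / R * f univ)
  have h0 : γ 0 = 0 := by simp [γ, lev]
  have h1 : γ R = 0 := by
    have : powersetCard R (univ : Finset (Λ → Bool)) = {univ} := by
      rw [hR, ← card_univ, powersetCard_self]
    simp only [γ, lev, this, expect_singleton, div_self hR0.ne']
    ring
  have hc : ∀ j, j + 2 ≤ R → γ (j + 2) + γ j ≤ 2 * γ (j + 1) := by
    intro j hj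
    have := lev_concave f hf hj
    simp only [γ]
    push_cast
    have e : (1 - ((j : ℝ) + 2) / R) * f ∅ + ((j : ℝ) + 2) / R * f univ +
        ((1 - (j : ℝ) / R) * f ∅ + (j : ℝ) / R * f univ) =
        2 * ((1 - ((j : ℝ) + 1) / R) * f ∅ + ((j : ℝ) + 1) / R * f univ) := by ring
    linarith
  have hγ := (d1_conc_min γ R (by omega) h0 h1 hc hi hi).1
  have h2 : 𝔼 S : Finset (Λ → Bool), γ S.card ≤ Fintype.card Λ * (ε / 2) := by
    have e : ∀ S : Finset (Λ → Bool), γ S.card =
        lev f S.card - f ∅ - (S.card : ℝ) * ((f univ - f ∅) / R) := by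
      intro S
      simp only [γ]
      ring
    simp only [e, expect_sub_distrib, ← expect_mul, Fintype.expect_const, d1_expect_lev,
      d1_expect_card]
    have h3 := d1_razborov f hf ε hh
    have e2 : (R : ℝ) / 2 * ((f univ - f ∅) / R) = (f univ - f ∅) / 2 := by field_simp
    rw [← hR, e2]
    linarith
  have h3 : ∀ S : Finset (Λ → Bool),
      (3 * (R : ℝ) / 8 - 2 / R * ((((univ : Finset (Λ → Bool)) ∩ S).card : ℝ) -
        ((univ : Finset (Λ → Bool)).card : ℝ) / 2) ^ 2) * γ i ≤ R * γ S.card := by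
    intro S
    refine le_trans ?_ (d1_conc_min γ R (by omega) h0 h1 hc (card_le_univ S) hi).2
    refine mul_le_mul_of_nonneg_right ?_ hγ
    rw [univ_inter, card_univ, ← hR, ← sq_abs]
    set u := |(S.card : ℝ) - R / 2|
    have : 0 ≤ 2 / (R : ℝ) * (u - R / 4) ^ 2 := by positivity
    have e : 2 / (R : ℝ) * (u - R / 4) ^ 2 = 2 / R * u ^ 2 - u + R / 8 := by
      field_simp
      ring
    linarith
  have h4 := expect_le_expect (s := univ) fun S _ => h3 S
  rw [← expect_mul, expect_sub_distrib, Fintype.expect_const, ← mul_expect, expect_card_inter_sq,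
    ← mul_expect, card_univ, ← hR] at h4
  have e3 : 2 / (R : ℝ) * (R / 4) = 1 / 2 := by
    field_simp
    ring
  rw [e3] at h4
  have h5 : (R : ℝ) / 4 * γ i ≤ R * (Fintype.card Λ * (ε / 2)) :=
    calc (R : ℝ) / 4 * γ i ≤ (3 * (R : ℝ) / 8 - 1 / 2) * γ i :=
          mul_le_mul_of_nonneg_right (by linarith) hγ
      _ ≤ _ := h4
      _ ≤ _ := mul_le_mul_of_nonneg_left h2 hR0.le
  have h6 : γ i ≤ 2 * (Fintype.card Λ * ε) := by
    refine le_of_mul_le_mul_left ?_ hR0
    linarith
  have h7 : (0 : ℝ) ≤ Fintype.card Λ * ε := by positivity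
  change |γ i| ≤ _
  rw [abs_of_nonneg hγ]
  linarith

end Pool.Agent.Lib.MP_a7c6c3_lc
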