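import Pool.Agent.Lib.MP_a7c6c3_lc.Sys

/-! The equation lemmas of `isR`, realised once for the modules that use them. -/

namespace Pool.Agent.Lib.MP_a7c6c3_lc

theorem eqfix1 : True := by
  have := @isR.eq_1
  have := @isR.eq_2
  have := @isR.eq_3
  have := @isR.eq_4
  have := @isR.eq_5
  have := @isR.eq_6
  have := @isR.eq_7
  have := @isR.eq_8
  have := @isR.eq_9
  have := @isR.eq_10
  have := @isR.eq_11
  have := @isR.eq_12
  trivial

end Pool.Agent.Lib.MP_a7c6c3_lc
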