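import Pool.Agent.Lib.MP_a7c6c3_lc.Defs

/-!
# Three-role nets, aligned triples, bit systems and row/column systems
-/

set_option autoImplicit false
open Finset
open scoped BigOperators

namespace Pool.Agent.Lib.MP_a7c6c3_lc

variable {Ω : Type} [Fintype Ω] {T : Type} [DecidableEq T]

/-- A name for each of the three roles. -/
structure Tri (π : Fin 3 → Ω → T) where
  nm : Fin 3 → Nm Ω
  meas : ∀ u, Meas (π u) (nm u)

variable (P : PS Ω) (π : Fin 3 → Ω → T) (F : Ω → T)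

/-- Alignment: each of the three names is determined by the two others up to `β`. -/
def Al (A : Tri π) (β : ℝ) : Prop :=
  ∀ u, P.D (A.nm u) (A.nm (u + 1) * A.nm (u + 2) * det F) ≤ β

/-- Three pairwise independent states of size `t`, any two of which determine the third. -/
structure Net (t e : ℝ) : Prop where
  e_nonneg : 0 ≤ e
  ref : ∀ u, Ref (π u) F
  ind : ∀ u v, u ≠ v → P.I (det (π u)) (det (π v)) (det F) ≤ e
  dtm : ∀ u, P.D (det (π u)) (det (π (u + 1)) * det (π (u + 2))) ≤ e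
  lo : t - e ≤ P.D (det (π 0)) (det F)
  hi : P.D (det (π 0)) (det F) ≤ t + e
  supp : ∀ u ω, (((univ.filter fun ω' => F ω' = F ω).image (π u)).card : ℝ) ≤ Real.exp (t + e)

/-- Splitting defect of `N` with respect to the complementary pair `g₀, g₁`. -/
noncomputable def Split (N g₀ g₁ : Nm Ω) : ℝ :=
  P.D (N * g₀) (det F) + P.D (N * g₁) (det F) - P.D N (det F) - P.D g₀ (det F) - P.D g₁ (det F)

/-- A channel on role `0` that keeps the frame, hides the state and keeps ranks. -/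
structure GoodChan (K : Chan P) (ε : ℝ) : Prop where
  pres : K.Pres F
  smeas : K.SMeas (π 0)
  mask : P.D (K.app 1) (det F) ≤ ε
  rank : ∀ N, Meas (π 0) N → P.D N (det F) ≤ P.D (K.app N) (det F) + ε

/-- A system of `j` commuting bits with all translations, up to error `ε`. -/
structure Bits (j : ℕ) (ε : ℝ) where
  γ : Fin j → Bool → Tri π
  K : (Fin j → Bool) → Chan P
  al : ∀ i c, Al P π F (γ i c) ε
  cov : ∀ i, P.D (det (π 0)) ((γ i false).nm 0 * (γ i true).nm 0 * det F) ≤ ε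
  ind : ∀ i, P.I ((γ i false).nm 0) ((γ i true).nm 0) (det F) ≤ ε
  split : ∀ i i' c, i ≠ i' → Split P F ((γ i' c).nm 0) ((γ i false).nm 0) ((γ i true).nm 0) ≤ ε
  good : ∀ σ, GoodChan P π F (K σ) ε
  transl : ∀ σ i c, P.D ((K σ).app ((γ i (xor c (σ i))).nm 0)) ((γ i c).nm 0 * det F) ≤ ε
  sd : ∀ σ i c, P.D ((K σ).app ((γ i c).nm 0)) ((K σ).app ((γ i c).nm 0) * det F) ≤ ε

/-- Translation of a vector of bits. -/
def xr {Λ : Type} (a σ : Λ → Bool) : Λ → Bool := fun l => xor (a l) (σ l)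

/-- Rows and columns indexed by `Λ → Bool`, translated by the channels `K`
(`sr σ`, `sc σ` are the row and column parts of the translation `σ`). -/
structure RC {S : Type} (Λ : Type) [Fintype Λ] [DecidableEq Λ] (K : S → Chan P)
    (sr sc : S → Λ → Bool) (t ε E : ℝ) where
  ρ : (Λ → Bool) → Tri π
  κ : (Λ → Bool) → Tri π
  alρ : ∀ a, Al P π F (ρ a) ε
  alκ : ∀ b, Al P π F (κ b) ε
  trρ : ∀ σ a, P.D ((K σ).app ((ρ (xr a (sr σ))).nm 0)) ((ρ a).nm 0 * det F) ≤ ε
  trρ' : ∀ σ a, P.D ((ρ a).nm 0) ((K σ).app ((ρ (xr a (sr σ))).nm 0) * det F) ≤ ε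
  trκ : ∀ σ b, P.D ((K σ).app ((κ (xr b (sc σ))).nm 0)) ((κ b).nm 0 * det F) ≤ ε
  trκ' : ∀ σ b, P.D ((κ b).nm 0) ((K σ).app ((κ (xr b (sc σ))).nm 0) * det F) ≤ ε
  prof : ∀ u (S' T' : Finset (Λ → Bool)),
    |(𝔼 τ : Equiv.Perm (Λ → Bool),
        P.D ((∏ a ∈ S', (ρ (τ a)).nm u) * ∏ b ∈ T', (κ b).nm u) (det F)) -
      t * (1 - (1 - (S'.card : ℝ) / Fintype.card (Λ → Bool)) *
        (1 - (T'.card : ℝ) / Fintype.card (Λ → Bool)))| ≤ E

end Pool.Agent.Lib.MP_a7c6c3_lc
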