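import Pool.Agent.Lib.MP_a7c6c3_lc.Rules1

/-! Module `Rules2`: Shannon inequalities for channels and resampling. -/

set_option autoImplicit false
open Finset

namespace Pool.Agent.Lib.MP_a7c6c3_lc

variable {Ω : Type} [Fintype Ω]

namespace Chan

variable {P : PS Ω} (K : Chan P)

/-! Shannon inequalities seen from the base space. -/

theorem ext_J (A C : Nm Ω) : K.ext.J (det K.mk' * A.lift K.en * C.lift K.st) =
    P.H (K.app A * C) - P.Hc A - P.Hc C := by
  rw [PS.J, ext_H, PS.Hc_mul, PS.Hc_mul, PS.Hc_det, ext_Hc_en, ext_Hc_st]; ring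

theorem ext_D_en_eq (A B C : Nm Ω) :
    K.ext.D (B.lift K.en) (det K.mk' * A.lift K.en * C.lift K.st) =
      P.H (K.app (A * B) * C) - P.H (K.app A * C) - P.Hc B := by
  have e : B.lift K.en * (det K.mk' * A.lift K.en * C.lift K.st) =
      det K.mk' * (A * B).lift K.en * C.lift K.st := by rw [Nm.lift_mul]; ac_rfl
  rw [PS.D, e, ext_J, ext_J, PS.Hc_mul]; ring

theorem ext_D_st_eq (N C C' : Nm Ω) :
    K.ext.D (C.lift K.st) (det K.mk' * N.lift K.en * C'.lift K.st) = P.D C (K.app N * C') := by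
  have e : C.lift K.st * (det K.mk' * N.lift K.en * C'.lift K.st) =
      det K.mk' * N.lift K.en * (C * C').lift K.st := by rw [Nm.lift_mul]; ac_rfl
  have e' : C * (K.app N * C') = K.app N * (C * C') := by ac_rfl
  rw [PS.D, e, ext_J, ext_J, PS.D, e']
  simp only [PS.J, PS.Hc_mul]; ring

open Classical in
/-- Conditioning the identity name. -/
theorem D_id (N : Nm Ω) : P.D (det fun ω : Ω => ω) N = P.J (det fun ω : Ω => ω) - P.J N := by
  have h := P.J_absorb (meas_id N) 1
  rw [mul_one, mul_comm] at h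
  rw [PS.D, h]

open Classical in
/-- What an end name tells about the starting point. -/
theorem ext_I (A B C : Nm Ω) :
    K.ext.I (B.lift K.en) ((det fun ω : Ω => ω).lift K.st)
      (det K.mk' * A.lift K.en * C.lift K.st) = P.J (K.app (A * B) * C) - P.J (K.app A * C) := by
  have e : B.lift K.en * (det K.mk' * A.lift K.en * C.lift K.st) =
      det K.mk' * (A * B).lift K.en * C.lift K.st := by rw [Nm.lift_mul]; ac_rfl
  rw [PS.I_comm, PS.I_eq, e, ext_D_st_eq, ext_D_st_eq, D_id, D_id]; ring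

theorem K0 (A B C : Nm Ω) : P.H (K.app A * C) + P.Hc B ≤ P.H (K.app (A * B) * C) := by
  have h := K.ext.D_nonneg (B.lift K.en) (det K.mk' * A.lift K.en * C.lift K.st)
  rw [ext_D_en_eq] at h
  linarith

theorem K1 (A B C C' : Nm Ω) : P.D C' (K.app (A * B) * C) ≤ P.D C' (K.app A * C) := by
  have e : det K.mk' * (A * B).lift K.en * C.lift K.st =
      B.lift K.en * (det K.mk' * A.lift K.en * C.lift K.st) := by rw [Nm.lift_mul]; ac_rfl
  rw [← ext_D_st_eq, ← ext_D_st_eq, e]
  exact K.ext.D_anti _ _ _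

theorem K7 (A B C : Nm Ω) :
    P.H (K.app (A * B) * C) - P.H (K.app A * C) ≤ P.H (A * B) - P.H A := by
  have h := K.ext.D_anti (B.lift K.en) (det K.mk' * C.lift K.st) (A.lift K.en)
  rw [mul_right_comm, ext_D_en_eq, PS.D, ← Nm.lift_mul, ext_J_en, ext_J_en, mul_comm B A] at h
  simp only [PS.J, PS.Hc_mul] at h
  linarith

theorem K2 (A B C : Nm Ω) : P.J (K.app A * C) ≤ P.J (K.app (A * B) * C) :=
  sub_nonneg.1 (K.ext_I A B C ▸ K.ext.I_nonneg _ _ _)

theorem K3 (A B C : Nm Ω) : P.J (K.app (A * B) * C) ≤ P.J (K.app A * C) + P.D B A := by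
  have h := K.ext.D_anti (B.lift K.en) (det K.mk' * C.lift K.st) (A.lift K.en)
  have h2 := (K.ext_I A B C).symm.trans_le (K.ext.I_le_D _ _ _)
  rw [mul_right_comm] at h
  have h3 := h2.trans h
  rw [PS.D, ← Nm.lift_mul, ext_J_en, ext_J_en] at h3
  rw [PS.D]; linarith

theorem K5 (A B C C' : Nm Ω) :
    P.D C' (K.app A * C) ≤ P.D C' (K.app (A * B) * C) + P.D B A := by
  have h1 := K.K2 A B (C' * C)
  have h2 := K.K3 A B C
  rw [PS.D, PS.D, mul_left_comm C', mul_left_comm C']
  linarith

/-- Monotonicity of a channel for the rough order on names. -/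
theorem D_app_mono {α : Type} [DecidableEq α] {F : Ω → α} {K : Chan P} (h : K.Pres F)
    (N N' : Nm Ω) :
    P.D (K.app N) (K.app N' * det F) ≤
      P.D (K.app N') (K.app N' * det F) + P.D N (N' * det F) := by
  have hF : Meas F (det F) := meas_det (Ref.rfl' F)
  have h1 := K.K2 N (N' * det F) (K.app N' * det F)
  have h2 := K.K3 (N' * det F) N (K.app N' * det F)
  have h3 := P.J_absorb hF (K.app N' * K.app N')
  rw [app_mul_meas h N' hF, mul_comm _ N] at h2
  have e1 : K.app N' * det F * (K.app N' * det F) = det F * (det F * (K.app N' * K.app N')) := by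
    ac_rfl
  have e2 : K.app N' * (K.app N' * det F) = det F * (K.app N' * K.app N') := by ac_rfl
  rw [e1, h3] at h2
  rw [PS.D, PS.D, e2]
  linarith

theorem D_app_mono' (N N' : Nm Ω) :
    P.D (K.app N) (K.app N') ≤ P.D (K.app N') (K.app N') + P.D N N' := by
  have h1 := K.K2 N N' (K.app N')
  have h2 := K.K3 N' N (K.app N')
  rw [mul_comm N' N] at h2
  rw [PS.D, PS.D]
  linarith

/-- (W2) A start name given the mask, an end name and a start name. -/
theorem ext_D_st (N C C' : Nm Ω) :
    K.ext.D (C.lift K.st) (det K.mk' * N.lift K.en * C'.lift K.st) = P.D C (K.app N * C') :=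
  K.ext_D_st_eq N C C'

/-- (W1) An end name given the mask and a start name. -/
theorem ext_D_en {α β : Type} [DecidableEq α] [DecidableEq β] {f : Ω → α} {F : Ω → β}
    {K : Chan P} (hF : K.Pres F) (hfF : Ref f F) {N : Nm Ω} (hN : Meas f N) (C : Nm Ω) :
    K.ext.D (N.lift K.en) (det K.mk' * (C * det F).lift K.st) ≤
      P.D (K.app N) (C * det F) +
        (P.D (det f) (det F) - P.D (K.app (det f)) (det F) + P.D (K.app 1) (det F)) := by
  classical
  have _ := hfF
  have h1 := K.ext_I 1 N (C * det F)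
  have h2 := K.ext_I 1 (det f) (det F)
  rw [Nm.lift_one, mul_one, one_mul, PS.I_eq] at h1 h2
  have h3 := K.ext.D_le_det (hN.lift K.en)
    ((det fun ω : Ω => ω).lift K.st * (det K.mk' * (C * det F).lift K.st))
  have h4 := K.ext.D_anti ((det f).lift K.en) (C.lift K.st)
    ((det fun ω : Ω => ω).lift K.st * (det K.mk' * (det F).lift K.st))
  have e : C.lift K.st * ((det fun ω : Ω => ω).lift K.st * (det K.mk' * (det F).lift K.st)) =
      (det fun ω : Ω => ω).lift K.st * (det K.mk' * (C * det F).lift K.st) := by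
    rw [Nm.lift_mul]; ac_rfl
  rw [e] at h4
  rw [det_en] at h3
  have h5 := K.ext.D_anti ((det f).lift K.en) (det K.mk') ((det F).lift K.st)
  have h6 : K.ext.D ((det f).lift K.en) ((det F).lift K.st) = P.D (det f) (det F) := by
    rw [hF.lift_eq (meas_det (Ref.rfl' F)), PS.D, ← Nm.lift_mul, ext_J_en, ext_J_en, PS.D]
  have h7 := P.J_mono (K.app 1) (C * det F)
  rw [h6] at h5
  rw [PS.D, PS.D, PS.D, PS.D, PS.D]
  simp only [PS.D] at h1 h2 h3 h4 h5
  linarith

/-- Two separate passages through a channel against one joint passage (upper bound). -/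
theorem D_app_mul_le {α : Type} [DecidableEq α] {F : Ω → α} {K : Chan P} (h : K.Pres F)
    (A B : Nm Ω) :
    P.D (K.app A * K.app B) (det F) ≤
      P.D (K.app (A * B)) (det F) + P.D (K.app A) (K.app A) + P.D (K.app B) (K.app B) := by
  have _ := h
  have h1 := P.D_tri (K.app A * K.app B) (K.app (A * B)) (det F)
  have h2 := P.D_mul_le (K.app A) (K.app B) (K.app (A * B) * det F)
  have h3 := K.K1 A B (det F) (K.app A)
  have h4 := K.K1 B A (det F) (K.app B)
  have h5 := P.D_anti (K.app A) (det F) (K.app A)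
  have h6 := P.D_anti (K.app B) (det F) (K.app B)
  rw [mul_comm B A] at h4
  rw [mul_comm (det F)] at h5 h6
  linarith

/-- Two separate passages through a channel against one joint passage (lower bound). -/
theorem le_D_app_mul {α β : Type} [DecidableEq α] [DecidableEq β] {f : Ω → α} {F : Ω → β}
    {K : Chan P} (hF : K.Pres F) (hfF : Ref f F) {A B : Nm Ω} (hB : Meas f B) :
    P.D (K.app (A * B)) (det F) ≤
      P.D (K.app A * K.app B) (det F) + P.D (K.app A) (K.app A) + P.D (K.app B) (K.app B) +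
        (P.D (det f) (det F) - P.D (K.app (det f)) (det F) + P.D (K.app 1) (det F)) := by
  have h1 := (K.ext_I A B (K.app A * K.app B * det F)).symm.trans_le (K.ext.I_le_D _ _ _)
  have h2 := K.ext.D_anti (B.lift K.en) (A.lift K.en * (K.app A).lift K.st)
    (det K.mk' * (K.app B * det F).lift K.st)
  have e : A.lift K.en * (K.app A).lift K.st * (det K.mk' * (K.app B * det F).lift K.st) =
      det K.mk' * A.lift K.en * (K.app A * K.app B * det F).lift K.st := by
    simp only [Nm.lift_mul]; ac_rfl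
  rw [e] at h2
  have h3 := ext_D_en hF hfF hB (K.app B)
  have h4 := P.D_anti (K.app B) (det F) (K.app B)
  have h5 := P.D_anti (K.app A) (K.app B * det F) (K.app A)
  have h6 := P.D_tri (K.app (A * B)) (K.app A * K.app B) (det F)
  rw [mul_comm (det F)] at h4
  rw [mul_comm _ (K.app A), ← mul_assoc, PS.D] at h5
  have h7 : P.D (K.app (A * B)) (K.app A * K.app B * det F) =
    P.J (K.app (A * B) * (K.app A * K.app B * det F)) - P.J (K.app A * K.app B * det F) := rfl
  linarith

end Chan

namespace PS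

variable (P : PS Ω) {α β : Type} [DecidableEq α] [DecidableEq β]

theorem H_R_swap' (f : Ω → α) (A C : Nm Ω) : P.H (P.R f A * C) = P.H (A * P.R f C) := by
  simp only [H, Nm.lin_mul, lin_R, m_cexp_mul]

theorem R_of_meas (f : Ω → α) {B : Nm Ω} (hB : Meas f B) : P.R f B = B := by
  have h := P.R_mul_meas f 1 hB
  rwa [one_mul, R_one, one_mul] at h

/-- (T1) -/
theorem J_R (f : Ω → α) (A : Nm Ω) {B : Nm Ω} (hB : Meas f B) :
    P.J (P.R f A * B) = P.J (det f) + P.J (A * B) - P.J (det f * A * B) := by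
  have h1 := P.H_det_mul (P.meas_R f A) 1
  have h2 := P.H_det_mul hB A
  rw [mul_one, H_R_swap', P.R_of_meas f (meas_det (Ref.rfl' f)), mul_comm] at h1
  rw [mul_comm] at h2
  simp only [J, Hc_mul, Hc_det]
  rw [H_R_swap', P.R_of_meas f hB]
  linarith

/-- (T1), conditional form. -/
theorem D_R (f : Ω → α) (A : Nm Ω) {B : Nm Ω} (hB : Meas f B) :
    P.D (P.R f A) B = P.I (det f) A B := by
  have h := P.J_absorb hB 1
  rw [mul_one, mul_comm] at h
  rw [D, I, P.J_R f A hB, h]

/-- (K4) Exchangeability of the two points. -/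
theorem H_R_swap (f : Ω → α) (A C : Nm Ω) : P.H (P.R f A * C) = P.H (A * P.R f C) :=
  P.H_R_swap' f A C

theorem R1 (f : Ω → α) (A B C C' : Nm Ω) :
    P.D C' (P.R f (A * B) * C) ≤ P.D C' (P.R f A * C) := by
  simpa only [Chan.app_step_unit] using (Chan.step P f fun _ => ()).K1 A B C C'

theorem R2 (f : Ω → α) (A B C : Nm Ω) : P.J (P.R f A * C) ≤ P.J (P.R f (A * B) * C) := by
  simpa only [Chan.app_step_unit] using (Chan.step P f fun _ => ()).K2 A B C

theorem R5 (f : Ω → α) (A B C C' : Nm Ω) :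
    P.D C' (P.R f A * C) ≤ P.D C' (P.R f (A * B) * C) + P.D B A := by
  simpa only [Chan.app_step_unit] using (Chan.step P f fun _ => ()).K5 A B C C'

/-- (K6) -/
theorem R6 (f : Ω → α) (A B C C' : Nm Ω) :
    P.D C' (P.R f A * C) ≤ P.D C' (P.R f (A * B) * C) + P.D B (A * P.R f C) := by
  have h1 := (Chan.step P f fun _ => ()).K0 A B (C' * C)
  have h2 := P.H_R_swap f (A * B) C
  have h3 := P.H_R_swap f A C
  simp only [Chan.app_step_unit] at h1
  rw [D, D, D, mul_left_comm C', mul_left_comm C', ← mul_assoc B, mul_comm B A]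
  simp only [J, Hc_mul]
  linarith

/-- `I(C' ; R A | C) ≤ I(C' ; R (A B) | C)`. -/
theorem I_R_mono (f : Ω → α) (A B C C' : Nm Ω) :
    P.I C' (P.R f A) C ≤ P.I C' (P.R f (A * B)) C := by
  have h := P.R1 f A B C C'
  rw [I_eq, I_eq]
  linarith

theorem D_R_mono (f : Ω → α) (a N N' : Nm Ω) :
    P.D (P.R f (a * N)) (P.R f (a * N')) ≤
      P.D (P.R f (a * N')) (P.R f (a * N')) + P.D N N' := by
  have h1 := P.R2 f (a * N) N' (P.R f (a * N'))
  have h2 := (Chan.step P f fun _ => ()).K3 (a * N') N (P.R f (a * N'))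
  have h3 := P.D_anti N a N'
  simp only [Chan.app_step_unit] at h2
  rw [mul_right_comm] at h1
  rw [D, D]
  linarith

end PS

end Pool.Agent.Lib.MP_a7c6c3_lc
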