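import Pool.Agent.Lib.MP_a7c6c3_lc.CoreDefs
import Pool.Agent.Lib.MP_a7c6c3_lc.Net
import Pool.Agent.Lib.MP_a7c6c3_lc.Rules2

/-! Module `ExtHyp`: the core hypotheses hold on the extension space of a translation. -/

set_option autoImplicit false
open Finset
open scoped BigOperators

namespace Pool.Agent.Lib.MP_a7c6c3_lc

/-- Translation as a permutation. -/
def xrE {Λ : Type} (σ : Λ → Bool) : Equiv.Perm (Λ → Bool) where
  toFun a := xr a σ
  invFun a := xr a σ
  left_inv a := by funext l; simp [xr]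
  right_inv a := by funext l; simp [xr]

variable {Ω : Type} [Fintype Ω] {T : Type} [DecidableEq T] {P : PS Ω}

/-- The three states on the extension space: role `0` at the end, roles `1, 2` at the start. -/
def extX (π : Fin 3 → Ω → T) (K : Chan P) : Fin 3 → K.Ext → T
  | 0 => fun x => π 0 (K.en x)
  | 1 => fun x => π 1 (K.st x)
  | 2 => fun x => π 2 (K.st x)

/-- A family of triples on the extension space; role `0` is reindexed by `τ`. -/
def extN {ι : Type} {π : Fin 3 → Ω → T} (K : Chan P) (ρ : ι → Tri π) (τ : Equiv.Perm ι) :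
    Fin 3 → ι → Nm K.Ext
  | 0 => fun a => ((ρ (τ a)).nm 0).lift K.en
  | 1 => fun a => ((ρ a).nm 1).lift K.st
  | 2 => fun a => ((ρ a).nm 2).lift K.st

namespace ExtHyp

variable (K : Chan P) (F : Ω → T)

theorem D_st (A C : Nm Ω) : K.ext.D (A.lift K.st) (C.lift K.st) = P.D A C := by
  simp only [PS.D, ← Nm.lift_mul, K.ext_J_st]

theorem D_en (A C : Nm Ω) : K.ext.D (A.lift K.en) (C.lift K.en) = P.D A C := by
  simp only [PS.D, ← Nm.lift_mul, K.ext_J_en]

/-- The mask together with the frame. -/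
noncomputable def mu : Nm K.Ext := det fun x => (K.mk' x, F (K.st x))

theorem J_mu (C : Nm K.Ext) :
    K.ext.J (mu K F * C) = K.ext.J (det K.mk' * (det F).lift K.st * C) := by
  have h1 := K.ext.D_det_pair (f := K.mk') (g := fun x => F (K.st x))
    (h := fun x => (K.mk' x, F (K.st x))) (fun _ _ a b => Prod.ext a b) C
  have r1 : Ref (fun x => (K.mk' x, F (K.st x))) K.mk' := fun _ _ h => (Prod.mk.inj h).1
  have r2 : Ref (fun x => (K.mk' x, F (K.st x))) fun x => F (K.st x) :=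
    fun _ _ h => congrArg Prod.snd h
  have h2 := K.ext.J_absorb ((meas_det r1).mul (meas_det r2)) C
  rw [K.det_st] at h1 h2
  simp only [PS.D, mu, mul_assoc, mul_comm, mul_left_comm] at *
  linarith

theorem D_mu (A C : Nm K.Ext) :
    K.ext.D A (C * mu K F) = K.ext.D A (det K.mk' * (det F).lift K.st * C) := by
  have h1 := J_mu K F C
  have h2 := J_mu K F (A * C)
  simp only [PS.D, mul_assoc, mul_comm] at *
  linarith

theorem D_mu' (A C : Nm K.Ext) :
    K.ext.D A (C * mu K F * (det F).lift K.st) = K.ext.D A (C * mu K F) := by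
  have hm : Meas (fun x => (K.mk' x, F (K.st x))) ((det F).lift K.st) := by
    rw [← K.det_st]
    exact meas_det fun _ _ h => congrArg Prod.snd h
  have h1 := K.ext.J_absorb hm C
  have h2 := K.ext.J_absorb hm (A * C)
  simp only [PS.D, mu, mul_assoc, mul_comm, mul_left_comm] at *
  linarith

/-- A start name given an end name, a start name and the mask. -/
theorem st_mu (N C C' : Nm Ω) :
    K.ext.D (C.lift K.st) (N.lift K.en * C'.lift K.st * mu K F) =
      P.D C (K.app N * (C' * det F)) := by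
  rw [D_mu, ← K.ext_D_st, Nm.lift_mul]
  congr 1
  ac_rfl

variable {K F} {π : Fin 3 → Ω → T} {t e ε : ℝ}

theorem al2 {A : Tri π} {N : Nm Ω} (hA : Al P π F A ε)
    (h : P.D (A.nm 0) (K.app N * det F) ≤ ε) (hε : 0 ≤ ε) :
    K.ext.D ((A.nm 2).lift K.st) (N.lift K.en * (A.nm 1).lift K.st * mu K F) ≤ 4 * ε := by
  rw [st_mu]
  have h1 : P.D (A.nm 2) (A.nm 0 * A.nm 1 * det F) ≤ ε := hA 2
  have h2 := P.D_tri (A.nm 2) (A.nm 0) (K.app N * (A.nm 1 * det F))
  have h3 := P.D_anti (A.nm 0) (A.nm 1) (K.app N * det F)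
  have h4 := P.D_anti (A.nm 2) (K.app N) (A.nm 0 * A.nm 1 * det F)
  simp only [mul_assoc, mul_comm, mul_left_comm] at *
  linarith

theorem al0 (hN : Net P π F t e) (hK : GoodChan P π F K ε) {A : Tri π} {N : Nm Ω}
    (hm : Meas (π 0) N) (hA : Al P π F A ε) (h : P.D (K.app N) (A.nm 0 * det F) ≤ ε) :
    K.ext.D (N.lift K.en) ((A.nm 1).lift K.st * (det (π 2)).lift K.st * mu K F) ≤ 4 * ε := by
  have h0 := Chan.ext_D_en hK.pres (hN.ref 0) hm (A.nm 1 * det (π 2))
  have e0 : det K.mk' * (A.nm 1 * det (π 2) * det F).lift K.st =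
      det K.mk' * (det F).lift K.st * ((A.nm 1).lift K.st * (det (π 2)).lift K.st) := by
    simp only [Nm.lift_mul]
    ac_rfl
  rw [e0] at h0
  rw [D_mu]
  refine h0.trans ?_
  have h1 : P.D (A.nm 0) (A.nm 1 * A.nm 2 * det F) ≤ ε := hA 0
  have h2 := P.D_tri (K.app N) (A.nm 0) (A.nm 1 * det (π 2) * det F)
  have h3 := P.D_anti (K.app N) (A.nm 1 * det (π 2)) (A.nm 0 * det F)
  have h4 := P.D_det_le (A.meas 2) (A.nm 0) (A.nm 1 * det F)
  have h5 := hK.mask
  have h6 := hK.rank _ (meas_det (Ref.rfl' (π 0)))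
  simp only [mul_assoc, mul_comm, mul_left_comm] at *
  linarith

theorem i0 (hN : Net P π F t e) (he : e ≤ ε) (hK : GoodChan P π F K ε) {v : Fin 3}
    (hv : 0 ≠ v) :
    K.ext.I ((det (π 0)).lift K.en) ((det (π v)).lift K.st * mu K F) ((det F).lift K.st) ≤
      4 * ε := by
  classical
  rw [PS.I_eq, D_mu']
  have h1 : K.ext.D ((det (π 0)).lift K.en) ((det F).lift K.st) = P.D (det (π 0)) (det F) := by
    rw [hK.pres.lift_eq (meas_det (Ref.rfl' F)), D_en]
  have h2 := K.ext.I_le_D ((det (π 0)).lift K.en) ((det fun ω : Ω => ω).lift K.st)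
    ((det (π v)).lift K.st * mu K F)
  rw [PS.I_comm, PS.I_eq, ← mul_assoc, st_mu] at h2
  have h3 := st_mu K F 1 (det fun ω : Ω => ω) (det (π v))
  rw [Nm.lift_one, one_mul] at h3
  rw [h3] at h2
  have h4 := P.J_absorb (meas_id (K.app 1 * (det (π v) * det F))) 1
  have h5 := P.J_absorb (meas_id (K.app (det (π 0)) * (det (π v) * det F))) 1
  have h6 := P.I_le_det (hK.smeas.meas_app (det (π 0))) (det (π v)) (det F)
  have h7 := hN.ind 0 v hv
  have h8 := hK.mask
  have h9 := hK.rank _ (meas_det (Ref.rfl' (π 0)))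
  have h10 := P.D_anti (K.app 1) (det (π v)) (det F)
  have h11 := hN.e_nonneg
  rw [h1]
  rw [mul_one] at h4 h5
  simp only [PS.D, PS.I, mul_assoc, mul_comm, mul_left_comm] at *
  linarith

theorem i1 (hN : Net P π F t e) (he : e ≤ ε) (hK : GoodChan P π F K ε) {v : Fin 3}
    (hv : 0 ≠ v) (N : Nm Ω) :
    K.ext.I ((det (π v)).lift K.st) (N.lift K.en * mu K F) ((det F).lift K.st) ≤ 4 * ε := by
  rw [PS.I_eq, D_mu', D_st]
  have h3 := st_mu K F N (det (π v)) 1
  rw [Nm.lift_one, mul_one, one_mul] at h3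
  rw [h3, ← PS.I_eq, PS.I_comm]
  have h6 := P.I_le_det (hK.smeas.meas_app N) (det (π v)) (det F)
  have h7 := hN.ind 0 v hv
  have h11 := hN.e_nonneg
  linarith

end ExtHyp

open ExtHyp in
theorem coreHyp_ext {π : Fin 3 → Ω → T} {F : Ω → T} {t e ε E : ℝ} {S Λ : Type} [Fintype Λ]
    [DecidableEq Λ] {K : S → Chan P} {sr sc : S → Λ → Bool} (rc : RC P π F Λ K sr sc t ε E)
    (hN : Net P π F t e) (he : e ≤ ε) (σ : S) (hK : GoodChan P π F (K σ) ε) :
    CoreHyp (K σ).ext (extX π (K σ)) (fun x => F ((K σ).st x))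
      (fun x => ((K σ).mk' x, F ((K σ).st x))) (extN (K σ) rc.ρ (xrE (sr σ)))
      (extN (K σ) rc.κ (xrE (sc σ))) t (4 * ε) E := by
  have hε : 0 ≤ ε := hN.e_nonneg.trans he
  have x0 : det (extX π (K σ) 0) = (det (π 0)).lift (K σ).en := (K σ).det_en _
  have x1 : det (extX π (K σ) 1) = (det (π 1)).lift (K σ).st := (K σ).det_st _
  have x2 : det (extX π (K σ) 2) = (det (π 2)).lift (K σ).st := (K σ).det_st _
  have hm : ∀ (ρ : (Λ → Bool) → Tri π) (τ : Equiv.Perm (Λ → Bool)) u a,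
      Meas (extX π (K σ) u) (extN (K σ) ρ τ u a) := by
    intro ρ τ u a
    fin_cases u
    · exact ((ρ _).meas 0).lift _
    · exact ((ρ _).meas 1).lift _
    · exact ((ρ _).meas 2).lift _
  refine ⟨by linarith, (abs_nonneg _).trans (rc.prof 0 ∅ ∅), fun u => ?_,
    fun _ _ h => congrArg Prod.snd h, hm _ _, hm _ _, fun a => al2 (rc.alρ a) (rc.trρ' σ a) hε,
    fun a => ?_, fun b => al2 (rc.alκ b) (rc.trκ' σ b) hε, ?_, ?_, ?_, ?_, fun u S' T' => ?_⟩
  · fin_cases u
    · intro x y h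
      exact (hK.pres.ext_eq x).trans ((hN.ref 0 _ _ h).trans (hK.pres.ext_eq y).symm)
    · exact fun x y h => hN.ref 1 _ _ h
    · exact fun x y h => hN.ref 2 _ _ h
  · rw [x2]
    exact al0 hN hK ((rc.ρ _).meas 0) (rc.alρ a) (rc.trρ σ a)
  · rw [x0, x1, (K σ).det_st]
    exact i0 hN he hK (by decide)
  · rw [x0, x1, (K σ).det_st]
    exact i1 hN he hK (by decide) _
  · rw [x0, x2, (K σ).det_st]
    exact i0 hN he hK (by decide)
  · have h := i1 hN he hK (v := 2) (by decide) 1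
    rw [Nm.lift_one, one_mul] at h
    rw [x2, (K σ).det_st]
    exact h
  · rw [(K σ).det_st]
    fin_cases u
    · have h := rc.prof 0 S' (T'.map (xrE (sc σ)).toEmbedding)
      rw [card_map, prod_map, ← Fintype.expect_equiv (Equiv.mulLeft (xrE (sr σ))) _ _
        fun _ => rfl] at h
      convert h using 4 with τ
      rw [hK.pres.lift_eq (meas_det (Ref.rfl' F)), ← D_en (K σ), Nm.lift_mul, Nm.lift_prod,
        Nm.lift_prod]
      rfl
    · convert rc.prof 1 S' T' using 4 with τ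
      rw [← D_st (K σ), Nm.lift_mul, Nm.lift_prod, Nm.lift_prod]
      rfl
    · convert rc.prof 2 S' T' using 4 with τ
      rw [← D_st (K σ), Nm.lift_mul, Nm.lift_prod, Nm.lift_prod]
      rfl

end Pool.Agent.Lib.MP_a7c6c3_lc
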