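import Pool.Agent.Lib.MP_a7c6c3_lc.StBasic
import Pool.Agent.Lib.MP_a7c6c3_lc.Basic
import Pool.Agent.Lib.MP_a7c6c3_lc.EqFix

/-! Module `GenFacts`: from the fibre bounds to the entropy facts. -/

set_option autoImplicit false
set_option linter.unusedSimpArgs false
open Finset

namespace Pool.Agent.Lib.MP_a7c6c3_lc

namespace GenF

/-- Formal products of variables, the frame and the role states. -/
inductive Ex
  | v (v : Var)
  | F
  | R (u : Fin 3)
  | one
  | mul (a b : Ex)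

instance : Mul Ex := ⟨Ex.mul⟩

/-- The variables of a formal product. -/
def Ex.set : Ex → Finset Var
  | .v x => {x}
  | .F => SF
  | .R u => SR u
  | .one => ∅
  | .mul a b => a.set ∪ b.set

/-- An upper bound for the number of variables. -/
def Ex.sz : Ex → ℕ
  | .v _ => 1
  | .F => SF.card
  | .R u => (SR u).card
  | .one => 0
  | .mul a b => a.sz + b.sz

theorem Ex.card_le : ∀ a : Ex, a.set.card ≤ a.sz
  | .v _ => by simp [Ex.set, Ex.sz]
  | .F => le_rfl
  | .R _ => le_rfl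
  | .one => by simp [Ex.set, Ex.sz]
  | .mul a b => (card_union_le _ _).trans (add_le_add a.card_le b.card_le)

/-- The name of a formal product. -/
def Ex.nm {Ω : Type} [Fintype Ω] (val : Var → Ω → List Bool) : Ex → Nm Ω
  | .v x => vn val x
  | .F => det (fF val)
  | .R u => det (fR val u)
  | .one => 1
  | .mul a b => a.nm val * b.nm val

section Nm

variable {Ω : Type} [Fintype Ω] (val : Var → Ω → List Bool)

theorem nm_v (x : Var) : (Ex.v x).nm val = vn val x := rfl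
theorem nm_F : Ex.F.nm val = det (fF val) := rfl
theorem nm_R (u : Fin 3) : (Ex.R u).nm val = det (fR val u) := rfl
theorem nm_one : Ex.one.nm val = 1 := rfl
theorem nm_mul (a b : Ex) : (a * b).nm val = a.nm val * b.nm val := rfl
theorem set_mul (a b : Ex) : (a * b).set = a.set ∪ b.set := rfl

end Nm

/-- The variable vanishes everywhere. -/
def Z (d : Pt → St → ZMod 2) (v : Var) : Prop := ∀ x, val0 v d x = 0

/-- The frame points vanish. -/
def ZF (d : Pt → St → ZMod 2) : Prop :=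
  (∀ x, d .U x = 0) ∧ (∀ x, d .V x = 0) ∧ (∀ x, d (.Ub false) x = 0) ∧ (∀ x, d (.Ub true) x = 0) ∧
    (∀ x, d (.Vb false) x = 0) ∧ ∀ x, d (.Vb true) x = 0

/-- The variable that generates a role over the frame. -/
def role (u : Fin 3) : Var := if u = 0 then .pt .X else if u = 1 then .pt .Y else .al .one

/-- All variables of the formal product vanish. -/
def Ex.Z (d : Pt → St → ZMod 2) : Ex → Prop
  | .v x => GenF.Z d x
  | .F => ZF d
  | .R u => ZF d ∧ GenF.Z d (role u)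
  | .one => True
  | .mul a b => a.Z d ∧ b.Z d

theorem ev_one (x : St) : ev .one x = x := rfl

theorem zF {d : Pt → St → ZMod 2} : (∀ v ∈ SF, Z d v) ↔ ZF d := by
  constructor
  · intro h
    exact ⟨h (.pt .U) (by simp [SF, isF]), h (.pt .V) (by simp [SF, isF]),
      h (.pt (.Ub false)) (by simp [SF, isF]), h (.pt (.Ub true)) (by simp [SF, isF]),
      h (.pt (.Vb false)) (by simp [SF, isF]), h (.pt (.Vb true)) (by simp [SF, isF])⟩
  · rintro ⟨h1, h2, h3, h4, h5, h6⟩ v hv x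
    have h7 : ∀ b x, d (.Ub b) x = 0 := fun b => by cases b <;> assumption
    have h8 : ∀ b x, d (.Vb b) x = 0 := fun b => by cases b <;> assumption
    simp only [SF, mem_filter, mem_univ, true_and] at hv
    rcases v with (_ | _ | _ | _ | _ | _) | _ | _ | _ | _ | _ | _ | _ | _ | _ | _ | _ | _ | _ | _ | _ <;>
      first | (simp [isF] at hv; done) | simp [val0, h1, h2, h7, h8]

theorem zR {d : Pt → St → ZMod 2} (u : Fin 3) :
    (∀ v ∈ SR u, Z d v) ↔ ZF d ∧ Z d (role u) := by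
  constructor
  · intro h
    refine ⟨zF.1 fun v hv => h v ?_, h _ ?_⟩
    · simp only [SF, SR, mem_filter, mem_univ, true_and] at hv ⊢
      simp [isR, hv]
    · fin_cases u <;> simp [SR, isR, role]
  · rintro ⟨hF, h0⟩ v hv x
    by_cases hf : isF v = true
    · exact zF.2 hF v (by simp [SF, hf]) x
    obtain ⟨h1, h2, h3, h4, h5, h6⟩ := hF
    have h7 : ∀ b x, d (.Ub b) x = 0 := fun b => by cases b <;> assumption
    have h8 : ∀ b x, d (.Vb b) x = 0 := fun b => by cases b <;> assumption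
    simp only [SR, mem_filter, mem_univ, true_and] at hv
    have h9 := h0 x
    rcases v with (_ | _ | _ | _ | _ | _) | (_ | _ | _) | _ | _ | _ | _ | _ | _ | _ | _ | _ | _ | _ |
      _ | _ | _ <;> simp [isF, isR] at hv hf <;> subst hv <;>
      simp only [role, val0, ev_one, if_true, Fin.reduceEq, if_false, Fin.isValue] at h9 <;>
      simp [val0, h1, h2, h7, h8, h9, ev_one]

theorem Ex.z_iff {d : Pt → St → ZMod 2} : ∀ a : Ex, (∀ v ∈ a.set, GenF.Z d v) ↔ a.Z d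
  | .v _ => by simp [Ex.set, Ex.Z]
  | .F => zF
  | .R u => zR u
  | .one => by simp [Ex.set, Ex.Z]
  | .mul a b => by
    simp only [Ex.set, Ex.Z, mem_union, or_imp, forall_and, a.z_iff, b.z_iff]

theorem val0_add (v : Var) (w w' : Pt → St → ZMod 2) (x : St) :
    val0 v (w + w') x = val0 v w x + val0 v w' x := by
  cases v <;> simp only [val0, Pi.add_apply] <;> first | ring1 | (split_ifs <;> simp)

/-- `b` is determined by `a` on good positions. -/
def ImpG (a : Ex) (T : Finset Var) : Prop :=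
  ∀ d, a.Z d → ∀ v ∈ T, ∀ x, Good 3 x → val0 v d x = 0

/-- `b` is determined by `a` everywhere. -/
def Imp (a b : Ex) : Prop := ∀ d, a.Z d → b.Z d

theorem Imp.g {a b : Ex} (h : Imp a b) : ImpG a b.set :=
  fun d hd v hv x _ => b.z_iff.2 (h d hd) v hv x

/-- All eight points. -/
def top : Ex := .F * .v (.pt .X) * .v (.pt .Y)

theorem Imp.top {a : Ex} (h : Imp a top) (T : Finset Var) : ImpG a T := by
  intro d hd v _ x _
  obtain ⟨⟨⟨h1, h2, h3, h4, h5, h6⟩, h7⟩, h8⟩ := h d hd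
  have h0 : ∀ p x, d p x = 0 := by
    rintro (_ | _ | _ | _ | (_ | _) | (_ | _)) <;> assumption
  cases v <;> simp [val0, h0]

theorem gen_of {a E : Ex} {T : Finset Var} (h : ImpG (a * E) T) : Gen a.set T E.sz := by
  refine ⟨E.set, E.card_le, fun w w' hw v hv x hx => ?_⟩
  have := h (w + w') ((a * E).z_iff.1 fun u hu y => by
    rw [val0_add, hw u hu, CharTwo.add_self_eq_zero]) v hv x hx
  rwa [val0_add, CharTwo.add_eq_zero] at this

section Prob

variable {t e : ℝ} {A : Finset (Var → List Bool)}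

/-- The uniform law. -/
noncomputable def unif (h : A.Nonempty) : PS A where
  p _ := (Fintype.card A : ℝ)⁻¹
  pos _ := by
    have : Nonempty A := h.to_subtype
    have : 0 < Fintype.card A := Fintype.card_pos
    positivity
  sum_one := by
    have : Nonempty A := h.to_subtype
    have : (Fintype.card A : ℝ) ≠ 0 := by exact_mod_cast Fintype.card_ne_zero
    simp only [sum_const, card_univ, nsmul_eq_mul]
    exact mul_inv_cancel₀ this

/-- The coordinates. -/
abbrev vl (A : Finset (Var → List Bool)) : Var → A → List Bool := fun v ω => ω.1 v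

/-- The name of a set of variables. -/
abbrev dv (A : Finset (Var → List Bool)) (S : Finset Var) : Nm A :=
  det fun ω => res S fun v => vl A v ω

theorem rep (P : PS A) : ∀ (a : Ex) (C : Nm A), P.J (a.nm (vl A) * C) = P.J (dv A a.set * C)
  | .v x, C => by rw [P.J_res]; simp [Ex.nm, Ex.set, vn]
  | .F, _ => rfl
  | .R _, _ => rfl
  | .one, C => by rw [P.J_res]; simp [Ex.nm, Ex.set]
  | .mul a b, C => by
    change P.J (a.nm (vl A) * b.nm (vl A) * C) = P.J (dv A (a.set ∪ b.set) * C)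
    rw [← P.J_res_union, mul_assoc, rep P a, mul_left_comm, rep P b, mul_left_comm, mul_assoc]

theorem rep1 (P : PS A) (a : Ex) : P.J (a.nm (vl A)) = P.J (dv A a.set) := by
  simpa using rep P a 1

theorem fib_card (S T : Finset Var) (ω : A) :
    ((univ.filter fun ω' : A => (res S fun v => vl A v ω') = res S fun v => vl A v ω).image
      fun ω' : A => res T fun v => vl A v ω').card =
      ((A.filter fun a' => res S a' = res S ω.1).image (res T)).card := by
  congr 1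
  ext y
  simp only [mem_image, mem_filter, mem_univ, true_and]
  constructor
  · rintro ⟨a, h1, h2⟩
    exact ⟨a.1, ⟨a.2, h1⟩, h2⟩
  · rintro ⟨a, ⟨h0, h1⟩, h2⟩
    exact ⟨⟨a, h0⟩, h1, h2⟩

theorem dS (h : Comb t e A) (P : PS A) {S T : Finset Var} {n : ℕ} (hg : Gen S T n) :
    P.D (dv A T) (dv A S) ≤ n * t + e :=
  P.D_det_le_log _ _ _ fun ω => by rw [fib_card]; exact h.fib S T n hg ω.1 ω.2

theorem dU (h : Comb t e A) (P : PS A) (a c E : Ex) (hi : ImpG (c * E) a.set) :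
    P.D (a.nm (vl A)) (c.nm (vl A)) ≤ E.sz * t + e := by
  have := dS h P (gen_of hi)
  unfold PS.D at this ⊢
  rwa [rep, mul_comm, rep, mul_comm, rep1]

theorem d0 (h : Comb t e A) (he : 0 ≤ e) (P : PS A) (a c : Ex) (hi : ImpG c a.set) :
    P.D (a.nm (vl A)) (c.nm (vl A)) ≤ 6 * e := by
  have := dU h P a c .one fun d hd => hi d hd.1
  simp only [Ex.sz, Nat.cast_zero, zero_mul, zero_add] at this
  linarith

theorem jU (h : Comb t e A) (P : PS A) (a E : Ex) (hi : ImpG E a.set) :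
    P.J (a.nm (vl A)) ≤ E.sz * t + e := by
  have := dU h P a .one E fun d hd => hi d hd.2
  rwa [Ex.nm, P.D_one] at this

theorem jL (h : Comb t e A) (a E : Ex) (hi : Imp (a * E) top) :
    8 * t - 2 * e - E.sz * t ≤ (unif h.ne).J (a.nm (vl A)) := by
  have h1 := dS h (unif h.ne) (gen_of (hi.top univ))
  have h2 : (unif h.ne).J (dv A univ) = Real.log (Fintype.card A) := by
    refine PS.J_det_uniform _ _ (fun ω ω' hω => Subtype.ext (funext fun v => ?_)) fun _ => rfl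
    simpa [res] using congrFun hω v
  have h3 := (unif h.ne).J_mono (dv A a.set) (dv A univ)
  have h4 := h.tot
  rw [Fintype.card_coe] at h2
  unfold PS.D at h1
  rw [mul_comm] at h3
  rw [rep1]
  linarith

theorem iU (h : Comb t e A) (a b c E1 E2 E3 E4 : Ex) (h1 : ImpG E1 (a * c).set)
    (h2 : ImpG E2 (b * c).set) (h3 : Imp (a * b * c * E3) top) (h4 : Imp (c * E4) top)
    (hn : E1.sz + E2.sz + E3.sz + E4.sz = 16) :
    (unif h.ne).I (a.nm (vl A)) (b.nm (vl A)) (c.nm (vl A)) ≤ 6 * e := by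
  have a1 := jU h (unif h.ne) _ _ h1
  have a2 := jU h (unif h.ne) _ _ h2
  have a3 := jL h _ _ h3
  have a4 := jL h _ _ h4
  have a5 : (E1.sz : ℝ) + E2.sz + E3.sz + E4.sz = 16 := by exact_mod_cast hn
  have a6 : (E1.sz : ℝ) * t + E2.sz * t + E3.sz * t + E4.sz * t = 16 * t := by rw [← a5]; ring
  change (unif h.ne).J ((a * c).nm _) + (unif h.ne).J ((b * c).nm _) -
    (unif h.ne).J ((a * b * c).nm _) - _ ≤ _
  linarith

end Prob

theorem surj {f : St → ZMod 2} (g : G0) (h : ∀ x, f (ev g x) = 0) (y : St) : f y = 0 := by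
  obtain ⟨x, rfl⟩ := (ev_bijective g).2 y
  exact h x

/-- The points as formal products. -/
abbrev pX : Ex := .v (.pt .X)
abbrev pY : Ex := .v (.pt .Y)
abbrev pU : Ex := .v (.pt .U)
abbrev pV : Ex := .v (.pt .V)
/-- The four auxiliary frame points. -/
abbrev pB : Ex := .v (.pt (.Ub false)) * .v (.pt (.Ub true)) * .v (.pt (.Vb false)) *
  .v (.pt (.Vb true))
/-- The six frame points. -/
abbrev pF : Ex := pU * pV * pB

theorem mul_Z (d : Pt → St → ZMod 2) (a b : Ex) : (a * b).Z d ↔ a.Z d ∧ b.Z d := Iff.rfl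

theorem imp_iff (a b : Ex) : Imp a b ↔ ∀ d, a.Z d → b.Z d := Iff.rfl

theorem role0 : role 0 = .pt .X := rfl
theorem role1 : role 1 = .pt .Y := rfl
theorem role2 : role 2 = .al .one := rfl

theorem top_Z (d : Pt → St → ZMod 2) :
    top.Z d ↔ (ZF d ∧ ∀ x, d .X x = 0) ∧ ∀ x, d .Y x = 0 := Iff.rfl

theorem flb (g : G0) : Imp (.R 0 * .v (.al g) * .one * .one) top := by
  intro d hd
  simp only [mul_Z, top_Z, Ex.Z, ZF, Z, val0, role0] at hd ⊢
  have hY : ∀ y, d .Y y = 0 := surj g (by grind)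
  grind

theorem ri {k g k' g' : G0} (hr : Rule2 k g k' g') :
    ImpG (.v .r * .v (.ph1 false k) * .v (.ph3 false) * .v (.ph2 false g) *
      .v (.ph1 true k') * .v (.ph3 true))
    (.v .r * (.v (.ph1 false k) * .v (.ph3 false) * .v (.ph2 false g)) *
      (.v (.ph1 true k') * .v (.ph3 true) * .v (.ph2 true g')) * .one : Ex).set := by
  rintro d ⟨⟨⟨⟨⟨h1, h2⟩, h3⟩, h4⟩, h5⟩, h6⟩ v hv x hx
  simp only [set_mul, Ex.set, mem_union, mem_singleton, notMem_empty, or_false] at hv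
  rcases hv with (rfl | (rfl | rfl) | rfl) | (rfl | rfl) | rfl
  · exact h1 x
  · exact h2 x
  · exact h3 x
  · exact h4 x
  · exact h5 x
  · exact h6 x
  · have e := hr x (hx.mono (by norm_num))
    simp only [Ex.Z, Z, val0, CharTwo.add_eq_zero] at h2 h3 h4 h5 h6 ⊢
    rw [h4, ← h3, h2, e, ← h5, h6]

theorem cr1 {g : G0} {γ γ' : Col} (hr : RuleC g γ γ') :
    ImpG (.v (.al g) * .v (.cY γ')) (Ex.v (.cX γ)).set := by
  rintro d ⟨h1, h2⟩ v hv x hx
  obtain rfl := mem_singleton.1 hv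
  have e := hr x (hx.mono (by norm_num))
  have h3 := h2 (ev g x)
  simp only [Ex.Z, Z, val0, CharTwo.add_eq_zero] at h1 h3 ⊢
  rw [h1, if_congr e rfl rfl, h3]

theorem cr2 {g : G0} {γ γ' : Col} (hr : RuleC g γ γ') :
    ImpG (.v (.al g) * .v (.cX γ)) (Ex.v (.cY γ')).set := by
  rintro d ⟨h1, h2⟩ v hv y hy
  obtain rfl := mem_singleton.1 hv
  have e := hr (ev g.inv y) (hy.ev g.inv)
  have h3 := h2 (ev g.inv y)
  simp only [Ex.Z, Z, val0, CharTwo.add_eq_zero] at h1 h3 ⊢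
  rw [h1, if_congr e rfl rfl, ev_ev_inv] at h3
  exact h3

theorem ccov (p : Fin 6) : Imp (.v (.cX (p, false)) * .v (.cX (p, true)) * .F) (.R 0) := by
  rintro d ⟨⟨h1, h2⟩, h3⟩
  refine ⟨h3, fun x => ?_⟩
  have h4 := h1 x
  have h5 := h2 x
  simp only [val0, inQ] at h4 h5
  change d .X x = 0
  cases hb : (x p).headD true <;> simp_all

section Fin

variable {t e : ℝ} {A : Finset (Var → List Bool)}

theorem jcol (P : PS A) (S : Finset Var) {x : ℝ}
    (h : ((A.image (res S)).card : ℝ) ≤ Real.exp x) : P.J (dv A S) ≤ x := by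
  refine P.J_det_le_log _ _ (le_of_eq_of_le ?_ h)
  congr 2
  ext y
  simp only [mem_image, mem_univ, true_and]
  exact ⟨fun ⟨a, ha⟩ => ⟨a.1, a.2, ha⟩, fun ⟨a, h0, ha⟩ => ⟨⟨a, h0⟩, ha⟩⟩

theorem jc1 (P : PS A) (γ : Col) {x : ℝ}
    (h : ((A.image (res {Var.cX γ, Var.cX γ})).card : ℝ) ≤ Real.exp x) :
    P.J (vn (vl A) (.cX γ)) ≤ x := by
  have := jcol P _ h
  rw [pair_eq_singleton] at this
  exact (rep1 P (.v (.cX γ))).trans_le this

theorem jc2 (P : PS A) (γ γ' : Col) {x : ℝ}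
    (h : ((A.image (res {Var.cX γ, Var.cX γ'})).card : ℝ) ≤ Real.exp x) :
    P.J (vn (vl A) (.cX γ) * vn (vl A) (.cX γ')) ≤ x := by
  have := jcol P _ h
  rw [insert_eq] at this
  have h2 := rep1 P (.v (.cX γ) * .v (.cX γ'))
  simp only [nm_v, nm_mul, set_mul, Ex.set] at h2
  rw [h2]
  exact this

theorem roleF (u : Fin 3) : Imp (.F * .v (role u)) (.R u) := fun _ hd => hd

theorem neti (h : Comb t e A) (u v : Fin 3) (huv : u ≠ v) :
    (unif h.ne).I (det (fR (vl A) u)) (det (fR (vl A) v)) (det (fF (vl A))) ≤ 6 * e := by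
  have := fun h1 h2 h3 => iU h (.R u) (.R v) .F (pF * .v (role u)) (pF * .v (role v)) .one
    (pX * pY) (Imp.g h1) (Imp.g h2) h3
    (by simp only [imp_iff, mul_Z, top_Z, Ex.Z, ZF, Z, val0, role0, role1, role2, ev_one]; grind) rfl
  simp only [nm_F, nm_R] at this
  refine this ?_ ?_ ?_
  · simp only [imp_iff, mul_Z, Ex.Z, ZF, Z, val0]
    grind
  · simp only [imp_iff, mul_Z, Ex.Z, ZF, Z, val0]
    grind
  · have h3 : ∀ u : Fin 3, u = 0 ∨ u = 1 ∨ u = 2 := by decide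
    rcases h3 u with rfl | rfl | rfl <;> rcases h3 v with rfl | rfl | rfl <;>
      first
        | exact absurd rfl huv
        | (simp only [imp_iff, mul_Z, top_Z, Ex.Z, ZF, Z, val0, role0, role1, role2, ev_one]
           grind)

theorem netd (h : Comb t e A) (he : 0 ≤ e) (P : PS A) (u : Fin 3) :
    P.D (det (fR (vl A) u)) (det (fR (vl A) (u + 1)) * det (fR (vl A) (u + 2))) ≤ 6 * e := by
  have := fun h1 => d0 h he P (.R u) (.R (u + 1) * .R (u + 2)) (Imp.top h1 _)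
  simp only [nm_R, nm_mul] at this
  refine this ?_
  have h3 : ∀ u : Fin 3, (u + 1 = 1 ∧ u + 2 = 2) ∨ (u + 1 = 2 ∧ u + 2 = 0) ∨
    (u + 1 = 0 ∧ u + 2 = 1) := by decide
  rcases h3 u with ⟨h1, h2⟩ | ⟨h1, h2⟩ | ⟨h1, h2⟩ <;> rw [h1, h2] <;>
    simp only [imp_iff, mul_Z, top_Z, Ex.Z, ZF, Z, val0, role0, role1, role2, ev_one] <;> grind

theorem toplo (h : Comb t e A) (he : 0 ≤ e) :
    t - 6 * e ≤ (unif h.ne).D (det (fR (vl A) 0)) (det (fF (vl A))) := by
  have h1 := jL h (.R 0 * .F) pY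
    (by simp only [imp_iff, mul_Z, top_Z, Ex.Z, ZF, Z, val0, role0, role1, role2, ev_one]; grind)
  have h2 := jU h (unif h.ne) .F pF
    (Imp.g (by simp only [imp_iff, mul_Z, top_Z, Ex.Z, ZF, Z, val0, role0, role1, role2, ev_one]; grind))
  have e1 : (pY.sz : ℝ) = 1 := Nat.cast_one
  have e2 : (pF.sz : ℝ) = 6 := by norm_num [show pF.sz = 6 from rfl]
  rw [e1] at h1
  rw [e2] at h2
  simp only [nm_F, nm_R, nm_mul] at h1 h2
  unfold PS.D
  linarith

theorem tophi (h : Comb t e A) (he : 0 ≤ e) (P : PS A) :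
    P.D (det (fR (vl A) 0)) (det (fF (vl A))) ≤ t + 6 * e := by
  have h1 := dU h P (.R 0) .F (.v (role 0)) (roleF 0).g
  have e1 : ((Ex.v (role 0)).sz : ℝ) = 1 := Nat.cast_one
  rw [e1] at h1
  simp only [nm_F, nm_R] at h1
  linarith

theorem supp' (h : Comb t e A) (he : 0 ≤ e) (u : Fin 3) (ω : A) :
    (((univ.filter fun ω' => fF (vl A) ω' = fF (vl A) ω).image (fR (vl A) u)).card : ℝ) ≤
      Real.exp (t + 6 * e) := by
  have h1 := h.fib _ _ _ (gen_of (roleF u).g) ω.1 ω.2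
  rw [← fib_card] at h1
  refine le_trans h1 (Real.exp_le_exp.2 ?_)
  have e1 : ((Ex.v (role u)).sz : ℝ) = 1 := Nat.cast_one
  rw [e1]
  linarith

theorem f_iXs (h : Comb t e A)  :
    (unif h.ne).I (vn (vl A) (.pt .X)) (vn (vl A) .s) 1 ≤ 6 * e := by
  have := fun h1 h2 h3 h4 => iU h (pX)
    (.v .s)
    (.one) (pX)
    (.v .s)
    (pY * pV * pB) (pX * pY * pF) (Imp.g h1) (Imp.g h2) h3 h4 rfl
  simp only [nm_v, nm_F, nm_R, nm_one, nm_mul] at this
  refine this ?_ ?_ ?_ ?_ <;>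
    simp only [imp_iff, mul_Z, top_Z, Ex.Z, ZF, Z, val0, role0, role1, role2, ev_one] <;> grind

theorem f_iFs (h : Comb t e A)  :
    (unif h.ne).I (det (fF (vl A))) (vn (vl A) .s) 1 ≤ 6 * e := by
  have := fun h1 h2 h3 h4 => iU h (.F)
    (.v .s)
    (.one) (pF)
    (.v .s)
    (pY) (pX * pY * pF) (Imp.g h1) (Imp.g h2) h3 h4 rfl
  simp only [nm_v, nm_F, nm_R, nm_one, nm_mul] at this
  refine this ?_ ?_ ?_ ?_ <;>
    simp only [imp_iff, mul_Z, top_Z, Ex.Z, ZF, Z, val0, role0, role1, role2, ev_one] <;> grind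

theorem f_fl_a (h : Comb t e A) (g : G0) :
    (unif h.ne).I (det (fR (vl A) 1)) (vn (vl A) (.al g)) 1 ≤ 6 * e := by
  have := fun h1 h2 h3 h4 => iU h (.R 1)
    (.v (.al g))
    (.one) (pY * pF)
    (.v (.al g))
    (.one) (pX * pY * pF) (Imp.g h1) (Imp.g h2) h3 h4 rfl
  simp only [nm_v, nm_F, nm_R, nm_one, nm_mul] at this
  refine this ?_ ?_ ?_ ?_ <;>
    simp only [imp_iff, mul_Z, top_Z, Ex.Z, ZF, Z, val0, role0, role1, role2, ev_one] <;> grind

theorem f_fl_b (h : Comb t e A) (g : G0) :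
    (unif h.ne).I (det (fR (vl A) 0)) (vn (vl A) (.al g)) 1 ≤ 6 * e := by
  have := fun h1 h2 h4 => iU h (.R 0)
    (.v (.al g))
    (.one) (pX * pF)
    (.v (.al g))
    (.one) (pX * pY * pF) (Imp.g h1) (Imp.g h2) (flb g) h4 rfl
  simp only [nm_v, nm_F, nm_R, nm_one, nm_mul] at this
  refine this ?_ ?_ ?_ <;>
    simp only [imp_iff, mul_Z, top_Z, Ex.Z, ZF, Z, val0, role0, role1, role2, ev_one] <;> grind

theorem f_fl_l (h : Comb t e A) (g : G0) :
    (unif h.ne).I (det (fR (vl A) 1)) (vn (vl A) (.al g) * vn (vl A) (.pt .X)) (vn (vl A) (.pt .Y)) ≤ 6 * e := by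
  have := fun h1 h2 h3 h4 => iU h (.R 1)
    (.v (.al g) * pX)
    (pY) (pY * pF)
    (pX * pY)
    (.one) (pX * pF) (Imp.g h1) (Imp.g h2) h3 h4 rfl
  simp only [nm_v, nm_F, nm_R, nm_one, nm_mul] at this
  refine this ?_ ?_ ?_ ?_ <;>
    simp only [imp_iff, mul_Z, top_Z, Ex.Z, ZF, Z, val0, role0, role1, role2, ev_one] <;> grind

theorem f_fl_d (h : Comb t e A) (he : 0 ≤ e) (g : G0) :
    (unif h.ne).D (vn (vl A) .s) (vn (vl A) (.al g) * vn (vl A) .r * vn (vl A) (.ph g)) ≤ 6 * e := by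
  have := fun h1 => d0 h he (unif h.ne) (.v .s)
    (.v (.al g) * .v .r * .v (.ph g)) (Imp.g h1)
  simp only [nm_v, nm_F, nm_R, nm_one, nm_mul] at this
  refine this ?_
  simp only [imp_iff, mul_Z, top_Z, Ex.Z, ZF, Z, val0, role0, role1, role2, ev_one]
  grind

theorem f_fl_p (h : Comb t e A) (g : G0) :
    (unif h.ne).I (vn (vl A) (.ph g))
    (vn (vl A) (.pt .X) * vn (vl A) (.pt .Y) * vn (vl A) (.al g) * vn (vl A) .r * vn (vl A) (.pt .V)) 1 ≤ 6 * e := by
  have := fun h1 h2 h3 h4 => iU h (.v (.ph g))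
    (pX * pY * .v (.al g) * .v .r * pV)
    (.one) (.v (.ph g))
    (pX * pY * pV)
    (pB) (pX * pY * pF) (Imp.g h1) (Imp.g h2) h3 h4 rfl
  simp only [nm_v, nm_F, nm_R, nm_one, nm_mul] at this
  refine this ?_ ?_ ?_ ?_ <;>
    simp only [imp_iff, mul_Z, top_Z, Ex.Z, ZF, Z, val0, role0, role1, role2, ev_one] <;> grind

theorem f_fl_q (h : Comb t e A) (g : G0) :
    (unif h.ne).I (det (fF (vl A)))
    (vn (vl A) (.pt .X) * vn (vl A) (.pt .Y) * vn (vl A) (.al g) * vn (vl A) .r) (vn (vl A) (.pt .V)) ≤ 6 * e := by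
  have := fun h1 h2 h3 h4 => iU h (.F)
    (pX * pY * .v (.al g) * .v .r)
    (pV) (pF)
    (pX * pY * pV)
    (.one) (pX * pY * pU * pB) (Imp.g h1) (Imp.g h2) h3 h4 rfl
  simp only [nm_v, nm_F, nm_R, nm_one, nm_mul] at this
  refine this ?_ ?_ ?_ ?_ <;>
    simp only [imp_iff, mul_Z, top_Z, Ex.Z, ZF, Z, val0, role0, role1, role2, ev_one] <;> grind

theorem f_sh_l (h : Comb t e A)  :
    (unif h.ne).I (det (fR (vl A) 0)) (vn (vl A) (.al .one) * vn (vl A) (.pt .Y)) (vn (vl A) (.pt .X)) ≤ 6 * e := by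
  have := fun h1 h2 h3 h4 => iU h (.R 0)
    (.v (.al .one) * pY)
    (pX) (pX * pF)
    (pX * pY)
    (.one) (pY * pF) (Imp.g h1) (Imp.g h2) h3 h4 rfl
  simp only [nm_v, nm_F, nm_R, nm_one, nm_mul] at this
  refine this ?_ ?_ ?_ ?_ <;>
    simp only [imp_iff, mul_Z, top_Z, Ex.Z, ZF, Z, val0, role0, role1, role2, ev_one] <;> grind

theorem f_sh_d (h : Comb t e A) (he : 0 ≤ e)  :
    (unif h.ne).D (vn (vl A) .r) (vn (vl A) (.al .one) * vn (vl A) .s * vn (vl A) (.ph .one)) ≤ 6 * e := by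
  have := fun h1 => d0 h he (unif h.ne) (.v .r)
    (.v (.al .one) * .v .s * .v (.ph .one)) (Imp.g h1)
  simp only [nm_v, nm_F, nm_R, nm_one, nm_mul] at this
  refine this ?_
  simp only [imp_iff, mul_Z, top_Z, Ex.Z, ZF, Z, val0, role0, role1, role2, ev_one]
  grind

theorem f_sh_p (h : Comb t e A)  :
    (unif h.ne).I (vn (vl A) (.ph .one))
    (vn (vl A) (.pt .Y) * vn (vl A) (.pt .X) * vn (vl A) (.al .one) * vn (vl A) .s * vn (vl A) (.pt .U)) 1 ≤ 6 * e := by
  have := fun h1 h2 h3 h4 => iU h (.v (.ph .one))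
    (pY * pX * .v (.al .one) * .v .s * pU)
    (.one) (.v (.ph .one))
    (pX * pY * pU)
    (pB) (pX * pY * pF) (Imp.g h1) (Imp.g h2) h3 h4 rfl
  simp only [nm_v, nm_F, nm_R, nm_one, nm_mul] at this
  refine this ?_ ?_ ?_ ?_ <;>
    simp only [imp_iff, mul_Z, top_Z, Ex.Z, ZF, Z, val0, role0, role1, role2, ev_one] <;> grind

theorem f_sh_q (h : Comb t e A)  :
    (unif h.ne).I (det (fF (vl A)))
    (vn (vl A) (.pt .Y) * vn (vl A) (.pt .X) * vn (vl A) (.al .one) * vn (vl A) .s) (vn (vl A) (.pt .U)) ≤ 6 * e := by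
  have := fun h1 h2 h3 h4 => iU h (.F)
    (pY * pX * .v (.al .one) * .v .s)
    (pU) (pF)
    (pX * pY * pU)
    (.one) (pX * pY * pV * pB) (Imp.g h1) (Imp.g h2) h3 h4 rfl
  simp only [nm_v, nm_F, nm_R, nm_one, nm_mul] at this
  refine this ?_ ?_ ?_ ?_ <;>
    simp only [imp_iff, mul_Z, top_Z, Ex.Z, ZF, Z, val0, role0, role1, role2, ev_one] <;> grind

theorem f_r_d2 (h : Comb t e A) (he : 0 ≤ e) (b : Bool) (g : G0) :
    (unif h.ne).D (vn (vl A) .s) (vn (vl A) (.al g) * vn (vl A) (.rb b) * vn (vl A) (.ph2 b g)) ≤ 6 * e := by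
  have := fun h1 => d0 h he (unif h.ne) (.v .s)
    (.v (.al g) * .v (.rb b) * .v (.ph2 b g)) (Imp.g h1)
  simp only [nm_v, nm_F, nm_R, nm_one, nm_mul] at this
  refine this ?_
  simp only [imp_iff, mul_Z, top_Z, Ex.Z, ZF, Z, val0, role0, role1, role2, ev_one]
  grind

theorem f_r_d3 (h : Comb t e A) (he : 0 ≤ e) (b : Bool) :
    (unif h.ne).D (vn (vl A) (.rb b)) (vn (vl A) (.al .one) * vn (vl A) (.sb b) * vn (vl A) (.ph3 b)) ≤ 6 * e := by
  have := fun h1 => d0 h he (unif h.ne) (.v (.rb b))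
    (.v (.al .one) * .v (.sb b) * .v (.ph3 b)) (Imp.g h1)
  simp only [nm_v, nm_F, nm_R, nm_one, nm_mul] at this
  refine this ?_
  simp only [imp_iff, mul_Z, top_Z, Ex.Z, ZF, Z, val0, role0, role1, role2, ev_one]
  grind

theorem f_r_d1 (h : Comb t e A) (he : 0 ≤ e) (b : Bool) (g : G0) :
    (unif h.ne).D (vn (vl A) (.sb b)) (vn (vl A) (.al g) * vn (vl A) .r * vn (vl A) (.ph1 b g)) ≤ 6 * e := by
  have := fun h1 => d0 h he (unif h.ne) (.v (.sb b))
    (.v (.al g) * .v .r * .v (.ph1 b g)) (Imp.g h1)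
  simp only [nm_v, nm_F, nm_R, nm_one, nm_mul] at this
  refine this ?_
  simp only [imp_iff, mul_Z, top_Z, Ex.Z, ZF, Z, val0, role0, role1, role2, ev_one]
  grind

theorem f_r_i (h : Comb t e A) (k g k' g' : G0) (hr : Rule2 k g k' g') :
    (unif h.ne).I (vn (vl A) (.pt .Y))
    (vn (vl A) .r * (vn (vl A) (.ph1 false k) * vn (vl A) (.ph3 false) * vn (vl A) (.ph2 false g)) *
      (vn (vl A) (.ph1 true k') * vn (vl A) (.ph3 true) * vn (vl A) (.ph2 true g'))) 1 ≤ 6 * e := by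
  have := fun h1 h3 h4 => iU h (pY)
    (.v .r * (.v (.ph1 false k) * .v (.ph3 false) * .v (.ph2 false g)) *
      (.v (.ph1 true k') * .v (.ph3 true) * .v (.ph2 true g')))
    (.one) (pY)
    (.v .r * .v (.ph1 false k) * .v (.ph3 false) * .v (.ph2 false g) *
      .v (.ph1 true k') * .v (.ph3 true))
    (pX) (pX * pY * pF) (Imp.g h1) (ri hr) h3 h4 rfl
  simp only [nm_v, nm_F, nm_R, nm_one, nm_mul] at this
  refine this ?_ ?_ ?_ <;>
    simp only [imp_iff, mul_Z, top_Z, Ex.Z, ZF, Z, val0, role0, role1, role2, ev_one] <;> grind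

theorem f_z_a (h : Comb t e A)  :
    (unif h.ne).I (det (fR (vl A) 2)) (vn (vl A) (.pt .Y)) 1 ≤ 6 * e := by
  have := fun h1 h2 h3 h4 => iU h (.R 2)
    (pY)
    (.one) (.v (.al .one) * pF)
    (pY)
    (.one) (pX * pY * pF) (Imp.g h1) (Imp.g h2) h3 h4 rfl
  simp only [nm_v, nm_F, nm_R, nm_one, nm_mul] at this
  refine this ?_ ?_ ?_ ?_ <;>
    simp only [imp_iff, mul_Z, top_Z, Ex.Z, ZF, Z, val0, role0, role1, role2, ev_one] <;> grind

theorem f_z_l (h : Comb t e A)  :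
    (unif h.ne).I (det (fR (vl A) 2)) (vn (vl A) (.pt .Y) * vn (vl A) (.pt .X)) (vn (vl A) (.al .one)) ≤ 6 * e := by
  have := fun h1 h2 h3 h4 => iU h (.R 2)
    (pY * pX)
    (.v (.al .one)) (.v (.al .one) * pF)
    (pX * pY)
    (.one) (pY * pF) (Imp.g h1) (Imp.g h2) h3 h4 rfl
  simp only [nm_v, nm_F, nm_R, nm_one, nm_mul] at this
  refine this ?_ ?_ ?_ ?_ <;>
    simp only [imp_iff, mul_Z, top_Z, Ex.Z, ZF, Z, val0, role0, role1, role2, ev_one] <;> grind

theorem f_z_ds (h : Comb t e A) (he : 0 ≤ e)  :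
    (unif h.ne).D (vn (vl A) .s) (vn (vl A) .sg * vn (vl A) (.pt .Y)) ≤ 6 * e := by
  have := fun h1 => d0 h he (unif h.ne) (.v .s)
    (.v .sg * pY) (Imp.g h1)
  simp only [nm_v, nm_F, nm_R, nm_one, nm_mul] at this
  refine this ?_
  simp only [imp_iff, mul_Z, top_Z, Ex.Z, ZF, Z, val0, role0, role1, role2, ev_one]
  grind

theorem f_z_dr (h : Comb t e A) (he : 0 ≤ e)  :
    (unif h.ne).D (vn (vl A) .r) (vn (vl A) .sg' * vn (vl A) (.pt .X)) ≤ 6 * e := by
  have := fun h1 => d0 h he (unif h.ne) (.v .r)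
    (.v .sg' * pX) (Imp.g h1)
  simp only [nm_v, nm_F, nm_R, nm_one, nm_mul] at this
  refine this ?_
  simp only [imp_iff, mul_Z, top_Z, Ex.Z, ZF, Z, val0, role0, role1, role2, ev_one]
  grind

theorem f_z_i1 (h : Comb t e A)  :
    (unif h.ne).I (vn (vl A) (.pt .X) * vn (vl A) (.pt .Y) * vn (vl A) (.al .one))
    (vn (vl A) .sg * vn (vl A) .sg' * vn (vl A) (.ph .one)) 1 ≤ 6 * e := by
  have := fun h1 h2 h3 h4 => iU h (pX * pY * .v (.al .one))
    (.v .sg * .v .sg' * .v (.ph .one))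
    (.one) (pX * pY)
    (.v .sg * .v .sg')
    (pB) (pX * pY * pF) (Imp.g h1) (Imp.g h2) h3 h4 rfl
  simp only [nm_v, nm_F, nm_R, nm_one, nm_mul] at this
  refine this ?_ ?_ ?_ ?_ <;>
    simp only [imp_iff, mul_Z, top_Z, Ex.Z, ZF, Z, val0, role0, role1, role2, ev_one] <;> grind

theorem f_z_i2 (h : Comb t e A)  :
    (unif h.ne).I (vn (vl A) (.pt .X) * vn (vl A) (.pt .Y) * vn (vl A) (.al .one))
    (vn (vl A) .s * vn (vl A) (.ph .one)) 1 ≤ 6 * e := by
  have := fun h1 h2 h3 h4 => iU h (pX * pY * .v (.al .one))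
    (.v .s * .v (.ph .one))
    (.one) (pX * pY)
    (.v .s * .v (.ph .one))
    (pB) (pX * pY * pF) (Imp.g h1) (Imp.g h2) h3 h4 rfl
  simp only [nm_v, nm_F, nm_R, nm_one, nm_mul] at this
  refine this ?_ ?_ ?_ ?_ <;>
    simp only [imp_iff, mul_Z, top_Z, Ex.Z, ZF, Z, val0, role0, role1, role2, ev_one] <;> grind

theorem f_net_x (h : Comb t e A) (he : 0 ≤ e) (g : G0) :
    (unif h.ne).D (det (fR (vl A) 0)) (vn (vl A) (.al g) * det (fR (vl A) 1)) ≤ 6 * e := by
  have := fun h1 => d0 h he (unif h.ne) (.R 0)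
    (.v (.al g) * .R 1) (Imp.g h1)
  simp only [nm_v, nm_F, nm_R, nm_one, nm_mul] at this
  refine this ?_
  simp only [imp_iff, mul_Z, top_Z, Ex.Z, ZF, Z, val0, role0, role1, role2, ev_one]
  grind

theorem f_net_y (h : Comb t e A) (he : 0 ≤ e)  :
    (unif h.ne).D (det (fR (vl A) 1)) (vn (vl A) (.al .one) * det (fR (vl A) 0)) ≤ 6 * e := by
  have := fun h1 => d0 h he (unif h.ne) (.R 1)
    (.v (.al .one) * .R 0) (Imp.g h1)
  simp only [nm_v, nm_F, nm_R, nm_one, nm_mul] at this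
  refine this ?_
  simp only [imp_iff, mul_Z, top_Z, Ex.Z, ZF, Z, val0, role0, role1, role2, ev_one]
  grind

theorem f_c_lX (h : Comb t e A) (he : 0 ≤ e) (γ : Col) :
    (unif h.ne).D (vn (vl A) (.cX γ)) (vn (vl A) (.pt .X)) ≤ 6 * e := by
  have := fun h1 => d0 h he (unif h.ne) (.v (.cX γ))
    (pX) (Imp.g h1)
  simp only [nm_v, nm_F, nm_R, nm_one, nm_mul] at this
  refine this ?_
  simp only [imp_iff, mul_Z, top_Z, Ex.Z, ZF, Z, val0, role0, role1, role2, ev_one]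
  grind

theorem f_c_gX1 (h : Comb t e A) (he : 0 ≤ e) (γ : Col) :
    (unif h.ne).D (vn (vl A) (.cX γ)) (vn (vl A) .s * vn (vl A) (.cU γ)) ≤ 6 * e := by
  have := fun h1 => d0 h he (unif h.ne) (.v (.cX γ))
    (.v .s * .v (.cU γ)) (Imp.g h1)
  simp only [nm_v, nm_F, nm_R, nm_one, nm_mul] at this
  refine this ?_
  simp only [imp_iff, mul_Z, top_Z, Ex.Z, ZF, Z, val0, role0, role1, role2, ev_one]
  grind

theorem f_c_gX2 (h : Comb t e A) (he : 0 ≤ e) (γ : Col) :
    (unif h.ne).D (vn (vl A) (.cU γ)) (vn (vl A) (.cX γ) * vn (vl A) .s) ≤ 6 * e := by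
  have := fun h1 => d0 h he (unif h.ne) (.v (.cU γ))
    (.v (.cX γ) * .v .s) (Imp.g h1)
  simp only [nm_v, nm_F, nm_R, nm_one, nm_mul] at this
  refine this ?_
  simp only [imp_iff, mul_Z, top_Z, Ex.Z, ZF, Z, val0, role0, role1, role2, ev_one]
  grind

theorem f_c_r1 (h : Comb t e A) (he : 0 ≤ e) (g : G0) (γ γ' : Col) (hr : RuleC g γ γ') :
    (unif h.ne).D (vn (vl A) (.cX γ)) (vn (vl A) (.al g) * vn (vl A) (.cY γ')) ≤ 6 * e := by
  have := d0 h he (unif h.ne) (.v (.cX γ)) (.v (.al g) * .v (.cY γ')) (cr1 hr)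
  simp only [nm_v, nm_F, nm_R, nm_one, nm_mul] at this
  exact this

theorem f_c_r2 (h : Comb t e A) (he : 0 ≤ e) (g : G0) (γ γ' : Col) (hr : RuleC g γ γ') :
    (unif h.ne).D (vn (vl A) (.cY γ')) (vn (vl A) (.al g) * vn (vl A) (.cX γ)) ≤ 6 * e := by
  have := d0 h he (unif h.ne) (.v (.cY γ')) (.v (.al g) * .v (.cX γ)) (cr2 hr)
  simp only [nm_v, nm_F, nm_R, nm_one, nm_mul] at this
  exact this

theorem f_c_cov (h : Comb t e A) (he : 0 ≤ e) (p : Fin 6) :
    (unif h.ne).D (det (fR (vl A) 0))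
    (vn (vl A) (.cX (p, false)) * vn (vl A) (.cX (p, true)) * det (fF (vl A))) ≤ 6 * e := by
  have := d0 h he (unif h.ne) (.R 0) (.v (.cX (p, false)) * .v (.cX (p, true)) * .F) (ccov p).g
  simp only [nm_v, nm_F, nm_R, nm_one, nm_mul] at this
  exact this

theorem facts (h : Comb t e A) (he : 0 ≤ e) : Facts (unif h.ne) (vl A) t (6 * e) where
  e_nonneg := by linarith
  iXs := f_iXs h
  iFs := f_iFs h
  fl_a := f_fl_a h
  fl_b := f_fl_b h
  fl_l := f_fl_l h
  fl_d := f_fl_d h he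
  fl_p := f_fl_p h
  fl_q := f_fl_q h
  sh_l := f_sh_l h
  sh_d := f_sh_d h he
  sh_p := f_sh_p h
  sh_q := f_sh_q h
  r_d2 := f_r_d2 h he
  r_d3 := f_r_d3 h he
  r_d1 := f_r_d1 h he
  r_i := f_r_i h
  z_a := f_z_a h
  z_l := f_z_l h
  z_ds := f_z_ds h he
  z_dr := f_z_dr h he
  z_i1 := f_z_i1 h
  z_i2 := f_z_i2 h
  net_x := f_net_x h he
  net_y := f_net_y h he
  c_lX := f_c_lX h he
  c_gX1 := f_c_gX1 h he
  c_gX2 := f_c_gX2 h he
  c_r1 := f_c_r1 h he
  c_r2 := f_c_r2 h he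
  c_cov := f_c_cov h he
  net_i := neti h
  net_d := netd h he _
  top_lo := toplo h he
  top_hi := tophi h he _
  c_1 p := by
    obtain ⟨κ, h1, h2, -⟩ := h.col
    linarith [jc1 (unif h.ne) _ (h1 (p, false) (p, false)),
      jc1 (unif h.ne) _ (h1 (p, true) (p, true)), h2 p]
  c_2 γ q := by
    obtain ⟨κ, h1, -, h2⟩ := h.col
    linarith [jc2 (unif h.ne) _ _ (h1 γ (q, false)), jc2 (unif h.ne) _ _ (h1 γ (q, true)),
      jc1 (unif h.ne) _ (h1 (γ.1, !γ.2) (γ.1, !γ.2)), h2 γ q]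
  supp := supp' h he

end Fin

end GenF

theorem facts_of_comb {t e : ℝ} {A : Finset (Var → List Bool)} (h : Comb t e A) (he : 0 ≤ e) :
    ∃ P : PS A, Facts P (fun v ω => ω.1 v) t (6 * e) :=
  ⟨_, GenF.facts h he⟩

end Pool.Agent.Lib.MP_a7c6c3_lc
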