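import Pool.Agent.Lib.MP_a7c6c3_lc.KDefs
import Pool.Agent.Shared.Oracle.FunProp

/-! Module `KBase`: basic facts on plain complexity. -/

set_option autoImplicit false
set_option linter.unusedSectionVars false

namespace Pool.Agent.Lib.MP_a7c6c3_lc

open Encodable Nat.Partrec Pool.Agent.Shared.Oracle

namespace KB

/-- Length of the leading block of ones. -/
def hd (p : List Bool) : ℕ := p.findIdx fun b => !b

/-- The part after the leading block of ones and the separating zero. -/
def tl (p : List Bool) : List Bool := p.drop (hd p + 1)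

/-- Self-delimiting header. -/
def mk (e : ℕ) (q : List Bool) : List Bool := List.replicate e true ++ false :: q

lemma hd_primrec : Primrec hd :=
  Primrec.list_findIdx Primrec.id (Primrec.not.comp Primrec.snd).to₂

lemma tl_primrec : Primrec tl :=
  Primrec.list_drop.comp (Primrec.succ.comp hd_primrec) Primrec.id

lemma hd_mk (e : ℕ) (q : List Bool) : hd (mk e q) = e := by
  unfold hd mk
  induction e with
  | zero => simp [List.findIdx_cons]
  | succ n ih => simp [List.replicate_succ, List.findIdx_cons, ih]

lemma tl_mk (e : ℕ) (q : List Bool) : tl (mk e q) = q := by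
  unfold tl
  rw [hd_mk]
  unfold mk
  induction e with
  | zero => simp
  | succ n ih => simpa [List.replicate_succ] using ih

lemma length_mk (e : ℕ) (q : List Bool) : (mk e q).length = q.length + (e + 1) := by
  simp [mk]; ring

/-- A computable injection has a left inverse that is computable where it is defined. -/
lemma exists_inv {β γ : Type} [Primcodable β] [Primcodable γ] (e : β → γ) (he : Computable e)
    (hi : Function.Injective e) : ∃ ψ : γ →. β, Partrec ψ ∧ ∀ b, b ∈ ψ (e b) := by
  classical
  let f : γ → ℕ → Option β := fun c n =>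
    (decode (α := β) n).bind fun b => if e b = c then some b else none
  have hf : Computable₂ f := by
    refine Computable.option_bind (Computable.decode.comp Computable.snd) ?_
    have : Computable fun p : (γ × ℕ) × β => if e p.2 = p.1.1 then some p.2 else none := by
      fun_prop
    exact this
  refine ⟨fun c => Nat.rfindOpt (f c), Partrec.rfindOpt hf, fun b => ?_⟩
  have hdom : (Nat.rfindOpt (f (e b))).Dom := by
    rw [Nat.rfindOpt_dom]
    exact ⟨encode b, b, by simp [f]⟩
  obtain ⟨b', hb'⟩ := Part.dom_iff_mem.1 hdom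
  obtain ⟨n, hn⟩ := Nat.rfindOpt_spec hb'
  have h1 : e b' = e b := by
    simp only [f, Option.mem_def, Option.bind_eq_some_iff] at hn
    obtain ⟨b'', -, h2⟩ := hn
    by_cases h3 : e b'' = e b
    · rw [if_pos h3] at h2
      cases h2
      exact h3
    · rw [if_neg h3] at h2
      cases h2
  rw [← hi h1]
  rw [← hi h1] at hb'
  exact hb'

/-- Self-delimiting form of a string. -/
def sd (s : List Bool) : List Bool := s.foldr (fun b r => true :: b :: r) [false]

lemma sd_length (s : List Bool) : (sd s).length = 2 * s.length + 1 := by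
  induction s with
  | nil => rfl
  | cons b s ih =>
    have : sd (b :: s) = true :: b :: sd s := rfl
    rw [this]
    simp [ih]; ring

lemma sd_inj : ∀ (s s' r r' : List Bool), sd s ++ r = sd s' ++ r' → s = s' ∧ r = r'
  | [], [], r, r', h => by simpa [sd] using h
  | [], b :: s', r, r', h => by simp [sd] at h
  | b :: s, [], r, r', h => by simp [sd] at h
  | b :: s, b' :: s', r, r', h => by
    have e1 : sd (b :: s) = true :: b :: sd s := rfl
    have e2 : sd (b' :: s') = true :: b' :: sd s' := rfl
    rw [e1, e2] at h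
    simp only [List.cons_append, List.cons.injEq, true_and] at h
    obtain ⟨h1, h2⟩ := sd_inj s s' r r' h.2
    exact ⟨by rw [h.1, h1], h2⟩

lemma sd_comp : Computable sd := by
  unfold sd
  fun_prop

/-- Self-delimiting form of a list of strings. -/
def sdl (x : List (List Bool)) : List Bool := x.foldr (fun s r => true :: (sd s ++ r)) [false]

lemma sdl_length (x : List (List Bool)) (n : ℕ) (h : ∀ s ∈ x, s.length ≤ n) :
    (sdl x).length ≤ 2 * x.length * (n + 1) + 1 := by
  induction x with
  | nil => simp [sdl]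
  | cons s x ih =>
    have e1 : sdl (s :: x) = true :: (sd s ++ sdl x) := rfl
    have h1 := ih fun t ht => h t (List.mem_cons_of_mem _ ht)
    have h2 := h s List.mem_cons_self
    rw [e1]
    simp only [List.length_cons, List.length_append, sd_length]
    nlinarith

lemma sdl_inj : ∀ (x x' : List (List Bool)) (r r' : List Bool),
    sdl x ++ r = sdl x' ++ r' → x = x' ∧ r = r'
  | [], [], r, r', h => by simpa [sdl] using h
  | [], b :: s', r, r', h => by simp [sdl] at h
  | b :: s, [], r, r', h => by simp [sdl] at h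
  | s :: x, s' :: x', r, r', h => by
    have e1 : sdl (s :: x) = true :: (sd s ++ sdl x) := rfl
    have e2 : sdl (s' :: x') = true :: (sd s' ++ sdl x') := rfl
    rw [e1, e2] at h
    simp only [List.cons_append, List.cons.injEq, true_and, List.append_assoc] at h
    obtain ⟨h1, h2⟩ := sd_inj _ _ _ _ h
    obtain ⟨h3, h4⟩ := sdl_inj x x' r r' h2
    exact ⟨by rw [h1, h3], h4⟩

lemma sdl_comp : Computable sdl := by
  have := sd_comp
  unfold sdl
  fun_prop

/-- The number with the given binary digits. -/
def val (s : List Bool) : ℕ := s.foldr (fun b n => 2 * n + b.toNat) 0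

lemma val_comp : Computable val := by
  unfold val
  fun_prop

/-- The last `M` binary digits. -/
def bitsN : ℕ → ℕ → List Bool
  | 0, _ => []
  | M + 1, n => decide (n % 2 = 1) :: bitsN M (n / 2)

lemma bitsN_length : ∀ M n, (bitsN M n).length = M
  | 0, _ => rfl
  | M + 1, n => by simp [bitsN, bitsN_length M]

lemma val_bitsN : ∀ M n, n < 2 ^ M → val (bitsN M n) = n
  | 0, n, h => by
    have : n = 0 := by simpa using h
    subst this
    rfl
  | M + 1, n, h => by
    have h1 : n / 2 < 2 ^ M := by
      rw [pow_succ] at h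
      omega
    have e : val (bitsN (M + 1) n) = 2 * val (bitsN M (n / 2)) + (decide (n % 2 = 1)).toNat := rfl
    rw [e, val_bitsN M _ h1]
    by_cases h2 : n % 2 = 1
    · simp only [h2, decide_true, Bool.toNat_true]; omega
    · simp only [h2, decide_false, Bool.toNat_false]; omega

/-- A string read as a positive number. -/
def num (s : List Bool) : ℕ := s.foldr (fun b n => 2 * n + b.toNat) 1

lemma num_bounds (s : List Bool) : 1 ≤ num s ∧ num s < 2 ^ (s.length + 1) := by
  induction s with
  | nil => simp [num]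
  | cons b s ih =>
    have e : num (b :: s) = 2 * num s + b.toNat := rfl
    have hb : b.toNat ≤ 1 := Bool.toNat_le b
    rw [e, List.length_cons, pow_succ]
    omega

lemma num_inj : ∀ s s' : List Bool, num s = num s' → s = s'
  | [], [], _ => rfl
  | [], b :: s, h => by
    have e : num (b :: s) = 2 * num s + b.toNat := rfl
    have e0 : num [] = 1 := rfl
    have := (num_bounds s).1
    omega
  | b :: s, [], h => by
    have e : num (b :: s) = 2 * num s + b.toNat := rfl
    have e0 : num [] = 1 := rfl
    have := (num_bounds s).1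
    omega
  | b :: s, b' :: s', h => by
    have e : num (b :: s) = 2 * num s + b.toNat := rfl
    have e' : num (b' :: s') = 2 * num s' + b'.toNat := rfl
    have hb : b.toNat ≤ 1 := Bool.toNat_le b
    have hb' : b'.toNat ≤ 1 := Bool.toNat_le b'
    have h1 : num s = num s' := by omega
    have h2 : b.toNat = b'.toNat := by omega
    rw [num_inj s s' h1]
    cases b <;> cases b' <;> simp_all

section Enum

variable {α β : Type} [Primcodable α] [Primcodable β] [DecidableEq β]

/-- One stage of the enumeration. -/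
def step (g : α × β → ℕ → Bool) (a : α) (n : ℕ) (l : List β) : List β :=
  Option.casesOn (motive := fun _ => List β) (decode (α := β) (Nat.unpair n).1) l fun x =>
    cond (g (a, x) (Nat.unpair n).2 && !decide (x ∈ l)) (l ++ [x]) l

/-- The elements found before stage `n`, without repetitions. -/
def stage (g : α × β → ℕ → Bool) (a : α) (n : ℕ) : List β :=
  Nat.rec (motive := fun _ => List β) [] (fun m l => step g a m l) n

lemma stage_succ (g : α × β → ℕ → Bool) (a : α) (n : ℕ) :
    stage g a (n + 1) = step g a n (stage g a n) := rfl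

lemma step_cases (g : α × β → ℕ → Bool) (a : α) (n : ℕ) (l : List β) :
    step g a n l = l ∨ ∃ x t, g (a, x) t = true ∧ x ∉ l ∧ step g a n l = l ++ [x] := by
  unfold step
  rcases decode (α := β) (Nat.unpair n).1 with - | x
  · exact Or.inl rfl
  · by_cases h : (g (a, x) (Nat.unpair n).2 && !decide (x ∈ l)) = true
    · right
      refine ⟨x, (Nat.unpair n).2, ?_, ?_, ?_⟩
      · simp only [Bool.and_eq_true] at h
        exact h.1
      · simp only [Bool.and_eq_true, Bool.not_eq_true', decide_eq_false_iff_not] at h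
        exact h.2
      · simp only [h, cond_true]
    · left
      have h' : (g (a, x) (Nat.unpair n).2 && !decide (x ∈ l)) = false := by simpa using h
      simp only [h', cond_false]

lemma stage_nodup (g : α × β → ℕ → Bool) (a : α) (n : ℕ) : (stage g a n).Nodup := by
  induction n with
  | zero => exact List.nodup_nil
  | succ n ih =>
    rw [stage_succ]
    rcases step_cases g a n (stage g a n) with h | ⟨x, t, -, hx, h⟩
    · rw [h]; exact ih
    · rw [h]
      exact List.Nodup.append ih (List.nodup_singleton x) (by simpa using hx)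

lemma stage_sound (g : α × β → ℕ → Bool) (a : α) (n : ℕ) :
    ∀ x ∈ stage g a n, ∃ t, g (a, x) t = true := by
  induction n with
  | zero => intro x hx; cases hx
  | succ n ih =>
    rw [stage_succ]
    rcases step_cases g a n (stage g a n) with h | ⟨x, t, hg, -, h⟩
    · rw [h]; exact ih
    · rw [h]
      intro y hy
      rcases List.mem_append.1 hy with hy | hy
      · exact ih y hy
      · rw [List.mem_singleton.1 hy]
        exact ⟨t, hg⟩

lemma stage_mono (g : α × β → ℕ → Bool) (a : α) {m n : ℕ} (h : m ≤ n) :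
    ∃ r, stage g a n = stage g a m ++ r := by
  induction h with
  | refl => exact ⟨[], by simp⟩
  | @step k _ ih =>
    obtain ⟨r, hr⟩ := ih
    rw [stage_succ]
    rcases step_cases g a k (stage g a k) with h | ⟨x, t, -, -, h⟩
    · rw [h]; exact ⟨r, hr⟩
    · rw [h, hr]
      exact ⟨r ++ [x], by simp⟩

lemma stage_complete (g : α × β → ℕ → Bool) (a : α) (x : β) (t : ℕ) (h : g (a, x) t = true) :
    x ∈ stage g a (Nat.pair (encode x) t + 1) := by
  rw [stage_succ]
  unfold step
  simp only [Nat.unpair_pair, encodek, h, Bool.true_and]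
  by_cases hx : x ∈ stage g a (Nat.pair (encode x) t)
  · simp [hx]
  · simp [hx]

lemma stage_comp (g : α × β → ℕ → Bool) (hg : Computable₂ g) : Computable₂ (stage g) := by
  have hg' : Computable fun p : (α × β) × ℕ => g p.1 p.2 := hg
  have h1 : Computable fun r : (α × ℕ) × ℕ × List β => step g r.1.1 r.2.1 r.2.2 := by
    unfold step
    refine Computable.option_casesOn
      (o := fun r : (α × ℕ) × ℕ × List β => decode (α := β) (Nat.unpair r.2.1).1)
      (f := fun r : (α × ℕ) × ℕ × List β => r.2.2)
      (g := fun (r : (α × ℕ) × ℕ × List β) (x : β) =>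
        cond (g (r.1.1, x) (Nat.unpair r.2.1).2 && !decide (x ∈ r.2.2)) (r.2.2 ++ [x]) r.2.2)
      (by fun_prop) (by fun_prop) ?_
    have h2 : Computable fun s : ((α × ℕ) × ℕ × List β) × β =>
        g (s.1.1.1, s.2) (Nat.unpair s.1.2.1).2 :=
      hg'.comp (g := fun s : ((α × ℕ) × ℕ × List β) × β =>
        ((s.1.1.1, s.2), (Nat.unpair s.1.2.1).2)) (by fun_prop)
    have h3 : Computable fun s : ((α × ℕ) × ℕ × List β) × β =>
        cond (g (s.1.1.1, s.2) (Nat.unpair s.1.2.1).2 && !decide (s.2 ∈ s.1.2.2))
          (s.1.2.2 ++ [s.2]) s.1.2.2 :=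
      FP.c_cond (FP.c_and h2 (FP.c_not (by fun_prop))) (by fun_prop) (by fun_prop)
    exact h3
  exact Computable.nat_rec (f := fun p : α × ℕ => p.2) (g := fun _ => ([] : List β))
    (h := fun (p : α × ℕ) (r : ℕ × List β) => step g p.1 r.1 r.2) Computable.snd
    (Computable.const _) h1

end Enum

end KB

open KB

variable {U : List Bool →. List (List Bool)}

theorem exists_opt : ∃ U, Opt U := by
  refine ⟨fun p => (Code.eval (Denumerable.ofNat Code (hd p)) (encode (tl p))).bind fun n =>
    ((decode (α := List (List Bool)) n : Option (List (List Bool))) : Part _), ?_, ?_⟩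
  · refine Partrec.bind (Code.eval_part.comp
      ((Primrec.ofNat Code).comp hd_primrec).to_comp (Primrec.encode.comp tl_primrec).to_comp) ?_
    exact (Computable.ofOption (Computable.decode.comp Computable.snd)).to₂
  · intro φ hφ
    obtain ⟨c, hc⟩ := Code.exists_code.1 hφ
    refine ⟨encode c + 1, fun p x hx => ⟨mk (encode c) p, ?_, (length_mk _ _).le⟩⟩
    simp only [hd_mk, tl_mk, Denumerable.ofNat_encode, Part.mem_bind_iff]
    refine ⟨encode x, ?_, by simp⟩
    rw [hc]
    simpa using hx

theorem cx_spec (hU : Opt U) (x : List (List Bool)) : ∃ q, x ∈ U q ∧ q.length = cx U x := by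
  obtain ⟨c, hc⟩ := hU.2 (fun _ => Part.some x) (Computable.const x).partrec
  obtain ⟨q, hq, -⟩ := hc [] x (Part.mem_some x)
  have hne : {m : ℕ | ∃ q : List Bool, x ∈ U q ∧ q.length = m}.Nonempty := ⟨_, q, hq, rfl⟩
  exact Nat.sInf_mem hne

theorem cx_le_of_mem {q : List Bool} {x : List (List Bool)} (h : x ∈ U q) :
    cx U x ≤ q.length := Nat.sInf_le ⟨q, h, rfl⟩

/-- Counting: fewer than `2 ^ (m + 1)` objects have complexity at most `m`. -/
theorem card_cx_le (hU : Opt U) (m : ℕ) (s : Finset (List (List Bool)))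
    (h : ∀ x ∈ s, cx U x ≤ m) : s.card < 2 ^ (m + 1) := by
  choose q hq hl using cx_spec hU
  have h1 : s.card ≤ (Finset.Ico 1 (2 ^ (m + 1))).card := by
    refine Finset.card_le_card_of_injOn (fun x => num (q x)) (fun x hx => ?_) ?_
    · have h2 := num_bounds (q x)
      have h3 : 2 ^ ((q x).length + 1) ≤ 2 ^ (m + 1) :=
        Nat.pow_le_pow_right (by norm_num) (by have := h x hx; rw [hl]; omega)
      simp only [Finset.coe_Ico, Set.mem_Ico]
      omega
    · intro x _ y _ e
      have h2 := num_inj _ _ e
      have h3 := hq x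
      rw [h2] at h3
      exact Part.mem_unique h3 (hq y)
  have h2 : 0 < 2 ^ (m + 1) := Nat.two_pow_pos _
  rw [Nat.card_Ico] at h1
  omega

theorem re_cx_le (hU : Opt U) : REPred fun p : List (List Bool) × ℕ => cx U p.1 ≤ p.2 := by
  have h1 : REPred fun r : (List (List Bool) × ℕ) × List Bool => r.1.1 ∈ U r.2 :=
    re_comp (p := fun p : List Bool × List (List Bool) => p.2 ∈ U p.1)
      (f := fun r : (List (List Bool) × ℕ) × List Bool => (r.2, r.1.1)) (re_mem hU.1)
      (by fun_prop)
  have h2 : REPred fun r : (List (List Bool) × ℕ) × List Bool => r.2.length ≤ r.1.2 :=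
    re_of_prim (Primrec.nat_le.comp (Primrec.list_length.comp Primrec.snd)
      (Primrec.snd.comp Primrec.fst))
  refine (re_exists (R := fun (p : List (List Bool) × ℕ) (q : List Bool) =>
    p.1 ∈ U q ∧ q.length ≤ p.2) (re_and h1 h2)).of_eq fun p => ?_
  constructor
  · rintro ⟨q, hq, hl⟩
    exact (cx_le_of_mem hq).trans hl
  · intro h
    obtain ⟨q, hq, hl⟩ := cx_spec hU p.1
    exact ⟨q, hq, hl ▸ h⟩

theorem cx_single (hU : Opt U) : ∃ c : ℕ, ∀ s : List Bool, cx U [s] ≤ s.length + c := by
  have h1 : Computable fun p : List Bool => [p] := by fun_prop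
  obtain ⟨c, hc⟩ := hU.2 (fun p => Part.some [p]) h1.partrec
  refine ⟨c, fun s => ?_⟩
  obtain ⟨q, hq, hl⟩ := hc s [s] (Part.mem_some _)
  exact (cx_le_of_mem hq).trans hl

theorem cx_list (hU : Opt U) : ∃ c : ℕ, ∀ (x : List (List Bool)) (n : ℕ),
    (∀ s ∈ x, s.length ≤ n) → cx U x ≤ 2 * x.length * (n + 1) + c := by
  obtain ⟨ψ, hψ, hm⟩ := exists_inv sdl sdl_comp fun x x' h =>
    (sdl_inj x x' [] [] (by rw [h])).1
  obtain ⟨c, hc⟩ := hU.2 ψ hψ
  refine ⟨c + 1, fun x n h => ?_⟩
  obtain ⟨q, hq, hl⟩ := hc _ x (hm x)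
  have h1 := cx_le_of_mem hq
  have h2 := sdl_length x n h
  omega

/-- The general upper bound: `x` is computed from `y`, at most `r` parameters and an index. -/
theorem cx_le (hU : Opt U) (Ψ : List ℕ × List (List Bool) × ℕ →. List (List Bool))
    (hΨ : Partrec Ψ) (r : ℕ) : ∃ c : ℕ, ∀ (ps : List ℕ) (y x : List (List Bool)) (i M B : ℕ),
      ps.length ≤ r → (∀ n ∈ ps, n ≤ B) → cx U y ≤ B → i < 2 ^ M → x ∈ Ψ (ps, y, i) →
      cx U x ≤ cx U y + M + c * (Nat.size B + 1) := by
  have hsd := sdl_comp
  have hv := val_comp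
  obtain ⟨ψ, hψ, hm⟩ := exists_inv (fun p : List (List Bool) × List Bool => sdl p.1 ++ p.2)
    (by fun_prop) fun p p' h => Prod.ext (sdl_inj _ _ _ _ h).1 (sdl_inj _ _ _ _ h).2
  let φ : List Bool →. List (List Bool) := fun p => (ψ p).bind fun z =>
    (U (z.2.take (val (z.1.headD [])))).bind fun y =>
      Ψ (z.1.tail.map val, y, val (z.2.drop (val (z.1.headD []))))
  have hφ : Partrec φ := by
    refine Partrec.bind hψ ?_
    have h1 : Partrec fun w : List Bool × List (List Bool) × List Bool =>
        U (w.2.2.take (val (w.2.1.headD []))) := hU.1.comp (by fun_prop)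
    have h2 : Partrec fun v : (List Bool × List (List Bool) × List Bool) × List (List Bool) =>
        Ψ (v.1.2.1.tail.map val, v.2, val (v.1.2.2.drop (val (v.1.2.1.headD [])))) :=
      hΨ.comp (by fun_prop)
    exact Partrec.bind h1 h2
  obtain ⟨c, hc⟩ := hU.2 φ hφ
  refine ⟨2 * (r + 1) + 1 + c, fun ps y x i M B hr hps hy hi hx => ?_⟩
  obtain ⟨q, hq, hl⟩ := cx_spec hU y
  have hB : ∀ n ≤ B, n < 2 ^ Nat.size B := fun n hn => hn.trans_lt (Nat.lt_size_self B)
  let z : List (List Bool) × List Bool :=
    (bitsN (Nat.size B) q.length :: ps.map (bitsN (Nat.size B)), q ++ bitsN M i)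
  have e1 : val (z.1.headD []) = q.length := val_bitsN _ _ (hB _ (hl ▸ hy))
  have e2 : z.1.tail.map val = ps := by
    show (ps.map (bitsN (Nat.size B))).map val = ps
    rw [List.map_map]
    conv_rhs => rw [← List.map_id ps]
    exact List.map_congr_left fun n hn => val_bitsN _ _ (hB _ (hps n hn))
  have hxφ : x ∈ φ (sdl z.1 ++ z.2) := by
    refine Part.mem_bind_iff.2 ⟨z, hm z, Part.mem_bind_iff.2 ⟨y, ?_, ?_⟩⟩
    · rw [e1]
      simpa [z] using hq
    · rw [e1, e2]
      have e3 : z.2.drop q.length = bitsN M i := by simp [z]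
      rw [e3, val_bitsN _ _ hi]
      exact hx
  obtain ⟨q', hq', hl'⟩ := hc _ x hxφ
  have h1 := cx_le_of_mem hq'
  have h2 := sdl_length z.1 (Nat.size B) (by
    intro s hs
    rcases List.mem_cons.1 hs with rfl | hs
    · exact (bitsN_length _ _).le
    · obtain ⟨n, -, rfl⟩ := List.mem_map.1 hs
      exact (bitsN_length _ _).le)
  have h3 : z.1.length = ps.length + 1 := by simp [z]
  have h4 : z.2.length = cx U y + M := by simp [z, bitsN_length, hl]
  rw [List.length_append, h4] at hl'
  rw [h3] at h2
  have h5 : 2 * (ps.length + 1) * (Nat.size B + 1) ≤ 2 * (r + 1) * (Nat.size B + 1) :=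
    Nat.mul_le_mul_right _ (by omega)
  nlinarith [Nat.zero_le ((1 + c) * Nat.size B)]

/-- Enumeration of the sections of an r.e. relation without repetitions. -/
theorem enum {α β : Type} [Primcodable α] [Primcodable β] (R : α → β → Prop)
    (hR : REPred fun p : α × β => R p.1 p.2) : ∃ V : α × ℕ →. β, Partrec V ∧
      (∀ a i x, x ∈ V (a, i) → R a x) ∧
      (∀ a x, R a x → ∃ x', x' ∈ V (a, 0)) ∧
      ∀ a x (s : Finset β), R a x → (∀ x', R a x' → x' ∈ s) → ∃ i < s.card, x ∈ V (a, i) := by
  classical
  obtain ⟨q, hq, e⟩ := re_normal hR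
  let g : α × β → ℕ → Bool := fun p t => decide (q p t)
  have hg : Computable₂ g := hq.decide.to_comp
  have eg : ∀ a x, R a x ↔ ∃ t, g (a, x) t = true := fun a x => by
    simpa [g] using e (a, x)
  have hst : Computable fun p : α × ℕ => stage g p.1 p.2 := stage_comp g hg
  have hmem : ∀ (a : α) (i : ℕ) (x : β), x ∈ Nat.rfindOpt (fun n => (stage g a n)[i]?) ↔
      ∃ n, (stage g a n)[i]? = some x := by
    intro a i x
    refine Nat.rfindOpt_mono ?_
    intro y m n hmn hy
    obtain ⟨r, hr⟩ := stage_mono g a hmn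
    rw [Option.mem_def] at hy ⊢
    obtain ⟨hlt, -⟩ := List.getElem?_eq_some_iff.1 hy
    rw [hr, List.getElem?_append_left hlt, hy]
  refine ⟨fun p => Nat.rfindOpt fun n => (stage g p.1 n)[p.2]?, ?_, ?_, ?_, ?_⟩
  · refine Partrec.rfindOpt ?_
    have h1 : Computable fun w : (α × ℕ) × ℕ => stage g w.1.1 w.2 :=
      hst.comp (g := fun w : (α × ℕ) × ℕ => (w.1.1, w.2)) (by fun_prop)
    exact FP.c_getElem? h1 (Computable.snd.comp Computable.fst)
  · intro a i x hx
    obtain ⟨n, hn⟩ := (hmem a i x).1 hx
    exact (eg a x).2 (stage_sound g a n x (List.mem_of_getElem? hn))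
  · intro a x hx
    obtain ⟨t, ht⟩ := (eg a x).1 hx
    have h1 := List.length_pos_of_mem (stage_complete g a x t ht)
    exact ⟨_, (hmem a 0 _).2 ⟨_, List.getElem?_eq_getElem h1⟩⟩
  · intro a x s hx hs
    obtain ⟨t, ht⟩ := (eg a x).1 hx
    obtain ⟨i, hi, hxi⟩ := List.getElem_of_mem (stage_complete g a x t ht)
    refine ⟨i, hi.trans_le ?_, (hmem a i x).2 ⟨_, by rw [List.getElem?_eq_getElem hi, hxi]⟩⟩
    rw [← List.toFinset_card_of_nodup (stage_nodup g a _)]
    exact Finset.card_le_card fun y hy =>
      hs y ((eg a y).2 (stage_sound g a _ y (List.mem_toFinset.1 hy)))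

theorem re_forall_mem {α β : Type} [Primcodable α] [Primcodable β] {R : α → β → Prop}
    (hR : REPred fun p : α × β => R p.1 p.2) {f : α → List β} (hf : Computable f) :
    REPred fun a => ∀ b ∈ f a, R a b := by
  classical
  obtain ⟨q, hq, e⟩ := re_normal hR
  let g : α × β → ℕ → Bool := fun p t => decide (q p t)
  have hg : Computable fun w : (α × β) × ℕ => g w.1 w.2 := hq.decide.to_comp
  have eg : ∀ a x, R a x ↔ ∃ t, g (a, x) t = true := fun a x => by
    simpa [g] using e (a, x)
  have h1 : Computable fun w : ((α × ℕ) × β) × ℕ => !g (w.1.1.1, w.1.2) w.2 :=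
    FP.c_not (hg.comp (g := fun w : ((α × ℕ) × β) × ℕ => ((w.1.1.1, w.1.2), w.2)) (by fun_prop))
  have h2 : Computable fun v : (α × ℕ) × β =>
      !(List.range v.1.2).all fun t => !g (v.1.1, v.2) t :=
    FP.c_not (FP.c_all (l := fun v : (α × ℕ) × β => List.range v.1.2)
      (p := fun (v : (α × ℕ) × β) (t : ℕ) => !g (v.1.1, v.2) t) (by fun_prop) h1)
  have h3 : Computable fun u : α × ℕ =>
      (f u.1).all fun b => !(List.range u.2).all fun t => !g (u.1, b) t :=
    FP.c_all (l := fun u : α × ℕ => f u.1)
      (p := fun (u : α × ℕ) (b : β) => !(List.range u.2).all fun t => !g (u.1, b) t)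
      (hf.comp Computable.fst) h2
  have h4 : REPred fun u : α × ℕ =>
      ((f u.1).all fun b => !(List.range u.2).all fun t => !g (u.1, b) t) = true := by
    refine ComputablePred.to_re ?_
    exact ComputablePred.computable_iff.2 ⟨_, h3, rfl⟩
  refine (re_exists (R := fun (a : α) (T : ℕ) =>
    ((f a).all fun b => !(List.range T).all fun t => !g (a, b) t) = true) h4).of_eq fun a => ?_
  have key : ∀ T, (((f a).all fun b => !(List.range T).all fun t => !g (a, b) t) = true) ↔
      ∀ b ∈ f a, ∃ t < T, g (a, b) t = true := by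
    intro T
    simp
  simp only [key]
  constructor
  · rintro ⟨T, hT⟩ b hb
    obtain ⟨t, -, ht⟩ := hT b hb
    exact (eg a b).2 ⟨t, ht⟩
  · intro h
    have h5 : ∀ l : List β, (∀ b ∈ l, R a b) → ∃ T, ∀ b ∈ l, ∃ t < T, g (a, b) t = true := by
      intro l
      induction l with
      | nil => exact fun _ => ⟨0, by simp⟩
      | cons b l ih =>
        intro hl
        obtain ⟨T, hT⟩ := ih fun c hc => hl c (List.mem_cons_of_mem _ hc)
        obtain ⟨t, ht⟩ := (eg a b).1 (hl b List.mem_cons_self)
        refine ⟨max T (t + 1), fun c hc => ?_⟩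
        rcases List.mem_cons.1 hc with rfl | hc
        · exact ⟨t, by omega, ht⟩
        · obtain ⟨u, hu, hu'⟩ := hT c hc
          exact ⟨u, by omega, hu'⟩
    exact h5 _ h

end Pool.Agent.Lib.MP_a7c6c3_lc
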