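import Pool.Agent.Lib.MP_a7c6c3_lc.Defs

/-! Kolmogorov complexity: definitions. -/

set_option autoImplicit false
open Finset

namespace Pool.Agent.Lib.MP_a7c6c3_lc

/-- Optimal machines. -/
def Opt (U : List Bool →. List (List Bool)) : Prop :=
  Partrec U ∧ ∀ φ : List Bool →. List (List Bool), Partrec φ →
    ∃ c : ℕ, ∀ (p : List Bool) (x : List (List Bool)), x ∈ φ p →
      ∃ q : List Bool, x ∈ U q ∧ q.length ≤ p.length + c

/-- Plain complexity. -/
noncomputable def cx (U : List Bool →. List (List Bool)) (x : List (List Bool)) : ℕ :=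
  sInf {m : ℕ | ∃ q : List Bool, x ∈ U q ∧ q.length = m}

/-- The sub-tuple with indices in `S`. -/
def sub {k : ℕ} (S : Finset (Fin k)) (a : Fin k → List Bool) : List (List Bool) :=
  ((List.finRange k).filter fun i => decide (i ∈ S)).map a

/-- The halving property for `U` and `k`. -/
def HalvU (U : List Bool →. List (List Bool)) (k : ℕ) : Prop :=
  ∃ c : ℝ, ∀ n : ℕ, ∀ a : Fin k → List Bool, (∀ i, (a i).length ≤ n) →
    ∃ a' : Fin k → List Bool, ∀ S : Finset (Fin k), S.Nonempty →
      |(cx U (sub S a') : ℝ) - (cx U (sub S a) : ℝ) / 2| ≤ c * Real.log ((n : ℝ) + 2)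

/-- The statement of the problem. -/
def Halving : Prop := ∀ (k : ℕ) (U : List Bool →. List (List Bool)), Opt U → HalvU U k

/-- The value of variable `v` of a sparse linear table at the input `w`. -/
def tval {V X I : Type} (tab : V → X → Fin 3 → Option I) (w : I → ZMod 2) (v : V) (x : X) :
    ZMod 2 := ∑ j, (tab v x j).elim 0 w

end Pool.Agent.Lib.MP_a7c6c3_lc
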