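import Pool.Agent.Lib.MP_a7c6c3_lc.KBase

/-! Module `KFib`: the fibre lemma (Kolmogorov–Levin) and the iteration of halving. -/

set_option autoImplicit false

namespace Pool.Agent.Lib.MP_a7c6c3_lc

open Pool.Agent.Shared.Oracle

variable {U : List Bool →. List (List Bool)}

theorem kf_size_lin (K B : ℕ) :
    Nat.size (K * (B + 1)) + 1 ≤ (Nat.size K + 1) * (Nat.size B + 1) := by
  have h1 : K < 2 ^ Nat.size K := Nat.lt_size_self K
  have h2 : B + 1 ≤ 2 ^ Nat.size B := Nat.lt_size_self B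
  have h3 : Nat.size (K * (B + 1)) ≤ Nat.size K + Nat.size B := by
    rw [Nat.size_le, pow_add]
    calc K * (B + 1) ≤ K * 2 ^ Nat.size B := Nat.mul_le_mul_left _ h2
      _ < 2 ^ Nat.size K * 2 ^ Nat.size B := Nat.mul_lt_mul_of_pos_right h1 (by positivity)
  nlinarith [Nat.zero_le (Nat.size K * Nat.size B)]

/-- Upper bound for a member of a small section of an r.e. relation. -/
theorem kf_cx_rel (hU : Opt U) (R : List ℕ × List (List Bool) → List (List Bool) → Prop)
    (hR : REPred fun p : (List ℕ × List (List Bool)) × List (List Bool) => R p.1 p.2) (r K : ℕ) :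
    ∃ c : ℕ, ∀ (ps : List ℕ) (y x : List (List Bool)) (s : Finset (List (List Bool))) (M B : ℕ),
      ps.length ≤ r → (∀ n ∈ ps, n ≤ K * (B + 1)) → cx U y ≤ K * (B + 1) → R (ps, y) x →
      (∀ x', R (ps, y) x' → x' ∈ s) → s.card ≤ 2 ^ M →
      cx U x ≤ cx U y + M + c * (Nat.size B + 1) := by
  obtain ⟨V, hV, -, -, hV3⟩ := enum R hR
  have hΨ : Partrec fun p : List ℕ × List (List Bool) × ℕ => V ((p.1, p.2.1), p.2.2) :=
    hV.comp (by fun_prop)
  obtain ⟨c, hc⟩ := cx_le hU _ hΨ r
  refine ⟨c * (Nat.size K + 1), fun ps y x s M B h1 h2 h3 h4 h5 h6 => ?_⟩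
  obtain ⟨i, hi, hx⟩ := hV3 (ps, y) x s h4 h5
  have h7 := hc ps y x i M (K * (B + 1)) h1 h2 h3 (hi.trans_le h6) hx
  have h8 := Nat.mul_le_mul_left c (kf_size_lin K B)
  rw [mul_assoc]
  omega

/-- A computable test for lists without repetition. -/
def kfNodup (L : List (List (List Bool))) : Bool :=
  (List.range L.length).all fun i => !decide (L.getD i [] ∈ L.take i)

theorem kfNodup_computable : Computable kfNodup := by
  unfold kfNodup
  fun_prop

theorem kfNodup_iff (L : List (List (List Bool))) : kfNodup L = true ↔ L.Nodup := by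
  unfold kfNodup
  simp only [List.all_eq_true, List.mem_range, Bool.not_eq_true', decide_eq_false_iff_not]
  rw [List.nodup_iff_getElem?_ne_getElem?]
  constructor
  · intro h i j hij hj e
    refine h j hj ?_
    have hi : i < L.length := hij.trans hj
    rw [List.getElem?_eq_getElem hi, List.getElem?_eq_getElem hj, Option.some.injEq] at e
    rw [List.getD_eq_getElem _ _ hj, ← e, List.mem_take_iff_getElem]
    exact ⟨i, by omega, rfl⟩
  · intro h j hj hm
    rw [List.getD_eq_getElem _ _ hj, List.mem_take_iff_getElem] at hm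
    obtain ⟨i, hi, e⟩ := hm
    refine h i j (by omega) hj ?_
    rw [List.getElem?_eq_getElem (by omega), List.getElem?_eq_getElem hj, e]

theorem kf_re_eq {α β : Type} [Primcodable α] [Primcodable β] {f g : α → β} (hf : Computable f)
    (hg : Computable g) : REPred fun a => f a = g a := by
  classical
  exact re_comp (p := fun p : β × β => p.1 = p.2) (re_of_prim Primrec.eq) (hf.pair hg)

theorem kf_re_of_computable {α : Type} [Primcodable α] {f : α → Bool} (hf : Computable f) :
    REPred fun a => f a = true := by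
  have h : ComputablePred fun a => f a = true :=
    ⟨inferInstance, hf.of_eq fun a => by simp⟩
  exact h.to_re

theorem fibre (hU : Opt U) (pr : List (List Bool) → List (List Bool)) (hpr : Computable pr) :
    ∃ c : ℕ, ∀ (y : List (List Bool)) (m B : ℕ) (s : Finset (List (List Bool))), m ≤ B →
      (∀ x ∈ s, pr x = y ∧ cx U x ≤ m) →
      s.card * 2 ^ cx U y ≤ 2 ^ (m + c * (Nat.size B + 1)) := by
  classical
  let R : List ℕ × List (List Bool) → List (List Bool) → Prop := fun p y =>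
    ∃ L : List (List (List Bool)), (kfNodup L && decide (2 ^ p.1.getD 1 0 ≤ L.length)) = true ∧
      ∀ x ∈ L, pr x = y ∧ cx U x ≤ p.1.getD 0 0
  have hR : REPred fun p : (List ℕ × List (List Bool)) × List (List Bool) => R p.1 p.2 := by
    have h1 : Computable fun p : ((List ℕ × List (List Bool)) × List (List Bool)) ×
        List (List (List Bool)) =>
        (kfNodup p.2 && decide (2 ^ p.1.1.1.getD 1 0 ≤ p.2.length)) :=
      FP.c_and (kfNodup_computable.comp Computable.snd)
        (FP.c_decide_le (FP.c_pow (Computable.const 2) (by fun_prop)) (by fun_prop))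
    have h2 : REPred fun p : (((List ℕ × List (List Bool)) × List (List Bool)) ×
        List (List (List Bool))) × List (List Bool) => pr p.2 = p.1.1.2 :=
      kf_re_eq (by fun_prop) (by fun_prop)
    have h3 : Computable fun p : (((List ℕ × List (List Bool)) × List (List Bool)) ×
        List (List (List Bool))) × List (List Bool) => (p.2, p.1.1.1.1.getD 0 0) := by
      fun_prop
    have h4 := re_and h2 (re_comp (re_cx_le hU) h3)
    have h5 := re_forall_mem (R := fun (p : ((List ℕ × List (List Bool)) × List (List Bool)) ×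
      List (List (List Bool))) (x : List (List Bool)) =>
      pr x = p.1.2 ∧ cx U x ≤ p.1.1.1.getD 0 0) h4 Computable.snd
    exact re_exists (R := fun (p : (List ℕ × List (List Bool)) × List (List Bool))
      (L : List (List (List Bool))) =>
        (kfNodup L && decide (2 ^ p.1.1.getD 1 0 ≤ L.length)) = true ∧
          ∀ x ∈ L, pr x = p.2 ∧ cx U x ≤ p.1.1.getD 0 0)
      (re_and (kf_re_of_computable h1) h5)
  obtain ⟨c, hc⟩ := kf_cx_rel hU R hR 2 (cx U [] + 1)
  refine ⟨c + cx U [] + 2, fun y m B s hm hs => ?_⟩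
  rcases s.eq_empty_or_nonempty with rfl | hne
  · simp
  have hpos : s.card ≠ 0 := hne.card_pos.ne'
  set M := Nat.log 2 s.card with hM
  have hM1 : 2 ^ M ≤ s.card := Nat.pow_log_le_self 2 hpos
  have hM2 : s.card < 2 ^ (M + 1) := Nat.lt_pow_succ_log_self (by norm_num) _
  have hM3 : M ≤ m := by
    have := hM1.trans_lt (card_cx_le hU m s fun x hx => (hs x hx).2)
    have := (Nat.pow_lt_pow_iff_right (by norm_num : 1 < 2)).1 this
    omega
  have hRiff : ∀ y', R ([m, M], []) y' ↔ ∃ t : Finset (List (List Bool)), 2 ^ M ≤ t.card ∧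
      ∀ x ∈ t, pr x = y' ∧ cx U x ≤ m := by
    intro y'
    simp only [R, Bool.and_eq_true, decide_eq_true_eq, kfNodup_iff, List.getD_cons_succ,
      List.getD_cons_zero]
    constructor
    · rintro ⟨L, ⟨h1, h2⟩, h3⟩
      exact ⟨L.toFinset, by rwa [List.toFinset_card_of_nodup h1],
        fun x hx => h3 x (List.mem_toFinset.1 hx)⟩
    · rintro ⟨t, h1, h2⟩
      exact ⟨t.toList, ⟨t.nodup_toList, by rwa [Finset.length_toList]⟩,
        fun x hx => h2 x (Finset.mem_toList.1 hx)⟩
  have hcount : ∀ Y : Finset (List (List Bool)), (∀ y' ∈ Y, R ([m, M], []) y') →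
      Y.card ≤ 2 ^ (m + 1 - M) := by
    intro Y hY
    have h1 : ∀ y' : List (List Bool), ∃ t : Finset (List (List Bool)), y' ∈ Y →
        2 ^ M ≤ t.card ∧ ∀ x ∈ t, pr x = y' ∧ cx U x ≤ m := by
      intro y'
      by_cases h : y' ∈ Y
      · obtain ⟨t, ht⟩ := (hRiff y').1 (hY y' h)
        exact ⟨t, fun _ => ht⟩
      · exact ⟨∅, fun h' => absurd h' h⟩
    choose t ht using h1
    have h2 : (Y.biUnion t).card = ∑ y' ∈ Y, (t y').card := by
      refine Finset.card_biUnion fun y1 h1 y2 h2 hne => ?_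
      rw [Function.onFun, Finset.disjoint_left]
      intro x hx1 hx2
      exact hne (((ht y1 h1).2 x hx1).1.symm.trans ((ht y2 h2).2 x hx2).1)
    have h3 : (Y.biUnion t).card < 2 ^ (m + 1) := by
      refine card_cx_le hU m _ fun x hx => ?_
      obtain ⟨y', h1, h2⟩ := Finset.mem_biUnion.1 hx
      exact ((ht y' h1).2 x h2).2
    have h4 : Y.card * 2 ^ M ≤ ∑ y' ∈ Y, (t y').card := by
      have := Finset.card_nsmul_le_sum Y (fun y' => (t y').card) (2 ^ M) fun y' h => (ht y' h).1
      simpa using this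
    have h5 : Y.card * 2 ^ M < 2 ^ (m + 1 - M) * 2 ^ M := by
      rw [← pow_add, Nat.sub_add_cancel (by omega)]
      omega
    exact (Nat.lt_of_mul_lt_mul_right h5).le
  have hfin : {y' | R ([m, M], []) y'}.Finite := by
    by_contra hinf
    obtain ⟨Y, hY1, hY2⟩ := Set.Infinite.exists_subset_card_eq hinf (2 ^ (m + 1 - M) + 1)
    have := hcount Y fun y' h => hY1 h
    omega
  have hB : B ≤ (cx U [] + 1) * (B + 1) := by nlinarith [Nat.zero_le (cx U [] * B)]
  have key := hc [m, M] [] y hfin.toFinset (m + 1 - M) B (by simp)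
    (by
      intro n hn
      simp only [List.mem_cons, List.not_mem_nil, or_false] at hn
      rcases hn with rfl | rfl <;> omega)
    (by nlinarith [Nat.zero_le (cx U [] * B)]) ((hRiff y).2 ⟨s, hM1, hs⟩)
    (fun x' h => hfin.mem_toFinset.2 h) (hcount _ fun y' h => hfin.mem_toFinset.1 h)
  calc s.card * 2 ^ cx U y ≤ 2 ^ (M + 1) * 2 ^ cx U y := Nat.mul_le_mul_right _ hM2.le
    _ = 2 ^ (M + 1 + cx U y) := (pow_add _ _ _).symm
    _ ≤ 2 ^ (m + (c + cx U [] + 2) * (Nat.size B + 1)) := by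
      refine Nat.pow_le_pow_right (by norm_num) ?_
      have e : (c + cx U [] + 2) * (Nat.size B + 1) =
          c * (Nat.size B + 1) + (cx U [] + 2) * Nat.size B + cx U [] + 2 := by ring
      omega

/-- Upper bound for a list computed entry by entry. -/
theorem kf_cx_point (hU : Opt U) (Q : ℕ × List Bool → List Bool → Prop)
    (hQ : REPred fun p : (ℕ × List Bool) × List Bool => Q p.1 p.2)
    (hQu : ∀ p u u', Q p u → Q p u' → u = u') (k K : ℕ) :
    ∃ c : ℕ, ∀ (l : List (Fin k)) (f : Fin k → ℕ) (a b : Fin k → List Bool) (B : ℕ),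
      l.length ≤ k → (∀ i, f i ≤ K * (B + 1)) → cx U (l.map a) ≤ K * (B + 1) →
      (∀ i, Q (f i, a i) (b i)) → cx U (l.map b) ≤ cx U (l.map a) + c * (Nat.size B + 1) := by
  classical
  let R : List ℕ × List (List Bool) → List (List Bool) → Prop := fun p x =>
    x.length = p.2.length ∧
      ∀ j ∈ List.range p.2.length, Q (p.1.getD j 0, p.2.getD j []) (x.getD j [])
  have hR : REPred fun p : (List ℕ × List (List Bool)) × List (List Bool) => R p.1 p.2 := by
    have h1 : REPred fun p : (List ℕ × List (List Bool)) × List (List Bool) =>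
        p.2.length = p.1.2.length := kf_re_eq (by fun_prop) (by fun_prop)
    have h2 : Computable fun p : ((List ℕ × List (List Bool)) × List (List Bool)) × ℕ =>
        ((p.1.1.1.getD p.2 0, p.1.1.2.getD p.2 []), p.1.2.getD p.2 []) := by fun_prop
    have h3 : Computable fun p : (List ℕ × List (List Bool)) × List (List Bool) =>
        List.range p.1.2.length := by fun_prop
    have h4 := re_comp hQ h2
    have h5 := re_forall_mem
      (R := fun (p : (List ℕ × List (List Bool)) × List (List Bool)) (j : ℕ) =>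
        Q (p.1.1.getD j 0, p.1.2.getD j []) (p.2.getD j [])) h4 h3
    exact re_and h1 h5
  obtain ⟨c, hc⟩ := kf_cx_rel hU R hR k K
  refine ⟨c, fun l f a b B hl hf ha hab => ?_⟩
  have hRb : R (l.map f, l.map a) (l.map b) := by
    refine ⟨by simp, fun j hj => ?_⟩
    have hj' : j < l.length := by simpa using hj
    simp only [List.getD_eq_getElem?_getD, List.getElem?_map, List.getElem?_eq_getElem hj',
      Option.map_some, Option.getD_some]
    exact hab _
  have := hc (l.map f) (l.map a) (l.map b) {l.map b} 0 B (by simpa using hl)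
    (by
      intro n hn
      obtain ⟨i, -, rfl⟩ := List.mem_map.1 hn
      exact hf i) ha hRb ?_ (by simp)
  · simpa using this
  · intro x' hx'
    rw [Finset.mem_singleton]
    have h1 : x'.length = (l.map b).length := by simpa using hx'.1
    refine List.ext_getElem h1 fun j hj1 hj2 => ?_
    have hj : j ∈ List.range (l.map a).length := by simpa using hj2
    have := hQu _ _ _ (hx'.2 j hj) (hRb.2 j hj)
    rwa [List.getD_eq_getElem _ _ hj1, List.getD_eq_getElem _ _ hj2] at this

/-- Strings can be replaced by short ones without changing the profile. -/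
theorem shorten (hU : Opt U) (k : ℕ) : ∃ c : ℕ, ∀ (a : Fin k → List Bool) (B : ℕ),
    (∀ i, cx U [a i] ≤ B) → ∃ b : Fin k → List Bool, (∀ i, (b i).length = cx U [a i]) ∧
      ∀ S, cx U (sub S a) ≤ cx U (sub S b) + c * (Nat.size B + 1) ∧
        cx U (sub S b) ≤ cx U (sub S a) + c * (Nat.size B + 1) := by
  classical
  have e1 : Computable fun p : (ℕ × List Bool) × List Bool => (p.2, [p.1.2]) := by fun_prop
  have e2 : REPred fun p : (ℕ × List Bool) × List Bool => p.2.length = p.1.1 :=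
    kf_re_eq (by fun_prop) (by fun_prop)
  have e3 : Computable fun p : (ℕ × List Bool) × List Bool => (p.1.2, [p.2]) := by fun_prop
  have e4 : Computable fun p : (ℕ × List Bool) × List Bool => ((p.1, 0), p.2) := by fun_prop
  have hR0 : REPred fun p : (ℕ × List Bool) × List Bool =>
      [p.1.2] ∈ U p.2 ∧ p.2.length = p.1.1 :=
    re_and (re_comp (re_mem hU.1) e1) e2
  obtain ⟨V, hV, hV1, hV2, -⟩ := enum (fun (p : ℕ × List Bool) (q : List Bool) =>
    [p.2] ∈ U q ∧ q.length = p.1) hR0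
  obtain ⟨c0, hc0⟩ := cx_list hU
  obtain ⟨c1, hc1⟩ := kf_cx_point hU (fun p u => [u] ∈ U p.2)
    (re_comp (re_mem hU.1) e3)
    (fun p u u' h h' => by simpa using Part.mem_unique h h') k (2 * k + c0)
  obtain ⟨c2, hc2⟩ := kf_cx_point hU (fun p q => q ∈ V (p, 0))
    (re_comp (re_mem hV) e4)
    (fun p u u' h h' => Part.mem_unique h h') k (2 * k + c0 + c1 + 1)
  refine ⟨c1 + c2, fun a B hB => ?_⟩
  have hb : ∀ i, ∃ q, q ∈ V ((cx U [a i], a i), 0) := by
    intro i
    obtain ⟨q, hq1, hq2⟩ := cx_spec hU [a i]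
    exact hV2 _ q ⟨hq1, hq2⟩
  choose b hb using hb
  have hb1 : ∀ i, [a i] ∈ U (b i) := fun i => (hV1 _ _ _ (hb i)).1
  have hb2 : ∀ i, (b i).length = cx U [a i] := fun i => (hV1 _ _ _ (hb i)).2
  refine ⟨b, hb2, fun S => ?_⟩
  unfold sub
  set l := (List.finRange k).filter fun i => decide (i ∈ S) with hl
  have hlk : l.length ≤ k := (List.length_filter_le _ _).trans (by simp)
  have h1 : cx U (l.map b) ≤ (2 * k + c0) * (B + 1) := by
    have := hc0 (l.map b) B (by
      intro s hs
      obtain ⟨i, -, rfl⟩ := List.mem_map.1 hs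
      rw [hb2]
      exact hB i)
    rw [List.length_map] at this
    have h2 : 2 * l.length * (B + 1) ≤ 2 * k * (B + 1) := by gcongr
    nlinarith [Nat.zero_le (c0 * B)]
  have h2 := hc1 l (fun _ => 0) b a B hlk (fun _ => Nat.zero_le _) h1 hb1
  have h3 : Nat.size B ≤ B := Nat.size_le.2 Nat.lt_two_pow_self
  have h4 : c1 * (Nat.size B + 1) ≤ c1 * (B + 1) := by gcongr
  have h5 := hc2 l (fun i => cx U [a i]) a b B hlk
    (fun i => (hB i).trans (by nlinarith [Nat.zero_le ((2 * k + c0 + c1) * B)]))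
    (by nlinarith) hb
  rw [add_mul]
  omega

theorem kf_sub_single {k : ℕ} (i : Fin k) (a : Fin k → List Bool) : sub {i} a = [a i] := by
  unfold sub
  have : ((List.finRange k).filter fun j => decide (j ∈ ({i} : Finset (Fin k)))) = [i] := by
    have h1 : ((List.finRange k).filter fun j => decide (j ∈ ({i} : Finset (Fin k)))).Nodup :=
      (List.nodup_finRange k).filter _
    refine List.perm_singleton.1 ((List.perm_ext_iff_of_nodup h1 (List.nodup_singleton i)).2 ?_)
    intro j
    simp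
  rw [this]
  rfl

theorem kf_size_log (n : ℕ) : ((Nat.size n : ℝ) + 1) ≤ 4 * Real.log ((n : ℝ) + 2) := by
  have h1 : 2 ^ (Nat.size n + 1) ≤ (n + 2) ^ 2 := by
    rcases Nat.eq_zero_or_pos n with rfl | hn
    · simp
    · have h2 : 0 < Nat.size n := Nat.size_pos.2 hn
      have h3 : 2 ^ (Nat.size n - 1) ≤ n := Nat.lt_size.1 (by omega)
      have h4 : 2 ^ (Nat.size n + 1) = 2 ^ (Nat.size n - 1) * 4 := by
        rw [show Nat.size n + 1 = Nat.size n - 1 + 2 by omega, pow_add]
        norm_num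
      nlinarith
  have h2 : (2 : ℝ) ^ (Nat.size n + 1) ≤ ((n : ℝ) + 2) ^ 2 := by exact_mod_cast h1
  have h3 := Real.log_le_log (by positivity) h2
  rw [Real.log_pow, Real.log_pow] at h3
  have h4 := Real.log_two_gt_d9
  push_cast at h3
  have h5 : (0 : ℝ) ≤ (Nat.size n : ℝ) + 1 := by positivity
  nlinarith

theorem iterate (hU : Opt U) (k : ℕ) (hH : HalvU U k) : ∃ c : ℝ, 0 ≤ c ∧
    ∀ (n J : ℕ) (a : Fin k → List Bool), (∀ i, (a i).length ≤ n) →
      ∃ b : Fin k → List Bool,
        (∀ i, ((b i).length : ℝ) ≤ n / 2 ^ J + c * Real.log (n / 2 ^ J + 2)) ∧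
        ∀ S : Finset (Fin k), S.Nonempty →
          |(cx U (sub S b) : ℝ) - (cx U (sub S a) : ℝ) / 2 ^ J| ≤
            c * Real.log (n / 2 ^ J + 2) := by
  obtain ⟨c', hc'⟩ := hH
  obtain ⟨c0, hc0⟩ : ∃ c0 : ℕ, c' ≤ c0 := exists_nat_ge c'
  obtain ⟨c1, hc1⟩ := cx_single hU
  obtain ⟨c2, hc2⟩ := shorten hU k
  obtain ⟨K', hK'⟩ : ∃ K' : ℝ, K' = c0 + c2 * ((Nat.size (1 + c1 + c0) : ℝ) + 1) * 4 := ⟨_, rfl⟩
  have hK'0 : (c0 : ℝ) ≤ K' := by
    rw [hK']
    have : (0 : ℝ) ≤ c2 * ((Nat.size (1 + c1 + c0) : ℝ) + 1) * 4 := by positivity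
    linarith
  have hc00 : (0 : ℝ) ≤ c0 := Nat.cast_nonneg _
  have hc10 : (0 : ℝ) ≤ c1 := Nat.cast_nonneg _
  obtain ⟨K, hK⟩ : ∃ K : ℝ, K = 4 * K' + 2 * c1 := ⟨_, rfl⟩
  have hK0 : 0 ≤ K := by linarith
  obtain ⟨d, hd⟩ : ∃ d : ℝ, d = 4 * K + 1 := ⟨_, rfl⟩
  have hd0 : 0 ≤ d := by linarith
  refine ⟨d ^ 2, by positivity, fun n J a ha => ?_⟩
  induction J with
  | zero =>
    have h0 : 0 ≤ d ^ 2 * Real.log ((n : ℝ) / 2 ^ 0 + 2) := by
      have : (0 : ℝ) ≤ (n : ℝ) / 2 ^ 0 := by positivity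
      exact mul_nonneg (by positivity) (Real.log_nonneg (by linarith))
    refine ⟨a, fun i => ?_, fun S _ => ?_⟩
    · have : ((a i).length : ℝ) ≤ n := by exact_mod_cast ha i
      simp only [pow_zero, div_one] at h0 ⊢
      linarith
    · simpa using h0
  | succ J ih =>
    obtain ⟨b, hb1, hb2⟩ := ih
    obtain ⟨x, hx⟩ : ∃ x : ℝ, x = n / 2 ^ J := ⟨_, rfl⟩
    have hx0 : 0 ≤ x := by rw [hx]; positivity
    have hx' : (n : ℝ) / 2 ^ (J + 1) = x / 2 := by rw [hx, pow_succ, div_div]
    rw [← hx] at hb1 hb2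
    rw [hx']
    have hl0 : 0 ≤ Real.log (x + 2) := Real.log_nonneg (by linarith)
    obtain ⟨L, hL⟩ : ∃ L : ℝ, L = Real.log (x / 2 + 2) := ⟨_, rfl⟩
    rw [← hL]
    have hL1 : 1 / 2 ≤ L := by
      have h1 : Real.log 2 ≤ L := hL ▸ Real.log_le_log (by norm_num) (by linarith)
      have := Real.log_two_gt_d9
      linarith
    have hL2 : 2 * Real.log (x + 2) ≤ 3 * L := by
      have h1 : (x + 2) ^ 2 ≤ (x / 2 + 2) ^ 3 := by nlinarith [mul_nonneg hx0 (mul_nonneg hx0 hx0)]
      have h2 := Real.log_le_log (by positivity) h1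
      rw [Real.log_pow, Real.log_pow, ← hL] at h2
      exact_mod_cast h2
    obtain ⟨m, hm⟩ : ∃ m : ℕ, m = ⌊x + d ^ 2 * Real.log (x + 2)⌋₊ := ⟨_, rfl⟩
    have hm1 : (m : ℝ) ≤ x + d ^ 2 * Real.log (x + 2) := hm ▸ Nat.floor_le (by positivity)
    have hm2 : ∀ i, (b i).length ≤ m := fun i => hm ▸ Nat.le_floor (hb1 i)
    have hm0 : (0 : ℝ) ≤ m := Nat.cast_nonneg _
    obtain ⟨Lm, hLm⟩ : ∃ Lm : ℝ, Lm = Real.log ((m : ℝ) + 2) := ⟨_, rfl⟩
    have hLm0 : 0 ≤ Lm := hLm ▸ Real.log_nonneg (by linarith)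
    have hLm1 : Lm ≤ m + 1 := by
      have := Real.log_le_sub_one_of_pos (x := (m : ℝ) + 2) (by positivity)
      linarith
    have hLm2 : Lm ≤ Real.log (x + 2) + 2 * d := by
      have h1 : Real.log (x + 2) ≤ x + 2 := by
        have := Real.log_le_sub_one_of_pos (x := x + 2) (by positivity)
        linarith
      have h2 : (m : ℝ) + 2 ≤ (x + 2) * (1 + d) ^ 2 := by
        have h3 : d ^ 2 * Real.log (x + 2) ≤ d ^ 2 * (x + 2) := by gcongr
        nlinarith [mul_nonneg hx0 hd0]
      have h3 := Real.log_le_log (by positivity) h2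
      rw [Real.log_mul (by positivity) (by positivity), Real.log_pow, ← hLm] at h3
      have h4 := Real.log_le_sub_one_of_pos (x := 1 + d) (by positivity)
      push_cast at h3
      linarith
    have hslack : d ^ 2 * Real.log (x + 2) / 2 + K' * Lm + c1 ≤ d ^ 2 * L := by
      have h1 : Lm ≤ 4 * (1 + d) * L := by nlinarith
      have h2 : K' * Lm ≤ K' * (4 * (1 + d) * L) := mul_le_mul_of_nonneg_left h1 (by linarith)
      have h3 : (c1 : ℝ) ≤ 2 * c1 * ((1 + d) * L) := by
        have : 1 / 2 ≤ (1 + d) * L := by nlinarith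
        nlinarith
      have h4 : 4 * (K * (1 + d)) ≤ d ^ 2 := by nlinarith
      have h5 : 4 * (K * (1 + d)) * L ≤ d ^ 2 * L := by gcongr
      have h6 : d ^ 2 * (2 * Real.log (x + 2)) ≤ d ^ 2 * (3 * L) := by gcongr
      have h7 : K * (1 + d) * L = K' * (4 * (1 + d) * L) + 2 * c1 * ((1 + d) * L) := by
        rw [hK]; ring
      linarith
    obtain ⟨a', ha'⟩ := hc' m b hm2
    have ha'' : ∀ S : Finset (Fin k), S.Nonempty →
        |(cx U (sub S a') : ℝ) - (cx U (sub S b) : ℝ) / 2| ≤ c0 * Lm := fun S hS =>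
      (ha' S hS).trans (hLm ▸ mul_le_mul_of_nonneg_right hc0 (hLm ▸ hLm0))
    have hs : ∀ i, (cx U [a' i] : ℝ) ≤ (((b i).length : ℝ) + c1) / 2 + c0 * Lm := by
      intro i
      have h1 := (abs_le.1 (ha'' {i} (Finset.singleton_nonempty i))).2
      rw [kf_sub_single, kf_sub_single] at h1
      have h2 : (cx U [b i] : ℝ) ≤ ((b i).length : ℝ) + c1 := by exact_mod_cast hc1 (b i)
      linarith
    obtain ⟨b', hb'1, hb'2⟩ := hc2 a' ((1 + c1 + c0) * (m + 1)) (by
      intro i
      have h1 : ((b i).length : ℝ) ≤ m := by exact_mod_cast hm2 i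
      have h2 : (c0 : ℝ) * Lm ≤ c0 * (m + 1) := by gcongr
      have h3 : (cx U [a' i] : ℝ) ≤ (1 + c1 + c0) * ((m : ℝ) + 1) := by
        have := hs i
        nlinarith [mul_nonneg hc10 hm0]
      exact_mod_cast h3)
    have hsz : (c2 : ℝ) * ((Nat.size ((1 + c1 + c0) * (m + 1)) : ℝ) + 1) + c0 * Lm ≤ K' * Lm := by
      have h1 : ((Nat.size ((1 + c1 + c0) * (m + 1)) : ℝ) + 1) ≤
          ((Nat.size (1 + c1 + c0) : ℝ) + 1) * ((Nat.size m : ℝ) + 1) := by
        exact_mod_cast kf_size_lin (1 + c1 + c0) m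
      have h2 := kf_size_log m
      rw [← hLm] at h2
      have h3 : ((Nat.size (1 + c1 + c0) : ℝ) + 1) * ((Nat.size m : ℝ) + 1) ≤
          ((Nat.size (1 + c1 + c0) : ℝ) + 1) * (4 * Lm) := by gcongr
      have h4 : (c2 : ℝ) * ((Nat.size ((1 + c1 + c0) * (m + 1)) : ℝ) + 1) ≤
          c2 * (((Nat.size (1 + c1 + c0) : ℝ) + 1) * (4 * Lm)) := by
        gcongr
        exact h1.trans h3
      rw [hK']
      linarith
    refine ⟨b', fun i => ?_, fun S hS => ?_⟩
    · rw [hb'1]
      have h1 := hs i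
      have h2 := hb1 i
      have h3 : (c0 : ℝ) * Lm ≤ K' * Lm := by gcongr
      linarith
    · have h1 := abs_le.1 (ha'' S hS)
      have h2 := abs_le.1 (hb2 S hS)
      have h3 : (cx U (sub S a') : ℝ) ≤ cx U (sub S b') +
          c2 * ((Nat.size ((1 + c1 + c0) * (m + 1)) : ℝ) + 1) := by exact_mod_cast (hb'2 S).1
      have h4 : (cx U (sub S b') : ℝ) ≤ cx U (sub S a') +
          c2 * ((Nat.size ((1 + c1 + c0) * (m + 1)) : ℝ) + 1) := by exact_mod_cast (hb'2 S).2
      rw [pow_succ, ← div_div, abs_le]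
      constructor <;> linarith [h1.1, h1.2, h2.1, h2.2]

end Pool.Agent.Lib.MP_a7c6c3_lc
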