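import Pool.Agent.Lib.MP_a7c6c3_lc.KBase

/-! Module `KTrue`: the tuple of a sparse linear table together with its description. -/

set_option autoImplicit false
open Finset

namespace Pool.Agent.Lib.MP_a7c6c3_lc

namespace KTrue

open Pool.Agent.Shared.Oracle

/-- The number written in block `e` of width `W` of the string `z`. -/
def num (z : List Bool) (W e : ℕ) : ℕ :=
  ((List.range W).map fun b => (z.getD (e * W + b) false).toNat * 2 ^ b).sum

/-- The input bit addressed by block `e`. -/
def bitv (ω z : List Bool) (W e : ℕ) : ℕ := (ω.getD (num z W e) false).toNat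

/-- The string of values of variable `v`. -/
def rowv (ω z : List Bool) (M W v : ℕ) : List Bool :=
  (List.range M).map fun x => decide ((bitv ω z W ((v * M + x) * 3) +
    bitv ω z W ((v * M + x) * 3 + 1) + bitv ω z W ((v * M + x) * 3 + 2)) % 2 = 1)

/-- Entry `i` of the tuple. -/
def ent (ω z : List Bool) (M W i : ℕ) : List Bool :=
  if i = 0 then z else rowv ω z M W (i - 1)

section Comp

variable {α : Type} [Primcodable α]

@[fun_prop] theorem c_num {z : α → List Bool} {W e : α → ℕ} (hz : Computable z)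
    (hW : Computable W) (he : Computable e) : Computable fun a => num (z a) (W a) (e a) := by
  unfold num
  fun_prop

@[fun_prop] theorem c_bitv {ω z : α → List Bool} {W e : α → ℕ} (hω : Computable ω)
    (hz : Computable z) (hW : Computable W) (he : Computable e) :
    Computable fun a => bitv (ω a) (z a) (W a) (e a) := by
  unfold bitv
  fun_prop

@[fun_prop] theorem c_rowv {ω z : α → List Bool} {M W v : α → ℕ} (hω : Computable ω)
    (hz : Computable z) (hM : Computable M) (hW : Computable W) (hv : Computable v) :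
    Computable fun a => rowv (ω a) (z a) (M a) (W a) (v a) := by
  unfold rowv
  fun_prop

@[fun_prop] theorem c_ent {ω z : α → List Bool} {M W i : α → ℕ} (hω : Computable ω)
    (hz : Computable z) (hM : Computable M) (hW : Computable W) (hi : Computable i) :
    Computable fun a => ent (ω a) (z a) (M a) (W a) (i a) := by
  unfold ent
  fun_prop

end Comp

/-- The relation enumerated by the decoder. -/
def Rel (PS PT : List ℕ) (a : List ℕ × List (List Bool)) (x : List (List Bool)) : Prop :=
  ∃ ω : List Bool, ω.length = a.1.getD 0 0 ∧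
    a.2 = PS.map (ent ω (a.2.headD []) (a.1.getD 1 0) (a.1.getD 2 0)) ∧
    x = PT.map (ent ω (a.2.headD []) (a.1.getD 1 0) (a.1.getD 2 0))

theorem re_rel (PS PT : List ℕ) :
    REPred fun p : (List ℕ × List (List Bool)) × List (List Bool) => Rel PS PT p.1 p.2 := by
  classical
  unfold Rel
  refine re_exists (R := fun (p : (List ℕ × List (List Bool)) × List (List Bool))
    (ω : List Bool) => ω.length = p.1.1.getD 0 0 ∧
    p.1.2 = PS.map (ent ω (p.1.2.headD []) (p.1.1.getD 1 0) (p.1.1.getD 2 0)) ∧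
    p.2 = PT.map (ent ω (p.1.2.headD []) (p.1.1.getD 1 0) (p.1.1.getD 2 0))) ?_
  refine ComputablePred.to_re ⟨fun _ => Classical.propDecidable _, ?_⟩
  fun_prop

theorem sum_bits (n W : ℕ) :
    ((List.range W).map fun b => (Nat.testBit n b).toNat * 2 ^ b).sum = n % 2 ^ W := by
  induction W with
  | zero => simp [Nat.mod_one]
  | succ W ih =>
    rw [List.range_succ, List.map_append, List.sum_append, ih, Nat.mod_pow_succ]
    simp [Nat.toNat_testBit, mul_comm]

variable {k N M : ℕ}

/-- The table as a function of the block number. -/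
def idx (tab : Fin k → Fin M → Fin 3 → Option (Fin N)) (e : ℕ) : ℕ :=
  if h : e / 3 / M < k ∧ e / 3 % M < M then
    (tab ⟨e / 3 / M, h.1⟩ ⟨e / 3 % M, h.2⟩ ⟨e % 3, Nat.mod_lt _ (by norm_num)⟩).elim N Fin.val
  else 0

theorem idx_le (tab : Fin k → Fin M → Fin 3 → Option (Fin N)) (e : ℕ) : idx tab e ≤ N := by
  unfold idx
  split_ifs with h
  · cases tab ⟨e / 3 / M, h.1⟩ ⟨e / 3 % M, h.2⟩ ⟨e % 3, Nat.mod_lt _ (by norm_num)⟩ with
    | none => simp
    | some n => simp
  · exact Nat.zero_le _

theorem idx_eq (tab : Fin k → Fin M → Fin 3 → Option (Fin N)) (v : Fin k) (x : Fin M)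
    (j : Fin 3) : idx tab ((v * M + x) * 3 + j) = (tab v x j).elim N Fin.val := by
  have hj := j.2
  have hx := x.2
  have h1 : ((v * M + x) * 3 + j : ℕ) / 3 = v * M + x := by omega
  have h2 : ((v * M + x) * 3 + j : ℕ) % 3 = j := by omega
  have h3 : (v * M + x : ℕ) / M = v := by
    rw [mul_comm, Nat.mul_add_div (by omega), Nat.div_eq_of_lt hx, add_zero]
  have h4 : (v * M + x : ℕ) % M = x := by
    rw [mul_comm, Nat.mul_add_mod, Nat.mod_eq_of_lt hx]
  unfold idx
  have h : ((v * M + x) * 3 + j : ℕ) / 3 / M < k ∧ ((v * M + x) * 3 + j : ℕ) / 3 % M < M := by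
    rw [h1, h3, h4]; exact ⟨v.2, x.2⟩
  rw [dif_pos h]
  have e1 : (⟨((v * M + x) * 3 + j : ℕ) / 3 / M, h.1⟩ : Fin k) = v := Fin.ext (by simp [h1, h3])
  have e2 : (⟨((v * M + x) * 3 + j : ℕ) / 3 % M, h.2⟩ : Fin M) = x := Fin.ext (by simp [h1, h4])
  have e3 : (⟨((v * M + x) * 3 + j : ℕ) % 3, Nat.mod_lt _ (by norm_num)⟩ : Fin 3) = j :=
    Fin.ext h2
  rw [e1, e2, e3]

/-- The description of the table. -/
def desc (tab : Fin k → Fin M → Fin 3 → Option (Fin N)) : List Bool :=
  (List.range (k * M * 3 * Nat.size N)).map fun p =>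
    Nat.testBit (idx tab (p / Nat.size N)) (p % Nat.size N)

theorem num_desc (tab : Fin k → Fin M → Fin 3 → Option (Fin N)) {e : ℕ} (he : e < k * M * 3) :
    num (desc tab) (Nat.size N) e = idx tab e := by
  have h1 : idx tab e < 2 ^ Nat.size N := (idx_le tab e).trans_lt (Nat.lt_size_self N)
  rw [← Nat.mod_eq_of_lt h1, ← sum_bits]
  unfold num
  congr 1
  refine List.map_congr_left fun b hb => ?_
  have hb' : b < Nat.size N := List.mem_range.1 hb
  have h2 : e * Nat.size N + b < k * M * 3 * Nat.size N := by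
    calc e * Nat.size N + b < e * Nat.size N + Nat.size N := by omega
      _ = (e + 1) * Nat.size N := by ring
      _ ≤ _ := Nat.mul_le_mul_right _ he
  have h3 : (e * Nat.size N + b) / Nat.size N = e := by
    rw [mul_comm, Nat.mul_add_div (by omega), Nat.div_eq_of_lt hb', add_zero]
  have h4 : (e * Nat.size N + b) % Nat.size N = b := by
    rw [mul_comm, Nat.mul_add_mod, Nat.mod_eq_of_lt hb']
  congr 2
  unfold desc
  rw [List.getD_eq_getElem _ _ (by simpa using h2)]
  simp [h3, h4]

/-- An input as a string. -/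
def wl (w : Fin N → ZMod 2) : List Bool := List.ofFn fun n => decide (w n = 1)

theorem zmod_toNat (a : ZMod 2) : (((decide (a = 1)).toNat : ℕ) : ZMod 2) = a := by
  revert a; decide

theorem bitv_desc (tab : Fin k → Fin M → Fin 3 → Option (Fin N)) (w : Fin N → ZMod 2)
    (v : Fin k) (x : Fin M) (j : Fin 3) :
    ((bitv (wl w) (desc tab) (Nat.size N) ((v * M + x) * 3 + j) : ℕ) : ZMod 2) =
      (tab v x j).elim 0 w := by
  have he : ((v * M + x) * 3 + j : ℕ) < k * M * 3 := by
    have h1 : (v * M + x : ℕ) < k * M := by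
      calc (v * M + x : ℕ) < v * M + M := by have := x.2; omega
        _ = (v + 1) * M := by ring
        _ ≤ k * M := Nat.mul_le_mul_right _ v.2
    have := j.2
    omega
  unfold bitv
  rw [num_desc tab he, idx_eq]
  cases tab v x j with
  | none =>
    simp only [Option.elim]
    rw [List.getD_eq_default _ _ (by simp [wl])]
    simp
  | some n =>
    simp only [Option.elim]
    rw [List.getD_eq_getElem _ _ (by simp [wl])]
    simp only [wl, List.getElem_ofFn]
    exact zmod_toNat _

theorem rowv_desc (tab : Fin k → Fin M → Fin 3 → Option (Fin N)) (w : Fin N → ZMod 2)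
    (v : Fin k) : rowv (wl w) (desc tab) M (Nat.size N) v =
      List.ofFn fun x => decide (tval tab w v x = 1) := by
  unfold rowv
  refine List.ext_getElem (by simp) fun x h1 h2 => ?_
  have hx : x < M := by simpa using h2
  simp only [List.getElem_map, List.getElem_range, List.getElem_ofFn, decide_eq_decide]
  have h0 := bitv_desc tab w v ⟨x, hx⟩ 0
  have h1 := bitv_desc tab w v ⟨x, hx⟩ 1
  have h2 := bitv_desc tab w v ⟨x, hx⟩ 2
  simp only [Fin.val_zero, add_zero, Fin.val_one, Fin.val_two] at h0 h1 h2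
  unfold tval
  rw [Fin.sum_univ_three, ← h0, ← h1, ← h2, ← Nat.cast_add, ← Nat.cast_add,
    ZMod.natCast_eq_one_iff_odd, Nat.odd_iff]

theorem zmod_ext {a b : ZMod 2} (h : decide (a = 1) = decide (b = 1)) : a = b := by
  revert a b; decide

theorem wl_surj (ω : List Bool) (h : ω.length = N) : ∃ w : Fin N → ZMod 2, wl w = ω := by
  refine ⟨fun n => if ω.getD n false then 1 else 0, ?_⟩
  refine List.ext_getElem (by simp [wl, h]) fun n h1 h2 => ?_
  have h3 : ∀ b : Bool, decide ((if b then 1 else 0 : ZMod 2) = 1) = b := by decide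
  simp only [wl, List.getElem_ofFn, h3]
  exact List.getD_eq_getElem _ _ h2

/-- Positions of a set of indices. -/
def pos (S : Finset (Fin (k + 1))) : List ℕ :=
  ((List.finRange (k + 1)).filter fun i => decide (i ∈ S)).map Fin.val

theorem sub_eq (S : Finset (Fin (k + 1))) (f : ℕ → List Bool) :
    sub S (fun i => f i.val) = (pos S).map f := by
  simp [sub, pos, List.map_map, Function.comp_def]

theorem head_sub (S : Finset (Fin (k + 1))) (h : 0 ∈ S) (a : Fin (k + 1) → List Bool) :
    (sub S a).headD [] = a 0 := by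
  simp [sub, List.finRange_succ, h]

theorem length_sub (S : Finset (Fin (k + 1))) (a : Fin (k + 1) → List Bool) :
    (sub S a).length ≤ k + 1 := by
  simp only [sub, List.length_map]
  exact (List.length_filter_le _ _).trans (by simp)

/-- The tuple. -/
def enc (tab : Fin k → Fin M → Fin 3 → Option (Fin N)) (w : Fin N → ZMod 2)
    (i : Fin (k + 1)) : List Bool := ent (wl w) (desc tab) M (Nat.size N) i.val

theorem enc_zero (tab : Fin k → Fin M → Fin 3 → Option (Fin N)) (w : Fin N → ZMod 2) :
    enc tab w 0 = desc tab := by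
  simp [enc, ent]

theorem enc_succ (tab : Fin k → Fin M → Fin 3 → Option (Fin N)) (w : Fin N → ZMod 2)
    (v : Fin k) : enc tab w v.succ = List.ofFn fun x => decide (tval tab w v x = 1) := by
  rw [← rowv_desc]
  simp [enc, ent]

theorem length_enc (tab : Fin k → Fin M → Fin 3 → Option (Fin N)) (w : Fin N → ZMod 2)
    (i : Fin (k + 1)) : (enc tab w i).length ≤ (3 * k + 1) * ((M + 1) * (Nat.size N + 1)) := by
  refine Fin.cases ?_ (fun v => ?_) i
  · rw [enc_zero]
    simp only [desc, List.length_map, List.length_range]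
    nlinarith [Nat.zero_le (k * M), Nat.zero_le (k * Nat.size N), Nat.zero_le (M * Nat.size N)]
  · rw [enc_succ]
    simp only [List.length_ofFn]
    nlinarith [Nat.zero_le (k * M), Nat.zero_le (k * Nat.size N), Nat.zero_le (M * Nat.size N),
      Nat.zero_le (k * M * Nat.size N)]

theorem sub_enc (tab : Fin k → Fin M → Fin 3 → Option (Fin N)) (w : Fin N → ZMod 2)
    (S : Finset (Fin (k + 1))) :
    sub S (enc tab w) = (pos S).map (ent (wl w) (desc tab) M (Nat.size N)) :=
  sub_eq S _

theorem bound {U : List Bool →. List (List Bool)} (hU : Opt U) (k : ℕ)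
    (S T : Finset (Fin (k + 1))) : ∃ c : ℕ, ∀ (N M : ℕ)
      (tab : Fin k → Fin M → Fin 3 → Option (Fin N)) (u : ℕ) (w : Fin N → ZMod 2), 0 ∈ S →
      ((univ.filter fun w' => sub S (enc tab w') = sub S (enc tab w)).image
            fun w' => sub T (enc tab w')).card ≤ 2 ^ u →
      cx U (sub T (enc tab w)) ≤ cx U (sub S (enc tab w)) + u + c * (Nat.size (N + M) + 1) := by
  obtain ⟨V, hV, -, -, hV3⟩ := enum (Rel (pos S) (pos T)) (re_rel _ _)
  have hΨ : Partrec fun p : List ℕ × List (List Bool) × ℕ => V ((p.1, p.2.1), p.2.2) :=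
    hV.comp (by fun_prop)
  obtain ⟨c, hc⟩ := cx_le hU _ hΨ 3
  obtain ⟨c1, hc1⟩ := cx_list hU
  set K := 2 * (k + 1) * (3 * k + 2) + c1 + 1 with hK
  refine ⟨c * (Nat.size K + 2), fun N M tab u w h0 hcard => ?_⟩
  set s := Nat.size (N + M) with hs
  have hNM : N + M < 2 ^ s := Nat.lt_size_self _
  have hsz : Nat.size N ≤ N := Nat.size_le.2 Nat.lt_two_pow_self
  set P := 2 ^ s with hP
  have hP1 : 1 ≤ P := Nat.one_le_two_pow
  have hPP : P ≤ P * P := Nat.le_mul_of_pos_left _ hP1
  have hK1 : 1 ≤ K := by omega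
  have hKP : P * P ≤ K * (P * P) := Nat.le_mul_of_pos_left _ hK1
  have hrel : ∀ x, Rel (pos S) (pos T) ([N, M, Nat.size N], sub S (enc tab w)) x ↔
      ∃ w', sub S (enc tab w') = sub S (enc tab w) ∧ sub T (enc tab w') = x := by
    intro x
    unfold Rel
    simp only [head_sub S h0, enc_zero, List.getD_cons_zero, List.getD_cons_succ]
    constructor
    · rintro ⟨ω, h1, h2, h3⟩
      obtain ⟨w', rfl⟩ := wl_surj ω h1
      exact ⟨w', by rw [h2, sub_enc], by rw [h3, sub_enc]⟩
    · rintro ⟨w', h2, h3⟩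
      exact ⟨wl w', by simp [wl], by rw [← h2, sub_enc], by rw [← h3, sub_enc]⟩
  obtain ⟨i, hi, hx⟩ := hV3 ([N, M, Nat.size N], sub S (enc tab w)) (sub T (enc tab w))
    ((univ.filter fun w' => sub S (enc tab w') = sub S (enc tab w)).image
      fun w' => sub T (enc tab w')) ((hrel _).2 ⟨w, rfl, rfl⟩) (fun x' hx' => by
        obtain ⟨w', h1, h2⟩ := (hrel _).1 hx'
        exact mem_image.2 ⟨w', mem_filter.2 ⟨mem_univ _, h1⟩, h2⟩)
  have hy : cx U (sub S (enc tab w)) ≤ K * (P * P) := by
    have h1 := hc1 (sub S (enc tab w)) ((3 * k + 1) * (P * P)) (fun z hz => by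
      simp only [sub, List.mem_map] at hz
      obtain ⟨j, -, rfl⟩ := hz
      refine (length_enc tab w j).trans (Nat.mul_le_mul_left _ (Nat.mul_le_mul ?_ ?_)) <;> omega)
    have h2 := length_sub S (enc tab w)
    have h3 : 2 * (sub S (enc tab w)).length * ((3 * k + 1) * (P * P) + 1) ≤
        2 * (k + 1) * ((3 * k + 2) * (P * P)) :=
      Nat.mul_le_mul (by omega) (by nlinarith)
    have h4 : c1 ≤ c1 * (P * P) := Nat.le_mul_of_pos_right _ (by omega)
    rw [hK]
    nlinarith
  have h := hc [N, M, Nat.size N] _ _ i u (K * (P * P)) (by simp) (by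
    intro n hn
    simp only [List.mem_cons, List.not_mem_nil, or_false] at hn
    omega) hy (hi.trans_le hcard) hx
  have hB : Nat.size (K * (P * P)) ≤ Nat.size K + 2 * s := by
    rw [Nat.size_le, pow_add, two_mul, pow_add, ← hP]
    exact Nat.mul_lt_mul_of_pos_right (Nat.lt_size_self K) (by omega)
  refine h.trans (Nat.add_le_add_left ?_ _)
  rw [mul_assoc]
  refine Nat.mul_le_mul_left _ ?_
  nlinarith [Nat.zero_le (Nat.size K * s)]

end KTrue

theorem true_tuple {U : List Bool →. List (List Bool)} (hU : Opt U) (k : ℕ) :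
    ∃ c : ℕ, ∀ (N M : ℕ) (tab : Fin k → Fin M → Fin 3 → Option (Fin N)),
      ∃ enc : (Fin N → ZMod 2) → Fin (k + 1) → List Bool,
        (∀ w i, (enc w i).length ≤ c * ((M + 1) * (Nat.size N + 1))) ∧
        (∀ w w', enc w 0 = enc w' 0) ∧
        (∀ w w' v, enc w (Fin.succ v) = enc w' (Fin.succ v) ↔ tval tab w v = tval tab w' v) ∧
        ∀ (S T : Finset (Fin (k + 1))) (u : ℕ) (w : Fin N → ZMod 2), 0 ∈ S → S ⊆ T →
          ((univ.filter fun w' => sub S (enc w') = sub S (enc w)).image
            fun w' => sub T (enc w')).card ≤ 2 ^ u →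
          cx U (sub T (enc w)) ≤ cx U (sub S (enc w)) + u + c * (Nat.size (N + M) + 1) := by
  choose c hc using KTrue.bound hU k
  set C := (univ : Finset (Finset (Fin (k + 1)) × Finset (Fin (k + 1)))).sup
    fun p => c p.1 p.2 with hC
  refine ⟨C + (3 * k + 1), fun N M tab => ⟨KTrue.enc tab, fun w i => ?_, fun w w' => ?_,
    fun w w' v => ?_, fun S T u w h0 _ hcard => ?_⟩⟩
  · exact (KTrue.length_enc tab w i).trans (Nat.mul_le_mul_right _ (by omega))
  · rw [KTrue.enc_zero, KTrue.enc_zero]
  · rw [KTrue.enc_succ, KTrue.enc_succ]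
    constructor
    · intro h
      funext x
      exact KTrue.zmod_ext (congrFun (List.ofFn_injective h) x)
    · intro h
      rw [h]
  · have h1 : c S T ≤ C := le_sup (f := fun p : Finset (Fin (k + 1)) × Finset (Fin (k + 1)) =>
      c p.1 p.2) (mem_univ (S, T))
    exact (hc S T N M tab u w h0 hcard).trans
      (Nat.add_le_add_left (Nat.mul_le_mul_right _ (by omega)) _)

end Pool.Agent.Lib.MP_a7c6c3_lc
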