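import Pool.Agent.Lib.MP_a7c6c3_lc.KTyp
import Pool.Agent.Lib.MP_a7c6c3_lc.KTrue

/-! Module `KMain`: from halving to finite sets of tuples with scaled fibre bounds. -/

set_option autoImplicit false
open Finset

namespace Pool.Agent.Lib.MP_a7c6c3_lc

namespace KMain

theorem half_le_log {z : ℝ} (hz : 0 ≤ z) : 1 / 2 ≤ Real.log (z + 2) := by
  have h1 := Real.log_le_log (by norm_num) (show (2 : ℝ) ≤ z + 2 by linarith)
  have h2 := Real.log_two_gt_d9
  linarith

theorem log_two_le_one : Real.log 2 ≤ 1 := by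
  have h2 := Real.log_two_lt_d9
  linarith

theorem size_le_log (n : ℕ) : (Nat.size n : ℝ) ≤ 1 + 2 * Real.log (n + 2) := by
  have h0 := half_le_log (Nat.cast_nonneg (α := ℝ) n)
  rcases Nat.eq_zero_or_pos (Nat.size n) with h | h
  · rw [h]
    push_cast
    linarith
  · obtain ⟨s, hs⟩ : ∃ s, Nat.size n = s + 1 := ⟨_, (Nat.succ_pred_eq_of_pos h).symm⟩
    have h1 : 2 ^ s ≤ n := Nat.lt_size.1 (by omega)
    have h2 : (2 : ℝ) ^ s ≤ n + 2 := by
      have : ((2 ^ s : ℕ) : ℝ) ≤ n := by exact_mod_cast h1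
      push_cast at this
      linarith
    have h3 := Real.log_le_log (by positivity) h2
    rw [Real.log_pow] at h3
    have h4 := Real.log_two_gt_d9
    have h5 : (0 : ℝ) ≤ s := Nat.cast_nonneg s
    rw [hs]
    push_cast
    nlinarith

theorem log_mul_le {a z y : ℝ} (ha : 0 ≤ a) (hz : 0 ≤ z) (hy : 0 < y) (h : y ≤ (a + 1) * (z + 2)) :
    Real.log y ≤ a + Real.log (z + 2) := by
  have h1 := Real.log_le_log hy h
  rw [Real.log_mul (by positivity) (by positivity)] at h1
  have h2 := Real.log_le_sub_one_of_pos (show 0 < a + 1 by positivity)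
  linarith

theorem size_div {n J : ℕ} {a z : ℝ} (ha : 0 ≤ a) (hz : 0 ≤ z) (h : n ≤ a * ((z + 2) * 2 ^ J)) :
    ((Nat.size n : ℝ) + 1) / 2 ^ J ≤ (10 + 4 * a) * Real.log (z + 2) := by
  have h0 := half_le_log hz
  have h1 : (1 : ℝ) ≤ 2 ^ J := one_le_pow₀ (by norm_num)
  have h2 : (J : ℝ) ≤ 2 ^ J := by exact_mod_cast Nat.lt_two_pow_self.le
  have h3 : ((n : ℝ) + 2) / 2 ^ J ≤ (a + 1) * (z + 2) := by
    rw [div_le_iff₀ (by positivity)]
    nlinarith
  have h4 := log_mul_le ha hz (by positivity) h3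
  rw [Real.log_div (by positivity) (by positivity), Real.log_pow] at h4
  have h5 := size_le_log n
  have h6 : (J : ℝ) * Real.log 2 ≤ 2 ^ J :=
    (mul_le_of_le_one_right (Nat.cast_nonneg J) log_two_le_one).trans h2
  have h7 : 2 + 2 * a + 2 * Real.log (z + 2) ≤ (2 + 2 * a + 2 * Real.log (z + 2)) * 2 ^ J :=
    le_mul_of_one_le_right (by positivity) h1
  have h8 : 4 + 2 * a + 2 * Real.log (z + 2) ≤ (10 + 4 * a) * Real.log (z + 2) := by nlinarith
  refine le_trans ?_ h8
  rw [div_le_iff₀ (by positivity)]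
  linarith

theorem card_image_le {α β γ : Type} [DecidableEq β] [DecidableEq γ] (s : Finset α) (f : α → β)
    (g : α → γ) (h : ∀ x ∈ s, ∀ y ∈ s, g x = g y → f x = f y) :
    (s.image f).card ≤ (s.image g).card := by
  classical
  rcases s.eq_empty_or_nonempty with rfl | ⟨x0, -⟩
  · simp
  refine card_le_card_of_surjOn (fun z => if hz : ∃ x ∈ s, g x = z then f hz.choose else f x0) ?_
  intro y hy
  obtain ⟨x, hx, rfl⟩ := mem_image.1 (mem_coe.1 hy)
  have hz : ∃ x' ∈ s, g x' = g x := ⟨x, hx, rfl⟩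
  refine ⟨g x, mem_coe.2 (mem_image_of_mem g hx), ?_⟩
  simp only [dif_pos hz]
  exact h _ hz.choose_spec.1 _ hx hz.choose_spec.2

theorem sub_eq_iff {k : ℕ} (S : Finset (Fin k)) (a a' : Fin k → List Bool) :
    sub S a = sub S a' ↔ ∀ i ∈ S, a i = a' i := by
  simp [sub, List.map_inj_left]

theorem res_eq_iff {V W : Type} [DecidableEq V] (S : Finset V) (a a' : V → W) :
    res S a = res S a' ↔ ∀ v ∈ S, a v = a' v := by
  refine funext_iff.trans (forall_congr' fun v => ?_)
  by_cases h : v ∈ S <;> simp [res, h]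

theorem take_sub {k : ℕ} (a : Fin (k + 1) → List Bool) : (sub univ a).take 1 = [a 0] := by
  simp [sub, List.finRange_succ]

theorem sub_zero {k : ℕ} (a : Fin (k + 1) → List Bool) : sub {0} a = [a 0] := by
  simp [sub, List.finRange_succ, List.filter_map, Function.comp_def]

variable {V : Type} {k : ℕ}

/-- The indices of the variables in `S`, together with the index of the description. -/
def pl (e : V ≃ Fin k) (S : Finset V) : Finset (Fin (k + 1)) :=
  insert 0 (S.image fun v => (e v).succ)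

theorem zero_mem_pl (e : V ≃ Fin k) (S : Finset V) : 0 ∈ pl e S := mem_insert_self _ _

theorem pl_mono (e : V ≃ Fin k) {S T : Finset V} (h : S ⊆ T) : pl e S ⊆ pl e T :=
  insert_subset_insert _ (image_subset_image h)

theorem sub_pl (e : V ≃ Fin k) (S : Finset V) {a a' : Fin (k + 1) → List Bool} (h : a 0 = a' 0) :
    sub (pl e S) a = sub (pl e S) a' ↔ ∀ v ∈ S, a (e v).succ = a' (e v).succ := by
  simp [sub_eq_iff, pl, h]

theorem true_tuple' {U : List Bool →. List (List Bool)} (hU : Opt U) (e : V ≃ Fin k) :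
    ∃ c : ℕ, ∀ (I X : Type) [Fintype I] [DecidableEq I] [Fintype X]
      (tab : V → X → Fin 3 → Option I), ∃ enc : (I → ZMod 2) → Fin (k + 1) → List Bool,
        (∀ w i, (enc w i).length ≤
          c * ((Fintype.card X + 1) * (Nat.size (Fintype.card I) + 1))) ∧
        (∀ w w', enc w 0 = enc w' 0) ∧
        (∀ w w' v, enc w (e v).succ = enc w' (e v).succ ↔ tval tab w v = tval tab w' v) ∧
        ∀ (S T : Finset (Fin (k + 1))) (u : ℕ) (w : I → ZMod 2), 0 ∈ S → S ⊆ T →
          ((univ.filter fun w' => sub S (enc w') = sub S (enc w)).image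
            fun w' => sub T (enc w')).card ≤ 2 ^ u →
          cx U (sub T (enc w)) ≤ cx U (sub S (enc w)) + u +
            c * (Nat.size (Fintype.card I + Fintype.card X) + 1) := by
  obtain ⟨c, hc⟩ := true_tuple hU k
  refine ⟨c, fun I X _ _ _ tab => ?_⟩
  let eI := Fintype.equivFin I
  let eX := Fintype.equivFin X
  obtain ⟨enc, h1, h2, h3, h4⟩ := hc _ _ fun v x j => (tab (e.symm v) (eX.symm x) j).map eI
  have ht : ∀ (w : I → ZMod 2) v x, tval (fun v x j => (tab (e.symm v) (eX.symm x) j).map eI)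
      (w ∘ eI.symm) (e v) x = tval tab w v (eX.symm x) := fun w v x => by
    simp only [tval, Equiv.symm_apply_apply]
    refine sum_congr rfl fun j _ => ?_
    cases tab v (eX.symm x) j <;> simp
  refine ⟨fun w => enc (w ∘ eI.symm), fun w i => h1 _ i, fun w w' => h2 _ _, fun w w' v => ?_,
    fun S T u w h0 hST h => h4 S T u _ h0 hST (le_trans (card_le_card fun y hy => ?_) h)⟩
  · rw [h3, funext_iff, funext_iff]
    simp only [ht]
    exact ⟨fun h x => by simpa using h (eX x), fun h x => h _⟩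
  · obtain ⟨w', hw, rfl⟩ := mem_image.1 hy
    have : (w' ∘ eI) ∘ eI.symm = w' := by ext i; simp
    exact mem_image.2 ⟨w' ∘ eI, by simpa [this] using hw, by simp only [this]⟩

theorem pow_le_exp {a p q : ℕ} {y : ℝ} (h : a * 2 ^ p ≤ 2 ^ q)
    (hy : ((q : ℝ) - p) * Real.log 2 ≤ y) : (a : ℝ) ≤ Real.exp y := by
  refine le_trans ?_ (Real.exp_le_exp.2 hy)
  rw [sub_mul, Real.exp_sub, Real.exp_nat_mul, Real.exp_nat_mul, Real.exp_log two_pos,
    le_div_iff₀ (by positivity)]
  exact_mod_cast h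

theorem le_log {a p q : ℕ} (h : 2 ^ q ≤ a * 2 ^ p) : ((q : ℝ) - p) * Real.log 2 ≤ Real.log a := by
  have h1 : (2 : ℝ) ^ q / 2 ^ p ≤ a := by
    rw [div_le_iff₀ (by positivity)]
    exact_mod_cast h
  have h2 := Real.log_le_log (by positivity) h1
  rwa [Real.log_div (by positivity) (by positivity), Real.log_pow, Real.log_pow, ← sub_mul] at h2

end KMain

open KMain in
theorem K_main (hH : Halving) (V : Type) [Fintype V] [DecidableEq V] : ∃ c : ℝ, 0 ≤ c ∧
    ∀ (I X : Type) [Fintype I] [DecidableEq I] [Fintype X] [DecidableEq X]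
      (tab : V → X → Fin 3 → Option I) (J : ℕ) (E : ℝ),
      E = c * Real.log (((Fintype.card I : ℝ) +
        (Fintype.card X + 1) * (Nat.size (Fintype.card I) + 1)) / 2 ^ J + 2) →
      ∃ A : Finset (V → List Bool), A.Nonempty ∧
        (∀ l : ℕ, 2 ^ l ≤ (univ.image fun w : I → ZMod 2 => tval tab w).card →
          l / 2 ^ J * Real.log 2 - E ≤ Real.log A.card) ∧
        ∀ (S T : Finset V) (u : ℕ),
          (∀ w : I → ZMod 2, ((univ.filter fun w' => res S (tval tab w') = res S (tval tab w)).image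
            fun w' => res T (tval tab w')).card ≤ 2 ^ u) →
          ∀ a ∈ A, (((A.filter fun a' => res S a' = res S a).image (res T)).card : ℝ) ≤
            Real.exp (u / 2 ^ J * Real.log 2 + E) := by
  obtain ⟨U, hU⟩ := exists_opt
  obtain ⟨k, ⟨e⟩⟩ : ∃ k, Nonempty (V ≃ Fin k) := ⟨_, ⟨Fintype.equivFin V⟩⟩
  obtain ⟨c0, hc0⟩ := cx_list hU
  obtain ⟨c1, hc1⟩ := true_tuple' hU e
  obtain ⟨c2, hc2⟩ := fibre hU (List.take 1)
    (Primrec.list_take.comp (Primrec.const 1) Primrec.id).to_comp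
  obtain ⟨c3, c3p, hc3⟩ := iterate hU (k + 1) (hH _ U hU)
  obtain ⟨c4, hc4⟩ := typize hU k
  refine ⟨c2 * (10 + 4 * (2 * (k + 1) * (c1 + 1) + c0)) + 2 * (c3 * (2 * c1 + 1)) +
    c4 * (10 + 4 * ((c3 + 1) * (c1 + 1))) + c1 * (10 + 4 * 1), by positivity,
    fun I X _ _ _ _ tab J E hE => ?_⟩
  obtain ⟨enc, h1, h2, h3, h4⟩ := hc1 I X tab
  generalize Fintype.card I = N at *
  generalize Fintype.card X = M at *
  obtain ⟨n, hn⟩ : ∃ n, n = c1 * ((M + 1) * (Nat.size N + 1)) := ⟨_, rfl⟩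
  obtain ⟨x, hx⟩ : ∃ x : ℝ, x = ((N : ℝ) + (M + 1) * (Nat.size N + 1)) / 2 ^ J := ⟨_, rfl⟩
  rw [← hx] at hE
  rw [← hn] at h1
  have hJ : (1 : ℝ) ≤ 2 ^ J := one_le_pow₀ (by norm_num)
  have hJ0 : (0 : ℝ) < 2 ^ J := by positivity
  have x0 : 0 ≤ x := by rw [hx]; positivity
  have hx' : x * 2 ^ J = N + (M + 1) * (Nat.size N + 1) := by rw [hx]; field_simp
  have L0 := half_le_log x0
  have c1p : (0 : ℝ) ≤ c1 := Nat.cast_nonneg _
  have hnx : (n : ℝ) ≤ c1 * (x * 2 ^ J) := by
    rw [hn, hx']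
    push_cast
    gcongr
    exact le_add_of_nonneg_left (Nat.cast_nonneg _)
  have hy : (n : ℝ) / 2 ^ J + 2 ≤ (c1 + 1) * (x + 2) := by
    have : (n : ℝ) / 2 ^ J ≤ c1 * x := by rw [div_le_iff₀ hJ0]; linarith
    nlinarith
  have hL : c3 * Real.log (n / 2 ^ J + 2) ≤ c3 * (2 * c1 + 1) * Real.log (x + 2) := by
    have := log_mul_le c1p x0 (by positivity) hy
    rw [mul_assoc]
    exact mul_le_mul_of_nonneg_left (by nlinarith) c3p
  obtain ⟨w, -, hw⟩ := exists_max_image univ (fun w => cx U (sub univ (enc w))) univ_nonempty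
  have hB : cx U (sub univ (enc w)) ≤ 2 * (k + 1) * (n + 1) + c0 := by
    have := hc0 (sub univ (enc w)) n fun s hs => by
      obtain ⟨i, -, rfl⟩ := List.mem_map.1 hs
      exact h1 w i
    simpa [sub] using this
  have hfib := hc2 [enc w 0] _ _ (univ.image fun w' => sub univ (enc w')) hB fun y hy => by
    obtain ⟨w', -, rfl⟩ := mem_image.1 hy
    exact ⟨by rw [take_sub, h2 w' w], hw w' (mem_univ _)⟩
  obtain ⟨b, b1, b2⟩ := hc3 n J (enc w) (h1 w)
  obtain ⟨A, a1, a2, a3, a4⟩ := hc4 ⌊(n : ℝ) / 2 ^ J + c3 * Real.log (n / 2 ^ J + 2)⌋₊ b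
    fun i => Nat.le_floor (b1 i)
  have s1 := size_div (n := 2 * (k + 1) * (n + 1) + c0) (J := J)
    (a := 2 * (k + 1) * (c1 + 1) + c0) (by positivity) x0 (by
      have q1 : 1 ≤ (x + 2) * 2 ^ J := by nlinarith
      have q2 : (n : ℝ) + 1 ≤ (c1 + 1) * ((x + 2) * 2 ^ J) := by nlinarith
      have q3 : (c0 : ℝ) ≤ c0 * ((x + 2) * 2 ^ J) := le_mul_of_one_le_right (by positivity) q1
      have q4 := mul_le_mul_of_nonneg_left q2 (show (0 : ℝ) ≤ 2 * (k + 1) by positivity)
      push_cast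
      linarith)
  have s2 := size_div (n := ⌊(n : ℝ) / 2 ^ J + c3 * Real.log (n / 2 ^ J + 2)⌋₊) (J := 0)
    (a := (c3 + 1) * (c1 + 1)) (by positivity) x0 (by
      have q0 : (0 : ℝ) < n / 2 ^ J + 2 := by positivity
      have q1 := Real.log_le_sub_one_of_pos q0
      have q2 := Real.log_nonneg (show (1 : ℝ) ≤ n / 2 ^ J + 2 by
        have : (0 : ℝ) ≤ n / 2 ^ J := by positivity
        linarith)
      refine (Nat.floor_le (by positivity)).trans ?_
      have q3 := mul_le_mul_of_nonneg_left hy (show 0 ≤ c3 + 1 by positivity)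
      have q4 := mul_le_mul_of_nonneg_left q1 c3p
      rw [pow_zero, mul_one]
      linarith)
  have s3 := size_div (n := N + M) (J := J) (a := 1) zero_le_one x0 (by
    have q1 : (M : ℝ) + 1 ≤ (M + 1) * (Nat.size N + 1) :=
      le_mul_of_one_le_right (by positivity) (le_add_of_nonneg_left (Nat.cast_nonneg _))
    push_cast
    linarith)
  rw [pow_zero, div_one] at s2
  generalize Nat.size ⌊(n : ℝ) / 2 ^ J + c3 * Real.log (n / 2 ^ J + 2)⌋₊ = σ2 at *
  generalize Nat.size (2 * (k + 1) * (n + 1) + c0) = σ1 at *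
  generalize Nat.size (N + M) = σ3 at *
  have t1 := mul_le_mul_of_nonneg_left s1 (Nat.cast_nonneg (α := ℝ) c2)
  have t2 := mul_le_mul_of_nonneg_left s2 (Nat.cast_nonneg (α := ℝ) c4)
  have t3 := mul_le_mul_of_nonneg_left s3 c1p
  have p1 : (0 : ℝ) ≤ c2 * ((σ1 + 1) / 2 ^ J) := by positivity
  have p3 : (0 : ℝ) ≤ c1 * ((σ3 + 1) / 2 ^ J) := by positivity
  obtain ⟨F, hF⟩ : ∃ F : ℝ, F = c2 * ((σ1 + 1) / 2 ^ J) + 2 * (c3 * Real.log (n / 2 ^ J + 2)) +
    c4 * (σ2 + 1) + c1 * ((σ3 + 1) / 2 ^ J) := ⟨_, rfl⟩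
  have hFE : F * Real.log 2 ≤ E := by
    have q1 : F ≤ E := by rw [hF, hE]; linarith
    have q2 : 0 ≤ E := by rw [hE]; positivity
    have q3 := Real.log_nonneg (show (1 : ℝ) ≤ 2 by norm_num)
    exact (mul_le_mul_of_nonneg_right q1 q3).trans (mul_le_of_le_one_right q2 log_two_le_one)
  have l2 := Real.log_nonneg (show (1 : ℝ) ≤ 2 by norm_num)
  let dr : (Fin (k + 1) → List Bool) → V → List Bool := fun a v => a (e v).succ
  have hinj : Set.InjOn dr A := fun a ha a' ha' h => by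
    funext i
    refine Fin.cases ((a2 a ha).trans (a2 a' ha').symm) (fun j => ?_) i
    simpa [dr] using congrFun h (e.symm j)
  refine ⟨A.image dr, ⟨_, mem_image_of_mem _ a1⟩, fun l hl => ?_, fun S T u hu a ha => ?_⟩
  · rw [card_image_of_injOn hinj]
    refine le_trans ?_ (le_log a3)
    have q1 := hl.trans (card_image_le univ _ (fun w' => sub univ (enc w')) fun w _ w' _ h =>
      funext fun v => (h3 w w' v).1 ((sub_eq_iff _ _ _).1 h _ (mem_univ _)))
    have q2 := (Nat.mul_le_mul_right _ q1).trans hfib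
    rw [← pow_add, Nat.pow_le_pow_iff_right (by norm_num), ← sub_zero] at q2
    have q3 : (l : ℝ) / 2 ^ J + cx U (sub {0} (enc w)) / 2 ^ J ≤
        cx U (sub univ (enc w)) / 2 ^ J + c2 * ((σ1 + 1) / 2 ^ J) := by
      rw [← mul_div_assoc, ← add_div, ← add_div]
      exact div_le_div_of_nonneg_right (by exact_mod_cast q2) hJ0.le
    have q4 := abs_le.1 (b2 univ univ_nonempty)
    have q5 := abs_le.1 (b2 {0} (singleton_nonempty _))
    have q6 : (l : ℝ) / 2 ^ J - F ≤
        cx U (sub univ b) - ((cx U (sub {0} b) + c4 * (σ2 + 1) : ℕ) : ℝ) := by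
      push_cast
      linarith [q4.1, q5.2]
    have := mul_le_mul_of_nonneg_right q6 l2
    linarith
  · obtain ⟨a, ha', rfl⟩ := mem_image.1 ha
    have q1 := h4 (pl e S) (pl e (S ∪ T)) u w (zero_mem_pl _ _) (pl_mono _ subset_union_left) (by
      refine le_trans ?_ (hu w)
      have : (univ.filter fun w' => sub (pl e S) (enc w') = sub (pl e S) (enc w)) =
          univ.filter fun w' => res S (tval tab w') = res S (tval tab w) :=
        filter_congr fun w' _ => by simp only [sub_pl e S (h2 w' w), res_eq_iff, h3]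
      rw [this]
      refine card_image_le _ _ _ fun w1 k1 w2 k2 h => (sub_pl e _ (h2 _ _)).2 fun v hv => ?_
      rw [h3]
      rcases mem_union.1 hv with hv | hv
      · exact (res_eq_iff _ _ _).1 ((mem_filter.1 k1).2.trans (mem_filter.1 k2).2.symm) v hv
      · exact (res_eq_iff _ _ _).1 h v hv)
    have q2 := a4 (pl e S) (pl e (S ∪ T)) (zero_mem_pl _ _) (pl_mono _ subset_union_left) a ha'
    have q3 : (((A.image dr).filter fun a' => res S a' = res S (dr a)).image (res T)).card ≤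
        ((A.filter fun a' => sub (pl e S) a' = sub (pl e S) a).image
          (sub (pl e (S ∪ T)))).card := by
      have : (A.filter fun a' => sub (pl e S) a' = sub (pl e S) a) =
          A.filter fun a' => res S (dr a') = res S (dr a) := filter_congr fun a' h => by
        simp only [sub_pl e S ((a2 a' h).trans (a2 a ha').symm), res_eq_iff, dr]
      rw [filter_image, image_image, this]
      refine card_image_le _ _ _ fun a₁ k1 a₂ k2 h => (res_eq_iff _ _ _).2 fun v hv => ?_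
      exact (sub_pl e _ ((a2 _ (mem_filter.1 k1).1).trans (a2 _ (mem_filter.1 k2).1).symm)).1 h v
        (mem_union_right _ hv)
    refine pow_le_exp ((Nat.mul_le_mul_right _ q3).trans q2) ?_
    have q4 := abs_le.1 (b2 (pl e S) ⟨0, zero_mem_pl _ _⟩)
    have q5 := abs_le.1 (b2 (pl e (S ∪ T)) ⟨0, zero_mem_pl _ _⟩)
    have q6 : (cx U (sub (pl e (S ∪ T)) (enc w)) : ℝ) / 2 ^ J ≤
        cx U (sub (pl e S) (enc w)) / 2 ^ J + u / 2 ^ J + c1 * ((σ3 + 1) / 2 ^ J) := by
      rw [← mul_div_assoc, ← add_div, ← add_div]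
      exact div_le_div_of_nonneg_right (by exact_mod_cast q1) hJ0.le
    have q7 : ((cx U (sub (pl e (S ∪ T)) b) + c4 * (σ2 + 1) : ℕ) : ℝ) - cx U (sub (pl e S) b) ≤
        u / 2 ^ J + F := by
      push_cast
      linarith [q4.1, q5.2]
    have := mul_le_mul_of_nonneg_right q7 l2
    linarith

end Pool.Agent.Lib.MP_a7c6c3_lc
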