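import Pool.Agent.Lib.MP_a7c6c3_lc.KFib

/-! Module `KTyp`: typization conditional on the string with index `0`. -/

set_option autoImplicit false
open Finset

namespace Pool.Agent.Lib.MP_a7c6c3_lc

open Pool.Agent.Shared.Oracle

namespace KTyp

/-- The projection from the sub-tuple on `T` to the sub-tuple on `S`. -/
def pr {k : ℕ} (S T : Finset (Fin k)) (x : List (List Bool)) : List (List Bool) :=
  (((List.finRange k).filter fun i => decide (i ∈ S)).map fun i =>
    ((List.finRange k).filter fun i => decide (i ∈ T)).idxOf i).map fun j => x.getD j []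

lemma pr_comp {k : ℕ} (S T : Finset (Fin k)) : Computable (pr S T) := by
  unfold pr
  fun_prop

lemma pr_sub {k : ℕ} {S T : Finset (Fin k)} (h : S ⊆ T) (a : Fin k → List Bool) :
    pr S T (sub T a) = sub S a := by
  simp only [pr, sub, List.map_map]
  refine List.map_congr_left fun i hi => ?_
  have h1 : i ∈ (List.finRange k).filter fun i => decide (i ∈ T) := by
    simpa using h (by simpa using hi)
  have h2 := List.idxOf_lt_length_iff.2 h1
  simp [List.getD_eq_getElem?_getD, List.getElem?_eq_getElem h2]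

lemma sub_univ {k : ℕ} (a : Fin k → List Bool) : sub univ a = List.ofFn a := by
  simp [sub, List.ofFn_eq_map]

lemma card_le_of_enum {β : Type} (V : ℕ →. β) (M : ℕ) (s : Finset β)
    (h : ∀ x ∈ s, ∃ i < M, x ∈ V i) : s.card ≤ M := by
  choose! f h1 h2 using h
  simpa using Finset.card_le_card_of_injOn (t := range M) f (fun x hx => by simpa using h1 x hx)
    fun x hx y hy e => Part.mem_unique (h2 x hx) (e ▸ h2 y hy)

lemma finite_of_card_le {β : Type} {A : Set β} {M : ℕ}
    (h : ∀ s : Finset β, (s : Set β) ⊆ A → s.card ≤ M) : A.Finite := by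
  by_contra h1
  obtain ⟨s, h2, h3⟩ := Set.Infinite.exists_subset_card_eq h1 (M + 1)
  have := h s h2
  omega

lemma re_all {α ι : Type} [Primcodable α] (s : Finset ι) {p : ι → α → Prop}
    (h : ∀ i ∈ s, REPred (p i)) : REPred fun a => ∀ i ∈ s, p i a := by
  classical
  induction s using Finset.induction_on with
  | empty => exact (re_of_prim (Primrec.eq.comp (Primrec.const 0) (Primrec.const 0))).of_eq (by simp)
  | insert i s _ ih =>
    exact (re_and (h i (mem_insert_self _ _)) (ih fun j hj => h j (mem_insert_of_mem hj))).of_eq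
      (by simp)

lemma re_eq {α β : Type} [Primcodable α] [Primcodable β] {f g : α → β} (hf : Computable f)
    (hg : Computable g) : REPred fun a => f a = g a := by
  classical
  exact ComputablePred.to_re ⟨inferInstance, FP.c_decide_eq hf hg⟩

lemma re_lt {α : Type} [Primcodable α] {f g : α → ℕ} (hf : Computable f)
    (hg : Computable g) : REPred fun a => f a < g a :=
  ComputablePred.to_re ⟨inferInstance, FP.c_decide_lt hf hg⟩

lemma re_base (k : ℕ) {g : List (List Bool) → List (List Bool)} (hg : Computable g) :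
    REPred fun r : (List ℕ × List (List Bool)) × List (List Bool) =>
      r.2.length = k ∧ g r.2 = r.1.2 :=
  re_and (re_eq (FP.c_length Computable.snd) (Computable.const k))
    (re_eq (hg.comp Computable.snd) (Computable.snd.comp Computable.fst))

lemma re_step (i j : ℕ) {g g' : List (List Bool) → List (List Bool)} (hg : Computable g)
    (hg' : Computable g') {V : (ℕ × List (List Bool)) × ℕ →. List (List Bool)} (hV : Partrec V) :
    REPred fun r : (List ℕ × List (List Bool)) × List (List Bool) =>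
      ∃ m, m < 2 ^ r.1.1.getD i 0 ∧ g r.2 ∈ V ((r.1.1.getD j 0, g' r.2), m) := by
  have h1 : ∀ i, Computable fun r : ((List ℕ × List (List Bool)) × List (List Bool)) × ℕ =>
      r.1.1.1.getD i 0 := fun i => FP.c_getD
    (Computable.fst.comp (Computable.fst.comp Computable.fst)) (Computable.const i)
    (Computable.const 0)
  have h2 : Computable fun r : ((List ℕ × List (List Bool)) × List (List Bool)) × ℕ => r.1.2 :=
    Computable.snd.comp Computable.fst
  have h3 := re_lt Computable.snd (FP.c_pow (Computable.const 2) (h1 i))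
  have h4 := re_comp (re_mem hV)
    ((((h1 j).pair (hg'.comp h2)).pair Computable.snd).pair (hg.comp h2))
  exact re_exists (R := fun (r : (List ℕ × List (List Bool)) × List (List Bool)) m =>
    m < 2 ^ r.1.1.getD i 0 ∧ g r.2 ∈ V ((r.1.1.getD j 0, g' r.2), m))
    ((re_and h3 h4).of_eq fun _ => Iff.rfl)

lemma re_fib {U : List Bool →. List (List Bool)} (hU : Opt U)
    {g : List (List Bool) → List (List Bool)} (hg : Computable g) :
    REPred fun r : (ℕ × List (List Bool)) × List (List Bool) => g r.2 = r.1.2 ∧ cx U r.2 ≤ r.1.1 := by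
  have h1 : Computable fun r : (ℕ × List (List Bool)) × List (List Bool) => (r.2, r.1.1) :=
    Computable.snd.pair (Computable.fst.comp Computable.fst)
  have h2 := re_comp (re_cx_le hU) h1
  exact (re_and (re_eq (hg.comp Computable.snd) (Computable.snd.comp Computable.fst)) h2).of_eq
    fun _ => Iff.rfl

lemma size_mul (a n : ℕ) : Nat.size (a * (n + 1)) + 1 ≤ (Nat.size a + 1) * (Nat.size n + 1) := by
  have h : Nat.size (a * (n + 1)) ≤ Nat.size a + Nat.size n := Nat.size_le.2 (by
    rw [pow_add]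
    exact Nat.mul_lt_mul_of_lt_of_le (Nat.lt_size_self a) (Nat.lt_size_self n) (by positivity))
  nlinarith [Nat.zero_le (Nat.size a * Nat.size n)]

end KTyp

open KTyp

theorem typize {U : List Bool →. List (List Bool)} (hU : Opt U) (k : ℕ) :
    ∃ c : ℕ, ∀ (n : ℕ) (b : Fin (k + 1) → List Bool), (∀ i, (b i).length ≤ n) →
      ∃ A : Finset (Fin (k + 1) → List Bool), b ∈ A ∧ (∀ a ∈ A, a 0 = b 0) ∧
        2 ^ cx U (sub univ b) ≤ A.card * 2 ^ (cx U (sub {0} b) + c * (Nat.size n + 1)) ∧
        ∀ S T : Finset (Fin (k + 1)), 0 ∈ S → S ⊆ T → ∀ a ∈ A,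
          ((A.filter fun a' => sub S a' = sub S a).image (sub T)).card * 2 ^ cx U (sub S b) ≤
            2 ^ (cx U (sub T b) + c * (Nat.size n + 1)) := by
  classical
  let P := Finset (Fin (k + 1)) × Finset (Fin (k + 1))
  have hV := fun p : P => enum (α := ℕ × List (List Bool))
    (fun q x => pr p.1 p.2 x = q.2 ∧ cx U x ≤ q.1)
    (re_fib hU (pr_comp p.1 p.2))
  choose V V1 V2 _ V4 using hV
  choose c₁ hc₁ using fun p : P => fibre hU (pr p.1 p.2) (pr_comp p.1 p.2)
  obtain ⟨c₀, hc₀⟩ := cx_list hU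
  let e := Fintype.equivFin (P × Bool)
  let I : Finset P := univ.filter fun p => 0 ∈ p.1 ∧ p.1 ⊆ p.2
  let R : List ℕ × List (List Bool) → List (List Bool) → Prop := fun q x =>
    (x.length = k + 1 ∧ pr {(0 : Fin (k + 1))} univ x = q.2) ∧ ∀ p ∈ I,
      ∃ i, i < 2 ^ q.1.getD (e (p, true)) 0 ∧
      pr p.2 univ x ∈ V p ((q.1.getD (e (p, false)) 0, pr p.1 univ x), i)
  have hR : REPred fun r : (List ℕ × List (List Bool)) × List (List Bool) => R r.1 r.2 := by
    exact re_and (re_base _ (pr_comp _ _)) (re_all I fun p _ =>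
      re_step _ _ (pr_comp _ _) (pr_comp _ _) (V1 p))
  obtain ⟨W, W1, -, -, W4⟩ := enum R hR
  obtain ⟨c₂, hc₂⟩ := cx_le hU (fun r => W ((r.1, r.2.1), r.2.2))
    (W1.comp (by fun_prop)) (Fintype.card (P × Bool))
  set C := ∑ p, c₁ p with hC
  set a₀ := 2 * (k + 1) + c₀ with ha₀
  set a₁ := a₀ + C * (a₀ + 1) with ha₁
  refine ⟨C * (Nat.size a₀ + 1) + c₂ * (Nat.size a₁ + 1) + 1, fun n b hb => ?_⟩
  have h0 : ∀ S, cx U (sub S b) ≤ a₀ * (n + 1) := fun S => by
    have h1 := hc₀ (sub S b) n fun s hs => by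
      obtain ⟨i, -, rfl⟩ := List.mem_map.1 hs
      exact hb i
    have h2 : (sub S b).length ≤ k + 1 := by
      simpa [sub] using List.length_filter_le (fun i => decide (i ∈ S)) (List.finRange (k + 1))
    calc cx U (sub S b) ≤ 2 * (k + 1) * (n + 1) + c₀ * (n + 1) := h1.trans (by gcongr; nlinarith)
      _ = _ := by rw [ha₀]; ring
  set d := C * (Nat.size (a₀ * (n + 1)) + 1) with hd
  let f : P × Bool → ℕ := fun q =>
    if q.2 then cx U (sub q.1.2 b) + d - cx U (sub q.1.1 b) else cx U (sub q.1.2 b)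
  let ps := List.ofFn fun j => f (e.symm j)
  have hps : ∀ q, ps.getD (e q) 0 = f q := fun q => by
    rw [List.getD_eq_getElem _ _ (by simpa only [ps, List.length_ofFn] using (e q).2)]
    simp only [ps, List.getElem_ofFn, Fin.eta, Equiv.symm_apply_apply]
  have h1 : ∀ p ∈ I, cx U (sub p.1 b) ≤ cx U (sub p.2 b) + d ∧
      ∃ i, i < 2 ^ f (p, true) ∧ sub p.2 b ∈ V p ((f (p, false), sub p.1 b), i) := fun p hp => by
    have h1 := (mem_filter.1 hp).2.2
    have h2 : {x | pr p.1 p.2 x = sub p.1 b ∧ cx U x ≤ cx U (sub p.2 b)}.Finite :=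
      finite_of_card_le fun s hs => (card_cx_le hU _ s fun x hx => (hs hx).2).le
    obtain ⟨i, h3, h4⟩ := V4 p (cx U (sub p.2 b), sub p.1 b) (sub p.2 b) h2.toFinset
      ⟨pr_sub h1 b, le_rfl⟩ fun x hx => h2.mem_toFinset.2 hx
    have h5 := (hc₁ p (sub p.1 b) _ _ h2.toFinset (h0 p.2) fun x hx =>
      h2.mem_toFinset.1 hx).trans (Nat.pow_le_pow_right two_pos (Nat.add_le_add_left
        (Nat.mul_le_mul_right _ (single_le_sum (fun _ _ => Nat.zero_le _) (mem_univ p))) _))
    rw [← hC, ← hd] at h5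
    have h6 : cx U (sub p.1 b) ≤ cx U (sub p.2 b) + d :=
      (Nat.pow_le_pow_iff_right one_lt_two).1 (le_trans (Nat.le_mul_of_pos_left _ (by omega)) h5)
    refine ⟨h6, i, h3.trans_le (Nat.le_of_mul_le_mul_right (h5.trans_eq ?_) (by positivity)), h4⟩
    simp only [f, if_true]
    rw [← pow_add, Nat.sub_add_cancel h6]
  have h2 : ∀ a, R (ps, sub {0} b) (sub univ a) ↔ sub {0} a = sub {0} b ∧ ∀ p ∈ I,
      ∃ i, i < 2 ^ f (p, true) ∧ sub p.2 a ∈ V p ((f (p, false), sub p.1 a), i) := fun a => by
    simp only [R, hps, pr_sub (subset_univ _)]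
    simp [sub_univ]
  have hinj : Function.Injective (sub (univ : Finset (Fin (k + 1)))) := fun a a' h => by
    rwa [sub_univ, sub_univ, List.ofFn_inj] at h
  have h3 : {a | R (ps, sub {0} b) (sub univ a)}.Finite := finite_of_card_le fun s hs => by
    rw [← card_image_of_injective s hinj]
    refine card_le_of_enum (fun i => V ({0}, univ) ((f (({0}, univ), false), sub {0} b), i))
      (2 ^ f (({0}, univ), true)) _ fun x hx => ?_
    obtain ⟨a, ha, rfl⟩ := mem_image.1 hx
    obtain ⟨h4, h5⟩ := (h2 a).1 (hs ha)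
    exact h4 ▸ h5 ({0}, univ) (by simp [I])
  have h4 : R (ps, sub {0} b) (sub univ b) := (h2 b).2 ⟨rfl, fun p hp => (h1 p hp).2⟩
  have h5 : d ≤ C * (Nat.size a₀ + 1) * (Nat.size n + 1) := by
    rw [mul_assoc]
    exact Nat.mul_le_mul_left _ (size_mul _ _)
  refine ⟨h3.toFinset, h3.mem_toFinset.2 h4, fun a ha => ?_, ?_, fun S T hS hT a ha => ?_⟩
  · have := ((h2 a).1 (h3.mem_toFinset.1 ha)).1
    have h6 : (0 : Fin (k + 1)) ∈ (List.finRange (k + 1)).filter
      fun i => decide (i ∈ ({0} : Finset (Fin (k + 1)))) := by simp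
    exact List.map_inj_left.1 this 0 h6
  · obtain ⟨i, h6, h7⟩ := W4 _ _ (h3.toFinset.image (sub univ)) h4 fun x hx => by
      have h6 : sub univ (fun i : Fin (k + 1) => x.getD i []) = x := by
        rw [sub_univ]
        refine List.ext_getElem (by simpa using hx.1.1.symm) fun j h6 h7 => ?_
        rw [List.getElem_ofFn, List.getD_eq_getElem _ _ h7]
      exact mem_image.2 ⟨_, h3.mem_toFinset.2 (by rw [Set.mem_setOf_eq, h6]; exact hx), h6⟩
    rw [card_image_of_injective _ hinj] at h6
    have h8 : a₀ * (n + 1) + d ≤ a₁ * (n + 1) := by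
      have h8 : Nat.size (a₀ * (n + 1)) ≤ a₀ * (n + 1) := Nat.size_le.2 Nat.lt_two_pow_self
      have h9 : Nat.size (a₀ * (n + 1)) + 1 ≤ (a₀ + 1) * (n + 1) := by
        rw [add_one_mul]; omega
      calc a₀ * (n + 1) + d ≤ a₀ * (n + 1) + C * ((a₀ + 1) * (n + 1)) :=
            Nat.add_le_add_left (Nat.mul_le_mul_left _ h9) _
        _ = _ := by rw [ha₁]; ring
    have h9 := hc₂ ps (sub {0} b) (sub univ b) i (Nat.log 2 h3.toFinset.card + 1) (a₁ * (n + 1))
      (by simp [ps]) (fun m hm => by
        obtain ⟨j, rfl⟩ := List.mem_ofFn.1 hm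
        have := h0 (e.symm j).1.2
        simp only [f]
        split_ifs <;> omega) (by have := h0 {0}; omega)
      (h6.trans (Nat.lt_pow_succ_log_self one_lt_two _)) h7
    have h10 := Nat.mul_le_mul_left c₂ (size_mul a₁ n)
    calc 2 ^ cx U (sub univ b) ≤ 2 ^ (Nat.log 2 h3.toFinset.card + (cx U (sub {0} b) +
          (C * (Nat.size a₀ + 1) + c₂ * (Nat.size a₁ + 1) + 1) * (Nat.size n + 1))) :=
          Nat.pow_le_pow_right two_pos (by
            rw [← mul_assoc] at h10
            rw [add_one_mul, add_mul]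
            omega)
      _ ≤ _ := by
          rw [pow_add]
          exact Nat.mul_le_mul_right _ (Nat.pow_log_le_self 2 (by omega))
  · have hp : (S, T) ∈ I := by simp [I, hS, hT]
    have h6 := card_le_of_enum (fun i => V (S, T) ((f ((S, T), false), sub S a), i))
      (2 ^ f ((S, T), true)) ((h3.toFinset.filter fun a' => sub S a' = sub S a).image (sub T))
      fun x hx => by
        obtain ⟨a', h6, rfl⟩ := mem_image.1 hx
        obtain ⟨h7, h8⟩ := mem_filter.1 h6
        exact h8 ▸ ((h2 a').1 (h3.mem_toFinset.1 h7)).2 _ hp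
    refine (Nat.mul_le_mul_right _ h6).trans ?_
    simp only [f, if_true]
    rw [← pow_add, Nat.sub_add_cancel (h1 _ hp).1]
    refine Nat.pow_le_pow_right two_pos (Nat.add_le_add_left ?_ _)
    rw [add_one_mul, add_mul]
    omega

end Pool.Agent.Lib.MP_a7c6c3_lc
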