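import Pool.Agent.Lib.MP_a7c6c3_lc.Rules2
import Pool.Agent.Lib.MP_a7c6c3_lc.Net

/-! Module `Lat1`: the rough modular lattice of aligned triples. -/

set_option autoImplicit false
open Finset

namespace Pool.Agent.Lib.MP_a7c6c3_lc

namespace PS

variable {Ω : Type} [Fintype Ω] (P : PS Ω)

theorem lat1_D_le (A : Nm Ω) {C Y : Nm Ω} (X : Nm Ω) (h : Y = X * C) : P.D A Y ≤ P.D A C := by
  rw [h]
  exact P.D_anti A X C

/-- Mutual information is bounded through upper bounds of the two names. -/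
theorem lat1_I_le (X Y G H S : Nm Ω) :
    P.I X Y S ≤ P.I G H S + P.D X (G * S) + P.D Y (H * S) := by
  have h1 := P.I_mono_right X Y H S
  have h2 := P.I_mono_right (Y * H) X G S
  have h3 := P.J_mono (X * Y) (G * H * S)
  simp only [PS.D, PS.I, mul_assoc, mul_comm, mul_left_comm] at *
  linarith

/-- Chain of upper bounds. -/
theorem lat1_chain (N A B S : Nm Ω) : P.D N (B * S) ≤ P.D A (B * S) + P.D N (A * S) := by
  have h1 := P.D_tri N A (B * S)
  have h2 := P.lat1_D_le N (C := A * S) (Y := A * (B * S)) B (by ac_rfl)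
  linarith

theorem lat1_I_meas {α β : Type} [DecidableEq α] [DecidableEq β] {f : Ω → α} {g : Ω → β}
    {X Y : Nm Ω} (hX : Meas f X) (hY : Meas g Y) (S : Nm Ω) :
    P.I X Y S ≤ P.I (det f) (det g) S := by
  have h1 := P.I_le_det hX Y S
  have h2 := P.I_le_det hY (det f) S
  rw [P.I_comm Y, P.I_comm (det g)] at h2
  linarith

theorem lat1_le_aux {α β : Type} [DecidableEq α] [DecidableEq β] {f : Ω → α} {g : Ω → β}
    {X Y W : Nm Ω} (hX : Meas f X) (hY : Meas g Y) (hW : Meas g W) (Z S : Nm Ω) :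
    P.I (det f) (Z * W) (X * S) ≤ P.I (det f) (det g) S + P.D Z (X * Y * S) := by
  have h1 := P.I_le_det hW (det f) (Z * (X * S))
  have h2 := P.I_cond_le_det (meas_det (Ref.rfl' f)) hX (det g) S
  have h3 := P.I_le_D Z (det f) (det g * (X * S))
  have h4 := P.D_det_le hY Z (X * S)
  simp only [PS.D, PS.I, mul_assoc, mul_comm, mul_left_comm] at *
  linarith

theorem lat1_rk_aux {α : Type} [DecidableEq α] {f : Ω → α} {X : Nm Ω} (hX : Meas f X)
    (Y Z W S : Nm Ω) :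
    P.D Z S + P.D W S ≤
      P.I (det f) (Z * W) S + P.I Z W S + P.D (Y * W) S + P.D Z (X * Y * S) := by
  have h1 := P.D_mono (Z * W) Y (det f * S)
  have h2 := P.D_anti (Y * W) (det f) S
  have h3 := P.D_det_le hX Z (Y * W * S)
  have h4 := P.lat1_D_le Z (C := X * Y * S) (Y := X * (Y * W * S)) W (by ac_rfl)
  simp only [PS.D, PS.I, mul_assoc, mul_comm, mul_left_comm] at *
  linarith

theorem lat1_ci_aux (A B K S : Nm Ω) :
    P.I A B (K * S) ≤ P.D K (A * S) + P.D K (B * S) + (P.I A B S - P.D K S) := by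
  have h1 := P.J_mono K (A * B * S)
  simp only [PS.D, PS.I, mul_assoc, mul_comm, mul_left_comm] at *
  linarith

theorem lat1_al_aux (A B K A' B' K' S : Nm Ω) :
    P.I (A * A') (B * B') (K * K' * S) ≤ P.I A B (K * S) + P.I A' B' (K' * S) +
      P.I (A * B * K) (A' * B' * K') S + P.I K K' S := by
  have h1 := P.J_submod (A * K) (A' * K') S
  have h2 := P.J_submod (B * K) (B' * K') S
  simp only [PS.I, mul_assoc, mul_comm, mul_left_comm] at *
  linarith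

theorem lat1_up (N A A' X S : Nm Ω) :
    P.D N (A' * (X * S)) ≤ P.D A (A' * S) + P.D N (A * S) := by
  have h1 := P.lat1_chain N A A' S
  have h2 := P.lat1_D_le N (C := A' * S) (Y := A' * (X * S)) X (by ac_rfl)
  linarith

/-- Each factor below the same name. -/
theorem lat1_prod_le {ι : Type} (s : Finset ι) (A : ι → Nm Ω) (C : Nm Ω) {x : ℝ}
    (h : ∀ i ∈ s, P.D (A i) C ≤ x) : P.D (∏ i ∈ s, A i) C ≤ s.card * x := by
  refine (P.D_prod_le s A C).trans ?_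
  have := Finset.sum_le_card_nsmul s (fun i => P.D (A i) C) x h
  rwa [nsmul_eq_mul] at this

/-- Factorwise comparison of two products. -/
theorem lat1_prod_prod {ι : Type} (s : Finset ι) (A B : ι → Nm Ω) (C : Nm Ω) {x : ℝ}
    (h : ∀ i ∈ s, P.D (A i) (B i * C) ≤ x) :
    P.D (∏ i ∈ s, A i) ((∏ i ∈ s, B i) * C) ≤ s.card * x := by
  classical
  refine P.lat1_prod_le s A _ fun i hi => (P.lat1_D_le (A i) (∏ j ∈ s.erase i, B j) ?_).trans (h i hi)
  rw [← Finset.mul_prod_erase s B hi]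
  ac_rfl

theorem lat1_split_eq (F : Nm Ω) (N g₀ g₁ : Nm Ω) :
    P.D (N * g₀) F + P.D (N * g₁) F - P.D N F - P.D g₀ F - P.D g₁ F =
      P.D N F - P.I N g₀ F - P.I N g₁ F := by
  simp only [PS.D, PS.I]
  ring

theorem lat1_four (A B A₀ B₀ A₁ B₁ g₀ g₁ S : Nm Ω) :
    P.D (A₀ * B₀) S + P.D (A₁ * B₁) S ≤ P.D (A * B) S +
      (P.D A₀ (A * S) + P.D A₁ (A * S) + P.D B₀ (B * S) + P.D B₁ (B * S)) + P.I g₀ g₁ S +
      (P.D A₀ (g₀ * S) + P.D B₀ (g₀ * S) + P.D A₁ (g₁ * S) + P.D B₁ (g₁ * S)) := by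
  have h1 := P.lat1_I_le (A₀ * B₀) (A₁ * B₁) g₀ g₁ S
  have h2 := P.D_mul_le A₀ B₀ (g₀ * S)
  have h3 := P.D_mul_le A₁ B₁ (g₁ * S)
  have h4 := P.D_tri (A₀ * B₀ * (A₁ * B₁)) (A * B) S
  have h5 := P.D_mul_le (A₀ * B₀) (A₁ * B₁) (A * B * S)
  have h6 := P.D_mul_le A₀ B₀ (A * B * S)
  have h7 := P.D_mul_le A₁ B₁ (A * B * S)
  have h8 := P.lat1_D_le A₀ (C := A * S) (Y := A * B * S) B (by ac_rfl)
  have h9 := P.lat1_D_le A₁ (C := A * S) (Y := A * B * S) B (by ac_rfl)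
  have h10 := P.lat1_D_le B₀ (C := B * S) (Y := A * B * S) A (by ac_rfl)
  have h11 := P.lat1_D_le B₁ (C := B * S) (Y := A * B * S) A (by ac_rfl)
  have h12 : P.D (A₀ * B₀) S + P.D (A₁ * B₁) S =
      P.D (A₀ * B₀ * (A₁ * B₁)) S + P.I (A₀ * B₀) (A₁ * B₁) S := by
    simp only [PS.D, PS.I]
    ring
  linarith

theorem lat1_two (A A₀ A₁ g₀ g₁ S : Nm Ω) :
    P.D A (A₀ * A₁ * S) ≤ P.D A S - P.D A₀ S - P.D A₁ S + (P.D A₀ (A * S) + P.D A₁ (A * S)) +
      P.I g₀ g₁ S + (P.D A₀ (g₀ * S) + P.D A₁ (g₁ * S)) := by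
  have h1 := P.lat1_I_le A₀ A₁ g₀ g₁ S
  have h2 := P.D_mul_le A₀ A₁ (A * S)
  simp only [PS.D, PS.I, mul_assoc, mul_comm, mul_left_comm] at *
  linarith

theorem lat1_pair (N N₀ N₁ g₀ g₁ S : Nm Ω) :
    P.D N₀ S + P.D N₁ S ≤ P.D N S + (P.D N₀ (N * S) + P.D N₁ (N * S)) + P.I g₀ g₁ S +
      (P.D N₀ (g₀ * S) + P.D N₁ (g₁ * S)) := by
  have h1 := P.lat1_two N N₀ N₁ g₀ g₁ S
  have h2 := P.D_nonneg N (N₀ * N₁ * S)
  linarith

theorem lat1_side (N N' g S : Nm Ω) :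
    P.D (N * g) S ≤ P.D g S + P.D N' S + P.D N (N' * (g * S)) := by
  have h1 := P.D_tri N N' (g * S)
  have h2 := P.D_anti N' g S
  have h3 := P.D_mul g N S
  rw [mul_comm g N] at h3
  linarith

end PS

theorem lat1_fin3 (u : Fin 3) : u + 1 + 1 = u + 2 ∧ u + 1 + 2 = u ∧ u + 2 + 1 = u ∧
    u + 2 + 2 = u + 1 ∧ u ≠ u + 1 ∧ u ≠ u + 2 ∧ u + 1 ≠ u + 2 := by
  revert u
  decide

theorem lat1_fin3' (u v : Fin 3) : v = u ∨ v = u + 1 ∨ v = u + 2 := by
  revert u v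
  decide

section

variable {Ω : Type} [Fintype Ω] {T : Type} [DecidableEq T] (P : PS Ω) (π : Fin 3 → Ω → T)
  (F : Ω → T)

/-- The meet of two triples. -/
noncomputable def meet (A B : Tri π) : Tri π where
  nm u := P.R (π u) (A.nm (u + 2) * B.nm (u + 1))
  meas u := P.meas_R _ _

/-- The join of a finite family of triples. -/
noncomputable def Tri.prod {ι : Type} (s : Finset ι) (A : ι → Tri π) : Tri π where
  nm u := ∏ i ∈ s, (A i).nm u
  meas u := meas_prod s _ fun i _ => (A i).meas u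

/-- The join of two triples. -/
def Tri.mul (A B : Tri π) : Tri π where
  nm u := A.nm u * B.nm u
  meas u := (A.meas u).mul (B.meas u)

/-- The top triple. -/
def topT : Tri π where
  nm u := det (π u)
  meas u := meas_det (Ref.rfl' _)

/-- `K` is a meet of `A` and `B` up to `β`. -/
structure IsMeet (A B K : Tri π) (β : ℝ) : Prop where
  al : Al P π F K β
  le1 : ∀ u, P.D (K.nm u) (A.nm u * det F) ≤ β
  le2 : ∀ u, P.D (K.nm u) (B.nm u * det F) ≤ β
  ci : ∀ u, P.I (A.nm u) (B.nm u) (K.nm u * det F) ≤ β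
  rk : ∀ u, P.I (A.nm u) (B.nm u) (det F) ≤ P.D (K.nm u) (det F) + β

variable {P π F}

theorem Al.mono {A : Tri π} {β β' : ℝ} (h : Al P π F A β) (h' : β ≤ β') : Al P π F A β' :=
  fun u => (h u).trans h'

theorem al_top {t e : ℝ} (h : Net P π F t e) : Al P π F (topT π) e := by
  intro u
  refine (P.lat1_D_le _ (det F) ?_).trans (h.dtm u)
  simp only [topT]
  ac_rfl

theorem Al.mul {A B : Tri π} {β β' : ℝ} (hA : Al P π F A β) (hB : Al P π F B β') :
    Al P π F (Tri.mul π A B) (β + β') := by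
  intro u
  simp only [Tri.mul]
  refine (P.D_mul_le _ _ _).trans (add_le_add ?_ ?_)
  · exact (P.lat1_D_le _ (B.nm (u + 1) * B.nm (u + 2)) (by ac_rfl)).trans (hA u)
  · exact (P.lat1_D_le _ (A.nm (u + 1) * A.nm (u + 2)) (by ac_rfl)).trans (hB u)

theorem al_prod {ι : Type} (s : Finset ι) (A : ι → Tri π) {β : ℝ}
    (h : ∀ i ∈ s, Al P π F (A i) β) : Al P π F (Tri.prod π s A) (s.card * β) := by
  intro u
  simp only [Tri.prod]
  rw [← Finset.prod_mul_distrib]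
  exact P.lat1_prod_prod s _ _ _ fun i hi => h i hi u

theorem Net.lat1_ind {t e : ℝ} (h : Net P π F t e) {u v : Fin 3} (huv : u ≠ v) {X Y : Nm Ω}
    (hX : Meas (π u) X) (hY : Meas (π v) Y) : P.I X Y (det F) ≤ e :=
  (P.lat1_I_meas hX hY _).trans (h.ind u v huv)

theorem Al.lat1_nonneg {A : Tri π} {β : ℝ} (h : Al P π F A β) : 0 ≤ β :=
  (P.D_nonneg _ _).trans (h 0)

theorem Al.lat1_one {A : Tri π} {β : ℝ} (h : Al P π F A β) (u : Fin 3) :
    P.D (A.nm (u + 1)) (A.nm u * A.nm (u + 2) * det F) ≤ β := by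
  have h1 := h (u + 1)
  obtain ⟨e1, e2, -⟩ := lat1_fin3 u
  rw [e1, e2, mul_comm (A.nm (u + 2))] at h1
  exact h1

theorem Al.lat1_two {A : Tri π} {β : ℝ} (h : Al P π F A β) (u : Fin 3) :
    P.D (A.nm (u + 2)) (A.nm u * A.nm (u + 1) * det F) ≤ β := by
  have h1 := h (u + 2)
  obtain ⟨-, -, e3, e4, -⟩ := lat1_fin3 u
  rw [e3, e4] at h1
  exact h1

/-- The three names of an aligned triple have the same rank. -/
theorem rank_role {t e β : ℝ} (h : Net P π F t e) {A : Tri π} (hA : Al P π F A β) (u v : Fin 3) :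
    P.D (A.nm u) (det F) ≤ P.D (A.nm v) (det F) + β + e := by
  have hβ := hA.lat1_nonneg
  have he := h.e_nonneg
  obtain ⟨-, -, -, -, n1, n2, -⟩ := lat1_fin3 u
  have h0 := hA u
  rcases lat1_fin3' u v with rfl | rfl | rfl
  · linarith
  · have h1 := h.lat1_ind n2 (A.meas u) (A.meas (u + 2))
    rw [P.I_eq] at h1
    have h2 := P.D_tri (A.nm u) (A.nm (u + 1)) (A.nm (u + 2) * det F)
    have h3 := P.D_anti (A.nm (u + 1)) (A.nm (u + 2)) (det F)
    rw [← mul_assoc] at h2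
    linarith
  · have h1 := h.lat1_ind n1 (A.meas u) (A.meas (u + 1))
    rw [P.I_eq] at h1
    have h2 := P.D_tri (A.nm u) (A.nm (u + 2)) (A.nm (u + 1) * det F)
    have h3 := P.D_anti (A.nm (u + 2)) (A.nm (u + 1)) (det F)
    rw [← mul_assoc, mul_comm (A.nm (u + 2))] at h2
    linarith

theorem lat1_le1 {t e β : ℝ} (h : Net P π F t e) {A : Tri π} (hA : Al P π F A β) (B : Tri π)
    (u : Fin 3) : P.D ((meet P π A B).nm u) (A.nm u * det F) ≤ e + β := by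
  obtain ⟨-, -, -, -, n1, -⟩ := lat1_fin3 u
  simp only [meet]
  rw [P.D_R _ _ ((A.meas u).mul (meas_det (h.ref u)))]
  have h1 := P.lat1_le_aux (A.meas u) (A.meas (u + 1)) (B.meas (u + 1)) (A.nm (u + 2)) (det F)
  have h2 := h.ind u (u + 1) n1
  have h3 := hA.lat1_two u
  linarith

theorem lat1_le2 {t e β : ℝ} (h : Net P π F t e) (A : Tri π) {B : Tri π} (hB : Al P π F B β)
    (u : Fin 3) : P.D ((meet P π A B).nm u) (B.nm u * det F) ≤ e + β := by
  obtain ⟨-, -, -, -, -, n2, -⟩ := lat1_fin3 u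
  simp only [meet]
  rw [P.D_R _ _ ((B.meas u).mul (meas_det (h.ref u))), mul_comm (A.nm (u + 2))]
  have h1 := P.lat1_le_aux (B.meas u) (B.meas (u + 2)) (A.meas (u + 2)) (B.nm (u + 1)) (det F)
  have h2 := h.ind u (u + 2) n2
  have h3 := hB.lat1_one u
  linarith

theorem lat1_rk {t e β : ℝ} (h : Net P π F t e) {A B : Tri π} (hA : Al P π F A β)
    (hB : Al P π F B β) (u : Fin 3) :
    P.I (A.nm u) (B.nm u) (det F) ≤ P.D ((meet P π A B).nm u) (det F) + (4 * e + 5 * β) := by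
  obtain ⟨-, -, -, -, -, -, n3⟩ := lat1_fin3 u
  simp only [meet]
  rw [P.D_R _ _ (meas_det (h.ref u))]
  have h1 := P.lat1_rk_aux (A.meas u) (A.nm (u + 1)) (A.nm (u + 2)) (B.nm (u + 1)) (det F)
  have h2 := h.lat1_ind n3.symm (A.meas (u + 2)) (B.meas (u + 1))
  have h3 := hA.lat1_two u
  have h4 := rank_role h hA u (u + 2)
  have h5 := rank_role h hB u (u + 1)
  have h6 := rank_role h (hA.mul hB) (u + 1) u
  simp only [Tri.mul] at h6
  have h7 : P.I (A.nm u) (B.nm u) (det F) = P.D (A.nm u) (det F) + P.D (B.nm u) (det F) -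
      P.D (A.nm u * B.nm u) (det F) := by
    simp only [PS.D, PS.I]
    ring
  linarith

theorem lat1_ci {t e β : ℝ} (h : Net P π F t e) {A B : Tri π} (hA : Al P π F A β)
    (hB : Al P π F B β) (u : Fin 3) :
    P.I (A.nm u) (B.nm u) ((meet P π A B).nm u * det F) ≤ 6 * e + 7 * β := by
  have h1 := P.lat1_ci_aux (A.nm u) (B.nm u) ((meet P π A B).nm u) (det F)
  have h2 := lat1_le1 h hA B u
  have h3 := lat1_le2 h A hB u
  have h4 := lat1_rk h hA hB u
  linarith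

theorem lat1_al {t e β : ℝ} (h : Net P π F t e) {A B : Tri π} (hA : Al P π F A β)
    (hB : Al P π F B β) : Al P π F (meet P π A B) (16 * e + 18 * β) := by
  intro u
  obtain ⟨-, -, -, -, -, -, n3⟩ := lat1_fin3 u
  set K := meet P π A B with hK
  have h1 := P.D_star (K.nm u) (A.nm (u + 1) * A.nm (u + 2)) (B.nm (u + 1) * B.nm (u + 2))
    (K.nm (u + 1) * K.nm (u + 2) * det F)
  have h2 := P.lat1_up (K.nm u) (A.nm u) (A.nm (u + 1) * A.nm (u + 2))
    (K.nm (u + 1) * K.nm (u + 2)) (det F)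
  have h3 := P.lat1_up (K.nm u) (B.nm u) (B.nm (u + 1) * B.nm (u + 2))
    (K.nm (u + 1) * K.nm (u + 2)) (det F)
  have h4 := P.lat1_al_aux (A.nm (u + 1)) (B.nm (u + 1)) (K.nm (u + 1))
    (A.nm (u + 2)) (B.nm (u + 2)) (K.nm (u + 2)) (det F)
  have h5 := h.lat1_ind n3 (((A.meas (u + 1)).mul (B.meas (u + 1))).mul (K.meas (u + 1)))
    (((A.meas (u + 2)).mul (B.meas (u + 2))).mul (K.meas (u + 2)))
  have h6 := h.lat1_ind n3 (K.meas (u + 1)) (K.meas (u + 2))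
  have h7 := lat1_ci h hA hB (u + 1)
  have h8 := lat1_ci h hA hB (u + 2)
  have h9 := lat1_le1 h hA B u
  have h10 := lat1_le2 h A hB u
  have h11 := hA u
  have h12 := hB u
  rw [← hK] at h7 h8 h9 h10
  linarith

theorem lat1_meet {t e β : ℝ} (h : Net P π F t e) (he : e ≤ β) {A B : Tri π}
    (hA : Al P π F A β) (hB : Al P π F B β) : IsMeet P π F A B (meet P π A B) (34 * β) := by
  have hβ := hA.lat1_nonneg
  refine ⟨(lat1_al h hA hB).mono (by linarith), fun u => ?_, fun u => ?_, fun u => ?_,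
    fun u => ?_⟩
  · have := lat1_le1 h hA B u
    linarith
  · have := lat1_le2 h A hB u
    linarith
  · have := lat1_ci h hA hB u
    linarith
  · have := lat1_rk h hA hB u
    linarith

theorem lat1_Split_eq (N g₀ g₁ : Nm Ω) : Split P F N g₀ g₁ =
    P.D N (det F) - P.I N g₀ (det F) - P.I N g₁ (det F) :=
  P.lat1_split_eq (det F) N g₀ g₁

/-- The part of a meet that lies below `g`. -/
theorem lat1_part {A B K g A' B' E : Tri π} {x y : ℝ} (hK : IsMeet P π F A B K x)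
    (hA : IsMeet P π F A g A' x) (hB : IsMeet P π F B g B' x) (hE : IsMeet P π F A' B' E y) :
    P.I (A.nm 0) (g.nm 0) (det F) + P.I (B.nm 0) (g.nm 0) (det F) ≤
      P.I (K.nm 0) (g.nm 0) (det F) + P.D (A'.nm 0 * B'.nm 0) (det F) + (6 * x + 4 * y) := by
  have h1 := P.D_star (E.nm 0) (K.nm 0) (g.nm 0) (det F)
  have h2 := P.lat1_chain (E.nm 0) (A'.nm 0) (g.nm 0) (det F)
  have h3 := P.D_star (E.nm 0) (A.nm 0) (B.nm 0) (K.nm 0 * det F)
  have h4 := P.lat1_up (E.nm 0) (A'.nm 0) (A.nm 0) (K.nm 0) (det F)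
  have h5 := P.lat1_up (E.nm 0) (B'.nm 0) (B.nm 0) (K.nm 0) (det F)
  have h6 := hK.ci 0
  have h7 := hA.le1 0
  have h8 := hA.le2 0
  have h9 := hA.rk 0
  have h10 := hB.le1 0
  have h11 := hB.rk 0
  have h12 := hE.le1 0
  have h13 := hE.le2 0
  have h14 := hE.rk 0
  have h15 : P.I (A'.nm 0) (B'.nm 0) (det F) = P.D (A'.nm 0) (det F) + P.D (B'.nm 0) (det F) -
      P.D (A'.nm 0 * B'.nm 0) (det F) := by
    simp only [PS.D, PS.I]
    ring
  linarith

end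

theorem meet_spec : ∃ C : ℝ, 1 ≤ C ∧ ∀ {Ω : Type} [Fintype Ω] {T : Type} [DecidableEq T]
    (P : PS Ω) (π : Fin 3 → Ω → T) (F : Ω → T) (t e β : ℝ) (A B : Tri π), Net P π F t e → e ≤ β →
    Al P π F A β → Al P π F B β → IsMeet P π F A B (meet P π A B) (C * β) :=
  ⟨34, by norm_num, fun _ _ _ _ _ _ _ _ h he hA hB => lat1_meet h he hA hB⟩

/-- Splitting passes to meets. -/
theorem split_meet : ∃ C : ℝ, 1 ≤ C ∧ ∀ {Ω : Type} [Fintype Ω] {T : Type} [DecidableEq T]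
    (P : PS Ω) (π : Fin 3 → Ω → T) (F : Ω → T) (t e β : ℝ) (A B g₀ g₁ : Tri π),
    Net P π F t e → e ≤ β → Al P π F A β → Al P π F B β → Al P π F g₀ β → Al P π F g₁ β →
    P.I (g₀.nm 0) (g₁.nm 0) (det F) ≤ β →
    Split P F (A.nm 0) (g₀.nm 0) (g₁.nm 0) ≤ β → Split P F (B.nm 0) (g₀.nm 0) (g₁.nm 0) ≤ β →
    Split P F ((meet P π A B).nm 0) (g₀.nm 0) (g₁.nm 0) ≤ C * β := by
  refine ⟨10000, by norm_num, ?_⟩
  intro Ω _ T _ P π F t e β A B g₀ g₁ h he hA hB h₀ h₁ hI sA sB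
  have hβ := hA.lat1_nonneg
  have he' : e ≤ 34 * β := by linarith
  have mK := lat1_meet h he hA hB
  have mA₀ := lat1_meet h he hA h₀
  have mA₁ := lat1_meet h he hA h₁
  have mB₀ := lat1_meet h he hB h₀
  have mB₁ := lat1_meet h he hB h₁
  have mE₀ := lat1_meet h he' mA₀.al mB₀.al
  have mE₁ := lat1_meet h he' mA₁.al mB₁.al
  have p₀ := lat1_part mK mA₀ mB₀ mE₀
  have p₁ := lat1_part mK mA₁ mB₁ mE₁
  have q := P.lat1_four (A.nm 0) (B.nm 0) ((meet P π A g₀).nm 0) ((meet P π B g₀).nm 0)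
    ((meet P π A g₁).nm 0) ((meet P π B g₁).nm 0) (g₀.nm 0) (g₁.nm 0) (det F)
  have k := P.D_star ((meet P π A B).nm 0) (A.nm 0) (B.nm 0) (det F)
  have k1 := mK.le1 0
  have k2 := mK.le2 0
  have a1 := mA₀.le1 0
  have a2 := mA₀.le2 0
  have a3 := mA₁.le1 0
  have a4 := mA₁.le2 0
  have b1 := mB₀.le1 0
  have b2 := mB₀.le2 0
  have b3 := mB₁.le1 0
  have b4 := mB₁.le2 0
  have hAB : P.I (A.nm 0) (B.nm 0) (det F) = P.D (A.nm 0) (det F) + P.D (B.nm 0) (det F) -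
      P.D (A.nm 0 * B.nm 0) (det F) := by
    simp only [PS.D, PS.I]
    ring
  rw [lat1_Split_eq] at sA sB ⊢
  linarith

/-- Splitting passes to joins. -/
theorem split_prod : ∃ C : ℝ, 1 ≤ C ∧ ∀ {Ω : Type} [Fintype Ω] {T : Type} [DecidableEq T]
    (P : PS Ω) (π : Fin 3 → Ω → T) (F : Ω → T) (t e β : ℝ) {ι : Type} (s : Finset ι)
    (A : ι → Tri π) (g₀ g₁ : Tri π),
    Net P π F t e → e ≤ β → Al P π F g₀ β → Al P π F g₁ β →
    P.I (g₀.nm 0) (g₁.nm 0) (det F) ≤ β →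
    (∀ i ∈ s, Al P π F (A i) β ∧ Split P F ((A i).nm 0) (g₀.nm 0) (g₁.nm 0) ≤ β) →
    Split P F (∏ i ∈ s, (A i).nm 0) (g₀.nm 0) (g₁.nm 0) ≤ C * (s.card + 1) * β := by
  refine ⟨616, by norm_num, ?_⟩
  intro Ω _ T _ P π F t e β ι s A g₀ g₁ h he h₀ h₁ hI hA
  have hβ := h₀.lat1_nonneg
  have m₀ := fun i hi => lat1_meet h he (hA i hi).1 h₀
  have m₁ := fun i hi => lat1_meet h he (hA i hi).1 h₁
  have hδ : ∀ i ∈ s, P.D ((A i).nm 0)
      ((meet P π (A i) g₀).nm 0 * (meet P π (A i) g₁).nm 0 * det F) ≤ 206 * β := by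
    intro i hi
    have h1 := P.lat1_two ((A i).nm 0) ((meet P π (A i) g₀).nm 0) ((meet P π (A i) g₁).nm 0)
      (g₀.nm 0) (g₁.nm 0) (det F)
    have h2 := (hA i hi).2
    rw [lat1_Split_eq] at h2
    have a1 := (m₀ i hi).le1 0
    have a2 := (m₀ i hi).le2 0
    have a3 := (m₀ i hi).rk 0
    have b1 := (m₁ i hi).le1 0
    have b2 := (m₁ i hi).le2 0
    have b3 := (m₁ i hi).rk 0
    linarith
  have s₀ := P.lat1_side (∏ i ∈ s, (A i).nm 0) (∏ i ∈ s, (meet P π (A i) g₁).nm 0) (g₀.nm 0)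
    (det F)
  have s₁ := P.lat1_side (∏ i ∈ s, (A i).nm 0) (∏ i ∈ s, (meet P π (A i) g₀).nm 0) (g₁.nm 0)
    (det F)
  have t₀ := P.lat1_prod_prod s (fun i => (A i).nm 0) (fun i => (meet P π (A i) g₁).nm 0)
    (g₀.nm 0 * det F) (x := 240 * β) fun i hi => by
      have h1 := P.D_tri ((A i).nm 0) ((meet P π (A i) g₀).nm 0)
        ((meet P π (A i) g₁).nm 0 * (g₀.nm 0 * det F))
      have h2 := P.D_anti ((meet P π (A i) g₀).nm 0) ((meet P π (A i) g₁).nm 0)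
        (g₀.nm 0 * det F)
      have h3 := P.lat1_D_le ((A i).nm 0)
        (C := (meet P π (A i) g₀).nm 0 * (meet P π (A i) g₁).nm 0 * det F)
        (Y := (meet P π (A i) g₀).nm 0 * ((meet P π (A i) g₁).nm 0 * (g₀.nm 0 * det F)))
        (g₀.nm 0) (by ac_rfl)
      have h4 := hδ i hi
      have h5 := (m₀ i hi).le2 0
      linarith
  have t₁ := P.lat1_prod_prod s (fun i => (A i).nm 0) (fun i => (meet P π (A i) g₀).nm 0)
    (g₁.nm 0 * det F) (x := 240 * β) fun i hi => by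
      have h1 := P.D_tri ((A i).nm 0) ((meet P π (A i) g₁).nm 0)
        ((meet P π (A i) g₀).nm 0 * (g₁.nm 0 * det F))
      have h2 := P.D_anti ((meet P π (A i) g₁).nm 0) ((meet P π (A i) g₀).nm 0)
        (g₁.nm 0 * det F)
      have h3 := P.lat1_D_le ((A i).nm 0)
        (C := (meet P π (A i) g₀).nm 0 * (meet P π (A i) g₁).nm 0 * det F)
        (Y := (meet P π (A i) g₁).nm 0 * ((meet P π (A i) g₀).nm 0 * (g₁.nm 0 * det F)))
        (g₁.nm 0) (by ac_rfl)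
      have h4 := hδ i hi
      have h5 := (m₁ i hi).le2 0
      linarith
  have p := P.lat1_pair (∏ i ∈ s, (A i).nm 0) (∏ i ∈ s, (meet P π (A i) g₀).nm 0)
    (∏ i ∈ s, (meet P π (A i) g₁).nm 0) (g₀.nm 0) (g₁.nm 0) (det F)
  have u₀ := P.lat1_prod_prod s (fun i => (meet P π (A i) g₀).nm 0) (fun i => (A i).nm 0)
    (det F) fun i hi => (m₀ i hi).le1 0
  have u₁ := P.lat1_prod_prod s (fun i => (meet P π (A i) g₁).nm 0) (fun i => (A i).nm 0)
    (det F) fun i hi => (m₁ i hi).le1 0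
  have v₀ := P.lat1_prod_le s (fun i => (meet P π (A i) g₀).nm 0) (g₀.nm 0 * det F)
    fun i hi => (m₀ i hi).le2 0
  have v₁ := P.lat1_prod_le s (fun i => (meet P π (A i) g₁).nm 0) (g₁.nm 0 * det F)
    fun i hi => (m₁ i hi).le2 0
  simp only [Split]
  have hc : (616 : ℝ) * (s.card + 1) * β = 616 * (s.card * β) + 616 * β := by ring
  have c1 : (s.card : ℝ) * (240 * β) = 240 * (s.card * β) := by ring
  have c2 : (s.card : ℝ) * (34 * β) = 34 * (s.card * β) := by ring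
  rw [c1] at t₀ t₁
  rw [c2] at u₀ u₁ v₀ v₁
  rw [hc]
  linarith

end Pool.Agent.Lib.MP_a7c6c3_lc
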