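import Pool.Agent.Lib.MP_a7c6c3_lc.Lat1

/-! Module `Lat2`: balanced trees of meets, cells of a family of bits. -/

set_option autoImplicit false
open Finset

namespace Pool.Agent.Lib.MP_a7c6c3_lc

/-- The meet of `2 ^ h` triples along a balanced binary tree. -/
noncomputable def tree {Ω : Type} [Fintype Ω] {T : Type} [DecidableEq T] (P : PS Ω)
    (π : Fin 3 → Ω → T) : (h : ℕ) → ((Fin h → Bool) → Tri π) → Tri π
  | 0, lf => lf fun i => i.elim0
  | h + 1, lf => meet P π (tree P π h fun l => lf (Fin.cons false l))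
      (tree P π h fun l => lf (Fin.cons true l))

/-- Triangle inequality over a common frame. -/
theorem l2_D_via {Ω : Type} [Fintype Ω] (P : PS Ω) (A B C S : Nm Ω) :
    P.D A (C * S) ≤ P.D A (B * S) + P.D B (C * S) := by
  have h1 := P.D_tri A B (C * S)
  have h2 := P.D_anti A C (B * S)
  rw [mul_left_comm] at h2
  linarith

theorem l2_I_via {Ω : Type} [Fintype Ω] (P : PS Ω) (X Y g₀ g₁ S : Nm Ω) :
    P.I X Y S ≤ P.I g₀ g₁ S + P.D X (g₀ * S) + P.D Y (g₁ * S) := by
  have h1 := P.I_mono_right X Y g₁ S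
  have h2 := P.I_mul X g₁ Y S
  have h3 := P.I_le_D Y X (g₁ * S)
  have h4 := P.I_mono_right g₁ X g₀ S
  have h5 := P.I_mul g₁ g₀ X S
  have h6 := P.I_le_D X g₁ (g₀ * S)
  rw [mul_comm] at h1 h4
  rw [P.I_comm] at h3 h6
  linarith [P.I_comm X g₁ S, P.I_comm g₀ g₁ S]

theorem tree_spec : ∃ C : ℝ, 1 ≤ C ∧ ∀ {Ω : Type} [Fintype Ω] {T : Type} [DecidableEq T]
    (P : PS Ω) (π : Fin 3 → Ω → T) (F : Ω → T) (t e β : ℝ), Net P π F t e → e ≤ β →
    ∀ (h : ℕ) (lf : (Fin h → Bool) → Tri π), (∀ l, Al P π F (lf l) β) →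
      Al P π F (tree P π h lf) (C ^ h * β) ∧
      (∀ l, P.D ((tree P π h lf).nm 0) ((lf l).nm 0 * det F) ≤ C ^ h * β +
        P.D ((lf l).nm 0) ((lf l).nm 0 * det F)) ∧
      (∀ N : Nm Ω, P.D N ((tree P π h lf).nm 0 * det F) ≤
        ∑ l, P.D N ((lf l).nm 0 * det F) + C ^ h * β) ∧
      ∀ g₀ g₁ : Tri π, Al P π F g₀ β → Al P π F g₁ β → P.I (g₀.nm 0) (g₁.nm 0) (det F) ≤ β →
        (∀ l, Split P F ((lf l).nm 0) (g₀.nm 0) (g₁.nm 0) ≤ β) →
        Split P F ((tree P π h lf).nm 0) (g₀.nm 0) (g₁.nm 0) ≤ C ^ h * β := by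
  obtain ⟨C₀, c0, hm⟩ := meet_spec
  obtain ⟨C₁, c1, hs⟩ := split_meet
  refine ⟨C₀ + C₁ + 2, by linarith, ?_⟩
  intro Ω _ T _ P π F t e β hN he h
  have b0 : 0 ≤ β := hN.e_nonneg.trans he
  induction h with
  | zero =>
    intro lf hal
    have e1 : ∀ l, tree P π 0 lf = lf l := fun l => congrArg lf (Subsingleton.elim _ _)
    rw [pow_zero, one_mul]
    refine ⟨hal _, fun l => ?_, fun N => ?_, fun g₀ g₁ _ _ _ k => k _⟩
    · rw [e1 l]; linarith
    · rw [Fintype.sum_subsingleton _ fun i => i.elim0]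
      exact le_add_of_nonneg_right b0
  | succ h ih =>
    intro lf hal
    obtain ⟨a1, a2, a3, a4⟩ := ih (fun l => lf (Fin.cons false l)) fun l => hal _
    obtain ⟨b1, b2, b3, b4⟩ := ih (fun l => lf (Fin.cons true l)) fun l => hal _
    have e1 : tree P π (h + 1) lf = meet P π (tree P π h fun l => lf (Fin.cons false l))
      (tree P π h fun l => lf (Fin.cons true l)) := rfl
    rw [e1]
    generalize tree P π h (fun l => lf (Fin.cons false l)) = A at *
    generalize tree P π h (fun l => lf (Fin.cons true l)) = B at *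
    have h1 : β ≤ (C₀ + C₁ + 2) ^ h * β :=
      le_mul_of_one_le_left b0 (one_le_pow₀ (by linarith))
    have e2 : (C₀ + C₁ + 2) ^ (h + 1) * β = C₀ * ((C₀ + C₁ + 2) ^ h * β) +
        C₁ * ((C₀ + C₁ + 2) ^ h * β) + 2 * ((C₀ + C₁ + 2) ^ h * β) := by ring
    rw [e2]
    generalize (C₀ + C₁ + 2) ^ h * β = β' at *
    have b0' : 0 ≤ β' := b0.trans h1
    have p0 : 0 ≤ C₀ * β' := by positivity
    have p1 : 0 ≤ C₁ * β' := by positivity
    have M := hm P π F t e β' A B hN (he.trans h1) a1 b1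
    refine ⟨M.al.mono (by linarith), fun l => ?_, fun N => ?_, fun g₀ g₁ k0 k1 k2 k3 => ?_⟩
    · rw [← Fin.cons_self_tail l]
      cases l 0
      · have := l2_D_via P ((meet P π A B).nm 0) (A.nm 0)
          ((lf (Fin.cons false (Fin.tail l))).nm 0) (det F)
        linarith [M.le1 0, a2 (Fin.tail l)]
      · have := l2_D_via P ((meet P π A B).nm 0) (B.nm 0)
          ((lf (Fin.cons true (Fin.tail l))).nm 0) (det F)
        linarith [M.le2 0, b2 (Fin.tail l)]
    · rw [← (Fin.consEquiv fun _ : Fin (h + 1) => Bool).sum_comp, Fintype.sum_prod_type,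
        Fintype.sum_bool]
      have h2 := P.D_star N (A.nm 0) (B.nm 0) ((meet P π A B).nm 0 * det F)
      have h3 := P.D_anti N ((meet P π A B).nm 0) (A.nm 0 * det F)
      have h4 := P.D_anti N ((meet P π A B).nm 0) (B.nm 0 * det F)
      rw [mul_left_comm] at h3 h4
      have h5 := a3 N
      have h6 := b3 N
      simp only [Fin.consEquiv, Equiv.coe_fn_mk]
      linarith [M.ci 0]
    · have := hs P π F t e β' A B g₀ g₁ hN (he.trans h1) a1 b1 (k0.mono h1) (k1.mono h1)
        (k2.trans h1) (a4 g₀ g₁ k0 k1 k2 fun l => k3 _) (b4 g₀ g₁ k0 k1 k2 fun l => k3 _)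
      linarith

/-- An aligned triple is self-consistent. -/
theorem sd_of_al {Ω : Type} [Fintype Ω] {T : Type} [DecidableEq T] {P : PS Ω}
    {π : Fin 3 → Ω → T} {F : Ω → T} {t e β : ℝ} (h : Net P π F t e) {A : Tri π}
    (hA : Al P π F A β) (u : Fin 3) : P.D (A.nm u) (A.nm u * det F) ≤ 2 * β + e := by
  have e1 : u + 2 + 1 = u := by fin_cases u <;> rfl
  have e2 : u + 2 + 2 = u + 1 := by fin_cases u <;> rfl
  have ne : u + 1 ≠ u := by fin_cases u <;> decide
  have h1 := P.I_cond_le_det (A.meas u) (A.meas u) (A.nm (u + 1)) (det F)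
  have h2 := P.I_le_det (A.meas (u + 1)) (det (π u)) (det F)
  have h3 := h.ind _ _ ne
  have h4 := P.I_eq (A.nm u) (A.nm (u + 1)) (A.nm u * det F)
  have h5 := P.D_tri (A.nm u) (A.nm (u + 2)) (A.nm (u + 1) * (A.nm u * det F))
  have h6 := hA (u + 2)
  have h7 := hA u
  have h8 := P.D_anti (A.nm u) (A.nm u) (A.nm (u + 1) * A.nm (u + 2) * det F)
  rw [e1, e2] at h6
  rw [P.I_comm] at h2
  have e3 : A.nm (u + 1) * (A.nm u * det F) = A.nm u * A.nm (u + 1) * det F := by ac_rfl
  have e4 : A.nm (u + 2) * (A.nm (u + 1) * (A.nm u * det F)) =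
    A.nm u * (A.nm (u + 1) * A.nm (u + 2) * det F) := by ac_rfl
  rw [e4] at h5
  rw [e3] at h4 h5
  linarith

/-- Names below complementary pairs are almost independent. -/
theorem l2_indep_cells {Ω Λ : Type} [Fintype Ω] [DecidableEq Λ] (P : PS Ω) (ρ : (Λ → Bool) → Nm Ω)
    (γ : Λ → Bool → Nm Ω) (S : Nm Ω) {δ : ℝ} (δ0 : 0 ≤ δ)
    (h1 : ∀ a l, P.D (ρ a) (γ l (a l) * S) ≤ 4 * δ) (h2 : ∀ l, P.I (γ l false) (γ l true) S ≤ δ)
    (D : Finset Λ) : ∀ U : Finset (Λ → Bool), (∀ a ∈ U, ∀ b ∈ U, ∀ l, l ∉ D → a l = b l) →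
      ∑ a ∈ U, P.D (ρ a) S ≤ P.D (∏ a ∈ U, ρ a) S + 5 * D.card * U.card * δ := by
  classical
  induction D using Finset.induction_on with
  | empty =>
    intro U hU
    rcases U.eq_empty_or_nonempty with rfl | ⟨a, ha⟩
    · simpa using P.D_nonneg 1 S
    · have : U = {a} := eq_singleton_iff_unique_mem.2
        ⟨ha, fun b hb => funext fun l => hU b hb a ha l (notMem_empty l)⟩
      simp [this]
  | insert l D hl ih =>
    intro U hU
    rcases U.eq_empty_or_nonempty with rfl | hne
    · simpa using P.D_nonneg 1 S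
    have key : ∀ p : (Λ → Bool) → Prop, ∀ c : Bool, (∀ a, p a → a l = c) → ∀ [DecidablePred p],
        ∑ a ∈ U.filter p, P.D (ρ a) S ≤ P.D (∏ a ∈ U.filter p, ρ a) S +
          5 * D.card * (U.filter p).card * δ ∧
        P.D (∏ a ∈ U.filter p, ρ a) (γ l c * S) ≤ (U.filter p).card * (4 * δ) := by
      intro p c hp _
      refine ⟨ih _ fun a ha b hb l' hl' => ?_, (P.D_prod_le _ _ _).trans ?_⟩
      · rw [mem_filter] at ha hb
        by_cases e : l' = l
        · rw [e, hp a ha.2, hp b hb.2]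
        · exact hU a ha.1 b hb.1 l' (by simp [e, hl'])
      · rw [← nsmul_eq_mul]
        refine sum_le_card_nsmul _ _ _ fun a ha => ?_
        rw [← hp a (mem_filter.1 ha).2]
        exact h1 a l
    obtain ⟨k1, k2⟩ := key (fun a => a l = false) false fun _ h => h
    obtain ⟨k3, k4⟩ := key (fun a => ¬ a l = false) true fun _ h => by simpa using h
    have e1 := sum_filter_add_sum_filter_not U (fun a => a l = false) fun a => P.D (ρ a) S
    have e2 := prod_filter_mul_prod_filter_not U (fun a => a l = false) ρ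
    have e3 : ((U.filter fun a => a l = false).card : ℝ) +
        (U.filter fun a => ¬ a l = false).card = U.card := by
      exact_mod_cast card_filter_add_card_filter_not (s := U) fun a => a l = false
    have e4 : (1 : ℝ) ≤ U.card := by exact_mod_cast hne.card_pos
    have k5 := l2_I_via P (∏ a ∈ U.filter fun a => a l = false, ρ a)
      (∏ a ∈ U.filter fun a => ¬ a l = false, ρ a) (γ l false) (γ l true) S
    have k6 := h2 l
    rw [← e1, ← e2, card_insert_of_notMem hl, ← e3]
    rw [← e3] at e4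
    have k7 := mul_le_mul_of_nonneg_right e4 δ0
    simp only [PS.I, PS.D] at *
    push_cast
    linarith

/-- Halving along the coordinates. -/
theorem l2_halve_cells {Λ : Type} [Fintype Λ] [DecidableEq Λ] (q : Finset Λ → (Λ → Bool) → ℝ)
    {E : ℝ} (E0 : 0 ≤ E) (h : ∀ D l, l ∉ D → ∀ a, q D a ≤ q (insert l D) a +
      q (insert l D) (Function.update a l (!a l)) + E) (D : Finset Λ) :
    ∑ a, q ∅ a ≤ 2 ^ D.card * (∑ a, q D a + Fintype.card (Λ → Bool) * E) := by
  induction D using Finset.induction_on with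
  | empty =>
    have : 0 ≤ (Fintype.card (Λ → Bool) : ℝ) * E := by positivity
    simpa using this
  | insert l D hl ih =>
    have inv : Function.Involutive fun a : Λ → Bool => Function.update a l (!a l) := by
      intro a
      simp
    have e1 := Equiv.sum_comp inv.toPerm (q (insert l D))
    have h1 := sum_le_sum fun a (_ : a ∈ univ) => h D l hl a
    rw [sum_add_distrib, sum_add_distrib, sum_const, card_univ, nsmul_eq_mul] at h1
    simp only [Function.Involutive.coe_toPerm] at e1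
    rw [e1] at h1
    rw [card_insert_of_notMem hl, pow_succ, mul_assoc]
    refine ih.trans (mul_le_mul_of_nonneg_left (by linarith) (by positivity))

theorem l2_split_top {Ω : Type} [Fintype Ω] {T : Type} [DecidableEq T] (P : PS Ω) {f F : Ω → T}
    {g₀ g₁ : Nm Ω} (h0 : Meas f g₀) (h1 : Meas f g₁) :
    Split P F (det f) g₀ g₁ ≤ P.D (det f) (g₀ * g₁ * det F) := by
  have k0 := P.J_absorb h0 (det F)
  have k1 := P.J_absorb h1 (det F)
  have k2 := P.J_absorb (h0.mul h1) (det F)
  have k3 := P.J_submod g₀ g₁ (det F)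
  simp only [Split, PS.D, mul_assoc, mul_comm, mul_left_comm] at *
  linarith

/-- The cells of `2 ^ h` bits of a bit system. -/
theorem cells_spec : ∃ C : ℝ, 1 ≤ C ∧ ∀ {Ω : Type} [Fintype Ω] {T : Type} [DecidableEq T]
    (P : PS Ω) (π : Fin 3 → Ω → T) (F : Ω → T) (t e ε : ℝ) (j : ℕ) (B : Bits P π F j ε),
    Net P π F t e → e ≤ ε → ∀ (h : ℕ) (em : (Fin h → Bool) ↪ Fin j),
    ∃ ρ : ((Fin h → Bool) → Bool) → Tri π,
      (∀ a, Al P π F (ρ a) (C ^ (h + 1) * ε)) ∧
      (∀ σ a, P.D ((B.K σ).app ((ρ (xr a fun l => σ (em l))).nm 0)) ((ρ a).nm 0 * det F) ≤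
        C ^ (h + 1) * ε) ∧
      (∀ σ a, P.D ((ρ a).nm 0) ((B.K σ).app ((ρ (xr a fun l => σ (em l))).nm 0) * det F) ≤
        C ^ (h + 1) * ε) ∧
      (∀ a l, P.D ((ρ a).nm 0) ((B.γ (em l) (a l)).nm 0 * det F) ≤ C ^ (h + 1) * ε) ∧
      (∀ a i, (∀ l, em l ≠ i) →
        Split P F ((ρ a).nm 0) ((B.γ i false).nm 0) ((B.γ i true).nm 0) ≤ C ^ (h + 1) * ε) ∧
      (∀ a, P.D ((ρ a).nm 0) (det F) ≤
        t / Fintype.card ((Fin h → Bool) → Bool) + C ^ (h + 1) * ε) ∧
      t ≤ P.D (∏ a, (ρ a).nm 0) (det F) +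
        C ^ (h + 1) * Fintype.card ((Fin h → Bool) → Bool) * ε := by
  obtain ⟨C, c1, ht⟩ := tree_spec
  obtain ⟨C₀, c0, hm⟩ := meet_spec
  refine ⟨(18 + 4 * C₀) * (2 * C), by nlinarith, ?_⟩
  intro Ω _ T _ P π F t e ε j B hN he h em
  have e0 := hN.e_nonneg
  have ε0 : 0 ≤ ε := e0.trans he
  have hT := ht P π F t e ε hN he h
  have εδ : ε ≤ C ^ h * ε := le_mul_of_one_le_left ε0 (one_le_pow₀ c1)
  have hn : (Fintype.card (Fin h → Bool) : ℝ) = 2 ^ h := by simp
  have hK : (18 + 4 * C₀) * (Fintype.card (Fin h → Bool) * (C ^ h * ε)) ≤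
      ((18 + 4 * C₀) * (2 * C)) ^ (h + 1) * ε := by
    have k1 : (1 : ℝ) ≤ (18 + 4 * C₀) ^ h * (2 * C) :=
      one_le_mul_of_one_le_of_one_le (one_le_pow₀ (by linarith)) (by linarith)
    have k2 : 0 ≤ (18 + 4 * C₀) * (2 ^ h * (C ^ h * ε)) := by positivity
    rw [hn]
    refine (le_mul_of_one_le_left k2 k1).trans (le_of_eq ?_)
    rw [mul_pow, mul_pow]
    ring
  have hR2 : (Fintype.card ((Fin h → Bool) → Bool) : ℝ) = 2 ^ Fintype.card (Fin h → Bool) := by
    simp
  have n1 : (1 : ℝ) ≤ Fintype.card (Fin h → Bool) := by exact_mod_cast Fintype.card_pos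
  have R1 : (1 : ℝ) ≤ Fintype.card ((Fin h → Bool) → Bool) := by exact_mod_cast Fintype.card_pos
  generalize C ^ h * ε = δ at *
  have δ0 : 0 ≤ δ := ε0.trans εδ
  have δη : δ ≤ Fintype.card (Fin h → Bool) * δ := le_mul_of_one_le_left δ0 n1
  have Cη : C₀ * δ ≤ C₀ * (Fintype.card (Fin h → Bool) * δ) :=
    mul_le_mul_of_nonneg_left δη (by linarith)
  have C0 : 0 ≤ C₀ * δ := by positivity
  -- leaves
  let lf : Finset (Fin h → Bool) → ((Fin h → Bool) → Bool) → (Fin h → Bool) → Tri π :=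
    fun D a l => if l ∈ D then B.γ (em l) (a l) else topT π
  have lal : ∀ D a l, Al P π F (lf D a l) ε := fun D a l => by
    simp only [lf]
    split_ifs
    exacts [B.al _ _, (al_top hN).mono he]
  let Q : Finset (Fin h → Bool) → ((Fin h → Bool) → Bool) → Tri π :=
    fun D a => tree P π h (lf D a)
  have Qal : ∀ D a, Al P π F (Q D a) δ := fun D a => (hT _ (lal D a)).1
  have Qle : ∀ D a l, P.D ((Q D a).nm 0) ((lf D a l).nm 0 * det F) ≤ 4 * δ := fun D a l => by
    have k1 := (hT _ (lal D a)).2.1 l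
    have k2 := sd_of_al hN (lal D a l) 0
    linarith
  have Qglb : ∀ D a (N : Nm Ω) (x : ℝ), (∀ l, P.D N ((lf D a l).nm 0 * det F) ≤ x) →
      P.D N ((Q D a).nm 0 * det F) ≤ Fintype.card (Fin h → Bool) * x + δ := by
    intro D a N x hx
    have k1 := (hT _ (lal D a)).2.2.1 N
    have k2 := sum_le_card_nsmul univ _ x fun l _ => hx l
    rw [card_univ, nsmul_eq_mul] at k2
    linarith
  have Qsp : ∀ D a i, (∀ l ∈ D, em l ≠ i) →
      Split P F ((Q D a).nm 0) ((B.γ i false).nm 0) ((B.γ i true).nm 0) ≤ δ := by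
    intro D a i hi
    refine (hT _ (lal D a)).2.2.2 _ _ (B.al _ _) (B.al _ _) (B.ind i) fun l => ?_
    simp only [lf]
    split_ifs with hl
    · exact B.split _ _ _ (hi l hl).symm
    · exact (l2_split_top P ((B.γ i false).meas 0) ((B.γ i true).meas 0)).trans (B.cov i)
  have lu : ∀ a l, lf univ a l = B.γ (em l) (a l) := fun a l => if_pos (mem_univ l)
  have ρle : ∀ a l, P.D ((Q univ a).nm 0) ((B.γ (em l) (a l)).nm 0 * det F) ≤ 4 * δ :=
    fun a l => lu a l ▸ Qle univ a l
  -- translations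
  have tr : ∀ σ a, P.D ((B.K σ).app ((Q univ (xr a fun l => σ (em l))).nm 0))
      ((Q univ a).nm 0 * det F) ≤ 7 * (Fintype.card (Fin h → Bool) * δ) := by
    intro σ a
    have := Qglb univ a ((B.K σ).app ((Q univ (xr a fun l => σ (em l))).nm 0)) (6 * δ) fun l => by
      have k1 := l2_D_via P ((B.K σ).app ((Q univ (xr a fun l => σ (em l))).nm 0))
        ((B.K σ).app ((B.γ (em l) (xor (a l) (σ (em l)))).nm 0)) ((B.γ (em l) (a l)).nm 0) (det F)
      have k2 := Chan.D_app_mono (B.good σ).pres ((Q univ (xr a fun l => σ (em l))).nm 0)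
        ((B.γ (em l) (xor (a l) (σ (em l)))).nm 0)
      have k3 := B.transl σ (em l) (a l)
      have k4 := B.sd σ (em l) (xor (a l) (σ (em l)))
      have k5 : P.D _ ((B.γ (em l) (xor (a l) (σ (em l)))).nm 0 * det F) ≤ _ :=
        ρle (xr a fun l => σ (em l)) l
      rw [lu]
      linarith
    linarith
  have rk : ∀ a a', P.D ((Q univ a).nm 0) (det F) ≤ P.D ((Q univ a').nm 0) (det F) +
      8 * (Fintype.card (Fin h → Bool) * δ) := by
    intro a a'
    let σ : Fin j → Bool := Function.extend em (xr a' a) fun _ => false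
    have e1 : (xr a' fun l => σ (em l)) = a := by
      funext l
      simp only [σ, em.injective.extend_apply, xr]
      cases a l <;> cases a' l <;> rfl
    have k1 := tr σ a'
    rw [e1] at k1
    have k2 := (B.good σ).rank _ ((Q univ a).meas 0)
    have k3 := P.D_tri ((B.K σ).app ((Q univ a).nm 0)) ((Q univ a').nm 0) (det F)
    linarith
  -- independence
  have ind := l2_indep_cells P (fun a => (Q univ a).nm 0) (fun l c => (B.γ (em l) c).nm 0) (det F) δ0
    ρle (fun l => (B.ind _).trans εδ) univ univ fun _ _ _ _ l hl => absurd (mem_univ l) hl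
  rw [card_univ, card_univ] at ind
  have top : P.D (∏ a, (Q univ a).nm 0) (det F) ≤ t + e :=
    (P.D_le_det (meas_prod _ _ fun a _ => (Q univ a).meas 0) _).trans hN.hi
  -- coverage
  have step : ∀ D l, l ∉ D → ∀ a, P.I ((Q D a).nm 0) ((B.γ (em l) (a l)).nm 0) (det F) ≤
      P.D ((Q (insert l D) a).nm 0) (det F) +
        (5 * (Fintype.card (Fin h → Bool) * δ) + 2 * (C₀ * (Fintype.card (Fin h → Bool) * δ))) := by
    intro D l hl a
    have M := hm P π F t e δ (Q D a) (B.γ (em l) (a l)) hN (he.trans εδ) (Qal D a)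
      ((B.al _ _).mono εδ)
    have k1 := Qglb (insert l D) a ((meet P π (Q D a) (B.γ (em l) (a l))).nm 0) (C₀ * δ + 4 * δ)
      fun l' => by
        by_cases e1 : l' = l
        · have : lf (insert l D) a l' = B.γ (em l) (a l) := by simp [lf, e1]
          rw [this]
          linarith [M.le2 0]
        · have : lf (insert l D) a l' = lf D a l' := by simp [lf, e1]
          rw [this]
          have k2 := l2_D_via P ((meet P π (Q D a) (B.γ (em l) (a l))).nm 0) ((Q D a).nm 0)
            ((lf D a l').nm 0) (det F)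
          linarith [M.le1 0, Qle D a l']
    have k2 := P.D_tri ((meet P π (Q D a) (B.γ (em l) (a l))).nm 0) ((Q (insert l D) a).nm 0)
      (det F)
    have k3 := M.rk 0
    linarith
  have cov := l2_halve_cells (fun D a => P.D ((Q D a).nm 0) (det F))
    (E := 11 * (Fintype.card (Fin h → Bool) * δ) + 4 * (C₀ * (Fintype.card (Fin h → Bool) * δ)))
    (by positivity) (fun D l hl a => by
      have k1 := step D l hl a
      have k2 := step D l hl (Function.update a l (!a l))
      have e1 : Q D (Function.update a l (!a l)) = Q D a := by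
        refine congrArg (tree P π h) (funext fun l' => ?_)
        simp only [lf]
        split_ifs with h'
        · rw [Function.update_of_ne (ne_of_mem_of_not_mem h' hl)]
        · rfl
      rw [e1, Function.update_self] at k2
      have k3 := Qsp D a (em l) fun l' h' => em.injective.ne (ne_of_mem_of_not_mem h' hl)
      generalize P.D ((Q (insert l D) a).nm 0) (det F) = x at *
      generalize P.D ((Q (insert l D) (Function.update a l (!a l))).nm 0) (det F) = y at *
      simp only [Split, PS.I, PS.D] at k1 k2 k3 ⊢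
      cases e2 : a l <;> simp only [e2, Bool.not_false, Bool.not_true] at k1 k2 <;> linarith) univ
  have base : ∀ a, t - e - δ ≤ P.D ((Q ∅ a).nm 0) (det F) := fun a => by
    have k1 := Qglb ∅ a (det (π 0)) 0 fun l =>
      (P.D_absorb (meas_det (Ref.rfl' (π 0))) (det F)).le
    have k2 := P.D_tri (det (π 0)) ((Q ∅ a).nm 0) (det F)
    linarith [hN.lo]
  have base' := card_nsmul_le_sum univ _ _ fun a _ => base a
  rw [card_univ, nsmul_eq_mul] at base'
  rw [card_univ, ← hR2] at cov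
  have cov' := le_of_mul_le_mul_left (base'.trans cov) (by linarith)
  have η0 : 0 ≤ Fintype.card (Fin h → Bool) * δ := by positivity
  have Cη0 : 0 ≤ C₀ * (Fintype.card (Fin h → Bool) * δ) := by positivity
  refine ⟨Q univ, fun a => (Qal _ a).mono (by linarith), fun σ a => by linarith [tr σ a],
    fun σ a => ?_, fun a l => by linarith [ρle a l],
    fun a i hi => by linarith [Qsp univ a i fun l _ => hi l], fun a => ?_, ?_⟩
  · have k1 := tr σ a
    have k2 := rk a (xr a fun l => σ (em l))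
    have k3 := (B.good σ).rank _ ((Q univ (xr a fun l => σ (em l))).meas 0)
    simp only [PS.D] at k1 k2 k3 ⊢
    rw [mul_left_comm] at k1
    linarith
  · have k1 := card_nsmul_le_sum univ _ _ fun a' _ => sub_le_iff_le_add.2 (rk a a')
    rw [card_univ, nsmul_eq_mul] at k1
    have k2 := le_mul_of_one_le_left η0 R1
    rw [← sub_le_iff_le_add, le_div_iff₀ (by linarith)]
    have k3 := mul_le_mul_of_nonneg_left hK
      (by linarith : (0 : ℝ) ≤ Fintype.card ((Fin h → Bool) → Bool))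
    have k4 : 0 ≤ (Fintype.card ((Fin h → Bool) → Bool) : ℝ) *
      (C₀ * (Fintype.card (Fin h → Bool) * δ)) := by positivity
    nlinarith
  · have k2 := le_mul_of_one_le_left η0 R1
    have k3 := mul_le_mul_of_nonneg_left hK
      (by linarith : (0 : ℝ) ≤ Fintype.card ((Fin h → Bool) → Bool))
    nlinarith

end Pool.Agent.Lib.MP_a7c6c3_lc
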