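import Pool.Agent.Lib.MP_a7c6c3_lc.Lat2
import Pool.Agent.Lib.MP_a7c6c3_lc.Design1

/-! Module `Lat3`: rows and columns. -/

set_option autoImplicit false
open Finset
open scoped BigOperators

namespace Pool.Agent.Lib.MP_a7c6c3_lc

theorem D_prod_submod {Ω : Type} [Fintype Ω] (P : PS Ω) {ι : Type} [DecidableEq ι]
    (A : ι → Nm Ω) (N C : Nm Ω) (S T : Finset ι) :
    P.D ((∏ a ∈ S ∪ T, A a) * N) C + P.D ((∏ a ∈ S ∩ T, A a) * N) C ≤
      P.D ((∏ a ∈ S, A a) * N) C + P.D ((∏ a ∈ T, A a) * N) C := by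
  have e1 : ∏ a ∈ S, A a = (∏ a ∈ S \ T, A a) * ∏ a ∈ S ∩ T, A a := by
    rw [← prod_union (disjoint_sdiff_inter S T), sdiff_union_inter]
  have e2 : ∏ a ∈ T, A a = (∏ a ∈ T \ S, A a) * ∏ a ∈ S ∩ T, A a := by
    rw [inter_comm, ← prod_union (disjoint_sdiff_inter T S), sdiff_union_inter]
  have e3 : ∏ a ∈ S ∪ T, A a = (∏ a ∈ T \ S, A a) * ∏ a ∈ S, A a := by
    rw [← prod_union sdiff_disjoint, sdiff_union_self_eq_union, union_comm]
  have h := P.J_submod (∏ a ∈ S \ T, A a) (∏ a ∈ T \ S, A a) ((∏ a ∈ S ∩ T, A a) * N * C)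
  rw [e3, e1]
  conv_rhs => rw [e2]
  generalize (∏ a ∈ S \ T, A a) = X at *
  generalize (∏ a ∈ T \ S, A a) = Y at *
  generalize (∏ a ∈ S ∩ T, A a) = Z at *
  have a1 : Y * (X * Z) * N * C = X * Y * (Z * N * C) := by ac_rfl
  have a2 : X * Z * N * C = X * (Z * N * C) := by ac_rfl
  have a3 : Y * Z * N * C = Y * (Z * N * C) := by ac_rfl
  simp only [PS.D]
  rw [a1, a2, a3]
  linarith

namespace L3

variable {Ω : Type} [Fintype Ω] {T : Type} [DecidableEq T] {P : PS Ω} {π : Fin 3 → Ω → T}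
  {F : Ω → T}

theorem D_prod_bd {ι : Type} (s : Finset ι) (A : ι → Nm Ω) (C : Nm Ω) {x : ℝ}
    (h : ∀ i ∈ s, P.D (A i) C ≤ x) : P.D (∏ i ∈ s, A i) C ≤ s.card * x :=
  (P.D_prod_le s A C).trans ((sum_le_card_nsmul s _ x h).trans_eq (nsmul_eq_mul _ _))

theorem D_half (X K g C : Nm Ω) : P.D (X * K) C ≤ P.D (K * g) C + P.D X (g * C) := by
  have h1 := P.D_mono (X * K) C g
  have h2 := P.D_mul (K * g) X C
  have h3 := P.D_anti X K (g * C)
  have h4 := P.D_mono (X * K) g C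
  have e1 : X * K * g = K * g * X := by ac_rfl
  have e2 : K * g * C = K * (g * C) := by ac_rfl
  rw [e1] at h4
  rw [e2] at h2
  linarith

/-- The profile at role `0`. -/
theorem prof0 {Λ : Type} [Fintype Λ] [DecidableEq Λ] (hΛ : 2 ≤ Fintype.card Λ) {t e β Cs : ℝ}
    (hN : Net P π F t e) (he : e ≤ β) (hCs : 0 ≤ Cs) (ρ κ : (Λ → Bool) → Tri π)
    (g : Λ → Bool → Tri π)
    (hρg : ∀ a l, P.D ((ρ a).nm 0) ((g l (a l)).nm 0 * det F) ≤ β)
    (hind : ∀ l, P.I ((g l false).nm 0) ((g l true).nm 0) (det F) ≤ β)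
    (hsplit : ∀ l (s : Finset (Λ → Bool)), Split P F (∏ b ∈ s, (κ b).nm 0) ((g l false).nm 0)
      ((g l true).nm 0) ≤ Cs * (s.card + 1) * β)
    (hκ : ∀ b, P.D ((κ b).nm 0) (det F) ≤ t / Fintype.card (Λ → Bool) + β)
    (hκ' : t ≤ P.D (∏ b, (κ b).nm 0) (det F) + Fintype.card (Λ → Bool) * β)
    (hρ' : t ≤ P.D (∏ a, (ρ a).nm 0) (det F) + Fintype.card (Λ → Bool) * β)
    (S' T' : Finset (Λ → Bool)) :
    |(𝔼 τ : Equiv.Perm (Λ → Bool),
        P.D ((∏ a ∈ S', (ρ (τ a)).nm 0) * ∏ b ∈ T', (κ b).nm 0) (det F)) -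
      t * (1 - (1 - (S'.card : ℝ) / Fintype.card (Λ → Bool)) *
        (1 - (T'.card : ℝ) / Fintype.card (Λ → Bool)))| ≤
      (4 * Fintype.card Λ * (2 * Cs + 5) + 2) * (Fintype.card (Λ → Bool) * β) := by
  set R : ℝ := (Fintype.card (Λ → Bool) : ℝ) with hR
  have hR1 : 1 ≤ R := by rw [hR]; exact_mod_cast Fintype.card_pos
  have he0 := hN.e_nonneg
  have hβ : 0 ≤ β := he0.trans he
  have hRβ : β ≤ R * β := le_mul_of_one_le_left hβ hR1
  have hcard : ∀ s : Finset (Λ → Bool), (s.card : ℝ) ≤ R := fun s => by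
    rw [hR]; exact_mod_cast card_le_univ s
  have hcβ : ∀ s : Finset (Λ → Bool), (s.card : ℝ) * β ≤ R * β := fun s =>
    mul_le_mul_of_nonneg_right (hcard s) hβ
  set κT := ∏ b ∈ T', (κ b).nm 0 with hκT
  set f : Finset (Λ → Bool) → ℝ := fun S => P.D ((∏ a ∈ S, (ρ a).nm 0) * κT) (det F) with hf
  have h0 : f ∅ = P.D κT (det F) := by simp only [hf, prod_empty, one_mul]
  have h1 : t - R * β ≤ f univ := by
    have := P.D_mono (∏ a, (ρ a).nm 0) κT (det F)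
    simp only [hf]; linarith
  have h2 : f univ ≤ t + e := (P.D_le_det ((meas_prod _ _ fun a _ => (ρ a).meas 0).mul
    (meas_prod _ _ fun b _ => (κ b).meas 0)) _).trans hN.hi
  have h3 : f ∅ ≤ T'.card * (t / R + β) := by
    rw [h0]; exact D_prod_bd T' _ _ fun b _ => hκ b
  have h4 : t - R * β - (R - T'.card) * (t / R + β) ≤ f ∅ := by
    have a1 := P.D_mul_le κT (∏ b ∈ T'ᶜ, (κ b).nm 0) (det F)
    rw [hκT, prod_mul_prod_compl, ← hκT] at a1
    have a2 := D_prod_bd (P := P) T'ᶜ (fun b => (κ b).nm 0) (det F) fun b _ => hκ b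
    rw [card_compl, Nat.cast_sub (card_le_univ T'), ← hR] at a2
    rw [h0]; linarith
  have hh : ∀ l, f (univ.filter fun a => a l = false) + f (univ.filter fun a => a l = true) ≤
      f univ + f ∅ + (2 * Cs + 5) * (R * β) := fun l => by
    have a1 : ∀ c, f (univ.filter fun a => a l = c) ≤
        P.D (κT * (g l c).nm 0) (det F) + R * β := fun c => by
      have b1 := D_half (P := P) (∏ a ∈ univ.filter fun a : Λ → Bool => a l = c, (ρ a).nm 0) κT
        ((g l c).nm 0) (det F)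
      have b2 := D_prod_bd (P := P) (univ.filter fun a : Λ → Bool => a l = c)
        (fun a => (ρ a).nm 0) ((g l c).nm 0 * det F) (x := β) fun a ha => by
          rw [← (mem_filter.1 ha).2]; exact hρg a l
      simp only [hf]
      linarith [hcβ (univ.filter fun a : Λ → Bool => a l = c)]
    have a2 := hsplit l T'
    rw [Split, ← hκT] at a2
    have a3 := hind l
    have a4 := (P.D_le_det (((g l false).meas 0).mul ((g l true).meas 0)) (det F)).trans hN.hi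
    have a5 : Cs * (T'.card + 1) * β ≤ 2 * Cs * (R * β) := by
      have := mul_le_mul_of_nonneg_left (add_le_add (hcβ T') hRβ) hCs
      nlinarith
    simp only [PS.I] at a3
    simp only [PS.D] at a2 a4 a1 h0
    linarith [a1 false, a1 true]
  have hp := profile_lemma hΛ f (fun S T => D_prod_submod P _ _ _ S T) ((2 * Cs + 5) * (R * β))
    (by positivity) hh S'.card (card_le_univ S')
  have hE : (𝔼 τ : Equiv.Perm (Λ → Bool),
      P.D ((∏ a ∈ S', (ρ (τ a)).nm 0) * κT) (det F)) = lev f S'.card := by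
    rw [← expect_perm_eq_lev]
    refine expect_congr rfl fun τ _ => ?_
    simp only [hf, prod_map, Equiv.coe_toEmbedding]
  rw [hE]
  rw [← hR] at hp
  have hRpos : 0 < R := by linarith
  set s : ℝ := (S'.card : ℝ) / R with hs
  have hs0 : 0 ≤ s := by positivity
  have hs1 : s ≤ 1 := (div_le_one hRpos).2 (hcard S')
  set τ : ℝ := (T'.card : ℝ) / R with hτ
  have e1 : (T'.card : ℝ) * (t / R + β) = t * τ + T'.card * β := by rw [hτ]; ring
  have e2 : t - R * β - (R - T'.card) * (t / R + β) = t * τ - 2 * (R * β) + T'.card * β := by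
    rw [hτ]; field_simp; ring
  have c0 : (0 : ℝ) ≤ T'.card * β := by positivity
  have b1 : |f ∅ - t * τ| ≤ 2 * (R * β) := abs_le.2 ⟨by linarith, by linarith [hcβ T']⟩
  have b2 : |f univ - t| ≤ 2 * (R * β) := abs_le.2 ⟨by linarith, by linarith⟩
  have e3 : lev f S'.card - t * (1 - (1 - s) * (1 - τ)) =
      (lev f S'.card - ((1 - s) * f ∅ + s * f univ)) + ((1 - s) * (f ∅ - t * τ) +
        s * (f univ - t)) := by ring
  have b3 : |(1 - s) * (f ∅ - t * τ) + s * (f univ - t)| ≤ 2 * (R * β) := by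
    refine (abs_add_le _ _).trans ?_
    rw [abs_mul, abs_mul, abs_of_nonneg hs0, abs_of_nonneg (sub_nonneg.2 hs1)]
    nlinarith [mul_le_mul_of_nonneg_left b1 (sub_nonneg.2 hs1), mul_le_mul_of_nonneg_left b2 hs0]
  rw [e3]
  refine (abs_add_le _ _).trans ?_
  linarith

/-- Passing from role `0` to the other roles. -/
theorem role {ι : Type} [Fintype ι] [DecidableEq ι] [Nonempty ι] {t e β : ℝ} (hN : Net P π F t e)
    (he : e ≤ β) (ρ κ : ι → Tri π) (hρ : ∀ a, Al P π F (ρ a) β) (hκ : ∀ a, Al P π F (κ a) β)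
    (u : Fin 3) (S' T' : Finset ι) :
    |(𝔼 τ : Equiv.Perm ι, P.D ((∏ a ∈ S', (ρ (τ a)).nm u) * ∏ b ∈ T', (κ b).nm u) (det F)) -
      𝔼 τ : Equiv.Perm ι, P.D ((∏ a ∈ S', (ρ (τ a)).nm 0) * ∏ b ∈ T', (κ b).nm 0) (det F)| ≤
      3 * (Fintype.card ι * β) := by
  have hβ : 0 ≤ β := hN.e_nonneg.trans he
  have hR1 : (1 : ℝ) ≤ Fintype.card ι := by exact_mod_cast Fintype.card_pos
  have hRβ : β ≤ Fintype.card ι * β := le_mul_of_one_le_left hβ hR1
  have hcβ : ∀ s : Finset ι, (s.card : ℝ) * β ≤ Fintype.card ι * β := fun s =>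
    mul_le_mul_of_nonneg_right (by exact_mod_cast card_le_univ s) hβ
  have h : ∀ (τ : Equiv.Perm ι) (v w : Fin 3),
      P.D ((∏ a ∈ S', (ρ (τ a)).nm v) * ∏ b ∈ T', (κ b).nm v) (det F) -
        P.D ((∏ a ∈ S', (ρ (τ a)).nm w) * ∏ b ∈ T', (κ b).nm w) (det F) ≤
        3 * (Fintype.card ι * β) := fun τ v w => by
    have a1 := rank_role hN ((al_prod S' (fun a => ρ (τ a)) fun a _ => hρ _).mul
      (al_prod T' κ fun b _ => hκ b)) v w
    simp only [Tri.mul, Tri.prod] at a1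
    linarith [hcβ S', hcβ T']
  rw [abs_sub_le_iff, ← expect_sub_distrib, ← expect_sub_distrib]
  exact ⟨expect_le univ_nonempty fun τ _ => h τ u 0, expect_le univ_nonempty fun τ _ => h τ 0 u⟩

end L3

theorem rc_exists : ∃ C : ℝ, 1 ≤ C ∧ ∀ {Ω : Type} [Fintype Ω] {T : Type} [DecidableEq T]
    (P : PS Ω) (π : Fin 3 → Ω → T) (F : Ω → T) (t e ε : ℝ) (j : ℕ) (B : Bits P π F j ε),
    Net P π F t e → e ≤ ε → ∀ (h : ℕ), 1 ≤ h →
    ∀ (em : (Fin h → Bool) ⊕ (Fin h → Bool) ↪ Fin j),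
    Nonempty (RC P π F (Fin h → Bool) B.K (fun σ l => σ (em (Sum.inl l)))
      (fun σ l => σ (em (Sum.inr l))) t (C ^ (h + 1) * ε)
      (C ^ (h + 1) * Fintype.card ((Fin h → Bool) → Bool) * ε)) := by
  obtain ⟨C0, hC0, hcell⟩ := cells_spec
  obtain ⟨Cs, hCs, hsp⟩ := split_prod
  refine ⟨2 * (8 * Cs + 25) * C0, by nlinarith, fun P π F t e ε j B hN he h hh em => ?_⟩
  obtain ⟨ρ, r1, r2, r3, r4, -, -, r7⟩ :=
    hcell P π F t e ε j B hN he h (Function.Embedding.inl.trans em)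
  obtain ⟨κ, k1, k2, k3, -, k5, k6, k7⟩ :=
    hcell P π F t e ε j B hN he h (Function.Embedding.inr.trans em)
  have hε : 0 ≤ ε := hN.e_nonneg.trans he
  have hp1 : 1 ≤ C0 ^ (h + 1) := one_le_pow₀ hC0
  set β := C0 ^ (h + 1) * ε with hβ
  have hεβ : ε ≤ β := le_mul_of_one_le_left hε hp1
  have hβ0 : 0 ≤ β := hε.trans hεβ
  have hm : (Fintype.card (Fin h → Bool) : ℝ) = 2 ^ h := by simp
  have hm2 : 2 ≤ Fintype.card (Fin h → Bool) := by
    simpa using Nat.le_self_pow (by omega : h ≠ 0) 2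
  have h2h : (1 : ℝ) ≤ 2 ^ h := one_le_pow₀ one_le_two
  have hpow : 2 ^ h * (8 * Cs + 25) * C0 ^ (h + 1) ≤ (2 * (8 * Cs + 25) * C0) ^ (h + 1) := by
    rw [mul_pow, mul_pow]
    have a1 : (2 : ℝ) ^ h ≤ 2 ^ (h + 1) := pow_le_pow_right₀ one_le_two (by omega)
    have a2 : 8 * Cs + 25 ≤ (8 * Cs + 25) ^ (h + 1) := le_self_pow₀ (by linarith) (by omega)
    gcongr
  have hβ1 : β ≤ (2 * (8 * Cs + 25) * C0) ^ (h + 1) * ε := by
    refine mul_le_mul_of_nonneg_right (le_trans ?_ hpow) hε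
    exact le_mul_of_one_le_left (by linarith) (by nlinarith)
  refine ⟨⟨ρ, κ, fun a => (r1 a).mono hβ1, fun b => (k1 b).mono hβ1,
    fun σ a => (r2 σ a).trans hβ1, fun σ a => (r3 σ a).trans hβ1,
    fun σ b => (k2 σ b).trans hβ1, fun σ b => (k3 σ b).trans hβ1, fun u S' T' => ?_⟩⟩
  have a1 := L3.prof0 hm2 hN (he.trans hεβ) (by linarith : 0 ≤ Cs) ρ κ
    (fun l c => B.γ (em (Sum.inl l)) c) r4 (fun l => (B.ind _).trans hεβ)
    (fun l s => hsp P π F t e β s κ _ _ hN (he.trans hεβ) ((B.al _ _).mono hεβ)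
      ((B.al _ _).mono hεβ) ((B.ind _).trans hεβ) fun b _ => ⟨k1 b, k5 b _ fun l' hl =>
        Sum.inr_ne_inl (em.injective hl)⟩) k6 (by rw [hβ]; linarith) (by rw [hβ]; linarith) S' T'
  have a2 := L3.role hN (he.trans hεβ) ρ κ r1 k1 u S' T'
  rw [hm] at a1
  set R : ℝ := (Fintype.card ((Fin h → Bool) → Bool) : ℝ)
  have hR : 0 ≤ R := Nat.cast_nonneg _
  refine ((abs_sub_le _ _ _).trans (add_le_add a2 a1)).trans ?_
  have a3 : 0 ≤ R * β := by positivity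
  calc 3 * (R * β) + (4 * 2 ^ h * (2 * Cs + 5) + 2) * (R * β)
      ≤ 2 ^ h * (8 * Cs + 25) * (R * β) := by nlinarith
    _ = 2 ^ h * (8 * Cs + 25) * C0 ^ (h + 1) * (R * ε) := by rw [hβ]; ring
    _ ≤ (2 * (8 * Cs + 25) * C0) ^ (h + 1) * (R * ε) := by gcongr
    _ = _ := by ring

end Pool.Agent.Lib.MP_a7c6c3_lc
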