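import Pool.Agent.Lib.MP_a7c6c3_lc.Sys
import Pool.Agent.Lib.MP_a7c6c3_lc.Rules2

/-! Module `Layer1`: abstract transport lemmas (goodness, leak, comparison through the frame). -/

set_option autoImplicit false

namespace Pool.Agent.Lib.MP_a7c6c3_lc

variable {Ω : Type} [Fintype Ω] (P : PS Ω) {T : Type} [DecidableEq T] (F : Ω → T)

/-- `K` is determined by `Dk` and the frame version of `N`. -/
noncomputable def Up (s N K Dk : Nm Ω) : ℝ := P.D K (Dk * P.R F (N * s))

/-- The frame version of `N` is determined by `K` and `Dk`. -/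
noncomputable def Down (s N K Dk : Nm Ω) : ℝ := P.D N (s * P.R F (K * Dk))

theorem up_self (s N : Nm Ω) : Up P F s N N s = P.D N (s * P.R F (N * s)) := rfl

theorem down_self (s N : Nm Ω) : Down P F s N N s = P.D N (s * P.R F (N * s)) := rfl

theorem up_peel {π : Ω → T} (h : Ref π F) (s N K Dk a : Nm Ω) {D' : Nm Ω} (hD : Meas π D') :
    Up P F s N (P.R π (a * K)) D' ≤
      P.I (det π) a 1 + Up P F s N K Dk + P.D Dk (a * D') := by
  have hB : Meas π (D' * P.R F (N * s)) := hD.mul ((P.meas_R F _).mono h)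
  have h1 := P.D_R π (a * K) hB
  have h2 := P.I_cond_le_det (meas_det (Ref.rfl' π)) hB a 1
  have h3 := P.I_le_D K (det π) (a * (D' * P.R F (N * s)))
  have h4 := P.D_tri K Dk (a * (D' * P.R F (N * s)))
  have h5 := P.D_anti Dk (P.R F (N * s)) (a * D')
  have h6 := P.D_anti K (a * D') (Dk * P.R F (N * s))
  simp only [Up, Down, PS.D, PS.I, mul_assoc, mul_comm, mul_left_comm, mul_one,
    one_mul] at h1 h2 h3 h4 h5 h6 ⊢
  linarith

theorem down_peel {π : Ω → T} (h : Ref π F) (s N K Dk a : Nm Ω) {D' : Nm Ω} (hD : Meas π D') :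
    Down P F s N (P.R π (a * K)) D' ≤ Down P F s N K Dk + P.D Dk (a * D') := by
  have h1 := P.R5 F (a * K * D') Dk s N
  have h2 := P.R1 F (K * Dk) (a * D') s N
  have h3 := P.D_anti Dk K (a * D')
  rw [Down, P.R_R h _ hD]
  simp only [Up, Down, PS.D, PS.I, mul_assoc, mul_comm, mul_left_comm, mul_one,
    one_mul] at h1 h2 h3 ⊢
  linarith

/-- Comparison of two names through the frame version of `N`. -/
theorem compare (s N K₁ K₂ D₁ D₂ C A b : Nm Ω) :
    P.D K₁ (K₂ * C) ≤ Up P F s N K₁ D₁ + Down P F s N K₂ D₂ + P.D D₁ (C * A) + P.D D₂ (C * A) +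
      P.I b A 1 + P.D K₁ b + P.D K₂ b + P.D C b + P.I (det F) s 1 := by
  have h1 := P.R6 F s N (K₂ * C * A) K₁
  have h2 := P.D_tri K₁ D₁ (P.R F (s * N) * (K₂ * C * A))
  have h3 := P.D_anti D₁ (P.R F (s * N) * K₂) (C * A)
  have h4 := P.D_anti K₁ (K₂ * C * A) (D₁ * P.R F (N * s))
  have h5 := P.R5 F (K₂ * C * A) D₂ s N
  have h6 := P.R1 F (K₂ * D₂) (C * A) s N
  have h7 := P.D_anti D₂ K₂ (C * A)
  have h8 := P.I_le_D (P.R F s) K₁ (A * (K₂ * C))
  have h9 := P.D_anti (P.R F s) (A * (K₂ * C)) 1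
  have h10 := P.D_R F s (meas_one F)
  have h11 := P.I_cond_le A K₁ (K₂ * C) 1
  have h12 := P.I_mono_right A (K₁ * (K₂ * C)) b 1
  have h13 := P.I_le_D (K₁ * (K₂ * C)) A b
  have h14 := P.D_mul_le K₁ (K₂ * C) b
  have h15 := P.D_mul_le K₂ C b
  simp only [Up, Down, PS.D, PS.I, mul_assoc, mul_comm, mul_left_comm, mul_one,
    one_mul] at h1 h2 h3 h4 h5 h6 h7 h8 h9 h10 h11 h12 h13 h14 h15 ⊢
  linarith

/-- The leak of a pulled-back name. -/
theorem leak_pull {π : Ω → T} (a N x : Nm Ω) {y : Nm Ω} (hy : Meas π y) :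
    P.D (P.R π (a * N)) y ≤ P.I (det π) (a * x) y + P.D N x := by
  have h1 := P.D_R π (a * N) hy
  have h2 := P.I_mono_right (det π) (a * N) x y
  have h3 := P.I_le_D N (det π) (a * x * y)
  have h4 := P.D_anti N (a * y) x
  simp only [Up, Down, PS.D, PS.I, mul_assoc, mul_comm, mul_left_comm, mul_one,
    one_mul] at h1 h2 h3 h4 ⊢
  linarith

/-- Goodness of a pulled-back name. -/
theorem good_pull {π : Ω → T} (h : Ref π F) (s N a x y : Nm Ω) {r φ v : Nm Ω} (hr : Meas π r)
    (hφ : Meas F φ) (hφ0 : ∀ C, P.D φ (φ * C) = 0) (hv : Meas F v) :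
    P.D (P.R π (a * N)) (r * P.R F (P.R π (a * N) * r)) ≤
      P.D N (s * P.R F (N * s)) + 2 * P.D N x + P.I (det π) a 1 + 2 * P.D s (a * r * φ) +
        P.I φ (x * y * a * r * v) 1 + P.I (det F) (x * y * a * r) v := by
  rw [P.R_R h _ hr]
  have hB : Meas π (r * P.R F (a * N * r)) := hr.mul ((P.meas_R F _).mono h)
  have h1 := P.D_R π (a * N) hB
  have h2 := P.I_cond_le_det (meas_det (Ref.rfl' π)) hB a 1
  have h3 := P.I_le_D N (det π) (a * (r * P.R F (a * N * r)))
  have h4 := P.I_le_D φ N (φ * (a * (r * P.R F (a * N * r))))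
  have h5 := hφ0 (a * (r * P.R F (a * N * r)))
  have h6 := P.R5 F (a * N * r * φ) s (φ * a * r) N
  rw [P.R_mul_meas F _ hφ] at h6
  have h7 := P.D_anti s N (a * r * φ)
  have h8 := P.D_tri N s (P.R F (a * N * r * φ * s) * (φ * a * r))
  have h9 := P.D_anti s (P.R F (a * N * r * φ * s)) (φ * a * r)
  have h10 := P.D_anti N (φ * a * r) (s * P.R F (a * N * r * φ * s))
  have h11 := P.R1 F (N * s) (a * r * φ) s N
  have h12 := P.I_cond_le φ N (a * (r * P.R F (a * N * r))) 1
  have h13 := P.I_mono_right φ (N * (a * (r * P.R F (a * N * r)))) (x * y * v) 1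
  have h14 := P.I_le_D (P.R F (a * N * r)) φ (x * y * a * r * v)
  have h15 := P.I_le_D N φ (P.R F (a * N * r) * (x * y * a * r * v))
  have h16 := P.D_anti (P.R F (a * N * r)) (x * y * a * r) v
  have h17 := P.D_anti N (P.R F (a * N * r) * (y * a * r * v)) x
  have h18 := P.D_R F (a * N * r) hv
  have h19 := P.I_mono_right (det F) (a * N * r) (x * y) v
  have h20 := P.I_le_D N (det F) (x * y * a * r * v)
  have h21 := P.D_anti N (y * a * r * v) x
  simp only [Up, Down, PS.D, PS.I, mul_assoc, mul_comm, mul_left_comm, mul_one,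
    one_mul] at h1 h2 h3 h4 h5 h6 h7 h8 h9 h10 h11 h12 h13 h14 h15 h16 h17 h18 h19 h20 h21 ⊢
  linarith

/-- Self-distance of a good name. -/
theorem sd_le (s N x : Nm Ω) :
    P.D N N ≤ 2 * P.D N (s * P.R F (N * s)) + 2 * P.D N x + P.I x s 1 + P.I (det F) s 1 := by
  have h1 := P.R6 F s N (N * s) N
  have h2 := P.D_anti N N (s * P.R F (N * s))
  have h3 := P.I_le_D (P.R F s) N (s * N)
  have h4 := P.D_anti (P.R F s) (s * N) 1
  have h5 := P.D_R F s (meas_one F)
  have h6 := P.I_cond_le s N N 1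
  have h7 := P.I_mono_right s (N * N) x 1
  have h8 := P.I_le_D (N * N) s x
  have h9 := P.D_mul_le N N x
  simp only [Up, Down, PS.D, PS.I, mul_assoc, mul_comm, mul_left_comm, mul_one,
    one_mul] at h1 h2 h3 h4 h5 h6 h7 h8 h9 ⊢
  linarith

/-- Goodness of a colour carrier `c` with frame carrier `u`. -/
theorem good_colour (s c : Nm Ω) {u : Nm Ω} (hu : Meas F u) :
    P.D c (s * P.R F (c * s)) ≤ P.D c (s * u) + P.D u (c * s) := by
  have h0 : P.R F u = u := by simpa only [one_mul, P.R_one] using P.R_mul_meas F 1 hu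
  have h1 := P.H_R_swap F (c * s) u
  have h2 := P.H_R_swap F (c * s) 1
  rw [h0] at h1
  rw [P.R_one, mul_one, mul_one] at h2
  have h3 : P.D u (P.R F (c * s)) = P.D u (c * s) := by
    simp only [PS.D, PS.J]
    rw [P.Hc_mul u, P.Hc_mul u, mul_comm u, mul_comm u, h1, h2]
    ring
  have h4 := P.D_tri c u (s * P.R F (c * s))
  have h5 := P.D_anti u s (P.R F (c * s))
  have h6 := P.D_anti c (P.R F (c * s)) (s * u)
  simp only [Up, Down, PS.D, PS.I, mul_assoc, mul_comm, mul_left_comm, mul_one,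
    one_mul] at h3 h4 h5 h6 ⊢
  linarith

/-- Rank is kept by one step (lower bound). -/
theorem rank_step_lo {π π' : Ω → T} (h : Ref π F) (h' : Ref π' F) (a : Nm Ω) {N : Nm Ω}
    (hN : Meas π N) :
    P.D N (det F) ≤ P.D (P.R π' (a * N)) (det F) + P.I (det π) a 1 +
      P.D (det π) (a * det π') := by
  have h1 := P.D_R π' (a * N) (meas_det h')
  have h2 := P.D_le_det hN (a * det π' * det F)
  have h3 := P.D_anti (det π) (det F) (a * det π')
  have h4 := P.I_cond_le_det hN (meas_det h) a 1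
  have h5 := P.I_cond_le (det π') N a (det F)
  simp only [Up, Down, PS.D, PS.I, mul_assoc, mul_comm, mul_left_comm, mul_one,
    one_mul] at h1 h2 h3 h4 h5 ⊢
  linarith

/-- Rank is kept by one step (upper bound). -/
theorem rank_step_hi {π' : Ω → T} (h' : Ref π' F) (a N : Nm Ω) :
    P.D (P.R π' (a * N)) (det F) ≤ P.D N (det F) + P.I (det π') a 1 := by
  have h1 := P.D_R π' (a * N) (meas_det h')
  have h2 := P.I_cond_le_det (meas_det (Ref.rfl' π')) (meas_det h') a 1
  have h3 := P.I_le_D N (det π') (a * det F)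
  have h4 := P.D_anti N a (det F)
  simp only [Up, Down, PS.D, PS.I, mul_assoc, mul_comm, mul_left_comm, mul_one,
    one_mul] at h1 h2 h3 h4 ⊢
  linarith

end Pool.Agent.Lib.MP_a7c6c3_lc
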