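import Pool.Agent.Lib.MP_a7c6c3_lc.Layer1
import Pool.Agent.Lib.MP_a7c6c3_lc.Net
import Pool.Agent.Lib.MP_a7c6c3_lc.EqFix

/-! Module `Layer2`: words act on names; cost of a rewriting step; aligned triples. -/

set_option autoImplicit false

namespace Pool.Agent.Lib.MP_a7c6c3_lc

namespace L2

variable {Ω : Type} [Fintype Ω] (P : PS Ω)

theorem D_weak {A C C' : Nm Ω} (E : Nm Ω) (hE : C' = E * C) : P.D A C' ≤ P.D A C := by
  rw [hE]; exact P.D_anti A E C

theorem D_one_left (C : Nm Ω) : P.D 1 C = 0 := by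
  simp [PS.D]

theorem I_weak {A A' B C : Nm Ω} (E : Nm Ω) (hE : A' = A * E) : P.I A B C ≤ P.I A' B C := by
  rw [hE, P.I_comm A, P.I_comm (A * E)]; exact P.I_mono_right B A E C

theorem vn_abs (val : Var → Ω → List Bool) (v : Var) (C : Nm Ω) :
    P.D (vn val v) (vn val v * C) = 0 :=
  P.D_absorb (meas_det (Ref.rfl' (val v))) C

theorem vn_in (val : Var → Ω → List Bool) (v : Var) {C : Nm Ω} (E : Nm Ω)
    (hE : C = vn val v * E) : P.D (vn val v) C ≤ 0 := by
  rw [hE]; exact (vn_abs P val v E).le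

theorem pull_up {T : Type} [DecidableEq T] {π : Ω → T} (a N : Nm Ω) {y : Nm Ω} (hy : Meas π y) :
    P.D (P.R π (a * N)) y ≤ P.I (det π) a 1 + P.D N (a * y) := by
  rw [P.D_R π _ hy, P.I_mul]
  have h1 := P.I_cond_le_det (meas_det (Ref.rfl' π)) hy a 1
  have h2 := P.I_le_D N (det π) (a * y)
  rw [mul_one] at h1
  rw [P.I_comm] at h2
  linarith

theorem pull_down {T : Type} [DecidableEq T] {π : Ω → T} (A : Nm Ω) {y : Nm Ω} (hy : Meas π y) :
    P.D y (P.R π A) = P.D y A := by
  have h1 := P.J_R π A hy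
  have h2 := P.J_R π A (meas_one π)
  have h3 := P.J_absorb hy A
  simp only [PS.D, mul_comm, mul_left_comm, mul_one, one_mul] at *
  linarith

theorem I_two {T : Type} [DecidableEq T] {f g : Ω → T} {c N c' N' : Nm Ω} (hc : Meas f c)
    (hN : Meas f N) (hc' : Meas g c') (hN' : Meas g N') (C : Nm Ω) :
    P.I c c' (N * N' * C) ≤ P.I (det f) (det g) C := by
  have h1 := P.I_cond_le_det hc hN c' (N' * C)
  have h2 := P.I_cond_le_det hc' hN' (det f) C
  rw [P.I_comm] at h2
  rw [P.I_comm (det g)] at h2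
  rw [mul_assoc]
  linarith

theorem meas_vR (val : Var → Ω → List Bool) (u : Fin 3) (v : Var) (h : isR u v = true) :
    Meas (fR val u) (vn val v) :=
  meas_det (ref_res_val val (S := SR u) (by simp [SR, h]))

theorem meas_vF (val : Var → Ω → List Bool) (v : Var) (h : isF v = true) :
    Meas (fF val) (vn val v) :=
  meas_det (ref_res_val val (S := SF) (by simp [SF, h]))

end L2

open L2

section

variable {Ω : Type} [Fintype Ω] (val : Var → Ω → List Bool) (P : PS Ω)

theorem ref_fR (u : Fin 3) : Ref (fR val u) (fF val) :=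
  ref_res val (S := SR u) (T := SF) (by
    intro v hv
    simp only [SF, SR, Finset.mem_filter, Finset.mem_univ, true_and] at hv ⊢
    simp [isR, hv])

theorem act_append (u v : List G0) (N : Nm Ω) :
    act val P (u ++ v) N = act val P u (act val P v N) := by
  induction u with
  | nil => rfl
  | cons g u ih => simp only [List.cons_append, act, ih]

theorem app_chanW (w : List G0) (N : Nm Ω) : (chanW val P w).app N = act val P w N := by
  induction w with
  | nil => exact Chan.app_idc N
  | cons g w ih =>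
    simp only [chanW, act]
    rw [Chan.app_comp, Chan.app_comp, Chan.app_step, Chan.app_step, ih]
    rfl

theorem pres_chanW (w : List G0) : (chanW val P w).Pres (fF val) := by
  induction w with
  | nil => exact Chan.pres_idc _
  | cons g w ih =>
    exact ((Chan.pres_step _ (ref_fR val 0)).comp (Chan.pres_step _ (ref_fR val 1))).comp ih

theorem smeas_chanW (g : G0) (w : List G0) : (chanW val P (g :: w)).SMeas (fR val 0) :=
  ((Chan.smeas_step _ _).comp _).comp _

theorem meas_act (w : List G0) {N : Nm Ω} (h : Meas (fR val 0) N) :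
    Meas (fR val 0) (act val P w N) := by
  cases w with
  | nil => exact h
  | cons g w => exact P.meas_R _ _

theorem meas_nmW (a : CW) : Meas (fR val 0) (nmW val P a) :=
  meas_act val P _ (meas_vR val 0 _ rfl)

theorem net_of_facts {t e : ℝ} (h : Facts P val t e) : Net P (fR val) (fF val) t e :=
  ⟨h.e_nonneg, ref_fR val, h.net_i, h.net_d, h.top_lo, h.top_hi, h.supp⟩

theorem rank_act {t e : ℝ} (h : Facts P val t e) (w : List G0) {N : Nm Ω}
    (hN : Meas (fR val 0) N) :
    P.D N (det (fF val)) ≤ P.D (act val P w N) (det (fF val)) + 4 * w.length * e ∧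
      P.D (act val P w N) (det (fF val)) ≤ P.D N (det (fF val)) + 4 * w.length * e := by
  induction w with
  | nil => simp [act]
  | cons g w ih =>
    obtain ⟨ih1, ih2⟩ := ih
    have he := h.e_nonneg
    have a1 := rank_step_lo P (fF val) (ref_fR val 0) (ref_fR val 1) (vn val (.al g))
      (meas_act val P w hN)
    have a2 := rank_step_lo P (fF val) (ref_fR val 1) (ref_fR val 0) (vn val (.al .one))
      (P.meas_R (fR val 1) (vn val (.al g) * act val P w N))
    have a3 := rank_step_hi P (fF val) (ref_fR val 1) (vn val (.al g)) (act val P w N)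
    have a4 := rank_step_hi P (fF val) (ref_fR val 0) (vn val (.al .one))
      (P.R (fR val 1) (vn val (.al g) * act val P w N))
    have b1 := h.fl_a g
    have b2 := h.fl_b g
    have b3 := h.fl_a .one
    have b4 := h.fl_b .one
    have b5 := h.net_x g
    have b6 := h.net_y
    simp only [act, sharp, flat, List.length_cons, Nat.cast_add, Nat.cast_one]
    constructor <;> nlinarith

end

namespace L2

variable {Ω : Type} [Fintype Ω] {val : Var → Ω → List Bool} {P : PS Ω} {t e : ℝ}

/-- Translation-invariance defect of a `Y`-name. -/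
noncomputable def GY (val : Var → Ω → List Bool) (P : PS Ω) (M : Nm Ω) : ℝ :=
  P.D M (vn val .r * P.R (fF val) (M * vn val .r))

theorem leak_flat (h : Facts P val t e) (g : G0) (N : Nm Ω) :
    P.D (flat val P g N) (vn val (.pt .Y)) ≤ P.D N (vn val (.pt .X)) + e := by
  have a := leak_pull P (π := fR val 1) (vn val (.al g)) N (vn val (.pt .X))
    (meas_vR val 1 (.pt .Y) rfl)
  have b := h.fl_l g
  unfold flat
  linarith

theorem leak_sharp (h : Facts P val t e) (M : Nm Ω) :
    P.D (sharp val P M) (vn val (.pt .X)) ≤ P.D M (vn val (.pt .Y)) + e := by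
  have a := leak_pull P (π := fR val 0) (vn val (.al .one)) M (vn val (.pt .Y))
    (meas_vR val 0 (.pt .X) rfl)
  have b := h.sh_l
  unfold sharp
  linarith

theorem leak_natu (h : Facts P val t e) (N : Nm Ω) :
    P.D (natu val P N) (vn val (.al .one)) ≤ P.D N (vn val (.pt .X)) + e := by
  have a := leak_pull P (π := fR val 2) (vn val (.pt .Y)) N (vn val (.pt .X))
    (meas_vR val 2 (.al .one) rfl)
  have b := h.z_l
  unfold natu
  linarith

theorem good_flat (h : Facts P val t e) (g : G0) (N : Nm Ω) :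
    GY val P (flat val P g N) ≤ GX val P N + 2 * P.D N (vn val (.pt .X)) + 5 * e := by
  have a := good_pull P (fF val) (ref_fR val 1) (vn val .s) N (vn val (.al g)) (vn val (.pt .X))
    (vn val (.pt .Y)) (meas_vR val 1 .r rfl) (meas_vF val (.ph g) rfl) (vn_abs P val (.ph g))
    (meas_vF val (.pt .V) rfl)
  have b1 := h.fl_a g
  have b2 := h.fl_d g
  have b3 := h.fl_p g
  have b4 := h.fl_q g
  unfold GY GX flat
  linarith

theorem good_sharp (h : Facts P val t e) (M : Nm Ω) :
    GX val P (sharp val P M) ≤ GY val P M + 2 * P.D M (vn val (.pt .Y)) + 5 * e := by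
  have a := good_pull P (fF val) (ref_fR val 0) (vn val .r) M (vn val (.al .one))
    (vn val (.pt .Y)) (vn val (.pt .X)) (meas_vR val 0 .s rfl) (meas_vF val (.ph .one) rfl)
    (vn_abs P val (.ph .one)) (meas_vF val (.pt .U) rfl)
  have b1 := h.fl_b .one
  have b2 := h.sh_d
  have b3 := h.sh_p
  have b4 := h.sh_q
  unfold GY GX sharp
  linarith

theorem word_inv (h : Facts P val t e) (γ : Col) (w : List G0) :
    P.D (nmW val P (w, γ)) (vn val (.pt .X)) ≤ (2 * w.length + 1) * e ∧
      GX val P (nmW val P (w, γ)) ≤ 8 * ((w.length : ℝ) + 1) ^ 2 * e := by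
  have he := h.e_nonneg
  induction w with
  | nil =>
    have a := good_colour P (fF val) (vn val .s) (vn val (.cX γ)) (meas_vF val (.cU γ) rfl)
    have b1 := h.c_lX γ
    have b2 := h.c_gX1 γ
    have b3 := h.c_gX2 γ
    simp only [nmW, act, GX, List.length_nil, Nat.cast_zero]
    constructor <;> linarith
  | cons g w ih =>
    obtain ⟨ih1, ih2⟩ := ih
    have a1 := leak_flat h g (nmW val P (w, γ))
    have a2 := leak_sharp h (flat val P g (nmW val P (w, γ)))
    have a3 := good_flat h g (nmW val P (w, γ))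
    have a4 := good_sharp h (flat val P g (nmW val P (w, γ)))
    have e1 : nmW val P (g :: w, γ) = sharp val P (flat val P g (nmW val P (w, γ))) := rfl
    have hn : (0 : ℝ) ≤ w.length * e := mul_nonneg (Nat.cast_nonneg _) he
    rw [e1]
    simp only [List.length_cons, Nat.cast_add, Nat.cast_one]
    constructor <;> nlinarith

theorem word_bd (h : Facts P val t e) {L : ℕ} (a : CW) (ha : a.1.length ≤ L) :
    GX val P (nmW val P a) ≤ 8 * (((L : ℝ) + 1) ^ 2 * e) ∧
      P.D (nmW val P a) (vn val (.pt .X)) ≤ 2 * (((L : ℝ) + 1) ^ 2 * e) ∧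
      P.D (nmW val P a) (nmW val P a) ≤ 22 * (((L : ℝ) + 1) ^ 2 * e) ∧
      e ≤ ((L : ℝ) + 1) ^ 2 * e := by
  obtain ⟨w, γ⟩ := a
  obtain ⟨h1, h2⟩ := word_inv h γ w
  have he := h.e_nonneg
  have hw : (w.length : ℝ) ≤ L := by exact_mod_cast ha
  have hw0 : (0 : ℝ) ≤ w.length := Nat.cast_nonneg _
  have hL : (0 : ℝ) ≤ L := Nat.cast_nonneg _
  have c1 : ((w.length : ℝ) + 1) ^ 2 * e ≤ ((L : ℝ) + 1) ^ 2 * e :=
    mul_le_mul_of_nonneg_right (by nlinarith) he
  have c2 : (2 * (w.length : ℝ) + 1) * e ≤ 2 * (((L : ℝ) + 1) ^ 2 * e) := by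
    rw [← mul_assoc]
    exact mul_le_mul_of_nonneg_right (by nlinarith) he
  have c3 : e ≤ ((L : ℝ) + 1) ^ 2 * e := le_mul_of_one_le_left he (by nlinarith)
  have a := sd_le P (fF val) (vn val .s) (nmW val P (w, γ)) (vn val (.pt .X))
  have b1 := h.iXs
  have b2 := h.iFs
  unfold GX at *
  refine ⟨by linarith, by linarith, by linarith, c3⟩

end L2

namespace L2

variable {Ω : Type} [Fintype Ω] {val : Var → Ω → List Bool} {P : PS Ω} {t e : ℝ}

/-- Upward and downward defects together. -/
def UD (val : Var → Ω → List Bool) (P : PS Ω) (N K Dk : Nm Ω) (x : ℝ) : Prop :=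
  Up P (fF val) (vn val .s) N K Dk ≤ x ∧ Down P (fF val) (vn val .s) N K Dk ≤ x

theorem ud_self (N : Nm Ω) : UD val P N N (vn val .s) (GX val P N) := ⟨le_rfl, le_rfl⟩

theorem UD.peel (he : 0 ≤ e) {N K Dk : Nm Ω} {x : ℝ} (h : UD val P N K Dk x) (u : Fin 3)
    (a : Nm Ω) {D' : Nm Ω} (hD : Meas (fR val u) D') (h1 : P.I (det (fR val u)) a 1 ≤ e)
    (h2 : P.D Dk (a * D') ≤ e) : UD val P N (P.R (fR val u) (a * K)) D' (x + 2 * e) := by
  have a1 := up_peel P (fF val) (ref_fR val u) (vn val .s) N K Dk a hD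
  have a2 := down_peel P (fF val) (ref_fR val u) (vn val .s) N K Dk a hD
  have b1 := h.1
  have b2 := h.2
  constructor <;> linarith

theorem UD.mono {N K Dk : Nm Ω} {x y : ℝ} (h : UD val P N K Dk x) (hxy : x ≤ y) :
    UD val P N K Dk y := ⟨h.1.trans hxy, h.2.trans hxy⟩

theorem cmp (h : Facts P val t e) {N K₁ K₂ D₁ D₂ : Nm Ω} {x y : ℝ} (h₁ : UD val P N K₁ D₁ x)
    (h₂ : UD val P N K₂ D₂ x) (C A b : Nm Ω) (d₁ : P.D D₁ (C * A) ≤ e) (d₂ : P.D D₂ (C * A) ≤ e)
    (hi : P.I b A 1 ≤ e) (l₁ : P.D K₁ b ≤ y) (l₂ : P.D K₂ b ≤ y) (l₃ : P.D C b ≤ 0) :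
    P.D K₁ (K₂ * C) ≤ 2 * x + 2 * y + 4 * e := by
  have a := compare P (fF val) (vn val .s) N K₁ K₂ D₁ D₂ C A b
  have b1 := h₁.1
  have b2 := h₂.2
  have b3 := h.iFs
  linarith

/-- The difference name of three peels. -/
noncomputable def d3 (val : Var → Ω → List Bool) (b : Bool) (k g : G0) : Nm Ω :=
  vn val (.ph1 b k) * vn val (.ph3 b) * vn val (.ph2 b g)

theorem ud_three (h : Facts P val t e) (b : Bool) (k g : G0) (N : Nm Ω) :
    UD val P N (flat val P k (sharp val P (flat val P g N))) (vn val .r * d3 val b k g)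
      (GX val P N + 6 * e) := by
  have he := h.e_nonneg
  have s1 := (ud_self (val := val) (P := P) N).peel he 1 (vn val (.al g))
    (D' := vn val (.rb b) * vn val (.ph2 b g))
    ((meas_vR val 1 _ rfl).mul (meas_vR val 1 _ rfl)) (h.fl_a g)
    (by rw [← mul_assoc]; exact h.r_d2 b g)
  have s2 := s1.peel he 0 (vn val (.al .one))
    (D' := vn val (.sb b) * vn val (.ph3 b) * vn val (.ph2 b g))
    (((meas_vR val 0 _ rfl).mul (meas_vR val 0 _ rfl)).mul (meas_vR val 0 _ rfl)) (h.fl_b .one)
    (by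
      refine (P.D_mul_le _ _ _).trans ?_
      have c1 := (D_weak P (vn val (.ph2 b g)) (C' := vn val (.al .one) *
        (vn val (.sb b) * vn val (.ph3 b) * vn val (.ph2 b g))) (by ac_rfl)).trans (h.r_d3 b)
      have c2 := vn_in P val (.ph2 b g) (C := vn val (.al .one) *
        (vn val (.sb b) * vn val (.ph3 b) * vn val (.ph2 b g)))
        (vn val (.al .one) * vn val (.sb b) * vn val (.ph3 b)) (by ac_rfl)
      linarith)
  have s3 := s2.peel he 1 (vn val (.al k)) (D' := vn val .r * d3 val b k g)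
    ((meas_vR val 1 _ rfl).mul (((meas_vR val 1 _ rfl).mul (meas_vR val 1 _ rfl)).mul
      (meas_vR val 1 _ rfl))) (h.fl_a k)
    (by
      refine (P.D_mul_le _ _ _).trans ?_
      refine (add_le_add_left (P.D_mul_le _ _ _) _).trans ?_
      have c1 := (D_weak P (vn val (.ph3 b) * vn val (.ph2 b g))
        (C' := vn val (.al k) * (vn val .r * d3 val b k g))
        (by unfold d3; ac_rfl)).trans (h.r_d1 b k)
      have c2 := vn_in P val (.ph2 b g) (C := vn val (.al k) * (vn val .r * d3 val b k g))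
        (vn val (.al k) * vn val .r * vn val (.ph1 b k) * vn val (.ph3 b)) (by unfold d3; ac_rfl)
      have c3 := vn_in P val (.ph3 b) (C := vn val (.al k) * (vn val .r * d3 val b k g))
        (vn val (.al k) * vn val .r * vn val (.ph1 b k) * vn val (.ph2 b g))
        (by unfold d3; ac_rfl)
      linarith)
  exact s3.mono (by linarith)

theorem d3_in (b : Bool) (k g : G0) {C : Nm Ω} (E : Nm Ω)
    (hE : C = vn val .r * d3 val b k g * E) : P.D (vn val .r * d3 val b k g) C ≤ 0 := by
  subst hE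
  refine (P.D_mul_le _ _ _).trans ?_
  have c0 := vn_in P val .r (C := vn val .r * d3 val b k g * E) (d3 val b k g * E) (by ac_rfl)
  have c1 := vn_in P val (.ph1 b k) (C := vn val .r * d3 val b k g * E)
    (vn val .r * vn val (.ph3 b) * vn val (.ph2 b g) * E) (by unfold d3; ac_rfl)
  have c2 := vn_in P val (.ph2 b g) (C := vn val .r * d3 val b k g * E)
    (vn val .r * vn val (.ph3 b) * vn val (.ph1 b k) * E) (by unfold d3; ac_rfl)
  have c3 := vn_in P val (.ph3 b) (C := vn val .r * d3 val b k g * E)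
    (vn val .r * vn val (.ph2 b g) * vn val (.ph1 b k) * E) (by unfold d3; ac_rfl)
  have c4 := P.D_mul_le (vn val (.ph1 b k) * vn val (.ph3 b)) (vn val (.ph2 b g))
    (vn val .r * d3 val b k g * E)
  have c5 := P.D_mul_le (vn val (.ph1 b k)) (vn val (.ph3 b)) (vn val .r * d3 val b k g * E)
  change _ + P.D (vn val (.ph1 b k) * vn val (.ph3 b) * vn val (.ph2 b g)) _ ≤ 0
  linarith

theorem core_r2 (h : Facts P val t e) {k g k' g' : G0} (hr : Rule2 k g k' g') (N : Nm Ω) :
    P.D (flat val P k (sharp val P (flat val P g N)))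
        (flat val P k' (sharp val P (flat val P g' N))) ≤
      2 * GX val P N + 2 * P.D N (vn val (.pt .X)) + 22 * e ∧
    P.D (flat val P k' (sharp val P (flat val P g' N)))
        (flat val P k (sharp val P (flat val P g N))) ≤
      2 * GX val P N + 2 * P.D N (vn val (.pt .X)) + 22 * e := by
  have he := h.e_nonneg
  have u1 := ud_three h false k g N
  have u2 := ud_three h true k' g' N
  have lk : ∀ k g, P.D (flat val P k (sharp val P (flat val P g N))) (vn val (.pt .Y)) ≤
      P.D N (vn val (.pt .X)) + 3 * e := by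
    intro k g
    have a1 := leak_flat h g N
    have a2 := leak_sharp h (flat val P g N)
    have a3 := leak_flat h k (sharp val P (flat val P g N))
    linarith
  have hi := h.r_i k g k' g' hr
  change P.I _ (vn val .r * d3 val false k g * d3 val true k' g') 1 ≤ e at hi
  have e1 := (d3_in (P := P) false k g (C := 1 * (vn val .r * d3 val false k g * d3 val true k' g'))
    (d3 val true k' g') (one_mul _)).trans he
  have e2 := (d3_in (P := P) true k' g' (C := 1 * (vn val .r * d3 val false k g * d3 val true k' g'))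
    (d3 val false k g) (by rw [one_mul]; ac_rfl)).trans he
  have c1 := cmp h u1 u2 1 _ _ e1 e2 hi (lk k g) (lk k' g') (D_one_left P _).le
  have c2 := cmp h u2 u1 1 _ _ e2 e1 hi (lk k' g') (lk k g) (D_one_left P _).le
  rw [mul_one] at c1 c2
  constructor <;> linarith

theorem ud_flat (h : Facts P val t e) (N : Nm Ω) :
    UD val P N (flat val P .one N) (vn val .r * vn val (.ph .one)) (GX val P N + 2 * e) :=
  (ud_self (val := val) (P := P) N).peel h.e_nonneg 1 (vn val (.al .one))
    ((meas_vR val 1 _ rfl).mul (meas_vR val 1 _ rfl)) (h.fl_a .one)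
    (by rw [← mul_assoc]; exact h.fl_d .one)

theorem ud_natu (h : Facts P val t e) (N : Nm Ω) :
    UD val P N (natu val P N) (vn val .sg) (GX val P N + 2 * e) :=
  (ud_self (val := val) (P := P) N).peel h.e_nonneg 2 (vn val (.pt .Y))
    (meas_vR val 2 _ rfl) h.z_a (by rw [mul_comm]; exact h.z_ds)

theorem rph_al (h : Facts P val t e) :
    P.D (vn val .r * vn val (.ph .one)) (vn val (.al .one) * (vn val .s * vn val (.ph .one))) ≤
      e := by
  refine (P.D_mul_le _ _ _).trans ?_
  have c1 := h.sh_d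
  have c2 := vn_in P val (.ph .one) (C := vn val (.al .one) * (vn val .s * vn val (.ph .one)))
    (vn val (.al .one) * vn val .s) (by ac_rfl)
  rw [mul_assoc] at c1
  linarith

theorem core_r1 (h : Facts P val t e) (N : Nm Ω) :
    P.D (sharp val P (flat val P .one N)) N ≤
      2 * GX val P N + 2 * P.D N (vn val (.pt .X)) + 16 * e ∧
    P.D N (sharp val P (flat val P .one N)) ≤
      2 * GX val P N + 2 * P.D N (vn val (.pt .X)) + 16 * e := by
  have he := h.e_nonneg
  have u1 : UD val P N (sharp val P (flat val P .one N)) (vn val .s * vn val (.ph .one))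
      (GX val P N + 4 * e) :=
    ((ud_flat h N).peel he 0 (vn val (.al .one))
      ((meas_vR val 0 _ rfl).mul (meas_vR val 0 _ rfl)) (h.fl_b .one) (rph_al h)).mono
      (by linarith)
  have u2 : UD val P N N (vn val .s) (GX val P N + 4 * e) := (ud_self N).mono (by linarith)
  have l1 : P.D (sharp val P (flat val P .one N)) (vn val (.pt .X)) ≤
      P.D N (vn val (.pt .X)) + 2 * e := by
    have a1 := leak_flat h .one N
    have a2 := leak_sharp h (flat val P .one N)
    linarith
  have l2 : P.D N (vn val (.pt .X)) ≤ P.D N (vn val (.pt .X)) + 2 * e := by linarith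
  have hi : P.I (vn val (.pt .X)) (vn val .s * vn val (.ph .one)) 1 ≤ e :=
    (I_weak P (vn val (.pt .Y) * vn val (.al .one)) (mul_assoc _ _ _)).trans h.z_i2
  have e2 : P.D (vn val .s) (1 * (vn val .s * vn val (.ph .one))) ≤ 0 :=
    vn_in P val .s _ (one_mul _)
  have e1 : P.D (vn val .s * vn val (.ph .one)) (1 * (vn val .s * vn val (.ph .one))) ≤ e := by
    refine (P.D_mul_le _ _ _).trans ?_
    have := vn_in P val (.ph .one) (C := 1 * (vn val .s * vn val (.ph .one))) (vn val .s)
      (by rw [one_mul, mul_comm])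
    linarith
  have c1 := cmp h u1 u2 1 _ _ e1 (e2.trans he) hi l1 l2 (D_one_left P _).le
  have c2 := cmp h u2 u1 1 _ _ (e2.trans he) e1 hi l2 l1 (D_one_left P _).le
  rw [mul_one] at c1 c2
  constructor <;> linarith

theorem core_rc (h : Facts P val t e) {g : G0} {γ γ' : Col} (hr : RuleC g γ γ') :
    P.D (nmW val P ([g], γ)) (vn val (.cX γ')) ≤ 7 * e ∧
    P.D (vn val (.cX γ')) (nmW val P ([g], γ)) ≤
      P.D (nmW val P ([g], γ)) (nmW val P ([g], γ)) + 2 * e := by
  have h1 : RuleC .one γ' γ' := fun _ _ => Iff.rfl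
  have mY := meas_vR val 1 (.cY γ') rfl
  have mX := meas_vR val 0 (.cX γ') rfl
  have a1 := pull_up P (vn val (.al g)) (vn val (.cX γ)) mY
  have a2 := pull_down P (vn val (.al g) * vn val (.cX γ)) mY
  have a3 := pull_up P (vn val (.al .one)) (vn val (.cY γ')) mX
  have a4 := pull_down P (vn val (.al .one) * vn val (.cY γ')) mX
  have b1 := h.fl_a g
  have b2 := h.fl_b .one
  have b3 := h.c_r1 g γ γ' hr
  have b4 := h.c_r2 g γ γ' hr
  have b5 := h.c_r1 .one γ' γ' h1
  have b6 := h.c_r2 .one γ' γ' h1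
  have e1 : nmW val P ([g], γ) = P.R (fR val 0) (vn val (.al .one) *
    P.R (fR val 1) (vn val (.al g) * vn val (.cX γ))) := rfl
  rw [e1]
  set M := P.R (fR val 1) (vn val (.al g) * vn val (.cX γ))
  have m1 := P.D_R_mono (fR val 0) (vn val (.al .one)) M (vn val (.cY γ'))
  have m2 := P.D_R_mono (fR val 0) (vn val (.al .one)) (vn val (.cY γ')) M
  set A := P.R (fR val 0) (vn val (.al .one) * M)
  set S := P.R (fR val 0) (vn val (.al .one) * vn val (.cY γ'))
  set c := vn val (.cX γ')
  have t1 := P.D_tri S c S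
  have t2 := D_weak P (A := S) (C := c) (C' := c * S) S (mul_comm _ _)
  have t3 := P.D_tri A S c
  have t4 := D_weak P (A := A) (C := S) (C' := S * c) c (mul_comm _ _)
  have t5 := P.D_tri c S A
  have t6 := D_weak P (A := c) (C := S) (C' := S * A) A (mul_comm _ _)
  constructor <;> linarith

theorem ctx (h : Facts P val t e) {L : ℕ} (u : List G0) (a b : CW)
    (hb : (u ++ b.1).length ≤ L) :
    P.D (nmW val P (u ++ a.1, a.2)) (nmW val P (u ++ b.1, b.2)) ≤
      22 * (((L : ℝ) + 1) ^ 2 * e) + P.D (nmW val P a) (nmW val P b) := by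
  have e1 : ∀ c : CW, nmW val P (u ++ c.1, c.2) = (chanW val P u).app (nmW val P c) := by
    intro c
    rw [app_chanW]
    exact act_append val P u c.1 _
  have a1 := (word_bd h (u ++ b.1, b.2) hb).2.2.1
  have a2 := (chanW val P u).D_app_mono' (nmW val P a) (nmW val P b)
  rw [e1] at a1
  rw [e1, e1]
  linarith

end L2

/-- Names of coloured words are good, leak little and are self-consistent. -/
theorem good_word : ∃ C : ℝ, 0 < C ∧ ∀ {Ω : Type} [Fintype Ω] (val : Var → Ω → List Bool)
    (P : PS Ω) (t e : ℝ), Facts P val t e → ∀ (L : ℕ) (a : CW), a.1.length ≤ L →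
      GX val P (nmW val P a) ≤ C * (L + 1) ^ 2 * e ∧
      P.D (nmW val P a) (vn val (.pt .X)) ≤ C * (L + 1) ^ 2 * e ∧
      P.D (nmW val P a) (nmW val P a) ≤ C * (L + 1) ^ 2 * e := by
  refine ⟨22, by norm_num, ?_⟩
  intro Ω _ val P t e h L a ha
  obtain ⟨h1, h2, h3, h4⟩ := word_bd h a ha
  have he := h.e_nonneg
  rw [mul_assoc]
  exact ⟨by linarith, by linarith, h3⟩

/-- The cost of one rewriting step. -/
theorem step_cost : ∃ C : ℝ, 0 < C ∧ ∀ {Ω : Type} [Fintype Ω] (val : Var → Ω → List Bool)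
    (P : PS Ω) (t e : ℝ), Facts P val t e → ∀ (L : ℕ) (a b : CW), a.1.length ≤ L →
      b.1.length ≤ L → Step a b →
      P.D (nmW val P a) (nmW val P b) ≤ C * (L + 1) ^ 2 * e ∧
      P.D (nmW val P b) (nmW val P a) ≤ C * (L + 1) ^ 2 * e := by
  refine ⟨100, by norm_num, ?_⟩
  intro Ω _ val P t e h L a b ha hb hs
  have he := h.e_nonneg
  rw [mul_assoc]
  cases hs with
  | r2 u v k g k' g' γ hr =>
    have c1 := ctx h u (k :: g :: v, γ) (k' :: g' :: v, γ) hb
    have c2 := ctx h u (k' :: g' :: v, γ) (k :: g :: v, γ) ha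
    simp only [List.length_append, List.length_cons] at ha hb
    obtain ⟨n1, n2, -, n4⟩ := word_bd h (L := L) (v, γ) (by simp only; omega)
    have s1 := (word_bd h (L := L) (k :: g :: v, γ) (by simp only [List.length_cons]; omega)).2.2.1
    have s2 := (word_bd h (L := L) (k' :: g' :: v, γ)
      (by simp only [List.length_cons]; omega)).2.2.1
    obtain ⟨r1, r2⟩ := core_r2 h hr (nmW val P (v, γ))
    have m1 := P.D_R_mono (fR val 0) (vn val (.al .one))
      (flat val P k (sharp val P (flat val P g (nmW val P (v, γ)))))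
      (flat val P k' (sharp val P (flat val P g' (nmW val P (v, γ)))))
    have m2 := P.D_R_mono (fR val 0) (vn val (.al .one))
      (flat val P k' (sharp val P (flat val P g' (nmW val P (v, γ)))))
      (flat val P k (sharp val P (flat val P g (nmW val P (v, γ)))))
    change P.D (nmW val P (k :: g :: v, γ)) (nmW val P (k' :: g' :: v, γ)) ≤
      P.D (nmW val P (k' :: g' :: v, γ)) (nmW val P (k' :: g' :: v, γ)) + _ at m1
    change P.D (nmW val P (k' :: g' :: v, γ)) (nmW val P (k :: g :: v, γ)) ≤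
      P.D (nmW val P (k :: g :: v, γ)) (nmW val P (k :: g :: v, γ)) + _ at m2
    simp only at c1 c2
    constructor <;> linarith
  | r1 u v γ =>
    have c1 := ctx h u (.one :: v, γ) (v, γ) hb
    have c2 := ctx h u (v, γ) (.one :: v, γ) ha
    simp only [List.length_append, List.length_cons] at ha hb
    obtain ⟨n1, n2, -, n4⟩ := word_bd h (L := L) (v, γ) (by simp only; omega)
    obtain ⟨r1, r2⟩ := core_r1 h (nmW val P (v, γ))
    change P.D (nmW val P (.one :: v, γ)) _ ≤ _ at r1
    change P.D _ (nmW val P (.one :: v, γ)) ≤ _ at r2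
    simp only at c1 c2
    constructor <;> linarith
  | rc u g γ γ' hr =>
    have c1 := ctx h u ([g], γ) ([], γ') (by simpa using hb)
    have c2 := ctx h u ([], γ') ([g], γ) ha
    simp only [List.length_append, List.length_cons] at ha hb
    obtain ⟨-, -, n3, n4⟩ := word_bd h (L := L) ([g], γ)
      (by simp only [List.length_cons]; omega)
    obtain ⟨r1, r2⟩ := core_rc h hr
    change P.D _ (nmW val P ([], γ')) ≤ _ at r1
    change P.D (nmW val P ([], γ')) _ ≤ _ at r2
    simp only [List.append_nil] at c1 c2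
    constructor <;> linarith

/-- A good `X`-name extends to an aligned triple. -/
theorem triple_exists : ∃ C : ℝ, 0 < C ∧ ∀ {Ω : Type} [Fintype Ω] (val : Var → Ω → List Bool)
    (P : PS Ω) (t e : ℝ), Facts P val t e → ∀ (N : Nm Ω) (ζ : ℝ), Meas (fR val 0) N →
      GX val P N ≤ ζ → P.D N (vn val (.pt .X)) ≤ ζ →
      ∃ A : Tri (fR val), A.nm 0 = N ∧ Al P (fR val) (fF val) A (C * (ζ + e)) := by
  refine ⟨30, by norm_num, ?_⟩
  intro Ω _ val P t e h N ζ hN hG hL
  have he := h.e_nonneg
  have hζ : 0 ≤ ζ := (P.D_nonneg _ _).trans hL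
  have m1 : Meas (fR val 1) (flat val P .one N) := P.meas_R _ _
  have m2 : Meas (fR val 2) (natu val P N) := P.meas_R _ _
  have u0 : UD val P N N (vn val .s) (ζ + 2 * e) := (ud_self N).mono (by linarith)
  have u1 : UD val P N (flat val P .one N) (vn val .r * vn val (.ph .one)) (ζ + 2 * e) :=
    (ud_flat h N).mono (by linarith)
  have u2 : UD val P N (natu val P N) (vn val .sg) (ζ + 2 * e) := (ud_natu h N).mono (by linarith)
  have mX := meas_vR val 0 (.pt .X) rfl
  have mY := meas_vR val 1 (.pt .Y) rfl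
  have mZ := meas_vR val 2 (.al .one) rfl
  have aX := vn_abs P val (.pt .X)
  have aY := vn_abs P val (.pt .Y)
  have aZ := vn_abs P val (.al .one)
  have aS := vn_abs P val .s
  have aG := vn_abs P val .sg
  have aP := vn_abs P val (.ph .one)
  have k1 := leak_flat h .one N
  have k2 := leak_natu h N
  have i1 := h.z_i1
  have i2 := h.z_i2
  have f1 := h.z_ds
  have f2 := h.z_dr
  have f3 := rph_al h
  have n01 := h.net_i 0 1 (by decide)
  have n12 := h.net_i 1 2 (by decide)
  have n20 := h.net_i 2 0 (by decide)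
  generalize flat val P .one N = N₁ at *
  generalize natu val P N = N₂ at *
  generalize vn val (.pt .X) = X at *
  generalize vn val (.pt .Y) = Y at *
  generalize vn val (.al .one) = Z at *
  generalize vn val .sg = G at *
  generalize vn val .sg' = G' at *
  generalize vn val .r = r at *
  generalize vn val (.ph .one) = φ at *
  have l0 : P.D N (X * Y * Z) ≤ ζ + e := by
    have := D_weak P (A := N) (C := X) (C' := X * Y * Z) (Y * Z) (by ac_rfl)
    linarith
  have l1 : P.D N₁ (X * Y * Z) ≤ ζ + e := by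
    have := D_weak P (A := N₁) (C := Y) (C' := X * Y * Z) (X * Z) (by ac_rfl)
    linarith
  have l2 : P.D N₂ (X * Y * Z) ≤ ζ + e := by
    have := D_weak P (A := N₂) (C := Z) (C' := X * Y * Z) (X * Y) (by ac_rfl)
    linarith
  have cX : P.D X (X * Y * Z) ≤ 0 := by rw [mul_assoc, aX]
  have cY : P.D Y (X * Y * Z) ≤ 0 := by rw [mul_comm X Y, mul_assoc, aY]
  have cZ : P.D Z (X * Y * Z) ≤ 0 := by rw [mul_comm _ Z, aZ]
  have dX1 : P.D (r * φ) (X * (G * G' * φ)) ≤ e := by
    refine (P.D_mul_le _ _ _).trans ?_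
    have a := D_weak P (A := r) (C := G' * X) (C' := X * (G * G' * φ)) (G * φ) (by ac_rfl)
    have b : P.D φ (X * (G * G' * φ)) = 0 := by
      rw [← aP (X * G * G')]; congr 1; ac_rfl
    linarith
  have dG : ∀ c, P.D G (c * (G * G' * φ)) ≤ e := by
    intro c
    have b : P.D G (c * (G * G' * φ)) = 0 := by
      rw [← aG (c * G' * φ)]; congr 1; ac_rfl
    linarith
  have dY0 : P.D (vn val .s) (Y * (G * G' * φ)) ≤ e :=
    (D_weak P (C := G * Y) (G' * φ) (by ac_rfl)).trans f1
  have dZ0 : P.D (vn val .s) (Z * (vn val .s * φ)) ≤ e := by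
    have b : P.D (vn val .s) (Z * (vn val .s * φ)) = 0 := by
      rw [← aS (Z * φ)]; congr 1; ac_rfl
    linarith
  have c12 := cmp h u1 u2 X _ _ dX1 (dG X) i1 l1 l2 cX
  have c21 := cmp h u2 u1 X _ _ (dG X) dX1 i1 l2 l1 cX
  have c02 := cmp h u0 u2 Y _ _ dY0 (dG Y) i1 l0 l2 cY
  have c20 := cmp h u2 u0 Y _ _ (dG Y) dY0 i1 l2 l0 cY
  have c01 := cmp h u0 u1 Z _ _ dZ0 f3 i2 l0 l1 cZ
  have c10 := cmp h u1 u0 Z _ _ f3 dZ0 i2 l1 l0 cZ
  have star : ∀ {K A B a b : Nm Ω} {u v : Fin 3}, Meas (fR val u) a → Meas (fR val u) A →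
      Meas (fR val v) b → Meas (fR val v) B →
      P.I (det (fR val u)) (det (fR val v)) (det (fF val)) ≤ e →
      P.D K (B * a) ≤ 2 * (ζ + 2 * e) + 2 * (ζ + e) + 4 * e →
      P.D K (A * b) ≤ 2 * (ζ + 2 * e) + 2 * (ζ + e) + 4 * e →
      P.D K (A * B * det (fF val)) ≤ 30 * (ζ + e) := by
    intro K A B a b u v ha hA hb hB hi h1 h2
    have s1 := P.D_star K a b (A * B * det (fF val))
    have s2 := I_two P ha hA hb hB (det (fF val))
    have s3 := D_weak P (A := K) (C := B * a) (C' := a * (A * B * det (fF val)))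
      (A * det (fF val)) (by ac_rfl)
    have s4 := D_weak P (A := K) (C := A * b) (C' := b * (A * B * det (fF val)))
      (B * det (fF val)) (by ac_rfl)
    linarith
  refine ⟨⟨![N, N₁, N₂], ?_⟩, rfl, ?_⟩
  · intro u
    fin_cases u
    exacts [hN, m1, m2]
  · intro u
    fin_cases u
    · exact star mY m1 mZ m2 n12 c02 c01
    · exact star mZ m2 mX hN n20 c10 c12
    · exact star mX hN mY m1 n01 c21 c20

end Pool.Agent.Lib.MP_a7c6c3_lc
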