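import Pool.Agent.Lib.MP_a7c6c3_lc.PairTest
import Pool.Agent.Lib.MP_a7c6c3_lc.Amplify
import Pool.Agent.Lib.MP_a7c6c3_lc.Lat3
import Pool.Agent.Lib.MP_a7c6c3_lc.BitsAsm
import Pool.Agent.Lib.MP_a7c6c3_lc.GenFacts

/-! Module `NoComb`: the structure `Comb` does not exist with logarithmic error. -/

set_option autoImplicit false

namespace Pool.Agent.Lib.MP_a7c6c3_lc

open Filter

theorem NoComb.ev_lin (D : ℝ) : ∀ᶠ n : ℕ in atTop, D * n ≤ 2 ^ n := by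
  have h1 := tendsto_pow_const_div_const_pow_of_one_lt 1 (one_lt_two : (1 : ℝ) < 2)
  have h2 : (0 : ℝ) < 1 / (|D| + 1) := by positivity
  filter_upwards [h1.eventually (gt_mem_nhds h2)] with n hn
  rw [pow_one, div_lt_div_iff₀ (by positivity) (by positivity)] at hn
  have h3 : D * n ≤ |D| * n := mul_le_mul_of_nonneg_right (le_abs_self D) (Nat.cast_nonneg n)
  have h4 : (0 : ℝ) ≤ n := Nat.cast_nonneg n
  linarith

theorem NoComb.exists_k (D C : ℝ) : ∃ k : ℕ,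
    D * ((2 ^ k : ℕ) : ℝ) ≤ 2 ^ (2 ^ k) ∧ (0 ≤ C → C ^ (k + 9 + 1) ≤ 2 ^ (2 ^ k)) := by
  obtain ⟨c, hc⟩ := pow_unbounded_of_one_lt C (one_lt_two : (1 : ℝ) < 2)
  have h1 := (tendsto_pow_atTop_atTop_of_one_lt (one_lt_two : (1 : ℕ) < 2)).eventually
    (NoComb.ev_lin D)
  obtain ⟨k, h2, h3, h4⟩ :=
    (h1.and ((NoComb.ev_lin (11 * c)).and (eventually_ge_atTop 1))).exists
  refine ⟨k, h2, fun h0 => ?_⟩
  have h5 : 11 * c * k ≤ 2 ^ k := by exact_mod_cast h3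
  have h6 : c * (k + 9 + 1) ≤ 2 ^ k := by nlinarith
  calc C ^ (k + 9 + 1) ≤ (2 ^ c) ^ (k + 9 + 1) := pow_le_pow_left₀ h0 hc.le _
    _ = 2 ^ (c * (k + 9 + 1)) := (pow_mul _ _ _).symm
    _ ≤ _ := pow_le_pow_right₀ one_le_two h6

theorem NoComb.dlt_le {s ε E : ℝ} (hs : 2 ≤ s) (h1 : ε ≤ s ^ 59) (h2 : E ≤ s ^ 512 * s ^ 59) :
    dlt (s ^ 512) (s ^ 384) ε E ≤ 1 / s ^ 45 := by
  have h0 : 0 < s := by linarith
  have e1 : √(s ^ 512) = s ^ 256 := by
    rw [show s ^ 512 = (s ^ 256) ^ 2 by ring, Real.sqrt_sq (by positivity)]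
  have e2 : s ^ 384 / (s ^ 512) ^ 2 + 1 / (s ^ 384 * s ^ 256) = 2 / s ^ 640 := by
    field_simp
    ring
  have h3 : s ^ 512 * ε ≤ s ^ 512 * s ^ 59 := by gcongr
  have h4 : (2 : ℝ) ^ 2 ≤ s ^ 24 :=
    (pow_le_pow_left₀ (by norm_num) hs 2).trans (pow_le_pow_right₀ (by linarith) (by norm_num))
  rw [dlt, e1, e2]
  calc _ ≤ (2 * (s ^ 512 * s ^ 59)) * (2 / s ^ 640) := by gcongr; linarith
    _ = 2 ^ 2 / s ^ 69 := by field_simp
    _ ≤ s ^ 24 / s ^ 69 := by gcongr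
    _ = _ := by field_simp

theorem NoComb.good_mono {Ω : Type} [Fintype Ω] {T : Type} [DecidableEq T] {P : PS Ω}
    {π : Fin 3 → Ω → T} {F : Ω → T} {K : Chan P} {ε ε' : ℝ} (h : GoodChan P π F K ε)
    (hε : ε ≤ ε') : GoodChan P π F K ε' :=
  ⟨h.pres, h.smeas, h.mask.trans hε, fun N hN => (h.rank N hN).trans (by linarith)⟩

theorem no_comb (C : ℝ) : ∃ T : ℝ, 2 ≤ T ∧ ∀ (t e : ℝ) (A : Finset (Var → List Bool)),
    T ≤ t → t ≤ 2 * T → 0 ≤ e → e ≤ C * Real.log T → ¬ Comb t e A := by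
  obtain ⟨s₀, hpair⟩ := pair_test
  obtain ⟨Cr, hCr, hrc⟩ := rc_exists
  obtain ⟨Cb, hCb, hbits⟩ := bits_exist
  obtain ⟨k, hD, hC⟩ := NoComb.exists_k (1025 + 6024 * |C| + Cb + |s₀|) Cr
  replace hC := hC (by linarith)
  obtain ⟨l, hl⟩ : ∃ l : ℕ, l = 2 ^ k := ⟨_, rfl⟩
  rw [← hl] at hD hC
  have hl1 : 1 ≤ l := hl ▸ Nat.one_le_two_pow
  have hl1' : (1 : ℝ) ≤ l := by exact_mod_cast hl1
  obtain ⟨s, hs⟩ : ∃ s : ℝ, s = 2 ^ l := ⟨_, rfl⟩
  rw [← hs] at hD hC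
  have a1 := abs_nonneg C
  have a2 := abs_nonneg s₀
  have a3 : 0 ≤ |C| * l := by positivity
  have a4 : Cb ≤ Cb * l := le_mul_of_one_le_right (by linarith) hl1'
  have a5 : |s₀| ≤ |s₀| * l := le_mul_of_one_le_right a2 hl1'
  have b1 : 1025 * (l : ℝ) ≤ s := by linarith
  have b2 : 6024 * (|C| * l) ≤ s := by linarith
  have b3 : Cb ≤ s := by linarith
  have b4 : s₀ ≤ s := by linarith [le_abs_self s₀]
  have b5 : 1025 ≤ s := by linarith
  have s1 : 1 ≤ s := by linarith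
  have s0 : 0 < s := by linarith
  have hpow : ∀ {a b : ℕ}, a ≤ b → s ^ a ≤ s ^ b := fun h => pow_le_pow_right₀ s1 h
  refine ⟨s ^ 1004, ?_, fun t e A h1 h2 h3 h4 hA => ?_⟩
  · have := hpow (show 1 ≤ 1004 by norm_num)
    rw [pow_one] at this
    linarith
  have he : 6 * e ≤ s := by
    have c1 : Real.log s ≤ l := by
      rw [hs, Real.log_pow]
      have := Real.log_le_sub_one_of_pos (two_pos : (0 : ℝ) < 2)
      nlinarith
    have c2 : 0 ≤ Real.log s := Real.log_nonneg s1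
    have c3 : C * Real.log s ≤ |C| * l := mul_le_mul (le_abs_self C) c1 c2 a1
    rw [Real.log_pow] at h4
    push_cast at h4
    linarith
  obtain ⟨P, hF⟩ := facts_of_comb hA h3
  have hN := net_of_facts _ P hF
  obtain ⟨r, hr⟩ : ∃ r : ℕ, r = (2 ^ l) ^ 6 := ⟨_, rfl⟩
  have hr' : (r : ℝ) = s ^ 6 := by rw [hr, hs]; push_cast; rfl
  obtain ⟨j, hj⟩ : ∃ j : ℕ,
    Fintype.card (Fin r × ((Fin (k + 9) → Bool) ⊕ (Fin (k + 9) → Bool))) = j := ⟨_, rfl⟩
  let eq := Fintype.equivFinOfCardEq hj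
  have hΛ : Fintype.card (Fin (k + 9) → Bool) = 512 * l := by
    rw [Fintype.card_fun, Fintype.card_bool, Fintype.card_fin, pow_add, ← hl]; ring
  have hj' : (j : ℝ) + 1 ≤ s ^ 7 := by
    rw [Fintype.card_prod, Fintype.card_sum, Fintype.card_fin, hΛ] at hj
    rw [← hj]
    push_cast
    rw [hr']
    have c1 : 1 ≤ s ^ 6 := one_le_pow₀ s1
    have c2 : s ^ 6 * (1025 * l) ≤ s ^ 6 * s := by gcongr
    have c3 : 1 ≤ s ^ 6 * l := one_le_mul_of_one_le_of_one_le c1 hl1'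
    have c4 : s ^ 6 * s = s ^ 7 := by ring
    linarith
  have hR : Fintype.card ((Fin (k + 9) → Bool) → Bool) = 8 * 2 ^ (512 * l - 3) := by
    rw [Fintype.card_fun, Fintype.card_bool, hΛ, show 8 = 2 ^ 3 by norm_num, ← pow_add]
    congr 1
    omega
  have hq : (8 * ((2 ^ (512 * l - 3) : ℕ) : ℝ)) = s ^ 512 := by
    rw [hs, ← pow_mul, show (8 : ℝ) = 2 ^ 3 by norm_num]
    push_cast
    rw [← pow_add]
    congr 1
    omega
  have hR' : (Fintype.card ((Fin (k + 9) → Bool) → Bool) : ℝ) = s ^ 512 := by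
    rw [hR, ← hq]; push_cast; rfl
  have hL : (((2 ^ l) ^ 384 : ℕ) : ℝ) = s ^ 384 := by rw [hs]; push_cast; rfl
  obtain ⟨B⟩ := hbits _ P t (6 * e) hF j
  obtain ⟨ε, hε⟩ : ∃ ε : ℝ, ε = Cb * ((j : ℝ) + 1) ^ 8 * (6 * e) := ⟨_, rfl⟩
  have e0 : 0 ≤ 6 * e := by linarith
  have e1 : 6 * e ≤ ε := by
    rw [hε]
    exact le_mul_of_one_le_left e0 (one_le_mul_of_one_le_of_one_le hCb
      (one_le_pow₀ (by linarith [Nat.cast_nonneg (α := ℝ) j])))
  have e2 : ε ≤ s ^ 58 := by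
    rw [hε]
    calc _ ≤ s * (s ^ 7) ^ 8 * s := by gcongr
      _ = _ := by ring
  have e3 : ε ≤ Cr ^ (k + 9 + 1) * ε := le_mul_of_one_le_left (by linarith) (one_le_pow₀ hCr)
  have e4 : Cr ^ (k + 9 + 1) * ε ≤ s ^ 59 := by
    calc _ ≤ s * s ^ 58 := mul_le_mul hC e2 (by linarith) s0.le
      _ = _ := by ring
  rw [← hε] at B
  have key := fun i : Fin r => (hrc P _ _ t (6 * e) ε j B hN e1 (k + 9) (by omega)
    ⟨fun x => eq (i, x), fun x y h => (Prod.ext_iff.1 (eq.injective h)).2⟩).elim fun rc =>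
    hpair s b4 P _ _ t (6 * e) _ _ B.K _ _ rc (2 ^ (512 * l - 3)) ((2 ^ l) ^ 384) hN
      (e1.trans e3) (by
        have := hpow (show 1 ≤ 1004 by norm_num)
        rw [pow_one] at this
        linarith)
      (fun σ => NoComb.good_mono (B.good σ) e3) hR (by positivity)
      (by
        rw [← pow_mul]
        exact Nat.pow_le_pow_right (by norm_num) (by omega))
      (by rw [hq]; exact (hpow (by norm_num)).trans h1)
      (by rw [hq]; exact hpow (by norm_num))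
      (by
        rw [hq, div_le_div_iff₀ (by positivity) (by positivity)]
        calc _ = s ^ 1004 * s ^ 20 := by ring
          _ ≤ _ := by gcongr)
      (by
        rw [hq, div_le_div_iff₀ (by positivity) (by positivity)]
        calc _ ≤ 2 * s ^ 1004 * s ^ 20 := by gcongr
          _ = _ := by ring)
      (by
        rw [hq, hL, hR']
        refine NoComb.dlt_le (by linarith) e4 ?_
        rw [mul_comm (Cr ^ _), mul_assoc]
        gcongr)
  choose φ k1 k2 k3 k4 using key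
  have fin := amplify hN eq B.K B.good φ (1 / s ^ 4) (1 / (4 * s ^ 4)) k1 k2 k3
    (fun i σ => k4 i σ)
  have e5 : (r : ℝ) * (1 / s ^ 4 - 2 * (1 / (4 * s ^ 4))) = s * s / 2 := by
    rw [hr']
    field_simp
    ring
  rw [e5] at fin
  nlinarith

end Pool.Agent.Lib.MP_a7c6c3_lc
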