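import Pool.Agent.Lib.MP_a7c6c3_lc.Model
import Pool.Agent.Lib.MP_a7c6c3_lc.NoComb

set_option autoImplicit false

namespace Pool.Agent.Lib.MP_a7c6c3_lc

theorem not_halving : ¬ Halving := by
  intro hH
  obtain ⟨C, hC⟩ := model_exists hH
  obtain ⟨T, hT, h⟩ := no_comb C
  obtain ⟨t, e, A, h1, h2, h3, h4, h5⟩ := hC T hT
  exact h t e A h1 h2 h3 h4 h5

end Pool.Agent.Lib.MP_a7c6c3_lc
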