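import Pool.Agent.Lib.MP_a7c6c3_lc.Sys

/-! Module `StBasic`: elementary facts on the stack system. -/

set_option autoImplicit false
open Finset

namespace Pool.Agent.Lib.MP_a7c6c3_lc

/-- The inverse generator. -/
def G0.inv : G0 → G0
  | .one => .one
  | .mv p q => .mv q p
  | .fl p => .fl p

theorem ev_mv_self (p : Fin 6) (x : St) : ev (.mv p p) x = x := by simp [ev]

theorem ev_mv_nil {p q : Fin 6} (h : p ≠ q) {x : St} (hx : x p = []) :
    ev (.mv p q) x = Function.update (Function.update x p (x q)) q [] := by
  simp only [ev, if_neg h, hx]

theorem ev_mv_cons {p q : Fin 6} (h : p ≠ q) {x : St} {c : Bool} {l : List Bool}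
    (hx : x p = c :: l) :
    ev (.mv p q) x = Function.update (Function.update x p l) q (c :: x q) := by
  simp only [ev, if_neg h, hx]

theorem ev_fl_nil {p : Fin 6} {x : St} (hx : x p = []) : ev (.fl p) x = x := by
  simp only [ev, hx]

theorem ev_fl_cons {p : Fin 6} {x : St} {c : Bool} {l : List Bool} (hx : x p = c :: l) :
    ev (.fl p) x = Function.update x p ((!c) :: l) := by
  simp only [ev, hx]

theorem ev_inv_ev (g : G0) (x : St) : ev g.inv (ev g x) = x := by
  cases g with
  | one => rfl
  | mv p q =>
    by_cases h : p = q
    · subst h
      simp only [G0.inv, ev_mv_self]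
    · have h' : q ≠ p := fun e => h e.symm
      simp only [G0.inv]
      cases hx : x p with
      | nil =>
        rw [ev_mv_nil h hx, ev_mv_nil h' (by simp)]
        funext r
        by_cases hp : r = p
        · subst hp
          simp [hx]
        · by_cases hq : r = q
          · subst hq
            simp [h, h']
          · simp [hp, hq]
      | cons c l =>
        rw [ev_mv_cons h hx, ev_mv_cons (c := c) (l := x q) h' (by simp)]
        funext r
        by_cases hp : r = p
        · subst hp
          simp [hx, h]
        · by_cases hq : r = q
          · subst hq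
            simp [h']
          · simp [hp, hq]
  | fl p =>
    simp only [G0.inv]
    cases hx : x p with
    | nil => rw [ev_fl_nil hx, ev_fl_nil hx]
    | cons c l =>
      rw [ev_fl_cons hx, ev_fl_cons (c := !c) (l := l) (by simp)]
      funext r
      by_cases hp : r = p
      · subst hp
        simp [hx]
      · simp [hp]

theorem G0.inv_inv (g : G0) : g.inv.inv = g := by cases g <;> rfl

theorem ev_ev_inv (g : G0) (x : St) : ev g (ev g.inv x) = x := by
  have := ev_inv_ev g.inv x
  rwa [G0.inv_inv] at this

theorem ev_bijective (g : G0) : Function.Bijective (ev g) :=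
  ⟨Function.LeftInverse.injective (ev_inv_ev g), Function.RightInverse.surjective (ev_ev_inv g)⟩

theorem sum_length_update (x : St) (p : Fin 6) (l : List Bool) :
    ∑ r, (Function.update x p l r).length + (x p).length = ∑ r, (x r).length + l.length := by
  rw [← Finset.add_sum_erase univ _ (mem_univ p),
    ← Finset.add_sum_erase univ (fun r => (x r).length) (mem_univ p)]
  have : ∑ r ∈ univ.erase p, (Function.update x p l r).length =
      ∑ r ∈ univ.erase p, (x r).length :=
    Finset.sum_congr rfl fun r hr => by rw [Function.update_of_ne (Finset.ne_of_mem_erase hr)]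
  rw [this, Function.update_self]
  omega

theorem sum_length_ev (g : G0) (x : St) : ∑ p, (ev g x p).length = ∑ p, (x p).length := by
  cases g with
  | one => rfl
  | mv p q =>
    by_cases h : p = q
    · subst h
      rw [ev_mv_self]
    · have h' : q ≠ p := fun e => h e.symm
      cases hx : x p with
      | nil =>
        rw [ev_mv_nil h hx]
        have h1 := sum_length_update (Function.update x p (x q)) q []
        have h2 := sum_length_update x p (x q)
        rw [Function.update_of_ne h'] at h1
        rw [hx] at h2
        simp only [List.length_nil] at h1 h2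
        omega
      | cons c l =>
        rw [ev_mv_cons h hx]
        have h1 := sum_length_update (Function.update x p l) q (c :: x q)
        have h2 := sum_length_update x p l
        rw [Function.update_of_ne h'] at h1
        rw [hx] at h2
        simp only [List.length_cons] at h1 h2
        omega
  | fl p =>
    cases hx : x p with
    | nil => rw [ev_fl_nil hx]
    | cons c l =>
      rw [ev_fl_cons hx]
      have h2 := sum_length_update x p ((!c) :: l)
      rw [hx] at h2
      simp only [List.length_cons] at h2
      omega

theorem Good.ev {n : ℕ} {x : St} (h : Good (n + 1) x) (g : G0) : Good n (ev g x) := by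
  have h0 : Good n x := fun p => (Nat.le_succ n).trans (h p)
  cases g with
  | one => exact h0
  | mv p q =>
    by_cases hpq : p = q
    · subst hpq
      rw [ev_mv_self]
      exact h0
    · cases hx : x p with
      | nil =>
        have := h p
        rw [hx] at this
        simp at this
      | cons c l =>
        rw [ev_mv_cons hpq hx]
        intro r
        by_cases hq : r = q
        · subst hq
          have := h r
          simp only [Function.update_self, List.length_cons]
          omega
        · rw [Function.update_of_ne hq]
          by_cases hp : r = p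
          · subst hp
            have := h r
            rw [hx] at this
            simp only [Function.update_self]
            simpa using this
          · rw [Function.update_of_ne hp]
            exact h0 r
  | fl p =>
    cases hx : x p with
    | nil =>
      rw [ev_fl_nil hx]
      exact h0
    | cons c l =>
      rw [ev_fl_cons hx]
      intro r
      by_cases hp : r = p
      · subst hp
        have := h0 r
        rw [hx] at this
        simpa using this
      · rw [Function.update_of_ne hp]
        exact h0 r

theorem Good.mono {n m : ℕ} {x : St} (h : Good n x) (hm : m ≤ n) : Good m x :=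
  fun p => hm.trans (h p)

/-- States with `n` symbols in total. -/
def Stn (n : ℕ) : Type := {x : St // ∑ p, (x p).length = n}

/-- Binary code of a list of bits (with a leading `1`). -/
def bcode : List Bool → ℕ
  | [] => 1
  | b :: l => 2 * bcode l + b.toNat

theorem bcode_pos (l : List Bool) : 1 ≤ bcode l := by
  induction l with
  | nil => simp [bcode]
  | cons b l ih => simp only [bcode]; omega

theorem bcode_lt (l : List Bool) : bcode l < 2 ^ (l.length + 1) := by
  induction l with
  | nil => simp [bcode]
  | cons b l ih =>
    have := Bool.toNat_le b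
    simp only [bcode, List.length_cons, pow_succ] at ih ⊢
    omega

theorem bcode_inj : ∀ l l' : List Bool, bcode l = bcode l' → l = l'
  | [], [], _ => rfl
  | [], b :: l, h => by
    have := bcode_pos l
    simp only [bcode] at h
    omega
  | b :: l, [], h => by
    have := bcode_pos l
    simp only [bcode] at h
    omega
  | b :: l, b' :: l', h => by
    simp only [bcode] at h
    have h1 : b = b' := by
      cases b <;> cases b' <;> simp only [Bool.toNat_false, Bool.toNat_true] at h <;>
        first | rfl | omega
    subst h1
    rw [bcode_inj l l' (by omega)]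

theorem Stn.length_le {n : ℕ} (x : Stn n) (p : Fin 6) : (x.1 p).length ≤ n :=
  (Finset.single_le_sum (f := fun p => (x.1 p).length) (fun _ _ => Nat.zero_le _)
    (mem_univ p)).trans x.2.le

/-- Code of a state with `n` symbols. -/
def Stn.code {n : ℕ} (x : Stn n) (p : Fin 6) : Fin (2 ^ (n + 1)) :=
  ⟨bcode (x.1 p), (bcode_lt _).trans_le
    (Nat.pow_le_pow_right (by norm_num) (Nat.succ_le_succ (x.length_le p)))⟩

theorem Stn.code_injective (n : ℕ) : Function.Injective (Stn.code (n := n)) := by
  intro x y h
  apply Subtype.ext
  funext p
  exact bcode_inj _ _ (congrArg Fin.val (congrFun h p))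

noncomputable instance (n : ℕ) : Fintype (Stn n) :=
  Fintype.ofInjective Stn.code (Stn.code_injective n)

instance (n : ℕ) : DecidableEq (Stn n) := by unfold Stn; infer_instance

instance (n : ℕ) (x : St) : Decidable (Good n x) := by unfold Good; infer_instance

theorem le_card_Stn (n : ℕ) : n + 1 ≤ Fintype.card (Stn n) := by
  let f : Fin (n + 1) → Stn n := fun i =>
    ⟨![List.replicate i true, List.replicate (n - i) true, [], [], [], []], by
      have := i.2
      simp only [Fin.sum_univ_six]
      simp
      omega⟩
  have hf : Function.Injective f := by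
    intro i j h
    have := congrArg (fun x : Stn n => (x.1 0).length) h
    simp only [f, Matrix.cons_val_zero, List.length_replicate] at this
    exact Fin.ext this
  simpa using Fintype.card_le_of_injective f hf

theorem card_Stn_le (n : ℕ) : Fintype.card (Stn n) ≤ 2 ^ (6 * (n + 1)) := by
  have := Fintype.card_le_of_injective _ (Stn.code_injective n)
  rw [Fintype.card_fun, Fintype.card_fin, Fintype.card_fin, ← pow_mul, mul_comm] at this
  exact this

/-- The action of a generator on the states with `n` symbols. -/
def evn {n : ℕ} (g : G0) (x : Stn n) : Stn n := ⟨ev g x.1, (sum_length_ev g x.1).trans x.2⟩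

theorem evn_injective {n : ℕ} (g : G0) : Function.Injective (evn (n := n) g) :=
  fun _ _ h => Subtype.ext ((ev_bijective g).1 (congrArg Subtype.val h))

theorem iterate_mv {n : ℕ} {p q : Fin 6} (h : q ≠ p) (x : Stn n) (i : ℕ)
    (hi : i ≤ (x.1 q).length) :
    (((evn (.mv q p))^[i] x).1 p).length = (x.1 p).length + i ∧
      (((evn (.mv q p))^[i] x).1 q).length + i = (x.1 q).length := by
  induction i with
  | zero => simp
  | succ i ih =>
    obtain ⟨h1, h2⟩ := ih (by omega)
    rw [Function.iterate_succ_apply']
    generalize (evn (.mv q p))^[i] x = y at h1 h2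
    cases hy : y.1 q with
    | nil =>
      rw [hy] at h2
      simp only [List.length_nil] at h2
      omega
    | cons c l =>
      rw [hy] at h2
      have : (evn (.mv q p) y).1 = Function.update (Function.update y.1 q l) p (c :: y.1 p) :=
        ev_mv_cons h hy
      rw [this, Function.update_self, Function.update_of_ne h, Function.update_self]
      simp only [List.length_cons] at h2 ⊢
      omega

theorem card_slice (n : ℕ) (p q : Fin 6) (l : ℕ) :
    (univ.filter fun x : Stn n => q ≠ p ∧ (x.1 p).length = l ∧ n / 6 ≤ (x.1 q).length).card * n ≤
      6 * Fintype.card (Stn n) := by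
  set B := univ.filter fun x : Stn n => q ≠ p ∧ (x.1 p).length = l ∧ n / 6 ≤ (x.1 q).length
    with hB
  have key : (B ×ˢ range (n / 6 + 1)).card ≤ (univ : Finset (Stn n)).card := by
    refine Finset.card_le_card_of_injOn (fun z => (evn (.mv q p))^[z.2] z.1)
      (fun _ _ => by simp) ?_
    rintro ⟨x, i⟩ hx ⟨y, j⟩ hy h
    simp only [hB, coe_product, coe_filter, mem_univ, true_and, coe_range, Set.mem_prod,
      Set.mem_ofPred_eq, Set.mem_Iio] at hx hy
    obtain ⟨⟨hqp, hx1, hx2⟩, hi⟩ := hx
    obtain ⟨⟨-, hy1, hy2⟩, hj⟩ := hy
    have h1 := (iterate_mv hqp x i (by omega)).1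
    have h2 := (iterate_mv hqp y j (by omega)).1
    dsimp only at h
    rw [h] at h1
    have hij : i = j := by omega
    subst hij
    rw [(evn_injective _).iterate i h]
  rw [card_product, card_range, card_univ] at key
  calc B.card * n ≤ B.card * (6 * (n / 6 + 1)) := Nat.mul_le_mul_left _ (by omega)
    _ = 6 * (B.card * (n / 6 + 1)) := by ring
    _ ≤ _ := Nat.mul_le_mul_left _ key

/-- Bad states are a fraction `O(1/n)`. -/
theorem card_bad : ∃ C : ℕ, ∀ n : ℕ,
    (univ.filter fun x : Stn n => ¬ Good 3 x.1).card * n ≤ C * Fintype.card (Stn n) := by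
  refine ⟨108 * 6, fun n => ?_⟩
  have hsub : (univ.filter fun x : Stn n => ¬ Good 3 x.1) ⊆
      (univ : Finset (Fin 6 × Fin 6 × Fin 3)).biUnion fun z => univ.filter fun x : Stn n =>
        z.2.1 ≠ z.1 ∧ (x.1 z.1).length = z.2.2 ∧ n / 6 ≤ (x.1 z.2.1).length := by
    intro x hx
    simp only [mem_filter, mem_univ, true_and, Good, not_forall, not_le] at hx
    obtain ⟨p, hp⟩ := hx
    have : ∃ q, q ≠ p ∧ n / 6 ≤ (x.1 q).length := by
      by_contra hc
      push Not at hc
      have hs := x.2
      rw [← Finset.add_sum_erase univ _ (mem_univ p)] at hs
      have h1 : ∑ q ∈ univ.erase p, ((x.1 q).length + 1) ≤ ∑ _q ∈ univ.erase p, n / 6 :=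
        Finset.sum_le_sum fun q hq => hc q (Finset.ne_of_mem_erase hq)
      rw [Finset.sum_add_distrib] at h1
      simp only [sum_const, card_erase_of_mem (mem_univ p), card_univ, Fintype.card_fin,
        smul_eq_mul] at h1
      omega
    obtain ⟨q, hq, hq'⟩ := this
    simp only [mem_biUnion, mem_univ, true_and, mem_filter]
    exact ⟨(p, q, ⟨_, hp⟩), hq, rfl, hq'⟩
  calc _ ≤ (∑ z : Fin 6 × Fin 6 × Fin 3, (univ.filter fun x : Stn n =>
        z.2.1 ≠ z.1 ∧ (x.1 z.1).length = z.2.2 ∧ n / 6 ≤ (x.1 z.2.1).length).card) * n :=
        Nat.mul_le_mul_right _ ((card_le_card hsub).trans card_biUnion_le)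
    _ ≤ ∑ _z : Fin 6 × Fin 6 × Fin 3, 6 * Fintype.card (Stn n) := by
        rw [Finset.sum_mul]
        exact Finset.sum_le_sum fun z _ => card_slice n z.1 z.2.1 z.2.2
    _ = _ := by
        simp only [sum_const, card_univ, Fintype.card_prod, Fintype.card_fin, smul_eq_mul]
        ring

end Pool.Agent.Lib.MP_a7c6c3_lc
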