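import Pool.Agent.Lib.MP_a7c6c3_lc.KMain
import Pool.Agent.Lib.MP_a7c6c3_lc.StBasic

/-! Module `Model`: halving produces the structure `Comb` at every scale. -/

set_option autoImplicit false
open Finset

namespace Pool.Agent.Lib.MP_a7c6c3_lc

namespace Model

theorem card_image_le {α β γ : Type} [DecidableEq β] [Fintype γ] (s : Finset α) (f : α → β)
    (g : α → γ) (h : ∀ a ∈ s, ∀ b ∈ s, g a = g b → f a = f b) :
    (s.image f).card ≤ Fintype.card γ := by
  classical
  have hex : ∀ y : s.image f, ∃ a ∈ s, f a = y.1 := fun y => mem_image.1 y.2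
  choose c hc hc' using hex
  rw [← Fintype.card_coe]
  refine Fintype.card_le_of_injective (fun y => g (c y)) fun y y' e => Subtype.ext ?_
  rw [← hc' y, ← hc' y']
  exact h _ (hc y) _ (hc y') e

/-- The sparse linear table of the configuration on the states with `n` symbols. -/
def tab (n : ℕ) (v : Var) (x : Stn n) : Fin 3 → Option (Pt × Stn n) :=
  match v with
  | .pt p => ![some (p, x), none, none]
  | .al g => ![some (.X, x), some (.Y, evn g x), none]
  | .s => ![some (.X, x), some (.U, x), none]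
  | .r => ![some (.Y, x), some (.V, x), none]
  | .sb b => ![some (.X, x), some (.Ub b, x), none]
  | .rb b => ![some (.Y, x), some (.Vb b, x), none]
  | .ph g => ![some (.U, x), some (.V, evn g x), none]
  | .ph1 b g => ![some (.Ub b, x), some (.V, evn g x), none]
  | .ph2 b g => ![some (.U, x), some (.Vb b, evn g x), none]
  | .ph3 b => ![some (.Ub b, x), some (.Vb b, x), none]
  | .sg => ![some (.X, x), some (.Y, x), some (.U, x)]
  | .sg' => ![some (.X, x), some (.Y, x), some (.V, x)]
  | .cX γ => ![if inQ γ x.1 then some (.X, x) else none, none, none]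
  | .cY γ => ![if inQ γ x.1 then some (.Y, x) else none, none, none]
  | .cU γ => ![if inQ γ x.1 then some (.U, x) else none, none, none]
  | .cV γ => ![if inQ γ x.1 then some (.V, x) else none, none, none]

/-- Extension of an input by zero. -/
def ext {n : ℕ} (w : Pt × Stn n → ZMod 2) (p : Pt) (y : St) : ZMod 2 :=
  if h : ∑ q, (y q).length = n then w (p, ⟨y, h⟩) else 0

theorem ext_val {n : ℕ} (w : Pt × Stn n → ZMod 2) (p : Pt) (x : Stn n) :
    ext w p x.1 = w (p, x) := dif_pos x.2

theorem ext_ev {n : ℕ} (w : Pt × Stn n → ZMod 2) (p : Pt) (g : G0) (x : Stn n) :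
    ext w p (ev g x.1) = w (p, evn g x) := ext_val w p (evn g x)

theorem tval_tab {n : ℕ} (w : Pt × Stn n → ZMod 2) (v : Var) (x : Stn n) :
    tval (tab n) w v x = val0 v (ext w) x.1 := by
  cases v <;> simp only [tval, tab, val0, Fin.sum_univ_three, ext_val, ext_ev,
    Matrix.cons_val_zero, Matrix.cons_val_one, Matrix.cons_val_two, Matrix.head_cons,
    Matrix.tail_cons, Option.elim_some, Option.elim_none, add_zero] <;>
    split_ifs <;> rfl

theorem val0_out {n : ℕ} (w : Pt × Stn n → ZMod 2) (v : Var) (y : St)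
    (hy : ∑ q, (y q).length ≠ n) : val0 v (ext w) y = 0 := by
  have h1 : ∀ p, ext w p y = 0 := fun p => dif_neg hy
  have h2 : ∀ p g, ext w p (ev g y) = 0 := fun p g => dif_neg (by rwa [sum_length_ev])
  cases v <;> simp only [val0, h1, h2, add_zero, ite_self]

theorem val0_eq {n : ℕ} {w w' : Pt × Stn n → ZMod 2} {v : Var}
    (h : tval (tab n) w v = tval (tab n) w' v) : val0 v (ext w) = val0 v (ext w') := by
  funext y
  by_cases hy : ∑ q, (y q).length = n
  · have := congrFun h ⟨y, hy⟩
    rwa [tval_tab, tval_tab] at this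
  · rw [val0_out w v y hy, val0_out w' v y hy]

theorem res_eq_iff {V W : Type} [DecidableEq V] (S : Finset V) (a b : V → W) :
    res S a = res S b ↔ ∀ v ∈ S, a v = b v := by
  constructor
  · intro h v hv
    have := congrFun h v
    simpa [res, hv] using this
  · intro h
    funext v
    by_cases hv : v ∈ S
    · simp [res, hv, h v hv]
    · simp [res, hv]

theorem card_tot (n : ℕ) : 2 ^ (8 * Fintype.card (Stn n)) ≤
    (univ.image fun w : Pt × Stn n → ZMod 2 => tval (tab n) w).card := by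
  rw [card_image_of_injective]
  · have : Fintype.card Pt = 8 := rfl
    simp [this]
  · intro w w' h
    funext ⟨p, x⟩
    have := congrFun (congrFun h (.pt p)) x
    simpa only [tval_tab, val0, ext_val] using this

/-- The bad states. -/
noncomputable def Bad (n : ℕ) : Finset (Stn n) := univ.filter fun x => ¬ Good 3 x.1

theorem card_fib (n : ℕ) {S T : Finset Var} {m : ℕ} (h : Gen S T m) (w : Pt × Stn n → ZMod 2) :
    ((univ.filter fun w' => res S (tval (tab n) w') = res S (tval (tab n) w)).image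
      fun w' => res T (tval (tab n) w')).card ≤
      2 ^ (m * Fintype.card (Stn n) + Fintype.card Var * (Bad n).card) := by
  obtain ⟨E, hE, hD⟩ := h
  refine (card_image_le _ _ (fun w' => ((fun z : E × Stn n => tval (tab n) w' z.1.1 z.2),
    fun z : Var × Bad n => tval (tab n) w' z.1 z.2.1)) ?_).trans ?_
  · intro a ha b hb e
    rw [mem_filter] at ha hb
    have hS := (res_eq_iff _ _ _).1 (ha.2.trans hb.2.symm)
    obtain ⟨e1, e2⟩ := Prod.ext_iff.1 e
    have hall : ∀ v ∈ S ∪ E, val0 v (ext a) = val0 v (ext b) := by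
      intro v hv
      rcases mem_union.1 hv with hv | hv
      · exact val0_eq (hS v hv)
      · exact val0_eq (funext fun x => congrFun e1 (⟨v, hv⟩, x))
    rw [res_eq_iff]
    intro v hv
    funext x
    by_cases hx : Good 3 x.1
    · rw [tval_tab, tval_tab]
      exact hD _ _ hall v hv x.1 hx
    · exact congrFun e2 (v, ⟨x, by simp [Bad, hx]⟩)
  · simp only [Fintype.card_prod, Fintype.card_fun, ZMod.card, Fintype.card_coe, ← pow_add]
    exact Nat.pow_le_pow_right (by norm_num) (by gcongr)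

/-- The number of states having one of two colours. -/
noncomputable def cnt (n : ℕ) (γ γ' : Col) : ℕ :=
  (univ.filter fun x : Stn n => inQ γ x.1 ∨ inQ γ' x.1).card

theorem card_col (n : ℕ) (γ γ' : Col) (s : Finset (Pt × Stn n → ZMod 2)) :
    (s.image fun w' => res {Var.cX γ, Var.cX γ'} (tval (tab n) w')).card ≤ 2 ^ cnt n γ γ' := by
  refine (card_image_le _ _ (fun w' =>
    fun z : (univ.filter fun x : Stn n => inQ γ x.1 ∨ inQ γ' x.1) => w' (.X, z.1)) ?_).trans ?_
  · intro a _ b _ e
    have he : ∀ x : Stn n, inQ γ x.1 ∨ inQ γ' x.1 → a (.X, x) = b (.X, x) := fun x hx =>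
      congrFun e ⟨x, by simpa using hx⟩
    rw [res_eq_iff]
    intro v hv
    funext x
    rw [tval_tab, tval_tab]
    simp only [mem_insert, mem_singleton] at hv
    rcases hv with rfl | rfl
    · simp only [val0, ext_val]
      split_ifs with hx
      · exact he x (Or.inl hx)
      · rfl
    · simp only [val0, ext_val]
      split_ifs with hx
      · exact he x (Or.inr hx)
      · rfl
  · simp only [Fintype.card_fun, ZMod.card, Fintype.card_coe, cnt, le_refl]

theorem cnt_one (n : ℕ) (p : Fin 6) :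
    cnt n (p, false) (p, false) + cnt n (p, true) (p, true) ≤ Fintype.card (Stn n) := by
  simp only [cnt, card_filter, ← sum_add_distrib]
  calc _ ≤ ∑ _x : Stn n, 1 := by
        refine sum_le_sum fun x _ => ?_
        cases h : (x.1 p).headD true <;> simp [inQ, h, -List.headD_eq_head?_getD]
    _ = _ := by simp

theorem cnt_two (n : ℕ) (γ : Col) (q : Fin 6) :
    cnt n γ (q, false) + cnt n γ (q, true) + cnt n (γ.1, !γ.2) (γ.1, !γ.2) ≤
      2 * Fintype.card (Stn n) := by
  simp only [cnt, card_filter, ← sum_add_distrib]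
  calc _ ≤ ∑ _x : Stn n, 2 := by
        refine sum_le_sum fun x _ => ?_
        obtain ⟨p, c⟩ := γ
        cases h : (x.1 q).headD true <;> cases h' : (x.1 p).headD true <;> cases c <;>
          simp [inQ, h, h', -List.headD_eq_head?_getD]
    _ = _ := by simp [mul_comm]

theorem size_le (n : ℕ) : Nat.size (Fintype.card (Pt × Stn n)) ≤ 6 * n + 10 := by
  rw [Nat.size_le, Fintype.card_prod]
  have h8 : Fintype.card Pt = 8 := rfl
  have := card_Stn_le n
  rw [h8, show 6 * n + 10 = 6 * (n + 1) + 4 by ring, pow_add]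
  have h0 : 0 < 2 ^ (6 * (n + 1)) := by positivity
  omega

end Model

open Model in
theorem model_exists (hH : Halving) : ∃ C : ℝ, ∀ T : ℝ, 2 ≤ T →
    ∃ (t e : ℝ) (A : Finset (Var → List Bool)),
      T ≤ t ∧ t ≤ 2 * T ∧ 0 ≤ e ∧ e ≤ C * Real.log T ∧ Comb t e A := by
  obtain ⟨c, c0, hc⟩ := K_main hH Var
  obtain ⟨Cb, hCb⟩ := card_bad
  obtain ⟨K, hK⟩ : ∃ K : ℝ, K = 2 * Fintype.card Var * Cb + 2 := ⟨_, rfl⟩
  have hK2 : 2 ≤ K := by
    rw [hK]
    have : (0 : ℝ) ≤ 2 * Fintype.card Var * Cb := by positivity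
    linarith
  have hl2 : (0.69 : ℝ) < Real.log 2 := by have := Real.log_two_gt_d9; linarith
  have hl2' : Real.log 2 < 1 := by have := Real.log_two_lt_d9; linarith
  refine ⟨c * (2 * Real.log (100 * K) + 2) + 2, fun T hT => ?_⟩
  obtain ⟨n, hn1, hn2⟩ : ∃ n : ℕ, K * T ≤ n ∧ (n : ℝ) ≤ K * T + 1 :=
    ⟨⌈K * T⌉₊, Nat.le_ceil _, (Nat.ceil_lt_add_one (by positivity)).le⟩
  obtain ⟨N, hN⟩ : ∃ N : ℕ, N = Fintype.card (Stn n) := ⟨_, rfl⟩
  have hNn : (n : ℝ) + 1 ≤ N := by rw [hN]; exact_mod_cast le_card_Stn n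
  have hT0 : 0 < T := by linarith
  have hNT : T ≤ N * Real.log 2 := by nlinarith
  obtain ⟨J, hJ1, hJ2⟩ := exists_nat_pow_near (x := N * Real.log 2 / T) (y := 2)
    ((one_le_div hT0).2 hNT) (by norm_num)
  have hJ0 : (0 : ℝ) < 2 ^ J := by positivity
  have hJ : (1 : ℝ) ≤ 2 ^ J := one_le_pow₀ (by norm_num)
  obtain ⟨t, ht⟩ : ∃ t : ℝ, t = N / 2 ^ J * Real.log 2 := ⟨_, rfl⟩
  have ht1 : T ≤ t := by
    rw [le_div_iff₀ hT0] at hJ1
    rw [ht, div_mul_eq_mul_div, le_div_iff₀ hJ0]
    linarith
  have ht2 : t ≤ 2 * T := by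
    rw [div_lt_iff₀ hT0, pow_succ] at hJ2
    rw [ht, div_mul_eq_mul_div, div_le_iff₀ hJ0]
    linarith
  obtain ⟨A, hA, htot, hfib⟩ := hc (Pt × Stn n) (Stn n) (tab n) J _ rfl
  generalize hE : c * Real.log (((Fintype.card (Pt × Stn n) : ℝ) +
    (Fintype.card (Stn n) + 1) * (Nat.size (Fintype.card (Pt × Stn n)) + 1)) / 2 ^ J + 2) = E
    at htot hfib
  have hlT : Real.log 2 ≤ Real.log T := Real.log_le_log (by norm_num) hT
  have hE0 : 0 ≤ E := by
    rw [← hE]
    refine mul_nonneg c0 (Real.log_nonneg ?_)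
    have : (0 : ℝ) ≤ ((Fintype.card (Pt × Stn n) : ℝ) +
      (Fintype.card (Stn n) + 1) * (Nat.size (Fintype.card (Pt × Stn n)) + 1)) / 2 ^ J := by
      positivity
    linarith
  have hE1 : E ≤ c * (2 * Real.log (100 * K) + 2) * Real.log T := by
    rw [← hE, mul_assoc]
    refine mul_le_mul_of_nonneg_left ?_ c0
    have hs : (Nat.size (Fintype.card (Pt × Stn n)) : ℝ) ≤ 6 * n + 10 := by
      exact_mod_cast size_le n
    have h8 : (Fintype.card (Pt × Stn n) : ℝ) = 8 * N := by
      rw [Fintype.card_prod, ← hN, show Fintype.card Pt = 8 from rfl]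
      push_cast
      ring
    have hx : (N : ℝ) / 2 ^ J ≤ 3 * T := by
      have h0 : (0 : ℝ) ≤ N / 2 ^ J := by positivity
      nlinarith
    have hy : (1 : ℝ) / 2 ^ J ≤ 1 := (div_le_one hJ0).2 hJ
    have hb : ((Fintype.card (Pt × Stn n) : ℝ) +
        (Fintype.card (Stn n) + 1) * (Nat.size (Fintype.card (Pt × Stn n)) + 1)) / 2 ^ J + 2 ≤
        100 * K * T ^ 2 := by
      generalize (Nat.size (Fintype.card (Pt × Stn n)) : ℝ) = z at hs
      rw [h8, ← hN]
      have e1 : (8 * (N : ℝ) + (N + 1) * (z + 1)) / 2 ^ J =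
          8 * (N / 2 ^ J) + (N / 2 ^ J + 1 / 2 ^ J) * (z + 1) := by ring
      have e2 : (N / 2 ^ J + 1 / 2 ^ J) * (z + 1) ≤ (4 * T) * (11 * (K * T)) := by
        have hKT : 4 ≤ K * T := by nlinarith
        by_cases hz : 0 ≤ z + 1
        · exact mul_le_mul (by linarith) (by linarith) hz (by positivity)
        · have : (0 : ℝ) ≤ N / 2 ^ J + 1 / 2 ^ J := by positivity
          have h1 : (N / 2 ^ J + 1 / 2 ^ J) * (z + 1) ≤ 0 :=
            mul_nonpos_of_nonneg_of_nonpos this (by linarith)
          have h2 : 0 ≤ (4 * T) * (11 * (K * T)) := by positivity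
          linarith
      have e3 : T ≤ K * T ^ 2 := by nlinarith
      rw [e1]
      nlinarith
    have hpos : (0 : ℝ) < ((Fintype.card (Pt × Stn n) : ℝ) +
        (Fintype.card (Stn n) + 1) * (Nat.size (Fintype.card (Pt × Stn n)) + 1)) / 2 ^ J + 2 := by
      positivity
    have hlK : 0 ≤ Real.log (100 * K) := Real.log_nonneg (by linarith)
    refine (Real.log_le_log hpos hb).trans ?_
    rw [Real.log_mul (by positivity) (by positivity), Real.log_pow]
    push_cast
    nlinarith
  have hbad : ((Fintype.card Var * (Bad n).card : ℕ) : ℝ) / 2 ^ J * Real.log 2 ≤ 1 := by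
    have h1 : ((Bad n).card : ℝ) * n ≤ Cb * N := by
      rw [hN]
      exact_mod_cast hCb n
    have hn0 : (0 : ℝ) < n := by nlinarith
    have h2 : ((Fintype.card Var * (Bad n).card : ℕ) : ℝ) / 2 ^ J * Real.log 2 * n ≤
        Fintype.card Var * Cb * t := by
      rw [ht]
      push_cast
      calc _ = (Fintype.card Var / 2 ^ J * Real.log 2) * ((Bad n).card * n) := by ring
        _ ≤ (Fintype.card Var / 2 ^ J * Real.log 2) * (Cb * N) :=
          mul_le_mul_of_nonneg_left h1 (by positivity)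
        _ = _ := by ring
    have h3 : (Fintype.card Var : ℝ) * Cb * t ≤ 1 * n := by
      have h0 : (0 : ℝ) ≤ Fintype.card Var * Cb := by positivity
      calc _ ≤ (Fintype.card Var : ℝ) * Cb * (2 * T) := mul_le_mul_of_nonneg_left ht2 h0
        _ = (K - 2) * T := by rw [hK]; ring
        _ ≤ _ := by nlinarith
    exact le_of_mul_le_mul_right (h2.trans h3) hn0
  refine ⟨t, E + 1, A, ht1, ht2, by linarith, by nlinarith, hA, ?_, ?_, ?_⟩
  · have := htot _ (card_tot n)
    rw [← hN] at this
    push_cast at this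
    rw [ht]
    have e : 8 * (N : ℝ) / 2 ^ J * Real.log 2 = 8 * (N / 2 ^ J * Real.log 2) := by ring
    linarith
  · intro S T' m hG a ha
    refine (hfib S T' _ (card_fib n hG) a ha).trans (Real.exp_le_exp.2 ?_)
    rw [← hN, Nat.cast_add, Nat.cast_mul m N, ht]
    have e : ((m : ℝ) * N + ((Fintype.card Var * (Bad n).card : ℕ) : ℝ)) / 2 ^ J * Real.log 2 =
        m * (N / 2 ^ J * Real.log 2) +
          ((Fintype.card Var * (Bad n).card : ℕ) : ℝ) / 2 ^ J * Real.log 2 := by ring
    linarith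
  · have hq : 0 ≤ 1 / 2 ^ J * Real.log 2 := by positivity
    refine ⟨fun γ γ' => cnt n γ γ' / 2 ^ J * Real.log 2, fun γ γ' => ?_, fun p => ?_,
      fun γ q => ?_⟩
    · obtain ⟨a, ha⟩ := hA
      have := hfib ∅ {Var.cX γ, Var.cX γ'} _ (fun w => card_col n γ γ' _) a ha
      rw [filter_true_of_mem fun a' _ => (res_eq_iff _ _ _).2 (by simp)] at this
      exact this.trans (Real.exp_le_exp.2 (by linarith))
    · have h : (cnt n (p, false) (p, false) : ℝ) + cnt n (p, true) (p, true) ≤ N := by
        rw [hN]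
        exact_mod_cast cnt_one n p
      rw [ht]
      calc _ = ((cnt n (p, false) (p, false) : ℝ) + cnt n (p, true) (p, true)) *
            (1 / 2 ^ J * Real.log 2) := by ring
        _ ≤ N * (1 / 2 ^ J * Real.log 2) := mul_le_mul_of_nonneg_right h hq
        _ = _ := by ring
    · have h : (cnt n γ (q, false) : ℝ) + cnt n γ (q, true) + cnt n (γ.1, !γ.2) (γ.1, !γ.2) ≤
          2 * N := by
        rw [hN]
        exact_mod_cast cnt_two n γ q
      rw [ht]
      calc _ = ((cnt n γ (q, false) : ℝ) + cnt n γ (q, true) + cnt n (γ.1, !γ.2) (γ.1, !γ.2)) *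
            (1 / 2 ^ J * Real.log 2) := by ring
        _ ≤ (2 * N) * (1 / 2 ^ J * Real.log 2) := mul_le_mul_of_nonneg_right h hq
        _ = _ := by ring

end Pool.Agent.Lib.MP_a7c6c3_lc
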