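import Pool.Agent.Lib.MP_a7c6c3_lc.CellBasic
import Pool.Agent.Lib.MP_a7c6c3_lc.Design3

/-! Module `UI`: uniform integrability of the averaged cell statistics. -/

set_option autoImplicit false
open Finset
open scoped BigOperators

namespace Pool.Agent.Lib.MP_a7c6c3_lc

section Aux

variable {Ω : Type} [Fintype Ω] (P : PS Ω)

theorem ui_m_zero {l : Ω → ℝ} (h : ∀ ω, 0 ≤ l ω) (h0 : P.m l ≤ 0) (ω : Ω) : l ω = 0 := by
  have h1 : P.m l = 0 := le_antisymm h0 (P.m_nonneg h)
  have h2 := (Finset.sum_eq_zero_iff_of_nonneg fun ω _ => mul_nonneg (P.pos ω).le (h ω)).mp h1 ω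
    (Finset.mem_univ ω)
  exact (mul_eq_zero.mp h2).resolve_left (P.pos ω).ne'

theorem ui_mg_nonneg {g l : Ω → ℝ} (hg : ∀ ω, 0 ≤ g ω ∧ g ω ≤ 1) (h : ∀ ω, 0 ≤ l ω) :
    0 ≤ P.m (g * l) := P.m_nonneg fun ω => mul_nonneg (hg ω).1 (h ω)

theorem ui_mg_le {g l : Ω → ℝ} (hg : ∀ ω, 0 ≤ g ω ∧ g ω ≤ 1) (h : ∀ ω, 0 ≤ l ω) :
    P.m (g * l) ≤ P.m l := P.m_le fun ω => mul_le_of_le_one_left (h ω) (hg ω).2

theorem ui_mul_le {n b : Ω → ℝ} (hn : ∀ ω, 0 ≤ n ω) (hb : ∀ ω, b ω ≤ 1) :
    P.m (n * b) ≤ P.m n := P.m_le fun ω => mul_le_of_le_one_right (hn ω) (hb ω)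

/-- The relative entropy potential of one value. -/
noncomputable def uiPhi0 (g l : Ω → ℝ) : ℝ := P.m (g * l) * Real.log (P.m (g * l) / P.m l)

/-- The relative entropy potential. -/
noncomputable def uiPhi (g : Ω → ℝ) (N : Nm Ω) : ℝ := N.lin (uiPhi0 P g)

theorem uiPhi_bounds {g : Ω → ℝ} (hg : ∀ ω, 0 ≤ g ω ∧ g ω ≤ 1) (N : Nm Ω) :
    -1 ≤ uiPhi P g N ∧ uiPhi P g N ≤ 0 := by
  constructor
  · have h : (N.lin fun l => (-1) * P.m l) ≤ N.lin (uiPhi0 P g) := by
      refine N.lin_le fun l hl => ?_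
      have h0 := ui_mg_nonneg P hg (N.nonneg l hl)
      have h1 := ui_mg_le P hg (N.nonneg l hl)
      unfold uiPhi0
      rcases h0.eq_or_lt with h2 | h2
      · rw [← h2]; linarith
      · have h3 : 0 < P.m l := by linarith
        have h4 := Real.one_sub_inv_le_log_of_pos (div_pos h2 h3)
        rw [inv_div] at h4
        have h5 := mul_le_mul_of_nonneg_left h4 h0
        rw [mul_sub, mul_div_cancel₀ _ h2.ne'] at h5
        linarith
    rw [Nm.lin_mul_left] at h
    have h2 : N.lin (fun l => P.m l) = 1 := P.lin_m N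
    rw [h2] at h
    unfold uiPhi
    linarith
  · have h : N.lin (uiPhi0 P g) ≤ N.lin fun l => 0 * P.m l := by
      refine N.lin_le fun l hl => ?_
      have h0 := ui_mg_nonneg P hg (N.nonneg l hl)
      have h1 := ui_mg_le P hg (N.nonneg l hl)
      rw [zero_mul]
      exact mul_nonpos_of_nonneg_of_nonpos h0 (Real.log_nonpos (div_nonneg h0 (h0.trans h1))
        (div_le_one_of_le₀ h1 (h0.trans h1)))
    rw [Nm.lin_mul_left, zero_mul] at h
    exact h

/-- One step of the Gibbs inequality. -/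
theorem ui_gibbs {g n : Ω → ℝ} (hg : ∀ ω, 0 ≤ g ω ∧ g ω ≤ 1) (hn : ∀ ω, 0 ≤ n ω) (B : Nm Ω)
    (r L : (Ω → ℝ) → ℝ) (hr0 : ∀ b ∈ B.s, 0 ≤ r b) (hr : 0 < P.m n → B.lin r ≤ 1)
    (hL : ∀ b ∈ B.s, 0 < P.m (n * b) → Real.exp (L b) * (P.m (n * b) / P.m n) ≤ r b) :
    (B.lin fun b => P.m (g * (n * b)) * L b) ≤
      (B.lin fun b => uiPhi0 P g (n * b)) - uiPhi0 P g n := by
  have hY0 := ui_mg_nonneg P hg hn
  have hYZ := ui_mg_le P hg hn
  have h1 : (B.lin fun b => P.m (g * (n * b)) * L b) ≤ B.lin fun b =>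
      uiPhi0 P g (n * b) - P.m (g * n * b) * (Real.log (P.m (g * n) / P.m n) + 1) +
        r b * P.m (g * n) := by
    refine B.lin_le fun b hb => ?_
    have hnb : ∀ ω, 0 ≤ (n * b) ω := fun ω => mul_nonneg (hn ω) (B.nonneg b hb ω)
    have hy0 := ui_mg_nonneg P hg hnb
    have hyz := ui_mg_le P hg hnb
    have hyY : P.m (g * (n * b)) ≤ P.m (g * n) := by
      rw [← mul_assoc]
      exact ui_mul_le P (fun ω => mul_nonneg (hg ω).1 (hn ω)) (B.le_one hb)
    rw [mul_assoc g n b]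
    unfold uiPhi0
    have hr1 := hr0 b hb
    rcases hy0.eq_or_lt with h2 | h2
    · rw [← h2]
      have := mul_nonneg hr1 hY0
      linarith
    · have hz : 0 < P.m (n * b) := by linarith
      have hY : 0 < P.m (g * n) := by linarith
      have hZ : 0 < P.m n := by linarith
      have h3 := hL b hb hz
      set y := P.m (g * (n * b))
      set z := P.m (n * b)
      set Y := P.m (g * n)
      set Z := P.m n
      have hw : 0 < Real.exp (L b) * (z / Z) * Y / y := by positivity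
      have h4 := Real.log_le_sub_one_of_pos hw
      rw [Real.log_div (by positivity) h2.ne', Real.log_mul (by positivity) hY.ne',
        Real.log_mul (by positivity) (by positivity), Real.log_exp,
        Real.log_div hz.ne' hZ.ne'] at h4
      have h5 := mul_le_mul_of_nonneg_left h4 h2.le
      rw [mul_sub y _ 1, mul_div_cancel₀ _ h2.ne'] at h5
      have h6 := mul_le_mul_of_nonneg_right h3 hY.le
      rw [Real.log_div h2.ne' hz.ne', Real.log_div hY.ne' hZ.ne']
      linarith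
  rw [Nm.lin_add, Nm.lin_sub, Nm.lin_mul_right, Nm.lin_mul_right, P.lin_m_mul] at h1
  have h2 : B.lin r * P.m (g * n) ≤ P.m (g * n) := by
    rcases hY0.eq_or_lt with h | h
    · rw [← h, mul_zero]
    · exact mul_le_of_le_one_left hY0 (hr (by linarith))
  unfold uiPhi0 at h1 ⊢
  linarith

theorem ui_lin_cond (B : Nm Ω) {n : Ω → ℝ} (h : 0 < P.m n) :
    (B.lin fun b => P.m (n * b) / P.m n) = 1 := by
  simp only [div_eq_mul_inv]
  rw [Nm.lin_mul_right, P.lin_m_mul, mul_inv_cancel₀ h.ne']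

theorem ui_pos {c a b : Ω → ℝ} (hc : ∀ ω, 0 ≤ c ω) (ha : ∀ ω, 0 ≤ a ω) (hb : ∀ ω, 0 ≤ b ω)
    (ha1 : ∀ ω, a ω ≤ 1) (hb1 : ∀ ω, b ω ≤ 1) (h : 0 < P.m (c * a * b)) :
    0 < P.m (c * a) ∧ 0 < P.m (c * b) ∧ 0 < P.m c := by
  have h1 : P.m (c * a * b) ≤ P.m (c * a) := ui_mul_le P (fun ω => mul_nonneg (hc ω) (ha ω)) hb1
  have h2 : P.m (c * a * b) ≤ P.m (c * b) := by
    rw [mul_right_comm]
    exact ui_mul_le P (fun ω => mul_nonneg (hc ω) (hb ω)) ha1
  have h3 : P.m (c * a) ≤ P.m c := ui_mul_le P hc ha1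
  exact ⟨by linarith, by linarith, by linarith⟩

theorem ui_exp_pmi {c a b : Ω → ℝ} (h : 0 < P.m (c * a * b)) (h1 : 0 < P.m (c * a))
    (h2 : 0 < P.m (c * b)) (h3 : 0 < P.m c) :
    Real.exp (P.pmi c a b) * (P.m (c * b) / P.m c) = P.m (c * a * b) / P.m (c * a) := by
  unfold PS.pmi
  rw [Real.exp_log (by positivity)]
  field_simp

/-- The Hellinger term is controlled by the information and the potential. -/
theorem ui_hel {g c a : Ω → ℝ} (hg : ∀ ω, 0 ≤ g ω ∧ g ω ≤ 1) (hc : ∀ ω, 0 ≤ c ω)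
    (ha : ∀ ω, 0 ≤ a ω) (ha1 : ∀ ω, a ω ≤ 1) (B : Nm Ω) :
    (B.lin fun b => P.m (g * (c * a * b)) * (P.hel B c a / 2 - P.pmi c a b / 2)) ≤
      (B.lin fun b => uiPhi0 P g (c * a * b)) - uiPhi0 P g (c * a) := by
  have hca : ∀ ω, 0 ≤ (c * a) ω := fun ω => mul_nonneg (hc ω) (ha ω)
  refine ui_gibbs P hg hca B (fun b => Real.exp (P.hel B c a / 2) *
    (√(P.m (c * a * b) / P.m (c * a)) * √(P.m (c * b) / P.m c))) _
    (fun b _ => by positivity) (fun h => ?_) fun b hb h => ?_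
  · have h3 : 0 < P.m c := h.trans_le (ui_mul_le P hc ha1)
    have h1 : P.hel B c a = B.lin fun b => P.m (c * a * b) / P.m (c * a) + P.m (c * b) / P.m c -
        2 * (√(P.m (c * a * b) / P.m (c * a)) * √(P.m (c * b) / P.m c)) := by
      refine B.lin_congr fun b hb => ?_
      have e1 := Real.sq_sqrt (div_nonneg
        (P.m_nonneg (l := c * a * b) fun ω => mul_nonneg (hca ω) (B.nonneg b hb ω)) h.le)
      have e2 := Real.sq_sqrt (div_nonneg
        (P.m_nonneg (l := c * b) fun ω => mul_nonneg (hc ω) (B.nonneg b hb ω)) h3.le)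
      linarith
    rw [Nm.lin_sub, Nm.lin_add, Nm.lin_mul_left, ui_lin_cond P B h, ui_lin_cond P B h3] at h1
    rw [Nm.lin_mul_left]
    have h2 : (B.lin fun b => √(P.m (c * a * b) / P.m (c * a)) * √(P.m (c * b) / P.m c)) ≤
        Real.exp (-(P.hel B c a / 2)) := by
      have := Real.add_one_le_exp (-(P.hel B c a / 2))
      linarith
    refine (mul_le_mul_of_nonneg_left h2 (Real.exp_pos _).le).trans (le_of_eq ?_)
    rw [← Real.exp_add, add_neg_cancel, Real.exp_zero]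
  · obtain ⟨h1, h2, h3⟩ := ui_pos P hc ha (B.nonneg b hb) ha1 (B.le_one hb) h
    have h4 := ui_exp_pmi P h h1 h2 h3
    have hq : 0 < P.m (c * b) / P.m c := div_pos h2 h3
    rw [← h4]
    set q := P.m (c * b) / P.m c
    set i := P.pmi c a b
    have h5 : √(Real.exp i * q) = Real.exp (i / 2) * √q := by
      rw [Real.sqrt_mul (Real.exp_pos _).le, Real.exp_half]
    rw [h5, mul_assoc (Real.exp (i / 2)), Real.mul_self_sqrt hq.le, ← mul_assoc, ← mul_assoc,
      ← Real.exp_add, ← Real.exp_add]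
    refine le_of_eq ?_
    congr 2
    ring

/-- The large values of the information are controlled in the same way. -/
theorem ui_big {g c a : Ω → ℝ} (hg : ∀ ω, 0 ≤ g ω ∧ g ω ≤ 1) (hc : ∀ ω, 0 ≤ c ω)
    (ha : ∀ ω, 0 ≤ a ω) (ha1 : ∀ ω, a ω ≤ 1) (B : Nm Ω) :
    (B.lin fun b => P.m (g * (c * a * b)) * ((if 1 < P.pmi c a b then P.pmi c a b else 0) -
      P.pmi c a b - 9 * P.hel B c a)) ≤
      (B.lin fun b => uiPhi0 P g (c * a * b)) - uiPhi0 P g (c * a) := by
  have hca : ∀ ω, 0 ≤ (c * a) ω := fun ω => mul_nonneg (hc ω) (ha ω)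
  have hp0 : ∀ b ∈ B.s, 0 ≤ P.m (c * a * b) / P.m (c * a) := fun b hb => div_nonneg
    (P.m_nonneg (l := c * a * b) fun ω => mul_nonneg (hca ω) (B.nonneg b hb ω)) (P.m_nonneg hca)
  have hq0 : ∀ b ∈ B.s, 0 ≤ P.m (c * b) / P.m c := fun b hb => div_nonneg
    (P.m_nonneg (l := c * b) fun ω => mul_nonneg (hc ω) (B.nonneg b hb ω)) (P.m_nonneg hc)
  refine ui_gibbs P hg hca B (fun b => Real.exp (-(9 * P.hel B c a)) *
    (if 1 < P.pmi c a b then P.m (c * a * b) / P.m (c * a) else P.m (c * b) / P.m c)) _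
    (fun b hb => ?_) (fun h => ?_) fun b hb h => ?_
  · refine mul_nonneg (Real.exp_pos _).le ?_
    split_ifs
    exacts [hp0 b hb, hq0 b hb]
  · have h3 : 0 < P.m c := h.trans_le (ui_mul_le P hc ha1)
    have h1 : (B.lin fun b => if 1 < P.pmi c a b then P.m (c * a * b) / P.m (c * a)
        else P.m (c * b) / P.m c) ≤ B.lin fun b => P.m (c * b) / P.m c +
          9 * (√(P.m (c * a * b) / P.m (c * a)) - √(P.m (c * b) / P.m c)) ^ 2 := by
      refine B.lin_le fun b hb => ?_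
      have e0 := hq0 b hb
      split_ifs with hi
      · rcases (P.m_nonneg (l := c * a * b)
          fun ω => mul_nonneg (hca ω) (B.nonneg b hb ω)).eq_or_lt with h0 | h0
        · rw [← h0, zero_div]
          positivity
        obtain ⟨h1, h2, -⟩ := ui_pos P hc ha (B.nonneg b hb) ha1 (B.le_one hb) h0
        have h4 := ui_exp_pmi P h0 h1 h2 h3
        have h5 : (9 / 4 : ℝ) ≤ Real.exp (P.pmi c a b) := by
          have := Real.exp_one_gt_d9
          have := Real.exp_le_exp.mpr hi.le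
          linarith
        have e1 := Real.sq_sqrt (hp0 b hb)
        have e2 := Real.sq_sqrt e0
        have e3 := Real.sqrt_nonneg (P.m (c * a * b) / P.m (c * a))
        have e4 := Real.sqrt_nonneg (P.m (c * b) / P.m c)
        set p := P.m (c * a * b) / P.m (c * a)
        set q := P.m (c * b) / P.m c
        have h6 : (3 / 2 * √q) ^ 2 ≤ √p ^ 2 := by
          have := mul_le_mul_of_nonneg_right h5 e0
          nlinarith
        have h7 : 3 / 2 * √q ≤ √p := (pow_le_pow_iff_left₀ (by positivity) e3 two_ne_zero).mp h6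
        have h8 : (√p / 3) ^ 2 ≤ (√p - √q) ^ 2 :=
          pow_le_pow_left₀ (by positivity) (by linarith) 2
        nlinarith
      · have := sq_nonneg (√(P.m (c * a * b) / P.m (c * a)) - √(P.m (c * b) / P.m c))
        linarith
    rw [Nm.lin_add, Nm.lin_mul_left, ui_lin_cond P B h3] at h1
    rw [Nm.lin_mul_left]
    have h2 := Real.add_one_le_exp (9 * P.hel B c a)
    have h4 : (B.lin fun b => if 1 < P.pmi c a b then P.m (c * a * b) / P.m (c * a)
        else P.m (c * b) / P.m c) ≤ Real.exp (9 * P.hel B c a) := by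
      unfold PS.hel at h2 ⊢
      linarith
    refine (mul_le_mul_of_nonneg_left h4 (Real.exp_pos _).le).trans (le_of_eq ?_)
    rw [← Real.exp_add, neg_add_cancel, Real.exp_zero]
  · obtain ⟨h1, h2, h3⟩ := ui_pos P hc ha (B.nonneg b hb) ha1 (B.le_one hb) h
    have h4 := ui_exp_pmi P h h1 h2 h3
    refine le_of_eq ?_
    split_ifs with hi
    · congr 2
      ring
    · rw [← h4, ← mul_assoc, ← Real.exp_add]
      congr 2
      ring

variable {α : Type} [DecidableEq α]

/-- The information density potential of one value, as a function on the space. -/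
noncomputable def uiTh0 (f : Ω → α) (g l : Ω → ℝ) : Ω → ℝ :=
  fun ω => g ω * l ω * (Real.log (l ω) + Real.log (P.cl f ω) - Real.log (P.m l))

/-- The information density potential. -/
noncomputable def uiTh (f : Ω → α) (g : Ω → ℝ) (N : Nm Ω) : ℝ :=
  N.lin fun l => P.m (uiTh0 P f g l)

theorem uiTh_second (f : Ω → α) (g : Ω → ℝ) (C A B : Nm Ω) :
    (C.lin fun c => A.lin fun a => B.lin fun b => P.m (g * (c * a * b)) * P.pmi c a b) =
      -(uiTh P f g (C * A * B) - uiTh P f g (C * A) - uiTh P f g (C * B) + uiTh P f g C) := by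
  have e1 : uiTh P f g (C * A * B) =
      C.lin fun c => A.lin fun a => B.lin fun b => P.m (uiTh0 P f g (c * a * b)) := by
    unfold uiTh
    rw [Nm.lin_mul, Nm.lin_mul]
  have e2 : uiTh P f g (C * A) =
      C.lin fun c => A.lin fun a => B.lin fun b => P.m (uiTh0 P f g (c * a) * b) := by
    unfold uiTh
    rw [Nm.lin_mul]
    simp only [P.lin_m_mul]
  have e3 : uiTh P f g (C * B) =
      C.lin fun c => A.lin fun a => B.lin fun b => P.m (uiTh0 P f g (c * b) * a) := by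
    unfold uiTh
    rw [Nm.lin_mul]
    refine C.lin_congr fun c _ => ?_
    rw [Nm.lin_comm]
    simp only [P.lin_m_mul]
  have e4 : uiTh P f g C =
      C.lin fun c => A.lin fun a => B.lin fun b => P.m (uiTh0 P f g c * a * b) := by
    unfold uiTh
    simp only [P.lin_m_mul]
  rw [e1, e2, e3, e4, ← Nm.lin_sub, ← Nm.lin_sub, ← Nm.lin_add, neg_eq_neg_one_mul,
    ← Nm.lin_mul_left]
  refine C.lin_congr fun c hc => ?_
  rw [← Nm.lin_sub, ← Nm.lin_sub, ← Nm.lin_add, ← Nm.lin_mul_left]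
  refine A.lin_congr fun a ha => ?_
  rw [← Nm.lin_sub, ← Nm.lin_sub, ← Nm.lin_add, ← Nm.lin_mul_left]
  refine B.lin_congr fun b hb => ?_
  have hp : ∀ ω, g ω * (c ω * a ω * b ω) * P.pmi c a b =
      -1 * (uiTh0 P f g (c * a * b) ω - uiTh0 P f g (c * a) ω * b ω -
        uiTh0 P f g (c * b) ω * a ω + uiTh0 P f g c ω * a ω * b ω) := by
    intro ω
    simp only [uiTh0, Pi.mul_apply]
    by_cases h0 : c ω * a ω * b ω = 0
    · rcases mul_eq_zero.mp h0 with h | h
      · rcases mul_eq_zero.mp h with h | h <;> simp [h]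
      · simp [h]
    · have hn : ∀ ω, 0 ≤ (c * a * b) ω := fun ω =>
        mul_nonneg (mul_nonneg (C.nonneg c hc ω) (A.nonneg a ha ω)) (B.nonneg b hb ω)
      have h : 0 < P.m (c * a * b) := lt_of_not_ge fun h => h0 (ui_m_zero P hn h ω)
      obtain ⟨h1, h2, h3⟩ := ui_pos P (C.nonneg c hc) (A.nonneg a ha) (B.nonneg b hb)
        (A.le_one ha) (B.le_one hb) h
      have hb0 := right_ne_zero_of_mul h0
      have hca := left_ne_zero_of_mul h0
      have hc0 := left_ne_zero_of_mul hca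
      have ha0 := right_ne_zero_of_mul hca
      unfold PS.pmi
      rw [Real.log_div (by positivity) (by positivity), Real.log_mul h.ne' h3.ne',
        Real.log_mul h1.ne' h2.ne', Real.log_mul hca hb0, Real.log_mul hc0 ha0,
        Real.log_mul hc0 hb0]
      ring
  simp only [PS.m, Pi.mul_apply, Finset.sum_mul, Finset.mul_sum, ← Finset.sum_sub_distrib,
    ← Finset.sum_add_distrib]
  refine Finset.sum_congr rfl fun ω _ => ?_
  rw [mul_assoc, hp ω]
  ring

theorem uiTh_lower (f : Ω → α) {g : Ω → ℝ} (hg : ∀ ω, 0 ≤ g ω ∧ g ω ≤ 1) (N : Nm Ω) :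
    -1 ≤ uiTh P f g (det f * N) := by
  have h : ((det f * N).lin fun l => (-1) * P.m l) ≤ uiTh P f g (det f * N) := by
    refine Nm.lin_le _ fun l hl => ?_
    have hl0 := (det f * N).nonneg l hl
    have hm0 := P.m_nonneg hl0
    obtain ⟨v, hv, hsupp⟩ : ∃ v, (∃ ω0, f ω0 = v) ∧ ∀ ω, l ω ≠ 0 → f ω = v := by
      simp only [Nm.mul_s, det, Multiset.mem_bind, Multiset.mem_map, Finset.mem_val,
        Finset.mem_image] at hl
      obtain ⟨_, ⟨v, ⟨ω0, -, h0⟩, rfl⟩, b, -, rfl⟩ := hl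
      refine ⟨v, ⟨ω0, h0⟩, fun ω hω => ?_⟩
      by_contra h
      simp [h] at hω
    obtain ⟨ω0, rfl⟩ := hv
    have hcl := P.cl_pos f ω0
    have h1 : P.m (fun ω => if f ω = f ω0 then -(P.m l / P.cl f ω0) else 0) ≤
        P.m (uiTh0 P f g l) := by
      refine P.m_le fun ω => ?_
      unfold uiTh0
      have hq : 0 ≤ P.m l / P.cl f ω0 := div_nonneg hm0 hcl.le
      rcases (hl0 ω).eq_or_lt with h0 | h0
      · rw [← h0]
        split_ifs <;> simp [hq]
      · have hf := hsupp ω h0.ne'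
        have hm : 0 < P.m l := lt_of_not_ge fun h => h0.ne' (ui_m_zero P hl0 h ω)
        have hc : P.cl f ω = P.cl f ω0 := by simp only [PS.cl, hf]
        rw [if_pos hf, hc]
        have h2 := Real.one_sub_inv_le_log_of_pos (div_pos (mul_pos h0 hcl) hm)
        rw [Real.log_div (by positivity) hm.ne', Real.log_mul h0.ne' hcl.ne', inv_div] at h2
        have h3 := mul_le_mul_of_nonneg_left h2 h0.le
        have h4 : l ω * (1 - P.m l / (l ω * P.cl f ω0)) = l ω - P.m l / P.cl f ω0 := by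
          field_simp
        rw [h4] at h3
        have h5 := mul_le_mul_of_nonneg_left h3 (hg ω).1
        have h6 := mul_le_of_le_one_left hq (hg ω).2
        have h7 := mul_nonneg (hg ω).1 h0.le
        rw [mul_assoc]
        linarith
    refine le_trans (le_of_eq ?_) h1
    simp only [PS.m, mul_ite, mul_zero]
    rw [← Finset.sum_filter, ← Finset.sum_mul]
    change _ = P.cl f ω0 * _
    field_simp
  rw [Nm.lin_mul_left] at h
  have h2 : (det f * N).lin (fun l => P.m l) = 1 := P.lin_m _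
  rw [h2] at h
  linarith

theorem ui_ratio (x f : Ω → α) {t : ℝ}
    (ht : ∀ ω, (((univ.filter fun ω' => f ω' = f ω).image x).card : ℝ) ≤ Real.exp t) :
    P.m (fun ω => P.cl f ω / P.cl x ω) ≤ Real.exp t := by
  have h1 : P.m (fun ω => P.cl f ω / P.cl x ω) =
      ∑ ω', P.p ω' * ∑ ω ∈ univ.filter fun ω => f ω = f ω', P.p ω / P.cl x ω := by
    simp only [PS.m, Finset.mul_sum, Finset.sum_filter]
    rw [Finset.sum_comm]
    refine Finset.sum_congr rfl fun ω _ => ?_
    rw [PS.cl, Finset.sum_filter, Finset.sum_div, Finset.mul_sum]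
    refine Finset.sum_congr rfl fun ω' _ => ?_
    by_cases h : f ω' = f ω
    · rw [if_pos h, if_pos h.symm]
      ring
    · rw [if_neg h, if_neg fun e => h e.symm]
      simp
  have h2 : ∀ ω', ∑ ω ∈ univ.filter fun ω => f ω = f ω', P.p ω / P.cl x ω ≤ Real.exp t := by
    intro ω'
    refine le_trans ?_ (ht ω')
    set S := univ.filter fun ω => f ω = f ω'
    rw [← Finset.sum_fiberwise_of_maps_to (s := S) (t := S.image x) (g := x)
      fun ω hω => Finset.mem_image_of_mem x hω, Finset.card_eq_sum_ones, Nat.cast_sum]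
    refine Finset.sum_le_sum fun v hv => ?_
    obtain ⟨ω0, -, rfl⟩ := Finset.mem_image.mp hv
    rw [Finset.sum_congr rfl (g := fun ω => P.p ω / P.cl x ω0) fun ω hω => by
      simp only [PS.cl, (Finset.mem_filter.mp hω).2], ← Finset.sum_div, Nat.cast_one,
      div_le_one (P.cl_pos x ω0)]
    exact Finset.sum_le_sum_of_subset_of_nonneg
      (Finset.filter_subset_filter _ (Finset.subset_univ _)) fun ω _ _ => (P.pos ω).le
  rw [h1]
  calc _ ≤ ∑ ω', P.p ω' * Real.exp t :=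
        Finset.sum_le_sum fun ω' _ => mul_le_mul_of_nonneg_left (h2 ω') (P.pos ω').le
    _ = _ := by rw [← Finset.sum_mul, P.sum_one, one_mul]

theorem uiTh_upper (x f : Ω → α) {g : Ω → ℝ} (hg : ∀ ω, 0 ≤ g ω ∧ g ω ≤ 1) {N : Nm Ω}
    (hN : Meas x N) {t : ℝ}
    (ht : ∀ ω, (((univ.filter fun ω' => f ω' = f ω).image x).card : ℝ) ≤ Real.exp t) :
    uiTh P f g N ≤ 1 + t * P.m g := by
  have h : uiTh P f g N ≤ N.lin fun l =>
      P.m ((fun ω => t * g ω + (Real.exp t)⁻¹ * (P.cl f ω / P.cl x ω)) * l) := by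
    refine N.lin_le fun l hl => P.m_le fun ω => ?_
    have hl0 := N.nonneg l hl
    have hf := P.cl_pos f ω
    have hx := P.cl_pos x ω
    simp only [uiTh0, Pi.mul_apply]
    rcases (hl0 ω).eq_or_lt with h0 | h0
    · rw [← h0]
      simp
    have h1 : l ω * P.cl x ω ≤ P.m l := by
      rw [PS.cl, Finset.mul_sum]
      calc _ = ∑ ω' ∈ univ.filter fun ω' => x ω' = x ω, P.p ω' * l ω' :=
            Finset.sum_congr rfl fun ω' h => by
              rw [hN l hl ω' ω (Finset.mem_filter.mp h).2, mul_comm]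
        _ ≤ _ := Finset.sum_le_sum_of_subset_of_nonneg (Finset.filter_subset _ _)
            fun ω' _ _ => mul_nonneg (P.pos ω').le (hl0 ω')
    have h2 := Real.log_le_log (mul_pos h0 hx) h1
    rw [Real.log_mul h0.ne' hx.ne'] at h2
    have hZ : 0 < (Real.exp t)⁻¹ * (P.cl f ω / P.cl x ω) := by positivity
    have h3 := Real.log_le_sub_one_of_pos hZ
    rw [Real.log_mul (by positivity) (by positivity), Real.log_inv, Real.log_exp,
      Real.log_div hf.ne' hx.ne'] at h3
    set Z := (Real.exp t)⁻¹ * (P.cl f ω / P.cl x ω)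
    have h4 : Real.log (l ω) + Real.log (P.cl f ω) - Real.log (P.m l) ≤ t + Z := by linarith
    have h5 := mul_le_mul_of_nonneg_left h4 (mul_nonneg (hg ω).1 h0.le)
    have h6 := mul_le_of_le_one_left (mul_pos hZ h0).le (hg ω).2
    linarith
  rw [P.lin_m_mul] at h
  have h2 : P.m (fun ω => t * g ω + (Real.exp t)⁻¹ * (P.cl f ω / P.cl x ω)) =
      t * P.m g + (Real.exp t)⁻¹ * P.m (fun ω => P.cl f ω / P.cl x ω) := by
    simp only [PS.m, Finset.mul_sum, ← Finset.sum_add_distrib]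
    exact Finset.sum_congr rfl fun ω _ => by ring
  have h3 := mul_le_mul_of_nonneg_left (ui_ratio P x f ht) (inv_pos.mpr (Real.exp_pos t)).le
  rw [inv_mul_cancel₀ (Real.exp_pos t).ne'] at h3
  linarith

/-- The cell inequality: the weighted mean of `W` is bounded by differences of potentials. -/
theorem ui_cell (f : Ω → α) {g : Ω → ℝ} (hg : ∀ ω, 0 ≤ g ω ∧ g ω ≤ 1) {κ : ℝ} (hκ : 0 ≤ κ)
    (C A B : Nm Ω) :
    P.m (fun ω => g ω * P.wfun κ C A B ω) ≤
      -(κ + 10) * (uiTh P f g (C * A * B) - uiTh P f g (C * A) - uiTh P f g (C * B) +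
        uiTh P f g C) + (2 * κ + 19) * (uiPhi P g (C * A * B) - uiPhi P g (C * A)) := by
  have e1 := uiTh_second P f g C A B
  have e2 : uiPhi P g (C * A * B) - uiPhi P g (C * A) = C.lin fun c => A.lin fun a =>
      (B.lin fun b => uiPhi0 P g (c * a * b)) - uiPhi0 P g (c * a) := by
    unfold uiPhi
    rw [Nm.lin_mul, Nm.lin_mul, Nm.lin_mul, ← Nm.lin_sub]
    exact C.lin_congr fun c _ => by rw [← Nm.lin_sub]
  rw [neg_mul_comm, ← e1, e2, PS.wfun, P.m_mul_ex3, ← Nm.lin_mul_left, ← Nm.lin_mul_left,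
    ← Nm.lin_add]
  refine C.lin_le fun c hc => ?_
  rw [← Nm.lin_mul_left, ← Nm.lin_mul_left, ← Nm.lin_add]
  refine A.lin_le fun a ha => ?_
  have h1 := ui_hel P hg (C.nonneg c hc) (A.nonneg a ha) (A.le_one ha) B
  have h2 := ui_big P hg (C.nonneg c hc) (A.nonneg a ha) (A.le_one ha) B
  have h3 : (B.lin fun b => P.m (g * (c * a * b)) *
      (κ * P.hel B c a + if 1 < P.pmi c a b then P.pmi c a b else 0)) =
      B.lin fun b => (κ + 10) * (P.m (g * (c * a * b)) * P.pmi c a b) +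
        ((2 * κ + 18) * (P.m (g * (c * a * b)) * (P.hel B c a / 2 - P.pmi c a b / 2)) +
        P.m (g * (c * a * b)) * ((if 1 < P.pmi c a b then P.pmi c a b else 0) -
          P.pmi c a b - 9 * P.hel B c a)) := B.lin_congr fun b _ => by ring
  rw [h3, Nm.lin_add, Nm.lin_add, Nm.lin_mul_left, Nm.lin_mul_left]
  have h4 := mul_le_mul_of_nonneg_left h1 (by linarith : 0 ≤ 2 * κ + 18)
  linarith

omit [Fintype Ω] in
theorem ui_ex3_le (C A B : Nm Ω) (W W' : (Ω → ℝ) → (Ω → ℝ) → (Ω → ℝ) → ℝ) (u v : ℝ)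
    (h : ∀ c a b, W c a b ≤ u + v * W' c a b) (ω : Ω) :
    PS.ex3 C A B W ω ≤ u + v * PS.ex3 C A B W' ω := by
  have e : u = C.lin fun c => A.lin fun a => B.lin fun b => c ω * a ω * b ω * u := by
    simp only [Nm.lin_mul_right, Nm.lin_mul_left, Nm.lin_eval, mul_one, one_mul]
  unfold PS.ex3
  conv_rhs => rw [e]
  rw [← Nm.lin_mul_left, ← Nm.lin_add]
  refine C.lin_le fun c hc => ?_
  rw [← Nm.lin_mul_left, ← Nm.lin_add]
  refine A.lin_le fun a ha => ?_
  rw [← Nm.lin_mul_left, ← Nm.lin_add]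
  refine B.lin_le fun b hb => ?_
  have := mul_le_mul_of_nonneg_left (h c a b)
    (mul_nonneg (mul_nonneg (C.nonneg c hc ω) (A.nonneg a ha ω)) (B.nonneg b hb ω))
  linarith

theorem ui_tfun_le {κ : ℝ} (hκ : 1 ≤ κ) (C A B : Nm Ω) (ω : Ω) :
    P.tfun κ C A B ω ≤ 0 + κ⁻¹ * P.wfun 1 C A B ω := by
  refine ui_ex3_le C A B _ _ _ _ (fun c a b => ?_) ω
  have h0 := P.hel_nonneg B c a
  have hk : 0 < κ := by linarith
  rw [zero_add, ← div_eq_inv_mul, le_div_iff₀ hk]
  split_ifs <;> linarith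

theorem ui_vfun_le {κ θ : ℝ} (hκ : 1 ≤ κ) (h0 : 0 < θ) (h1 : θ ≤ 1) (C A B : Nm Ω) (ω : Ω) :
    P.vfun κ C A B ω ≤ θ + θ⁻¹ * P.wfun 1 C A B ω := by
  refine ui_ex3_le C A B _ _ _ _ (fun c a b => ?_) ω
  have hh := P.hel_nonneg B c a
  rw [← div_eq_inv_mul, ← sub_le_iff_le_add', le_div_iff₀ h0]
  have e := Real.sq_sqrt (by linarith : 0 ≤ P.hel B c a / 2)
  have e' := sq_nonneg (√(P.hel B c a / 2) - θ)
  have e'' := Real.sqrt_nonneg (P.hel B c a / 2)
  rcases max_cases √(P.hel B c a / 2) (if κ < P.pmi c a b then (1 : ℝ) else 0) with h | h <;>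
    rw [h.1] <;> split_ifs <;> nlinarith

variable {ι : Type} [Fintype ι] [DecidableEq ι] {q : ℕ}

theorem ui_m_loc (hq : 0 < q) (hι : Fintype.card ι = 8 * q) (a b : ι) (g : Ω → ℝ)
    (W : Finset ι → Finset ι → Ω → ℝ) :
    P.m (fun ω => g ω * loc q a b fun X T => W X T ω) =
      loc q a b fun X T => P.m fun ω => g ω * W X T ω := by
  have h := isAv_loc hq hι a b
  have h1 := h.sum univ fun ω (z : Finset ι × Finset ι) => P.p ω * g ω * W z.1 z.2 ω
  simp only [PS.m, ← mul_assoc]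
  rw [h1]
  refine Finset.sum_congr rfl fun ω _ => ?_
  exact (h.smul (P.p ω * g ω) fun z => W z.1 z.2 ω).symm

theorem ui_loc_lin (hq : 0 < q) (hι : Fintype.card ι = 8 * q) (a b : ι) (u v : ℝ)
    (G G' : Finset ι → Finset ι → ℝ) :
    (loc q a b fun X T => u * G X T + v * G' X T) = u * loc q a b G + v * loc q a b G' := by
  have h := isAv_loc hq hι a b
  have h1 := h.add (fun z => u * G z.1 z.2) fun z => v * G' z.1 z.2
  have h2 := h.smul u fun z => G z.1 z.2
  have h3 := h.smul v fun z => G' z.1 z.2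
  exact h1.trans (congrArg₂ (· + ·) h2 h3)

theorem ui_w (hq : 0 < q) (hι : Fintype.card ι = 8 * q) {x f : Ω → α} {A B : ι → Nm Ω}
    {t κ : ℝ} (hf : Ref x f) (hA : ∀ a, Meas x (A a)) (hB : ∀ b, Meas x (B b)) (ht0 : 0 ≤ t)
    (ht : ∀ ω, (((univ.filter fun ω' => f ω' = f ω).image x).card : ℝ) ≤ Real.exp t)
    (hκ : 1 ≤ κ) {g : Ω → ℝ} (hg : ∀ ω, 0 ≤ g ω ∧ g ω ≤ 1) :
    𝔼 a : ι, 𝔼 b : ι, P.m (fun ω => g ω * wloc P q κ f A B a b ω) ≤
      2000 * κ * (t * P.m g + Fintype.card ι) / (Fintype.card ι : ℝ) ^ 2 := by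
  have h1 := loc_tele_both hq hι (fun X T => uiTh P f g (past f A B X T)) (-1) (1 + t * P.m g)
    fun X T => ⟨by
      rw [past, mul_assoc]
      exact uiTh_lower P f hg _,
    uiTh_upper P x f hg (((meas_det hf).mul (meas_prod _ _ fun a _ => hA a)).mul
      (meas_prod _ _ fun b _ => hB b)) ht⟩
  have h2 := loc_tele_col hq hι (fun a X T => uiPhi P g (past f A B X T * A a)) (-1) 0
    fun a X T => uiPhi_bounds P hg _
  have h3 : 𝔼 a : ι, 𝔼 b : ι, P.m (fun ω => g ω * wloc P q κ f A B a b ω) ≤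
      𝔼 a : ι, 𝔼 b : ι, (-(κ + 10) * (loc q a b fun X T =>
        uiTh P f g (past f A B (insert a X) (insert b T)) - uiTh P f g (past f A B (insert a X) T) -
          uiTh P f g (past f A B X (insert b T)) + uiTh P f g (past f A B X T)) +
        (2 * κ + 19) * loc q a b fun X T =>
          uiPhi P g (past f A B X (insert b T) * A a) - uiPhi P g (past f A B X T * A a)) := by
    refine Finset.expect_le_expect fun a _ => Finset.expect_le_expect fun b _ => ?_
    unfold wloc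
    rw [ui_m_loc P hq hι, ← ui_loc_lin hq hι]
    refine loc_mono fun X T ha hb => ?_
    have e1 : past f A B (insert a X) (insert b T) = past f A B X T * A a * B b := by
      unfold past
      rw [Finset.prod_insert ha, Finset.prod_insert hb]
      ac_rfl
    have e2 : past f A B (insert a X) T = past f A B X T * A a := by
      unfold past
      rw [Finset.prod_insert ha]
      ac_rfl
    have e3 : past f A B X (insert b T) = past f A B X T * B b := by
      unfold past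
      rw [Finset.prod_insert hb]
      ac_rfl
    rw [e1, e2, e3, mul_right_comm _ (B b)]
    exact ui_cell P f hg (by linarith) _ _ _
  simp only [Finset.expect_add_distrib, ← Finset.mul_expect] at h3
  have h4 := (abs_le.mp h1).1
  have h5 := (abs_le.mp h2).2
  have hq' : (1 : ℝ) ≤ q := by exact_mod_cast hq
  have hm : 0 ≤ t * P.m g := mul_nonneg ht0 (P.m_nonneg fun ω => (hg ω).1)
  have h6 := mul_le_mul_of_nonneg_left h4 (by linarith : 0 ≤ κ + 10)
  have h7 := mul_le_mul_of_nonneg_left h5 (by linarith : 0 ≤ 2 * κ + 19)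
  have h8 : (κ + 10) * (2 * (1 + t * P.m g - -1) / (q : ℝ) ^ 2) + (2 * κ + 19) * ((0 - -1) / q) ≤
      2000 * κ * (t * P.m g + Fintype.card ι) / (Fintype.card ι : ℝ) ^ 2 := by
    rw [hι]
    push_cast
    set y := t * P.m g
    rw [le_div_iff₀ (by positivity)]
    have e : ((κ + 10) * (2 * (1 + y - -1) / (q : ℝ) ^ 2) + (2 * κ + 19) * ((0 - -1) / q)) *
        (8 * (q : ℝ)) ^ 2 = 128 * ((κ + 10) * (2 + y)) + 64 * ((2 * κ + 19) * q) := by
      field_simp
      ring
    rw [e]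
    have a1 : (κ + 10) * (2 + y) ≤ 11 * κ * (2 * q + y) :=
      mul_le_mul (by linarith) (by linarith) (by linarith) (by linarith)
    have a2 : (2 * κ + 19) * q ≤ 21 * κ * q := mul_le_mul_of_nonneg_right (by linarith) (by linarith)
    have a3 : 0 ≤ κ * y := mul_nonneg (by linarith) hm
    have a4 : 0 ≤ κ * q := mul_nonneg (by linarith) (by linarith)
    linarith
  linarith

theorem ui_aff (hq : 0 < q) (hι : Fintype.card ι = 8 * q) (u v : ℝ) (hv : 0 ≤ v)
    (V W : ι → ι → Finset ι → Finset ι → Ω → ℝ)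
    (h : ∀ a b X T ω, V a b X T ω ≤ u + v * W a b X T ω) (M : ℝ)
    (hM : 𝔼 a : ι, 𝔼 b : ι, P.m (fun ω => (1 : Ω → ℝ) ω * loc q a b fun X T => W a b X T ω) ≤ M) :
    𝔼 a : ι, 𝔼 b : ι, P.m (fun ω => loc q a b fun X T => V a b X T ω) ≤ u + v * M := by
  have hne : (univ : Finset ι).Nonempty := by
    rw [← Finset.card_pos, Finset.card_univ, hι]
    omega
  have h1 : 𝔼 a : ι, 𝔼 b : ι, P.m (fun ω => loc q a b fun X T => V a b X T ω) ≤
      𝔼 a : ι, 𝔼 b : ι, (u + v *
        P.m (fun ω => (1 : Ω → ℝ) ω * loc q a b fun X T => W a b X T ω)) := by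
    refine Finset.expect_le_expect fun a _ => Finset.expect_le_expect fun b _ => ?_
    have h2 : P.m (fun ω => loc q a b fun X T => V a b X T ω) ≤
        P.m (fun ω => u + v * loc q a b fun X T => W a b X T ω) := by
      refine P.m_le fun ω => ?_
      have h3 := ui_loc_lin hq hι a b u v (fun _ _ => 1) fun X T => W a b X T ω
      have h4 : (loc q a b fun _ _ => (1 : ℝ)) = 1 := (isAv_loc hq hι a b).const 1
      rw [h4, mul_one] at h3
      rw [← h3]
      exact loc_mono fun X T _ _ => by simpa using h a b X T ω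
    refine h2.trans (le_of_eq ?_)
    simp only [PS.m, mul_add, Finset.sum_add_distrib, ← Finset.sum_mul, P.sum_one, one_mul,
      Finset.mul_sum, Pi.one_apply]
    congr 1
    exact Finset.sum_congr rfl fun ω _ => by ring
  simp only [Finset.expect_add_distrib, ← Finset.mul_expect, Finset.expect_const hne] at h1
  have := mul_le_mul_of_nonneg_left hM hv
  linarith

end Aux

theorem ui_lemma : ∃ C : ℝ, 0 < C ∧ ∀ {Ω : Type} [Fintype Ω] (P : PS Ω) {ι : Type} [Fintype ι]
    [DecidableEq ι] {α : Type} [DecidableEq α] (x f : Ω → α) (A B : ι → Nm Ω) (q : ℕ) (t κ : ℝ),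
    0 < q → Fintype.card ι = 8 * q → Ref x f → (∀ a, Meas x (A a)) → (∀ b, Meas x (B b)) → 0 ≤ t →
    (∀ ω, (((univ.filter fun ω' => f ω' = f ω).image x).card : ℝ) ≤ Real.exp t) → 1 ≤ κ →
    (∀ g : Ω → ℝ, (∀ ω, 0 ≤ g ω ∧ g ω ≤ 1) →
      𝔼 a : ι, 𝔼 b : ι, P.m (fun ω => g ω * wloc P q κ f A B a b ω) ≤
        C * κ * (t * P.m g + Fintype.card ι) / (Fintype.card ι : ℝ) ^ 2) ∧
    𝔼 a : ι, 𝔼 b : ι, P.m (tloc P q κ f A B a b) ≤
        C * (t + Fintype.card ι) / ((Fintype.card ι : ℝ) ^ 2 * κ) ∧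
    ∀ θ : ℝ, 0 < θ → θ ≤ 1 → 𝔼 a : ι, 𝔼 b : ι, P.m (vloc P q κ f A B a b) ≤
        θ + C * (t + Fintype.card ι) / ((Fintype.card ι : ℝ) ^ 2 * θ) := by
  refine ⟨2000, by norm_num, ?_⟩
  intro Ω _ P ι _ _ α _ x f A B q t κ hq hι hf hA hB ht0 ht hκ
  have h1 := ui_w P hq hι hf hA hB ht0 ht le_rfl (g := 1) fun ω => by simp
  rw [P.m_one, mul_one, mul_one] at h1
  refine ⟨fun g hg => ui_w P hq hι hf hA hB ht0 ht hκ hg, ?_, fun θ h0 hθ => ?_⟩
  · refine (ui_aff P hq hι 0 κ⁻¹ (inv_nonneg.mpr (by linarith)) _ _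
      (fun a b X T ω => ui_tfun_le P hκ (past f A B X T) (A a) (B b) ω) _ h1).trans (le_of_eq ?_)
    rw [zero_add, ← div_eq_inv_mul, div_div]
  · refine (ui_aff P hq hι θ θ⁻¹ (inv_nonneg.mpr h0.le) _ _
      (fun a b X T ω => ui_vfun_le P hκ h0 hθ (past f A B X T) (A a) (B b) ω) _ h1).trans
      (le_of_eq ?_)
    rw [← div_eq_inv_mul, div_div]

end Pool.Agent.Lib.MP_a7c6c3_lc
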