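import Pool.Agent.Lib.MP_a7c6c3_lc.ExtHyp
import Pool.Agent.Lib.MP_a7c6c3_lc.Core
import Pool.Agent.Lib.MP_a7c6c3_lc.UI

/-! Module `PairTest`: a bounded test that detects the translation of one row/column pair. -/

set_option autoImplicit false
open Finset
open scoped BigOperators

namespace Pool.Agent.Lib.MP_a7c6c3_lc

namespace PairTest

/-- The final numerical inequality. -/
theorem numer {C₀ C s η W d T B V : ℝ} (hC₀ : 0 < C₀) (hC : 0 < C)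
    (hs : (1000 * ((C₀ + 1) * (C + 1) ^ 2)) ^ 2 ≤ s) (h1 : 1 / s ^ 20 ≤ η) (h2 : η ≤ s)
    (hcore : η ≤ C₀ * (W + s * (d / (η / s ^ 2) + η / s ^ 2) + η / s +
      T * (1 + Real.log (1 / (η / s)))))
    (hd : d ≤ 4 / s ^ 45) (hT : T ≤ 6 * C * η / s)
    (hB : B ≤ 2 * (6 * C ^ 2 * η / s + C * η / s ^ 2)) (hV : V ≤ 2 * (1 / s ^ 9 + 6 * C / s ^ 11)) :
    1 / s ^ 4 ≤ (W - B) / (2 * (s ^ 3 * η)) - 2 * s ^ 4 * V := by
  obtain ⟨D, hD⟩ : ∃ D, D = (C₀ + 1) * (C + 1) ^ 2 := ⟨_, rfl⟩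
  rw [← hD] at hs
  have p1 := mul_pos hC₀ hC
  have p2 := mul_pos hC₀ (pow_pos hC 2)
  have p3 := pow_pos hC 2
  have d0 : C₀ ≤ D := by linarith
  have d1 : C₀ * C ≤ D := by linarith
  have d2 : C₀ * C ^ 2 ≤ D := by linarith
  have d3 : 1 ≤ D := by linarith
  have s0 : 0 < s := lt_of_lt_of_le (by positivity) hs
  obtain ⟨r, r0, hsr⟩ : ∃ r : ℝ, 0 < r ∧ s = r ^ 2 :=
    ⟨√s, Real.sqrt_pos.2 s0, (Real.sq_sqrt s0.le).symm⟩
  have hr : 1000 * D ≤ r := (pow_le_pow_iff_left₀ (by positivity) r0.le two_ne_zero).1 (hsr ▸ hs)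
  have r1 : 1 ≤ r := by linarith
  have rs : r ≤ s := hsr ▸ le_self_pow₀ r1 two_ne_zero
  have s1 : 1 ≤ s := r1.trans rs
  have η0 : 0 < η := lt_of_lt_of_le (by positivity) h1
  have e1 : 1 ≤ s ^ 20 * η := by rwa [div_le_iff₀' (by positivity)] at h1
  obtain ⟨y, hy⟩ : ∃ y, y = η / r := ⟨_, rfl⟩
  have y0 : 0 < y := by rw [hy]; positivity
  have y1 : 1000 * (D * y) ≤ η := by
    rw [hy, ← mul_assoc, ← mul_div_assoc, div_le_iff₀' r0]
    gcongr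
  have y2 : η / s ≤ y := by rw [hy]; gcongr
  have y3 : η / s ^ 2 ≤ y := by
    refine le_trans ?_ y2
    gcongr
    exact le_self_pow₀ s1 two_ne_zero
  have a1 : s * (d / (η / s ^ 2)) ≤ 4 * y := by
    calc s * (d / (η / s ^ 2)) = s ^ 3 * d / η := by field_simp
      _ ≤ s ^ 3 * (4 / s ^ 45) / η := by gcongr
      _ = 4 / (s ^ 42 * η) := by field_simp
      _ ≤ 4 * y := by
        rw [hy, ← mul_div_assoc, div_le_div_iff₀ (by positivity) r0]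
        have : 1 * s ^ 2 ≤ (s ^ 20 * η) ^ 2 * s ^ 2 := by
          gcongr
          exact one_le_pow₀ e1
        linarith [le_self_pow₀ s1 two_ne_zero]
  have a2 : s * (η / s ^ 2) = η / s := by field_simp
  have a3 : Real.log (1 / (η / s)) ≤ 42 * r := by
    calc Real.log (1 / (η / s)) ≤ Real.log (r ^ 42) := by
          apply Real.log_le_log (by positivity)
          rw [one_div_div, div_le_iff₀ η0, show r ^ 42 = s * s ^ 20 by rw [hsr]; ring, mul_assoc]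
          exact le_mul_of_one_le_right s0.le e1
      _ = 42 * Real.log r := by rw [Real.log_pow]; norm_num
      _ ≤ 42 * r := by linarith [Real.log_le_sub_one_of_pos r0]
  have a4 : 0 ≤ Real.log (1 / (η / s)) := by
    apply Real.log_nonneg
    rw [one_div_div, le_div_iff₀ η0]
    linarith
  have a5 : T * (1 + Real.log (1 / (η / s))) ≤ 258 * C * y := by
    calc T * (1 + Real.log (1 / (η / s))) ≤ 6 * C * η / s * (1 + Real.log (1 / (η / s))) := by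
          gcongr
      _ ≤ 6 * C * η / s * (43 * r) := by
          gcongr
          linarith
      _ = 258 * C * y := by rw [hy, hsr]; field_simp; ring
  have b1 : η ≤ C₀ * W + 264 * (D * y) := by
    have : C₀ * (W + s * (d / (η / s ^ 2) + η / s ^ 2) + η / s +
        T * (1 + Real.log (1 / (η / s)))) ≤ C₀ * (W + 6 * y + 258 * C * y) := by
      gcongr ?_ * ?_
      rw [mul_add, a2]
      linarith
    linarith [mul_le_mul_of_nonneg_right d0 y0.le, mul_le_mul_of_nonneg_right d1 y0.le]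
  have b2 : C₀ * B ≤ 14 * (D * y) := by
    have : B ≤ 2 * (6 * C ^ 2 * y + C * y) := by
      refine hB.trans ?_
      rw [mul_div_assoc, mul_div_assoc]
      gcongr
    linarith [mul_le_mul_of_nonneg_left this hC₀.le, mul_le_mul_of_nonneg_right d2 y0.le,
      mul_le_mul_of_nonneg_right d1 y0.le]
  have b3 : 1 / (4 * C₀ * s ^ 3) ≤ (W - B) / (2 * (s ^ 3 * η)) := by
    rw [div_le_div_iff₀ (by positivity) (by positivity)]
    have : η / 2 ≤ C₀ * (W - B) := by linarith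
    linarith [mul_le_mul_of_nonneg_left this (pow_pos s0 3).le]
  have b4 : 2 * s ^ 4 * V ≤ (4 + 24 * C) / s ^ 4 := by
    calc 2 * s ^ 4 * V ≤ 2 * s ^ 4 * (2 * (1 / s ^ 9 + 6 * C / s ^ 11)) := by gcongr
      _ = 4 / s ^ 5 + 24 * C / s ^ 7 := by field_simp; ring
      _ ≤ 4 / s ^ 4 + 24 * C / s ^ 4 := by gcongr <;> first | exact s1 | norm_num
      _ = _ := by ring
  have b5 : (5 + 24 * C) / s ^ 4 ≤ 1 / (4 * C₀ * s ^ 3) := by
    rw [div_le_div_iff₀ (by positivity) (by positivity)]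
    have : (5 + 24 * C) * (4 * C₀) ≤ s := by linarith
    linarith [mul_le_mul_of_nonneg_left this (pow_pos s0 3).le]
  have : (5 + 24 * C) / s ^ 4 = 1 / s ^ 4 + (4 + 24 * C) / s ^ 4 := by ring
  linarith

variable {Ω : Type} {Λ : Type} [Fintype Λ] [DecidableEq Λ]

omit [Fintype Λ] [DecidableEq Λ] in
theorem xr_comm (a u : Λ → Bool) : xr a u = xr u a := by
  funext l
  simp [xr, Bool.xor_comm]

theorem expect_xr (g : (Λ → Bool) → ℝ) (u : Λ → Bool) : 𝔼 a, g (xr a u) = 𝔼 a, g a :=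
  Fintype.expect_equiv (xrE u) _ _ fun _ => rfl

/-- Average over all cells. -/
noncomputable def bar (w : (Λ → Bool) → (Λ → Bool) → Ω → ℝ) (ω : Ω) : ℝ := 𝔼 a, 𝔼 b, w a b ω

/-- Correlation of two cell statistics under a translation. -/
noncomputable def cor (w w' : (Λ → Bool) → (Λ → Bool) → Ω → ℝ) (u v : Λ → Bool) (ω₁ ω₂ : Ω) : ℝ :=
  𝔼 a, 𝔼 b, w (xr a u) (xr b v) ω₁ * w' a b ω₂

variable {w w' : (Λ → Bool) → (Λ → Bool) → Ω → ℝ}

theorem bar_nonneg (hw : ∀ a b ω, 0 ≤ w a b ω) (ω : Ω) : 0 ≤ bar w ω :=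
  expect_nonneg fun a _ => expect_nonneg fun b _ => hw a b ω

theorem cor_nonneg (hw : ∀ a b ω, 0 ≤ w a b ω) (hw' : ∀ a b ω, 0 ≤ w' a b ω) (u v : Λ → Bool)
    (ω₁ ω₂ : Ω) : 0 ≤ cor w w' u v ω₁ ω₂ :=
  expect_nonneg fun _ _ => expect_nonneg fun _ _ => mul_nonneg (hw _ _ _) (hw' _ _ _)

theorem cor_le_left (hw : ∀ a b ω, 0 ≤ w a b ω) (hw' : ∀ a b ω, w' a b ω ≤ 1) (u v : Λ → Bool)
    (ω₁ ω₂ : Ω) : cor w w' u v ω₁ ω₂ ≤ bar w ω₁ := by
  refine (expect_le_expect fun a _ => expect_le_expect fun b _ =>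
    mul_le_of_le_one_right (hw _ _ _) (hw' a b ω₂)).trans_eq ?_
  exact (expect_congr rfl fun a _ => expect_xr (fun b => w (xr a u) b ω₁) v).trans
    (expect_xr (fun a => 𝔼 b, w a b ω₁) u)

theorem cor_le_right (hw : ∀ a b ω, w a b ω ≤ 1) (hw' : ∀ a b ω, 0 ≤ w' a b ω) (u v : Λ → Bool)
    (ω₁ ω₂ : Ω) : cor w w' u v ω₁ ω₂ ≤ bar w' ω₂ :=
  expect_le_expect fun a _ => expect_le_expect fun b _ =>
    mul_le_of_le_one_left (hw' a b ω₂) (hw _ _ _)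

theorem expect_cor (w w' : (Λ → Bool) → (Λ → Bool) → Ω → ℝ) (ω₁ ω₂ : Ω) :
    𝔼 u, 𝔼 v, cor w w' u v ω₁ ω₂ = bar w ω₁ * bar w' ω₂ := by
  have h : ∀ a b, 𝔼 u, 𝔼 v, w (xr a u) (xr b v) ω₁ * w' a b ω₂ = bar w ω₁ * w' a b ω₂ := by
    intro a b
    simp only [← expect_mul, xr_comm a, xr_comm b]
    congr 1
    exact (expect_congr rfl fun u _ => expect_xr (fun v => w (xr u a) v ω₁) b).trans
      (expect_xr (fun u => 𝔼 v, w u v ω₁) a)
  calc 𝔼 u, 𝔼 v, cor w w' u v ω₁ ω₂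
      = 𝔼 u, 𝔼 a, 𝔼 v, 𝔼 b, w (xr a u) (xr b v) ω₁ * w' a b ω₂ :=
        expect_congr rfl fun u _ => expect_comm _ _ _
    _ = 𝔼 a, 𝔼 u, 𝔼 b, 𝔼 v, w (xr a u) (xr b v) ω₁ * w' a b ω₂ := by
        rw [expect_comm]
        exact expect_congr rfl fun a _ => expect_congr rfl fun u _ => expect_comm _ _ _
    _ = 𝔼 a, 𝔼 b, bar w ω₁ * w' a b ω₂ :=
        expect_congr rfl fun a _ => (expect_comm _ _ _).trans (expect_congr rfl fun b _ => h a b)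
    _ = _ := by simp only [← mul_expect]; rfl

theorem m_expect [Fintype Ω] (P : PS Ω) {ι : Type} [Fintype ι] (g : ι → Ω → ℝ) :
    P.m (fun ω => 𝔼 a, g a ω) = 𝔼 a, P.m (g a) := by
  simp only [PS.m, mul_expect]
  exact (expect_sum_comm _ _ _).symm

theorem m_bar [Fintype Ω] (P : PS Ω) (g : Ω → ℝ) (w : (Λ → Bool) → (Λ → Bool) → Ω → ℝ) :
    P.m (fun ω => g ω * bar w ω) = 𝔼 a, 𝔼 b, P.m fun ω => g ω * w a b ω := by
  simp only [bar, mul_expect, m_expect]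

theorem m_lin [Fintype Ω] (P : PS Ω) (c c' : ℝ) (l l' : Ω → ℝ) :
    P.m (fun ω => c * l ω + c' * l' ω) = c * P.m l + c' * P.m l' := by
  simp only [PS.m, mul_sum, ← sum_add_distrib]
  exact sum_congr rfl fun ω _ => by ring

/-- The part of `f` above the level `c`. -/
noncomputable def exc (c : ℝ) (f : Ω → ℝ) (ω : Ω) : ℝ := if f ω ≤ c then 0 else f ω

/-- Uniform integrability bounds the tail of the averaged weight. -/
theorem tail [Fintype Ω] (P : PS Ω) (hw : ∀ a b ω, 0 ≤ w a b ω) {C s t R η : ℝ} (hC : 0 < C)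
    (hs : 1 ≤ s) (h1 : 1 / s ^ 20 ≤ η) (ht : t ≤ 2 * η * R ^ 2) (hR : R ≤ η * R ^ 2)
    (hsR : s ^ 23 ≤ R)
    (hU : ∀ g : Ω → ℝ, (∀ ω, 0 ≤ g ω ∧ g ω ≤ 1) →
      𝔼 a, 𝔼 b, P.m (fun ω => g ω * w a b ω) ≤ C * s * (t * P.m g + R) / R ^ 2) :
    P.m (exc (s ^ 3 * η) (bar w)) ≤ 6 * C ^ 2 * η / s + C * η / s ^ 2 := by
  have s0 : 0 < s := by linarith
  have R0 : 0 < R := lt_of_lt_of_le (by positivity) hsR
  have η0 : 0 < η := lt_of_lt_of_le (by positivity) h1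
  obtain ⟨g, hg⟩ : ∃ g : Ω → ℝ, g = fun ω => if bar w ω ≤ s ^ 3 * η then 0 else 1 := ⟨_, rfl⟩
  have g01 : ∀ ω, 0 ≤ g ω ∧ g ω ≤ 1 := fun ω => by rw [hg]; dsimp only; split_ifs <;> norm_num
  have u1 := hU (fun _ => 1) fun _ => ⟨zero_le_one, le_rfl⟩
  have u2 := hU g g01
  rw [← m_bar] at u1 u2
  rw [show P.m (fun _ => (1 : ℝ)) = 1 from P.m_one] at u1
  have m1 : P.m g ≤ 3 * C / s ^ 2 := by
    have e1 : P.m (fun ω => (s ^ 3 * η) * g ω + 0 * g ω) ≤ P.m fun ω => 1 * bar w ω :=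
      P.m_le fun ω => by
        rw [hg]
        dsimp only
        split_ifs with h
        · simpa using bar_nonneg hw ω
        · linarith
    rw [m_lin] at e1
    have e2 : C * s * (t * 1 + R) / R ^ 2 ≤ C * s * (3 * η) := by
      rw [mul_div_assoc]
      gcongr
      rw [div_le_iff₀ (by positivity)]
      linarith
    rw [le_div_iff₀ (by positivity)]
    have e3 : (s * η) * (P.m g * s ^ 2) ≤ (s * η) * (3 * C) := by linarith
    exact le_of_mul_le_mul_left e3 (by positivity)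
  have e4 : exc (s ^ 3 * η) (bar w) = fun ω => g ω * bar w ω := by
    funext ω
    rw [hg, exc]
    dsimp only
    split_ifs <;> simp
  rw [e4]
  refine u2.trans ?_
  have e5 : 1 / R ≤ η / s ^ 3 := by
    calc 1 / R ≤ 1 / s ^ 23 := by gcongr
      _ = 1 / s ^ 20 / s ^ 3 := by field_simp
      _ ≤ η / s ^ 3 := by gcongr
  calc C * s * (t * P.m g + R) / R ^ 2
      ≤ C * s * (2 * η * R ^ 2 * (3 * C / s ^ 2) + R) / R ^ 2 := by
        gcongr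
        exact P.m_nonneg fun ω => (g01 ω).1
    _ = 6 * C ^ 2 * η / s + C * s * (1 / R) := by field_simp; ring
    _ ≤ 6 * C ^ 2 * η / s + C * s * (η / s ^ 3) := by gcongr
    _ = _ := by field_simp

/-- The test function. -/
noncomputable def test (c δ : ℝ) (w₀ v₀ w₁ v₁ : (Λ → Bool) → (Λ → Bool) → Ω → ℝ)
    (u v : Λ → Bool) (ω₁ ω₂ : Ω) : ℝ :=
  if bar v₀ ω₁ + bar v₁ ω₂ ≤ δ then
    ((if bar w₀ ω₁ ≤ c then cor w₀ v₁ u v ω₁ ω₂ else 0) +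
      if bar w₁ ω₂ ≤ c then cor v₀ w₁ u v ω₁ ω₂ else 0) / (2 * c)
  else 0

section Test

variable {c δ : ℝ} {w₀ v₀ w₁ v₁ : (Λ → Bool) → (Λ → Bool) → Ω → ℝ} (hc : 0 < c)
  (hw₀ : ∀ a b ω, 0 ≤ w₀ a b ω) (hw₁ : ∀ a b ω, 0 ≤ w₁ a b ω)
  (hv₀ : ∀ a b ω, 0 ≤ v₀ a b ω ∧ v₀ a b ω ≤ 1) (hv₁ : ∀ a b ω, 0 ≤ v₁ a b ω ∧ v₁ a b ω ≤ 1)

include hc hw₀ hw₁ hv₀ hv₁

theorem test_mem (u v : Λ → Bool) (ω₁ ω₂ : Ω) :
    0 ≤ test c δ w₀ v₀ w₁ v₁ u v ω₁ ω₂ ∧ test c δ w₀ v₀ w₁ v₁ u v ω₁ ω₂ ≤ 1 := by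
  have a1 := cor_nonneg hw₀ (fun a b ω => (hv₁ a b ω).1) u v ω₁ ω₂
  have a2 := cor_nonneg (fun a b ω => (hv₀ a b ω).1) hw₁ u v ω₁ ω₂
  have a3 := cor_le_left hw₀ (fun a b ω => (hv₁ a b ω).2) u v ω₁ ω₂
  have a4 := cor_le_right (fun a b ω => (hv₀ a b ω).2) hw₁ u v ω₁ ω₂
  unfold test
  split_ifs <;> refine ⟨by positivity, ?_⟩ <;>
    first | exact zero_le_one | (rw [div_le_one (by positivity)]; linarith)

omit hw₀ hw₁ in
theorem test_expect (hδ : 0 ≤ δ) (ω₁ ω₂ : Ω) :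
    𝔼 u, 𝔼 v, test c δ w₀ v₀ w₁ v₁ u v ω₁ ω₂ ≤ δ / 2 := by
  have b0 := bar_nonneg (fun a b ω => (hv₀ a b ω).1) ω₁
  have b1 := bar_nonneg (fun a b ω => (hv₁ a b ω).1) ω₂
  have e1 := expect_cor w₀ v₁ ω₁ ω₂
  have e2 := expect_cor v₀ w₁ ω₁ ω₂
  unfold test
  split_ifs with h h1 h2 h2
  all_goals
    simp only [← expect_div, expect_add_distrib, expect_const_zero, e1, e2]
    first | positivity | (rw [div_le_iff₀ (by positivity)]; nlinarith)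

theorem le_test (hδ : 0 < δ) (u v : Λ → Bool) (ω₁ ω₂ : Ω) :
    (cor w₀ v₁ u v ω₁ ω₂ + cor v₀ w₁ u v ω₁ ω₂ - (exc c (bar w₀) ω₁ + exc c (bar w₁) ω₂)) /
      (2 * c) - (bar v₀ ω₁ + bar v₁ ω₂) / δ ≤ test c δ w₀ v₀ w₁ v₁ u v ω₁ ω₂ := by
  have a3 := cor_le_left hw₀ (fun a b ω => (hv₁ a b ω).2) u v ω₁ ω₂
  have a4 := cor_le_right (fun a b ω => (hv₀ a b ω).2) hw₁ u v ω₁ ω₂
  have b0 := bar_nonneg (fun a b ω => (hv₀ a b ω).1) ω₁
  have b1 := bar_nonneg (fun a b ω => (hv₁ a b ω).1) ω₂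
  have k : (cor w₀ v₁ u v ω₁ ω₂ + cor v₀ w₁ u v ω₁ ω₂ -
      (exc c (bar w₀) ω₁ + exc c (bar w₁) ω₂)) / (2 * c) ≤
      ((if bar w₀ ω₁ ≤ c then cor w₀ v₁ u v ω₁ ω₂ else 0) +
        if bar w₁ ω₂ ≤ c then cor v₀ w₁ u v ω₁ ω₂ else 0) / (2 * c) := by
    gcongr
    unfold exc
    split_ifs <;> linarith
  have k1 := (test_mem (δ := bar v₀ ω₁ + bar v₁ ω₂) hc hw₀ hw₁ hv₀ hv₁ u v ω₁ ω₂).2
  rw [test, if_pos le_rfl] at k1
  rw [test]
  split_ifs with h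
  all_goals first
    | (have : 0 ≤ (bar v₀ ω₁ + bar v₁ ω₂) / δ := by positivity
       simp only [*, if_true, if_false] at k
       linarith)
    | (have : 1 ≤ (bar v₀ ω₁ + bar v₁ ω₂) / δ := by rw [le_div_iff₀ hδ]; linarith
       linarith)

end Test

theorem m_comb [Fintype Ω] (P : PS Ω) (c δ : ℝ) (f g₁ g₂ h₁ h₂ : Ω → ℝ) :
    P.m (fun x => (f x - (g₁ x + g₂ x)) / c - (h₁ x + h₂ x) / δ) =
      (P.m f - (P.m g₁ + P.m g₂)) / c - (P.m h₁ + P.m h₂) / δ := by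
  simp only [PS.m, mul_sub, mul_add, ← mul_div_assoc, sum_sub_distrib, ← sum_div,
    sum_add_distrib]

end PairTest

open PairTest in
theorem pair_test : ∃ s₀ : ℝ, ∀ s : ℝ, s₀ ≤ s → ∀ {Ω : Type} [Fintype Ω] {T : Type}
    [DecidableEq T] (P : PS Ω) (π : Fin 3 → Ω → T) (F : Ω → T) (t e ε E : ℝ) {S Λ : Type}
    [Fintype Λ] [DecidableEq Λ] (K : S → Chan P) (sr sc : S → Λ → Bool)
    (_rc : RC P π F Λ K sr sc t ε E) (q L : ℕ),
    Net P π F t e → e ≤ ε → e ≤ t → (∀ σ, GoodChan P π F (K σ) ε) →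
    Fintype.card (Λ → Bool) = 8 * q → 0 < L → L ≤ q → (8 * q : ℝ) ≤ t → s ^ 23 ≤ (8 * q : ℝ) →
    1 / s ^ 20 ≤ t / (8 * q : ℝ) ^ 2 → t / (8 * q : ℝ) ^ 2 ≤ 2 / s ^ 20 →
    dlt (8 * q) L ε E ≤ 1 / s ^ 45 →
    ∃ φ : (Λ → Bool) → (Λ → Bool) → Ω → Ω → ℝ,
      (∀ u v ω₁ ω₁' ω₂ ω₂', π 0 ω₁ = π 0 ω₁' → π 1 ω₂ = π 1 ω₂' → φ u v ω₁ ω₂ = φ u v ω₁' ω₂') ∧
      (∀ u v ω₁ ω₂, 0 ≤ φ u v ω₁ ω₂ ∧ φ u v ω₁ ω₂ ≤ 1) ∧
      (∀ ω₁ ω₂, 𝔼 u, 𝔼 v, φ u v ω₁ ω₂ ≤ 1 / (4 * s ^ 4)) ∧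
      ∀ σ, 1 / s ^ 4 ≤ (K σ).ext.m fun x => φ (sr σ) (sc σ) ((K σ).en x) ((K σ).st x) := by
  obtain ⟨C₀, hC₀, hcore⟩ := core
  obtain ⟨C, hC, hui⟩ := ui_lemma
  refine ⟨(1000 * ((C₀ + 1) * (C + 1) ^ 2)) ^ 2, ?_⟩
  intro s hs Ω _ T _ P π F t e ε E S Λ _ _ K sr sc rc q L hN he het hK hcard hL hLq hRt hsR h1 h2 hd
  have s4 : 4 ≤ s := by
    have a : 1 ≤ (C₀ + 1) * (C + 1) ^ 2 :=
      one_le_mul_of_one_le_of_one_le (by linarith) (one_le_pow₀ (by linarith))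
    nlinarith
  have s0 : 0 < s := by linarith
  have s1 : 1 ≤ s := by linarith
  have hq : 0 < q := hL.trans_le hLq
  have hR : (Fintype.card (Λ → Bool) : ℝ) = 8 * q := by exact_mod_cast hcard
  have e0 := hN.e_nonneg
  obtain ⟨A, hA⟩ : ∃ A : Fin 3 → (Λ → Bool) → Nm Ω, A = fun u a => (rc.ρ a).nm u := ⟨_, rfl⟩
  obtain ⟨B, hB⟩ : ∃ B : Fin 3 → (Λ → Bool) → Nm Ω, B = fun u b => (rc.κ b).nm u := ⟨_, rfl⟩
  have mA : ∀ u a, Meas (π u) (A u a) := fun u a => hA ▸ (rc.ρ a).meas u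
  have mB : ∀ u b, Meas (π u) (B u b) := fun u b => hB ▸ (rc.κ b).meas u
  have U := fun u => hui P (π u) F (A u) (B u) q (t + e) s hq hcard (hN.ref u) (mA u) (mB u)
    (by linarith) (hN.supp u) s1
  have bd := fun u => loc_bounds P hq hcard s0.le F (A u) (B u)
  have rf := fun u => loc_ref P q s (hN.ref u) (mA u) (mB u)
  rw [hR] at U
  obtain ⟨R, hRq⟩ : ∃ R : ℝ, R = 8 * q := ⟨_, rfl⟩
  rw [← hRq] at U hR hRt hsR h1 h2 hd
  have R0 : 0 < R := lt_of_lt_of_le (by positivity) hsR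
  obtain ⟨η, hη⟩ : ∃ η : ℝ, η = t / R ^ 2 := ⟨_, rfl⟩
  rw [← hη] at h1 h2
  have η0 : 0 < η := lt_of_lt_of_le (by positivity) h1
  have η1 : η ≤ 1 := h2.trans (by
    rw [div_le_one (by positivity)]
    linarith [le_self_pow₀ s1 (show 20 ≠ 0 by norm_num)])
  have ht : t = η * R ^ 2 := by rw [hη]; field_simp
  have c0 : 0 < s ^ 3 * η := by positivity
  have q3 : (t + e + R) / R ^ 2 ≤ 3 * η := by
    rw [div_le_iff₀ (by positivity)]
    linarith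
  refine ⟨test (s ^ 3 * η) (1 / (2 * s ^ 4)) (wloc P q s F (A 0) (B 0)) (vloc P q s F (A 0) (B 0))
    (wloc P q s F (A 1) (B 1)) (vloc P q s F (A 1) (B 1)), fun u v ω₁ ω₁' ω₂ ω₂' g₁ g₂ => ?_,
    test_mem c0 (fun a b ω => (bd 0 a b ω).1) (fun a b ω => (bd 1 a b ω).1)
      (fun a b ω => ⟨(bd 0 a b ω).2.1, (bd 0 a b ω).2.2.1⟩)
      (fun a b ω => ⟨(bd 1 a b ω).2.1, (bd 1 a b ω).2.2.1⟩),
    fun ω₁ ω₂ => (test_expect c0 (fun a b ω => ⟨(bd 0 a b ω).2.1, (bd 0 a b ω).2.2.1⟩)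
      (fun a b ω => ⟨(bd 1 a b ω).2.1, (bd 1 a b ω).2.2.1⟩) (by positivity) ω₁ ω₂).trans_eq
      (by field_simp; norm_num), fun σ => ?_⟩
  · simp only [test, bar, cor, fun a b => (rf 0 a b).1 _ _ g₁, fun a b => (rf 0 a b).2 _ _ g₁,
      fun a b => (rf 1 a b).1 _ _ g₂, fun a b => (rf 1 a b).2 _ _ g₂]
  refine le_trans ?_ ((K σ).ext.m_le fun x => le_test c0 (fun a b ω => (bd 0 a b ω).1)
    (fun a b ω => (bd 1 a b ω).1) (fun a b ω => ⟨(bd 0 a b ω).2.1, (bd 0 a b ω).2.2.1⟩)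
    (fun a b ω => ⟨(bd 1 a b ω).2.1, (bd 1 a b ω).2.2.1⟩) (by positivity) _ _ _ _)
  have H := coreHyp_ext rc hN he σ (hK σ)
  have hc := hcore _ _ _ _ _ _ t (4 * ε) E q L s (η / s) (η / s ^ 2) H hq hcard hL hLq
    (by linarith) (by positivity) (by rw [div_le_iff₀ s0]; linarith) (by positivity)
    (by rw [div_le_one (by positivity)]; exact η1.trans (one_le_pow₀ s1))
  have l0 := loc_lift P (K σ).ext (K σ).en (K σ).ext_m_en (K σ).en_surj q s F (A 0) (B 0)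
    (xrE (sr σ)) (xrE (sc σ))
  have l1 := loc_lift P (K σ).ext (K σ).st (K σ).ext_m_st (K σ).st_surj q s F (A 1) (B 1) 1 1
  rw [← funext (hK σ).pres.ext_eq] at l0
  have n0 : extN (K σ) rc.ρ (xrE (sr σ)) 0 = fun a => (A 0 (xrE (sr σ) a)).lift (K σ).en := by
    rw [hA]; rfl
  have n1 : extN (K σ) rc.κ (xrE (sc σ)) 0 = fun a => (B 0 (xrE (sc σ) a)).lift (K σ).en := by
    rw [hB]; rfl
  have n2 : extN (K σ) rc.ρ (xrE (sr σ)) 1 =
      fun a => (A 1 ((1 : Equiv.Perm (Λ → Bool)) a)).lift (K σ).st := by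
    rw [hA]; rfl
  have n3 : extN (K σ) rc.κ (xrE (sc σ)) 1 =
      fun a => (B 1 ((1 : Equiv.Perm (Λ → Bool)) a)).lift (K σ).st := by
    rw [hB]; rfl
  rw [hR, ← hη, n0, n1, n2, n3] at hc
  have tl : ∀ u, 𝔼 a, 𝔼 b, P.m (tloc P q s F (A u) (B u) a b) ≤ 3 * C * η / s := fun u => by
    refine (U u).2.1.trans ?_
    calc C * (t + e + R) / (R ^ 2 * s) = C * ((t + e + R) / R ^ 2) / s := by field_simp
      _ ≤ C * (3 * η) / s := by gcongr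
      _ = _ := by ring
  have vl : ∀ u, P.m (bar (vloc P q s F (A u) (B u))) ≤ 1 / s ^ 9 + 6 * C / s ^ 11 := fun u => by
    have a := (U u).2.2 (1 / s ^ 9) (by positivity)
      (by rw [div_le_one (by positivity)]; exact one_le_pow₀ s1)
    simp only [← m_expect] at a
    refine a.trans ?_
    calc 1 / s ^ 9 + C * (t + e + R) / (R ^ 2 * (1 / s ^ 9))
        = 1 / s ^ 9 + C * ((t + e + R) / R ^ 2) * s ^ 9 := by field_simp
      _ ≤ 1 / s ^ 9 + C * (3 * (2 / s ^ 20)) * s ^ 9 := by gcongr; linarith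
      _ = _ := by field_simp; ring
  have wl := fun u => tail P (fun a b ω => (bd u a b ω).1) hC s1 h1
    (show t + e ≤ 2 * η * R ^ 2 by linarith) (ht ▸ hRt) hsR (U u).1
  have t0 : ∀ a b, (K σ).ext.m (tloc (K σ).ext q s (fun x => F ((K σ).st x))
      (fun a => (A 0 (xrE (sr σ) a)).lift (K σ).en) (fun a => (B 0 (xrE (sc σ) a)).lift (K σ).en)
      a b) = P.m (tloc P q s F (A 0) (B 0) (xr a (sr σ)) (xr b (sc σ))) := fun a b => by
    rw [funext fun x => (l0 a b x).2.2]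
    exact (K σ).ext_m_en (tloc P q s F (A 0) (B 0) (xr a (sr σ)) (xr b (sc σ)))
  have t1 : ∀ a b, (K σ).ext.m (tloc (K σ).ext q s (fun x => F ((K σ).st x))
      (fun a => (A 1 ((1 : Equiv.Perm (Λ → Bool)) a)).lift (K σ).st)
      (fun a => (B 1 ((1 : Equiv.Perm (Λ → Bool)) a)).lift (K σ).st) a b) =
      P.m (tloc P q s F (A 1) (B 1) a b) := fun a b => by
    rw [funext fun x => (l1 a b x).2.2]
    exact (K σ).ext_m_st (tloc P q s F (A 1) (B 1) a b)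
  have t2 : 𝔼 a, 𝔼 b, P.m (tloc P q s F (A 0) (B 0) (xr a (sr σ)) (xr b (sc σ))) =
      𝔼 a, 𝔼 b, P.m (tloc P q s F (A 0) (B 0) a b) :=
    (expect_congr rfl fun a _ =>
      expect_xr (fun b => P.m (tloc P q s F (A 0) (B 0) (xr a (sr σ)) b)) _).trans
      (expect_xr (fun a => 𝔼 b, P.m (tloc P q s F (A 0) (B 0) a b)) _)
  simp only [t0, t1, t2, fun a b x => (l0 a b x).1, fun a b x => (l0 a b x).2.1,
    fun a b x => (l1 a b x).1, fun a b x => (l1 a b x).2.1] at hc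
  simp only [← m_expect, expect_add_distrib] at hc
  rw [m_comb]
  have x0 := (K σ).ext_m_en (exc (s ^ 3 * η) (bar (wloc P q s F (A 0) (B 0))))
  have x1 := (K σ).ext_m_st (exc (s ^ 3 * η) (bar (wloc P q s F (A 1) (B 1))))
  have x2 := (K σ).ext_m_en (bar (vloc P q s F (A 0) (B 0)))
  have x3 := (K σ).ext_m_st (bar (vloc P q s F (A 1) (B 1)))
  simp only [Function.comp_def] at x0 x1 x2 x3
  rw [x0, x1, x2, x3, div_div_eq_mul_div, div_one, mul_comm _ (2 * s ^ 4)]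
  refine numer hC₀ hC hs h1 (η1.trans s1) hc ?_ ?_ ?_ ?_
  · have a : dlt R L (4 * ε) E ≤ 4 * dlt R L ε E := by
      rw [dlt, dlt, ← mul_assoc 4]
      exact mul_le_mul_of_nonneg_right (by linarith [H.E_nonneg]) (by positivity)
    rw [div_eq_mul_one_div]
    linarith
  · have a := tl 0
    have b := tl 1
    simp only [← m_expect] at a b
    linarith [show 6 * C * η / s = 3 * C * η / s + 3 * C * η / s by ring]
  · linarith [wl 0, wl 1]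
  · linarith [vl 0, vl 1]

end Pool.Agent.Lib.MP_a7c6c3_lc
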