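import Pool.Agent.Lib.MP_a7c6c3_lc.Basic

/-! Module `Rules1`: resampling, channels and the extension space (identities). -/

set_option autoImplicit false
open Finset

namespace Pool.Agent.Lib.MP_a7c6c3_lc

variable {Ω : Type} [Fintype Ω]

theorem lin_det {α : Type} [DecidableEq α] (f : Ω → α) (Ψ : (Ω → ℝ) → ℝ) :
    (det f).lin Ψ = ∑ v ∈ univ.image f, Ψ fun ω => if f ω = v then 1 else 0 := by
  simp only [Nm.lin, det, Multiset.map_map]
  rfl

theorem det_lift {Ω' α : Type} [Fintype Ω'] [DecidableEq α] {g : Ω' → Ω}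
    (hg : Function.Surjective g) (f : Ω → α) : det (fun x => f (g x)) = (det f).lift g := by
  classical
  apply Nm.ext
  have : (univ.image fun x => f (g x)) = univ.image f := by
    ext v
    simp only [mem_image, mem_univ, true_and]
    exact hg.exists (p := fun y => f y = v) |>.symm
  simp only [det, Nm.lift, Multiset.map_map, this]
  rfl

theorem det_unit (P : PS Ω) : det (fun _ : Ω => ()) = 1 := by
  have : Nonempty Ω := by
    by_contra h
    have := P.sum_one
    rw [not_nonempty_iff] at h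
    simp at this
  apply Nm.ext
  have e : (univ.image fun _ : Ω => ()) = {()} := image_const univ_nonempty _
  simp only [det, e, Nm.one_s, singleton_val, Multiset.map_singleton]
  rfl

namespace Chan

variable {P : PS Ω} (K : Chan P)

theorem lin_app (N : Nm Ω) (Ψ : (Ω → ℝ) → ℝ) :
    (K.app N).lin Ψ = ∑ μ, N.lin fun l => Ψ (K.op μ l) := by
  simp only [Nm.lin, app, Multiset.map_bind, Multiset.sum_bind, Multiset.map_map]
  rfl

theorem app_idc (N : Nm Ω) : (idc P).app N = N := by
  apply Nm.ext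
  have : ∀ μ, (idc P).op μ = id := fun μ => by
    funext l ω
    simp only [op, idc, id]
    rw [sum_eq_single ω (fun _ _ h => by simp [h]) (by simp)]
    simp
  simp only [app, this, Multiset.map_id]
  change (univ : Finset Unit).val.bind _ = _
  simp

theorem app_comp (K' : Chan P) (N : Nm Ω) : (K.comp K').app N = K.app (K'.app N) := by
  apply Nm.ext
  have : ∀ μ, (K.comp K').op μ = K.op μ.1 ∘ K'.op μ.2 := fun μ => by
    funext l ω
    simp only [op, comp, Function.comp, sum_mul, mul_sum, mul_assoc]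
    exact sum_comm
  simp only [app, this, Multiset.map_bind, Multiset.map_map]
  change (univ : Finset (K.M × K'.M)).val.bind _ = _
  rw [← univ_product_univ, product_val]
  change (Multiset.bind _ _).bind _ = _
  rw [Multiset.bind_assoc]
  simp only [Multiset.bind_map]

theorem app_step {α β : Type} [DecidableEq α] [DecidableEq β] (f : Ω → α) (a : Ω → β)
    (N : Nm Ω) : (step P f a).app N = P.R f (det a * N) := by
  apply Nm.ext
  have : ∀ μ, (step P f a).op μ =
      P.cexp f ∘ fun l => (fun ω => if a ω = μ.1 then 1 else 0) * l := fun μ => by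
    funext l ω
    simp only [op, step, Function.comp, PS.cexp, sum_filter, sum_div, Pi.mul_apply]
    refine sum_congr rfl fun ω' _ => ?_
    by_cases h : f ω' = f ω <;> by_cases h' : a ω' = μ.1 <;> simp [h, h', div_mul_eq_mul_div]
  have e : (univ : Finset (step P f a).M) = (univ.image a).attach := by
    ext v
    exact ⟨fun _ => mem_attach _ _, fun _ => mem_univ _⟩
  simp only [app, this, PS.R, Nm.mul_s, det, Multiset.map_bind, Multiset.bind_map,
    Multiset.map_map, e]
  exact Multiset.attach_bind_coe (univ.image a).val fun v =>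
    N.s.map (P.cexp f ∘ fun l => (fun ω => if a ω = v then 1 else 0) * l)

theorem app_step_unit {α : Type} [DecidableEq α] (f : Ω → α) (N : Nm Ω) :
    (step P f fun _ => ()).app N = P.R f N := by
  rw [app_step, det_unit P, one_mul]

theorem pres_idc {α : Type} (F : Ω → α) : (idc P).Pres F := by
  intro μ ω ω' h
  by_cases e : ω' = ω
  · rw [e]
  · simp [idc, e] at h

theorem Pres.comp {α : Type} {F : Ω → α} {K K' : Chan P} (h : K.Pres F) (h' : K'.Pres F) :
    (K.comp K').Pres F := by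
  intro μ ω ω'' e
  obtain ⟨ω', -, e⟩ := exists_ne_zero_of_sum_ne_zero e
  exact (h _ _ _ (left_ne_zero_of_mul e)).trans (h' _ _ _ (right_ne_zero_of_mul e))

theorem pres_step {α β γ : Type} [DecidableEq α] [DecidableEq β] {f : Ω → α} (a : Ω → β)
    {F : Ω → γ} (h : Ref f F) : (step P f a).Pres F := by
  intro μ ω ω' e
  exact h _ _ (ite_ne_right_iff.1 e).1.1.symm

theorem smeas_step {α β : Type} [DecidableEq α] [DecidableEq β] (f : Ω → α) (a : Ω → β) :
    (step P f a).SMeas f := by
  intro μ ω₁ ω₂ ω' e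
  simp only [step, PS.cl, e]

theorem SMeas.comp {α : Type} {f : Ω → α} {K : Chan P} (h : K.SMeas f) (K' : Chan P) :
    (K.comp K').SMeas f := by
  intro μ ω₁ ω₂ ω' e
  simp only [Chan.comp, h _ _ _ _ e]

theorem SMeas.meas_app {α : Type} {f : Ω → α} {K : Chan P} (h : K.SMeas f) (N : Nm Ω) :
    Meas f (K.app N) := by
  intro l hl ω ω' e
  simp only [app, Multiset.mem_bind, Multiset.mem_map] at hl
  obtain ⟨μ, -, a, -, rfl⟩ := hl
  simp only [op, h _ _ _ _ e]

theorem app_mul_meas {α : Type} {F : Ω → α} {K : Chan P} (h : K.Pres F) (A : Nm Ω) {B : Nm Ω}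
    (hB : Meas F B) : K.app (A * B) = K.app A * B := by
  apply Nm.ext
  simp only [app, Nm.mul_s, Multiset.map_bind, Multiset.bind_assoc, Multiset.bind_map,
    Multiset.map_map]
  refine Multiset.bind_congr fun μ _ => Multiset.bind_congr fun a _ =>
    Multiset.map_congr rfl fun b hb => ?_
  funext ω
  simp only [op, Function.comp, Pi.mul_apply, sum_mul]
  refine sum_congr rfl fun ω' _ => ?_
  by_cases e : K.k μ ω ω' = 0
  · simp [e]
  · rw [hB b hb _ _ (h _ _ _ e), mul_assoc]

/-! Identities on the extension space. -/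

theorem ext_m3 (g : Ω → K.M → Ω → ℝ) :
    K.ext.m (fun x => g (K.st x) (K.mk' x) (K.en x)) =
      ∑ ω, ∑ μ, ∑ ω', P.p ω * K.k μ ω ω' * g ω μ ω' := by
  have := K.sum_ext fun ω μ ω' => P.p ω * g ω μ ω'
  refine ((sum_congr rfl fun _ _ => mul_assoc _ _ _).trans this).trans ?_
  exact sum_congr rfl fun _ _ => sum_congr rfl fun _ _ => sum_congr rfl fun _ _ => by ring

theorem ext_m_st (l : Ω → ℝ) : K.ext.m (l ∘ K.st) = P.m l := by
  refine (K.ext_m3 fun ω _ _ => l ω).trans (sum_congr rfl fun ω _ => ?_)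
  simp only [← sum_mul, ← mul_sum, K.sum_one, mul_one]

theorem ext_m_en (l : Ω → ℝ) : K.ext.m (l ∘ K.en) = P.m l := by
  refine (K.ext_m3 fun _ _ ω => l ω).trans ?_
  refine ((sum_congr rfl fun _ _ => sum_comm).trans sum_comm).trans (sum_congr rfl fun ω _ => ?_)
  simp only [← sum_mul, K.stat]

theorem ext_m (g : Ω → Ω → ℝ) :
    K.ext.m (fun x => g (K.en x) (K.st x)) = ∑ ω, ∑ μ, ∑ ω', P.p ω * K.k μ ω ω' * g ω' ω :=
  K.ext_m3 fun ω _ ω' => g ω' ω

theorem ext_H_st (C : Nm Ω) : K.ext.H (C.lift K.st) = P.H C := by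
  simp only [PS.H, Nm.lin_lift, ext_m_st]

theorem ext_H_en (C : Nm Ω) : K.ext.H (C.lift K.en) = P.H C := by
  simp only [PS.H, Nm.lin_lift, ext_m_en]

theorem ext_Hc_st (C : Nm Ω) : K.ext.Hc (C.lift K.st) = P.Hc C := by
  simp only [PS.Hc, Nm.lin_lift]
  exact congrArg C.lin (funext fun l => K.ext_m_st fun ω => Real.negMulLog (l ω))

theorem ext_Hc_en (C : Nm Ω) : K.ext.Hc (C.lift K.en) = P.Hc C := by
  simp only [PS.Hc, Nm.lin_lift]
  exact congrArg C.lin (funext fun l => K.ext_m_en fun ω => Real.negMulLog (l ω))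

theorem ext_J_st (C : Nm Ω) : K.ext.J (C.lift K.st) = P.J C := by
  simp only [PS.J, ext_H_st, ext_Hc_st]

theorem ext_J_en (C : Nm Ω) : K.ext.J (C.lift K.en) = P.J C := by
  simp only [PS.J, ext_H_en, ext_Hc_en]

theorem ext_H (A C : Nm Ω) :
    K.ext.H (det K.mk' * A.lift K.en * C.lift K.st) = P.H (K.app A * C) := by
  have key : ∀ μ (a c : Ω → ℝ), K.ext.m ((fun x => if K.mk' x = μ then 1 else 0) * a ∘ K.en *
      c ∘ K.st) = P.m (K.op μ a * c) := fun μ a c => by
    refine (K.ext_m3 fun ω ν ω' => (if ν = μ then 1 else 0) * a ω' * c ω).trans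
      (sum_congr rfl fun ω _ => ?_)
    rw [sum_eq_single μ (fun ν _ h => by simp [h]) (by simp)]
    simp only [op, Pi.mul_apply, sum_mul, mul_sum, if_true, one_mul, mul_assoc]
  simp only [PS.H, Nm.lin_mul, Nm.lin_lift, lin_det, lin_app, ← key]
  refine sum_subset (subset_univ _) fun μ _ h => ?_
  have : (fun x => if K.mk' x = μ then (1 : ℝ) else 0) = 0 :=
    funext fun x => if_neg fun e => h (mem_image.2 ⟨x, mem_univ _, e⟩)
  simp [this, PS.m, Nm.lin]

theorem st_surj : Function.Surjective K.st := by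
  intro ω
  obtain ⟨μ, -, h⟩ := exists_ne_zero_of_sum_ne_zero ((K.sum_one ω).trans_ne one_ne_zero)
  obtain ⟨ω', -, h⟩ := exists_ne_zero_of_sum_ne_zero h
  exact ⟨⟨(ω, μ, ω'), (K.nonneg _ _ _).lt_of_ne' h⟩, rfl⟩

theorem en_surj : Function.Surjective K.en := by
  intro ω'
  obtain ⟨ω, -, h⟩ := exists_ne_zero_of_sum_ne_zero ((K.stat ω').trans_ne (P.pos ω').ne')
  obtain ⟨μ, -, h⟩ := exists_ne_zero_of_sum_ne_zero h
  exact ⟨⟨(ω, μ, ω'), (K.nonneg _ _ _).lt_of_ne' (right_ne_zero_of_mul h)⟩, rfl⟩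

theorem det_st {α : Type} [DecidableEq α] (f : Ω → α) :
    det (fun x => f (K.st x)) = (det f).lift K.st := det_lift K.st_surj f

theorem det_en {α : Type} [DecidableEq α] (f : Ω → α) :
    det (fun x => f (K.en x)) = (det f).lift K.en := det_lift K.en_surj f

theorem Pres.ext_eq {α : Type} {F : Ω → α} {K : Chan P} (h : K.Pres F) (x : K.Ext) :
    F (K.st x) = F (K.en x) := h _ _ _ x.2.ne'

theorem Pres.lift_eq {α : Type} {F : Ω → α} {K : Chan P} (h : K.Pres F) {B : Nm Ω}
    (hB : Meas F B) : B.lift K.st = B.lift K.en :=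
  Nm.ext (Multiset.map_congr rfl fun l hl => funext fun x => hB l hl _ _ (h.ext_eq x))

end Chan

namespace PS

variable (P : PS Ω) {α β : Type} [DecidableEq α] [DecidableEq β]

theorem lin_R (f : Ω → α) (N : Nm Ω) (Ψ : (Ω → ℝ) → ℝ) :
    (P.R f N).lin Ψ = N.lin fun l => Ψ (P.cexp f l) := by
  simp only [Nm.lin, R, Multiset.map_map]
  rfl

theorem m_cexp_mul (f : Ω → α) (l l' : Ω → ℝ) :
    P.m (P.cexp f l * l') = P.m (l * P.cexp f l') := by
  simp only [m, cexp, Pi.mul_apply, sum_filter, sum_div, sum_mul, mul_sum]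
  rw [sum_comm]
  refine sum_congr rfl fun ω _ => sum_congr rfl fun ω' _ => ?_
  by_cases h : f ω = f ω'
  · have : P.cl f ω' = P.cl f ω := by simp only [cl, h]
    rw [if_pos h, if_pos h.symm, this]
    ring
  · simp [h, Ne.symm h]

theorem R_one (f : Ω → α) : P.R f 1 = 1 := by
  apply Nm.ext
  simp only [R, Nm.one_s, Multiset.map_singleton, Multiset.singleton_inj]
  funext ω
  simp only [cexp, Pi.one_apply, mul_one]
  exact div_self (P.cl_pos f ω).ne'

theorem meas_R (f : Ω → α) (N : Nm Ω) : Meas f (P.R f N) := by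
  rw [← Chan.app_step_unit]
  exact (Chan.smeas_step f _).meas_app N

theorem R_mul_meas (f : Ω → α) (A : Nm Ω) {B : Nm Ω} (hB : Meas f B) :
    P.R f (A * B) = P.R f A * B := by
  rw [← Chan.app_step_unit, ← Chan.app_step_unit]
  exact Chan.app_mul_meas (Chan.pres_step _ (Ref.rfl' f)) A hB

theorem cexp_cexp {f : Ω → α} {F : Ω → β} (h : Ref f F) (l : Ω → ℝ) :
    P.cexp F (P.cexp f l) = P.cexp F l := by
  funext ω
  have e : ∀ l : Ω → ℝ, P.cexp F l ω =
      P.m (l * fun ω' => if F ω' = F ω then 1 else 0) / P.cl F ω := fun l => by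
    simp [cexp, m, sum_filter]
  have : P.cexp f (fun ω' => if F ω' = F ω then 1 else 0) =
      fun ω' => if F ω' = F ω then 1 else 0 := by
    funext ω'
    rw [cexp, div_eq_iff (P.cl_pos f ω').ne', cl, mul_sum]
    exact sum_congr rfl fun x hx => by rw [h _ _ (mem_filter.1 hx).2, mul_comm]
  rw [e, e, m_cexp_mul, this]

/-- (T2) Tower property. -/
theorem R_R {f : Ω → α} {F : Ω → β} (h : Ref f F) (A : Nm Ω) {B : Nm Ω} (hB : Meas f B) :
    P.R F (P.R f A * B) = P.R F (A * B) := by
  rw [← R_mul_meas P f A hB]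
  apply Nm.ext
  simp only [R, Multiset.map_map]
  exact Multiset.map_congr rfl fun l _ => P.cexp_cexp h l

end PS

end Pool.Agent.Lib.MP_a7c6c3_lc
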