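import Pool.Agent.Lib.MP_a7c6c3_lc.KMain

/-! Module `ShrinkA`: iterated shrinking of a profile by varying factors, with polynomial error. -/

set_option autoImplicit false
open Finset

namespace Pool.Agent.Lib.MP_a7c6c3_lc

variable {U : List Bool →. List (List Bool)}

/-- A small power of `n`. -/
noncomputable def rt (n : ℕ) : ℝ := (n : ℝ) ^ (1 / 10000 : ℝ)

theorem rt_nonneg (n : ℕ) : 0 ≤ rt n := Real.rpow_nonneg (Nat.cast_nonneg n) _

theorem rt_pow (n : ℕ) : rt n ^ 10000 = n := by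
  have := Real.rpow_inv_natCast_pow (Nat.cast_nonneg (α := ℝ) n) (show 10000 ≠ 0 by norm_num)
  rw [← this, rt, one_div]
  rfl

theorem log_le_root {y z : ℝ} (hy : 1 ≤ y) (hz : 0 ≤ z) (h : z ≤ y ^ 10000) :
    Real.log (z + 2) ≤ 10002 * y := by
  have h0 : 1 ≤ y ^ 10000 := one_le_pow₀ hy
  have h1 : z + 2 ≤ 3 * y ^ 10000 := by linarith
  have h2 := Real.log_le_log (by positivity) h1
  rw [Real.log_mul (by norm_num) (by positivity), Real.log_pow] at h2
  have h3 := Real.log_le_sub_one_of_pos (show (0 : ℝ) < 3 by norm_num)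
  have h4 := Real.log_le_sub_one_of_pos (show 0 < y by linarith)
  push_cast at h2
  linarith

/-- Every long tuple can be shrunk by some factor away from `0` and `1`. -/
def Shr (U : List Bool →. List (List Bool)) (k : ℕ) : Prop :=
  ∃ (C : ℝ) (n₀ : ℕ), ∀ n ≥ n₀, ∀ a : Fin k → List Bool, (∀ i, (a i).length ≤ n) →
    ∃ l : ℝ, 1 / rt n ≤ l ∧ l ≤ 1 - 1 / rt n ∧ ∃ a' : Fin k → List Bool,
      ∀ S : Finset (Fin k), S.Nonempty →
        |(cx U (sub S a') : ℝ) - l * cx U (sub S a)| ≤ C * rt n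

theorem shr_step (hU : Opt U) {k : ℕ} (hH : Shr U k) : ∃ (C : ℝ) (n₀ : ℕ), 1 ≤ C ∧
    ∀ m ≥ n₀, 1 ≤ rt m → ∀ b : Fin k → List Bool, (∀ i, (b i).length ≤ m) →
      ∃ l : ℝ, 1 / rt m ≤ l ∧ l ≤ 1 - 1 / rt m ∧ ∃ b' : Fin k → List Bool,
        (∀ i, ((b' i).length : ℝ) ≤ l * m + C * rt m) ∧ ∀ S : Finset (Fin k), S.Nonempty →
          |(cx U (sub S b') : ℝ) - l * cx U (sub S b)| ≤ C * rt m := by
  obtain ⟨c', n₀, hc'⟩ := hH
  obtain ⟨c0, hc0⟩ : ∃ c0 : ℕ, c' ≤ c0 := exists_nat_ge c'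
  obtain ⟨c1, hc1⟩ := cx_single hU
  obtain ⟨c2, hc2⟩ := shorten hU k
  obtain ⟨K, hK⟩ : ∃ K : ℝ, K = c2 * ((Nat.size (1 + c1 + c0) : ℝ) + 1) * 40008 := ⟨_, rfl⟩
  have K0 : 0 ≤ K := by rw [hK]; positivity
  have c00 : (0 : ℝ) ≤ c0 := Nat.cast_nonneg _
  have c10 : (0 : ℝ) ≤ c1 := Nat.cast_nonneg _
  refine ⟨1 + c0 + c1 + K, n₀, by linarith, fun m hm hx b hb => ?_⟩
  obtain ⟨l, l1, l2, a', ha'⟩ := hc' m hm b hb
  have hp := rt_pow m
  generalize rt m = x at *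
  have l3 : 0 < 1 / x := by positivity
  have hm0 : (0 : ℝ) ≤ m := Nat.cast_nonneg _
  have hxm : x ≤ m := hp ▸ le_self_pow₀ hx (by norm_num)
  have ha'' : ∀ S : Finset (Fin k), S.Nonempty →
      |(cx U (sub S a') : ℝ) - l * cx U (sub S b)| ≤ c0 * x := fun S hS =>
    (ha' S hS).trans (mul_le_mul_of_nonneg_right hc0 (by linarith))
  have hs : ∀ i, (cx U [a' i] : ℝ) ≤ l * m + c1 + c0 * x := by
    intro i
    have h1 := (abs_le.1 (ha'' {i} (Finset.singleton_nonempty i))).2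
    rw [kf_sub_single, kf_sub_single] at h1
    have h2 : (cx U [b i] : ℝ) ≤ m + c1 := by exact_mod_cast (hc1 (b i)).trans (by have := hb i; omega)
    have h3 := mul_le_mul_of_nonneg_left h2 (show 0 ≤ l by linarith)
    have h4 : l * c1 ≤ c1 := mul_le_of_le_one_left c10 (by linarith)
    linarith
  obtain ⟨b', hb'1, hb'2⟩ := hc2 a' ((1 + c1 + c0) * (m + 1)) (by
    intro i
    have h2 : (c0 : ℝ) * x ≤ c0 * (m + 1) := by gcongr; linarith
    have h4 : l * m ≤ m := mul_le_of_le_one_left hm0 (by linarith)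
    have h3 : (cx U [a' i] : ℝ) ≤ (1 + c1 + c0) * ((m : ℝ) + 1) := by
      have := hs i
      nlinarith [mul_nonneg c10 hm0]
    exact_mod_cast h3)
  have hsz : (c2 : ℝ) * ((Nat.size ((1 + c1 + c0) * (m + 1)) : ℝ) + 1) ≤ K * x := by
    have h1 : ((Nat.size ((1 + c1 + c0) * (m + 1)) : ℝ) + 1) ≤
        ((Nat.size (1 + c1 + c0) : ℝ) + 1) * ((Nat.size m : ℝ) + 1) := by
      exact_mod_cast kf_size_lin (1 + c1 + c0) m
    have h2 := kf_size_log m
    have h5 := log_le_root hx hm0 hp.ge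
    have h3 : ((Nat.size (1 + c1 + c0) : ℝ) + 1) * ((Nat.size m : ℝ) + 1) ≤
        ((Nat.size (1 + c1 + c0) : ℝ) + 1) * (40008 * x) := by gcongr; linarith
    have h4 : (c2 : ℝ) * ((Nat.size ((1 + c1 + c0) * (m + 1)) : ℝ) + 1) ≤
        c2 * (((Nat.size (1 + c1 + c0) : ℝ) + 1) * (40008 * x)) := by
      gcongr
      exact h1.trans h3
    rw [hK]
    linarith
  have c11 : (c1 : ℝ) ≤ c1 * x := le_mul_of_one_le_right c10 hx
  have K1 : 0 ≤ K * x := by positivity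
  refine ⟨l, l1, l2, b', fun i => ?_, fun S hS => ?_⟩
  · rw [hb'1]
    have h1 := hs i
    linarith
  · have h1 := abs_le.1 (ha'' S hS)
    have h3 : (cx U (sub S a') : ℝ) ≤ cx U (sub S b') +
        c2 * ((Nat.size ((1 + c1 + c0) * (m + 1)) : ℝ) + 1) := by exact_mod_cast (hb'2 S).1
    have h4 : (cx U (sub S b') : ℝ) ≤ cx U (sub S a') +
        c2 * ((Nat.size ((1 + c1 + c0) * (m + 1)) : ℝ) + 1) := by exact_mod_cast (hb'2 S).2
    rw [abs_le]
    constructor <;> linarith [h1.1, h1.2]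

theorem shr_num {x x' l C : ℝ} (hC : 1 ≤ C) (hx : 8 * C ^ 2 ≤ x) (hx' : 0 ≤ x') (l1 : 1 / x ≤ l)
    (l2 : l ≤ 1 - 1 / x) (h : l * x ^ 10000 ≤ x' ^ 10000) : l * x ^ 4 + 2 * C * x ≤ x' ^ 4 := by
  have c1 : C ≤ C ^ 2 := le_self_pow₀ hC (by norm_num)
  have x1 : 1 ≤ x := by linarith
  have x0 : 0 < x := by linarith
  have l3 : 0 < 1 / x := by positivity
  have l0 : 0 < l := by linarith
  have h1 : l * x ^ 8 ≤ x' ^ 8 := by
    refine le_of_pow_le_pow_left₀ (show 1250 ≠ 0 by norm_num) (by positivity) ?_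
    rw [mul_pow, ← pow_mul, ← pow_mul]
    refine le_trans (mul_le_mul_of_nonneg_right ?_ (by positivity)) h
    exact pow_le_of_le_one l0.le (by linarith) (by norm_num)
  refine le_of_pow_le_pow_left₀ two_ne_zero (pow_nonneg hx' 4) (le_trans ?_ (h1.trans_eq (by ring)))
  have h2 : 1 ≤ l * x := by rwa [div_le_iff₀ x0] at l1
  have h3 : 1 ≤ (1 - l) * x := by
    rw [← div_le_iff₀ x0]
    linarith
  have h4 : x ^ 6 ≤ l * (1 - l) * x ^ 8 := by
    calc x ^ 6 = 1 * 1 * x ^ 6 := by ring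
      _ ≤ (l * x) * ((1 - l) * x) * x ^ 6 := by gcongr
      _ = _ := by ring
  have h5 : l * (4 * C * x ^ 5) ≤ 4 * C * x ^ 5 :=
    mul_le_of_le_one_left (by positivity) (by linarith)
  have h6 : 4 * C ^ 2 * x ^ 2 ≤ 4 * C ^ 2 * x ^ 5 := by gcongr; norm_num
  have h7 : (4 * C + 4 * C ^ 2) * x ^ 5 ≤ x * x ^ 5 := by gcongr; linarith
  nlinarith

theorem shr_iter (hU : Opt U) {k : ℕ} (hH : Shr U k) : ∃ Y₀ : ℝ, 2 ≤ Y₀ ∧ ∀ Y ≥ Y₀, ∀ n : ℕ,
    Y ^ 10000 < n → ∀ a : Fin k → List Bool, (∀ i, (a i).length ≤ n) →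
      ∃ (μ : ℝ) (m : ℕ) (b : Fin k → List Bool), 0 < μ ∧ μ ≤ 1 ∧ Y ^ 9999 ≤ m ∧ m ≤ Y ^ 10000 ∧
        μ * n ≤ m ∧ m ≤ μ * n + Y ^ 4 ∧ (∀ i, (b i).length ≤ m) ∧
        ∀ S : Finset (Fin k), S.Nonempty →
          |(cx U (sub S b) : ℝ) - μ * cx U (sub S a)| ≤ Y ^ 4 := by
  obtain ⟨C, n₀, hC, hs⟩ := shr_step hU hH
  have c1 : C ≤ C ^ 2 := le_self_pow₀ hC (by norm_num)
  have n0 : (0 : ℝ) ≤ n₀ := Nat.cast_nonneg _
  refine ⟨8 * C ^ 2 + n₀, by linarith, fun Y hY n hn a ha => ?_⟩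
  have Y1 : 1 ≤ Y := by linarith
  let P : ℕ → Prop := fun m => ∃ (μ : ℝ) (b : Fin k → List Bool), 0 < μ ∧ μ ≤ 1 ∧ μ * n ≤ m ∧
    m ≤ μ * n + rt m ^ 4 ∧ (∀ i, (b i).length ≤ m) ∧ ∀ S : Finset (Fin k), S.Nonempty →
      |(cx U (sub S b) : ℝ) - μ * cx U (sub S a)| ≤ rt m ^ 4
  have key : ∀ m : ℕ, P m → Y ^ 10000 < m → ∃ m' : ℕ, P m' ∧ Y ^ 9999 ≤ m' ∧ m' ≤ Y ^ 10000 := by
    intro m
    induction m using Nat.strong_induction_on with
    | _ m ih =>
      rintro ⟨μ, b, p1, p2, p3, p4, p5, p6⟩ hm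
      have hp := rt_pow m
      have hx : Y ≤ rt m := le_of_pow_le_pow_left₀ (show 10000 ≠ 0 by norm_num) (rt_nonneg m)
        (hm.le.trans hp.ge)
      have hm0 : n₀ ≤ m := by
        have : (n₀ : ℝ) ≤ m := by
          linarith [le_self_pow₀ Y1 (show 10000 ≠ 0 by norm_num)]
        exact_mod_cast this
      obtain ⟨l, l1, l2, b', q1, q2⟩ := hs m hm0 (Y1.trans hx) b p5
      generalize rt m = x at *
      have x1 : 1 ≤ x := Y1.trans hx
      have x0 : 0 < x := by linarith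
      have l3 : 0 < 1 / x := by positivity
      have l0 : 0 < l := by linarith
      have cx1 : 1 ≤ C * x := one_le_mul_of_one_le_of_one_le hC x1
      obtain ⟨m', hm'⟩ : ∃ m' : ℕ, m' = ⌈l * m + C * x⌉₊ := ⟨_, rfl⟩
      have a1 : l * m + C * x ≤ m' := hm' ▸ Nat.le_ceil _
      have a2 : (m' : ℝ) < l * m + C * x + 1 := hm' ▸ Nat.ceil_lt_add_one (by positivity)
      have a3 := shr_num hC (by linarith) (rt_nonneg m') l1 l2 (by rw [hp, rt_pow]; linarith)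
      have e1 : 1 / x * m = x ^ 9999 := by
        rw [← hp, pow_succ x 9999]
        field_simp
      have a4 : x ^ 9999 ≤ l * m := e1 ▸ mul_le_mul_of_nonneg_right l1 (Nat.cast_nonneg m)
      have a5 : l * m ≤ m - x ^ 9999 := by
        have := mul_le_mul_of_nonneg_right l2 (Nat.cast_nonneg (α := ℝ) m)
        rwa [sub_mul, one_mul, e1] at this
      have a6 : 2 * C * x ≤ x ^ 9999 :=
        le_trans (by nlinarith) (pow_le_pow_right₀ x1 (show 2 ≤ 9999 by norm_num))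
      have a7 : m' < m := by
        have : (m' : ℝ) < m := by linarith
        exact_mod_cast this
      have hP : P m' := by
        refine ⟨l * μ, b', by positivity, mul_le_one₀ (by linarith) p1.le p2, ?_, ?_,
          fun i => ?_, fun S hS => ?_⟩
        · have := mul_le_mul_of_nonneg_left p3 l0.le
          linarith
        · have := mul_le_mul_of_nonneg_left p4 l0.le
          linarith
        · have := (q1 i).trans a1
          exact_mod_cast this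
        · have h1 := abs_le.1 (q2 S hS)
          have h2 := abs_le.1 (p6 S hS)
          have h3 := mul_le_mul_of_nonneg_left h2.1 l0.le
          have h4 := mul_le_mul_of_nonneg_left h2.2 l0.le
          rw [abs_le]
          constructor <;> linarith [h1.1, h1.2]
      rcases le_or_gt (m' : ℝ) (Y ^ 10000) with h | h
      · exact ⟨m', hP, by linarith [pow_le_pow_left₀ (zero_le_one.trans Y1) hx 9999], h⟩
      · exact ih m' a7 hP h
  have h0 : 0 ≤ rt n ^ 4 := pow_nonneg (rt_nonneg n) 4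
  obtain ⟨m, ⟨μ, b, p1, p2, p3, p4, p5, p6⟩, q1, q2⟩ := key n
    ⟨1, a, one_pos, le_rfl, by linarith, by linarith, ha, fun S _ => by simpa using h0⟩ hn
  have h1 : rt m ^ 4 ≤ Y ^ 4 := pow_le_pow_left₀ (rt_nonneg m) (le_of_pow_le_pow_left₀
    (show 10000 ≠ 0 by norm_num) (by linarith) ((rt_pow m).le.trans q2)) 4
  exact ⟨μ, m, b, p1, p2, q1, q2, p3, by linarith, p5, fun S hS => (p6 S hS).trans h1⟩

end Pool.Agent.Lib.MP_a7c6c3_lc
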