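import Pool.Agent.Lib.MP_a7c6c3_lc.KMain

/-! Module `ShrinkB`: from a shrunk profile to finite sets of tuples with scaled fibre bounds. -/

set_option autoImplicit false
open Finset

namespace Pool.Agent.Lib.MP_a7c6c3_lc

open KMain

theorem size_mul {n : ℕ} {a z μ : ℝ} (ha : 0 ≤ a) (hz : 0 ≤ z) (μ0 : 0 < μ) (μ1 : μ ≤ 1)
    (h : μ * n ≤ a * (z + 2)) : μ * ((Nat.size n : ℝ) + 1) ≤ (10 + 4 * a) * Real.log (z + 2) := by
  have h0 := half_le_log hz
  have h3 : μ * ((n : ℝ) + 2) ≤ (a + 1) * (z + 2) := by linarith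
  have h4 := log_mul_le ha hz (by positivity) h3
  rw [Real.log_mul μ0.ne' (by positivity)] at h4
  have h5 := size_le_log n
  have h6 : -(μ * Real.log μ) ≤ 1 := by
    have h7 := Real.log_le_sub_one_of_pos (inv_pos.2 μ0)
    rw [Real.log_inv] at h7
    have h8 := mul_le_mul_of_nonneg_left h7 μ0.le
    rw [mul_sub, mul_inv_cancel₀ μ0.ne'] at h8
    linarith
  have h7 : μ * (2 + 2 * a + 2 * Real.log (z + 2)) ≤ 2 + 2 * a + 2 * Real.log (z + 2) :=
    mul_le_of_le_one_left (by positivity) μ1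
  have h8 : 4 + 2 * a + 2 * Real.log (z + 2) ≤ (10 + 4 * a) * Real.log (z + 2) := by nlinarith
  have h9 := mul_le_mul_of_nonneg_left h4 μ0.le
  have h10 := mul_le_mul_of_nonneg_left h5 μ0.le
  linarith

theorem K_gen {U : List Bool →. List (List Bool)} (hU : Opt U) {V : Type} [Fintype V]
    [DecidableEq V] {k : ℕ} (e : V ≃ Fin k) : ∃ (d : ℕ) (c : ℝ), 1 ≤ d ∧ 0 ≤ c ∧
    ∀ (I X : Type) [Fintype I] [DecidableEq I] [Fintype X] [DecidableEq X]
      (tab : V → X → Fin 3 → Option I) (n : ℕ),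
      n = d * (Fintype.card I + (Fintype.card X + 1) * (Nat.size (Fintype.card I) + 1)) →
      ∃ a : Fin (k + 1) → List Bool, (∀ i, (a i).length ≤ n) ∧
        ∀ (μ G E : ℝ) (m : ℕ) (b : Fin (k + 1) → List Bool), 0 < μ → μ ≤ 1 → μ * n ≤ m → 0 ≤ G →
        (∀ i, (b i).length ≤ m) → (∀ S : Finset (Fin (k + 1)), S.Nonempty →
          |(cx U (sub S b) : ℝ) - μ * cx U (sub S a)| ≤ G) → E = 2 * G + c * Real.log (m + 2) →
      ∃ A : Finset (V → List Bool), A.Nonempty ∧
        (∀ l : ℕ, 2 ^ l ≤ (univ.image fun w : I → ZMod 2 => tval tab w).card →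
          μ * l * Real.log 2 - E ≤ Real.log A.card) ∧
        ∀ (S T : Finset V) (u : ℕ),
          (∀ w : I → ZMod 2, ((univ.filter fun w' => res S (tval tab w') = res S (tval tab w)).image
            fun w' => res T (tval tab w')).card ≤ 2 ^ u) →
          ∀ a ∈ A, (((A.filter fun a' => res S a' = res S a).image (res T)).card : ℝ) ≤
            Real.exp (μ * u * Real.log 2 + E) := by
  obtain ⟨c0, hc0⟩ := cx_list hU
  obtain ⟨c1, hc1⟩ := true_tuple' hU e
  obtain ⟨c2, hc2⟩ := fibre hU (List.take 1)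
    (Primrec.list_take.comp (Primrec.const 1) Primrec.id).to_comp
  obtain ⟨c4, hc4⟩ := typize hU k
  refine ⟨c1 + 1, c2 * (10 + 4 * (2 * (k + 1) + c0)) + c4 * (10 + 4 * 1) + c1 * (10 + 4 * 1),
    by omega, by positivity, fun I X _ _ _ _ tab n hn => ?_⟩
  obtain ⟨enc, h1, h2, h3, h4⟩ := hc1 I X tab
  generalize Fintype.card I = N at *
  generalize Fintype.card X = M at *
  have hM : M + 1 ≤ (M + 1) * (Nat.size N + 1) := Nat.le_mul_of_pos_right _ (by omega)
  replace h1 : ∀ w i, (enc w i).length ≤ n := fun w i => (h1 w i).trans (by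
    rw [hn]
    exact Nat.mul_le_mul (by omega) (by omega))
  have hNM : N + M ≤ n := by
    rw [hn]
    exact le_trans (by omega) (Nat.le_mul_of_pos_left _ (by omega))
  obtain ⟨w, -, hw⟩ := exists_max_image univ (fun w => cx U (sub univ (enc w))) univ_nonempty
  refine ⟨enc w, h1 w, fun μ G E m b μ0 μ1 hm G0 b1 b2 hE => ?_⟩
  have x0 : (0 : ℝ) ≤ m := Nat.cast_nonneg _
  have L0 := half_le_log x0
  have c1p : (0 : ℝ) ≤ c1 := Nat.cast_nonneg _
  have hB : cx U (sub univ (enc w)) ≤ 2 * (k + 1) * (n + 1) + c0 := by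
    have := hc0 (sub univ (enc w)) n fun s hs => by
      obtain ⟨i, -, rfl⟩ := List.mem_map.1 hs
      exact h1 w i
    simpa [sub] using this
  have hfib := hc2 [enc w 0] _ _ (univ.image fun w' => sub univ (enc w')) hB fun y hy => by
    obtain ⟨w', -, rfl⟩ := mem_image.1 hy
    exact ⟨by rw [take_sub, h2 w' w], hw w' (mem_univ _)⟩
  obtain ⟨A, a1, a2, a3, a4⟩ := hc4 m b b1
  have s1 := size_mul (n := 2 * (k + 1) * (n + 1) + c0) (a := 2 * (k + 1) + c0) (by positivity) x0
    μ0 μ1 (by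
      have q2 : μ * ((n : ℝ) + 1) ≤ m + 2 := by linarith
      have q3 : (c0 : ℝ) * μ ≤ c0 * (m + 2) := by gcongr; linarith
      have q4 := mul_le_mul_of_nonneg_left q2 (show (0 : ℝ) ≤ 2 * (k + 1) by positivity)
      push_cast
      linarith)
  have s2 := size_mul (n := m) (a := 1) zero_le_one x0 one_pos le_rfl (by linarith)
  have s3 := size_mul (n := N + M) (a := 1) zero_le_one x0 μ0 μ1 (by
    have q1 : μ * ((N + M : ℕ) : ℝ) ≤ μ * n := by gcongr
    linarith)
  rw [one_mul] at s2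
  generalize Nat.size m = σ2 at *
  generalize Nat.size (2 * (k + 1) * (n + 1) + c0) = σ1 at *
  generalize Nat.size (N + M) = σ3 at *
  have t1 := mul_le_mul_of_nonneg_left s1 (Nat.cast_nonneg (α := ℝ) c2)
  have t2 := mul_le_mul_of_nonneg_left s2 (Nat.cast_nonneg (α := ℝ) c4)
  have t3 := mul_le_mul_of_nonneg_left s3 c1p
  have p1 : (0 : ℝ) ≤ c2 * (μ * (σ1 + 1)) := by positivity
  have p3 : (0 : ℝ) ≤ c1 * (μ * (σ3 + 1)) := by positivity
  obtain ⟨F, hF⟩ : ∃ F : ℝ, F = c2 * (μ * (σ1 + 1)) + 2 * G +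
    c4 * (σ2 + 1) + c1 * (μ * (σ3 + 1)) := ⟨_, rfl⟩
  have hFE : F * Real.log 2 ≤ E := by
    have q1 : F ≤ E := by rw [hF, hE]; linarith
    have q2 : 0 ≤ E := by rw [hE]; positivity
    have q3 := Real.log_nonneg (show (1 : ℝ) ≤ 2 by norm_num)
    exact (mul_le_mul_of_nonneg_right q1 q3).trans (mul_le_of_le_one_right q2 log_two_le_one)
  have l2 := Real.log_nonneg (show (1 : ℝ) ≤ 2 by norm_num)
  let dr : (Fin (k + 1) → List Bool) → V → List Bool := fun a v => a (e v).succ
  have hinj : Set.InjOn dr A := fun a ha a' ha' h => by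
    funext i
    refine Fin.cases ((a2 a ha).trans (a2 a' ha').symm) (fun j => ?_) i
    simpa [dr] using congrFun h (e.symm j)
  refine ⟨A.image dr, ⟨_, mem_image_of_mem _ a1⟩, fun l hl => ?_, fun S T u hu a ha => ?_⟩
  · rw [card_image_of_injOn hinj]
    refine le_trans ?_ (le_log a3)
    have q1 := hl.trans (card_image_le univ _ (fun w' => sub univ (enc w')) fun w _ w' _ h =>
      funext fun v => (h3 w w' v).1 ((sub_eq_iff _ _ _).1 h _ (mem_univ _)))
    have q2 := (Nat.mul_le_mul_right _ q1).trans hfib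
    rw [← pow_add, Nat.pow_le_pow_iff_right (by norm_num), ← sub_zero] at q2
    have q3 : μ * ((l : ℝ) + cx U (sub {0} (enc w))) ≤
        μ * (cx U (sub univ (enc w)) + c2 * (σ1 + 1)) :=
      mul_le_mul_of_nonneg_left (by exact_mod_cast q2) μ0.le
    have q4 := abs_le.1 (b2 univ univ_nonempty)
    have q5 := abs_le.1 (b2 {0} (singleton_nonempty _))
    have q6 : μ * l - F ≤
        cx U (sub univ b) - ((cx U (sub {0} b) + c4 * (σ2 + 1) : ℕ) : ℝ) := by
      push_cast
      linarith [q4.1, q5.2]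
    have := mul_le_mul_of_nonneg_right q6 l2
    linarith
  · obtain ⟨a, ha', rfl⟩ := mem_image.1 ha
    have q1 := h4 (pl e S) (pl e (S ∪ T)) u w (zero_mem_pl _ _) (pl_mono _ subset_union_left) (by
      refine le_trans ?_ (hu w)
      have : (univ.filter fun w' => sub (pl e S) (enc w') = sub (pl e S) (enc w)) =
          univ.filter fun w' => res S (tval tab w') = res S (tval tab w) :=
        filter_congr fun w' _ => by simp only [sub_pl e S (h2 w' w), res_eq_iff, h3]
      rw [this]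
      refine card_image_le _ _ _ fun w1 k1 w2 k2 h => (sub_pl e _ (h2 _ _)).2 fun v hv => ?_
      rw [h3]
      rcases mem_union.1 hv with hv | hv
      · exact (res_eq_iff _ _ _).1 ((mem_filter.1 k1).2.trans (mem_filter.1 k2).2.symm) v hv
      · exact (res_eq_iff _ _ _).1 h v hv)
    have q2 := a4 (pl e S) (pl e (S ∪ T)) (zero_mem_pl _ _) (pl_mono _ subset_union_left) a ha'
    have q3 : (((A.image dr).filter fun a' => res S a' = res S (dr a)).image (res T)).card ≤
        ((A.filter fun a' => sub (pl e S) a' = sub (pl e S) a).image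
          (sub (pl e (S ∪ T)))).card := by
      have : (A.filter fun a' => sub (pl e S) a' = sub (pl e S) a) =
          A.filter fun a' => res S (dr a') = res S (dr a) := filter_congr fun a' h => by
        simp only [sub_pl e S ((a2 a' h).trans (a2 a ha').symm), res_eq_iff, dr]
      rw [filter_image, image_image, this]
      refine card_image_le _ _ _ fun a₁ k1 a₂ k2 h => (res_eq_iff _ _ _).2 fun v hv => ?_
      exact (sub_pl e _ ((a2 _ (mem_filter.1 k1).1).trans (a2 _ (mem_filter.1 k2).1).symm)).1 h v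
        (mem_union_right _ hv)
    refine pow_le_exp ((Nat.mul_le_mul_right _ q3).trans q2) ?_
    have q4 := abs_le.1 (b2 (pl e S) ⟨0, zero_mem_pl _ _⟩)
    have q5 := abs_le.1 (b2 (pl e (S ∪ T)) ⟨0, zero_mem_pl _ _⟩)
    have q6 : μ * (cx U (sub (pl e (S ∪ T)) (enc w)) : ℝ) ≤
        μ * (cx U (sub (pl e S) (enc w)) + u + c1 * (σ3 + 1)) :=
      mul_le_mul_of_nonneg_left (by exact_mod_cast q1) μ0.le
    have q7 : ((cx U (sub (pl e (S ∪ T)) b) + c4 * (σ2 + 1) : ℕ) : ℝ) - cx U (sub (pl e S) b) ≤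
        μ * u + F := by
      push_cast
      linarith [q4.1, q5.2]
    have := mul_le_mul_of_nonneg_right q7 l2
    linarith

end Pool.Agent.Lib.MP_a7c6c3_lc
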