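import Pool.Agent.Lib.MP_a7c6c3_lc.NoComb

/-! Module `ShrinkC`: the structure `Comb` does not exist with polynomial error. -/

set_option autoImplicit false

namespace Pool.Agent.Lib.MP_a7c6c3_lc

theorem no_comb' (s₁ : ℝ) : ∃ s ≥ s₁, ∀ (t e : ℝ) (A : Finset (Var → List Bool)),
    s ^ 1004 ≤ t → t ≤ s ^ 1005 → 0 ≤ e → 6 * e ≤ s → ¬ Comb t e A := by
  obtain ⟨s₀, hpair⟩ := pair_test
  obtain ⟨Cr, hCr, hrc⟩ := rc_exists
  obtain ⟨Cb, hCb, hbits⟩ := bits_exist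
  obtain ⟨k, hD, hC⟩ := NoComb.exists_k (1025 + Cb + s₀ ^ 2 + |s₁|) Cr
  replace hC := hC (by linarith)
  obtain ⟨l, hl⟩ : ∃ l : ℕ, l = 2 ^ k := ⟨_, rfl⟩
  rw [← hl] at hD hC
  have hl1 : 1 ≤ l := hl ▸ Nat.one_le_two_pow
  have hl1' : (1 : ℝ) ≤ l := by exact_mod_cast hl1
  obtain ⟨s, hs⟩ : ∃ s : ℝ, s = 2 ^ l := ⟨_, rfl⟩
  rw [← hs] at hD hC
  have a1 := abs_nonneg s₁
  have a2 := sq_nonneg s₀
  have a3 : |s₁| ≤ |s₁| * l := le_mul_of_one_le_right a1 hl1'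
  have a4 : Cb ≤ Cb * l := le_mul_of_one_le_right (by linarith) hl1'
  have a5 : s₀ ^ 2 ≤ s₀ ^ 2 * l := le_mul_of_one_le_right a2 hl1'
  have b1 : 1025 * (l : ℝ) ≤ s := by linarith
  have b3 : Cb ≤ s := by linarith
  have b4 : s₀ ^ 2 ≤ s := by linarith
  have b5 : 1025 ≤ s := by linarith
  have s1 : 1 ≤ s := by linarith
  have s0 : 0 < s := by linarith
  have hpow : ∀ {a b : ℕ}, a ≤ b → s ^ a ≤ s ^ b := fun h => pow_le_pow_right₀ s1 h
  refine ⟨s, by linarith [le_abs_self s₁], fun t e A h1 h2 h3 he hA => ?_⟩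
  have t0 : 0 < t := lt_of_lt_of_le (by positivity) h1
  obtain ⟨u, u0, hu⟩ : ∃ u : ℝ, 0 ≤ u ∧ u ^ 20 = s ^ 1024 / t :=
    ⟨_, by positivity, Real.rpow_inv_natCast_pow (by positivity) (by norm_num)⟩
  have u1 : u ≤ s := by
    refine le_of_pow_le_pow_left₀ (show 20 ≠ 0 by norm_num) s0.le ?_
    rw [hu, div_le_iff₀ t0]
    calc _ = s ^ 20 * s ^ 1004 := by ring
      _ ≤ _ := by gcongr
  have u2 : s ^ 10 ≤ u ^ 20 := by
    rw [hu, le_div_iff₀ t0]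
    calc _ ≤ s ^ 10 * s ^ 1005 := by gcongr
      _ = s ^ 1015 := by ring
      _ ≤ _ := hpow (by norm_num)
  have u3 : s₀ ≤ u := by
    refine le_of_pow_le_pow_left₀ (show 20 ≠ 0 by norm_num) u0 (le_trans ?_ u2)
    rw [show s₀ ^ 20 = (s₀ ^ 2) ^ 10 by ring]
    gcongr
  have u4 : 0 < u := by
    refine u0.lt_of_ne fun h => ?_
    rw [← h, zero_pow (by norm_num)] at u2
    exact absurd u2 (not_le.2 (by positivity))
  have u5 : t / (s ^ 512) ^ 2 = 1 / u ^ 20 := by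
    rw [hu]
    field_simp
  obtain ⟨P, hF⟩ := facts_of_comb hA h3
  have hN := net_of_facts _ P hF
  obtain ⟨r, hr⟩ : ∃ r : ℕ, r = (2 ^ l) ^ 6 := ⟨_, rfl⟩
  have hr' : (r : ℝ) = s ^ 6 := by rw [hr, hs]; push_cast; rfl
  obtain ⟨j, hj⟩ : ∃ j : ℕ,
    Fintype.card (Fin r × ((Fin (k + 9) → Bool) ⊕ (Fin (k + 9) → Bool))) = j := ⟨_, rfl⟩
  let eq := Fintype.equivFinOfCardEq hj
  have hΛ : Fintype.card (Fin (k + 9) → Bool) = 512 * l := by
    rw [Fintype.card_fun, Fintype.card_bool, Fintype.card_fin, pow_add, ← hl]; ring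
  have hj' : (j : ℝ) + 1 ≤ s ^ 7 := by
    rw [Fintype.card_prod, Fintype.card_sum, Fintype.card_fin, hΛ] at hj
    rw [← hj]
    push_cast
    rw [hr']
    have c1 : 1 ≤ s ^ 6 := one_le_pow₀ s1
    have c2 : s ^ 6 * (1025 * l) ≤ s ^ 6 * s := by gcongr
    have c3 : 1 ≤ s ^ 6 * l := one_le_mul_of_one_le_of_one_le c1 hl1'
    have c4 : s ^ 6 * s = s ^ 7 := by ring
    linarith
  have hR : Fintype.card ((Fin (k + 9) → Bool) → Bool) = 8 * 2 ^ (512 * l - 3) := by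
    rw [Fintype.card_fun, Fintype.card_bool, hΛ, show 8 = 2 ^ 3 by norm_num, ← pow_add]
    congr 1
    omega
  have hq : (8 * ((2 ^ (512 * l - 3) : ℕ) : ℝ)) = s ^ 512 := by
    rw [hs, ← pow_mul, show (8 : ℝ) = 2 ^ 3 by norm_num]
    push_cast
    rw [← pow_add]
    congr 1
    omega
  have hR' : (Fintype.card ((Fin (k + 9) → Bool) → Bool) : ℝ) = s ^ 512 := by
    rw [hR, ← hq]; push_cast; rfl
  have hL : (((2 ^ l) ^ 384 : ℕ) : ℝ) = s ^ 384 := by rw [hs]; push_cast; rfl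
  obtain ⟨B⟩ := hbits _ P t (6 * e) hF j
  obtain ⟨ε, hε⟩ : ∃ ε : ℝ, ε = Cb * ((j : ℝ) + 1) ^ 8 * (6 * e) := ⟨_, rfl⟩
  have e0 : 0 ≤ 6 * e := by linarith
  have e1 : 6 * e ≤ ε := by
    rw [hε]
    exact le_mul_of_one_le_left e0 (one_le_mul_of_one_le_of_one_le hCb
      (one_le_pow₀ (by linarith [Nat.cast_nonneg (α := ℝ) j])))
  have e2 : ε ≤ s ^ 58 := by
    rw [hε]
    calc _ ≤ s * (s ^ 7) ^ 8 * s := by gcongr
      _ = _ := by ring
  have e3 : ε ≤ Cr ^ (k + 9 + 1) * ε := le_mul_of_one_le_left (by linarith) (one_le_pow₀ hCr)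
  have e4 : Cr ^ (k + 9 + 1) * ε ≤ s ^ 59 := by
    calc _ ≤ s * s ^ 58 := mul_le_mul hC e2 (by linarith) s0.le
      _ = _ := by ring
  rw [← hε] at B
  have key := fun i : Fin r => (hrc P _ _ t (6 * e) ε j B hN e1 (k + 9) (by omega)
    ⟨fun x => eq (i, x), fun x y h => (Prod.ext_iff.1 (eq.injective h)).2⟩).elim fun rc =>
    hpair u u3 P _ _ t (6 * e) _ _ B.K _ _ rc (2 ^ (512 * l - 3)) ((2 ^ l) ^ 384) hN
      (e1.trans e3) (by
        have := hpow (show 1 ≤ 1004 by norm_num)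
        rw [pow_one] at this
        linarith)
      (fun σ => NoComb.good_mono (B.good σ) e3) hR (by positivity)
      (by
        rw [← pow_mul]
        exact Nat.pow_le_pow_right (by norm_num) (by omega))
      (by rw [hq]; exact (hpow (by norm_num)).trans h1)
      (by rw [hq]; exact (pow_le_pow_left₀ u0 u1 23).trans (hpow (by norm_num)))
      (by rw [hq, u5])
      (by
        rw [hq, u5]
        gcongr
        norm_num)
      (by
        rw [hq, hL, hR']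
        refine (NoComb.dlt_le (by linarith) e4 ?_).trans (by gcongr)
        rw [mul_comm (Cr ^ _), mul_assoc]
        gcongr)
  choose φ k1 k2 k3 k4 using key
  have fin := amplify hN eq B.K B.good φ (1 / u ^ 4) (1 / (4 * u ^ 4)) k1 k2 k3
    (fun i σ => k4 i σ)
  have e5 : s * s / 2 ≤ (r : ℝ) * (1 / u ^ 4 - 2 * (1 / (4 * u ^ 4))) := by
    rw [hr']
    calc _ = s ^ 6 * (1 / (2 * s ^ 4)) := by field_simp
      _ ≤ s ^ 6 * (1 / (2 * u ^ 4)) := by gcongr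
      _ = _ := by
        field_simp
        ring
  nlinarith

end Pool.Agent.Lib.MP_a7c6c3_lc
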