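import Pool.Agent.Lib.MP_a7c6c3_lc.Model
import Pool.Agent.Lib.MP_a7c6c3_lc.ShrinkA
import Pool.Agent.Lib.MP_a7c6c3_lc.ShrinkB
import Pool.Agent.Lib.MP_a7c6c3_lc.ShrinkC

/-! Module `ShrinkD`: shrinking produces the structure `Comb` with polynomial error. -/

set_option autoImplicit false
open Finset

namespace Pool.Agent.Lib.MP_a7c6c3_lc

theorem root_bounds {s Y Y₀ B C : ℝ} (s1 : 1 ≤ s) (hY₀ : 1 ≤ Y₀) (hC : 1 ≤ C) (Y0 : 0 ≤ Y)
    (h1 : Y₀ ^ 10 ≤ s) (h2 : C ^ 6 ≤ s) (h3 : B ≤ s) (h4 : s ^ 1004 ≤ Y ^ 9999)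
    (h5 : Y ^ 9999 ≤ B * s ^ 2009) : Y₀ ≤ Y ∧ C * Y ^ 4 ≤ s := by
  have a1 : Y₀ ≤ Y := by
    refine le_of_pow_le_pow_left₀ (show 9999 ≠ 0 by norm_num) Y0 (le_trans ?_ h4)
    refine (pow_le_pow_right₀ hY₀ (show 9999 ≤ 10 * 1004 by norm_num)).trans ?_
    rw [pow_mul]
    exact pow_le_pow_left₀ (by positivity) h1 _
  refine ⟨a1, le_of_pow_le_pow_left₀ (show 2499 ≠ 0 by norm_num) (by linarith) ?_⟩
  have a2 : C ^ 2499 ≤ s ^ 489 := by
    refine (pow_le_pow_right₀ hC (show 2499 ≤ 6 * 489 by norm_num)).trans ?_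
    rw [pow_mul]
    exact pow_le_pow_left₀ (by positivity) h2 _
  have a3 : (Y ^ 4) ^ 2499 ≤ s * s ^ 2009 := by
    rw [← pow_mul]
    exact (pow_le_pow_right₀ (hY₀.trans a1) (by norm_num)).trans
      (h5.trans (mul_le_mul_of_nonneg_right h3 (by positivity)))
  rw [mul_pow]
  exact (mul_le_mul a2 a3 (pow_nonneg (pow_nonneg Y0 4) _)
    (pow_nonneg (zero_le_one.trans s1) _)).trans_eq (by rw [← pow_succ', ← pow_add])

open Model in
theorem model_shr {U : List Bool →. List (List Bool)} (hU : Opt U) {k : ℕ} (ek : Var ≃ Fin k)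
    (hH : Shr U (k + 1)) : ∃ s₀ : ℝ, ∀ s ≥ s₀, ∃ (t e : ℝ) (A : Finset (Var → List Bool)),
      s ^ 1004 ≤ t ∧ t ≤ s ^ 1005 ∧ 0 ≤ e ∧ 6 * e ≤ s ∧ Comb t e A := by
  obtain ⟨d, c, d1, c0, hc⟩ := K_gen hU ek
  obtain ⟨Y₀, hY₀, hit⟩ := shr_iter hU hH
  obtain ⟨Cb, hCb⟩ := card_bad
  obtain ⟨K, hK⟩ : ∃ K : ℝ, K = Fintype.card Var * Cb + 1 := ⟨_, rfl⟩
  have hK0 : (0 : ℝ) ≤ Fintype.card Var * Cb := by positivity
  have hK1 : 1 ≤ K := by linarith
  have d1' : (1 : ℝ) ≤ d := by exact_mod_cast d1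
  have hl2 : (0.69 : ℝ) < Real.log 2 := by have := Real.log_two_gt_d9; linarith
  have hl2' : Real.log 2 < 1 := by have := Real.log_two_lt_d9; linarith
  obtain ⟨C, hC⟩ : ∃ C : ℝ, C = 6 * (3 + 10002 * c) := ⟨_, rfl⟩
  have C6 : 6 ≤ C := by linarith
  have y10 : 1 ≤ Y₀ ^ 10 := one_le_pow₀ (by linarith)
  have c6 : 0 ≤ C ^ 6 := by positivity
  have dK : 0 ≤ 186 * d * K := by positivity
  refine ⟨Y₀ ^ 10 + C ^ 6 + 186 * d * K, fun s hs => ?_⟩
  have s1 : 1 ≤ s := by linarith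
  obtain ⟨T, hT⟩ : ∃ T : ℝ, T = s ^ 1004 := ⟨_, rfl⟩
  have T1 : 1 ≤ T := hT ▸ one_le_pow₀ s1
  have hT' : s ^ 1005 = s * T := by rw [hT, pow_succ']
  have sT : 1 ≤ s * T := one_le_mul_of_one_le_of_one_le s1 T1
  have KsT : s * T ≤ K * (s * T) := le_mul_of_one_le_left (by linarith) hK1
  obtain ⟨n, hn1, hn2⟩ : ∃ n : ℕ, K * (s * T) ≤ n ∧ (n : ℝ) ≤ K * (s * T) + 1 :=
    ⟨⌈K * (s * T)⌉₊, Nat.le_ceil _, (Nat.ceil_lt_add_one (by positivity)).le⟩
  obtain ⟨N, hN⟩ : ∃ N : ℕ, N = Fintype.card (Stn n) := ⟨_, rfl⟩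
  have hNn : (n : ℝ) + 1 ≤ N := by rw [hN]; exact_mod_cast le_card_Stn n
  obtain ⟨a₀, ha₀, hc⟩ := hc (Pt × Stn n) (Stn n) (tab n) _ rfl
  have hσ : (Nat.size (Fintype.card (Pt × Stn n)) : ℝ) ≤ 6 * n + 10 := by exact_mod_cast size_le n
  generalize Nat.size (Fintype.card (Pt × Stn n)) = σ at ha₀ hc hσ
  rw [Fintype.card_prod, show Fintype.card Pt = 8 from rfl, ← hN] at ha₀ hc
  obtain ⟨L, hL⟩ : ∃ L : ℕ, L = d * (8 * N + (N + 1) * (σ + 1)) := ⟨_, rfl⟩
  rw [← hL] at ha₀ hc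
  obtain ⟨D, hD⟩ : ∃ D : ℝ, D = d * (σ + 9) := ⟨_, rfl⟩
  have σ0 : (0 : ℝ) ≤ σ := Nat.cast_nonneg _
  have D1 : 1 ≤ D := hD ▸ one_le_mul_of_one_le_of_one_le d1' (by linarith)
  have N1 : (1 : ℝ) ≤ N := by linarith
  have hL1 : D * N ≤ L := by
    rw [hD, hL, mul_assoc]
    push_cast
    gcongr
    linarith
  have hL2 : (L : ℝ) ≤ 2 * (D * N) := by
    rw [hD, hL, mul_assoc, mul_left_comm]
    push_cast
    gcongr
    nlinarith
  obtain ⟨Y, Y0, hY⟩ : ∃ Y : ℝ, 0 ≤ Y ∧ Y ^ 9999 = 6 * D * T :=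
    ⟨_, by positivity, Real.rpow_inv_natCast_pow (by positivity) (by norm_num)⟩
  obtain ⟨y1, y2⟩ := root_bounds (Y := Y) (B := 186 * d * K) (C := C) s1 (by linarith : 1 ≤ Y₀)
    (by linarith) Y0 (by linarith) (by linarith) (by linarith)
    (by rw [hY, ← hT]; exact le_mul_of_one_le_left (by linarith) (by linarith))
    (by
      have h1 : D ≤ d * (31 * (K * (s * T))) := by
        rw [hD]
        gcongr
        linarith
      rw [hY, show 2009 = 1005 + 1004 from rfl, pow_add, hT', ← hT]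
      calc 6 * D * T ≤ 6 * (d * (31 * (K * (s * T)))) * T := by gcongr
        _ = _ := by ring)
  have Y2 : 2 ≤ Y := hY₀.trans y1
  have Y4 : Y ≤ Y ^ 4 := le_self_pow₀ (by linarith) (by norm_num)
  have y3 : 6 * Y ≤ s := le_trans (mul_le_mul C6 Y4 Y0 (by linarith)) y2
  have hY' : Y ^ 10000 ≤ D * (s * T) := by
    rw [pow_succ Y 9999, hY]
    calc 6 * D * T * Y = D * (6 * Y * T) := by ring
      _ ≤ _ := by gcongr
  obtain ⟨μ, m, b, μ0, μ1, m1, m2, m3, m4, m5, m6⟩ := hit Y y1 L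
    (hY'.trans_lt (lt_of_lt_of_le (mul_lt_mul_of_pos_left (by linarith) (by linarith)) hL1)) a₀ ha₀
  obtain ⟨A, hA, htot, hfib⟩ := hc μ (Y ^ 4) _ m b μ0 μ1 m3 (by positivity) m5 m6 rfl
  have hlog := log_le_root (by linarith : 1 ≤ Y) (Nat.cast_nonneg m) m2
  have hlog0 := KMain.half_le_log (Nat.cast_nonneg (α := ℝ) m)
  generalize hE : 2 * Y ^ 4 + c * Real.log (m + 2) = E at htot hfib
  have hE0 : 0 ≤ E := by rw [← hE]; positivity
  have hE1 : 6 * (E + 1) ≤ s := by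
    have h1 : c * Real.log (m + 2) ≤ c * (10002 * Y ^ 4) := by gcongr; linarith
    rw [hC] at y2
    linarith
  obtain ⟨t, ht⟩ : ∃ t : ℝ, t = μ * N * Real.log 2 := ⟨_, rfl⟩
  have μN : 0 ≤ μ * N := by positivity
  have ht1 : T ≤ t := by
    have h1 : 2 * Y ^ 4 ≤ Y ^ 9999 :=
      le_trans (mul_le_mul_of_nonneg_right Y2 (by positivity)) ((pow_succ' Y 4).ge.trans
        (pow_le_pow_right₀ (by linarith) (by norm_num)))
    have h2 := mul_le_mul_of_nonneg_left hL2 μ0.le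
    have h3 : D * (3 * T) ≤ D * (2 * (μ * N)) := by linarith
    have h4 := le_of_mul_le_mul_left h3 (by linarith)
    have h5 := mul_le_mul_of_nonneg_left hl2.le μN
    linarith
  have ht2 : t ≤ s * T := by
    have h2 := mul_le_mul_of_nonneg_left hL1 μ0.le
    have h3 : D * (μ * N) ≤ D * (s * T) := by linarith
    have h4 := le_of_mul_le_mul_left h3 (by linarith)
    have h5 := mul_le_mul_of_nonneg_left hl2'.le μN
    linarith
  have hbad : μ * ((Fintype.card Var * (Bad n).card : ℕ) : ℝ) * Real.log 2 ≤ 1 := by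
    have h1 : ((Bad n).card : ℝ) * n ≤ Cb * N := by
      rw [hN]
      exact_mod_cast hCb n
    have hn0 : (0 : ℝ) < n := by linarith
    have h2 : μ * ((Fintype.card Var * (Bad n).card : ℕ) : ℝ) * Real.log 2 * n ≤
        Fintype.card Var * Cb * t := by
      rw [ht]
      push_cast
      calc _ = (μ * Fintype.card Var * Real.log 2) * ((Bad n).card * n) := by ring
        _ ≤ (μ * Fintype.card Var * Real.log 2) * (Cb * N) :=
          mul_le_mul_of_nonneg_left h1 (by positivity)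
        _ = _ := by ring
    have h3 : (Fintype.card Var : ℝ) * Cb * t ≤ 1 * n := by
      calc _ ≤ (Fintype.card Var : ℝ) * Cb * (s * T) := mul_le_mul_of_nonneg_left ht2 hK0
        _ = (K - 1) * (s * T) := by rw [hK]; ring
        _ ≤ _ := by linarith
    exact le_of_mul_le_mul_right (h2.trans h3) hn0
  refine ⟨t, E + 1, A, hT ▸ ht1, hT' ▸ ht2, by linarith, hE1, hA, ?_, ?_, ?_⟩
  · have := htot _ (card_tot n)
    rw [← hN] at this
    push_cast at this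
    rw [ht]
    linarith
  · intro S T' m' hG a ha
    refine (hfib S T' _ (card_fib n hG) a ha).trans (Real.exp_le_exp.2 ?_)
    rw [← hN, Nat.cast_add, Nat.cast_mul m' N, ht]
    linarith
  · have hq : 0 ≤ μ * Real.log 2 := by positivity
    refine ⟨fun γ γ' => μ * cnt n γ γ' * Real.log 2, fun γ γ' => ?_, fun p => ?_,
      fun γ q => ?_⟩
    · obtain ⟨a, ha⟩ := hA
      have := hfib ∅ {Var.cX γ, Var.cX γ'} _ (fun w => card_col n γ γ' _) a ha
      rw [filter_true_of_mem fun a' _ => (res_eq_iff _ _ _).2 (by simp)] at this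
      exact this.trans (Real.exp_le_exp.2 (by linarith))
    · have h : (cnt n (p, false) (p, false) : ℝ) + cnt n (p, true) (p, true) ≤ N := by
        rw [hN]
        exact_mod_cast cnt_one n p
      rw [ht]
      calc _ = ((cnt n (p, false) (p, false) : ℝ) + cnt n (p, true) (p, true)) *
            (μ * Real.log 2) := by ring
        _ ≤ N * (μ * Real.log 2) := mul_le_mul_of_nonneg_right h hq
        _ = _ := by ring
    · have h : (cnt n γ (q, false) : ℝ) + cnt n γ (q, true) + cnt n (γ.1, !γ.2) (γ.1, !γ.2) ≤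
          2 * N := by
        rw [hN]
        exact_mod_cast cnt_two n γ q
      rw [ht]
      calc _ = ((cnt n γ (q, false) : ℝ) + cnt n γ (q, true) + cnt n (γ.1, !γ.2) (γ.1, !γ.2)) *
            (μ * Real.log 2) := by ring
        _ ≤ (2 * N) * (μ * Real.log 2) := mul_le_mul_of_nonneg_right h hq
        _ = _ := by ring

theorem not_shr {U : List Bool →. List (List Bool)} (hU : Opt U) :
    ¬ Shr U (Fintype.card Var + 1) := by
  intro hH
  obtain ⟨s₀, h0⟩ := model_shr hU (Fintype.equivFin Var) hH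
  obtain ⟨s, hs, h⟩ := no_comb' s₀
  obtain ⟨t, e, A, h1, h2, h3, h4, h5⟩ := h0 s hs
  exact h t e A h1 h2 h3 h4 h5

end Pool.Agent.Lib.MP_a7c6c3_lc
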