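import Pool.Agent.Lib.MP_a7c6c3_lc.Defs

/-!
# The stack system: generators, relations, variables of the configuration
-/

set_option autoImplicit false
open Finset

namespace Pool.Agent.Lib.MP_a7c6c3_lc

/-- Generators: identity, move the top of stack `p` to stack `q`, flip the top of stack `p`. -/
inductive G0
  | one
  | mv (p q : Fin 6)
  | fl (p : Fin 6)
  deriving DecidableEq, Fintype

/-- States: six stacks of bits. -/
abbrev St := Fin 6 → List Bool

/-- The action of the generators; each is a permutation of the states that keeps the total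
length. -/
def ev : G0 → St → St
  | .one, x => x
  | .mv p q, x =>
      if p = q then x else
        match x p with
        | [] => Function.update (Function.update x p (x q)) q []
        | c :: l => Function.update (Function.update x p l) q (c :: x q)
  | .fl p, x =>
      match x p with
      | [] => x
      | c :: l => Function.update x p ((!c) :: l)

/-- All stacks have at least `n` symbols. -/
def Good (n : ℕ) (x : St) : Prop := ∀ p, n ≤ (x p).length

/-- Colours: (stack, value of its top symbol). -/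
abbrev Col := Fin 6 × Bool

/-- The top symbol of stack `γ.1` is `γ.2` (an empty stack counts as `true`). -/
def inQ (γ : Col) (x : St) : Prop := (x γ.1).headD true = γ.2

instance (γ : Col) (x : St) : Decidable (inQ γ x) := by unfold inQ; infer_instance

/-- The relation `h g = h' g'` holds on good states. -/
def Rule2 (h g h' g' : G0) : Prop := ∀ x, Good 2 x → ev h (ev g x) = ev h' (ev g' x)

/-- `g` maps colour `γ` to colour `γ'` on good states. -/
def RuleC (g : G0) (γ γ' : Col) : Prop := ∀ x, Good 2 x → (inQ γ x ↔ inQ γ' (ev g x))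

/-! ### Rewriting of coloured words -/

/-- A word applied to a colour. -/
abbrev CW := List G0 × Col

/-- One rewriting step. -/
inductive Step : CW → CW → Prop
  | r2 (u v : List G0) (h g h' g' : G0) (γ : Col) : Rule2 h g h' g' →
      Step (u ++ h :: g :: v, γ) (u ++ h' :: g' :: v, γ)
  | r1 (u v : List G0) (γ : Col) : Step (u ++ G0.one :: v, γ) (u ++ v, γ)
  | rc (u : List G0) (g : G0) (γ γ' : Col) : RuleC g γ γ' → Step (u ++ [g], γ) (u, γ')

/-- `Rw L n a b`: `a` and `b` are joined by at most `n` steps (in either direction) through words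
of length at most `L`. -/
inductive Rw (L : ℕ) : ℕ → CW → CW → Prop
  | refl (n : ℕ) (a : CW) : a.1.length ≤ L → Rw L n a a
  | step (n : ℕ) (a b c : CW) : a.1.length ≤ L → (Step a b ∨ Step b a) → Rw L n b c →
      Rw L (n + 1) a c

/-- Word of the bit at depth `i` of stack `0`. -/
def bw (i : ℕ) : List G0 := List.replicate i (G0.mv 1 0)

/-- Word flipping the bit at depth `i` of stack `0`. -/
def flipw (i : ℕ) : List G0 :=
  List.replicate i (G0.mv 1 0) ++ G0.fl 0 :: List.replicate i (G0.mv 0 1)

/-- Word of the translation by `σ` (it starts with the identity letter, so it is not empty). -/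
def trw (j : ℕ) (σ : Fin j → Bool) : List G0 :=
  G0.one :: ((List.finRange j).filter σ).flatMap fun i => flipw i

/-! ### Variables of the configuration -/

/-- The eight independent points. -/
inductive Pt
  | X | Y | U | V
  | Ub (b : Bool)
  | Vb (b : Bool)
  deriving DecidableEq, Fintype

/-- The variables. -/
inductive Var
  | pt (p : Pt)
  | al (g : G0)
  | s | r
  | sb (b : Bool)
  | rb (b : Bool)
  | ph (g : G0)
  | ph1 (b : Bool) (g : G0)
  | ph2 (b : Bool) (g : G0)
  | ph3 (b : Bool)
  | sg | sg'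
  | cX (γ : Col)
  | cY (γ : Col)
  | cU (γ : Col)
  | cV (γ : Col)
  deriving DecidableEq, Fintype

/-- The true value of a variable at position `x`, for points `w`. -/
def val0 (v : Var) (w : Pt → St → ZMod 2) (x : St) : ZMod 2 :=
  match v with
  | .pt p => w p x
  | .al g => w .X x + w .Y (ev g x)
  | .s => w .X x + w .U x
  | .r => w .Y x + w .V x
  | .sb b => w .X x + w (.Ub b) x
  | .rb b => w .Y x + w (.Vb b) x
  | .ph g => w .U x + w .V (ev g x)
  | .ph1 b g => w (.Ub b) x + w .V (ev g x)
  | .ph2 b g => w .U x + w (.Vb b) (ev g x)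
  | .ph3 b => w (.Ub b) x + w (.Vb b) x
  | .sg => w .X x + w .Y x + w .U x
  | .sg' => w .X x + w .Y x + w .V x
  | .cX γ => if inQ γ x then w .X x else 0
  | .cY γ => if inQ γ x then w .Y x else 0
  | .cU γ => if inQ γ x then w .U x else 0
  | .cV γ => if inQ γ x then w .V x else 0

/-- Frame variables. -/
def isF : Var → Bool
  | .pt .X | .pt .Y => false
  | .pt _ | .ph _ | .ph1 _ _ | .ph2 _ _ | .ph3 _ | .cU _ | .cV _ => true
  | _ => false

/-- Variables of the extended state of role `u` (0 = `X`, 1 = `Y`, 2 = `X + Y`), frame included. -/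
def isR (u : Fin 3) (v : Var) : Bool :=
  isF v || match v with
    | .pt .X | .s | .sb _ | .cX _ => u = 0
    | .pt .Y | .r | .rb _ | .cY _ => u = 1
    | .al .one | .sg | .sg' => u = 2
    | _ => false

def SF : Finset Var := univ.filter fun v => isF v
def SR (u : Fin 3) : Finset Var := univ.filter fun v => isR u v

/-- On good positions the variables in `T` are determined by those in `S`. -/
def Det (S T : Finset Var) : Prop :=
  ∀ w w' : Pt → St → ZMod 2, (∀ v ∈ S, val0 v w = val0 v w') →
    ∀ v ∈ T, ∀ x, Good 3 x → val0 v w x = val0 v w' x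

/-- `T` is determined by `S` and at most `n` further variables. -/
def Gen (S T : Finset Var) (n : ℕ) : Prop := ∃ E : Finset Var, E.card ≤ n ∧ Det (S ∪ E) T

/-- The combinatorial structure produced by halving and typization: a finite set of tuples with
fibre bounds at scale `t` and error `e`. -/
structure Comb (t e : ℝ) (A : Finset (Var → List Bool)) : Prop where
  ne : A.Nonempty
  tot : 8 * t - e ≤ Real.log A.card
  fib : ∀ S T n, Gen S T n → ∀ a ∈ A,
    (((A.filter fun a' => res S a' = res S a).image (res T)).card : ℝ) ≤ Real.exp (n * t + e)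
  col : ∃ κ : Col → Col → ℝ,
    (∀ γ γ', ((A.image (res {Var.cX γ, Var.cX γ'})).card : ℝ) ≤ Real.exp (κ γ γ' + e)) ∧
    (∀ p, κ (p, false) (p, false) + κ (p, true) (p, true) ≤ t) ∧
    ∀ γ q, κ γ (q, false) + κ γ (q, true) + κ (γ.1, !γ.2) (γ.1, !γ.2) ≤ 2 * t

section Prob

variable {Ω : Type} [Fintype Ω] (val : Var → Ω → List Bool)

/-- The name of a variable. -/
def vn (v : Var) : Nm Ω := det (val v)

/-- The frame. -/
def fF (ω : Ω) : Var → Option (List Bool) := res SF fun v => val v ω

/-- The extended state of role `u`. -/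
def fR (u : Fin 3) (ω : Ω) : Var → Option (List Bool) := res (SR u) fun v => val v ω

/-- The entropy facts about the configuration that the argument uses. -/
structure Facts (P : PS Ω) (val : Var → Ω → List Bool) (t e : ℝ) : Prop where
  e_nonneg : 0 ≤ e
  iXs : P.I (vn val (.pt .X)) (vn val .s) 1 ≤ e
  iFs : P.I (det (fF val)) (vn val .s) 1 ≤ e
  fl_a : ∀ g, P.I (det (fR val 1)) (vn val (.al g)) 1 ≤ e
  fl_b : ∀ g, P.I (det (fR val 0)) (vn val (.al g)) 1 ≤ e
  fl_l : ∀ g, P.I (det (fR val 1)) (vn val (.al g) * vn val (.pt .X)) (vn val (.pt .Y)) ≤ e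
  fl_d : ∀ g, P.D (vn val .s) (vn val (.al g) * vn val .r * vn val (.ph g)) ≤ e
  fl_p : ∀ g, P.I (vn val (.ph g))
    (vn val (.pt .X) * vn val (.pt .Y) * vn val (.al g) * vn val .r * vn val (.pt .V)) 1 ≤ e
  fl_q : ∀ g, P.I (det (fF val))
    (vn val (.pt .X) * vn val (.pt .Y) * vn val (.al g) * vn val .r) (vn val (.pt .V)) ≤ e
  sh_l : P.I (det (fR val 0)) (vn val (.al .one) * vn val (.pt .Y)) (vn val (.pt .X)) ≤ e
  sh_d : P.D (vn val .r) (vn val (.al .one) * vn val .s * vn val (.ph .one)) ≤ e
  sh_p : P.I (vn val (.ph .one))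
    (vn val (.pt .Y) * vn val (.pt .X) * vn val (.al .one) * vn val .s * vn val (.pt .U)) 1 ≤ e
  sh_q : P.I (det (fF val))
    (vn val (.pt .Y) * vn val (.pt .X) * vn val (.al .one) * vn val .s) (vn val (.pt .U)) ≤ e
  r_d2 : ∀ b g, P.D (vn val .s) (vn val (.al g) * vn val (.rb b) * vn val (.ph2 b g)) ≤ e
  r_d3 : ∀ b, P.D (vn val (.rb b)) (vn val (.al .one) * vn val (.sb b) * vn val (.ph3 b)) ≤ e
  r_d1 : ∀ b h, P.D (vn val (.sb b)) (vn val (.al h) * vn val .r * vn val (.ph1 b h)) ≤ e
  r_i : ∀ h g h' g', Rule2 h g h' g' → P.I (vn val (.pt .Y))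
    (vn val .r * (vn val (.ph1 false h) * vn val (.ph3 false) * vn val (.ph2 false g)) *
      (vn val (.ph1 true h') * vn val (.ph3 true) * vn val (.ph2 true g'))) 1 ≤ e
  z_a : P.I (det (fR val 2)) (vn val (.pt .Y)) 1 ≤ e
  z_l : P.I (det (fR val 2)) (vn val (.pt .Y) * vn val (.pt .X)) (vn val (.al .one)) ≤ e
  z_ds : P.D (vn val .s) (vn val .sg * vn val (.pt .Y)) ≤ e
  z_dr : P.D (vn val .r) (vn val .sg' * vn val (.pt .X)) ≤ e
  z_i1 : P.I (vn val (.pt .X) * vn val (.pt .Y) * vn val (.al .one))
    (vn val .sg * vn val .sg' * vn val (.ph .one)) 1 ≤ e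
  z_i2 : P.I (vn val (.pt .X) * vn val (.pt .Y) * vn val (.al .one))
    (vn val .s * vn val (.ph .one)) 1 ≤ e
  net_i : ∀ u v, u ≠ v → P.I (det (fR val u)) (det (fR val v)) (det (fF val)) ≤ e
  net_d : ∀ u, P.D (det (fR val u)) (det (fR val (u + 1)) * det (fR val (u + 2))) ≤ e
  net_x : ∀ g, P.D (det (fR val 0)) (vn val (.al g) * det (fR val 1)) ≤ e
  net_y : P.D (det (fR val 1)) (vn val (.al .one) * det (fR val 0)) ≤ e
  top_lo : t - e ≤ P.D (det (fR val 0)) (det (fF val))
  top_hi : P.D (det (fR val 0)) (det (fF val)) ≤ t + e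
  c_lX : ∀ γ, P.D (vn val (.cX γ)) (vn val (.pt .X)) ≤ e
  c_gX1 : ∀ γ, P.D (vn val (.cX γ)) (vn val .s * vn val (.cU γ)) ≤ e
  c_gX2 : ∀ γ, P.D (vn val (.cU γ)) (vn val (.cX γ) * vn val .s) ≤ e
  c_r1 : ∀ g γ γ', RuleC g γ γ' → P.D (vn val (.cX γ)) (vn val (.al g) * vn val (.cY γ')) ≤ e
  c_r2 : ∀ g γ γ', RuleC g γ γ' → P.D (vn val (.cY γ')) (vn val (.al g) * vn val (.cX γ)) ≤ e
  c_cov : ∀ p, P.D (det (fR val 0))
    (vn val (.cX (p, false)) * vn val (.cX (p, true)) * det (fF val)) ≤ e
  c_1 : ∀ p, P.J (vn val (.cX (p, false))) + P.J (vn val (.cX (p, true))) ≤ t + e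
  c_2 : ∀ γ q, P.J (vn val (.cX γ) * vn val (.cX (q, false))) +
    P.J (vn val (.cX γ) * vn val (.cX (q, true))) + P.J (vn val (.cX (γ.1, !γ.2))) ≤ 2 * t + e
  supp : ∀ u ω, (((univ.filter fun ω' => fF val ω' = fF val ω).image (fR val u)).card : ℝ) ≤
    Real.exp (t + e)

variable (P : PS Ω)

/-- Pull an `X`-name back to role `Y` along the mask of `g`. -/
noncomputable def flat (g : G0) (N : Nm Ω) : Nm Ω := P.R (fR val 1) (vn val (.al g) * N)

/-- Push a `Y`-name to role `X` along the mask of the identity. -/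
noncomputable def sharp (M : Nm Ω) : Nm Ω := P.R (fR val 0) (vn val (.al .one) * M)

/-- The third-role companion of an `X`-name. -/
noncomputable def natu (N : Nm Ω) : Nm Ω := P.R (fR val 2) (vn val (.pt .Y) * N)

/-- The action of a word on `X`-names. -/
noncomputable def act : List G0 → Nm Ω → Nm Ω
  | [], N => N
  | g :: w, N => sharp val P (flat val P g (act w N))

/-- The channel of a word. -/
noncomputable def chanW : List G0 → Chan P
  | [] => Chan.idc P
  | g :: w => ((Chan.step P (fR val 0) (val (.al .one))).comp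
      (Chan.step P (fR val 1) (val (.al g)))).comp (chanW w)

/-- The name of a coloured word. -/
noncomputable def nmW (a : CW) : Nm Ω := act val P a.1 (vn val (.cX a.2))

/-- Translation-invariance defect of an `X`-name. -/
noncomputable def GX (N : Nm Ω) : ℝ := P.D N (vn val .s * P.R (fF val) (N * vn val .s))

end Prob

end Pool.Agent.Lib.MP_a7c6c3_lc
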